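import Pool.Agent.R772.MainK

/-!
Criteria for thin sets.
-/

set_option autoImplicit false

open Set Filter Topology MeasureTheory
open scoped Manifold ContDiff

noncomputable section

namespace Pool.Agent.R772

open Pool.Agent.Y501.SY

section

variable {d : ℕ} {X : Type} [TopologicalSpace X] [ChartedSpace (E d) X]
  [IsManifold (𝓡 d) ∞ X]

/-- sets of two-dimensional Hausdorff measure zero are thin, if the cone contains some form -/
theorem thinP_of_haus {P : PField d X} {C : Set X} (z : X)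
    (hr : ∃ (g : Fin d → X → ℝ) (B : Fin d → Fin d → ℝ), (∀ j, SmoothFun (d := d) (g j)) ∧
      P z ((∑ j, ∑ k, B j k • dfdg (d := d) (g j) (g k) : Form d X 2) z))
    (h : ∃ N ∈ 𝓝 z, μH[2] (chartAt (E d) z '' (C ∩ N ∩ (chartAt (E d) z).source)) = 0) :
    ThinP P C z := by
  obtain ⟨N, hN, hN0⟩ := h
  obtain ⟨g, B, hg, hB⟩ := hr
  choose N' hN' hN0' using fun i : Fin (d * d) => Pool.Agent.Y391.SY.local_null
    (f := fun x => B (finProdFinEquiv.symm i).1 (finProdFinEquiv.symm i).2 *
      g (finProdFinEquiv.symm i).1 x) (g := g (finProdFinEquiv.symm i).2)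
    ((SmoothFun.const _).mul (hg _)) (hg _) z hN0
  refine ⟨d * d, fun i x => B (finProdFinEquiv.symm i).1 (finProdFinEquiv.symm i).2 *
    g (finProdFinEquiv.symm i).1 x, fun i => g (finProdFinEquiv.symm i).2, N ∩ ⋂ i, N' i,
    Filter.inter_mem hN (Filter.iInter_mem.2 hN'), fun i => (SmoothFun.const _).mul (hg _),
    fun i => hg _, fun i => ?_, ?_⟩
  · refine measure_mono_null (image_mono ?_) (hN0' i)
    rintro x ⟨hx, hxN, hxi⟩
    exact ⟨⟨hx, hxN⟩, mem_iInter.1 hxi i⟩
  · convert hB using 1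
    refine form_ext fun v w => ?_
    rw [sum_apply2, sum_apply2, ← finProdFinEquiv.sum_comp, Fintype.sum_prod_type]
    refine Finset.sum_congr rfl fun j _ => ?_
    rw [sum_apply2]
    refine Finset.sum_congr rfl fun k _ => ?_
    have h2 : (B j k • dfdg (d := d) (g j) (g k)) z ![v, w] =
      B j k * dfdg (d := d) (g j) (g k) z ![v, w] := rfl
    rw [h2, dfdg_apply, dfdg_apply]
    simp only [Equiv.symm_apply_apply]
    rw [dd_mul (SmoothFun.const _) (hg _), dd_mul (SmoothFun.const _) (hg _), dd_const,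
      dd_const]
    ring

/-- a vector of the kernel and a linear form which is nonzero on it: `σ ^ m ∧ η` is the product
of `σ ^ m`, the linear form, and the contraction of `η` with the vector -/
theorem wedge_contract {V : Type} [AddCommGroup V] [Module ℝ V] [TopologicalSpace V] {m : ℕ}
    (hn : Module.finrank ℝ V = 2 * (m + 1)) [FiniteDimensional ℝ V]
    (σ η θ : V [⋀^Fin 2]→L[ℝ] ℝ) (k : V) (hk : ∀ w, σ ![k, w] = 0) (l : V →ₗ[ℝ] ℝ)
    (hl : l k = 1) (hθ : ∀ u v, θ ![u, v] = l u * η ![k, v] - l v * η ![k, u])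
    (e : Fin (m + 1) × Fin 2 → V) :
    Pool.Agent.R772.wedge (Fin.cons η (fun _ : Fin m => σ)) e =
      Pool.Agent.R772.wedge (Fin.cons θ (fun _ : Fin m => σ)) e := by
  have hupd0 : ∀ (v w y : V), Function.update ![v, w] 0 y = ![y, w] := by
    intro v w y; funext i; fin_cases i <;> simp
  have hupd1 : ∀ (v w y : V), Function.update ![v, w] 1 y = ![v, y] := by
    intro v w y; funext i; fin_cases i <;> simp
  have hadd0 : ∀ (σ : V [⋀^Fin 2]→L[ℝ] ℝ) (v v' w : V),
      σ ![v + v', w] = σ ![v, w] + σ ![v', w] := by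
    intro σ v v' w
    have h := σ.toAlternatingMap.map_update_add ![v, w] 0 v v'
    rw [hupd0, hupd0, hupd0] at h
    exact h
  have hadd1 : ∀ (σ : V [⋀^Fin 2]→L[ℝ] ℝ) (v w w' : V),
      σ ![v, w + w'] = σ ![v, w] + σ ![v, w'] := by
    intro σ v w w'
    have h := σ.toAlternatingMap.map_update_add ![v, w] 1 w w'
    rw [hupd1, hupd1, hupd1] at h
    exact h
  have hsmul0 : ∀ (σ : V [⋀^Fin 2]→L[ℝ] ℝ) (c : ℝ) (v w : V),
      σ ![c • v, w] = c * σ ![v, w] := by
    intro σ c v w
    have h := σ.toAlternatingMap.map_update_smul ![v, w] 0 c v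
    rw [hupd0, hupd0] at h
    exact h
  have hsmul1 : ∀ (σ : V [⋀^Fin 2]→L[ℝ] ℝ) (c : ℝ) (v w : V),
      σ ![v, c • w] = c * σ ![v, w] := by
    intro σ c v w
    have h := σ.toAlternatingMap.map_update_smul ![v, w] 1 c w
    rw [hupd1, hupd1] at h
    exact h
  have hkk : η ![k, k] = 0 := by
    have := alt_swap η k k
    linarith
  have hk' : ∀ w, σ ![w, k] = 0 := by
    intro w
    rw [alt_swap, hk, neg_zero]
  -- the singular map `v ↦ v - l(v) k`
  let φ : V → V := fun v => v + (-(l v)) • k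
  have hφ : ∀ v, l (φ v) = 0 := by
    intro v
    change l (v + (-(l v)) • k) = 0
    rw [map_add, map_smul, hl, smul_eq_mul]; ring
  have h1 : Pool.Agent.R772.wedge (Fin.cons (η + (-1 : ℝ) • θ) (fun _ : Fin m => σ)) e =
      Pool.Agent.R772.wedge (Fin.cons η (fun _ : Fin m => σ)) (fun k => φ (e k)) := by
    unfold Pool.Agent.R772.wedge
    refine Finset.sum_congr rfl fun π _ => ?_
    congr 1
    refine Finset.prod_congr rfl fun i _ => ?_
    refine Fin.cases ?_ (fun i => ?_) i
    · simp only [Fin.cons_zero]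
      have h2 : (η + (-1 : ℝ) • θ) ![e (π (0, 0)), e (π (0, 1))] =
          η ![e (π (0, 0)), e (π (0, 1))] + (-1) * θ ![e (π (0, 0)), e (π (0, 1))] := rfl
      rw [h2, hθ]
      change _ = η ![e (π (0, 0)) + (-(l (e (π (0, 0))))) • k,
        e (π (0, 1)) + (-(l (e (π (0, 1))))) • k]
      rw [hadd0, hadd1, hadd1, hsmul0, hsmul0, hsmul1, hsmul1, hkk,
        alt_swap η (e (π (0, 0))) k]
      ring
    · simp only [Fin.cons_succ]
      change _ = σ ![e (π (i.succ, 0)) + (-(l (e (π (i.succ, 0))))) • k,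
        e (π (i.succ, 1)) + (-(l (e (π (i.succ, 1))))) • k]
      rw [hadd0, hadd1, hadd1, hsmul0, hsmul0, hsmul1, hsmul1, hk, hk, hk']
      ring
  have h2 : Pool.Agent.R772.wedge (Fin.cons η (fun _ : Fin m => σ)) (fun k => φ (e k)) = 0 := by
    by_contra hne
    have hcard : Fintype.card (Fin (m + 1) × Fin 2) = Module.finrank ℝ V := by
      rw [hn]; simp [mul_comm]
    have hli : LinearIndependent ℝ (fun k => φ (e k)) := by
      by_contra h
      apply hne
      rw [← wedgeAlt_apply]
      exact (wedgeAlt _).map_linearDependent _ h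
    let b := basisOfLinearIndependentOfCardEqFinrank hli hcard
    have hb : ∀ i, b i = φ (e i) := fun i => by
      have := congrFun (coe_basisOfLinearIndependentOfCardEqFinrank hli hcard) i
      exact this
    have hl0 : l = 0 := by
      refine b.ext fun i => ?_
      rw [hb, hφ]; rfl
    rw [hl0] at hl
    exact zero_ne_one hl
  rw [h2, wedge_cons_linear] at h1
  linarith

end

section

variable {d m : ℕ} {X : Type} [TopologicalSpace X] [ChartedSpace (E d) X]
  [IsManifold (𝓡 d) ∞ X]

/-- a smooth function with prescribed differential at a point -/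
theorem exists_fun [T2Space X] (z : X) (l : TangentSpace (𝓡 d) z →L[ℝ] ℝ) :
    ∃ h : X → ℝ, SmoothFun (d := d) h ∧ ∀ v : TangentSpace (𝓡 d) z, dd h z v = l v := by
  let c := chartAt (E d) z
  have hz : z ∈ c.source := mem_chart_source (E d) z
  have hcd : c.MDifferentiable (𝓡 d) (𝓡 d) := mdifferentiable_chart (I := 𝓡 d) z
  let A : TangentSpace (𝓡 d) z ≃L[ℝ] E d := hcd.mfderiv hz
  obtain ⟨b⟩ : Nonempty (SmoothBumpFunction (𝓡 d) z) := inferInstance
  let F : X → E d := fun x => b x • c x
  have hF : ContMDiff (𝓡 d) 𝓘(ℝ, E d) ∞ F := b.contMDiff_smul (contMDiffOn_chart (I := 𝓡 d))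
  have hFc : F =ᶠ[𝓝 z] c := by
    filter_upwards [b.eventuallyEq_one] with x hx
    change b x • c x = c x
    rw [hx]
    exact one_smul ℝ (c x)
  let L : E d →L[ℝ] ℝ := l.comp (A.symm : E d →L[ℝ] TangentSpace (𝓡 d) z)
  have hcdz : MDifferentiableAt (𝓡 d) 𝓘(ℝ, E d) c z := hcd.mdifferentiableAt hz
  refine ⟨fun x => L (F x), L.contDiff.contMDiff.comp hF, fun v => ?_⟩
  have e1 : (fun x => L (F x)) =ᶠ[𝓝 z] L ∘ c := by
    filter_upwards [hFc] with x hx
    change L (F x) = L (c x)
    rw [hx]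
  unfold dd
  rw [e1.mfderiv_eq, mfderiv_comp z
    (L.contDiff.contMDiff.mdifferentiableAt (n := 1) one_ne_zero) hcdz,
    mfderiv_eq_fderiv, ContinuousLinearMap.fderiv]
  change l (A.symm (A v)) = l v
  rw [A.symm_apply_apply]

/-- a subset of the zero set of a smooth function whose differential does not vanish on the
kernel is thin -/
theorem thinP_of_fun [T2Space X] (hd : d = 2 * (m + 1)) {vol : Top d m X} (hvol : IsVol vol)
    {σ : Form d X 2} {C : Set X} {z : X}
    (hr : ∃ (τ : (TangentSpace (𝓡 d) z) [⋀^Fin 2]→L[ℝ] ℝ)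
      (e : Fin (m + 1) × Fin 2 → TangentSpace (𝓡 d) z),
      Pool.Agent.R772.wedge (Fin.cons τ (fun _ : Fin m => σ z)) e ≠ 0)
    {g : X → ℝ} (hg : SmoothFun (d := d) g) (hgC : ∀ x ∈ C, g x = 0)
    {k : TangentSpace (𝓡 d) z} (hk : ∀ w, σ z ![k, w] = 0) (hgk : dd g z k ≠ 0) :
    ThinP (PK vol σ) C z := by
  obtain ⟨τ, e₀, hτ⟩ := hr
  obtain ⟨f, hf⟩ := hvol.frame z
  have hfd := fin_tangent (d := d) z
  have hfr := finrank_tangent hd z
  have h1 := frame_iff' hd vol hf _ hτ
  -- normalise the kernel vector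
  let k' : TangentSpace (𝓡 d) z := (dd g z k)⁻¹ • k
  have hk' : ∀ w, σ z ![k', w] = 0 := by
    intro w
    have h := (σ z).toAlternatingMap.map_update_smul ![k, w] 0 (dd g z k)⁻¹ k
    have hupd0 : ∀ (v w y : TangentSpace (𝓡 d) z), Function.update ![v, w] 0 y = ![y, w] := by
      intro v w y; funext i; fin_cases i <;> simp
    rw [hupd0, hupd0] at h
    have h2 : σ z ![(dd g z k)⁻¹ • k, w] = (dd g z k)⁻¹ * σ z ![k, w] := h
    change σ z ![(dd g z k)⁻¹ • k, w] = 0
    rw [h2, hk, mul_zero]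
  have hgk' : dd g z k' = 1 := by
    change dd g z ((dd g z k)⁻¹ • k) = 1
    rw [map_smul, smul_eq_mul]
    exact inv_mul_cancel₀ hgk
  -- the contraction of `τ` with the kernel vector
  let c : TangentSpace (𝓡 d) z →ₗ[ℝ] ℝ :=
    { toFun := fun v => τ ![k', v]
      map_add' := by
        intro v w
        have h := τ.toAlternatingMap.map_update_add ![k', v] 1 v w
        have hupd1 : ∀ (v w y : TangentSpace (𝓡 d) z),
            Function.update ![v, w] 1 y = ![v, y] := by
          intro v w y; funext i; fin_cases i <;> simp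
        rw [hupd1, hupd1, hupd1] at h
        exact h
      map_smul' := by
        intro r v
        have h := τ.toAlternatingMap.map_update_smul ![k', v] 1 r v
        have hupd1 : ∀ (v w y : TangentSpace (𝓡 d) z),
            Function.update ![v, w] 1 y = ![v, y] := by
          intro v w y; funext i; fin_cases i <;> simp
        rw [hupd1, hupd1] at h
        exact h }
  have hT2 : T2Space (TangentSpace (𝓡 d) z) := inferInstanceAs (T2Space (E d))
  obtain ⟨h, hh, hhd⟩ := exists_fun (d := d) z (LinearMap.toContinuousLinearMap c)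
  have h2 : Pool.Agent.R772.wedge (Fin.cons (dfdg (d := d) g h z) (fun _ : Fin m => σ z)) f ≠ 0 := by
    rw [← wedge_contract hfr (σ z) τ (dfdg (d := d) g h z) k' hk'
      ((dd g z : TangentSpace (𝓡 d) z →L[ℝ] ℝ) : TangentSpace (𝓡 d) z →ₗ[ℝ] ℝ) hgk' (by
        intro u v
        rw [dfdg_apply, hhd, hhd]
        rfl)]
    exact h1
  -- choose the sign
  have h3 : ∃ s : ℝ, 0 < s * Pool.Agent.R772.wedge
      (Fin.cons (dfdg (d := d) g h z) (fun _ : Fin m => σ z)) f := by
    rcases lt_or_gt_of_ne h2 with h0 | h0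
    · exact ⟨-1, by linarith⟩
    · exact ⟨1, by linarith⟩
  obtain ⟨s, hs⟩ := h3
  refine ⟨1, fun _ => g, fun _ x => s * h x, univ, univ_mem, fun _ => hg,
    fun _ => (SmoothFun.const s).mul hh, fun _ => ?_, ?_⟩
  · refine measure_mono_null (t := ({0} : Set ℝ) ×ˢ (univ : Set ℝ)) ?_ ?_
    · rintro _ ⟨x, hx, rfl⟩
      exact ⟨hgC x hx.1, trivial⟩
    · rw [Measure.volume_eq_prod, Measure.prod_prod, Real.volume_singleton, zero_mul]
  · refine (frame_iff hd vol hf _).2 ?_
    have h4 : (∑ _i : Fin 1, dfdg (d := d) g (fun x => s * h x) : Form d X 2) z =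
        s • dfdg (d := d) g h z := by
      refine form_ext fun v w => ?_
      rw [sum_apply2, Fin.sum_univ_one, dfdg_apply, dd_mul (SmoothFun.const s) hh,
        dd_mul (SmoothFun.const s) hh, dd_const, dd_const]
      have h5 : (s • dfdg (d := d) g h z) ![v, w] = s * dfdg (d := d) g h z ![v, w] := rfl
      rw [h5, dfdg_apply]
      ring
    rw [h4, wedge_cons_smul]
    exact hs

end

end Pool.Agent.R772
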