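import Pool.Agent.R772.PubK
import Pool.Agent.R772.Small
import Pool.Agent.Y501.SY.Bridge

/-!
Comparison with the working definitions.
-/

set_option autoImplicit false

open Set Filter Topology MeasureTheory
open scoped Manifold ContDiff

noncomputable section

namespace Pool.Agent.R772.SYK

open Pool.Agent.Y501.SYP
open Pool.Agent.Y501

section

variable {m d : ℕ} {X : Type} [TopologicalSpace X] [ChartedSpace (ES d) X]

attribute [local instance] Pool.Agent.Y501.SYP.cs
attribute [local instance] Pool.Agent.Y501.SYP.mf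

/-- the volume form as a working form -/
abbrev toTop (vol : TopForm (ES d) X m) : R772.Top d m X := vol

theorem vol_of {vol : TopForm (ES d) X m}
    (h : IsVolume vol) : R772.IsVol (d := d) (m := m) (X := X) (toTop vol) :=
  ⟨h.ne, h.cont⟩

theorem deg_iff (hd : d = 2 * (m + 1)) {vol : TopForm (ES d) X m}
    (hvol : IsVolume vol) {σ : Form (ES d) X 2} (hnn : TopNonneg vol σ) (x : X) :
    x ∈ Deg m σ ↔ ¬ R772.PosTop (d := d) (m := m) (X := X) (toTop vol) σ x := by
  constructor
  · intro h hp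
    obtain ⟨f, hf⟩ := (vol_of hvol).frame x
    have h1 := hp f hf
    exact absurd (lt_of_lt_of_eq h1 (h f)) (lt_irrefl _)
  · intro h e
    exact R772.top_zero (d := d) (m := m) (X := X) hd (vol := toTop vol) (σ := σ)
      (x := x) (fun e he => hnn x e he) h e

theorem small_of (hd : d = 2 * (m + 1)) [IsManifold 𝓘(ℝ, ES d) ∞ X] [T2Space X]
    {vol : TopForm (ES d) X m}
    (hvol : IsVolume vol) {σ : Form (ES d) X 2} {C : Set X} {z : X}
    (h : SmallAt vol σ C z) :
    R772.ThinP (d := d) (X := X) (R772.PK (d := d) (m := m) (X := X) (toTop vol) σ) C z := by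
  rcases h with ⟨hr, h | ⟨g, hg, hgC, k, hk, hgk⟩⟩ | ⟨n, a, b, θ, hab, hθ, hpos⟩
  · exact R772.thinP_of_haus (d := d) (X := X) z
      (R772.LinPos.exists (d := d) (X := X) hd (vol_of hvol) z hr) h
  · exact R772.thinP_of_fun (d := d) (X := X) hd (vol_of hvol) hr (g := g) hg hgC hk hgk
  · choose N hN hN0 using fun i => (hab i).null
    refine ⟨n, a, b, ⋂ i, N i, Filter.iInter_mem.2 hN, fun i => (hab i).smooth_a,
      fun i => (hab i).smooth_b, fun i => ?_, ?_⟩
    · exact measure_mono_null (image_mono (inter_subset_inter_right _ (iInter_subset _ _)))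
        (hN0 i)
    · have e1 : (∑ i, SY.dfdg (d := d) (X := X) (a i) (b i) : SY.Form d X 2) z = θ := by
        refine R772.form_ext fun v w => ?_
        refine (SY.sum_apply2 (d := d) (X := X) Finset.univ
          (fun i => SY.dfdg (d := d) (X := X) (a i) (b i)) z ![v, w]).trans
          (Eq.trans ?_ (hθ v w).symm)
        exact Finset.sum_congr rfl fun i _ =>
          SY.dfdg_apply (d := d) (X := X) (a i) (b i) z v w
      rw [e1]
      intro e he
      exact hpos e he

theorem smallCorank (hd : d = 2 * (m + 1)) [IsManifold 𝓘(ℝ, ES d) ∞ X] [CompactSpace X]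
    [T2Space X] (vol : TopForm (ES d) X m) (hvol : IsVolume vol) (σ ζ : Form (ES d) X 2)
    (hσ : IsClosed2 σ) (hζ : IsClosed2 ζ) (hnn : TopNonneg vol σ)
    {p : ℕ} {Y : Type} [TopologicalSpace Y] [ChartedSpace (ES p) Y]
    [IsManifold 𝓘(ℝ, ES p) ∞ Y] [T2Space Y]
    (f : X → Y) (hf : KernelMap (W := ES p) m σ f)
    (hcomp : ∀ z ∈ Deg m σ, Good vol σ ζ (Comp m σ f z)) :
    ∃ (α : Form (ES d) X 1) (ρ : Form (ES d) X 2), IsSmooth α ∧ IsSmooth ρ ∧ IsD α ρ ∧
      ∃ t₀ : ℝ, 0 < t₀ ∧ ∀ t : ℝ, 0 < t → t ≤ t₀ →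
        IsPosSymplectic vol (comb σ t (addF ζ ρ)) := by
  have hset : Deg m σ = {x | ¬ R772.PosTop (d := d) (m := m) (X := X) (toTop vol) σ x} :=
    Set.ext fun x => deg_iff hd hvol hnn x
  obtain ⟨α, ρ, h1, h2, h3, t₀, ht₀, h4⟩ := R772.mainK (d := d) (m := m) (X := X) hd
    (vol := toTop vol) (vol_of hvol) (σ := σ) (ζ := ζ) ((smooth_iff σ).1 hσ.smooth)
    ((closed_iff σ).1 hσ.closed) ((smooth_iff ζ).1 hζ.smooth) ((closed_iff ζ).1 hζ.closed)
    (fun x e he => hnn x e he) (p := p) (Y := Y) (f := f) hf.smooth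
    (fun x hx v hv => hf.ker x ((deg_iff hd hvol hnn x).2 hx) v hv) (by
      intro z hz
      obtain ⟨β, ρ, g1, g2, g3, g4, g5⟩ := hcomp z ((deg_iff hd hvol hnn z).2 hz)
      unfold Comp at g4 g5
      rw [hset] at g4 g5
      refine ⟨β, ρ, (smooth_iff β).1 g1, (smooth_iff ρ).1 g2, (isD_iff β ρ).1 g3,
        fun x hx e he => g4 x hx e he, ?_⟩
      have hset2 : {x | x ∈ connectedComponentIn
            ({x | ¬ R772.PosTop (d := d) (m := m) (X := X) (toTop vol) σ x} ∩ f ⁻¹' {f z}) z ∧
            ¬ R772.LinPos (d := d) (m := m) (X := X) (toTop vol) σ (addF ζ ρ) x} =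
          Deg2 m σ (addF ζ ρ) (connectedComponentIn
            ({x | ¬ R772.PosTop (d := d) (m := m) (X := X) (toTop vol) σ x} ∩ f ⁻¹' {f z}) z) := by
        ext x
        refine and_congr_right fun hx => ?_
        constructor
        · intro h e
          unfold R772.LinPos at h
          push Not at h
          obtain ⟨f', hf', hf0⟩ := h
          have k1 : R772.wedge (Fin.cons (addF ζ ρ x) (fun _ : Fin m => σ x)) f' = 0 :=
            le_antisymm hf0 (g4 x hx f' hf')
          by_contra hne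
          exact R772.frame_iff' (d := d) (m := m) (X := X) hd (toTop vol) hf' _ hne k1
        · intro h hp
          obtain ⟨f', hf'⟩ := (vol_of hvol).frame x
          have k1 := hp f' hf'
          exact absurd (lt_of_lt_of_eq k1 (h f')) (lt_irrefl _)
      intro w hw
      have hw' : w ∈ Deg2 m σ (addF ζ ρ) (connectedComponentIn
            ({x | ¬ R772.PosTop (d := d) (m := m) (X := X) (toTop vol) σ x} ∩
              f ⁻¹' {f z}) z) := by
        rw [← hset2]; exact hw
      have h5 := small_of hd hvol (g5 w hw')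
      rw [← hset2] at h5
      exact h5)
  refine ⟨α, ρ, (smooth_iff α).2 h1, (smooth_iff ρ).2 h2, (isD_iff α ρ).2 h3, t₀, ht₀,
    fun t ht0 ht1 => ?_⟩
  obtain ⟨e1, e2, e3⟩ := h4 t ht0 ht1
  exact ⟨⟨(smooth_iff _).2 e1, (closed_iff _).2 e2⟩,
    fun x v hv => R772.PosTop.nondeg (d := d) (m := m) (X := X) hd (vol_of hvol) (e3 x) v hv,
    fun x e he => e3 x e he⟩

end

end Pool.Agent.R772.SYK
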