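import Pool.Agent.R772.Dual

/-!
The duality criterion.
-/

set_option autoImplicit false

open Set Filter Topology MeasureTheory
open scoped Manifold ContDiff

noncomputable section

namespace Pool.Agent.R772

open Pool.Agent.Y501.SY

section

variable {d m : ℕ} {X : Type} [TopologicalSpace X] [ChartedSpace (E d) X]
  [IsManifold (𝓡 d) ∞ X]

/-- the differentials of smooth one-forms -/
def ExactF (ρ : Form d X 2) : Prop := ∃ β : Form d X 1, IsSmooth β ∧ IsSmooth ρ ∧ IsD β ρ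

/-- the densities of the forms `σ ^ m ∧ dα` -/
def exactDens (hd : d = 2 * (m + 1)) {vol : Top d m X} (hvol : IsVol vol) (σ : Form d X 2) :
    Submodule ℝ (X → ℝ) where
  carrier := {f | ∃ ρ : Form d X 2, ExactF ρ ∧ f = md vol σ ρ}
  add_mem' := by
    rintro _ _ ⟨ρ, ⟨β, h1, h2, h3⟩, rfl⟩ ⟨ρ', ⟨β', h1', h2', h3'⟩, rfl⟩
    refine ⟨ρ + ρ', ⟨β + β', h1.add h1', h2.add h2', h3.add h3' h1 h1'⟩, ?_⟩
    funext x
    exact (md_add hd hvol σ ρ ρ' x).symm
  zero_mem' := by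
    refine ⟨0, ⟨0, IsSmooth.zero, IsSmooth.zero, IsD.zero⟩, ?_⟩
    funext x
    have h := md_smul hd hvol σ (0 : Form d X 2) 0 x
    rw [zero_smul, zero_mul] at h
    exact h.symm
  smul_mem' := by
    rintro c _ ⟨ρ, ⟨β, h1, h2, h3⟩, rfl⟩
    refine ⟨c • ρ, ⟨c • β, h1.smul c, h2.smul c, h3.smul c⟩, ?_⟩
    funext x
    exact (md_smul hd hvol σ ρ c x).symm

theorem td_zero (hd : d = 2 * (m + 1)) {vol : Top d m X} (hvol : IsVol vol) {σ : Form d X 2}
    {x : X} (hnn : NonnegTop vol σ x) (hx : ¬ PosTop vol σ x) : td vol σ x = 0 := by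
  obtain ⟨f, hf⟩ := hvol.frame x
  have h1 := hnn f hf
  rw [td_spec hd hvol] at h1
  rw [posTop_iff hd hvol, not_lt] at hx
  have h2 : 0 ≤ td vol σ x := by
    by_contra h
    push Not at h
    have := mul_neg_of_neg_of_pos h hf
    linarith
  exact le_antisymm hx h2

/-- the current `η ↦ ∫ (σ ^ m ∧ η / vol) dμ` is carried by the degenerate set and closed -/
structure IsCurr [MeasurableSpace X] (vol : Top d m X) (σ : Form d X 2) (μ : Measure X) :
    Prop where
  fin : IsFiniteMeasure μ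
  ne : μ ≠ 0
  car : μ {x | PosTop vol σ x} = 0
  closed : ∀ ρ : Form d X 2, ExactF ρ → ∫ x, md vol σ ρ x ∂μ = 0

theorem isOpen_posTop (hd : d = 2 * (m + 1)) {vol : Top d m X} (hvol : IsVol vol)
    {σ : Form d X 2} (hσ : IsSmooth σ) : IsOpen {x | PosTop vol σ x} := by
  rw [isOpen_iff_eventually]
  intro x hx
  exact PosTop.nhds hd hvol hσ hx

/-- no closed current on the degenerate set is nonpositive on `ζ`: then some exact form can be
added -/
theorem dual12 [CompactSpace X] [T2Space X] [MeasurableSpace X] [BorelSpace X]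
    (hd : d = 2 * (m + 1)) {vol : Top d m X} (hvol : IsVol vol) {σ ζ : Form d X 2}
    (hσ : IsSmooth σ) (hζ : IsSmooth ζ)
    (h : ∀ μ : Measure X, IsCurr vol σ μ → 0 < ∫ x, md vol σ ζ x ∂μ) :
    ∃ ρ : Form d X 2, ExactF ρ ∧ ∀ x, ¬ PosTop vol σ x → LinPos vol σ (ζ + ρ) x := by
  by_contra hno
  push Not at hno
  have hK : IsCompact {x | PosTop vol σ x}ᶜ :=
    (isOpen_posTop hd hvol hσ).isClosed_compl.isCompact
  obtain ⟨μ, h1, h2, h3, h4, h5⟩ := sep_measure hK (exactDens hd hvol σ) (by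
    rintro _ ⟨ρ, ⟨β, _, hρ, _⟩, rfl⟩
    exact md_cont hd hvol hσ hρ) (md vol σ ζ) (md_cont hd hvol hσ hζ) (by
    rintro _ ⟨ρ, hρ, rfl⟩ hpos
    obtain ⟨x, hx, hx2⟩ := hno ρ hρ
    apply hx2
    rw [linPos_iff hd hvol, md_add hd hvol]
    exact hpos x hx)
  rw [compl_compl] at h3
  exact absurd (h μ ⟨h1, h2, h3, fun ρ hρ => h4 _ ⟨ρ, hρ, rfl⟩⟩) (not_lt.2 h5)

theorem integrable_of_cont [CompactSpace X] [T2Space X] [MeasurableSpace X] [BorelSpace X] {μ : Measure X}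
    [IsFiniteMeasure μ] {g : X → ℝ} (hg : Continuous g) : Integrable g μ := by
  have h := hg.continuousOn.integrableOn_compact (μ := μ) (K := (univ : Set X)) isCompact_univ
  rwa [integrableOn_univ] at h

/-- the converse: closed currents on the degenerate set are positive on `ζ` -/
theorem dual31 [CompactSpace X] [T2Space X] [MeasurableSpace X] [BorelSpace X]
    (hd : d = 2 * (m + 1)) {vol : Top d m X} (hvol : IsVol vol) {σ ζ ρ : Form d X 2}
    (hσ : IsSmooth σ) (hζ : IsSmooth ζ) (hρ : ExactF ρ)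
    (hpos : ∀ x, ¬ PosTop vol σ x → 0 < md vol σ (ζ + ρ) x)
    {μ : Measure X} (hμ : IsCurr vol σ μ) : 0 < ∫ x, md vol σ ζ x ∂μ := by
  have := hμ.fin
  obtain ⟨β, h1, h2, h3⟩ := hρ
  have hc : Continuous (md vol σ (ζ + ρ)) := md_cont hd hvol hσ (hζ.add h2)
  have hae : ∀ᵐ x ∂μ, x ∉ {x | PosTop vol σ x} := measure_eq_zero_iff_ae_notMem.1 hμ.car
  have hsum : ∫ x, md vol σ (ζ + ρ) x ∂μ = ∫ x, md vol σ ζ x ∂μ := by
    have e1 : ∀ x, md vol σ (ζ + ρ) x = md vol σ ζ x + md vol σ ρ x :=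
      fun x => md_add hd hvol σ ζ ρ x
    simp_rw [e1]
    rw [integral_add (integrable_of_cont (md_cont hd hvol hσ hζ))
      (integrable_of_cont (md_cont hd hvol hσ h2)), hμ.closed ρ ⟨β, h1, h2, h3⟩, add_zero]
  rw [← hsum]
  rw [integral_pos_iff_support_of_nonneg_ae (hae.mono fun x hx => (hpos x hx).le)
    (integrable_of_cont hc)]
  have h4 : {x | PosTop vol σ x}ᶜ ⊆ Function.support (md vol σ (ζ + ρ)) := fun x hx =>
    (hpos x hx).ne'
  refine lt_of_lt_of_le ?_ (measure_mono h4)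
  rw [measure_compl (isOpen_posTop hd hvol hσ).measurableSet (by rw [hμ.car]; simp), hμ.car,
    tsub_zero]
  exact pos_iff_ne_zero.2 fun h0 => hμ.ne (Measure.measure_univ_eq_zero.1 h0)

omit [IsManifold (𝓡 d) ∞ X] in
theorem closed_comb_aux {σ θ : Form d X 2} (hσ : IsSmooth σ) (hσc : IsClosedForm σ)
    (hθ : IsSmooth θ) (hθc : IsClosedForm θ) (t : ℝ) : IsClosedForm (σ + t • θ) := by
  have h5 := hσc.add (hθc.smul t) hσ (hθ.smul t)
  have h6 : (0 : Form d X 3) + t • (0 : Form d X 3) = 0 := by rw [smul_zero, add_zero]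
  rw [h6] at h5
  exact h5

theorem closed_comb {σ ζ ρ : Form d X 2} {β : Form d X 1} (hσ : IsSmooth σ)
    (hσc : IsClosedForm σ) (hζ : IsSmooth ζ) (hζc : IsClosedForm ζ) (hβ : IsSmooth β)
    (hρ : IsSmooth ρ) (hβρ : IsD β ρ) (t : ℝ) : IsClosedForm (σ + t • (ζ + ρ)) := by
  have hcl : IsClosedForm (ζ + ρ) := by
    have h5 := hζc.add (prod_closed hβ hρ hβρ) hζ hρ
    rwa [add_zero] at h5
  exact closed_comb_aux hσ hσc (hζ.add hρ) hcl t

end

end Pool.Agent.R772
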