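import Pool.Agent.R772.PubD
import Pool.Agent.R772.DualK
import Pool.Agent.R772.BridgeK

/-!
The duality criterion in terms of the public definitions.
-/

set_option autoImplicit false

open Set Filter Topology MeasureTheory
open scoped Manifold ContDiff

noncomputable section

namespace Pool.Agent.R772.SYD

open Pool.Agent.Y501.SYP
open Pool.Agent.Y501
open Pool.Agent.R772.SYK
open Pool.Agent.R772.SYF

section

variable {m d : ℕ} {X : Type} [TopologicalSpace X] [ChartedSpace (ES d) X]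

attribute [local instance] Pool.Agent.Y501.SYP.cs
attribute [local instance] Pool.Agent.Y501.SYP.mf

theorem density_eq (vol : TopForm (ES d) X m) (σ η : Form (ES d) X 2) (x : X) :
    density vol σ η x = R772.md (d := d) (m := m) (X := X) (toTop vol) σ η x := rfl

theorem exactF_iff (ρ : Form (ES d) X 2) :
    R772.ExactF (d := d) (X := X) ρ ↔ ∃ α : Form (ES d) X 1, ExactPair α ρ := by
  constructor
  · rintro ⟨β, h1, h2, h3⟩
    exact ⟨β, (smooth_iff β).2 h1, (smooth_iff ρ).2 h2, (isD_iff β ρ).2 h3⟩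
  · rintro ⟨β, h1, h2, h3⟩
    exact ⟨β, (smooth_iff β).1 h1, (smooth_iff ρ).1 h2, (isD_iff β ρ).1 h3⟩

theorem curr_iff [MeasurableSpace X] (hd : d = 2 * (m + 1)) {vol : TopForm (ES d) X m}
    (hvol : IsVolume vol) {σ : Form (ES d) X 2} (hnn : TopNonneg vol σ) (μ : Measure X) :
    IsClosedCurrent vol σ μ ↔ R772.IsCurr (d := d) (m := m) (X := X) (toTop vol) σ μ := by
  have hset : (Deg m σ)ᶜ = {x | R772.PosTop (d := d) (m := m) (X := X) (toTop vol) σ x} := by
    ext x
    rw [mem_compl_iff, deg_iff hd hvol hnn x, not_not]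
    rfl
  constructor
  · rintro ⟨h1, h2, h3, h4⟩
    refine ⟨h1, h2, by rw [← hset]; exact h3, fun ρ hρ => ?_⟩
    obtain ⟨α, hα⟩ := (exactF_iff ρ).1 hρ
    exact h4 α ρ hα
  · rintro ⟨h1, h2, h3, h4⟩
    refine ⟨h1, h2, by rw [hset]; exact h3, fun α ρ hα => ?_⟩
    exact h4 ρ ((exactF_iff ρ).2 ⟨α, hα⟩)

theorem duality (hd : d = 2 * (m + 1)) [IsManifold 𝓘(ℝ, ES d) ∞ X] [CompactSpace X]
    [T2Space X] [MeasurableSpace X] [BorelSpace X] (vol : TopForm (ES d) X m)
    (hvol : IsVolume vol) (σ ζ : Form (ES d) X 2)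
    (hσ : IsClosed2 σ) (hζ : IsClosed2 ζ) (hnn : TopNonneg vol σ) :
    List.TFAE [
      ∃ (α : Form (ES d) X 1) (ρ : Form (ES d) X 2) (c : ℝ), ExactPair α ρ ∧
        SymplecticUpTo vol σ (addF ζ ρ) c,
      ∃ (α : Form (ES d) X 1) (ρ : Form (ES d) X 2), ExactPair α ρ ∧
        PosOnDeg vol σ (addF ζ ρ),
      ∀ μ : Measure X, IsClosedCurrent vol σ μ → 0 < ∫ x, density vol σ ζ x ∂μ] := by
  have hσs := (smooth_iff σ).1 hσ.smooth
  have hζs := (smooth_iff ζ).1 hζ.smooth
  tfae_have 3 → 2 := by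
    intro h
    obtain ⟨ρ, hρ, hpos⟩ := R772.dual12 (d := d) (m := m) (X := X) hd (vol := toTop vol)
      (vol_of hvol) (σ := σ) (ζ := ζ) hσs hζs
      (fun μ hμ => h μ ((curr_iff hd hvol hnn μ).2 hμ))
    obtain ⟨α, hα⟩ := (exactF_iff ρ).1 hρ
    exact ⟨α, ρ, hα, fun x hx e he => hpos x ((deg_iff hd hvol hnn x).1 hx) e he⟩
  tfae_have 2 → 1 := by
    rintro ⟨α, ρ, hα, hpos⟩
    have hρs := (smooth_iff ρ).1 hα.smooth_d
    have hθs : SY.IsSmooth (d := d) (X := X) (addF ζ ρ) := SY.IsSmooth.add hζs hρs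
    obtain ⟨c, hc, h⟩ := R772.quant (d := d) (m := m) (X := X) hd (vol := toTop vol)
      (vol_of hvol) (σ := σ) (η := addF ζ ρ) hσs hθs (fun x e he => hnn x e he)
      (fun x hx e he => hpos x ((deg_iff hd hvol hnn x).2 hx) e he)
    have hcl := R772.closed_comb (d := d) (X := X) (σ := σ) (ζ := ζ) (ρ := ρ) (β := α)
      hσs ((closed_iff σ).1 hσ.closed) hζs ((closed_iff ζ).1 hζ.closed)
      ((smooth_iff α).1 hα.smooth) hρs ((isD_iff α ρ).1 hα.isD)
    refine ⟨α, ρ, c, hα, hc, fun t h0 h1 => ?_, fun t h0 h1 x e he => ?_⟩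
    · have hp : ∀ x, R772.PosTop (d := d) (m := m) (X := X) (toTop vol)
          (comb σ t (addF ζ ρ)) x := fun x =>
        (R772.posTop_iff (d := d) (m := m) (X := X) hd (vol_of hvol) _ x).2
          (lt_of_lt_of_le (mul_pos hc h0) (h t h0 h1 x))
      refine ⟨⟨(smooth_iff _).2 (hσs.add (hθs.smul t)), (closed_iff _).2 (hcl t)⟩,
        fun x v hv => R772.PosTop.nondeg (d := d) (m := m) (X := X) hd (vol_of hvol) (hp x) v hv,
        fun x e he => hp x e he⟩
    · have h5 := R772.td_spec (d := d) (m := m) (X := X) hd (vol_of hvol)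
        (comb σ t (addF ζ ρ)) x e
      have h6 : c * t ≤ R772.td (d := d) (m := m) (X := X) (toTop vol)
        (comb σ t (addF ζ ρ)) x := h t h0 h1 x
      have h7 : top m (comb σ t (addF ζ ρ)) x e = R772.td (d := d) (m := m) (X := X)
        (toTop vol) (comb σ t (addF ζ ρ)) x * vol x e := h5
      rw [h7]
      exact mul_le_mul_of_nonneg_right h6 he.le
  tfae_have 1 → 3 := by
    rintro ⟨α, ρ, c, hα, hc, -, hgr⟩ μ hμ
    refine R772.dual31 (d := d) (m := m) (X := X) hd (vol := toTop vol) (vol_of hvol)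
      (σ := σ) (ζ := ζ) (ρ := ρ) hσs hζs ((exactF_iff ρ).2 ⟨α, hα⟩) (fun x hx => ?_)
      ((curr_iff hd hvol hnn μ).1 hμ)
    refine R772.quant_conv (d := d) (m := m) (X := X) hd (vol_of hvol)
      (R772.td_zero (d := d) (m := m) (X := X) hd (vol_of hvol) (fun e he => hnn x e he) hx)
      hc (fun t h0 h1 => ?_)
    obtain ⟨f, hf⟩ := (vol_of hvol).frame x
    have h5 := R772.td_spec (d := d) (m := m) (X := X) hd (vol_of hvol)
        (comb σ t (addF ζ ρ)) x f
    have h6 : c * t * vol x f ≤ R772.td (d := d) (m := m) (X := X) (toTop vol)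
        (comb σ t (addF ζ ρ)) x * vol x f := (hgr t h0 h1 x f hf).trans (le_of_eq h5)
    exact le_of_mul_le_mul_right h6 hf
  tfae_finish

end

end Pool.Agent.R772.SYD
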