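import Pool.Agent.R772.Fam

/-!
Continuous families of closed two-forms with nonnegative top power.
-/

set_option autoImplicit false

open Set Filter Topology MeasureTheory
open scoped Manifold ContDiff

noncomputable section

namespace Pool.Agent.R772

open Pool.Agent.Y501.SY

section

variable {d m : ℕ} {X : Type} [TopologicalSpace X] [ChartedSpace (E d) X]
  {P : Type} [TopologicalSpace P]

theorem linPos_sum {vol : Top d m X} {σ : Form d X 2} {x : X} {n : ℕ} (c : Fin n → ℝ)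
    (ρ : Fin n → Form d X 2) (h0 : ∀ i, 0 ≤ c i) (h1 : ∀ i, 0 < c i → LinPos vol σ (ρ i) x)
    (h2 : ∃ i, 0 < c i) : LinPos vol σ (∑ i, c i • ρ i) x := by
  intro e he
  have hsum : ∀ s : Finset (Fin n),
      wedge (Fin.cons ((∑ i ∈ s, c i • ρ i : Form d X 2) x) (fun _ : Fin m => σ x)) e =
      ∑ i ∈ s, c i * wedge (Fin.cons (ρ i x) (fun _ : Fin m => σ x)) e := by
    intro s
    induction s using Finset.induction_on with
    | empty =>
      rw [Finset.sum_empty, Finset.sum_empty]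
      exact wedge_cons_zero _ _
    | insert a s ha ih =>
      rw [Finset.sum_insert ha, Finset.sum_insert ha, ← ih]
      have h3 : (c a • ρ a + ∑ i ∈ s, c i • ρ i : Form d X 2) x =
        c a • ρ a x + (∑ i ∈ s, c i • ρ i : Form d X 2) x := rfl
      rw [h3, wedge_cons_add, wedge_cons_smul]
  rw [hsum]
  obtain ⟨i₀, hi₀⟩ := h2
  refine Finset.sum_pos' (fun i _ => ?_) ⟨i₀, Finset.mem_univ _, mul_pos hi₀ (h1 i₀ hi₀ e he)⟩
  rcases (h0 i).eq_or_lt with h | h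
  · rw [← h, zero_mul]
  · exact (mul_pos h (h1 i h e he)).le

variable [IsManifold (𝓡 d) ∞ X]

/-- the parameters for which the form is positive everywhere form an open set -/
theorem isOpen_pos [CompactSpace X] (hd : d = 2 * (m + 1)) {vol : Top d m X}
    (hvol : IsVol vol) {σ : P → Form d X 2} (hσ : ContFam σ) :
    IsOpen {p | ∀ x, PosTop vol (σ p) x} := by
  rw [isOpen_iff_eventually]
  intro p hp
  have h := isCompact_univ.eventually_forall_of_forall_eventually (X := P) (x₀ := p)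
    (K := (univ : Set X)) (P := fun p x => PosTop vol (σ p) x) (by
      intro x _
      obtain ⟨ε, hε, he⟩ := PosTop.fam hd hvol hσ (ContFam.zero (P := P)) (hp x)
      filter_upwards [he] with y hy
      have := hy 0 (by rw [abs_zero]; exact hε.le)
      simpa using this)
  filter_upwards [h] with q hq x
  exact hq x (mem_univ x)

theorem famK [CompactSpace X] [T2Space X] [CompactSpace P] [T2Space P]
    (hd : d = 2 * (m + 1)) {vol : Top d m X}
    (hvol : IsVol vol) {σ : P → Form d X 2} (hσf : ContFam σ) (hσ : ∀ p, IsSmooth (σ p))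
    (hσc : ∀ p, IsClosedForm (σ p)) (hnn : ∀ p x, NonnegTop vol (σ p) x)
    (hloc : ∀ p, (∃ x, ¬ PosTop vol (σ p) x) → ∃ (β : Form d X 1) (ρ : Form d X 2),
      IsSmooth β ∧ IsSmooth ρ ∧ IsD β ρ ∧
        ∀ x, ¬ PosTop vol (σ p) x → LinPos vol (σ p) ρ x)
    {Q : Set P} (hQ : IsClosed Q) (hpos : ∀ q ∈ Q, ∀ x, PosTop vol (σ q) x) :
    ∃ (n : ℕ) (β : Fin n → Form d X 1) (ρ : Fin n → Form d X 2) (φ : Fin n → C(P, ℝ)),
      (∀ i, IsSmooth (β i) ∧ IsSmooth (ρ i) ∧ IsD (β i) (ρ i)) ∧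
      (∀ i p, 0 ≤ φ i p) ∧ (∀ i, ∀ q ∈ Q, φ i q = 0) ∧
      ∀ t : ℝ, 0 < t → t ≤ 1 → ∀ p, IsSmooth (σ p + t • ∑ i, φ i p • ρ i) ∧
        IsClosedForm (σ p + t • ∑ i, φ i p • ρ i) ∧
        ∀ x, PosTop vol (σ p + t • ∑ i, φ i p • ρ i) x := by
  classical
  -- local exact forms and bump functions
  have hbump : ∀ p₀, (∃ x, ¬ PosTop vol (σ p₀) x) → ∃ (β : Form d X 1) (ρ : Form d X 2)
      (b : C(P, ℝ)), (IsSmooth β ∧ IsSmooth ρ ∧ IsD β ρ) ∧ (∀ p, 0 ≤ b p) ∧
        (∀ q ∈ Q, b q = 0) ∧ 0 < b p₀ ∧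
        ∀ p, 0 < b p → ∀ x, ¬ PosTop vol (σ p) x → LinPos vol (σ p) ρ x := by
    intro p₀ hp₀
    obtain ⟨β, ρ, h1, h2, h3, h4⟩ := hloc p₀ hp₀
    have hp₀Q : p₀ ∉ Q := by
      intro h
      obtain ⟨x, hx⟩ := hp₀
      exact hx (hpos p₀ h x)
    have hU1 := isCompact_univ.eventually_forall_of_forall_eventually (X := P) (x₀ := p₀)
      (K := (univ : Set X))
      (P := fun p x => ¬ PosTop vol (σ p) x → LinPos vol (σ p) ρ x) (by
        intro x _
        by_cases hx : PosTop vol (σ p₀) x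
        · obtain ⟨ε, hε, he⟩ := PosTop.fam hd hvol hσf (ContFam.zero (P := P)) hx
          filter_upwards [he] with y hy hn
          have := hy 0 (by rw [abs_zero]; exact hε.le)
          exact absurd (by simpa using this) hn
        · have := LinPos.fam (P := P) hd hvol hσf (IsSmooth.contFam (P := P) h2)
            (p₀ := p₀) (x := x) (h4 x hx)
          filter_upwards [this] with y hy _
          exact hy)
    have hU : {p | p ∉ Q ∧ ∀ x, ¬ PosTop vol (σ p) x → LinPos vol (σ p) ρ x} ∈ 𝓝 p₀ := by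
      filter_upwards [hU1, hQ.isOpen_compl.mem_nhds hp₀Q] with p hp hpQ
      exact ⟨hpQ, fun x => hp x (mem_univ x)⟩
    obtain ⟨b, hb0, hb1, hb⟩ := exists_continuous_zero_one_of_isClosed
      (s := (interior {p | p ∉ Q ∧ ∀ x, ¬ PosTop vol (σ p) x → LinPos vol (σ p) ρ x})ᶜ)
      (t := {p₀}) isOpen_interior.isClosed_compl isClosed_singleton (by
        rw [disjoint_singleton_right]
        intro h
        exact h (mem_interior_iff_mem_nhds.2 hU))
    refine ⟨β, ρ, b, ⟨h1, h2, h3⟩, fun p => (hb p).1, fun q hq => ?_, ?_, ?_⟩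
    · exact hb0 (fun h => (interior_subset h).1 hq)
    · rw [hb1 (mem_singleton p₀)]; exact one_pos
    · intro p hp
      by_contra hcon
      have h5 : p ∈ (interior {p | p ∉ Q ∧ ∀ x, ¬ PosTop vol (σ p) x →
          LinPos vol (σ p) ρ x})ᶜ := fun h => hcon (interior_subset h).2
      rw [hb0 h5] at hp
      exact lt_irrefl _ hp
  choose! β ρ b hβρ hb0 hbQ hbp hb using hbump
  have hK : IsCompact {p | ∃ x, ¬ PosTop vol (σ p) x} := by
    have h1 := (isOpen_pos hd hvol hσf).isClosed_compl.isCompact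
    have h2 : {p | ∀ x, PosTop vol (σ p) x}ᶜ = {p | ∃ x, ¬ PosTop vol (σ p) x} := by
      ext p
      simp only [mem_compl_iff, mem_ofPred_eq, not_forall]
    rwa [h2] at h1
  obtain ⟨T, hTK, hT⟩ := hK.elim_nhds_subcover (fun p₀ => {p | 0 < b p₀ p}) (by
    intro p₀ hp₀
    exact (isOpen_lt continuous_const (b p₀).continuous).mem_nhds (hbp p₀ hp₀))
  let e := T.equivFin.symm
  let β' : Fin T.card → Form d X 1 := fun i => β (e i).1
  let ρ' : Fin T.card → Form d X 2 := fun i => ρ (e i).1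
  let b' : Fin T.card → C(P, ℝ) := fun i => b (e i).1
  have hβρ' : ∀ i, IsSmooth (β' i) ∧ IsSmooth (ρ' i) ∧ IsD (β' i) (ρ' i) := fun i =>
    hβρ _ (hTK _ (e i).2)
  let η : P → Form d X 2 := fun p => ∑ i, b' i p • ρ' i
  have hηf : ContFam η := by
    refine ContFam.sum Finset.univ (σ := fun i p => b' i p • ρ' i) fun i => ?_
    exact (IsSmooth.contFam (P := P) (hβρ' i).2.1).smul (b' i).continuous
  have hηpos : ∀ p x, ¬ PosTop vol (σ p) x → LinPos vol (σ p) (η p) x := by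
    intro p x hx
    refine linPos_sum (fun i => b' i p) ρ' (fun i => hb0 _ (hTK _ (e i).2) p)
      (fun i hi => hb _ (hTK _ (e i).2) p hi x hx) ?_
    have hp : p ∈ ⋃ p₀ ∈ T, {p | 0 < b p₀ p} := hT ⟨x, hx⟩
    simp only [mem_iUnion, mem_ofPred_eq] at hp
    obtain ⟨p₀, hp₀, hpp⟩ := hp
    refine ⟨T.equivFin ⟨p₀, hp₀⟩, ?_⟩
    change 0 < b (e (T.equivFin ⟨p₀, hp₀⟩)).1 p
    have : e (T.equivFin ⟨p₀, hp₀⟩) = ⟨p₀, hp₀⟩ := T.equivFin.symm_apply_apply _
    rw [this]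
    exact hpp
  obtain ⟨t₀, ht₀, ht⟩ := unif (X := P × X) isCompact_univ
    (fun ε y => ∀ t : ℝ, 0 < t → t ≤ ε → PosTop vol (σ y.1 + t • η y.1) y.2)
    (fun ε ε' y hle hp t h0 h1 => hp t h0 (h1.trans hle))
    (by
      rintro ⟨p, x⟩ _
      by_cases hx : PosTop vol (σ p) x
      · obtain ⟨ε, hε, he⟩ := PosTop.fam hd hvol hσf hηf hx
        exact ⟨ε, hε, he.mono fun y hy t h0 h1 => hy t (by rw [abs_of_pos h0]; exact h1)⟩
      · exact LinPos.topFam hd hvol hσf hηf hnn (hηpos p x hx))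
  refine ⟨T.card, β', ρ', fun i => t₀ • b' i, hβρ', fun i p => ?_, fun i q hq => ?_, ?_⟩
  · exact mul_nonneg ht₀.le (hb0 _ (hTK _ (e i).2) p)
  · change t₀ * b' i q = 0
    rw [hbQ _ (hTK _ (e i).2) q hq, mul_zero]
  · intro t h0 h1 p
    have hη : t • ∑ i, (t₀ • b' i) p • ρ' i = (t * t₀) • η p := by
      change t • ∑ i, (t₀ * b' i p) • ρ' i = (t * t₀) • ∑ i, b' i p • ρ' i
      rw [mul_smul, Finset.smul_sum (r := t₀)]
      congr 1
      refine Finset.sum_congr rfl fun i _ => ?_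
      rw [mul_smul]
    rw [hη]
    have hs : ∀ s : Finset (Fin T.card), IsSmooth (∑ i ∈ s, b' i p • ρ' i) ∧
        IsClosedForm (∑ i ∈ s, b' i p • ρ' i) := by
      intro s
      induction s using Finset.induction_on with
      | empty =>
        rw [Finset.sum_empty]
        refine ⟨IsSmooth.zero (d := d) (X := X) (k := 2), ?_⟩
        have h3 : IsD ((0 : ℝ) • σ p) ((0 : ℝ) • (0 : Form d X 3)) :=
          (hσc p).smul 0
        rw [zero_smul, zero_smul] at h3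
        exact h3
      | insert a s ha ih =>
        rw [Finset.sum_insert ha]
        have h5 := (prod_closed (hβρ' a).1 (hβρ' a).2.1 (hβρ' a).2.2).smul (b' a p)
        have h6 := h5.add ih.2 ((hβρ' a).2.1.smul _) ih.1
        refine ⟨((hβρ' a).2.1.smul _).add ih.1, ?_⟩
        unfold IsClosedForm
        simpa using h6
    obtain ⟨hs1, hs2⟩ := hs Finset.univ
    refine ⟨(hσ p).add (hs1.smul _), ?_, fun x => ?_⟩
    · have h5 := (hσc p).add (hs2.smul (t * t₀)) (hσ p) (hs1.smul (t * t₀))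
      have h6 : (0 : Form d X 3) + (t * t₀) • (0 : Form d X 3) = 0 := by
        rw [smul_zero, add_zero]
      first
        | (rw [h6] at h5; exact h5)
        | exact h5
    · refine ht (p, x) (mem_univ _) (t * t₀) (mul_pos h0 ht₀) ?_
      calc t * t₀ ≤ 1 * t₀ := by gcongr
        _ = t₀ := one_mul _

theorem linPos_zero_add {vol : Top d m X} {σ ζ ρ : Form d X 2} {x : X} (hζ : ζ x = 0)
    (h : LinPos vol σ (ζ + ρ) x) : LinPos vol σ ρ x := by
  intro e he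
  have h1 := h e he
  have h2 : (ζ + ρ) x = ρ x := by
    change ζ x + ρ x = ρ x
    rw [hζ, zero_add]
  rwa [h2] at h1

/-- the first half of `mainK` -/
theorem locK [CompactSpace X] [T2Space X] (hd : d = 2 * (m + 1)) {vol : Top d m X}
    (hvol : IsVol vol) {σ ζ : Form d X 2} (hσ : IsSmooth σ)
    (hζ : IsSmooth ζ) (hnn : ∀ x, NonnegTop vol σ x)
    {p : ℕ} {Y : Type} [TopologicalSpace Y] [ChartedSpace (E p) Y] [IsManifold (𝓡 p) ∞ Y]
    [T2Space Y] {f : X → Y} (hf : ContMDiff (𝓡 d) (𝓡 p) ∞ f)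
    (hker : ∀ x, ¬ PosTop vol σ x → ∀ v : TangentSpace (𝓡 d) x, (∀ w, σ x ![v, w] = 0) →
      mfderiv (𝓡 d) (𝓡 p) f x v = 0)
    (hcomp : ∀ z, ¬ PosTop vol σ z → ∃ (β : Form d X 1) (ρ : Form d X 2), IsSmooth β ∧
      IsSmooth ρ ∧ IsD β ρ ∧
      (∀ x ∈ connectedComponentIn ({x | ¬ PosTop vol σ x} ∩ f ⁻¹' {f z}) z,
        LinNonneg vol σ (ζ + ρ) x) ∧
      ∀ w, w ∈ {x | x ∈ connectedComponentIn ({x | ¬ PosTop vol σ x} ∩ f ⁻¹' {f z}) z ∧
        ¬ LinPos vol σ (ζ + ρ) x} →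
        ThinP (PK vol σ) (connectedComponentIn
          {x | x ∈ connectedComponentIn ({x | ¬ PosTop vol σ x} ∩ f ⁻¹' {f z}) z ∧
            ¬ LinPos vol σ (ζ + ρ) x} w) w) :
    ∃ (β : Form d X 1) (ρ : Form d X 2), IsSmooth β ∧ IsSmooth ρ ∧ IsD β ρ ∧
      ∀ x, ¬ PosTop vol σ x → LinPos vol σ (ζ + ρ) x := by
  have hC := isCone_PK hd hvol hσ hnn
  have hD : IsClosed {x | ¬ PosTop vol σ x} := by
    have : IsOpen {x | PosTop vol σ x} := by
      rw [isOpen_iff_eventually]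
      intro x hx
      exact PosTop.nhds hd hvol hσ hx
    exact this.isClosed_compl
  obtain ⟨β, ρ, h1, h2, h3, h4⟩ := hC.main hD hf hker hζ (by
    intro z hz
    obtain ⟨β, ρ, g1, g2, g3, g4, g5⟩ := hcomp z hz
    refine ⟨β, ρ, g1, g2, g3, fun x hx a ha e he => ?_, g5⟩
    rw [wedge_cons_add]
    exact add_pos_of_nonneg_of_pos (g4 x hx e he) (ha e he))
  exact ⟨β, ρ, h1, h2, h3, fun x hx => h4 x hx⟩

omit [IsManifold (𝓡 d) ∞ X] in
theorem sum_form {n : ℕ} (σ : Form d X 2) (t : ℝ) (c : Fin n → ℝ) (ρ : Fin n → Form d X 2) :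
    (σ + t • ∑ i, c i • ρ i : Form d X 2) = fun x => σ x + t • ∑ i, c i • ρ i x := by
  funext x
  have h5 : (∑ i, c i • ρ i : Form d X 2) x = ∑ i, c i • ρ i x :=
    (Finset.sum_apply x Finset.univ (fun i => c i • ρ i)).trans rfl
  change σ x + t • (∑ i, c i • ρ i : Form d X 2) x = _
  rw [h5]

theorem famK' [CompactSpace X] [T2Space X] [CompactSpace P] [T2Space P]
    (hd : d = 2 * (m + 1)) {vol : Top d m X}
    (hvol : IsVol vol) {σ : P → Form d X 2} (hσf : ContFam σ) (hσ : ∀ p, IsSmooth (σ p))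
    (hσc : ∀ p, IsClosedForm (σ p)) (hnn : ∀ p x, NonnegTop vol (σ p) x)
    (hloc : ∀ p, (∃ x, ¬ PosTop vol (σ p) x) → ∃ (β : Form d X 1) (ρ : Form d X 2),
      IsSmooth β ∧ IsSmooth ρ ∧ IsD β ρ ∧
        ∀ x, ¬ PosTop vol (σ p) x → LinPos vol (σ p) ρ x)
    {Q : Set P} (hQ : IsClosed Q) (hpos : ∀ q ∈ Q, ∀ x, PosTop vol (σ q) x) :
    ∃ (n : ℕ) (β : Fin n → Form d X 1) (ρ : Fin n → Form d X 2) (φ : Fin n → C(P, ℝ)),
      (∀ i, IsSmooth (β i) ∧ IsSmooth (ρ i) ∧ IsD (β i) (ρ i)) ∧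
      (∀ i p, 0 ≤ φ i p) ∧ (∀ i, ∀ q ∈ Q, φ i q = 0) ∧
      ∀ t : ℝ, 0 < t → t ≤ 1 → ∀ p,
        IsSmooth (d := d) (X := X) (fun x => σ p x + t • ∑ i, φ i p • ρ i x) ∧
        IsClosedForm (d := d) (X := X) (fun x => σ p x + t • ∑ i, φ i p • ρ i x) ∧
        (∀ x, PosTop (d := d) (X := X) vol (fun x => σ p x + t • ∑ i, φ i p • ρ i x) x) ∧
        ∀ (x : X) (v : TangentSpace (𝓡 d) x),
          (∀ w, (σ p x + t • ∑ i, φ i p • ρ i x) ![v, w] = 0) → v = 0 := by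
  obtain ⟨n, β, ρ, φ, h1, h2, h3, h4⟩ := famK hd hvol hσf hσ hσc hnn hloc hQ hpos
  refine ⟨n, β, ρ, φ, h1, h2, h3, fun t ht0 ht1 p => ?_⟩
  have h5 := h4 t ht0 ht1 p
  rw [sum_form] at h5
  exact ⟨h5.1, h5.2.1, h5.2.2, fun x v hv =>
    PosTop.nondeg (d := d) (m := m) (X := X) hd hvol (h5.2.2 x) v hv⟩

end

end Pool.Agent.R772
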