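import Pool.Agent.R772.PubF
import Pool.Agent.R772.FamK
import Pool.Agent.R772.BridgeK

/-!
Continuous families of closed two-forms with nonnegative top power: the theorem in terms of the
public definitions.
-/

set_option autoImplicit false

open Set Filter Topology MeasureTheory
open scoped Manifold ContDiff

noncomputable section

namespace Pool.Agent.R772.SYF

open Pool.Agent.Y501.SYP
open Pool.Agent.Y501
open Pool.Agent.R772.SYK

section

variable {m d : ℕ} {X : Type} [TopologicalSpace X] [ChartedSpace (ES d) X]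

attribute [local instance] Pool.Agent.Y501.SYP.cs
attribute [local instance] Pool.Agent.Y501.SYP.mf

/-- exact forms which are positive over the degenerate set -/
theorem exists_exact (hd : d = 2 * (m + 1)) [IsManifold 𝓘(ℝ, ES d) ∞ X] [CompactSpace X]
    [T2Space X] (vol : TopForm (ES d) X m) (hvol : IsVolume vol) (σ : Form (ES d) X 2)
    (hσ : IsClosed2 σ) (hnn : TopNonneg vol σ) (hs : SmallDegeneracy vol σ) :
    ∃ (β : SY.Form d X 1) (ρ : SY.Form d X 2), SY.IsSmooth β ∧ SY.IsSmooth ρ ∧ SY.IsD β ρ ∧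
      ∀ x, ¬ R772.PosTop (d := d) (m := m) (X := X) (toTop vol) σ x →
        R772.LinPos (d := d) (m := m) (X := X) (toTop vol) σ ρ x := by
  obtain ⟨k, Y, _, _, _, _, f, ⟨hf, hcomp⟩⟩ := hs
  obtain ⟨ζ, hζd⟩ : ∃ ζ : Form (ES d) X 2, ζ = zeroF (ES d) X := ⟨_, rfl⟩
  rw [← hζd] at hcomp
  have hζs : SY.IsSmooth (d := d) (X := X) ζ := by
    rw [hζd]
    exact SY.IsSmooth.zero (d := d) (X := X) (k := 2)
  have hset : Deg m σ = {x | ¬ R772.PosTop (d := d) (m := m) (X := X) (toTop vol) σ x} :=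
    Set.ext fun x => deg_iff hd hvol hnn x
  obtain ⟨β, ρ, h1, h2, h3, h4⟩ := R772.locK (d := d) (m := m) (X := X) hd
    (vol := toTop vol) (vol_of hvol) (σ := σ) (ζ := ζ) ((smooth_iff σ).1 hσ.smooth)
    hζs (fun x e he => hnn x e he) (p := k) (Y := Y) (f := f) hf.smooth
    (fun x hx v hv => hf.ker x ((deg_iff hd hvol hnn x).2 hx) v hv) (by
      intro z hz
      obtain ⟨β, ρ, g1, g2, g3, g4, g5⟩ := hcomp z ((deg_iff hd hvol hnn z).2 hz)
      unfold Comp at g4 g5
      rw [hset] at g4 g5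
      refine ⟨β, ρ, (smooth_iff β).1 g1, (smooth_iff ρ).1 g2, (isD_iff β ρ).1 g3,
        fun x hx e he => g4 x hx e he, ?_⟩
      have hset2 : {x | x ∈ connectedComponentIn
            ({x | ¬ R772.PosTop (d := d) (m := m) (X := X) (toTop vol) σ x} ∩ f ⁻¹' {f z}) z ∧
            ¬ R772.LinPos (d := d) (m := m) (X := X) (toTop vol) σ (addF ζ ρ) x} =
          Deg2 m σ (addF ζ ρ) (connectedComponentIn
            ({x | ¬ R772.PosTop (d := d) (m := m) (X := X) (toTop vol) σ x} ∩ f ⁻¹' {f z}) z) := by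
        ext x
        refine and_congr_right fun hx => ?_
        constructor
        · intro h e
          unfold R772.LinPos at h
          push Not at h
          obtain ⟨f', hf', hf0⟩ := h
          have k1 : R772.wedge (Fin.cons (addF ζ ρ x) (fun _ : Fin m => σ x)) f' = 0 :=
            le_antisymm hf0 (g4 x hx f' hf')
          by_contra hne
          exact R772.frame_iff' (d := d) (m := m) (X := X) hd (toTop vol) hf' _ hne k1
        · intro h hp
          obtain ⟨f', hf'⟩ := (vol_of hvol).frame x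
          have k1 := hp f' hf'
          exact absurd (lt_of_lt_of_eq k1 (h f')) (lt_irrefl _)
      intro w hw
      have hw' : w ∈ Deg2 m σ (addF ζ ρ) (connectedComponentIn
            ({x | ¬ R772.PosTop (d := d) (m := m) (X := X) (toTop vol) σ x} ∩
              f ⁻¹' {f z}) z) := by
        rw [← hset2]; exact hw
      have h5 := small_of hd hvol (g5 w hw')
      rw [← hset2] at h5
      exact h5)
  exact ⟨β, ρ, h1, h2, h3, fun x hx => R772.linPos_zero_add (d := d) (m := m) (X := X)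
    (ζ := ζ) (by rw [hζd]; rfl) (h4 x hx)⟩

theorem families (hd : d = 2 * (m + 1)) [IsManifold 𝓘(ℝ, ES d) ∞ X] [CompactSpace X]
    [T2Space X] (vol : TopForm (ES d) X m) (hvol : IsVolume vol)
    {P : Type} [TopologicalSpace P] [CompactSpace P] [T2Space P] {Q : Set P} (hQ : IsClosed Q)
    (σ : P → Form (ES d) X 2) (hσ : IsFamily vol σ) (hsmall : ∀ p, SmallDegeneracy vol (σ p))
    (hsymp : ∀ q ∈ Q, IsPosSymplectic vol (σ q)) :
    ∃ (n : ℕ) (α : Fin n → Form (ES d) X 1) (ρ : Fin n → Form (ES d) X 2)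
      (φ : Fin n → P → ℝ), IsCompression vol Q σ α ρ φ := by
  obtain ⟨hcont, hcl, hnn⟩ := hσ
  obtain ⟨n, β, ρ, φ, h1, h2, h3, h4⟩ := R772.famK' (d := d) (m := m) (X := X) (P := P) hd
    (vol := toTop vol) (vol_of hvol) (σ := σ) hcont (fun p => (smooth_iff (σ p)).1 (hcl p).smooth)
    (fun p => (closed_iff (σ p)).1 (hcl p).closed) (fun p x e he => hnn p x e he)
    (fun p _ => exists_exact hd vol hvol (σ p) (hcl p) (hnn p) (hsmall p))
    (Q := Q) hQ (fun q hq x e he => (hsymp q hq).pos x e he)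
  refine ⟨n, β, ρ, fun i p => φ i p, ⟨fun i => ⟨(smooth_iff _).2 (h1 i).1,
    (smooth_iff _).2 (h1 i).2.1, (isD_iff _ _).2 (h1 i).2.2⟩, fun i => (φ i).continuous,
    h2, h3, fun t ht0 ht1 p => ?_⟩⟩
  obtain ⟨e1, e2, e3, e4⟩ := h4 t ht0 ht1 p
  exact ⟨⟨(smooth_iff _).2 e1, (closed_iff _).2 e2⟩, fun x v hv => e4 x v hv,
    fun x e he => e3 x e he⟩

end

end Pool.Agent.R772.SYF
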