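import Pool.Agent.R772.BridgeF
import Pool.Agent.R772.BridgeD

/-!
Continuous families of closed two-forms with nonnegative top power whose degenerate sets carry no
closed currents.
-/

set_option autoImplicit false

open Set Filter Topology MeasureTheory
open scoped Manifold ContDiff

noncomputable section

namespace Pool.Agent.R772.SYD

open Pool.Agent.Y501.SYP
open Pool.Agent.Y501
open Pool.Agent.R772.SYK
open Pool.Agent.R772.SYF

section

variable {m d : ℕ} {X : Type} [TopologicalSpace X] [ChartedSpace (ES d) X]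

attribute [local instance] Pool.Agent.Y501.SYP.cs
attribute [local instance] Pool.Agent.Y501.SYP.mf

/-- exact forms which are positive over the degenerate set -/
theorem exists_exact_cur (hd : d = 2 * (m + 1)) [IsManifold 𝓘(ℝ, ES d) ∞ X] [CompactSpace X]
    [T2Space X] [MeasurableSpace X] [BorelSpace X] (vol : TopForm (ES d) X m)
    (hvol : IsVolume vol) (σ : Form (ES d) X 2)
    (hσ : IsClosed2 σ) (hnn : TopNonneg vol σ)
    (hc : ∀ μ : Measure X, ¬ IsClosedCurrent vol σ μ) :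
    ∃ (β : SY.Form d X 1) (ρ : SY.Form d X 2), SY.IsSmooth β ∧ SY.IsSmooth ρ ∧ SY.IsD β ρ ∧
      ∀ x, ¬ R772.PosTop (d := d) (m := m) (X := X) (toTop vol) σ x →
        R772.LinPos (d := d) (m := m) (X := X) (toTop vol) σ ρ x := by
  obtain ⟨ρ, ⟨β, h1, h2, h3⟩, h4⟩ := R772.dual12 (d := d) (m := m) (X := X) hd
    (vol := toTop vol) (vol_of hvol) (σ := σ) (ζ := (0 : SY.Form d X 2))
    ((smooth_iff σ).1 hσ.smooth) (SY.IsSmooth.zero (d := d) (X := X) (k := 2))
    (fun μ hμ => absurd ((curr_iff hd hvol hnn μ).2 hμ) (hc μ))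
  exact ⟨β, ρ, h1, h2, h3, fun x hx => R772.linPos_zero_add (d := d) (m := m) (X := X)
    (ζ := (0 : SY.Form d X 2)) rfl (h4 x hx)⟩

theorem families_cur (hd : d = 2 * (m + 1)) [IsManifold 𝓘(ℝ, ES d) ∞ X] [CompactSpace X]
    [T2Space X] [MeasurableSpace X] [BorelSpace X] (vol : TopForm (ES d) X m)
    (hvol : IsVolume vol)
    {P : Type} [TopologicalSpace P] [CompactSpace P] [T2Space P] {Q : Set P} (hQ : IsClosed Q)
    (σ : P → Form (ES d) X 2) (hσ : IsFamily vol σ)
    (hc : ∀ (p : P) (μ : Measure X), ¬ IsClosedCurrent vol (σ p) μ)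
    (hsymp : ∀ q ∈ Q, IsPosSymplectic vol (σ q)) :
    ∃ (n : ℕ) (α : Fin n → Form (ES d) X 1) (ρ : Fin n → Form (ES d) X 2)
      (φ : Fin n → P → ℝ), IsCompression vol Q σ α ρ φ := by
  obtain ⟨hcont, hcl, hnn⟩ := hσ
  obtain ⟨n, β, ρ, φ, h1, h2, h3, h4⟩ := R772.famK' (d := d) (m := m) (X := X) (P := P) hd
    (vol := toTop vol) (vol_of hvol) (σ := σ) hcont (fun p => (smooth_iff (σ p)).1 (hcl p).smooth)
    (fun p => (closed_iff (σ p)).1 (hcl p).closed) (fun p x e he => hnn p x e he)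
    (fun p _ => exists_exact_cur hd vol hvol (σ p) (hcl p) (hnn p) (hc p))
    (Q := Q) hQ (fun q hq x e he => (hsymp q hq).pos x e he)
  refine ⟨n, β, ρ, fun i p => φ i p, ⟨fun i => ⟨(smooth_iff _).2 (h1 i).1,
    (smooth_iff _).2 (h1 i).2.1, (isD_iff _ _).2 (h1 i).2.2⟩, fun i => (φ i).continuous,
    h2, h3, fun t ht0 ht1 p => ?_⟩⟩
  obtain ⟨e1, e2, e3, e4⟩ := h4 t ht0 ht1 p
  exact ⟨⟨(smooth_iff _).2 e1, (closed_iff _).2 e2⟩, fun x v hv => e4 x v hv,
    fun x e he => e3 x e he⟩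

end

end Pool.Agent.R772.SYD
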