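import Pool.Agent.R772.FinG

/-!
Sets whose tangent spaces contain no complex line consisting of null vectors are thin.
-/

set_option autoImplicit false

open Set Filter Topology MeasureTheory
open scoped Manifold ContDiff

noncomputable section

namespace Pool.Agent.R772

open Pool.Agent.Y501.SY
open Pool.Agent.Y388.SY (finite_family)

theorem coef_zero {b c : ℝ} (h : ∀ s : ℝ, 0 ≤ s * b + s ^ 2 * c) : b = 0 := by
  by_contra hne
  have hc : 0 ≤ c := by
    have h1 := h 1
    have h2 := h (-1)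
    nlinarith
  have h5 := h (-b / (c + 1))
  have hc1 : 0 < c + 1 := by linarith
  have h6 : -b / (c + 1) * b + (-b / (c + 1)) ^ 2 * c = -(b ^ 2) / (c + 1) ^ 2 := by
    field_simp
    ring
  rw [h6] at h5
  have h7 : 0 < b ^ 2 := by positivity
  have h8 : -(b ^ 2) / (c + 1) ^ 2 < 0 := div_neg_of_neg_of_pos (by linarith) (by positivity)
  linarith

section

variable {d : ℕ} {X : Type} [TopologicalSpace X] [ChartedSpace (E d) X]
  [IsManifold (𝓡 d) ∞ X]

theorem thinPJ_tr [T2Space X] {J : End d X} (σ θ : Form d X 2)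
    {C : Set X} (z : X) (hsq : ∀ v : TangentSpace (𝓡 d) z, J z (J z v) = -v)
    (hnn : ∀ v : TangentSpace (𝓡 d) z, (∀ w, σ z ![v, w] = 0) → 0 ≤ θ z ![v, J z v])
    (hz : ∀ v : TangentSpace (𝓡 d) z, (∀ w, σ z ![v, w] = 0) → θ z ![v, J z v] = 0 →
      v ∈ ZT (d := d) C z → J z v ∈ ZT (d := d) C z → v = 0) :
    ThinP (PJ2 σ θ J) C z := by
  classical
  let c := chartAt (E d) z
  have hzs : z ∈ c.source := mem_chart_source (E d) z
  have hcd : c.MDifferentiable (𝓡 d) (𝓡 d) := mdifferentiable_chart (I := 𝓡 d) z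
  let A : TangentSpace (𝓡 d) z ≃L[ℝ] E d := hcd.mfderiv hzs
  obtain ⟨b⟩ : Nonempty (SmoothBumpFunction (𝓡 d) z) := inferInstance
  let F : X → E d := fun x => b x • c x
  have hF : ContMDiff (𝓡 d) 𝓘(ℝ, E d) ∞ F := b.contMDiff_smul (contMDiffOn_chart (I := 𝓡 d))
  have hFc : F =ᶠ[𝓝 z] c := by
    filter_upwards [b.eventuallyEq_one] with x hx
    change b x • c x = c x
    rw [hx]
    exact one_smul ℝ (c x)
  let G : Fin d → X → ℝ := fun j x => F x j
  have hG : ∀ j, SmoothFun (d := d) (G j) := by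
    intro j
    exact ((EuclideanSpace.proj (𝕜 := ℝ) j : E d →L[ℝ] ℝ).contDiff.contMDiff).comp hF
  have hcdz : MDifferentiableAt (𝓡 d) 𝓘(ℝ, E d) c z := hcd.mdifferentiableAt hzs
  have hdG : ∀ j (v : TangentSpace (𝓡 d) z), dd (G j) z v = (A v) j := by
    intro j v
    have e1 : G j =ᶠ[𝓝 z] (EuclideanSpace.proj (𝕜 := ℝ) j : E d →L[ℝ] ℝ) ∘ c := by
      filter_upwards [hFc] with x hx
      change F x j = c x j
      rw [hx]
    unfold dd
    rw [e1.mfderiv_eq, mfderiv_comp z
      ((EuclideanSpace.proj (𝕜 := ℝ) j : E d →L[ℝ] ℝ).contDiff.contMDiff.mdifferentiableAt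
        (n := 1) one_ne_zero) hcdz,
      mfderiv_eq_fderiv, ContinuousLinearMap.fderiv]
    rfl
  -- the null vectors form a subspace
  let W' : Submodule ℝ (TangentSpace (𝓡 d) z) :=
    { carrier := {v | (∀ w, σ z ![v, w] = 0) ∧ ∀ u : TangentSpace (𝓡 d) z,
        (∀ w, σ z ![u, w] = 0) → θ z ![v, J z u] + θ z ![u, J z v] = 0}
      add_mem' := by
        rintro v v' ⟨h1, h2⟩ ⟨h1', h2'⟩
        refine ⟨fun w => by rw [alt_add0, h1, h1', add_zero], fun u hu => ?_⟩
        rw [map_add, alt_add0, alt_add1]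
        have e1 := h2 u hu
        have e2 := h2' u hu
        linarith
      zero_mem' := by
        refine ⟨fun w => ?_, fun u hu => ?_⟩
        · have := alt_smul0 (σ z) 0 (0 : TangentSpace (𝓡 d) z) w
          rwa [zero_smul, zero_mul] at this
        · have e1 := alt_smul0 (θ z) 0 (0 : TangentSpace (𝓡 d) z) (J z u)
          have e2 := alt_smul1 (θ z) 0 u (0 : TangentSpace (𝓡 d) z)
          rw [zero_smul, zero_mul] at e1 e2
          rw [map_zero, e1, e2, add_zero]
      smul_mem' := by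
        rintro r v ⟨h1, h2⟩
        refine ⟨fun w => by rw [alt_smul0, h1, mul_zero], fun u hu => ?_⟩
        rw [map_smul, alt_smul0, alt_smul1, ← mul_add, h2 u hu, mul_zero] }
  have hW' : ∀ v : TangentSpace (𝓡 d) z, (∀ w, σ z ![v, w] = 0) → θ z ![v, J z v] = 0 →
      v ∈ W' := by
    intro v hv hv0
    refine ⟨hv, fun u hu => ?_⟩
    refine coef_zero (c := θ z ![u, J z u]) fun s => ?_
    have h1 : ∀ w, σ z ![v + s • u, w] = 0 := fun w => by
      rw [alt_add0, alt_smul0, hv, hu, mul_zero, add_zero]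
    have h2 := hnn _ h1
    have h3 : θ z ![v + s • u, J z (v + s • u)] =
        s * (θ z ![v, J z u] + θ z ![u, J z v]) + s ^ 2 * θ z ![u, J z u] := by
      rw [map_add, map_smul, alt_add0, alt_smul0, alt_add1, alt_add1, alt_smul1, alt_smul1, hv0]
      ring
    rwa [h3] at h2
  have hW0 : ∀ v ∈ W', (∀ w, σ z ![v, w] = 0) ∧ θ z ![v, J z v] = 0 := by
    rintro v ⟨h1, h2⟩
    refine ⟨h1, ?_⟩
    have := h2 v h1
    linarith
  let W : Submodule ℝ (E d) := W'
  -- the finitely many functions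
  obtain ⟨n, g, hg, hgC, hgk⟩ := finite_family J C z (Module.finrank ℝ W) W le_rfl
    (by
      intro v hv h
      exact hz v (hW0 v hv).1 (hW0 v hv).2 (fun g hg hgC => (h g hg hgC).1)
        (fun g hg hgC => (h g hg hgC).2))
  -- coefficients
  let lam : Fin n → TangentSpace (𝓡 d) z → ℝ := fun j v => - dd (g j) z (J z v)
  let cf : Fin n → Fin d → ℝ := fun j k => lam j (A.symm (EuclideanSpace.single k (1 : ℝ)))
  have hlam : ∀ j v, ∑ k, cf j k * (A v) k = lam j v := by
    intro j v
    have e1 : v = ∑ k, (A v) k • A.symm (EuclideanSpace.single k (1 : ℝ)) := by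
      apply A.injective
      rw [map_sum]
      have e2 : ∀ k, A ((A v) k • A.symm (EuclideanSpace.single k (1 : ℝ))) =
          (A v) k • (EuclideanSpace.single k (1 : ℝ) : E d) := by
        intro k
        rw [map_smul, A.apply_symm_apply]
      rw [Finset.sum_congr rfl fun k _ => e2 k]
      ext i
      simp [Finset.sum_apply, Pi.single_apply]
    conv_rhs => rw [e1]
    change _ = - dd (g j) z (J z (∑ k, (A v) k • A.symm (EuclideanSpace.single k (1 : ℝ))))
    rw [map_sum, map_sum, ← Finset.sum_neg_distrib]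
    refine Finset.sum_congr rfl fun k _ => ?_
    rw [map_smul, map_smul]
    change - dd (g j) z (J z (A.symm (EuclideanSpace.single k (1 : ℝ)))) * (A v) k =
      - ((A v) k * dd (g j) z (J z (A.symm (EuclideanSpace.single k (1 : ℝ)))))
    ring
  let e : Fin (n * d) ≃ Fin n × Fin d := finProdFinEquiv.symm
  let aa : Fin n × Fin d → X → ℝ := fun q x => cf q.1 q.2 * g q.1 x
  let bb : Fin n × Fin d → X → ℝ := fun q x => G q.2 x
  have haa : ∀ q, SmoothFun (d := d) (aa q) := fun q => (SmoothFun.const _).mul (hg q.1)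
  refine ⟨n * d, fun i => aa (e i), fun i => bb (e i), univ, univ_mem, fun i => haa _,
    fun i => hG _, ?_, ?_⟩
  · intro i
    have h1 : (fun x => (aa (e i) x, bb (e i) x)) '' (C ∩ univ) ⊆
        ({0} : Set ℝ) ×ˢ (univ : Set ℝ) := by
      rintro _ ⟨x, hx, rfl⟩
      refine ⟨?_, mem_univ _⟩
      change cf (e i).1 (e i).2 * g (e i).1 x = 0
      rw [hgC _ x hx.1, mul_zero]
    refine measure_mono_null h1 ?_
    rw [Measure.volume_eq_prod, Measure.prod_prod, Real.volume_singleton, zero_mul]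
  · intro v hv hvk hvθ
    have hdaa : ∀ q (w : TangentSpace (𝓡 d) z), dd (aa q) z w = cf q.1 q.2 * dd (g q.1) z w := by
      intro q w
      have h1 := dd_mul (SmoothFun.const (d := d) (X := X) (cf q.1 q.2)) (hg q.1) z w
      rw [dd_const, mul_zero, add_zero] at h1
      exact h1
    have h1 : (∑ i, dfdg (d := d) (aa (e i)) (bb (e i)) : Form d X 2) z ![v, J z v] =
        ∑ j, ((dd (g j) z v) ^ 2 + (dd (g j) z (J z v)) ^ 2) := by
      rw [sum_apply2]
      have h2 : ∀ q, dfdg (d := d) (aa q) (bb q) z ![v, J z v] =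
          dd (g q.1) z v * (cf q.1 q.2 * (A (J z v)) q.2) -
            dd (g q.1) z (J z v) * (cf q.1 q.2 * (A v) q.2) := by
        intro q
        rw [dfdg_apply, hdaa, hdaa]
        change cf q.1 q.2 * dd (g q.1) z v * dd (G q.2) z (J z v) -
          cf q.1 q.2 * dd (g q.1) z (J z v) * dd (G q.2) z v = _
        rw [hdG, hdG]
        ring
      rw [Equiv.sum_comp e fun q => dfdg (d := d) (aa q) (bb q) z ![v, J z v],
        Finset.sum_congr rfl fun q _ => h2 q, Fintype.sum_prod_type]
      refine Finset.sum_congr rfl fun j _ => ?_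
      simp only
      rw [Finset.sum_sub_distrib, ← Finset.mul_sum, ← Finset.mul_sum, hlam, hlam]
      change dd (g j) z v * (- dd (g j) z (J z (J z v))) -
        dd (g j) z (J z v) * (- dd (g j) z (J z v)) = _
      rw [hsq, map_neg]
      ring
    rw [h1]
    have h3 : ∃ j, ¬ (dd (g j) z v = 0 ∧ dd (g j) z (J z v) = 0) := by
      by_contra h
      push Not at h
      apply hv
      exact hgk v (hW' v hvk hvθ) h
    obtain ⟨j, hj⟩ := h3
    refine Finset.sum_pos' (fun k _ => by positivity) ⟨j, Finset.mem_univ _, ?_⟩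
    by_cases h5 : dd (g j) z v = 0
    · have h6 : dd (g j) z (J z v) ≠ 0 := fun h7 => hj ⟨h5, h7⟩
      positivity
    · positivity

end

end Pool.Agent.R772
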