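import Pool.Agent.R772.PubG
import Pool.Agent.R772.TR2
import Pool.Agent.Y501.SY.Bridge

/-!
Comparison with the working definitions.
-/

set_option autoImplicit false

open Set Filter Topology MeasureTheory
open scoped Manifold ContDiff

noncomputable section

namespace Pool.Agent.R772.SYG

open Pool.Agent.Y501.SYP
open Pool.Agent.R772.SYK
open Pool.Agent.Y501

section

variable {d : ℕ} {X : Type} [TopologicalSpace X] [ChartedSpace (ES d) X]

attribute [local instance] Pool.Agent.Y501.SYP.cs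
attribute [local instance] Pool.Agent.Y501.SYP.mf

theorem degen_eq (σ : Form (ES d) X 2) : Degen σ = R772.KD (d := d) (X := X) σ := by
  ext x
  constructor
  · intro h
    by_contra hne
    refine h fun v hv => ?_
    by_contra h0
    exact hne ⟨v, h0, hv⟩
  · rintro ⟨v, hv, hv0⟩ h
    exact hv (h v hv0)

theorem smallOn_of [IsManifold 𝓘(ℝ, ES d) ∞ X] [T2Space X] {J : End (ES d) X}
    {σ θ : Form (ES d) X 2} {C : Set X} {z : X}
    (hJ : ∀ v : TangentSpace 𝓘(ℝ, ES d) z, J z (J z v) = -v)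
    (hnn : ∀ v : TangentSpace 𝓘(ℝ, ES d) z, Ker σ z v → 0 ≤ qd θ J z v)
    (h : SmallOn J C z (KerNull σ θ J z)) :
    R772.ThinP (d := d) (X := X) (R772.PJ2 (d := d) (X := X) σ θ J) C z := by
  rcases h with h | h | ⟨n, a, b, hab, hpos⟩
  · exact R772.thinPJ_haus (d := d) (X := X) σ θ z hJ h
  · exact R772.thinPJ_tr (d := d) (X := X) σ θ z hJ hnn
      (fun v h1 h2 h3 h4 => h v ⟨h1, h2⟩ h3 h4)
  · choose N hN hN0 using fun i => (hab i).null
    refine ⟨n, a, b, ⋂ i, N i, Filter.iInter_mem.2 hN, fun i => (hab i).smooth_a,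
      fun i => (hab i).smooth_b, fun i => ?_, fun v hv h1 h2 => ?_⟩
    · exact measure_mono_null (image_mono (inter_subset_inter_right _ (iInter_subset _ _)))
        (hN0 i)
    · have h3 := hpos v hv ⟨h1, h2⟩
      have e := SY.sum_apply2 (d := d) (X := X) Finset.univ
        (fun i => SY.dfdg (d := d) (X := X) (a i) (b i)) z ![v, J z v]
      refine lt_of_lt_of_eq h3 (Eq.trans ?_ e.symm)
      exact Finset.sum_congr rfl fun i _ =>
        (SY.dfdg_apply (d := d) (X := X) (a i) (b i) z v (J z v)).symm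

theorem acat_of {σ : Form (ES d) X 2} {J : End (ES d) X} (hJ : Adapted σ J) (x : X)
    (hx : x ∈ Degen σ) : R772.ACat (d := d) (X := X) J x := by
  refine ⟨hJ.sq x hx, ?_⟩
  rw [continuousAt_clm_apply]
  exact fun v => hJ.cont x hx v

theorem kernelTaming [IsManifold 𝓘(ℝ, ES d) ∞ X] [CompactSpace X] [T2Space X]
    (J : End (ES d) X) (σ ζ : Form (ES d) X 2)
    (hσ : IsClosed2 σ) (hζ : IsClosed2 ζ) (hJ : Adapted σ J)
    {p : ℕ} {Y : Type} [TopologicalSpace Y] [ChartedSpace (ES p) Y]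
    [IsManifold 𝓘(ℝ, ES p) ∞ Y] [T2Space Y]
    (f : X → Y) (hf : KernelConst (W := ES p) σ f)
    (hcomp : ∀ z ∈ Degen σ, GoodK σ ζ J (CompD σ f z)) :
    ∃ (α : Form (ES d) X 1) (ρ : Form (ES d) X 2), IsSmooth α ∧ IsSmooth ρ ∧ IsD α ρ ∧
      (∃ t₀ : ℝ, 0 < t₀ ∧ ∀ t : ℝ, 0 < t → t ≤ t₀ → IsSymplectic (comb σ t (addF ζ ρ))) ∧
      ∀ τ : Form (ES d) X 2, IsSmooth τ → (∀ x ∈ Degen σ, TamesAt τ J x) →
        (∀ x, x ∉ Degen σ → ∀ s : ℝ, 0 ≤ s → s ≤ 1 → NondegAt (seg τ σ s) x) →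
        ∃ t₀ : ℝ, 0 < t₀ ∧ ∀ t : ℝ, 0 < t → t ≤ t₀ → ∀ s : ℝ, 0 ≤ s → s ≤ 1 →
          ∀ x, NondegAt (seg τ (comb σ t (addF ζ ρ)) s) x := by
  obtain ⟨α, ρ, h1, h2, h3, ⟨t₀, ht₀, h4⟩, h5⟩ := R772.mainG (d := d) (X := X)
    (J := J) (σ := σ) (ζ := ζ) (fun x hx => acat_of hJ x (by rw [degen_eq]; exact hx))
    ((smooth_iff σ).1 hσ.smooth)
    ((closed_iff σ).1 hσ.closed) ((smooth_iff ζ).1 hζ.smooth) ((closed_iff ζ).1 hζ.closed)
    (fun x hx => hJ.weak x (by rw [degen_eq]; exact hx)) (m := p) (Y := Y) (f := f) hf.smooth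
    (fun x hx v hv => hf.ker x (by rw [degen_eq]; exact hx) v hv) (by
      intro z hz
      obtain ⟨β, ρ, g1, g2, g3, g4, g5⟩ := hcomp z (by rw [degen_eq]; exact hz)
      unfold CompD at g4 g5
      rw [degen_eq] at g4 g5
      refine ⟨β, ρ, (smooth_iff β).1 g1, (smooth_iff ρ).1 g2, (isD_iff β ρ).1 g3,
        fun x hx v hv => g4 x hx v hv, ?_⟩
      have hset2 : {x | x ∈ connectedComponentIn
            (R772.KD (d := d) (X := X) σ ∩ f ⁻¹' {f z}) z ∧
            ¬ R772.PJ (d := d) (X := X) σ J x (addF ζ ρ x)} =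
          Exc2 σ (addF ζ ρ) J (connectedComponentIn
            (R772.KD (d := d) (X := X) σ ∩ f ⁻¹' {f z}) z) := by
        ext x
        refine and_congr_right fun hx => ?_
        constructor
        · intro h
          unfold R772.PJ at h
          push Not at h
          obtain ⟨v, hv, hv0, hv1⟩ := h
          exact ⟨v, hv, hv0, le_antisymm hv1 (g4 x hx v hv0)⟩
        · rintro ⟨v, hv, hv0, hv1⟩ h
          exact absurd (lt_of_lt_of_eq (h v hv hv0) hv1) (lt_irrefl _)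
      intro w hw
      have hw' : w ∈ Exc2 σ (addF ζ ρ) J (connectedComponentIn
            (R772.KD (d := d) (X := X) σ ∩ f ⁻¹' {f z}) z) := by
        rw [← hset2]; exact hw
      have hwD : w ∈ Degen σ := by
        rw [degen_eq]
        exact inter_subset_left (connectedComponentIn_subset _ _ hw'.1)
      have h5 := smallOn_of (hJ.sq w hwD) (fun v hv => g4 w hw'.1 v hv) (g5 w hw')
      rw [← hset2] at h5
      exact h5)
  refine ⟨α, ρ, (smooth_iff α).2 h1, (smooth_iff ρ).2 h2, (isD_iff α ρ).2 h3,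
    ⟨t₀, ht₀, fun t ht0 ht1 => ?_⟩, fun τ hτ hτ1 hτ2 => ?_⟩
  · obtain ⟨e1, e2, e3⟩ := h4 t ht0 ht1
    exact ⟨⟨(smooth_iff _).2 e1, (closed_iff _).2 e2⟩, fun x => e3 x⟩
  · obtain ⟨t₁, ht₁, h6⟩ := h5 τ ((smooth_iff τ).1 hτ)
      (fun x hx => hτ1 x (by rw [degen_eq]; exact hx))
      (fun x hx s hs0 hs1 => hτ2 x (by rw [degen_eq]; exact hx) s hs0 hs1)
    exact ⟨t₁, ht₁, fun t h0 h1 s hs0 hs1 x => h6 t h0 h1 s hs0 hs1 x⟩

end

end Pool.Agent.R772.SYG
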