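import Pool.Agent.R772.PubK

/-!
Closed two-forms which are weakly taming near their degenerate points: the definitions used in the
statements.
-/

set_option autoImplicit false

open Set Filter Topology MeasureTheory
open scoped Manifold ContDiff

noncomputable section

namespace Pool.Agent.R772.SYG

open Pool.Agent.Y501.SYP
open Pool.Agent.R772.SYK

section forms

variable {V : Type} [NormedAddCommGroup V] [NormedSpace ℝ V]
  {X : Type} [TopologicalSpace X] [ChartedSpace V X]

/-- nondegenerate at `x` -/
def NondegAt (σ : Form V X 2) (x : X) : Prop :=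
  ∀ v : TangentSpace 𝓘(ℝ, V) x, Ker σ x v → v = 0

/-- symplectic forms -/
structure IsSymplectic (σ : Form V X 2) : Prop where
  closed : IsClosed2 σ
  nondeg : ∀ x : X, NondegAt σ x

/-- the degenerate points of `σ` -/
def Degen (σ : Form V X 2) : Set X := {x | ¬ NondegAt σ x}

/-- `J` is a field of endomorphisms which is an almost complex structure at the degenerate points
of `σ`, is continuous at these points, and is weakly tamed by `σ` near these points. -/
structure Adapted (σ : Form V X 2) (J : End V X) : Prop where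
  sq : ∀ x ∈ Degen σ, ∀ v : TangentSpace 𝓘(ℝ, V) x, J x (J x v) = -v
  cont : ∀ x ∈ Degen σ, ∀ v : V, ContinuousAt (fun p => inChart J x p v) (chartAt V x x)
  weak : ∀ x ∈ Degen σ, ∀ᶠ y in 𝓝 x, ∀ v : TangentSpace 𝓘(ℝ, V) y, 0 ≤ qd σ J y v

/-- `f` is smooth and, over the degenerate points of `σ`, its differential vanishes on the kernel
of `σ`. -/
structure KernelConst (σ : Form V X 2) {W Y : Type} [NormedAddCommGroup W]
    [NormedSpace ℝ W] [TopologicalSpace Y] [ChartedSpace W Y] (f : X → Y) : Prop where
  smooth : ContMDiff 𝓘(ℝ, V) 𝓘(ℝ, W) ∞ f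
  ker : ∀ x ∈ Degen σ, ∀ v : TangentSpace 𝓘(ℝ, V) x, Ker σ x v →
    mfderiv 𝓘(ℝ, V) 𝓘(ℝ, W) f x v = 0

/-- the component of `z` in the part of the degenerate set over `f z` -/
def CompD (σ : Form V X 2) {Y : Type} (f : X → Y) (z : X) : Set X :=
  connectedComponentIn (Degen σ ∩ f ⁻¹' {f z}) z

/-- the vectors of the kernel of `σ` which are null for `θ` -/
def KerNull (σ θ : Form V X 2) (J : End V X) (x : X) (v : TangentSpace 𝓘(ℝ, V) x) : Prop :=
  Ker σ x v ∧ qd θ J x v = 0

/-- the points of `C` where the kernel of `σ` contains a nonzero vector which is null for `θ` -/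
def Exc2 (σ θ : Form V X 2) (J : End V X) (C : Set X) : Set X :=
  {x | x ∈ C ∧ ∃ v : TangentSpace 𝓘(ℝ, V) x, v ≠ 0 ∧ KerNull σ θ J x v}

/-- `C` is small at `z` relative to a set `P` of tangent vectors at `z`: it has two-dimensional
Hausdorff measure zero near `z`, or its tangent space at `z` (the vectors annihilated by the
differentials of all smooth functions vanishing on `C`) contains no complex line consisting of
vectors of `P`, or it is thin at `z`. -/
def SmallOn [MeasurableSpace V] [BorelSpace V] (J : End V X) (C : Set X) (z : X)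
    (P : TangentSpace 𝓘(ℝ, V) z → Prop) : Prop :=
  HausNull V C z ∨ (∀ v : TangentSpace 𝓘(ℝ, V) z, P v → ZT C z v → ZT C z (J z v) → v = 0) ∨
    ThinAt J C z P

/-- For some smooth one-form `β` the form `θ = ζ + dβ` is nonnegative on `(v, J v)` for `v` in the
kernel of `σ` over `C`, and the components of the set of points of `C` where the kernel of `σ`
contains a nonzero vector which is null for `θ` are small at all their points. -/
def GoodK [MeasurableSpace V] [BorelSpace V] (σ ζ : Form V X 2) (J : End V X) (C : Set X) :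
    Prop :=
  ∃ (β : Form V X 1) (ρ : Form V X 2), IsSmooth β ∧ IsSmooth ρ ∧ IsD β ρ ∧
    (∀ x ∈ C, ∀ v : TangentSpace 𝓘(ℝ, V) x, Ker σ x v → 0 ≤ qd (addF ζ ρ) J x v) ∧
    ∀ z ∈ Exc2 σ (addF ζ ρ) J C,
      SmallOn J (connectedComponentIn (Exc2 σ (addF ζ ρ) J C) z) z (KerNull σ (addF ζ ρ) J z)

/-- the point `(1 - s) τ + s w` of the segment from `τ` to `w` -/
def seg (τ w : Form V X 2) (s : ℝ) : Form V X 2 := fun x => (1 - s) • τ x + s • w x

end forms

end Pool.Agent.R772.SYG
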