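import Pool.Agent.R772.Seg
import Pool.Agent.R772.Small

/-!
Nondegeneracy of segments ending at perturbations of forms with nonnegative top power.
-/

set_option autoImplicit false

open Set Filter Topology MeasureTheory
open scoped Manifold ContDiff

noncomputable section

namespace Pool.Agent.R772

open Pool.Agent.Y501.SY
open Pool.Agent.Y455.SY (A BA A_surj)
open Pool.Agent.Y108.SY (A_ne)

section

variable {d m : ℕ} {X : Type} [TopologicalSpace X] [ChartedSpace (E d) X]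
  [IsManifold (𝓡 d) ∞ X]

/-- positivity of `(σ + a η + b τ) ^ (m + 1)` -/
theorem LinPos.top2 (hd : d = 2 * (m + 1)) {vol : Top d m X} (hvol : IsVol vol)
    {σ η τ : Form d X 2} (hσ : IsSmooth σ) (hη : IsSmooth η) (hτ : IsSmooth τ)
    (hnn : ∀ x, NonnegTop vol σ x) {x : X} (h : LinPos vol σ η x) (h' : LinPos vol σ τ x) :
    ∃ ε : ℝ, 0 < ε ∧ ∀ᶠ y in 𝓝 x, ∀ a b : ℝ, 0 < a → a ≤ ε → 0 ≤ b → b ≤ ε →
      PosTop vol (σ + (a • η + b • τ)) y := by
  obtain ⟨e, he⟩ := exists_frame hvol x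
  set c := chartAt (E d) x with hc
  have hx : x ∈ c.source := mem_chart_source (E d) x
  have hp0 : c x ∈ c.target := c.map_source hx
  have main : ∀ θ : Form d X 2, IsSmooth θ → LinPos vol σ θ x →
      ∀ᶠ q : E d × (ℝ × ℝ) in 𝓝 (c x, (0, 0)), 0 < wedge (Fin.cons (pb c.symm θ q.1)
        (fun _ : Fin m => pb c.symm σ q.1 + (q.2.1 • pb c.symm η q.1 +
          q.2.2 • pb c.symm τ q.1))) e := by
    intro θ hθ hθx
    have hfst : ContinuousOn (fun q : E d × (ℝ × ℝ) => q.1) (c.target ×ˢ univ) :=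
      continuous_fst.continuousOn
    have hmaps : MapsTo (fun q : E d × (ℝ × ℝ) => q.1) (c.target ×ˢ univ) c.target :=
      fun q hq => hq.1
    have hH : ContinuousOn (fun q : E d × (ℝ × ℝ) => wedge (Fin.cons (pb c.symm θ q.1)
        (fun _ : Fin m => pb c.symm σ q.1 + (q.2.1 • pb c.symm η q.1 +
          q.2.2 • pb c.symm τ q.1))) e) (c.target ×ˢ univ) := by
      refine continuous_wedge (s := fun q : E d × (ℝ × ℝ) => (Fin.cons (pb c.symm θ q.1)
        (fun _ : Fin m => pb c.symm σ q.1 + (q.2.1 • pb c.symm η q.1 +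
          q.2.2 • pb c.symm τ q.1)) :
        Fin (m + 1) → (E d) [⋀^Fin 2]→L[ℝ] ℝ)) ?_ (fun _ => continuousOn_const)
      intro i
      refine Fin.cases ?_ (fun i => ?_) i
      · simp only [Fin.cons_zero]
        exact (IsSmooth.contChart hθ x).comp hfst hmaps
      · simp only [Fin.cons_succ]
        refine ContinuousOn.add ((IsSmooth.contChart hσ x).comp hfst hmaps) ?_
        have h7 : ContinuousOn (fun q : E d × (ℝ × ℝ) => q.2.1) (c.target ×ˢ univ) :=
          (continuous_fst.comp continuous_snd).continuousOn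
        have h8 : ContinuousOn (fun q : E d × (ℝ × ℝ) => q.2.2) (c.target ×ˢ univ) :=
          (continuous_snd.comp continuous_snd).continuousOn
        exact (h7.smul ((IsSmooth.contChart hη x).comp hfst hmaps)).add
          (h8.smul ((IsSmooth.contChart hτ x).comp hfst hmaps))
    have hcont := hH.continuousAt ((c.open_target.prod isOpen_univ).mem_nhds
      (⟨hp0, trivial⟩ : (c x, ((0 : ℝ), (0 : ℝ))) ∈ c.target ×ˢ (univ : Set (ℝ × ℝ))))
    refine hcont.eventually (lt_mem_nhds ?_)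
    have h1 : wedge (Fin.cons (pb c.symm θ (c x)) (fun _ : Fin m => pb c.symm σ (c x) +
        ((0 : ℝ) • pb c.symm η (c x) + (0 : ℝ) • pb c.symm τ (c x)))) e =
        wedge (Fin.cons (pb c.symm θ (c x)) (fun _ : Fin m => pb c.symm σ (c x))) e := by
      simp only [zero_smul, add_zero]
    refine lt_of_lt_of_eq ?_ h1.symm
    rw [wedge_pb_cons]
    have h2 : LinPos vol σ θ (c.symm (c x)) := by rw [c.left_inv hx]; exact hθx
    exact h2 _ he.self_of_nhds.2
  have hev := (main η hη h).and (main τ hτ h')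
  rw [nhds_prod_eq, Filter.eventually_prod_iff] at hev
  obtain ⟨p1, hp1, p2, hp2, hp⟩ := hev
  obtain ⟨ε, hε, hball⟩ := Metric.eventually_nhds_iff.1 hp2
  have hε2 : 0 < ε / 2 := by positivity
  refine ⟨ε / 2, hε2, nhds_of_chart (d := d) x ?_⟩
  filter_upwards [hp1, he] with p hpp hpe a b ha0 ha hb0 hb
  refine (frame_iff hd vol hpe.2 _).2 ?_
  have h4 := wedge_pb (n := m + 1) c.symm (fun _ => σ + (a • η + b • τ)) p e
  have h5 : pb c.symm (σ + (a • η + b • τ)) p = pb c.symm σ p +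
      (a • pb c.symm η p + b • pb c.symm τ p) := by
    rw [pb_add, pb_add, Pi.add_apply, Pi.add_apply]
    rfl
  rw [h5] at h4
  rw [← h4]
  set ψ := a • pb c.symm η p + b • pb c.symm τ p with hψ
  have hpos : ∀ s : ℝ, 0 ≤ s → s ≤ 1 →
      0 < wedge (Fin.cons ψ (fun _ : Fin m => pb c.symm σ p + s • ψ)) e := by
    intro s hs0 hs
    have hdist : dist ((s * a, s * b) : ℝ × ℝ) (0, 0) < ε := by
      rw [Prod.dist_eq, max_lt_iff, Real.dist_eq, Real.dist_eq, sub_zero, sub_zero,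
        abs_of_nonneg (mul_nonneg hs0 ha0.le), abs_of_nonneg (mul_nonneg hs0 hb0)]
      constructor
      · nlinarith
      · nlinarith
    have h6 := hp hpp (hball hdist)
    have h7 : pb c.symm σ p + s • ψ = pb c.symm σ p +
        ((s * a) • pb c.symm η p + (s * b) • pb c.symm τ p) := by
      rw [hψ, smul_add, smul_smul, smul_smul]
    have h8 : wedge (Fin.cons ψ (fun _ : Fin m => pb c.symm σ p + s • ψ)) e =
        a * wedge (Fin.cons (pb c.symm η p) (fun _ : Fin m => pb c.symm σ p +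
          ((s * a) • pb c.symm η p + (s * b) • pb c.symm τ p))) e +
        b * wedge (Fin.cons (pb c.symm τ p) (fun _ : Fin m => pb c.symm σ p +
          ((s * a) • pb c.symm η p + (s * b) • pb c.symm τ p))) e := by
      rw [h7, hψ, wedge_cons_add, wedge_cons_smul, wedge_cons_smul]
    rw [h8]
    exact add_pos_of_pos_of_nonneg (mul_pos ha0 h6.1) (mul_nonneg hb0 h6.2.le)
  have hder := fun s : ℝ => hasDerivAt_wedge (m := m) (pb c.symm σ p) ψ e s
  have hmono : StrictMonoOn (fun s : ℝ => wedge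
      (fun _ : Fin (m + 1) => pb c.symm σ p + s • ψ) e) (Icc 0 1) := by
    refine strictMonoOn_of_deriv_pos (convex_Icc _ _)
      (fun s _ => (hder s).continuousAt.continuousWithinAt) fun s hs => ?_
    rw [interior_Icc] at hs
    rw [(hder s).deriv]
    have := hpos s hs.1.le hs.2.le
    have hm : (0 : ℝ) < m + 1 := by positivity
    exact mul_pos hm this
  have h6 := hmono (left_mem_Icc.2 zero_le_one) (right_mem_Icc.2 zero_le_one) one_pos
  have h7 : 0 ≤ wedge (fun _ : Fin (m + 1) => pb c.symm σ p + (0 : ℝ) • ψ) e := by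
    simp only [zero_smul, add_zero]
    rw [wedge_pb c.symm (fun _ : Fin (m + 1) => σ)]
    exact hnn _ _ hpe.2
  have h8 : wedge (fun _ : Fin (m + 1) => pb c.symm σ p + (1 : ℝ) • ψ) e =
      wedge (fun _ : Fin (m + 1) => pb c.symm σ p + ψ) e := by
    simp only [one_smul]
  exact lt_of_le_of_lt h7 (lt_of_lt_of_eq h6 h8)

/-- nondegeneracy of the segments from `τ` to `σ + t η` near `x` -/
theorem segK (hd : d = 2 * (m + 1)) {vol : Top d m X} (hvol : IsVol vol)
    {σ η τ : Form d X 2} (hσ : IsSmooth σ) (hη : IsSmooth η) (hτ : IsSmooth τ)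
    (hnn : ∀ x, NonnegTop vol σ x) (x : X)
    (hx : ¬ PosTop vol σ x → LinPos vol σ η x ∧ LinPos vol σ τ x)
    (hx2 : ∀ s : ℝ, 0 ≤ s → s ≤ 1 → (PosTop vol σ x ∨ s < 1) →
      ND ((1 - s) • τ + s • σ) x) :
    ∃ ε : ℝ, 0 < ε ∧ ∀ᶠ y in 𝓝 x, ∀ t : ℝ, 0 < t → t ≤ ε → ∀ s : ℝ, 0 ≤ s → s ≤ 1 →
      ND ((1 - s) • τ + s • (σ + t • η)) y := by
  classical
  set c := chartAt (E d) x with hc
  have hxs : x ∈ c.source := mem_chart_source (E d) x
  have hcx : c x ∈ c.target := mem_chart_target (E d) x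
  let F : (E d × ℝ) → (ℝ × E d) → E d → ℝ := fun z q w =>
    (1 - q.1) * C2 τ x z.1 q.2 w + q.1 * (C2 σ x z.1 q.2 w + z.2 * C2 η x z.1 q.2 w)
  have hF : ∀ (p : E d) (t s : ℝ) (v w : E d),
      F (p, t) (s, v) w = C2 ((1 - s) • τ + s • (σ + t • η)) x p v w := by
    intro p t s v w
    rw [C2_add, C2_smul', C2_smul', C2_add, C2_smul']
  have hcomp : ∀ (s : ℝ) (v : E d), ContinuousAt (fun u : (E d × ℝ) × (ℝ × E d) =>
      ((u.1.1, u.2.2) : E d × E d)) ((c x, 0), (s, v)) := by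
    intro s v
    fun_prop
  have hC : ∀ {θ : Form d X 2}, IsSmooth θ → ∀ (s : ℝ) (v w : E d), ContinuousAt
      (fun u : (E d × ℝ) × (ℝ × E d) => C2 θ x u.1.1 u.2.2 w) ((c x, 0), (s, v)) := by
    intro θ hθ s v w
    exact ContinuousAt.comp (f := fun u : (E d × ℝ) × (ℝ × E d) =>
      ((u.1.1, u.2.2) : E d × E d)) (g := fun q : E d × E d => C2 θ x q.1 q.2 w)
      (x := ((c x, 0), (s, v))) (C2_cont2 hθ x hcx w) (hcomp s v)
  have hFc : ∀ (s : ℝ) (v w : E d), ContinuousAt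
      (fun u : (E d × ℝ) × (ℝ × E d) => F u.1 u.2 w) ((c x, 0), (s, v)) := by
    intro s v w
    have e1 : ContinuousAt (fun u : (E d × ℝ) × (ℝ × E d) => (1 - u.2.1 : ℝ))
      ((c x, 0), (s, v)) := by fun_prop
    have e2 : ContinuousAt (fun u : (E d × ℝ) × (ℝ × E d) => (u.2.1 : ℝ))
      ((c x, 0), (s, v)) := by fun_prop
    have e3 : ContinuousAt (fun u : (E d × ℝ) × (ℝ × E d) => (u.1.2 : ℝ))
      ((c x, 0), (s, v)) := by fun_prop
    exact (e1.mul (hC hτ s v w)).add (e2.mul ((hC hσ s v w).add (e3.mul (hC hη s v w))))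
  have key : ∀ᶠ z : E d × ℝ in 𝓝 (c x, 0), ∀ q ∈ Icc (0 : ℝ) 1 ×ˢ Metric.sphere (0 : E d) 1,
      (0 < z.2 → z.1 ∈ c.target → q.1 ≤ 1 → q.2 ≠ 0 → ∃ w, F z q w ≠ 0) := by
    refine IsCompact.eventually_forall_of_forall_eventually
      (P := fun (z : E d × ℝ) (q : ℝ × E d) =>
        0 < z.2 → z.1 ∈ c.target → q.1 ≤ 1 → q.2 ≠ 0 → ∃ w, F z q w ≠ 0)
      (isCompact_Icc.prod (isCompact_sphere _ _)) ?_
    rintro ⟨s, v⟩ ⟨hs, hv⟩
    have hv0 : v ≠ 0 := by
      rintro rfl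
      simp at hv
    by_cases hcase : PosTop vol σ x ∨ s < 1
    · have h1 := hx2 s hs.1 hs.2 hcase
      have h2 : ND ((1 - s) • τ + s • σ) (c.symm (c x)) := by rw [c.left_inv hxs]; exact h1
      obtain ⟨w, hw⟩ := (ND_chart _ x hcx).1 h2 v hv0
      have h3 : F (c x, 0) (s, v) w ≠ 0 := by
        rw [hF, zero_smul, add_zero]
        exact hw
      filter_upwards [(hFc s v w).eventually_ne h3] with u hu _ _ _ _
      exact ⟨w, hu⟩
    · push Not at hcase
      obtain ⟨hxD, hs1⟩ := hcase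
      have hs1' : s = 1 := le_antisymm hs.2 hs1
      subst hs1'
      obtain ⟨g1, g2⟩ := hx hxD
      obtain ⟨ε, hε, he⟩ := LinPos.top2 hd hvol hσ hη hτ hnn g1 g2
      have hsymm : ContinuousAt c.symm (c x) := c.symm.continuousAt hcx
      have he' : ∀ᶠ y in 𝓝 (c.symm (c x)), ∀ a b : ℝ, 0 < a → a ≤ ε → 0 ≤ b → b ≤ ε →
          PosTop vol (σ + (a • η + b • τ)) y := by rw [c.left_inv hxs]; exact he
      have k1 : ContinuousAt (fun u : (E d × ℝ) × (ℝ × E d) => u.1.1) ((c x, 0), (1, v)) := by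
        fun_prop
      have k2 : ContinuousAt (fun u : (E d × ℝ) × (ℝ × E d) => u.1.2) ((c x, 0), (1, v)) := by
        fun_prop
      have k3 : ContinuousAt (fun u : (E d × ℝ) × (ℝ × E d) => u.2.1) ((c x, 0), (1, v)) := by
        fun_prop
      have k4 : ContinuousAt (fun u : (E d × ℝ) × (ℝ × E d) => (1 - u.2.1) / u.2.1)
          ((c x, 0), (1, v)) := by
        exact (continuousAt_const.sub k3).div k3 one_ne_zero
      have l1 := k1.eventually (hsymm.eventually he')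
      have l2 := k2.eventually (gt_mem_nhds (show (0 : ℝ) < ε from hε))
      have l3 := k3.eventually (lt_mem_nhds (show (1 : ℝ) / 2 < 1 by norm_num))
      have l4 := k4.eventually (gt_mem_nhds (show (1 - 1 : ℝ) / 1 < ε by
        rw [sub_self, zero_div]; exact hε))
      filter_upwards [l1, l2, l3, l4] with u m1 m2 m3 m4 ht hp hs' hv'
      have hspos : 0 < u.2.1 := by
        have : (1 : ℝ) / 2 < u.2.1 := m3
        linarith
      have hr0 : 0 ≤ (1 - u.2.1) / u.2.1 := div_nonneg (by linarith) hspos.le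
      have hpos := m1 u.1.2 ((1 - u.2.1) / u.2.1) ht m2.le hr0 m4.le
      have hND : ND (σ + (u.1.2 • η + ((1 - u.2.1) / u.2.1) • τ)) (c.symm u.1.1) :=
        fun v hv => hpos.nondeg hd hvol v hv
      obtain ⟨w, hw⟩ := (ND_chart _ x hp).1 hND u.2.2 hv'
      refine ⟨w, ?_⟩
      have h1 : F u.1 u.2 w = u.2.1 * C2 (σ + (u.1.2 • η + ((1 - u.2.1) / u.2.1) • τ)) x
          u.1.1 u.2.2 w := by
        rw [C2_add, C2_add, C2_smul', C2_smul']
        change (1 - u.2.1) * C2 τ x u.1.1 u.2.2 w +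
          u.2.1 * (C2 σ x u.1.1 u.2.2 w + u.1.2 * C2 η x u.1.1 u.2.2 w) = _
        field_simp
        ring
      rw [h1]
      exact mul_ne_zero hspos.ne' hw
  rw [nhds_prod_eq, eventually_prod_iff] at key
  obtain ⟨pa, hpa, pb', hpb, hP⟩ := key
  rw [Metric.eventually_nhds_iff] at hpb
  obtain ⟨δ, hδ, hpb⟩ := hpb
  refine ⟨δ / 2, by positivity, ?_⟩
  have h1 : ∀ᶠ y in 𝓝 x, pa (c y) := (c.continuousAt hxs).eventually hpa
  have h2 : ∀ᶠ y in 𝓝 x, y ∈ c.source := c.open_source.mem_nhds hxs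
  filter_upwards [h1, h2] with y hy hys t ht0 ht s hs0 hs1
  have hcy : c y ∈ c.target := c.map_source hys
  rw [← c.left_inv hys, ND_chart _ x hcy]
  intro v hv
  have hdist : dist t 0 < δ := by
    rw [dist_zero_right, Real.norm_eq_abs, abs_of_pos ht0]
    linarith
  have hsph : ‖v‖⁻¹ • v ∈ Metric.sphere (0 : E d) 1 := by
    rw [mem_sphere_zero_iff_norm, norm_smul, norm_inv, norm_norm,
      inv_mul_cancel₀ (norm_ne_zero_iff.2 hv)]
  have hne : ‖v‖⁻¹ • v ≠ 0 := smul_ne_zero (inv_ne_zero (norm_ne_zero_iff.2 hv)) hv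
  obtain ⟨w, hw⟩ := hP hy (hpb hdist) (s, ‖v‖⁻¹ • v) ⟨⟨hs0, hs1⟩, hsph⟩ ht0 hcy hs1 hne
  rw [hF, C2_smul] at hw
  exact ⟨w, right_ne_zero_of_mul hw⟩

end

end Pool.Agent.R772
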