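import Pool.Agent.R772.BridgeK
import Pool.Agent.R772.PubG
import Pool.Agent.R772.SegK

/-!
Closed two-forms with nonnegative top power: the homotopy class.
-/

set_option autoImplicit false

open Set Filter Topology MeasureTheory
open scoped Manifold ContDiff

noncomputable section

namespace Pool.Agent.R772

open Pool.Agent.Y501.SY

section

variable {d m : ℕ} {X : Type} [TopologicalSpace X] [ChartedSpace (E d) X]
  [IsManifold (𝓡 d) ∞ X]

theorem mainK2 [CompactSpace X] [T2Space X] (hd : d = 2 * (m + 1)) {vol : Top d m X}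
    (hvol : IsVol vol) {σ ζ : Form d X 2} (hσ : IsSmooth σ) (hσc : IsClosedForm σ)
    (hζ : IsSmooth ζ) (hζc : IsClosedForm ζ) (hnn : ∀ x, NonnegTop vol σ x)
    {p : ℕ} {Y : Type} [TopologicalSpace Y] [ChartedSpace (E p) Y] [IsManifold (𝓡 p) ∞ Y]
    [T2Space Y] {f : X → Y} (hf : ContMDiff (𝓡 d) (𝓡 p) ∞ f)
    (hker : ∀ x, ¬ PosTop vol σ x → ∀ v : TangentSpace (𝓡 d) x, (∀ w, σ x ![v, w] = 0) →
      mfderiv (𝓡 d) (𝓡 p) f x v = 0)
    (hcomp : ∀ z, ¬ PosTop vol σ z → ∃ (β : Form d X 1) (ρ : Form d X 2), IsSmooth β ∧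
      IsSmooth ρ ∧ IsD β ρ ∧
      (∀ x ∈ connectedComponentIn ({x | ¬ PosTop vol σ x} ∩ f ⁻¹' {f z}) z,
        LinNonneg vol σ (ζ + ρ) x) ∧
      ∀ w, w ∈ {x | x ∈ connectedComponentIn ({x | ¬ PosTop vol σ x} ∩ f ⁻¹' {f z}) z ∧
        ¬ LinPos vol σ (ζ + ρ) x} →
        ThinP (PK vol σ) (connectedComponentIn
          {x | x ∈ connectedComponentIn ({x | ¬ PosTop vol σ x} ∩ f ⁻¹' {f z}) z ∧
            ¬ LinPos vol σ (ζ + ρ) x} w) w) :
    ∃ (β : Form d X 1) (ρ : Form d X 2), IsSmooth β ∧ IsSmooth ρ ∧ IsD β ρ ∧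
      (∃ t₀ : ℝ, 0 < t₀ ∧ ∀ t : ℝ, 0 < t → t ≤ t₀ →
        IsSmooth (σ + t • (ζ + ρ)) ∧ IsClosedForm (σ + t • (ζ + ρ)) ∧
        ∀ x, PosTop vol (σ + t • (ζ + ρ)) x) ∧
      ∀ τ : Form d X 2, IsSmooth τ → (∀ x, ¬ PosTop vol σ x → LinPos vol σ τ x) →
        (∀ x, ∀ s : ℝ, 0 ≤ s → s ≤ 1 → (PosTop vol σ x ∨ s < 1) →
          ND ((1 - s) • τ + s • σ) x) →
        ∃ t₀ : ℝ, 0 < t₀ ∧ ∀ t : ℝ, 0 < t → t ≤ t₀ → ∀ s : ℝ, 0 ≤ s → s ≤ 1 →
          ∀ x, ND ((1 - s) • τ + s • (σ + t • (ζ + ρ))) x := by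
  have hC := isCone_PK hd hvol hσ hnn
  have hD : IsClosed {x | ¬ PosTop vol σ x} := by
    have : IsOpen {x | PosTop vol σ x} := by
      rw [isOpen_iff_eventually]
      intro x hx
      exact PosTop.nhds hd hvol hσ hx
    exact this.isClosed_compl
  obtain ⟨β, ρ, h1, h2, h3, h4⟩ := hC.main hD hf hker hζ (by
    intro z hz
    obtain ⟨β, ρ, g1, g2, g3, g4, g5⟩ := hcomp z hz
    refine ⟨β, ρ, g1, g2, g3, fun x hx a ha e he => ?_, g5⟩
    rw [wedge_cons_add]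
    exact add_pos_of_nonneg_of_pos (g4 x hx e he) (ha e he))
  have hζρ : IsSmooth (ζ + ρ) := hζ.add h2
  have hcl : IsClosedForm (ζ + ρ) := by
    have h5 := hζc.add (prod_closed h1 h2 h3) hζ h2
    rwa [add_zero] at h5
  refine ⟨β, ρ, h1, h2, h3, ?_, ?_⟩
  · obtain ⟨t₀, ht₀, ht⟩ := unif isCompact_univ
      (fun ε y => ∀ t : ℝ, 0 < t → t ≤ ε → PosTop vol (σ + t • (ζ + ρ)) y)
      (fun ε ε' y hle hp t h0 h1 => hp t h0 (h1.trans hle))
      (by
        intro x _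
        by_cases hx : PosTop vol σ x
        · obtain ⟨ε, hε, he⟩ := PosTop.pert hd hvol hσ hζρ hx
          exact ⟨ε, hε, he.mono fun y hy t h0 h1 => hy t (by rw [abs_of_pos h0]; exact h1)⟩
        · exact LinPos.top hd hvol hσ hζρ hnn (h4 x hx))
    refine ⟨t₀, ht₀, fun t h0 h1 => ⟨hσ.add (hζρ.smul t), ?_, fun x => ht x (mem_univ x) t h0 h1⟩⟩
    have h5 := hσc.add (hcl.smul t) hσ (hζρ.smul t)
    have h6 : (0 : Form d X 3) + t • (0 : Form d X 3) = 0 := by rw [smul_zero, add_zero]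
    rw [h6] at h5
    exact h5
  · intro τ hτ hτ1 hτ2
    obtain ⟨t₀, ht₀, ht⟩ := unif isCompact_univ
      (fun ε y => ∀ t : ℝ, 0 < t → t ≤ ε → ∀ s : ℝ, 0 ≤ s → s ≤ 1 →
        ND ((1 - s) • τ + s • (σ + t • (ζ + ρ))) y)
      (fun ε ε' y hle hp t h0 h1 => hp t h0 (h1.trans hle))
      (fun x _ => segK hd hvol hσ hζρ hτ hnn x (fun hx => ⟨h4 x hx, hτ1 x hx⟩)
        (fun s hs0 hs1 h => hτ2 x s hs0 hs1 h))
    exact ⟨t₀, ht₀, fun t h0 h1 s hs0 hs1 x => ht x (mem_univ x) t h0 h1 s hs0 hs1⟩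

end

end Pool.Agent.R772

namespace Pool.Agent.R772.SYK

open Pool.Agent.Y501.SYP
open Pool.Agent.R772.SYG
open Pool.Agent.Y501

section

variable {m d : ℕ} {X : Type} [TopologicalSpace X] [ChartedSpace (ES d) X]

attribute [local instance] Pool.Agent.Y501.SYP.cs
attribute [local instance] Pool.Agent.Y501.SYP.mf

theorem corankHomotopy (hd : d = 2 * (m + 1)) [IsManifold 𝓘(ℝ, ES d) ∞ X] [CompactSpace X]
    [T2Space X] (vol : TopForm (ES d) X m) (hvol : IsVolume vol) (σ ζ : Form (ES d) X 2)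
    (hσ : IsClosed2 σ) (hζ : IsClosed2 ζ) (hnn : TopNonneg vol σ)
    {p : ℕ} {Y : Type} [TopologicalSpace Y] [ChartedSpace (ES p) Y]
    [IsManifold 𝓘(ℝ, ES p) ∞ Y] [T2Space Y]
    (f : X → Y) (hf : KernelMap (W := ES p) m σ f)
    (hcomp : ∀ z ∈ Deg m σ, Good vol σ ζ (Comp m σ f z)) :
    ∃ (α : Form (ES d) X 1) (ρ : Form (ES d) X 2), IsSmooth α ∧ IsSmooth ρ ∧ IsD α ρ ∧
      (∃ t₀ : ℝ, 0 < t₀ ∧ ∀ t : ℝ, 0 < t → t ≤ t₀ →
        IsPosSymplectic vol (comb σ t (addF ζ ρ))) ∧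
      ∀ τ : Form (ES d) X 2, IsSmooth τ →
        (∀ x ∈ Deg m σ, ∀ e : Fam (ES d) m x, 0 < vol x e → 0 < mixed m σ x (τ x) e) →
        (∀ x, ∀ s : ℝ, 0 ≤ s → s ≤ 1 → (x ∉ Deg m σ ∨ s < 1) → NondegAt (seg τ σ s) x) →
        ∃ t₀ : ℝ, 0 < t₀ ∧ ∀ t : ℝ, 0 < t → t ≤ t₀ → ∀ s : ℝ, 0 ≤ s → s ≤ 1 →
          ∀ x, NondegAt (seg τ (comb σ t (addF ζ ρ)) s) x := by
  have hset : Deg m σ = {x | ¬ R772.PosTop (d := d) (m := m) (X := X) (toTop vol) σ x} :=
    Set.ext fun x => deg_iff hd hvol hnn x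
  obtain ⟨α, ρ, h1, h2, h3, ⟨t₀, ht₀, h4⟩, h5⟩ := R772.mainK2 (d := d) (m := m) (X := X) hd
    (vol := toTop vol) (vol_of hvol) (σ := σ) (ζ := ζ) ((smooth_iff σ).1 hσ.smooth)
    ((closed_iff σ).1 hσ.closed) ((smooth_iff ζ).1 hζ.smooth) ((closed_iff ζ).1 hζ.closed)
    (fun x e he => hnn x e he) (p := p) (Y := Y) (f := f) hf.smooth
    (fun x hx v hv => hf.ker x ((deg_iff hd hvol hnn x).2 hx) v hv) (by
      intro z hz
      obtain ⟨β, ρ, g1, g2, g3, g4, g5⟩ := hcomp z ((deg_iff hd hvol hnn z).2 hz)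
      unfold Comp at g4 g5
      rw [hset] at g4 g5
      refine ⟨β, ρ, (smooth_iff β).1 g1, (smooth_iff ρ).1 g2, (isD_iff β ρ).1 g3,
        fun x hx e he => g4 x hx e he, ?_⟩
      have hset2 : {x | x ∈ connectedComponentIn
            ({x | ¬ R772.PosTop (d := d) (m := m) (X := X) (toTop vol) σ x} ∩ f ⁻¹' {f z}) z ∧
            ¬ R772.LinPos (d := d) (m := m) (X := X) (toTop vol) σ (addF ζ ρ) x} =
          Deg2 m σ (addF ζ ρ) (connectedComponentIn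
            ({x | ¬ R772.PosTop (d := d) (m := m) (X := X) (toTop vol) σ x} ∩ f ⁻¹' {f z}) z) := by
        ext x
        refine and_congr_right fun hx => ?_
        constructor
        · intro h e
          unfold R772.LinPos at h
          push Not at h
          obtain ⟨f', hf', hf0⟩ := h
          have k1 : R772.wedge (Fin.cons (addF ζ ρ x) (fun _ : Fin m => σ x)) f' = 0 :=
            le_antisymm hf0 (g4 x hx f' hf')
          by_contra hne
          exact R772.frame_iff' (d := d) (m := m) (X := X) hd (toTop vol) hf' _ hne k1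
        · intro h hp
          obtain ⟨f', hf'⟩ := (vol_of hvol).frame x
          have k1 := hp f' hf'
          exact absurd (lt_of_lt_of_eq k1 (h f')) (lt_irrefl _)
      intro w hw
      have hw' : w ∈ Deg2 m σ (addF ζ ρ) (connectedComponentIn
            ({x | ¬ R772.PosTop (d := d) (m := m) (X := X) (toTop vol) σ x} ∩
              f ⁻¹' {f z}) z) := by
        rw [← hset2]; exact hw
      have h5 := small_of hd hvol (g5 w hw')
      rw [← hset2] at h5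
      exact h5)
  refine ⟨α, ρ, (smooth_iff α).2 h1, (smooth_iff ρ).2 h2, (isD_iff α ρ).2 h3,
    ⟨t₀, ht₀, fun t ht0 ht1 => ?_⟩, fun τ hτ hτ1 hτ2 => ?_⟩
  · obtain ⟨e1, e2, e3⟩ := h4 t ht0 ht1
    exact ⟨⟨(smooth_iff _).2 e1, (closed_iff _).2 e2⟩,
      fun x v hv => R772.PosTop.nondeg (d := d) (m := m) (X := X) hd (vol_of hvol) (e3 x) v hv,
      fun x e he => e3 x e he⟩
  · obtain ⟨t₁, ht₁, h6⟩ := h5 τ ((smooth_iff τ).1 hτ)
      (fun x hx e he => hτ1 x ((deg_iff hd hvol hnn x).2 hx) e he)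
      (fun x s hs0 hs1 h => by
        refine hτ2 x s hs0 hs1 ?_
        rcases h with h | h
        · exact Or.inl fun hx => (deg_iff hd hvol hnn x).1 hx h
        · exact Or.inr h)
    exact ⟨t₁, ht₁, fun t h0 h1 s hs0 hs1 x => h6 t h0 h1 s hs0 hs1 x⟩

end

end Pool.Agent.R772.SYK
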