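import Pool.Agent.R772.Min

/-!
Minimal carriers of closed currents.
-/

set_option autoImplicit false

open Set Filter Topology MeasureTheory
open scoped Manifold ContDiff ENNReal NNReal

noncomputable section

namespace Pool.Agent.R772

open Pool.Agent.Y501.SY

section

variable {d m : ℕ} {X : Type} [TopologicalSpace X] [ChartedSpace (E d) X]

/-- for some exact form `ρ` the form `σ ^ m ∧ (ζ + ρ)` is positive over `C` -/
def HasPos (vol : Top d m X) (σ ζ : Form d X 2) (C : Set X) : Prop :=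
  ∃ ρ : Form d X 2, ExactF ρ ∧ ∀ x ∈ C, 0 < md vol σ (ζ + ρ) x

theorem KFlat.comp1 {σ : Form d X 2} {D : Set X} {u : X → ℝ} (hu : KFlat σ D u) {P : ℝ → ℝ}
    (hP : ContDiff ℝ ∞ P) : KFlat σ D (fun x => P (u x)) := by
  refine ⟨SmoothFun.comp1 hP hu.1, fun x hx v hv => ?_⟩
  rw [dd_comp1 hP hu.1, hu.2 x hx v hv, mul_zero]

/-- the measure with density `u` -/
def wt [MeasurableSpace X] (u : X → ℝ) (μ : Measure X) : Measure X :=
  μ.withDensity (fun x => ((Real.toNNReal (u x) : ℝ≥0) : ℝ≥0∞))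

variable [IsManifold (𝓡 d) ∞ X]

theorem exists_carr [CompactSpace X] [T2Space X] [MeasurableSpace X] [BorelSpace X]
    (hd : d = 2 * (m + 1)) {vol : Top d m X} (hvol : IsVol vol) {σ ζ : Form d X 2}
    (hσ : IsSmooth σ) (hζ : IsSmooth ζ) {C : Set X} (hC : IsCompact C)
    (h : ¬ HasPos vol σ ζ C) : ∃ μ : Measure X, Carr vol σ ζ C μ := by
  obtain ⟨μ, h1, h2, h3, h4, h5⟩ := sep_measure hC (exactDens hd hvol σ) (by
    rintro _ ⟨ρ, ⟨β, _, hρ, _⟩, rfl⟩
    exact md_cont hd hvol hσ hρ) (md vol σ ζ) (md_cont hd hvol hσ hζ) (by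
    rintro _ ⟨ρ, hρ, rfl⟩ hpos
    refine h ⟨ρ, hρ, fun x hx => ?_⟩
    rw [md_add hd hvol]
    exact hpos x hx)
  exact ⟨μ, h1, h2, h3, fun ρ hρ => h4 _ ⟨ρ, hρ, rfl⟩, h5⟩

omit [IsManifold (𝓡 d) ∞ X] in
theorem Carr.ae {vol : Top d m X} {σ ζ : Form d X 2} [MeasurableSpace X] {C : Set X}
    {μ : Measure X} (hμ : Carr vol σ ζ C μ) : ∀ᵐ x ∂μ, x ∈ C := by
  have : ∀ᵐ x ∂μ, x ∉ Cᶜ := measure_eq_zero_iff_ae_notMem.1 hμ.car
  exact this.mono fun x hx => not_not.1 hx

theorem Carr.not_hasPos [CompactSpace X] [T2Space X] [MeasurableSpace X] [BorelSpace X]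
    (hd : d = 2 * (m + 1)) {vol : Top d m X} (hvol : IsVol vol) {σ ζ : Form d X 2}
    (hσ : IsSmooth σ) (hζ : IsSmooth ζ) {C : Set X} {μ : Measure X} (hμ : Carr vol σ ζ C μ) :
    ¬ HasPos vol σ ζ C := by
  rintro ⟨ρ, ⟨β, h1, h2, h3⟩, hpos⟩
  have := hμ.fin
  have hc : Continuous (md vol σ (ζ + ρ)) := md_cont hd hvol hσ (hζ.add h2)
  have hsum : ∫ x, md vol σ (ζ + ρ) x ∂μ = ∫ x, md vol σ ζ x ∂μ := by
    have e1 : ∀ x, md vol σ (ζ + ρ) x = md vol σ ζ x + md vol σ ρ x :=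
      fun x => md_add hd hvol σ ζ ρ x
    simp_rw [e1]
    rw [integral_add (integrable_of_cont (md_cont hd hvol hσ hζ))
      (integrable_of_cont (md_cont hd hvol hσ h2)), hμ.closed ρ ⟨β, h1, h2, h3⟩, add_zero]
  have hp : 0 < ∫ x, md vol σ (ζ + ρ) x ∂μ := by
    rw [integral_pos_iff_support_of_nonneg_ae (hμ.ae.mono fun x hx => (hpos x hx).le)
      (integrable_of_cont hc)]
    refine pos_iff_ne_zero.2 fun h0 => hμ.ne ?_
    rw [← Measure.measure_univ_eq_zero]
    refine le_antisymm ?_ bot_le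
    calc μ univ ≤ μ (Function.support (md vol σ (ζ + ρ)) ∪ Cᶜ) := by
          refine measure_mono fun x _ => ?_
          by_cases hx : x ∈ C
          · exact Or.inl (hpos x hx).ne'
          · exact Or.inr hx
      _ ≤ μ (Function.support (md vol σ (ζ + ρ))) + μ Cᶜ := measure_union_le _ _
      _ = 0 := by rw [h0, hμ.car, add_zero]
  have := hμ.le
  linarith

/-- minimal carriers exist -/
theorem exists_min [CompactSpace X] [T2Space X]
    (hd : d = 2 * (m + 1)) {vol : Top d m X} (hvol : IsVol vol) {σ ζ : Form d X 2}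
    (hσ : IsSmooth σ) (hζ : IsSmooth ζ) {K : Set X} (hK : IsCompact K)
    (h : ¬ HasPos vol σ ζ K) :
    ∃ C ⊆ K, IsCompact C ∧ ¬ HasPos vol σ ζ C ∧
      ∀ C' ⊆ C, IsCompact C' → ¬ HasPos vol σ ζ C' → C' = C := by
  obtain ⟨C, hCK, hC⟩ := zorn_superset_nonempty
    {C : Set X | IsCompact C ∧ C ⊆ K ∧ ¬ HasPos vol σ ζ C} (by
    intro c hc hchain hne
    refine ⟨⋂₀ c, ⟨?_, ?_, ?_⟩, fun s hs => sInter_subset_of_mem hs⟩
    · exact (isClosed_sInter fun s hs => (hc hs).1.isClosed).isCompact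
    · obtain ⟨s, hs⟩ := hne
      exact (sInter_subset_of_mem hs).trans (hc hs).2.1
    · rintro ⟨ρ, hρ, hpos⟩
      obtain ⟨β, h1, h2, h3⟩ := hρ
      have hcont : Continuous (md vol σ (ζ + ρ)) := md_cont hd hvol hσ (hζ.add h2)
      have hne' : Nonempty c := hne.to_subtype
      have hdir : Directed (· ⊇ ·) (fun s : c => (s : Set X)) := by
        intro a b
        rcases hchain.total a.2 b.2 with h | h
        · exact ⟨a, subset_rfl, h⟩
        · exact ⟨b, h, subset_rfl⟩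
      obtain ⟨s, hs⟩ := exists_subset_nhds_of_isCompact' hdir
        (fun s => (hc s.2).1) (fun s => (hc s.2).1.isClosed)
        (U := {x | 0 < md vol σ (ζ + ρ) x}) (by
          intro x hx
          refine (isOpen_lt continuous_const hcont).mem_nhds (hpos x ?_)
          rw [sInter_eq_iInter]
          exact hx)
      exact (hc s.2).2.2 ⟨ρ, ⟨β, h1, h2, h3⟩, fun x hx => hs hx⟩) K ⟨hK, subset_rfl, h⟩
  refine ⟨C, hCK, hC.prop.1, hC.prop.2.2, fun C' h1 h2 h3 => ?_⟩
  exact subset_antisymm h1 (hC.le_of_le ⟨h2, h1.trans hCK, h3⟩ h1)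

theorem wt_int [CompactSpace X] [T2Space X] [MeasurableSpace X] [BorelSpace X]
    {u : X → ℝ} (hu : Continuous u) (hu0 : ∀ x, 0 ≤ u x) (μ : Measure X) (g : X → ℝ) :
    ∫ x, g x ∂(wt u μ) = ∫ x, u x * g x ∂μ := by
  unfold wt
  rw [integral_withDensity_eq_integral_smul (hu.measurable.real_toNNReal)]
  refine integral_congr_ae (Eventually.of_forall fun x => ?_)
  change (Real.toNNReal (u x) : ℝ) * g x = u x * g x
  rw [Real.coe_toNNReal _ (hu0 x)]

theorem wt_fin [CompactSpace X] [T2Space X] [MeasurableSpace X] [BorelSpace X]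
    {u : X → ℝ} (hu : Continuous u) (μ : Measure X) [IsFiniteMeasure μ] :
    IsFiniteMeasure (wt u μ) :=
  isFiniteMeasure_withDensity_ofReal (integrable_of_cont hu).hasFiniteIntegral

/-- over the degenerate set, multiplication by a function which is flat on the kernels commutes
with the exterior derivative -/
theorem md_prod (hd : d = 2 * (m + 1)) {vol : Top d m X} (hvol : IsVol vol) {σ : Form d X 2}
    {C : Set X} (hnn : ∀ x, NonnegTop vol σ x) (hC : C ⊆ {x | ¬ PosTop vol σ x})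
    {u : X → ℝ} (hu : KFlat σ C u) {β : Form d X 1} {ρ : Form d X 2} (hβ : IsSmooth β)
    (hρ : IsSmooth ρ) (hβρ : IsD β ρ) {x : X} (hx : x ∈ C) :
    md vol σ (prodD u β ρ) x = u x * md vol σ ρ x := by
  have hPr := Pool.Agent.Y658.SY.t_PROD
  obtain ⟨f, hf⟩ := hvol.frame x
  have hfd := fin_tangent (d := d) x
  have h1 : prodD u β ρ x = (u • ρ : Form d X 2) x + duw u β x := by
    change duw u β x + u x • ρ x = u x • ρ x + duw u β x
    rw [add_comm]
  obtain ⟨w, hw⟩ := exists_dual (σ x)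
    ((dd u x : TangentSpace (𝓡 d) x →L[ℝ] ℝ) : TangentSpace (𝓡 d) x →ₗ[ℝ] ℝ) (hu.2 x hx)
  have h2 := wedge_rank (m := m) (σ x) (duw u β x) (top_zero hd (hnn x) (hC hx))
    (fun v => β x ![v]) w (by
      intro v v'
      have h2 := (hPr d X u β ρ hu.1 hβ hρ hβρ).2.2.2.2 x v v'
      have h3 : prodD u β ρ x ![v, v'] = duw u β x ![v, v'] + u x * ρ x ![v, v'] := rfl
      rw [h3] at h2
      have h4 : ∀ v, σ x ![v, w] = dd u x v := fun v => (hw v).symm
      rw [h4, h4]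
      linarith) f
  have h3 := md_spec hd hvol σ (prodD u β ρ) x f
  have h4 := md_spec hd hvol σ ρ x f
  rw [h1] at h3
  have h5 := wedge_cons_add (m := m) (σ x) ((u • ρ : Form d X 2) x) (duw u β x) f
  have h6 := wedge_cons_smul (m := m) (σ x) (ρ x) (u x) f
  have h7 : (u • ρ : Form d X 2) x = u x • ρ x := rfl
  rw [h5, h2, add_zero, h7, h6, h4] at h3
  have h8 : (u x * md vol σ ρ x) * vol x f = md vol σ (prodD u β ρ) x * vol x f := by
    rw [← h3]; ring
  exact (mul_right_cancel₀ hf.ne' h8).symm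

/-- closed currents can be multiplied by functions which are flat on the kernels -/
theorem Carr.wt [CompactSpace X] [T2Space X] [MeasurableSpace X] [BorelSpace X]
    (hd : d = 2 * (m + 1)) {vol : Top d m X} (hvol : IsVol vol) {σ ζ : Form d X 2}
    (hnn : ∀ x, NonnegTop vol σ x) {C C' : Set X} (hC : C ⊆ {x | ¬ PosTop vol σ x})
    {μ : Measure X} (hμ : Carr vol σ ζ C μ) {u : X → ℝ} (hu : KFlat σ C u)
    (hu0 : ∀ x, 0 ≤ u x) (hCC' : ∀ x ∈ C, u x ≠ 0 → x ∈ C') (hpos : 0 < ∫ x, u x ∂μ)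
    (hle : ∫ x, u x * md vol σ ζ x ∂μ ≤ 0) : Carr vol σ ζ C' (wt u μ) := by
  have hPr := Pool.Agent.Y658.SY.t_PROD
  have hfin := hμ.fin
  refine ⟨wt_fin hu.1.continuous μ, fun h0 => ?_, ?_, ?_, ?_⟩
  · have h1 := wt_int hu.1.continuous hu0 μ (fun _ => (1 : ℝ))
    rw [h0, integral_zero_measure] at h1
    simp only [mul_one] at h1
    linarith
  · change μ.withDensity (fun x => ((Real.toNNReal (u x) : ℝ≥0) : ℝ≥0∞)) C'ᶜ = 0
    rw [withDensity_apply_eq_zero (by
      exact (hu.1.continuous.measurable.real_toNNReal).coe_nnreal_ennreal)]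
    refine measure_mono_null ?_ hμ.car
    rintro x ⟨hx1, hx2⟩ hx3
    refine hx2 (hCC' x hx3 fun h0 => hx1 ?_)
    rw [h0, Real.toNNReal_zero]; rfl
  · rintro ρ ⟨β, h1, h2, h3⟩
    obtain ⟨p1, p2, p3, -, -⟩ := hPr d X u β ρ hu.1 h1 h2 h3
    rw [wt_int hu.1.continuous hu0, ← hμ.closed (prodD u β ρ) ⟨_, p1, p2, p3⟩]
    refine integral_congr_ae ?_
    filter_upwards [hμ.ae] with x hx
    exact (md_prod hd hvol hnn hC hu h1 h2 h3 hx).symm
  · rw [wt_int hu.1.continuous hu0]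
    exact hle

/-- minimal carriers: full support -/
theorem full_support [CompactSpace X] [T2Space X] [MeasurableSpace X] [BorelSpace X]
    (hd : d = 2 * (m + 1)) {vol : Top d m X} (hvol : IsVol vol) {σ ζ : Form d X 2}
    (hσ : IsSmooth σ) (hζ : IsSmooth ζ) {C : Set X} (hC : IsCompact C)
    (hmin : ∀ C' ⊆ C, IsCompact C' → ¬ HasPos vol σ ζ C' → C' = C)
    {μ : Measure X} (hμ : Carr vol σ ζ C μ) {x : X} (hx : x ∈ C) (U : Set X) (hU : IsOpen U)
    (hxU : x ∈ U) : μ U ≠ 0 := by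
  intro h0
  have h1 : Carr vol σ ζ (C \ U) μ := by
    refine ⟨hμ.fin, hμ.ne, ?_, hμ.closed, hμ.le⟩
    refine measure_mono_null (t := Cᶜ ∪ U) ?_ (measure_union_null hμ.car h0)
    intro y hy
    by_cases hyC : y ∈ C
    · by_cases hyU : y ∈ U
      · exact Or.inr hyU
      · exact absurd ⟨hyC, hyU⟩ hy
    · exact Or.inl hyC
  have h2 := hmin (C \ U) sdiff_subset (hC.diff hU) (h1.not_hasPos hd hvol hσ hζ)
  rw [← h2] at hx
  exact hx.2 hxU

/-- minimal carriers are indecomposable -/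
theorem indec [CompactSpace X] [T2Space X] [MeasurableSpace X] [BorelSpace X]
    (hd : d = 2 * (m + 1)) {vol : Top d m X} (hvol : IsVol vol) {σ ζ : Form d X 2}
    (hσ : IsSmooth σ) (hζ : IsSmooth ζ) (hnn : ∀ x, NonnegTop vol σ x) {C : Set X}
    (hC : IsCompact C) (hCD : C ⊆ {x | ¬ PosTop vol σ x})
    (hmin : ∀ C' ⊆ C, IsCompact C' → ¬ HasPos vol σ ζ C' → C' = C)
    {μ : Measure X} (hμ : Carr vol σ ζ C μ) {h : X → ℝ} (hh : KFlat σ C h) {x y : X}
    (hx : x ∈ C) (hy : y ∈ C) (hxy : h x < h y) : False := by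
  have hfin := hμ.fin
  have hfull := fun (z : X) (hz : z ∈ C) => full_support hd hvol hσ hζ hC hmin hμ hz
  obtain ⟨a, ha1, ha2⟩ := exists_between hxy
  obtain ⟨b, hb1, hb2⟩ := exists_between ha2
  have hab : 0 < b - a := by linarith
  have hhc : Continuous h := hh.1.continuous
  let φ : ℝ → ℝ := fun s => Real.smoothTransition ((s - a) / (b - a))
  have hφ : ContDiff ℝ ∞ φ :=
    Real.smoothTransition.contDiff.comp ((contDiff_id.sub contDiff_const).div_const _)
  let ψ : ℝ → ℝ := fun s => 1 - φ s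
  have hψ : ContDiff ℝ ∞ ψ := contDiff_const.sub hφ
  have hφ0 : ∀ s, 0 ≤ φ s := fun s => Real.smoothTransition.nonneg _
  have hφ1 : ∀ s, φ s ≤ 1 := fun s => Real.smoothTransition.le_one _
  have hψ0 : ∀ s, 0 ≤ ψ s := fun s => sub_nonneg.2 (hφ1 s)
  have ku := hh.comp1 hφ
  have kv := hh.comp1 hψ
  have cu : Continuous fun z => φ (h z) := ku.1.continuous
  have cv : Continuous fun z => ψ (h z) := kv.1.continuous
  have e1 : ∀ z, h z ≤ a → φ (h z) = 0 := fun z hz =>
    Real.smoothTransition.zero_of_nonpos (div_nonpos_of_nonpos_of_nonneg (by linarith) hab.le)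
  have e2 : ∀ z, b ≤ h z → φ (h z) = 1 := fun z hz =>
    Real.smoothTransition.one_of_one_le ((one_le_div hab).2 (by linarith))
  have pu : 0 < ∫ z, φ (h z) ∂μ := by
    rw [integral_pos_iff_support_of_nonneg (fun z => hφ0 (h z)) (integrable_of_cont cu)]
    refine pos_iff_ne_zero.2 (hfull y hy _ cu.isOpen_support ?_)
    rw [Function.mem_support, e2 y hb2.le]
    exact one_ne_zero
  have pv : 0 < ∫ z, ψ (h z) ∂μ := by
    rw [integral_pos_iff_support_of_nonneg (fun z => hψ0 (h z)) (integrable_of_cont cv)]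
    refine pos_iff_ne_zero.2 (hfull x hx _ cv.isOpen_support ?_)
    rw [Function.mem_support]
    change 1 - φ (h x) ≠ 0
    rw [e1 x ha1.le, sub_zero]
    exact one_ne_zero
  have hmc := md_cont hd hvol hσ hζ
  have hs : ∫ z, φ (h z) * md vol σ ζ z ∂μ + ∫ z, ψ (h z) * md vol σ ζ z ∂μ =
      ∫ z, md vol σ ζ z ∂μ := by
    have i1 : Integrable (fun z => φ (h z) * md vol σ ζ z) μ := integrable_of_cont (cu.mul hmc)
    have i2 : Integrable (fun z => ψ (h z) * md vol σ ζ z) μ := integrable_of_cont (cv.mul hmc)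
    rw [← integral_add i1 i2]
    refine integral_congr_ae (Eventually.of_forall fun z => ?_)
    change φ (h z) * md vol σ ζ z + (1 - φ (h z)) * md vol σ ζ z = md vol σ ζ z
    ring
  have hle := hμ.le
  rcases le_total (∫ z, φ (h z) * md vol σ ζ z ∂μ) 0 with h0 | h0
  · have h1 := Carr.wt hd hvol hnn hCD hμ (C' := C ∩ {z | a ≤ h z}) ku (fun z => hφ0 (h z))
      (fun z hz hne => ⟨hz, by
        by_contra hlt
        exact hne (e1 z (not_le.1 hlt).le)⟩) pu h0
    have h2 := hmin (C ∩ {z | a ≤ h z}) inter_subset_left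
      (hC.inter_right (isClosed_le continuous_const hhc)) (h1.not_hasPos hd hvol hσ hζ)
    rw [← h2] at hx
    exact absurd hx.2 (not_le.2 ha1)
  · have h1 := Carr.wt hd hvol hnn hCD hμ (C' := C ∩ {z | h z ≤ b}) kv (fun z => hψ0 (h z))
      (fun z hz hne => ⟨hz, by
        by_contra hlt
        refine hne ?_
        change 1 - φ (h z) = 0
        rw [e2 z (not_le.1 hlt).le, sub_self]⟩) pv (by linarith)
    have h2 := hmin (C ∩ {z | h z ≤ b}) inter_subset_left
      (hC.inter_right (isClosed_le hhc continuous_const)) (h1.not_hasPos hd hvol hσ hζ)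
    rw [← h2] at hy
    exact absurd hy.2 (not_le.2 hb2)

/-- the main theorem: it suffices to consider indecomposable compact sets without thin points -/
theorem min_main [CompactSpace X] [T2Space X]
    (hd : d = 2 * (m + 1)) {vol : Top d m X} (hvol : IsVol vol) {σ ζ : Form d X 2}
    (hσ : IsSmooth σ) (hζ : IsSmooth ζ) (hnn : ∀ x, NonnegTop vol σ x)
    (hyp : ∀ C : Set X, IsCompact C → C.Nonempty → C ⊆ {x | ¬ PosTop vol σ x} →
      (∀ h : X → ℝ, KFlat σ C h → ∀ x ∈ C, ∀ y ∈ C, h x = h y) →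
      (∀ z ∈ C, ¬ ThinP (PK vol σ) C z) →
      ∃ ρ : Form d X 2, ExactF ρ ∧ (∀ x ∈ C, 0 ≤ md vol σ (ζ + ρ) x) ∧
        ∃ x ∈ C, 0 < md vol σ (ζ + ρ) x) :
    ∃ ρ : Form d X 2, ExactF ρ ∧ ∀ x, ¬ PosTop vol σ x → LinPos vol σ (ζ + ρ) x := by
  let _ : MeasurableSpace X := borel X
  have : BorelSpace X := ⟨rfl⟩
  have hK : IsCompact {x | ¬ PosTop vol σ x} :=
    (isOpen_posTop hd hvol hσ).isClosed_compl.isCompact
  by_contra hno
  have h0 : ¬ HasPos vol σ ζ {x | ¬ PosTop vol σ x} := by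
    rintro ⟨ρ, hρ, hpos⟩
    exact hno ⟨ρ, hρ, fun x hx => (linPos_iff hd hvol σ _ x).2 (hpos x hx)⟩
  obtain ⟨C, hCK, hC, hCn, hmin⟩ := exists_min hd hvol hσ hζ hK h0
  obtain ⟨μ, hμ⟩ := exists_carr hd hvol hσ hζ hC hCn
  have hfull := fun (z : X) (hz : z ∈ C) => full_support hd hvol hσ hζ hC hmin hμ hz
  have hne : C.Nonempty := by
    rw [nonempty_iff_ne_empty]
    rintro rfl
    exact hCn ⟨0, ⟨0, IsSmooth.zero, IsSmooth.zero, IsD.zero⟩, fun x hx => absurd hx (by simp)⟩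
  obtain ⟨ρ, hρ, h1, x, hx, h2⟩ := hyp C hC hne hCK (by
    intro h hh x hx y hy
    rcases lt_trichotomy (h x) (h y) with hlt | heq | hgt
    · exact (indec hd hvol hσ hζ hnn hC hCK hmin hμ hh hx hy hlt).elim
    · exact heq
    · exact (indec hd hvol hσ hζ hnn hC hCK hmin hμ hh hy hx hgt).elim) (by
    intro z hz hth
    exact not_thin hd hvol hσ hC hμ (hfull z hz) hth)
  exact not_pos hd hvol hσ hζ hρ hμ h1 (hfull x hx) h2

omit [IsManifold (𝓡 d) ∞ X] in
/-- a compact subset of a countable union of closed sets with thin points only has a thin point -/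
theorem baire_thin [CompactSpace X] [T2Space X] {P : PField d X} {D C : Set X} (F : ℕ → Set X)
    (hF : ∀ k, IsClosed (F k)) (hD : D ⊆ ⋃ k, F k) (hCD : C ⊆ D) (hC : IsCompact C)
    (hCn : C.Nonempty) (hth : ∀ k, ∀ z ∈ F k ∩ D, ThinP P (F k ∩ D) z) :
    ∃ z ∈ C, ThinP P C z := by
  have hcs : CompactSpace C := isCompact_iff_compactSpace.1 hC
  have hne : Nonempty C := hCn.to_subtype
  obtain ⟨k, ⟨z, hz⟩⟩ := nonempty_interior_of_iUnion_of_closed
    (f := fun k => (Subtype.val : C → X) ⁻¹' F k)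
    (fun k => (hF k).preimage continuous_subtype_val) (by
      rw [← preimage_iUnion]
      exact eq_univ_of_forall fun z => hD (hCD z.2))
  obtain ⟨U, hU, hU2⟩ := isOpen_induced_iff.1
    (isOpen_interior (s := (Subtype.val : C → X) ⁻¹' F k))
  have hsub : ∀ y ∈ C, y ∈ U → y ∈ F k := by
    intro y hy hyU
    have h1 : (⟨y, hy⟩ : C) ∈ (Subtype.val : C → X) ⁻¹' U := hyU
    rw [hU2] at h1
    exact (interior_subset (s := (Subtype.val : C → X) ⁻¹' F k) h1 : _)
  have hzU : (z : X) ∈ U := by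
    rw [← hU2] at hz
    exact hz
  have hzk : (z : X) ∈ F k := interior_subset (s := (Subtype.val : C → X) ⁻¹' F k) hz
  obtain ⟨n, a, b, N, hN, ha, hb, hnull, hpos⟩ := hth k z ⟨hzk, hCD z.2⟩
  refine ⟨z, z.2, n, a, b, N ∩ U, Filter.inter_mem hN (hU.mem_nhds hzU), ha, hb,
    fun i => measure_mono_null (image_mono ?_) (hnull i), hpos⟩
  rintro y ⟨hy, hyN, hyU⟩
  exact ⟨⟨hsub y hy hyU, hCD hy⟩, hyN⟩

end

end Pool.Agent.R772
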