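import Pool.Agent.R772.PubM
import Pool.Agent.R772.Min2
import Pool.Agent.R772.BridgeD

/-!
The criterion by test sets in terms of the public definitions.
-/

set_option autoImplicit false

open Set Filter Topology MeasureTheory
open scoped Manifold ContDiff

noncomputable section

namespace Pool.Agent.R772.SYM

open Pool.Agent.Y501.SYP
open Pool.Agent.Y501
open Pool.Agent.R772.SYK
open Pool.Agent.R772.SYF
open Pool.Agent.R772.SYD

section

variable {m d : ℕ} {X : Type} [TopologicalSpace X] [ChartedSpace (ES d) X]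

attribute [local instance] Pool.Agent.Y501.SYP.cs
attribute [local instance] Pool.Agent.Y501.SYP.mf

theorem posOnDeg_sympl (hd : d = 2 * (m + 1)) [IsManifold 𝓘(ℝ, ES d) ∞ X] [CompactSpace X]
    [T2Space X] {vol : TopForm (ES d) X m} (hvol : IsVolume vol) {σ ζ : Form (ES d) X 2}
    (hσ : IsClosed2 σ) (hζ : IsClosed2 ζ) (hnn : TopNonneg vol σ) :
    (∃ (α : Form (ES d) X 1) (ρ : Form (ES d) X 2) (c : ℝ), ExactPair α ρ ∧
        SymplecticUpTo vol σ (addF ζ ρ) c) ↔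
      ∃ (α : Form (ES d) X 1) (ρ : Form (ES d) X 2), ExactPair α ρ ∧
        PosOnDeg vol σ (addF ζ ρ) := by
  let _ : MeasurableSpace X := borel X
  have : BorelSpace X := ⟨rfl⟩
  exact (duality hd vol hvol σ ζ hσ hζ hnn).out 0 1

theorem md_nonneg (hd : d = 2 * (m + 1)) {vol : TopForm (ES d) X m} (hvol : IsVolume vol)
    {σ η : Form (ES d) X 2} {x : X}
    (h : ∀ e : Fam (ES d) m x, 0 < vol x e → 0 ≤ mixed m σ x (η x) e) :
    0 ≤ R772.md (d := d) (m := m) (X := X) (toTop vol) σ η x := by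
  obtain ⟨f, hf⟩ := (vol_of hvol).frame x
  have h1 := h f hf
  have h2 := R772.md_spec (d := d) (m := m) (X := X) hd (vol_of hvol) σ η x f
  have h3 : mixed m σ x (η x) f =
    R772.md (d := d) (m := m) (X := X) (toTop vol) σ η x * vol x f := h2
  rw [h3] at h1
  by_contra hlt
  push Not at hlt
  exact absurd h1 (not_le.2 (mul_neg_of_neg_of_pos hlt hf))

theorem exists_of_tests (hd : d = 2 * (m + 1)) [IsManifold 𝓘(ℝ, ES d) ∞ X] [CompactSpace X]
    [T2Space X] {vol : TopForm (ES d) X m} (hvol : IsVolume vol) {σ ζ : Form (ES d) X 2}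
    (hσ : IsClosed2 σ) (hζ : IsClosed2 ζ) (hnn : TopNonneg vol σ)
    (h : ∀ C : Set X, TestSet vol σ C → ∃ (α : Form (ES d) X 1) (ρ : Form (ES d) X 2),
      ExactPair α ρ ∧ SemiPos vol σ (addF ζ ρ) C) :
    ∃ (α : Form (ES d) X 1) (ρ : Form (ES d) X 2), ExactPair α ρ ∧
      PosOnDeg vol σ (addF ζ ρ) := by
  obtain ⟨ρ, hρ, hpos⟩ := R772.min_main (d := d) (m := m) (X := X) hd (vol := toTop vol)
    (vol_of hvol) (σ := σ) (ζ := ζ) ((smooth_iff σ).1 hσ.smooth) ((smooth_iff ζ).1 hζ.smooth)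
    (fun x e he => hnn x e he) (by
      intro C hC hCn hCD hind hth
      obtain ⟨α, ρ, hα, hp⟩ := h C ⟨hC, hCn, fun x hx => (deg_iff hd hvol hnn x).2 (hCD hx),
        fun u hu => hind u ⟨hu.smooth, fun x hx v hv => hu.ker x hx v hv⟩,
        fun z hz hs => hth z hz (small_of hd hvol hs)⟩
      refine ⟨ρ, (exactF_iff ρ).2 ⟨α, hα⟩, fun x hx => md_nonneg hd hvol (hp.nonneg x hx), ?_⟩
      obtain ⟨x, hx, hpx⟩ := hp.pos
      exact ⟨x, hx, (R772.linPos_iff (d := d) (m := m) (X := X) hd (vol_of hvol) σ _ x).1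
        (fun e he => hpx e he)⟩)
  obtain ⟨α, hα⟩ := (exactF_iff ρ).1 hρ
  exact ⟨α, ρ, hα, fun x hx e he => hpos x ((deg_iff hd hvol hnn x).1 hx) e he⟩

theorem tests (hd : d = 2 * (m + 1)) [IsManifold 𝓘(ℝ, ES d) ∞ X] [CompactSpace X]
    [T2Space X] (vol : TopForm (ES d) X m) (hvol : IsVolume vol) (σ : Form (ES d) X 2)
    (hσ : IsClosed2 σ) (hnn : TopNonneg vol σ) (ζ : Form (ES d) X 2) (hζ : IsClosed2 ζ) :
    (∃ (α : Form (ES d) X 1) (ρ : Form (ES d) X 2) (c : ℝ), ExactPair α ρ ∧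
        SymplecticUpTo vol σ (addF ζ ρ) c) ↔
      ∀ C : Set X, TestSet vol σ C → ∃ (α : Form (ES d) X 1) (ρ : Form (ES d) X 2),
        ExactPair α ρ ∧ SemiPos vol σ (addF ζ ρ) C := by
  rw [posOnDeg_sympl hd hvol hσ hζ hnn]
  constructor
  · rintro ⟨α, ρ, hα, hp⟩ C hC
    obtain ⟨x, hx⟩ := hC.nonempty
    exact ⟨α, ρ, hα, fun x hx e he => (hp x (hC.deg hx) e he).le, x, hx,
      fun e he => hp x (hC.deg hx) e he⟩
  · exact exists_of_tests hd hvol hσ hζ hnn

theorem countable (hd : d = 2 * (m + 1)) [IsManifold 𝓘(ℝ, ES d) ∞ X] [CompactSpace X]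
    [T2Space X] (vol : TopForm (ES d) X m) (hvol : IsVolume vol) (σ : Form (ES d) X 2)
    (hσ : IsClosed2 σ) (hnn : TopNonneg vol σ) (F : ℕ → Set X) (hF : CountablySmall vol σ F)
    (ζ : Form (ES d) X 2) (hζ : IsClosed2 ζ) :
    ∃ (α : Form (ES d) X 1) (ρ : Form (ES d) X 2) (c : ℝ), ExactPair α ρ ∧
        SymplecticUpTo vol σ (addF ζ ρ) c := by
  rw [posOnDeg_sympl hd hvol hσ hζ hnn]
  obtain ⟨ρ, hρ, hpos⟩ := R772.min_main (d := d) (m := m) (X := X) hd (vol := toTop vol)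
    (vol_of hvol) (σ := σ) (ζ := ζ) ((smooth_iff σ).1 hσ.smooth) ((smooth_iff ζ).1 hζ.smooth)
    (fun x e he => hnn x e he) (by
      intro C hC hCn hCD _ hth
      obtain ⟨z, hz, hs⟩ := R772.baire_thin (d := d) (X := X)
        (P := R772.PK (d := d) (m := m) (X := X) (toTop vol) σ) (D := Deg m σ) F hF.closed
        hF.cover (fun x hx => (deg_iff hd hvol hnn x).2 (hCD hx)) hC hCn
        (fun k z hz => small_of hd hvol (hF.small k z hz))
      exact absurd hs (hth z hz))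
  obtain ⟨α, hα⟩ := (exactF_iff ρ).1 hρ
  exact ⟨α, ρ, hα, fun x hx e he => hpos x ((deg_iff hd hvol hnn x).1 hx) e he⟩

end

end Pool.Agent.R772.SYM
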