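import Pool.Agent.R772.PubM
import Pool.Agent.R772.PubG

/-!
Homotopies of nondegenerate two-forms: the definitions used in the statement.
-/

set_option autoImplicit false

open Set Filter Topology MeasureTheory
open scoped Manifold ContDiff

noncomputable section

namespace Pool.Agent.R772.SYU

open Pool.Agent.Y501.SYP
open Pool.Agent.R772.SYK
open Pool.Agent.R772.SYG
open Pool.Agent.R772.SYF
open Pool.Agent.R772.SYD

section

variable {V : Type} [NormedAddCommGroup V] [NormedSpace ℝ V]
  {X : Type} [TopologicalSpace X] [ChartedSpace V X] {m : ℕ}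

/-- `τ` and `w` are homotopic through nondegenerate two-forms: they are joined by a continuous
path `γ s`, `0 ≤ s ≤ 1`, of smooth nondegenerate two-forms. -/
def Homotopic (τ w : Form V X 2) : Prop :=
  ∃ γ : ℝ → Form V X 2, ContFamily γ ∧ γ 0 = τ ∧ γ 1 = w ∧
    ∀ s : ℝ, 0 ≤ s → s ≤ 1 → IsSmooth (γ s) ∧ ∀ x : X, NondegAt (γ s) x

/-- `τ` is smooth, `τ ∧ σ ^ m` is positive over the set where `σ ^ (m + 1)` vanishes, and the forms
`(1 - s) τ + s σ`, `0 ≤ s ≤ 1`, are nondegenerate, except for `s = 1` over this set. -/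
structure Adjacent (vol : TopForm V X m) (σ τ : Form V X 2) : Prop where
  smooth : IsSmooth τ
  pos : PosOnDeg vol σ τ
  nondeg : ∀ (x : X) (s : ℝ), 0 ≤ s → s ≤ 1 → (x ∉ Deg m σ ∨ s < 1) → NondegAt (seg τ σ s) x

end

end Pool.Agent.R772.SYU
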