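import Pool.Agent.R772.UQ
import Pool.Agent.R772.PubU

/-!
The homotopy class and the uniqueness in terms of the public definitions.
-/

set_option autoImplicit false

open Set Filter Topology MeasureTheory
open scoped Manifold ContDiff

noncomputable section

namespace Pool.Agent.R772

open Pool.Agent.Y501.SY

section

variable {d m : ℕ} {X : Type} [TopologicalSpace X] [ChartedSpace (E d) X]
  {P Q : Type} [TopologicalSpace P] [TopologicalSpace Q]

theorem ContFam.comp {σ : P → Form d X 2} (hσ : ContFam σ) {c : Q → P} (hc : Continuous c) :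
    ContFam (fun q => σ (c q)) := by
  intro z
  exact (hσ z).comp ((hc.comp continuous_fst).prodMk continuous_snd).continuousOn
    (fun q hq => ⟨trivial, hq.2⟩)

end

end Pool.Agent.R772

namespace Pool.Agent.R772.SYU

open Pool.Agent.Y501.SYP
open Pool.Agent.Y501
open Pool.Agent.R772.SYK
open Pool.Agent.R772.SYG
open Pool.Agent.R772.SYF
open Pool.Agent.R772.SYD
open Pool.Agent.R772.SYM

section

variable {m d : ℕ} {X : Type} [TopologicalSpace X] [ChartedSpace (ES d) X]

attribute [local instance] Pool.Agent.Y501.SYP.cs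
attribute [local instance] Pool.Agent.Y501.SYP.mf

/-- the clamping function -/
def cla (s : ℝ) : ℝ := max 0 (min s 1)

theorem cla_cont : Continuous cla := continuous_const.max (continuous_id.min continuous_const)

theorem cla_nonneg (s : ℝ) : 0 ≤ cla s := le_max_left _ _

theorem cla_le (s : ℝ) : cla s ≤ 1 := max_le zero_le_one (min_le_right _ _)

theorem cla_zero {s : ℝ} (h : s ≤ 0) : cla s = 0 := by
  unfold cla
  rw [min_eq_left (by linarith), max_eq_left h]

theorem cla_one {s : ℝ} (h : 1 ≤ s) : cla s = 1 := by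
  unfold cla
  rw [min_eq_right h]
  norm_num

theorem homotopic_seg [IsManifold 𝓘(ℝ, ES d) ∞ X] {τ w : Form (ES d) X 2} (hτ : IsSmooth τ)
    (hw : IsSmooth w) (h : ∀ s : ℝ, 0 ≤ s → s ≤ 1 → ∀ x, NondegAt (seg τ w s) x) :
    Homotopic τ w := by
  have hτ' := (smooth_iff τ).1 hτ
  have hw' := (smooth_iff w).1 hw
  refine ⟨fun s => seg τ w (cla s), ?_, ?_, ?_, fun s _ _ => ⟨?_, h _ (cla_nonneg s) (cla_le s)⟩⟩
  · have h1 := ((R772.IsSmooth.contFam (d := d) (X := X) (P := ℝ) hτ').smul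
      (continuous_const.sub cla_cont : Continuous fun s : ℝ => 1 - cla s)).add
      ((R772.IsSmooth.contFam (d := d) (X := X) (P := ℝ) hw').smul cla_cont)
    exact h1
  · funext x
    show (1 - cla 0) • τ x + cla 0 • w x = τ x
    rw [cla_zero le_rfl, sub_zero, one_smul, zero_smul, add_zero]
  · funext x
    show (1 - cla 1) • τ x + cla 1 • w x = w x
    rw [cla_one le_rfl, sub_self, one_smul, zero_smul, zero_add]
  · exact (smooth_iff _).2 ((hτ'.smul (1 - cla s)).add (hw'.smul (cla s)))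

theorem Homotopic.trans [IsManifold 𝓘(ℝ, ES d) ∞ X] {τ w v : Form (ES d) X 2}
    (h1 : Homotopic τ w) (h2 : Homotopic w v) : Homotopic τ v := by
  obtain ⟨γ₁, c1, a1, b1, n1⟩ := h1
  obtain ⟨γ₂, c2, a2, b2, n2⟩ := h2
  have hw : IsSmooth w := by
    rw [← b1]
    exact (n1 1 zero_le_one le_rfl).1
  have hw' := (smooth_iff w).1 hw
  have e1 : ∀ s : ℝ, s ≤ 1 / 2 → (fun x => γ₁ (cla (2 * s)) x + γ₂ (cla (2 * s - 1)) x +
      (-1 : ℝ) • w x) = γ₁ (cla (2 * s)) := by
    intro s hs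
    funext x
    have hn : (-1 : ℝ) • w x = -(w x) := neg_one_smul ℝ (w x)
    rw [cla_zero (s := 2 * s - 1) (by linarith), a2, hn, add_neg_cancel_right]
  have e2 : ∀ s : ℝ, 1 / 2 ≤ s → (fun x => γ₁ (cla (2 * s)) x + γ₂ (cla (2 * s - 1)) x +
      (-1 : ℝ) • w x) = γ₂ (cla (2 * s - 1)) := by
    intro s hs
    funext x
    have hn : (-1 : ℝ) • w x = -(w x) := neg_one_smul ℝ (w x)
    rw [cla_one (s := 2 * s) (by linarith), b1, hn, add_comm (w x), add_neg_cancel_right]
  refine ⟨fun s x => γ₁ (cla (2 * s)) x + γ₂ (cla (2 * s - 1)) x + (-1 : ℝ) • w x,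
    ?_, ?_, ?_, fun s hs0 hs1 => ?_⟩
  · have k1 := R772.ContFam.comp (d := d) (X := X) (P := ℝ) (Q := ℝ) (σ := γ₁) c1
      (c := fun s => cla (2 * s)) (cla_cont.comp (continuous_const.mul continuous_id))
    have k2 := R772.ContFam.comp (d := d) (X := X) (P := ℝ) (Q := ℝ) (σ := γ₂) c2
      (c := fun s => cla (2 * s - 1))
      (cla_cont.comp ((continuous_const.mul continuous_id).sub continuous_const))
    have k3 := (R772.IsSmooth.contFam (d := d) (X := X) (P := ℝ) hw').smul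
      (continuous_const : Continuous fun _ : ℝ => (-1 : ℝ))
    exact (k1.add k2).add k3
  · show (fun x => γ₁ (cla (2 * 0)) x + γ₂ (cla (2 * 0 - 1)) x + (-1 : ℝ) • w x) = τ
    rw [e1 0 (by norm_num), cla_zero (by norm_num), a1]
  · show (fun x => γ₁ (cla (2 * 1)) x + γ₂ (cla (2 * 1 - 1)) x + (-1 : ℝ) • w x) = v
    rw [e2 1 (by norm_num), cla_one (by norm_num), b2]
  · show IsSmooth (fun x => γ₁ (cla (2 * s)) x + γ₂ (cla (2 * s - 1)) x + (-1 : ℝ) • w x) ∧
      ∀ x : X, NondegAt (fun x => γ₁ (cla (2 * s)) x + γ₂ (cla (2 * s - 1)) x +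
        (-1 : ℝ) • w x) x
    rcases le_total s (1 / 2) with h | h
    · rw [e1 s h]
      exact n1 _ (cla_nonneg _) (cla_le _)
    · rw [e2 s h]
      exact n2 _ (cla_nonneg _) (cla_le _)

variable [IsManifold 𝓘(ℝ, ES d) ∞ X] [CompactSpace X] [T2Space X]

theorem comb_symp (hd : d = 2 * (m + 1)) {vol : TopForm (ES d) X m} (hvol : IsVolume vol)
    {σ η₁ η₂ : Form (ES d) X 2} (hσ : IsClosed2 σ) (hnn : TopNonneg vol σ)
    (h₁ : IsClosed2 η₁) (h₂ : IsClosed2 η₂) (hp₁ : PosOnDeg vol σ η₁) (hp₂ : PosOnDeg vol σ η₂) :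
    ∃ t₀ : ℝ, 0 < t₀ ∧ ∀ a b : ℝ, 0 ≤ a → 0 ≤ b → 0 < a + b → a + b ≤ t₀ →
      IsPosSymplectic vol (fun x => σ x + (a • η₁ x + b • η₂ x)) := by
  obtain ⟨t₀, ht₀, h⟩ := R772.twoK (d := d) (m := m) (X := X) hd (vol := toTop vol)
    (vol_of hvol) (σ := σ) (η₁ := η₁) (η₂ := η₂) ((smooth_iff σ).1 hσ.smooth)
    ((closed_iff σ).1 hσ.closed) ((smooth_iff η₁).1 h₁.smooth) ((closed_iff η₁).1 h₁.closed)
    ((smooth_iff η₂).1 h₂.smooth) ((closed_iff η₂).1 h₂.closed) (fun x e he => hnn x e he)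
    (fun x hx e he => hp₁ x ((deg_iff hd hvol hnn x).2 hx) e he)
    (fun x hx e he => hp₂ x ((deg_iff hd hvol hnn x).2 hx) e he)
  refine ⟨t₀, ht₀, fun a b ha hb hab hle => ?_⟩
  obtain ⟨e1, e2, e3⟩ := h a b ha hb hab hle
  exact ⟨⟨(smooth_iff _).2 e1, (closed_iff _).2 e2⟩,
    fun x v hv => R772.PosTop.nondeg (d := d) (m := m) (X := X) hd (vol_of hvol) (e3 x) v hv,
    fun x e he => e3 x e he⟩

theorem comb_one (hd : d = 2 * (m + 1)) {vol : TopForm (ES d) X m} (hvol : IsVolume vol)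
    {σ η : Form (ES d) X 2} (hσ : IsClosed2 σ) (hnn : TopNonneg vol σ)
    (h : IsClosed2 η) (hp : PosOnDeg vol σ η) :
    ∃ t₀ : ℝ, 0 < t₀ ∧ ∀ t : ℝ, 0 < t → t ≤ t₀ → IsPosSymplectic vol (comb σ t η) := by
  obtain ⟨t₀, ht₀, h1⟩ := comb_symp hd hvol hσ hnn h h hp hp
  refine ⟨t₀, ht₀, fun t ht0 ht1 => ?_⟩
  have h2 := h1 t 0 ht0.le le_rfl (by linarith) (by linarith)
  have e : (fun x => σ x + (t • η x + (0 : ℝ) • η x)) = comb σ t η := by
    funext x
    show σ x + (t • η x + (0 : ℝ) • η x) = σ x + t • η x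
    rw [zero_smul, add_zero]
  rwa [e] at h2

theorem unique (hd : d = 2 * (m + 1)) {vol : TopForm (ES d) X m} (hvol : IsVolume vol)
    {σ η η' : Form (ES d) X 2} (hσ : IsClosed2 σ) (hnn : TopNonneg vol σ)
    (h : IsClosed2 η) (h' : IsClosed2 η') (hp : PosOnDeg vol σ η) (hp' : PosOnDeg vol σ η') :
    ∃ t₀ : ℝ, 0 < t₀ ∧ ∀ t t' : ℝ, 0 < t → t ≤ t₀ → 0 < t' → t' ≤ t₀ → ∀ s : ℝ, 0 ≤ s →
      s ≤ 1 → IsPosSymplectic vol (seg (comb σ t η) (comb σ t' η') s) := by
  obtain ⟨t₀, ht₀, h1⟩ := comb_symp hd hvol hσ hnn h h' hp hp'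
  refine ⟨t₀, ht₀, fun t t' ht0 ht1 ht0' ht1' s hs0 hs1 => ?_⟩
  have hs1' : 0 ≤ 1 - s := by linarith
  have k1 : 0 < (1 - s) * t + s * t' := by
    rcases hs0.eq_or_lt with h0 | h0
    · rw [← h0]
      linarith
    · have := mul_pos h0 ht0'
      have := mul_nonneg hs1' ht0.le
      linarith
  have k2 : (1 - s) * t + s * t' ≤ t₀ := by
    have := mul_le_mul_of_nonneg_left ht1 hs1'
    have := mul_le_mul_of_nonneg_left ht1' hs0
    linarith
  have h2 := h1 ((1 - s) * t) (s * t') (by positivity) (by positivity) k1 k2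
  have e : (fun x => σ x + (((1 - s) * t) • η x + (s * t') • η' x))
      = seg (comb σ t η) (comb σ t' η') s := by
    funext x
    show σ x + (((1 - s) * t) • η x + (s * t') • η' x)
      = (1 - s) • (σ x + t • η x) + s • (σ x + t' • η' x)
    rw [smul_add, smul_add, smul_smul, smul_smul, add_add_add_comm, ← add_smul,
      sub_add_cancel, one_smul]
  rwa [e] at h2

theorem homotopy_class (hd : d = 2 * (m + 1)) {vol : TopForm (ES d) X m} (hvol : IsVolume vol)
    {σ η τ : Form (ES d) X 2} (hσ : IsClosed2 σ) (hnn : TopNonneg vol σ)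
    (h : IsClosed2 η) (hp : PosOnDeg vol σ η) :
    (∃ t₀ : ℝ, 0 < t₀ ∧ ∀ t : ℝ, 0 < t → t ≤ t₀ → Homotopic τ (comb σ t η)) ↔
      ∃ τ' : Form (ES d) X 2, Homotopic τ τ' ∧ Adjacent vol σ τ' := by
  constructor
  · rintro ⟨t₀, ht₀, hh⟩
    obtain ⟨t₁, ht₁, h1⟩ := unique hd hvol hσ hnn h h hp hp
    obtain ⟨t₂, ht₂, h2⟩ := comb_one hd hvol hσ hnn h hp
    set t := min t₀ (min t₁ t₂) with ht
    have ht0 : 0 < t := lt_min ht₀ (lt_min ht₁ ht₂)
    have l0 : t ≤ t₀ := min_le_left _ _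
    have l1 : t ≤ t₁ := (min_le_right _ _).trans (min_le_left _ _)
    have l2 : t ≤ t₂ := (min_le_right _ _).trans (min_le_right _ _)
    refine ⟨comb σ t η, hh t ht0 l0, (h2 t ht0 l2).closed.smooth, ?_, ?_⟩
    · intro x hx e he
      have k1 := hp x hx e he
      have k2 : mixed m σ x (comb σ t η x) e = t * mixed m σ x (η x) e := by
        have k3 : mixed m σ x (comb σ t η x) e = mixed m σ x (σ x) e
            + t * mixed m σ x (η x) e :=
          R772.wedge_cons_linear (m := m) (σ x) (σ x) (η x) t e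
        have k6 : mixed m σ x (σ x) e = 0 := by
          have k7 := hx e
          have k8 : (Fin.cons (σ x) (fun _ : Fin m => σ x) : Fin (m + 1) →
              (TangentSpace 𝓘(ℝ, ES d) x) [⋀^Fin 2]→L[ℝ] ℝ) = fun _ => σ x := by
            funext i
            refine Fin.cases ?_ (fun i => ?_) i <;> simp
          unfold mixed
          rw [k8]
          exact k7
        rw [k3, k6, zero_add]
      rw [k2]
      exact mul_pos ht0 k1
    · intro x s hs0 hs1 hs
      rcases hs1.eq_or_lt with h0 | h0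
      · rw [h0]
        rcases hs with hs | hs
        · have e : (seg (comb σ t η) σ 1) = σ := by
            funext x
            show (1 - (1 : ℝ)) • comb σ t η x + (1 : ℝ) • σ x = σ x
            rw [sub_self, zero_smul, one_smul, zero_add]
          rw [e]
          have k1 : R772.PosTop (d := d) (m := m) (X := X) (toTop vol) σ x := by
            by_contra hcon
            exact hs ((deg_iff hd hvol hnn x).2 hcon)
          exact fun v hv => R772.PosTop.nondeg (d := d) (m := m) (X := X) hd (vol_of hvol) k1 v hv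
        · linarith
      · have hs' : 0 < (1 - s) * t := mul_pos (by linarith) ht0
        have k1 := (h2 ((1 - s) * t) hs' (by nlinarith)).nondeg x
        have e : seg (comb σ t η) σ s = comb σ ((1 - s) * t) η := by
          funext x
          show (1 - s) • (σ x + t • η x) + s • σ x = σ x + ((1 - s) * t) • η x
          rw [smul_add, smul_smul, add_right_comm, ← add_smul, sub_add_cancel, one_smul]
        rw [e]
        exact k1
  · rintro ⟨τ', hh, hτ', hpos, hnd⟩
    obtain ⟨t₁, ht₁, h1⟩ := R772.segAll (d := d) (m := m) (X := X) hd (vol := toTop vol)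
      (vol_of hvol) (σ := σ) (η := η) (τ := τ') ((smooth_iff σ).1 hσ.smooth)
      ((smooth_iff η).1 h.smooth) ((smooth_iff τ').1 hτ') (fun x e he => hnn x e he)
      (fun x hx e he => hp x ((deg_iff hd hvol hnn x).2 hx) e he)
      (fun x hx e he => hpos x ((deg_iff hd hvol hnn x).2 hx) e he)
      (fun x s hs0 hs1 h => by
        refine hnd x s hs0 hs1 ?_
        rcases h with h | h
        · exact Or.inl fun hx => (deg_iff hd hvol hnn x).1 hx h
        · exact Or.inr h)
    obtain ⟨t₂, ht₂, h2⟩ := comb_one hd hvol hσ hnn h hp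
    refine ⟨min t₁ t₂, lt_min ht₁ ht₂, fun t ht0 ht1 => hh.trans ?_⟩
    refine homotopic_seg hτ' (h2 t ht0 (ht1.trans (min_le_right _ _))).closed.smooth ?_
    exact fun s hs0 hs1 x => h1 t ht0 (ht1.trans (min_le_left _ _)) s hs0 hs1 x

end

end Pool.Agent.R772.SYU
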