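import Pool.Agent.TH289.N.A3
import Pool.Agent.Y150.Ch.Line

/-!
# Equivariant convex valued maps on closed affine manifolds
-/

set_option autoImplicit false

open Set Filter Topology Metric

namespace Pool.Agent.R772.CC

open Pool.Agent.W689.Ch Pool.Agent.TH845.Mk Pool.Agent.Y150.Ch
open Pool.Agent.W689.Mk (lin hol_add hol_sub hol_inv_apply hol_apply_inv lin_inv_apply lin_mul
  lin_smul hol_cont)
open Pool.Agent.TH289.N (avg)

variable {X Γ E : Type} [TopologicalSpace X] [T2Space X] [Group Γ] [MulAction Γ X]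
  [NormedAddCommGroup E] [NormedSpace ℝ E] [FiniteDimensional ℝ E]
  {dev : X → E} {hol : Γ →* (E ≃ᵃ[ℝ] E)}

/-- An equivariant map with nonempty convex values, with open lower sections and without fixed
points gives a field without zeros. -/
theorem field_of_map (D : AffMfd X Γ E dev hol) {Φ : X → Set E} (hne : ∀ x, (Φ x).Nonempty)
    (hc : ∀ x, Convex ℝ (Φ x)) (hi : ∀ (γ : Γ) x, ∀ y ∈ Φ x, hol γ y ∈ Φ (γ • x))
    (ho : ∀ x, ∀ y ∈ Φ x, ∀ᶠ x' in 𝓝 x, y ∈ Φ x') (hf : ∀ x, dev x ∉ Φ x) :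
    ∃ Z : X → E, Continuous Z ∧ (∀ (γ : Γ) x, Z (γ • x) = lin hol γ (Z x)) ∧ ∀ x, Z x ≠ 0 := by
  have := locComp D
  obtain ⟨ρ, hρ⟩ := exists_wt D
  choose y hy using hne
  have hU : ∀ x, ∃ U : Set X, IsOpen U ∧ x ∈ U ∧ ∀ x' ∈ U, y x ∈ Φ x' := by
    intro x
    obtain ⟨U, hU1, hU2, hU3⟩ := eventually_nhds_iff.1 (ho x _ (hy x))
    exact ⟨U, hU2, hU3, hU1⟩
  choose U hUo hUx hUy using hU
  obtain ⟨t, ht⟩ := hρ.cpt.isCompact.elim_finite_subcover U hUo
    (fun x _ => mem_iUnion.2 ⟨x, hUx x⟩)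
  let e := t.equivFin
  obtain ⟨f, hf1, hf2, hf3, -⟩ := exists_continuous_sum_one_of_isOpen_isCompact
    (s := fun i : Fin t.card => U (e.symm i).1) (fun i => hUo _) hρ.cpt.isCompact (by
      intro x hx
      obtain ⟨z, hz⟩ := mem_iUnion.1 (ht hx)
      obtain ⟨hzt, hxz⟩ := mem_iUnion.1 hz
      refine mem_iUnion.2 ⟨e ⟨z, hzt⟩, ?_⟩
      rw [Equiv.symm_apply_apply]
      exact hxz)
  let W : X → E := fun x => ∑ i, f i x • (y (e.symm i).1 - dev x)
  have hW : Continuous W := continuous_finsetSum _ fun i _ =>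
    (f i).continuous.smul (continuous_const.sub D.loc.continuous)
  obtain ⟨h1, h2⟩ := avg D hρ hW
  refine ⟨_, h1, h2, fun x hx => ?_⟩
  have hWm : ∀ z, ρ z ≠ 0 → dev z + W z ∈ Φ z := by
    intro z hz
    have hzt : z ∈ tsupport ρ := subset_tsupport _ hz
    have hs : ∑ i, f i z = 1 := by
      have := hf2 hzt
      simpa using this
    have e1 : dev z + W z = ∑ i, f i z • y (e.symm i).1 := by
      show dev z + ∑ i, f i z • (y (e.symm i).1 - dev z) = _
      simp only [smul_sub, Finset.sum_sub_distrib, ← Finset.sum_smul, hs, one_smul]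
      abel
    have e2 : ∑ i, f i z • y (e.symm i).1 =
        ∑ i ∈ Finset.univ.filter (fun i => f i z ≠ 0), f i z • y (e.symm i).1 := by
      rw [Finset.sum_filter]
      refine Finset.sum_congr rfl fun i _ => ?_
      by_cases h : f i z = 0
      · rw [if_neg (not_not.2 h), h, zero_smul]
      · rw [if_pos h]
    have e3 : ∑ i ∈ Finset.univ.filter (fun i => f i z ≠ 0), f i z = 1 := by
      rw [← hs, Finset.sum_filter]
      refine Finset.sum_congr rfl fun i _ => ?_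
      by_cases h : f i z = 0
      · rw [if_neg (not_not.2 h), h]
      · rw [if_pos h]
    rw [e1, e2]
    refine (hc z).sum_mem (fun i _ => (hf3 i z).1) e3 fun i hi => ?_
    have h3 : f i z ≠ 0 := (Finset.mem_filter.1 hi).2
    exact hUy _ z (hf1 i (subset_tsupport _ h3))
  obtain ⟨V, hV, F, hF⟩ := hρ.locfin x
  have hxV := mem_of_mem_nhds hV
  have hs : ∑ γ ∈ F, ρ (γ • x) = 1 := by
    rw [← hρ.sum x]
    exact (tsum_eq_sum fun γ hγ => hF γ hγ x hxV).symm
  have h3 : ∑' γ : Γ, ρ (γ • x) • lin hol γ⁻¹ (W (γ • x)) =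
      ∑ γ ∈ F, ρ (γ • x) • lin hol γ⁻¹ (W (γ • x)) :=
    tsum_eq_sum fun γ hγ => by rw [hF γ hγ x hxV, zero_smul]
  have h4 : ∀ γ : Γ, hol γ⁻¹ (dev (γ • x) + W (γ • x)) = dev x + lin hol γ⁻¹ (W (γ • x)) := by
    intro γ
    rw [hol_add, D.equi, hol_inv_apply]
  have h5 : dev x + ∑ γ ∈ F, ρ (γ • x) • lin hol γ⁻¹ (W (γ • x)) =
      ∑ γ ∈ F, ρ (γ • x) • hol γ⁻¹ (dev (γ • x) + W (γ • x)) := by
    simp only [h4, smul_add, Finset.sum_add_distrib, ← Finset.sum_smul, hs, one_smul]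
  have h6 : ∑ γ ∈ F, ρ (γ • x) • hol γ⁻¹ (dev (γ • x) + W (γ • x)) =
      ∑ γ ∈ F.filter (fun γ => ρ (γ • x) ≠ 0),
        ρ (γ • x) • hol γ⁻¹ (dev (γ • x) + W (γ • x)) := by
    rw [Finset.sum_filter]
    refine Finset.sum_congr rfl fun γ _ => ?_
    by_cases h : ρ (γ • x) = 0
    · rw [if_neg (not_not.2 h), h, zero_smul]
    · rw [if_pos h]
  have h7 : ∑ γ ∈ F.filter (fun γ => ρ (γ • x) ≠ 0), ρ (γ • x) = 1 := by
    rw [← hs, Finset.sum_filter]
    refine Finset.sum_congr rfl fun γ _ => ?_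
    by_cases h : ρ (γ • x) = 0
    · rw [if_neg (not_not.2 h), h]
    · rw [if_pos h]
  have h8 : ∑ γ ∈ F.filter (fun γ => ρ (γ • x) ≠ 0),
      ρ (γ • x) • hol γ⁻¹ (dev (γ • x) + W (γ • x)) ∈ Φ x := by
    refine (hc x).sum_mem (fun γ _ => hρ.nonneg _) h7 fun γ hγ => ?_
    have h9 := hi γ⁻¹ _ _ (hWm (γ • x) (Finset.mem_filter.1 hγ).2)
    rwa [inv_smul_smul] at h9
  rw [← h6, ← h5, ← h3, hx, add_zero] at h8
  exact hf x h8

/-- the holonomy transformations as homeomorphisms -/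
noncomputable def hm (hol : Γ →* (E ≃ᵃ[ℝ] E)) (γ : Γ) : E ≃ₜ E :=
  (hol γ).toHomeomorphOfFiniteDimensional

omit [TopologicalSpace X] [T2Space X] [MulAction Γ X] in
theorem hm_apply (γ : Γ) (p : E) : hm hol γ p = hol γ p := rfl

/-- Invariant chains of convex sets are trivial. -/
theorem chain_full (D : AffMfd X Γ E dev hol)
    (hirr : ∀ (S : Set E) (p : E), p ∈ S → StarConvex ℝ p S →
      (∀ (γ : Γ), ∀ q ∈ S, hol γ q ∈ S) → S = univ)
    (hno : ¬ ∃ Z : X → E, Continuous Z ∧ (∀ (γ : Γ) x, Z (γ • x) = lin hol γ (Z x)) ∧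
      ∀ x, Z x ≠ 0) {𝒞 : Set (Set E)} (hconv : ∀ C ∈ 𝒞, Convex ℝ C)
    (hch : IsChain (· ⊆ ·) 𝒞) (hinv : ∀ (γ : Γ), ∀ C ∈ 𝒞, hol γ '' C ∈ 𝒞) :
    ∀ C ∈ 𝒞, C = ∅ ∨ C = univ := by
  classical
  have htot : ∀ C ∈ 𝒞, ∀ C' ∈ 𝒞, C ⊆ C' ∨ C' ⊆ C := fun C hC C' hC' => hch.total hC hC'
  -- every nonempty member has interior points
  have hspan : ∀ C ∈ 𝒞, C.Nonempty → affineSpan ℝ C = ⊤ := by
    intro C₁ hC₁ hC₁n
    let P : ℕ → Prop := fun n => ∃ C ∈ 𝒞, C.Nonempty ∧
      Module.finrank ℝ (affineSpan ℝ C).direction = n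
    have hP : ∃ n, P n := ⟨_, C₁, hC₁, hC₁n, rfl⟩
    obtain ⟨C, hC, hCn, hCd⟩ := Nat.find_spec hP
    have hmin : ∀ C' ∈ 𝒞, C'.Nonempty → Module.finrank ℝ (affineSpan ℝ C).direction ≤
        Module.finrank ℝ (affineSpan ℝ C').direction := by
      intro C' hC' hCn'
      rw [hCd]
      exact Nat.find_min' hP ⟨C', hC', hCn', rfl⟩
    have hmap : ∀ γ : Γ, (affineSpan ℝ C).map (hol γ : E →ᵃ[ℝ] E) = affineSpan ℝ C := by
      intro γ
      have h1 : (affineSpan ℝ C).map (hol γ : E →ᵃ[ℝ] E) = affineSpan ℝ (hol γ '' C) :=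
        AffineSubspace.map_span _ _
      have h2 : Module.finrank ℝ (affineSpan ℝ (hol γ '' C)).direction =
          Module.finrank ℝ (affineSpan ℝ C).direction := by
        rw [← h1, AffineSubspace.map_direction]
        exact LinearEquiv.finrank_map_eq (hol γ).linear _
      rw [h1]
      rcases htot C hC _ (hinv γ C hC) with h | h
      · have h3 := affineSpan_mono ℝ h
        have h4 := AffineSubspace.direction_le h3
        have h5 := Submodule.eq_of_le_of_finrank_eq h4 h2.symm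
        obtain ⟨c, hc⟩ := hCn
        exact (AffineSubspace.ext_of_direction_eq h5
          ⟨c, subset_affineSpan ℝ _ hc, h3 (subset_affineSpan ℝ _ hc)⟩).symm
      · have h3 := affineSpan_mono ℝ h
        have h4 := AffineSubspace.direction_le h3
        have h5 := Submodule.eq_of_le_of_finrank_eq h4 h2
        obtain ⟨c, hc⟩ := hCn.image (hol γ)
        exact AffineSubspace.ext_of_direction_eq h5
          ⟨c, subset_affineSpan ℝ _ hc, h3 (subset_affineSpan ℝ _ hc)⟩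
    obtain ⟨c, hc⟩ := hCn
    have htop := hirr (affineSpan ℝ C : Set E) c (subset_affineSpan ℝ _ hc)
      ((affineSpan ℝ C).convex.starConvex (subset_affineSpan ℝ _ hc)) (by
        intro γ q hq
        have h1 : hol γ q ∈ (affineSpan ℝ C).map (hol γ : E →ᵃ[ℝ] E) := ⟨q, hq, rfl⟩
        rw [hmap] at h1
        exact h1)
    have htop' : affineSpan ℝ C = ⊤ := by
      apply SetLike.coe_injective
      rw [htop, AffineSubspace.top_coe]
    have h1 := hmin C₁ hC₁ hC₁n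
    rw [htop', AffineSubspace.direction_top, finrank_top] at h1
    have h2 : (affineSpan ℝ C₁).direction = ⊤ :=
      Submodule.eq_top_of_finrank_eq (le_antisymm (Submodule.finrank_le _) h1)
    exact (AffineSubspace.direction_eq_top_iff_of_nonempty
      (hC₁n.mono (subset_affineSpan ℝ _))).1 h2
  have hint : ∀ C ∈ 𝒞, C.Nonempty → (interior C).Nonempty := fun C hC hCn =>
    (hconv C hC).interior_nonempty_iff_affineSpan_eq_top.2 (hspan C hC hCn)
  intro C₀ hC₀
  by_contra hcon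
  rw [not_or] at hcon
  obtain ⟨hne, hnu⟩ := hcon
  have himg : ∀ γ : Γ, ∀ C : Set E, hol γ '' C = hm hol γ '' C := fun γ C => rfl
  refine hno (field_of_map D (Φ := fun x => {y | ∃ C ∈ 𝒞, y ∈ interior C ∧ dev x ∉ closure C})
    ?_ ?_ ?_ ?_ ?_)
  · intro x
    by_contra hx
    rw [not_nonempty_iff_eq_empty] at hx
    have hall : ∀ C ∈ 𝒞, C.Nonempty → dev x ∈ closure C := by
      intro C hC hCn
      by_contra h
      obtain ⟨y, hy⟩ := hint C hC hCn
      have : y ∈ {y | ∃ C ∈ 𝒞, y ∈ interior C ∧ dev x ∉ closure C} := ⟨C, hC, hy, h⟩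
      rw [hx] at this
      exact this
    let S : Set E := {q | ∀ C ∈ 𝒞, C.Nonempty → q ∈ closure C}
    have hSc : Convex ℝ S := by
      intro p hp q hq a b ha hb hab C hC hCn
      exact (hconv C hC).closure (hp C hC hCn) (hq C hC hCn) ha hb hab
    have hS := hirr S (dev x) hall (hSc.starConvex hall) (by
      intro γ q hq C hC hCn
      have h1 := hq _ (hinv γ⁻¹ C hC) (hCn.image _)
      rw [himg, ← (hm hol γ⁻¹).image_closure] at h1
      obtain ⟨c, hc, rfl⟩ := h1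
      rw [hm_apply, hol_apply_inv]
      exact hc)
    have h1 : closure C₀ = univ := by
      refine eq_univ_of_forall fun q => ?_
      have hq : q ∈ S := by rw [hS]; trivial
      exact hq C₀ hC₀ (nonempty_iff_ne_empty.2 hne)
    exact hnu (convex_dense (hconv C₀ hC₀) h1)
  · rintro x p ⟨C, hC, hp, hxC⟩ q ⟨C', hC', hq, hxC'⟩ a b ha hb hab
    rcases htot C hC C' hC' with h | h
    · exact ⟨C', hC', (hconv C' hC').interior (interior_mono h hp) hq ha hb hab, hxC'⟩
    · exact ⟨C, hC, (hconv C hC).interior hp (interior_mono h hq) ha hb hab, hxC⟩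
  · rintro γ x p ⟨C, hC, hp, hxC⟩
    refine ⟨hol γ '' C, hinv γ C hC, ?_, ?_⟩
    · rw [himg, ← (hm hol γ).image_interior]
      exact ⟨p, hp, rfl⟩
    · rw [himg, ← (hm hol γ).image_closure, D.equi]
      rintro ⟨c, hc, hcx⟩
      have : c = dev x := (hol γ).injective hcx
      exact hxC (this ▸ hc)
  · rintro x p ⟨C, hC, hp, hxC⟩
    have h1 : ∀ᶠ x' in 𝓝 x, dev x' ∈ (closure C)ᶜ :=
      D.loc.continuous.continuousAt.eventually_mem (isClosed_closure.isOpen_compl.mem_nhds hxC)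
    filter_upwards [h1] with x' hx'
    exact ⟨C, hC, hp, hx'⟩
  · rintro x ⟨C, hC, hp, hxC⟩
    exact hxC (interior_subset_closure hp)

end Pool.Agent.R772.CC
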