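import Pool.Agent.R772.CC1

/-!
# Invariant convex sets of convex functions
-/

set_option autoImplicit false

open Set Filter Topology Metric

namespace Pool.Agent.R772.CC

open Pool.Agent.W689.Ch Pool.Agent.TH845.Mk Pool.Agent.Y150.Ch
open Pool.Agent.W689.Mk (lin hol_add hol_sub hol_inv_apply hol_apply_inv lin_inv_apply lin_mul
  lin_smul hol_cont)

section
variable {X Γ E : Type} [TopologicalSpace X] [T2Space X] [Group Γ] [MulAction Γ X]
  [NormedAddCommGroup E] [NormedSpace ℝ E] [FiniteDimensional ℝ E]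
  {dev : X → E} {hol : Γ →* (E ≃ᵃ[ℝ] E)}

/-- An invariant convex set of convex functions contains a function which attains its minimum on
the developing image, or there is a field. -/
theorem fun_full (D : AffMfd X Γ E dev hol)
    (hno : ¬ ∃ Z : X → E, Continuous Z ∧ (∀ (γ : Γ) x, Z (γ • x) = lin hol γ (Z x)) ∧
      ∀ x, Z x ≠ 0) {𝓕 : Set (E → ℝ)} (hne : 𝓕.Nonempty) (hcv : Convex ℝ 𝓕)
    (hf : ∀ F ∈ 𝓕, ConvexOn ℝ univ F) (hinv : ∀ (γ : Γ), ∀ F ∈ 𝓕, (fun p => F (hol γ p)) ∈ 𝓕) :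
    ∃ F ∈ 𝓕, ∃ x, ∀ p, F (dev x) ≤ F p := by
  by_contra hcon
  push Not at hcon
  obtain ⟨F₀, hF₀⟩ := hne
  obtain ⟨ρ, hρ⟩ := exists_wt D
  have hF₀c : Continuous F₀ := by
    rw [← continuousOn_univ]
    exact (hf F₀ hF₀).continuousOn isOpen_univ
  let Ψ : X → E → ℝ := fun x p => av ρ (fun γ : Γ => F₀ (hol γ p)) x
  have hΨ : ∀ x, Ψ x ∈ 𝓕 := by
    intro x
    obtain ⟨V, hV, F, hF⟩ := hρ.locfin x
    have hxV := mem_of_mem_nhds hV
    have hs : ∑ γ ∈ F, ρ (γ • x) = 1 := by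
      rw [← hρ.sum x]
      exact (tsum_eq_sum fun γ hγ => hF γ hγ x hxV).symm
    have e1 : Ψ x = ∑ γ ∈ F, ρ (γ • x) • (fun p => F₀ (hol γ p)) := by
      funext p
      rw [Finset.sum_apply]
      exact tsum_eq_sum fun γ hγ => by rw [hF γ hγ x hxV, zero_smul]
    rw [e1]
    exact hcv.sum_mem (fun γ _ => hρ.nonneg _) hs fun γ _ => hinv γ F₀ hF₀
  have hΨs : ∀ (δ : Γ) x p, Ψ (δ • x) (hol δ p) = Ψ x p := by
    intro δ x p
    show av ρ (fun γ : Γ => F₀ (hol γ (hol δ p))) (δ • x) = av ρ (fun γ : Γ => F₀ (hol γ p)) x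
    rw [av_shift]
    congr 1
    funext γ
    congr 1
    show hol (γ * δ⁻¹) (hol δ p) = hol γ p
    rw [map_mul]
    show hol γ (hol δ⁻¹ (hol δ p)) = hol γ p
    rw [hol_inv_apply]
  have hc1 : ∀ p, Continuous fun x => Ψ x p := fun p => av_cont D hρ _
  have hc2 : Continuous fun x => Ψ x (dev x) := by
    have h1 : (fun x => Ψ x (dev x)) = fun x => ∑' γ : Γ, ρ (γ • x) • F₀ (dev (γ • x)) := by
      funext x
      refine tsum_congr fun γ => ?_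
      rw [D.equi]
    rw [h1]
    refine cont_tsum (fun γ => (hρ.cont.comp (D.cont γ)).smul
      (hF₀c.comp (D.loc.continuous.comp (D.cont γ)))) fun x => ?_
    obtain ⟨U, hU, F, hF⟩ := hρ.locfin x
    exact ⟨U, hU, F, fun γ hγ y hy => by rw [hF γ hγ y hy, zero_smul]⟩
  refine hno (field_of_map D (Φ := fun x => {p | Ψ x p < Ψ x (dev x)}) ?_ ?_ ?_ ?_ ?_)
  · exact fun x => hcon _ (hΨ x) x
  · intro x
    have h1 := (hf _ (hΨ x)).convex_lt (Ψ x (dev x))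
    have h2 : {p | p ∈ univ ∧ Ψ x p < Ψ x (dev x)} = {p | Ψ x p < Ψ x (dev x)} := by
      ext p
      simp
    rw [h2] at h1
    exact h1
  · intro γ x p hp
    show Ψ (γ • x) (hol γ p) < Ψ (γ • x) (dev (γ • x))
    rw [D.equi, hΨs, hΨs]
    exact hp
  · intro x p hp
    exact (hc1 p).continuousAt.eventually_lt hc2.continuousAt hp
  · intro x hx
    exact lt_irrefl _ (show Ψ x (dev x) < Ψ x (dev x) from hx)

end

section
variable {X Γ E : Type} [TopologicalSpace X] [T2Space X] [Group Γ] [MulAction Γ X]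
  [NormedAddCommGroup E] [NormedSpace ℝ E] [FiniteDimensional ℝ E]
  {dev : X → E} {hol : Γ →* (E ≃ᵃ[ℝ] E)} {G : Subgroup Γ} {H : AffineSubspace ℝ E} {x₀ : X}

omit [FiniteDimensional ℝ E] in
theorem conv_pull {S : Set E} (hS : Convex ℝ S) (p₀ : E) (V : Submodule ℝ E) :
    Convex ℝ {v : V | p₀ + v.1 ∈ S} := by
  intro v hv w hw a b ha hb hab
  have h1 := hS hv hw ha hb hab
  have h2 : a • (p₀ + v.1) + b • (p₀ + w.1) = p₀ + (a • v + b • w : V).1 := by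
    have h3 : a = 1 - b := by linarith
    show a • (p₀ + v.1) + b • (p₀ + w.1) = p₀ + (a • v.1 + b • w.1)
    rw [h3]
    module
  rw [h2] at h1
  exact h1

/-- equivariant maps on the core have fixed points -/
theorem map_core (D : AffMfd X Γ E dev hol) (m : Min dev hol G H x₀) {K : Subgroup Γ}
    (hKG : K ≤ G) (hK : K.FiniteIndex) {Φ : X → Set E}
    (hne : ∀ x, dev x ∈ H → (Φ x).Nonempty) (hc : ∀ x, dev x ∈ H → Convex ℝ (Φ x))
    (hH : ∀ x, dev x ∈ H → Φ x ⊆ H)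
    (hi : ∀ γ ∈ K, ∀ x, dev x ∈ H → ∀ y ∈ Φ x, hol γ y ∈ Φ (γ • x))
    (ho : ∀ x, dev x ∈ H → ∀ y ∈ Φ x, ∀ᶠ x' in 𝓝 x, dev x' ∈ H → y ∈ Φ x') :
    ∃ x, dev x ∈ H ∧ dev x ∈ Φ x := by
  by_contra hcon
  push Not at hcon
  have hinvH : ∀ (γ : K), ∀ q ∈ H, (hol.comp K.subtype) γ q ∈ H :=
    fun γ q hq => m.inv γ.1 (hKG γ.2) q hq
  refine m.fld K hKG hK (fld_of_sub (restr D K hK) m.mem hinvH ?_)
  let _ := subAct (restr D K hK) hinvH
  have D' := subMfd (restr D K hK) m.mem hinvH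
  refine field_of_map D' (Φ := fun x => {v : H.direction | dev x₀ + v.1 ∈ Φ x.1}) ?_ ?_ ?_ ?_ ?_
  · rintro ⟨x, hx⟩
    obtain ⟨y, hy⟩ := hne x hx
    refine ⟨⟨y - dev x₀, sub_mem_dir m.mem (hH x hx hy)⟩, ?_⟩
    show dev x₀ + (y - dev x₀) ∈ Φ x
    rwa [add_sub_cancel]
  · rintro ⟨x, hx⟩
    exact conv_pull (hc x hx) _ _
  · rintro γ ⟨x, hx⟩ v hv
    show dev x₀ + (hol γ.1 (dev x₀ + v.1) - dev x₀) ∈ Φ (γ.1 • x)
    rw [add_sub_cancel]
    exact hi γ.1 γ.2 x hx _ hv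
  · rintro ⟨x, hx⟩ v hv
    have h1 := ho x hx _ hv
    have h2 : Tendsto (Subtype.val : {x : X // dev x ∈ H} → X) (𝓝 ⟨x, hx⟩) (𝓝 x) :=
      continuous_subtype_val.continuousAt
    filter_upwards [h2.eventually h1] with x' hx'
    exact hx' x'.2
  · rintro ⟨x, hx⟩ hv
    have h1 : dev x₀ + (dev x - dev x₀) ∈ Φ x := hv
    rw [add_sub_cancel] at h1
    exact hcon x hx h1

/-- invariant chains of convex subsets of the core are trivial -/
theorem chain_core (D : AffMfd X Γ E dev hol) (m : Min dev hol G H x₀) {K : Subgroup Γ}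
    (hKG : K ≤ G) (hK : K.FiniteIndex) {𝒞 : Set (Set E)} (hconv : ∀ C ∈ 𝒞, Convex ℝ C)
    (hCH : ∀ C ∈ 𝒞, C ⊆ H) (hch : IsChain (· ⊆ ·) 𝒞) (hinv : ∀ γ ∈ K, ∀ C ∈ 𝒞, hol γ '' C ∈ 𝒞) :
    ∀ C ∈ 𝒞, C = ∅ ∨ C = H := by
  have hinvH : ∀ (γ : K), ∀ q ∈ H, (hol.comp K.subtype) γ q ∈ H :=
    fun γ q hq => m.inv γ.1 (hKG γ.2) q hq
  let _ := subAct (restr D K hK) hinvH
  have D' := subMfd (restr D K hK) m.mem hinvH
  have hx := m.mem
  have key := chain_full D' (𝒞 := {S | ∃ C ∈ 𝒞, S = {v : H.direction | dev x₀ + v.1 ∈ C}})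
    ?_ ?_ ?_ ?_ ?_
  · intro C hC
    rcases key _ ⟨C, hC, rfl⟩ with h | h
    · left
      rw [eq_empty_iff_forall_notMem]
      intro q hq
      have h1 : (⟨q - dev x₀, sub_mem_dir hx (hCH C hC hq)⟩ : H.direction) ∈
          {v : H.direction | dev x₀ + v.1 ∈ C} := by
        show dev x₀ + (q - dev x₀) ∈ C
        rwa [add_sub_cancel]
      rw [h] at h1
      exact h1
    · right
      refine Subset.antisymm (hCH C hC) fun q hq => ?_
      have h1 : (⟨q - dev x₀, sub_mem_dir hx hq⟩ : H.direction) ∈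
          {v : H.direction | dev x₀ + v.1 ∈ C} := by rw [h]; trivial
      have h2 : dev x₀ + (q - dev x₀) ∈ C := h1
      rwa [add_sub_cancel] at h2
  · intro S p hp hs hSi
    -- star-shaped sets
    have h0 := m.star K hKG hK ((fun v : H.direction => dev x₀ + v.1) '' S) (dev x₀ + p.1)
      ⟨p, hp, rfl⟩ ?_ ?_ ?_
    · refine eq_univ_of_forall fun v => ?_
      have h1 : dev x₀ + v.1 ∈ (fun v : H.direction => dev x₀ + v.1) '' S := by
        rw [h0]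
        exact add_mem_H hx v
      obtain ⟨w, hw, hwv⟩ := h1
      have h2 : w = v := Subtype.ext (add_left_cancel hwv)
      exact h2 ▸ hw
    · rintro _ ⟨v, -, rfl⟩
      exact add_mem_H hx v
    · rintro _ ⟨v, hv, rfl⟩ a b ha hb hab
      refine ⟨a • p + b • v, hs hv ha hb hab, ?_⟩
      have h3 : a = 1 - b := by linarith
      show dev x₀ + (a • p.1 + b • v.1) = a • (dev x₀ + p.1) + b • (dev x₀ + v.1)
      rw [h3]
      module
    · rintro γ hγ _ ⟨v, hv, rfl⟩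
      refine ⟨_, hSi ⟨γ, hγ⟩ v hv, ?_⟩
      show dev x₀ + (hol γ (dev x₀ + v.1) - dev x₀) = hol γ (dev x₀ + v.1)
      rw [add_sub_cancel]
  · exact fun h => m.fld K hKG hK (fld_of_sub (restr D K hK) m.mem hinvH h)
  · rintro _ ⟨C, hC, rfl⟩
    exact conv_pull (hconv C hC) _ _
  · rintro _ ⟨C, hC, rfl⟩ _ ⟨C', hC', rfl⟩ -
    rcases hch.total hC hC' with h | h
    · exact Or.inl fun v hv => h hv
    · exact Or.inr fun v hv => h hv
  · rintro γ _ ⟨C, hC, rfl⟩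
    refine ⟨hol γ.1 '' C, hinv γ.1 γ.2 C hC, ?_⟩
    ext v
    constructor
    · rintro ⟨w, hw, rfl⟩
      refine ⟨dev x₀ + w.1, hw, ?_⟩
      show hol γ.1 (dev x₀ + w.1) = dev x₀ + (hol γ.1 (dev x₀ + w.1) - dev x₀)
      rw [add_sub_cancel]
    · rintro ⟨q, hq, hqv⟩
      refine ⟨⟨q - dev x₀, sub_mem_dir hx (hCH C hC hq)⟩, ?_, ?_⟩
      · show dev x₀ + (q - dev x₀) ∈ C
        rwa [add_sub_cancel]
      · apply Subtype.ext
        show hol γ.1 (dev x₀ + (q - dev x₀)) - dev x₀ = v.1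
        rw [add_sub_cancel, hqv, add_sub_cancel_left]

/-- invariant convex sets of convex functions on the core -/
theorem fun_core (D : AffMfd X Γ E dev hol) (m : Min dev hol G H x₀) {K : Subgroup Γ}
    (hKG : K ≤ G) (hK : K.FiniteIndex) {𝓕 : Set (E → ℝ)} (hne : 𝓕.Nonempty) (hcv : Convex ℝ 𝓕)
    (hf : ∀ F ∈ 𝓕, ConvexOn ℝ (H : Set E) F)
    (hinv : ∀ γ ∈ K, ∀ F ∈ 𝓕, ∃ F' ∈ 𝓕, ∀ p ∈ H, F' p = F (hol γ p)) :
    ∃ F ∈ 𝓕, ∃ x, dev x ∈ H ∧ ∀ p ∈ H, F (dev x) ≤ F p := by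
  have hinvH : ∀ (γ : K), ∀ q ∈ H, (hol.comp K.subtype) γ q ∈ H :=
    fun γ q hq => m.inv γ.1 (hKG γ.2) q hq
  let _ := subAct (restr D K hK) hinvH
  have D' := subMfd (restr D K hK) m.mem hinvH
  have hx := m.mem
  have key := fun_full D'
    (𝓕 := (fun F : E → ℝ => fun v : H.direction => F (dev x₀ + v.1)) '' 𝓕) ?_ ?_ ?_ ?_ ?_
  · obtain ⟨_, ⟨F, hF, rfl⟩, ⟨x, hxH⟩, h⟩ := key
    refine ⟨F, hF, x, hxH, fun p hp => ?_⟩
    have h1 := h ⟨p - dev x₀, sub_mem_dir hx hp⟩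
    have h2 : F (dev x₀ + (dev x - dev x₀)) ≤ F (dev x₀ + (p - dev x₀)) := h1
    rwa [add_sub_cancel, add_sub_cancel] at h2
  · exact fun h => m.fld K hKG hK (fld_of_sub (restr D K hK) m.mem hinvH h)
  · exact hne.image _
  · rintro _ ⟨F, hF, rfl⟩ _ ⟨F', hF', rfl⟩ a b ha hb hab
    exact ⟨a • F + b • F', hcv hF hF' ha hb hab, rfl⟩
  · rintro _ ⟨F, hF, rfl⟩
    refine ⟨convex_univ, fun v _ w _ a b ha hb hab => ?_⟩
    have h1 := (hf F hF).2 (add_mem_H hx v) (add_mem_H hx w) ha hb hab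
    have h2 : a • (dev x₀ + v.1) + b • (dev x₀ + w.1) = dev x₀ + (a • v.1 + b • w.1) := by
      have h3 : a = 1 - b := by linarith
      rw [h3]
      module
    rw [h2] at h1
    exact h1
  · rintro γ _ ⟨F, hF, rfl⟩
    obtain ⟨F', hF', h1⟩ := hinv γ.1 γ.2 F hF
    refine ⟨F', hF', ?_⟩
    funext v
    show F' (dev x₀ + v.1) = F (dev x₀ + (hol γ.1 (dev x₀ + v.1) - dev x₀))
    rw [add_sub_cancel, h1 _ (add_mem_H hx v)]

/-- quasi-convex functions on the core whose order of values is invariant are constant -/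
theorem quasi_core {L : Type} [LinearOrder L] (D : AffMfd X Γ E dev hol)
    (m : Min dev hol G H x₀) {K : Subgroup Γ}
    (hKG : K ≤ G) (hK : K.FiniteIndex) {F : E → L}
    (hq : ∀ p ∈ H, Convex ℝ {q | q ∈ H ∧ F q ≤ F p})
    (hinv : ∀ γ ∈ K, ∀ p ∈ H, ∀ q ∈ H, F p ≤ F q → F (hol γ p) ≤ F (hol γ q)) :
    ∀ p ∈ H, ∀ q ∈ H, F p = F q := by
  have hle : ∀ p ∈ H, ∀ q ∈ H, F q ≤ F p := by
    intro p hp q hqH
    have h1 := chain_core D m hKG hK (𝒞 := {C | ∃ p ∈ H, C = {q | q ∈ H ∧ F q ≤ F p}})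
      (by rintro _ ⟨p, hp, rfl⟩; exact hq p hp) (by rintro _ ⟨p, hp, rfl⟩ q hq; exact hq.1)
      (by
        rintro _ ⟨p, hp, rfl⟩ _ ⟨p', hp', rfl⟩ -
        rcases le_total (F p) (F p') with h | h
        · exact Or.inl fun q hq => ⟨hq.1, hq.2.trans h⟩
        · exact Or.inr fun q hq => ⟨hq.1, hq.2.trans h⟩)
      (by
        rintro γ hγ _ ⟨p, hp, rfl⟩
        refine ⟨hol γ p, m.inv γ (hKG hγ) p hp, ?_⟩
        ext q
        constructor
        · rintro ⟨r, ⟨hr, hrp⟩, rfl⟩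
          exact ⟨m.inv γ (hKG hγ) r hr, hinv γ hγ r hr p hp hrp⟩
        · rintro ⟨hqH, hqp⟩
          have hq' := m.inv γ⁻¹ (G.inv_mem (hKG hγ)) q hqH
          refine ⟨hol γ⁻¹ q, ⟨hq', ?_⟩, hol_apply_inv γ q⟩
          have h2 := hinv γ⁻¹ (K.inv_mem hγ) q hqH _ (m.inv γ (hKG hγ) p hp) hqp
          rwa [hol_inv_apply] at h2)
      _ ⟨p, hp, rfl⟩
    rcases h1 with h | h
    · have h2 : p ∈ {q | q ∈ H ∧ F q ≤ F p} := ⟨hp, le_rfl⟩
      rw [h] at h2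
      exact absurd h2 (notMem_empty p)
    · have h2 : q ∈ {q | q ∈ H ∧ F q ≤ F p} := by rw [h]; exact hqH
      exact h2.2
  exact fun p hp q hqH => le_antisymm (hle q hqH p hp) (hle p hp q hqH)

end

end Pool.Agent.R772.CC
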