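import Pool.Agent.R772.CC2

/-!
# Indexed families of vectors, families of covectors
-/

set_option autoImplicit false

open Set Filter Topology Metric

namespace Pool.Agent.R772.CC

open Pool.Agent.W689.Ch Pool.Agent.TH845.Mk Pool.Agent.Y150.Ch
open Pool.Agent.W689.Mk (lin hol_add hol_sub hol_inv_apply hol_apply_inv lin_inv_apply lin_mul
  lin_smul hol_cont)
open Pool.Agent.TH289.N (avg cl cl_apply cl_mul field_of_covector field_of_sets)

section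
variable {X Γ E : Type} [TopologicalSpace X] [T2Space X] [Group Γ] [MulAction Γ X]
  [NormedAddCommGroup E] [NormedSpace ℝ E] [FiniteDimensional ℝ E]
  {dev : X → E} {hol : Γ →* (E ≃ᵃ[ℝ] E)}

/-- **Critical points.** The vectors `τ i x` for which `f i x` is minimal surround the origin at
some point, or there is a field. -/
theorem field_of_indexed (D : AffMfd X Γ E dev hol) {I : Type} [MulAction Γ I] [Nonempty I]
    {τ : I → X → E} (hτ : ∀ i, Continuous (τ i))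
    (hτe : ∀ (γ : Γ) i x, τ (γ • i) (γ • x) = lin hol γ (τ i x))
    {f : I → X → ℝ} (hf : ∀ i, Continuous (f i))
    (hfe : ∀ (γ : Γ) i x, f (γ • i) (γ • x) = f i x)
    (hfp : ∀ x r, ∃ U ∈ 𝓝 x, {i | ∃ y ∈ U, f i y ≤ r}.Finite)
    (h0 : ∀ x, (0 : E) ∉ convexHull ℝ {v | ∃ i, (∀ j, f i x ≤ f j x) ∧ τ i x = v}) :
    ∃ Z : X → E, Continuous Z ∧ (∀ (γ : Γ) x, Z (γ • x) = lin hol γ (Z x)) ∧ ∀ x, Z x ≠ 0 := by
  have hmin : ∀ x, ∃ i, ∀ j, f i x ≤ f j x := by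
    intro x
    obtain ⟨i₀⟩ := ‹Nonempty I›
    obtain ⟨U, hU, hfin⟩ := hfp x (f i₀ x)
    have hxU := mem_of_mem_nhds hU
    obtain ⟨i, hi, him⟩ := hfin.exists_minimalFor (fun i => f i x) _ ⟨i₀, x, hxU, le_rfl⟩
    refine ⟨i, fun j => ?_⟩
    by_contra hcon
    push Not at hcon
    by_cases hj : f j x ≤ f i₀ x
    · exact absurd (him ⟨x, hxU, hj⟩ hcon.le) (not_le.2 hcon)
    · push Not at hj
      have h1 : f i₀ x < f i x := hj.trans hcon
      have h2 : f i x ≤ f i₀ x := him ⟨x, hxU, le_rfl⟩ h1.le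
      exact absurd h2 (not_le.2 h1)
  refine field_of_sets D (M := fun x => {v | ∃ i, (∀ j, f i x ≤ f j x) ∧ τ i x = v}) ?_ ?_ ?_
  · intro x
    obtain ⟨i, hi⟩ := hmin x
    exact ⟨τ i x, i, hi, rfl⟩
  · rintro γ x _ ⟨i, hi, rfl⟩
    refine ⟨γ • i, fun j => ?_, hτe γ i x⟩
    have h1 := hi (γ⁻¹ • j)
    have h2 := hfe γ (γ⁻¹ • j) x
    rw [smul_inv_smul] at h2
    rw [hfe, h2]
    exact h1
  · intro x
    obtain ⟨i₀, hi₀⟩ := hmin x
    obtain ⟨U, hU, hfin⟩ := hfp x (f i₀ x + 1)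
    set T : Set I := {i | (∃ y ∈ U, f i y ≤ f i₀ x + 1) ∧ ∀ j, f i x ≤ f j x} with hT
    have hTf : T.Finite := hfin.subset fun i hi => hi.1
    have hxU := mem_of_mem_nhds hU
    have hcp : IsCompact (convexHull ℝ ((fun i => τ i x) '' T)) :=
      (hTf.image _).isCompact_convexHull ℝ
    have hcl := hcp.isClosed
    have h0' : (0 : E) ∉ convexHull ℝ ((fun i => τ i x) '' T) := fun h => h0 x
      (convexHull_mono (by
        rintro _ ⟨i, hi, rfl⟩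
        exact ⟨i, hi.2, rfl⟩) h)
    obtain ⟨φ, u, hu0, hu⟩ := geometric_hahn_banach_point_closed (convex_convexHull ℝ _) hcl h0'
    rw [map_zero] at hu0
    have hpos : ∀ i ∈ T, 0 < φ (τ i x) := fun i hi =>
      hu0.trans (hu _ (subset_convexHull ℝ _ ⟨i, hi, rfl⟩))
    refine ⟨φ, ?_⟩
    have e1 : ∀ᶠ y in 𝓝 x, f i₀ y < f i₀ x + 1 :=
      (hf i₀).continuousAt.eventually_lt continuousAt_const (by
        show f i₀ x < f i₀ x + 1
        linarith)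
    have e2 : ∀ᶠ y in 𝓝 x, ∀ i ∈ {i | ∃ y ∈ U, f i y ≤ f i₀ x + 1}, f i₀ x < f i x →
        f i₀ y < f i y := by
      refine (Filter.eventually_all_finite hfin).2 fun i _ => ?_
      by_cases h : f i₀ x < f i x
      · filter_upwards [(hf i₀).continuousAt.eventually_lt (hf i).continuousAt h] with y hy _
        exact hy
      · exact Filter.Eventually.of_forall fun y h' => absurd h' h
    have e3 : ∀ᶠ y in 𝓝 x, ∀ i ∈ T, 0 < φ (τ i y) := by
      refine (Filter.eventually_all_finite hTf).2 fun i hi => ?_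
      exact (continuousAt_const).eventually_lt
        (φ.continuous.comp (hτ i)).continuousAt (hpos i hi)
    filter_upwards [e1, e2, e3, hU] with y h1 h2 h3 hyU
    rintro _ ⟨i, hi, rfl⟩
    have hiU : ∃ y ∈ U, f i y ≤ f i₀ x + 1 := ⟨y, hyU, (hi i₀).trans h1.le⟩
    refine h3 i ⟨hiU, fun j => ?_⟩
    by_contra hcon
    push Not at hcon
    have h4 : f i₀ x < f i x := (hi₀ j).trans_lt hcon
    exact absurd (hi i₀) (not_le.2 (h2 i hiU h4))

/-- Invariant convex sets of vector fields on the cover contain a field with a zero. -/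
theorem vec_full (D : AffMfd X Γ E dev hol)
    (hno : ¬ ∃ Z : X → E, Continuous Z ∧ (∀ (γ : Γ) x, Z (γ • x) = lin hol γ (Z x)) ∧
      ∀ x, Z x ≠ 0) {𝒱 : Set (X → E)} (hne : 𝒱.Nonempty) (hcv : Convex ℝ 𝒱)
    (hc : ∀ Y ∈ 𝒱, Continuous Y)
    (hinv : ∀ (γ : Γ), ∀ Y ∈ 𝒱, (fun x => lin hol γ⁻¹ (Y (γ • x))) ∈ 𝒱) :
    ∃ Y ∈ 𝒱, ∃ x, Y x = 0 := by
  obtain ⟨Y₀, hY₀⟩ := hne
  obtain ⟨ρ, hρ⟩ := exists_wt D
  obtain ⟨h1, h2⟩ := avg D hρ (hc Y₀ hY₀)
  by_contra hcon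
  push Not at hcon
  refine hno ⟨_, h1, h2, fun x => ?_⟩
  obtain ⟨V, hV, F, hF⟩ := hρ.locfin x
  have hxV := mem_of_mem_nhds hV
  have hs : ∑ γ ∈ F, ρ (γ • x) = 1 := by
    rw [← hρ.sum x]
    exact (tsum_eq_sum fun γ hγ => hF γ hγ x hxV).symm
  have e1 : ∑' γ : Γ, ρ (γ • x) • lin hol γ⁻¹ (Y₀ (γ • x)) =
      (∑ γ ∈ F, ρ (γ • x) • (fun x => lin hol γ⁻¹ (Y₀ (γ • x)))) x := by
    rw [Finset.sum_apply]
    exact tsum_eq_sum fun γ hγ => by rw [hF γ hγ x hxV, zero_smul]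
  rw [e1]
  exact hcon _ (hcv.sum_mem (fun γ _ => hρ.nonneg _) hs fun γ _ => hinv γ Y₀ hY₀) x

/-- Averages of covector valued functions are equivariant. -/
theorem avgc (D : AffMfd X Γ E dev hol) {ρ : X → ℝ} (hρ : Wt Γ ρ) {W : X → E →L[ℝ] ℝ}
    (hW : Continuous W) :
    (Continuous fun x => ∑' γ : Γ, ρ (γ • x) • (W (γ • x)).comp (cl hol γ)) ∧
    ∀ (δ : Γ) x v, (∑' γ : Γ, ρ (γ • δ • x) • (W (γ • δ • x)).comp (cl hol γ)) (lin hol δ v) =
      (∑' γ : Γ, ρ (γ • x) • (W (γ • x)).comp (cl hol γ)) v := by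
  constructor
  · refine cont_tsum (fun γ => ?_) fun x => ?_
    · exact (hρ.cont.comp (D.cont γ)).smul ((hW.comp (D.cont γ)).clm_comp continuous_const)
    · obtain ⟨U, hU, F, hF⟩ := hρ.locfin x
      exact ⟨U, hU, F, fun γ hγ y hy => by rw [hF γ hγ y hy, zero_smul]⟩
  · intro δ x v
    obtain ⟨U, hU, F, hF⟩ := hρ.locfin (δ • x)
    have hs : Summable fun γ : Γ => ρ (γ • δ • x) • (W (γ • δ • x)).comp (cl hol γ) :=
      summable_of_ne_finset_zero (s := F) fun γ hγ => by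
        rw [hF γ hγ _ (mem_of_mem_nhds hU), zero_smul]
    have e2 : (∑' γ : Γ, ρ (γ • δ • x) • (W (γ • δ • x)).comp (cl hol γ)).comp (cl hol δ) =
        ∑' γ : Γ, (ρ (γ • δ • x) • (W (γ • δ • x)).comp (cl hol γ)).comp (cl hol δ) := by
      let R : (E →L[ℝ] ℝ) →L[ℝ] (E →L[ℝ] ℝ) :=
        (ContinuousLinearMap.compL ℝ E E ℝ).flip (cl hol δ)
      have hR : ∀ ψ : E →L[ℝ] ℝ, ψ.comp (cl hol δ) = R ψ := fun ψ => rfl
      simp only [hR]
      exact R.map_tsum hs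
    have e3 : (∑' γ : Γ, ρ (γ • x) • (W (γ • x)).comp (cl hol γ)) =
        (∑' γ : Γ, ρ (γ • δ • x) • (W (γ • δ • x)).comp (cl hol γ)).comp (cl hol δ) := by
      rw [e2, ← Equiv.tsum_eq (Equiv.mulRight δ)
        (fun γ : Γ => ρ (γ • x) • (W (γ • x)).comp (cl hol γ))]
      refine tsum_congr fun γ => ?_
      show ρ ((γ * δ) • x) • (W ((γ * δ) • x)).comp (cl hol (γ * δ)) = _
      rw [cl_mul, smul_smul, ContinuousLinearMap.smul_comp, ContinuousLinearMap.comp_assoc]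
    rw [e3]
    rfl

/-- Invariant convex sets of one-forms on the cover contain a form with a zero. -/
theorem covec_full (D : AffMfd X Γ E dev hol)
    (hno : ¬ ∃ Z : X → E, Continuous Z ∧ (∀ (γ : Γ) x, Z (γ • x) = lin hol γ (Z x)) ∧
      ∀ x, Z x ≠ 0) {𝒲 : Set (X → E →L[ℝ] ℝ)} (hne : 𝒲.Nonempty) (hcv : Convex ℝ 𝒲)
    (hc : ∀ ω ∈ 𝒲, Continuous ω)
    (hinv : ∀ (γ : Γ), ∀ ω ∈ 𝒲, (fun x => (ω (γ • x)).comp (cl hol γ)) ∈ 𝒲) :
    ∃ ω ∈ 𝒲, ∃ x, ω x = 0 := by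
  obtain ⟨ω₀, hω₀⟩ := hne
  obtain ⟨ρ, hρ⟩ := exists_wt D
  obtain ⟨h1, h2⟩ := avgc D hρ (hc ω₀ hω₀)
  by_contra hcon
  push Not at hcon
  refine hno (field_of_covector D h1 h2 fun x => ?_)
  obtain ⟨V, hV, F, hF⟩ := hρ.locfin x
  have hxV := mem_of_mem_nhds hV
  have hs : ∑ γ ∈ F, ρ (γ • x) = 1 := by
    rw [← hρ.sum x]
    exact (tsum_eq_sum fun γ hγ => hF γ hγ x hxV).symm
  have e1 : ∑' γ : Γ, ρ (γ • x) • (ω₀ (γ • x)).comp (cl hol γ) =
      (∑ γ ∈ F, ρ (γ • x) • (fun x => (ω₀ (γ • x)).comp (cl hol γ))) x := by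
    rw [Finset.sum_apply]
    exact tsum_eq_sum fun γ hγ => by rw [hF γ hγ x hxV, zero_smul]
  rw [e1]
  exact hcon _ (hcv.sum_mem (fun γ _ => hρ.nonneg _) hs fun γ _ => hinv γ ω₀ hω₀) x

end

end Pool.Agent.R772.CC
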