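import Pool.Agent.R772.CC3

/-!
# Families of fields and forms over an invariant affine subspace
-/

set_option autoImplicit false

open Set Filter Topology Metric

namespace Pool.Agent.R772.CC

open Pool.Agent.W689.Ch Pool.Agent.TH845.Mk Pool.Agent.Y150.Ch
open Pool.Agent.W689.Mk (lin hol_add hol_sub hol_inv_apply hol_apply_inv lin_inv_apply lin_mul
  lin_smul hol_cont)
open Pool.Agent.TH289.N (avg cl cl_apply cl_mul field_of_covector field_of_sets)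

section
variable {X Γ E : Type} [TopologicalSpace X] [T2Space X] [Group Γ] [MulAction Γ X]
  [NormedAddCommGroup E] [NormedSpace ℝ E] [FiniteDimensional ℝ E]
  {dev : X → E} {hol : Γ →* (E ≃ᵃ[ℝ] E)} {H : AffineSubspace ℝ E} {x₀ : X}

theorem indexed_gen (D : AffMfd X Γ E dev hol) {K : Subgroup Γ} (hK : K.FiniteIndex)
    (hx : dev x₀ ∈ H) (hinvK : ∀ γ ∈ K, ∀ q ∈ H, hol γ q ∈ H)
    (hfld : ¬ Fld dev (hol.comp K.subtype) H) {I : Type} [MulAction K I] [Nonempty I]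
    {τ : I → X → E} {f : I → X → ℝ} (hτ : ∀ i, ContinuousOn (τ i) {x | dev x ∈ H})
    (hτV : ∀ i x, dev x ∈ H → τ i x ∈ H.direction)
    (hτe : ∀ (γ : K) i x, dev x ∈ H → τ (γ • i) (γ.1 • x) = lin hol γ.1 (τ i x))
    (hf : ∀ i, ContinuousOn (f i) {x | dev x ∈ H})
    (hfe : ∀ (γ : K) i x, dev x ∈ H → f (γ • i) (γ.1 • x) = f i x)
    (hfp : ∀ x, dev x ∈ H → ∀ r, ∃ U ∈ 𝓝[{x | dev x ∈ H}] x,
      {i | ∃ y ∈ U, dev y ∈ H ∧ f i y ≤ r}.Finite) :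
    ∃ x, dev x ∈ H ∧ (0 : E) ∈ convexHull ℝ {v | ∃ i, (∀ j, f i x ≤ f j x) ∧ τ i x = v} := by
  by_contra hcon
  push Not at hcon
  have hinvH : ∀ (γ : K), ∀ q ∈ H, (hol.comp K.subtype) γ q ∈ H :=
    fun γ q hq => hinvK γ.1 γ.2 q hq
  refine hfld (fld_of_sub (restr D K hK) hx hinvH ?_)
  let _ := subAct (restr D K hK) hinvH
  have D' := subMfd (restr D K hK) hx hinvH
  refine field_of_indexed D' (I := I)
    (τ := fun i (x : {x : X // dev x ∈ H}) => (⟨τ i x.1, hτV i x.1 x.2⟩ : H.direction))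
    (f := fun i (x : {x : X // dev x ∈ H}) => f i x.1) ?_ ?_ ?_ ?_ ?_ ?_
  · exact fun i => Continuous.subtype_mk (continuousOn_iff_continuous_domRestrict.1 (hτ i)) _
  · exact fun γ i x => Subtype.ext (hτe γ i x.1 x.2)
  · exact fun i => continuousOn_iff_continuous_domRestrict.1 (hf i)
  · exact fun γ i x => hfe γ i x.1 x.2
  · rintro ⟨x, hxH⟩ r
    obtain ⟨U, hU, hfin⟩ := hfp x hxH r
    refine ⟨Subtype.val ⁻¹' U, preimage_coe_mem_nhds_subtype.2 hU, hfin.subset ?_⟩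
    rintro i ⟨y, hyU, hy⟩
    exact ⟨y.1, hyU, y.2, hy⟩
  · rintro ⟨x, hxH⟩ h0
    refine hcon x hxH ?_
    have h1 : (0 : E) ∈ H.direction.subtype '' convexHull ℝ {v : H.direction |
        ∃ i, (∀ j, f i x ≤ f j x) ∧ (⟨τ i x, hτV i x hxH⟩ : H.direction) = v} :=
      ⟨0, h0, rfl⟩
    rw [LinearMap.image_convexHull] at h1
    refine convexHull_mono ?_ h1
    rintro _ ⟨v, ⟨i, hi, rfl⟩, rfl⟩
    exact ⟨i, hi, rfl⟩

theorem vec_gen (D : AffMfd X Γ E dev hol) {K : Subgroup Γ} (hK : K.FiniteIndex)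
    (hx : dev x₀ ∈ H) (hinvK : ∀ γ ∈ K, ∀ q ∈ H, hol γ q ∈ H)
    (hfld : ¬ Fld dev (hol.comp K.subtype) H) {𝒱 : Set (X → E)} (hne : 𝒱.Nonempty)
    (hcv : Convex ℝ 𝒱) (hc : ∀ Y ∈ 𝒱, ContinuousOn Y {x | dev x ∈ H})
    (hV : ∀ Y ∈ 𝒱, ∀ x, dev x ∈ H → Y x ∈ H.direction)
    (hinv : ∀ γ ∈ K, ∀ Y ∈ 𝒱, ∃ Y' ∈ 𝒱, ∀ x, dev x ∈ H → lin hol γ (Y x) = Y' (γ • x)) :
    ∃ Y ∈ 𝒱, ∃ x, dev x ∈ H ∧ Y x = 0 := by
  have hinvH : ∀ (γ : K), ∀ q ∈ H, (hol.comp K.subtype) γ q ∈ H :=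
    fun γ q hq => hinvK γ.1 γ.2 q hq
  let _ := subAct (restr D K hK) hinvH
  have D' := subMfd (restr D K hK) hx hinvH
  have key := vec_full D' (𝒱 := {Y' | ∃ Y ∈ 𝒱, ∀ x : {x : X // dev x ∈ H}, (Y' x : E) = Y x.1})
    ?_ ?_ ?_ ?_ ?_
  · obtain ⟨Y', ⟨Y, hY, h1⟩, x, h2⟩ := key
    refine ⟨Y, hY, x.1, x.2, ?_⟩
    rw [← h1, h2]
    rfl
  · exact fun h => hfld (fld_of_sub (restr D K hK) hx hinvH h)
  · obtain ⟨Y, hY⟩ := hne
    exact ⟨fun x => ⟨Y x.1, hV Y hY x.1 x.2⟩, Y, hY, fun x => rfl⟩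
  · rintro Y' ⟨Y, hY, h1⟩ Z' ⟨Z, hZ, h2⟩ a b ha hb hab
    refine ⟨a • Y + b • Z, hcv hY hZ ha hb hab, fun x => ?_⟩
    show a • (Y' x : E) + b • (Z' x : E) = a • Y x.1 + b • Z x.1
    rw [h1, h2]
  · rintro Y' ⟨Y, hY, h1⟩
    have h2 : Y' = fun x => ⟨Y x.1, hV Y hY x.1 x.2⟩ := funext fun x => Subtype.ext (h1 x)
    rw [h2]
    exact Continuous.subtype_mk (continuousOn_iff_continuous_domRestrict.1 (hc Y hY)) _
  · rintro γ Y' ⟨Y, hY, h1⟩
    obtain ⟨Y₂, hY₂, h2⟩ := hinv γ.1⁻¹ (K.inv_mem γ.2) Y hY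
    refine ⟨Y₂, hY₂, fun x => ?_⟩
    have hγx : dev (γ.1 • x.1) ∈ H := by rw [D.equi]; exact hinvK γ.1 γ.2 _ x.2
    have h3 := h2 (γ.1 • x.1) hγx
    rw [inv_smul_smul] at h3
    have h4 : (Y' (γ • x) : E) = Y (γ.1 • x.1) := h1 (γ • x)
    show lin hol γ.1⁻¹ (Y' (γ • x) : E) = Y₂ x.1
    rw [h4, h3]

theorem covec_gen (D : AffMfd X Γ E dev hol) {K : Subgroup Γ} (hK : K.FiniteIndex)
    (hx : dev x₀ ∈ H) (hinvK : ∀ γ ∈ K, ∀ q ∈ H, hol γ q ∈ H)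
    (hfld : ¬ Fld dev (hol.comp K.subtype) H) {𝒲 : Set (X → E →L[ℝ] ℝ)} (hne : 𝒲.Nonempty)
    (hcv : Convex ℝ 𝒲) (hc : ∀ ω ∈ 𝒲, ContinuousOn ω {x | dev x ∈ H})
    (hinv : ∀ γ ∈ K, ∀ ω ∈ 𝒲, ∃ ω' ∈ 𝒲, ∀ x, dev x ∈ H → ∀ v ∈ H.direction,
      ω' x v = ω (γ • x) (lin hol γ v)) :
    ∃ ω ∈ 𝒲, ∃ x, dev x ∈ H ∧ ∀ v ∈ H.direction, ω x v = 0 := by
  have hinvH : ∀ (γ : K), ∀ q ∈ H, (hol.comp K.subtype) γ q ∈ H :=
    fun γ q hq => hinvK γ.1 γ.2 q hq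
  let _ := subAct (restr D K hK) hinvH
  have D' := subMfd (restr D K hK) hx hinvH
  have key := covec_full D' (𝒲 := {ω' | ∃ ω ∈ 𝒲, ∀ (x : {x : X // dev x ∈ H}) (v : H.direction),
    ω' x v = ω x.1 v.1}) ?_ ?_ ?_ ?_ ?_
  · obtain ⟨ω', ⟨ω, hω, h1⟩, x, h2⟩ := key
    refine ⟨ω, hω, x.1, x.2, fun v hv => ?_⟩
    have h3 := h1 x ⟨v, hv⟩
    rw [h2] at h3
    exact h3.symm
  · exact fun h => hfld (fld_of_sub (restr D K hK) hx hinvH h)
  · obtain ⟨ω, hω⟩ := hne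
    exact ⟨fun x => (ω x.1).comp H.direction.subtypeL, ω, hω, fun x v => rfl⟩
  · rintro ω' ⟨ω, hω, h1⟩ η' ⟨η, hη, h2⟩ a b ha hb hab
    refine ⟨a • ω + b • η, hcv hω hη ha hb hab, fun x v => ?_⟩
    show a * ω' x v + b * η' x v = a * ω x.1 v.1 + b * η x.1 v.1
    rw [h1, h2]
  · rintro ω' ⟨ω, hω, h1⟩
    have h2 : ω' = fun x => (ω x.1).comp H.direction.subtypeL := by
      funext x
      ext v
      exact h1 x v
    rw [h2]
    exact (continuousOn_iff_continuous_domRestrict.1 (hc ω hω)).clm_comp continuous_const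
  · rintro γ ω' ⟨ω, hω, h1⟩
    obtain ⟨ω₂, hω₂, h2⟩ := hinv γ.1 γ.2 ω hω
    refine ⟨ω₂, hω₂, fun x v => ?_⟩
    rw [h2 x.1 x.2 v.1 v.2]
    exact h1 (γ • x) _

/-- the derivative of a semi-invariant function -/
theorem semi_deriv {F : E → ℝ} (hF : ContDiff ℝ 1 F) {γ : Γ} {c d : ℝ}
    (h : ∀ p ∈ H, F (hol γ p) = c * F p + d) {p v : E} (hp : p ∈ H) (hv : v ∈ H.direction) :
    fderiv ℝ F (hol γ p) (lin hol γ v) = c * fderiv ℝ F p v := by
  have hd : ∀ q, HasFDerivAt F (fderiv ℝ F q) q := fun q =>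
    ((hF.differentiable one_ne_zero) q).hasFDerivAt
  have h1 : HasDerivAt (fun s : ℝ => F (hol γ p + s • lin hol γ v))
      (fderiv ℝ F (hol γ p) (lin hol γ v)) 0 := by
    have e1 : HasDerivAt (fun s : ℝ => hol γ p + s • lin hol γ v) (lin hol γ v) 0 := by
      simpa using ((hasDerivAt_id (0 : ℝ)).smul_const (lin hol γ v)).const_add (hol γ p)
    have e2 := hd (hol γ p + (0 : ℝ) • lin hol γ v)
    have e3 := e2.comp_hasDerivAt (0 : ℝ) e1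
    simpa [Function.comp_def] using e3
  have h2 : HasDerivAt (fun s : ℝ => c * F (p + s • v) + d) (c * fderiv ℝ F p v) 0 := by
    have e1 : HasDerivAt (fun s : ℝ => p + s • v) v 0 := by
      simpa using ((hasDerivAt_id (0 : ℝ)).smul_const v).const_add p
    have e2 := hd (p + (0 : ℝ) • v)
    have e3 := (e2.comp_hasDerivAt (0 : ℝ) e1).const_mul c |>.add_const d
    simpa [Function.comp_def] using e3
  have h3 : (fun s : ℝ => F (hol γ p + s • lin hol γ v)) = fun s : ℝ => c * F (p + s • v) + d := by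
    funext s
    have h4 : p + s • v ∈ H := add_mem_H hp ⟨s • v, H.direction.smul_mem s hv⟩
    rw [← h _ h4, hol_add]
    congr 2
    exact ((hol γ).linear.map_smul s v).symm
  rw [h3] at h1
  exact h1.unique h2

variable {G : Subgroup Γ}

/-- semi-invariant functions on the core with an empty or star-shaped critical set are constant -/
theorem semi_fun (D : AffMfd X Γ E dev hol) (m : Min dev hol G H x₀) {K : Subgroup Γ}
    (hKG : K ≤ G) (hK : K.FiniteIndex) {F : E → ℝ} (hF : ContDiff ℝ 1 F)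
    (hsemi : ∀ γ ∈ K, ∃ c d : ℝ, ∀ p ∈ H, F (hol γ p) = c * F p + d)
    (hstar : ∀ q, (q ∈ H ∧ ∀ v ∈ H.direction, fderiv ℝ F q v = 0) →
      ∃ p, (p ∈ H ∧ ∀ v ∈ H.direction, fderiv ℝ F p v = 0) ∧
        StarConvex ℝ p {q | q ∈ H ∧ ∀ v ∈ H.direction, fderiv ℝ F q v = 0}) :
    ∀ p ∈ H, ∀ q ∈ H, F p = F q := by
  classical
  by_contra hcon
  push Not at hcon
  obtain ⟨p₁, hp₁, p₂, hp₂, hne⟩ := hcon
  have hinvK : ∀ γ ∈ K, ∀ q ∈ H, hol γ q ∈ H := fun γ hγ q hq => m.inv γ (hKG hγ) q hq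
  choose c d hcd using fun γ : K => hsemi γ.1 γ.2
  have hsub : F p₁ - F p₂ ≠ 0 := sub_ne_zero.2 hne
  have cmul : ∀ γ δ : K, c (γ * δ) = c γ * c δ := by
    intro γ δ
    have h3 : ∀ p, hol (γ * δ : K).1 p = hol γ.1 (hol δ.1 p) := by
      intro p
      show hol (γ.1 * δ.1) p = _
      rw [map_mul]; rfl
    have e : ∀ p ∈ H, c (γ * δ) * F p + d (γ * δ) = c γ * (c δ * F p + d δ) + d γ := by
      intro p hp
      rw [← hcd (γ * δ) p hp, ← hcd δ p hp, ← hcd γ _ (hinvK δ.1 δ.2 p hp), h3]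
    have e1 := e p₁ hp₁
    have e2 := e p₂ hp₂
    refine mul_right_cancel₀ hsub ?_
    linear_combination e1 - e2
  have cone : c 1 = 1 := by
    have e : ∀ p ∈ H, F p = c 1 * F p + d 1 := by
      intro p hp
      rw [← hcd 1 p hp]
      show F p = F (hol 1 p)
      rw [map_one]; rfl
    have e1 := e p₁ hp₁
    have e2 := e p₂ hp₂
    refine mul_right_cancel₀ hsub ?_
    linear_combination e2 - e1
  have hc0 : ∀ γ, c γ ≠ 0 := by
    intro γ h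
    have := cmul γ γ⁻¹
    rw [mul_inv_cancel, cone, h, zero_mul] at this
    exact one_ne_zero this
  let cH : K →* ℝ := { toFun := c, map_one' := cone, map_mul' := cmul }
  let s : K →* SignTypeˣ := ((signHom : ℝ →*₀ SignType).toMonoidHom.comp cH).toHomUnits
  let K' : Subgroup Γ := s.ker.map K.subtype
  have hK'K : K' ≤ K := Subgroup.map_subtype_le _
  have hK' : K'.FiniteIndex := by
    have h1 : s.ker.FiniteIndex := Subgroup.finiteIndex_ker s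
    refine ⟨?_⟩
    rw [Subgroup.index_map_subtype]
    exact mul_ne_zero h1.index_ne_zero hK.index_ne_zero
  have hpos : ∀ γ : K, γ.1 ∈ K' → 0 < c γ := by
    intro γ hγ
    obtain ⟨δ, hδ, hδγ⟩ := Subgroup.mem_map.1 hγ
    have h1 : δ = γ := Subtype.ext hδγ
    rw [h1] at hδ
    have h2 : s γ = 1 := hδ
    have h3 : SignType.sign (c γ) = 1 := by
      have := congrArg Units.val h2
      exact this
    exact sign_eq_one_iff.1 h3
  have hF1 : Continuous fun p => fderiv ℝ F p := hF.continuous_fderiv one_ne_zero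
  obtain ⟨_, ⟨t, ht, rfl⟩, x, hxH, h0⟩ := covec_gen D hK' m.mem
    (fun γ hγ => hinvK γ (hK'K hγ)) (m.fld K' (hK'K.trans hKG) hK')
    (𝒲 := {ω | ∃ t : ℝ, 0 < t ∧ ω = fun x => t • fderiv ℝ F (dev x)}) ⟨_, 1, one_pos, rfl⟩
    (by
      rintro _ ⟨t, ht, rfl⟩ _ ⟨t', ht', rfl⟩ a b ha hb hab
      refine ⟨a * t + b * t', ?_, ?_⟩
      · rcases ha.eq_or_lt with h | h
        · have : b = 1 := by linarith
          rw [← h, this]; linarith
        · have h1 := mul_pos h ht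
          have h2 := mul_nonneg hb ht'.le
          linarith
      · funext x
        show a • (t • fderiv ℝ F (dev x)) + b • (t' • fderiv ℝ F (dev x)) = _
        rw [smul_smul, smul_smul, ← add_smul])
    (by
      rintro _ ⟨t, ht, rfl⟩
      exact ((hF1.comp D.loc.continuous).const_smul t).continuousOn)
    (by
      rintro γ hγ _ ⟨t, ht, rfl⟩
      refine ⟨_, ⟨t * c ⟨γ, hK'K hγ⟩, mul_pos ht (hpos ⟨γ, hK'K hγ⟩ hγ), rfl⟩, ?_⟩
      intro x hx v hv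
      have h1 := semi_deriv (hol := hol) hF (hcd ⟨γ, hK'K hγ⟩) hx hv
      show t * c ⟨γ, hK'K hγ⟩ * fderiv ℝ F (dev x) v = t * fderiv ℝ F (dev (γ • x)) (lin hol γ v)
      rw [D.equi, h1]
      ring)
  have h0' : ∀ v ∈ H.direction, fderiv ℝ F (dev x) v = 0 := by
    intro v hv
    have h1 : t * fderiv ℝ F (dev x) v = 0 := h0 v hv
    exact (mul_eq_zero.1 h1).resolve_left ht.ne'
  obtain ⟨p, hp, hst⟩ := hstar _ ⟨hxH, h0'⟩
  have hS := m.star K hKG hK {q | q ∈ H ∧ ∀ v ∈ H.direction, fderiv ℝ F q v = 0} p hp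
    (fun q hq => hq.1) hst (by
      rintro γ hγ q ⟨hq, hq0⟩
      refine ⟨hinvK γ hγ q hq, fun v hv => ?_⟩
      have hinvΓ : ∀ (δ : K), ∀ q ∈ H, (hol.comp K.subtype) δ q ∈ H :=
        fun δ q hq => hinvK δ.1 δ.2 q hq
      have hw : lin hol γ⁻¹ v ∈ H.direction :=
        lin_mem_dir (hol := hol.comp K.subtype) m.mem hinvΓ (⟨γ, hγ⟩⁻¹ : K) hv
      have h1 := semi_deriv (hol := hol) hF (hcd ⟨γ, hγ⟩) hq hw
      have h2 : lin hol γ (lin hol γ⁻¹ v) = v := by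
        have := lin_inv_apply (hol := hol) γ⁻¹ v
        rwa [inv_inv] at this
      rw [h2, hq0 _ hw, mul_zero] at h1
      exact h1)
  -- the derivative along `H` vanishes
  have hd : ∀ q, HasFDerivAt F (fderiv ℝ F q) q := fun q =>
    ((hF.differentiable one_ne_zero) q).hasFDerivAt
  refine hne ?_
  have hv : p₂ - p₁ ∈ H.direction := sub_mem_dir hp₁ hp₂
  have h1 : ∀ s : ℝ, HasDerivAt (fun s : ℝ => F (p₁ + s • (p₂ - p₁))) 0 s := by
    intro s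
    have e1 : HasDerivAt (fun s : ℝ => p₁ + s • (p₂ - p₁)) (p₂ - p₁) s := by
      simpa using ((hasDerivAt_id s).smul_const (p₂ - p₁)).const_add p₁
    have e2 := (hd (p₁ + s • (p₂ - p₁))).comp_hasDerivAt s e1
    have e3 : p₁ + s • (p₂ - p₁) ∈ H := add_mem_H hp₁ ⟨s • (p₂ - p₁), H.direction.smul_mem s hv⟩
    have e4 : p₁ + s • (p₂ - p₁) ∈ {q | q ∈ H ∧ ∀ v ∈ H.direction, fderiv ℝ F q v = 0} := by
      rw [hS]; exact e3
    rw [e4.2 _ hv] at e2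
    exact e2
  have h2 := is_const_of_deriv_eq_zero (f := fun s : ℝ => F (p₁ + s • (p₂ - p₁)))
    (fun s => (h1 s).differentiableAt) (fun s => (h1 s).deriv) 0 1
  simpa using h2

end

end Pool.Agent.R772.CC
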