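import Pool.Agent.R772.CC4

/-!
# Displacements, quadratic functions
-/

set_option autoImplicit false

open Set Filter Topology Metric

namespace Pool.Agent.R772.CC

open Pool.Agent.W689.Ch Pool.Agent.TH845.Mk Pool.Agent.Y150.Ch
open Pool.Agent.W689.Mk (lin hol_add hol_sub hol_inv_apply hol_apply_inv lin_inv_apply lin_mul
  lin_smul hol_cont)

section
variable {X Γ E : Type} [TopologicalSpace X] [T2Space X] [Group Γ] [MulAction Γ X]
  [NormedAddCommGroup E] [NormedSpace ℝ E] [FiniteDimensional ℝ E]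
  {dev : X → E} {hol : Γ →* (E ≃ᵃ[ℝ] E)} {H : AffineSubspace ℝ E} {x₀ : X}

/-- the displacement vectors of the nearest translates surround a point -/
theorem disp_gen (D : AffMfd X Γ E dev hol) {K G : Subgroup Γ} (hKG : K ≤ G) (hK : K.FiniteIndex)
    (hx : dev x₀ ∈ H) (hinvG : ∀ γ ∈ G, ∀ q ∈ H, hol γ q ∈ H)
    (hfld : ¬ Fld dev (hol.comp K.subtype) H) {C : Set Γ} {f : Γ → X → ℝ} (hC : C.Nonempty)
    (hCG : C ⊆ G) (hconj : ∀ δ ∈ K, ∀ γ ∈ C, δ * γ * δ⁻¹ ∈ C)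
    (hf : ∀ γ ∈ C, ContinuousOn (f γ) {x | dev x ∈ H})
    (hfe : ∀ δ ∈ K, ∀ γ ∈ C, ∀ x, dev x ∈ H → f (δ * γ * δ⁻¹) (δ • x) = f γ x)
    (hfp : ∀ x, dev x ∈ H → ∀ r, ∃ U ∈ 𝓝[{x | dev x ∈ H}] x,
      {γ | γ ∈ C ∧ ∃ y ∈ U, dev y ∈ H ∧ f γ y ≤ r}.Finite) :
    ∃ x, dev x ∈ H ∧ (0 : E) ∈ convexHull ℝ
      {v | ∃ γ ∈ C, (∀ γ' ∈ C, f γ x ≤ f γ' x) ∧ v = hol γ (dev x) - dev x} := by
  let act : MulAction K C :=
    { smul := fun δ γ => ⟨δ.1 * γ.1 * δ.1⁻¹, hconj δ.1 δ.2 γ.1 γ.2⟩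
      one_smul := fun γ => Subtype.ext (by
        show (1 : Γ) * γ.1 * (1 : Γ)⁻¹ = γ.1
        group)
      mul_smul := fun δ ε γ => Subtype.ext (by
        show (δ.1 * ε.1) * γ.1 * (δ.1 * ε.1)⁻¹ = δ.1 * (ε.1 * γ.1 * ε.1⁻¹) * δ.1⁻¹
        group) }
  have : Nonempty C := hC.to_subtype
  have hdc : Continuous dev := D.loc.continuous
  obtain ⟨x, hxH, h⟩ := indexed_gen D hK hx (fun γ hγ => hinvG γ (hKG hγ)) hfld (I := C)
    (τ := fun γ x => hol γ.1 (dev x) - dev x) (f := fun γ x => f γ.1 x)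
    (fun γ => (((hol_cont γ.1).comp hdc).sub hdc).continuousOn)
    (fun γ x hx => sub_mem_dir hx (hinvG γ.1 (hCG γ.2) _ hx))
    (fun δ γ x _ => by
      show hol (δ.1 * γ.1 * δ.1⁻¹) (dev (δ.1 • x)) - dev (δ.1 • x)
        = lin hol δ.1 (hol γ.1 (dev x) - dev x)
      rw [D.equi, map_mul, map_mul]
      show hol δ.1 (hol γ.1 (hol δ.1⁻¹ (hol δ.1 (dev x)))) - hol δ.1 (dev x) = _
      rw [hol_inv_apply, hol_sub])
    (fun γ => hf γ.1 γ.2) (fun δ γ x hx => hfe δ.1 δ.2 γ.1 γ.2 x hx)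
    (fun x hx r => by
      obtain ⟨U, hU, hfin⟩ := hfp x hx r
      refine ⟨U, hU, (hfin.preimage (f := ((↑) : C → Γ)) Subtype.val_injective.injOn).subset ?_⟩
      rintro γ ⟨y, hy⟩
      exact ⟨γ.2, y, hy⟩)
  refine ⟨x, hxH, convexHull_mono ?_ h⟩
  rintro _ ⟨γ, hγ, rfl⟩
  exact ⟨γ.1, γ.2, fun γ' hγ' => hγ ⟨γ', hγ'⟩, rfl⟩

variable {G : Subgroup Γ}

/-- semi-invariant quadratic functions on the core are constant -/
theorem semi_quad (D : AffMfd X Γ E dev hol) (m : Min dev hol G H x₀) {K : Subgroup Γ}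
    (hKG : K ≤ G) (hK : K.FiniteIndex) (B : E →L[ℝ] E →L[ℝ] ℝ) (l : E →L[ℝ] ℝ)
    (hsemi : ∀ γ ∈ K, ∃ c d : ℝ, ∀ p ∈ H,
      B (hol γ p) (hol γ p) + l (hol γ p) = c * (B p p + l p) + d) :
    ∀ p ∈ H, ∀ q ∈ H, B p p + l p = B q q + l q := by
  have hd : ∀ q, HasFDerivAt (fun p => B p p + l p) (B q + B.flip q + l) q := by
    intro q
    have h1 : HasFDerivAt (fun p => B p p) (B q + B.flip q) q := by
      have h2 := (B.hasFDerivAt (x := q)).clm_apply (hasFDerivAt_id q)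
      refine h2.congr_fderiv ?_
      ext v
      simp
    exact h1.add l.hasFDerivAt
  have hF : ContDiff ℝ 1 fun p => B p p + l p :=
    (B.contDiff.clm_apply contDiff_id).add l.contDiff
  refine semi_fun D m hKG hK (F := fun p => B p p + l p) hF hsemi ?_
  rintro q ⟨hq, hq0⟩
  refine ⟨q, ⟨hq, hq0⟩, ?_⟩
  rintro p ⟨hp, hp0⟩ a b ha hb hab
  refine ⟨H.convex hq hp ha hb hab, fun v hv => ?_⟩
  have e1 := hq0 v hv
  have e2 := hp0 v hv
  rw [(hd _).fderiv] at e1 e2 ⊢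
  have f1 : B q v + B v q + l v = 0 := e1
  have f2 : B p v + B v p + l v = 0 := e2
  show B (a • q + b • p) v + B v (a • q + b • p) + l v = 0
  rw [map_add, map_smul, map_smul, map_add, map_smul, map_smul]
  show a * B q v + b * B p v + (a * B v q + b * B v p) + l v = 0
  have hb' : b = 1 - a := by linarith
  subst hb'
  linear_combination a * f1 + (1 - a) * f2

end

end Pool.Agent.R772.CC
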