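import Pool.Agent.R772.Pos2
import Pool.Agent.Y363.SY.Local
import Pool.Agent.Y501.SY.Glue

/-!
Local exact two-forms with `σ ^ m ∧ η` positive at a point.
-/

set_option autoImplicit false

open Set Filter Topology
open scoped Manifold ContDiff

noncomputable section

namespace Pool.Agent.R772

open Pool.Agent.Y501.SY

section

variable {d m : ℕ} {X : Type} [TopologicalSpace X] [ChartedSpace (E d) X]
  [IsManifold (𝓡 d) ∞ X]

/-- every alternating two-form at a point is the value of a sum of forms `dg ∧ dh` -/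
theorem exists_exact [T2Space X] (z : X) (τ : (TangentSpace (𝓡 d) z) [⋀^Fin 2]→L[ℝ] ℝ) :
    ∃ (g : Fin d → X → ℝ) (B : Fin d → Fin d → ℝ), (∀ j, SmoothFun (d := d) (g j)) ∧
      (∑ j, ∑ k, B j k • dfdg (d := d) (g j) (g k)) z = τ := by
  let c := chartAt (E d) z
  have hz : z ∈ c.source := mem_chart_source (E d) z
  have hcd : c.MDifferentiable (𝓡 d) (𝓡 d) := mdifferentiable_chart (I := 𝓡 d) z
  let A : TangentSpace (𝓡 d) z ≃L[ℝ] E d := hcd.mfderiv hz
  obtain ⟨b⟩ : Nonempty (SmoothBumpFunction (𝓡 d) z) := inferInstance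
  let F : X → E d := fun x => b x • c x
  have hF : ContMDiff (𝓡 d) 𝓘(ℝ, E d) ∞ F := b.contMDiff_smul (contMDiffOn_chart (I := 𝓡 d))
  have hFc : F =ᶠ[𝓝 z] c := by
    filter_upwards [b.eventuallyEq_one] with x hx
    change b x • c x = c x
    rw [hx]
    exact one_smul ℝ (c x)
  let g : Fin d → X → ℝ := fun j x => F x j
  have hg : ∀ j, SmoothFun (d := d) (g j) := by
    intro j
    exact ((EuclideanSpace.proj (𝕜 := ℝ) j : E d →L[ℝ] ℝ).contDiff.contMDiff).comp hF
  have hcdz : MDifferentiableAt (𝓡 d) 𝓘(ℝ, E d) c z := hcd.mdifferentiableAt hz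
  have hdg : ∀ j (v : TangentSpace (𝓡 d) z), dd (g j) z v = (A v) j := by
    intro j v
    have e1 : g j =ᶠ[𝓝 z] (EuclideanSpace.proj (𝕜 := ℝ) j : E d →L[ℝ] ℝ) ∘ c := by
      filter_upwards [hFc] with x hx
      change F x j = c x j
      rw [hx]
    unfold dd
    rw [e1.mfderiv_eq, mfderiv_comp z
      ((EuclideanSpace.proj (𝕜 := ℝ) j : E d →L[ℝ] ℝ).contDiff.contMDiff.mdifferentiableAt
        (n := 1) one_ne_zero) hcdz,
      mfderiv_eq_fderiv, ContinuousLinearMap.fderiv]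
    rfl
  let bas : Fin d → TangentSpace (𝓡 d) z := fun j => A.symm (EuclideanSpace.single j (1 : ℝ))
  refine ⟨g, fun j k => (1 / 2 : ℝ) * τ ![bas j, bas k], hg, ?_⟩
  ext v
  have hv : v = ![v 0, v 1] := (vec2 v).symm
  have h2 : (∑ j, ∑ k, ((1 / 2 : ℝ) * τ ![bas j, bas k]) •
      dfdg (d := d) (g j) (g k)) z v =
      ∑ j, ∑ k, ((1 / 2 : ℝ) * τ ![bas j, bas k]) *
      ((A (v 0)) j * (A (v 1)) k - (A (v 1)) j * (A (v 0)) k) := by
    simp only [Finset.sum_apply, Pi.smul_apply, ContinuousAlternatingMap.sum_apply,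
      ContinuousAlternatingMap.smul_apply, smul_eq_mul]
    refine Finset.sum_congr rfl fun j _ => Finset.sum_congr rfl fun k _ => ?_
    have e3 : dfdg (d := d) (g j) (g k) z v =
        dd (g j) z (v 0) * dd (g k) z (v 1) - dd (g j) z (v 1) * dd (g k) z (v 0) :=
      wedge_apply (V := E d) (dd (g j) z) (dd (g k) z) v
    rw [e3, hdg, hdg, hdg, hdg]
  rw [h2]
  have hexp : ∀ u : TangentSpace (𝓡 d) z, u = ∑ j, (A u) j • bas j := by
    intro u
    apply A.injective
    rw [map_sum]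
    have h1 : A u = ∑ j, (A u) j • (EuclideanSpace.single j (1 : ℝ) : E d) := by
      ext i
      simp [Finset.sum_apply, Pi.single_apply]
    refine h1.trans (Finset.sum_congr rfl fun j _ => ?_)
    rw [map_smul]
    congr 1
    exact (A.apply_symm_apply _).symm
  have hτ : ∀ u w : TangentSpace (𝓡 d) z, τ ![u, w] =
      ∑ j, ∑ k, τ ![bas j, bas k] * ((A u) j * (A w) k) := by
    intro u w
    have e0 : τ ![u, w] = ∑ j, (A u) j * τ ![bas j, w] := by
      have h3 := τ.toAlternatingMap.map_update_sum (Finset.univ : Finset (Fin d)) 0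
        (fun j => (A u) j • bas j) ![u, w]
      have h4 : ∀ y : TangentSpace (𝓡 d) z, Function.update ![u, w] 0 y = ![y, w] := by
        intro y; funext i; fin_cases i <;> simp
      rw [h4, ← hexp u] at h3
      refine Eq.trans h3 (Finset.sum_congr rfl fun j _ => ?_)
      rw [h4]
      have h5 := τ.toAlternatingMap.map_update_smul ![u, w] 0 ((A u) j) (bas j)
      rw [h4, h4] at h5
      exact h5
    have e1 : ∀ j, τ ![bas j, w] = ∑ k, (A w) k * τ ![bas j, bas k] := by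
      intro j
      have h3 := τ.toAlternatingMap.map_update_sum (Finset.univ : Finset (Fin d)) 1
        (fun k => (A w) k • bas k) ![bas j, w]
      have h4 : ∀ y : TangentSpace (𝓡 d) z, Function.update ![bas j, w] 1 y = ![bas j, y] := by
        intro y; funext i; fin_cases i <;> simp
      rw [h4, ← hexp w] at h3
      refine Eq.trans h3 (Finset.sum_congr rfl fun k _ => ?_)
      rw [h4]
      have h5 := τ.toAlternatingMap.map_update_smul ![bas j, w] 1 ((A w) k) (bas k)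
      rw [h4, h4] at h5
      exact h5
    rw [e0]
    refine Finset.sum_congr rfl fun j _ => ?_
    rw [e1, Finset.mul_sum]
    refine Finset.sum_congr rfl fun k _ => ?_
    ring
  have hsw := alt_swap τ (v 0) (v 1)
  have hfin : τ v = (1 / 2 : ℝ) * (τ ![v 0, v 1] - τ ![v 1, v 0]) := by
    nth_rewrite 1 [hv]
    rw [hsw]; ring
  rw [hfin, hτ (v 0) (v 1), hτ (v 1) (v 0), ← Finset.sum_sub_distrib, Finset.mul_sum]
  refine Finset.sum_congr rfl fun j _ => ?_
  rw [← Finset.sum_sub_distrib, Finset.mul_sum]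
  refine Finset.sum_congr rfl fun k _ => ?_
  ring

theorem LinPos.exists (hd : d = 2 * (m + 1)) {vol : Top d m X} (hvol : IsVol vol) [T2Space X]
    {σ : Form d X 2} (z : X)
    (hr : ∃ (τ : (TangentSpace (𝓡 d) z) [⋀^Fin 2]→L[ℝ] ℝ)
      (e : Fin (m + 1) × Fin 2 → TangentSpace (𝓡 d) z),
      wedge (Fin.cons τ (fun _ : Fin m => σ z)) e ≠ 0) :
    ∃ (g : Fin d → X → ℝ) (B : Fin d → Fin d → ℝ), (∀ j, SmoothFun (d := d) (g j)) ∧
      LinPos vol σ (∑ j, ∑ k, B j k • dfdg (d := d) (g j) (g k)) z := by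
  obtain ⟨τ, e, hτ⟩ := hr
  obtain ⟨f₀, hf₀⟩ := hvol.ne z
  obtain ⟨f, hf⟩ : ∃ f, 0 < vol z f := by
    rcases lt_or_gt_of_ne hf₀ with h | h
    · refine ⟨Function.update f₀ (0, 0) (-(f₀ (0, 0))), ?_⟩
      have h5 := (vol z).map_update_neg f₀ (0, 0) (f₀ (0, 0))
      rw [Function.update_eq_self] at h5
      refine lt_of_lt_of_eq (neg_pos.2 h) ?_
      exact h5.symm
    · exact ⟨f₀, h⟩
  have h1 := frame_iff' hd vol hf _ hτ
  obtain ⟨τ', hτ'⟩ : ∃ τ' : (TangentSpace (𝓡 d) z) [⋀^Fin 2]→L[ℝ] ℝ,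
      0 < wedge (Fin.cons τ' (fun _ : Fin m => σ z)) f := by
    rcases lt_or_gt_of_ne h1 with h | h
    · refine ⟨τ + (-2 : ℝ) • τ, ?_⟩
      rw [wedge_cons_linear]
      linarith
    · exact ⟨τ, h⟩
  obtain ⟨g, B, hg, hB⟩ := exists_exact z τ'
  refine ⟨g, B, hg, ?_⟩
  refine (frame_iff hd vol hf _).2 ?_
  rw [hB]
  exact hτ'

end

end Pool.Agent.R772
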