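import Pool.Agent.R772.Lin
import Pool.Agent.R772.Loc
import Pool.Agent.Y501.SY.FinalG

/-!
Exact two-forms which are positive over a compact set, with respect to a field of open convex
cones in the spaces of two-forms: thin compact sets.
-/

set_option autoImplicit false

open Set Filter Topology MeasureTheory
open scoped Manifold ContDiff

noncomputable section

namespace Pool.Agent.R772

open Pool.Agent.Y501.SY

section

variable {d : ℕ} {X : Type} [TopologicalSpace X] [ChartedSpace (E d) X]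

variable (d X) in
/-- a field of sets of two-forms -/
abbrev PField : Type := (x : X) → ((TangentSpace (𝓡 d) x) [⋀^Fin 2]→L[ℝ] ℝ) → Prop

/-- a field of open convex cones over `D`, which depends only on the kernels of `σ` -/
structure IsCone (σ : Form d X 2) (D : Set X) (P : PField d X) : Prop where
  add : ∀ x ∈ D, ∀ a b, P x a → P x b → P x (a + b)
  smul : ∀ x ∈ D, ∀ (c : ℝ) a, 0 < c → P x a → P x (c • a)
  pert : ∀ (κ : Type) [Fintype κ] (η : Form d X 2) (θ : κ → Form d X 2), IsSmooth η →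
    (∀ k, IsSmooth (θ k)) → ∀ x ∈ D, P x (η x) →
    ∃ ε : ℝ, 0 < ε ∧ ∀ᶠ y in 𝓝 x, y ∈ D → ∀ t : κ → ℝ, (∀ k, |t k| ≤ ε) →
      P y ((η + ∑ k, t k • θ k) y)
  ker : ∀ x ∈ D, ∀ (a b : (TangentSpace (𝓡 d) x) [⋀^Fin 2]→L[ℝ] ℝ)
    (l : TangentSpace (𝓡 d) x →L[ℝ] ℝ) (c : TangentSpace (𝓡 d) x → ℝ),
    (∀ v, (∀ w, σ x ![v, w] = 0) → l v = 0) →
    (∀ v w, b ![v, w] = l v * c w - l w * c v) → P x a → P x (a + b)

/-- `C` is thin at `z`, relative to `P`: there are finitely many pairs `(a, b)` of smooth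
functions on `X` such that each `(a, b)` maps a neighbourhood of `z` in `C` onto a Lebesgue null
set of the plane, and `∑ da ∧ db` lies in the cone at `z`. -/
def ThinP (P : PField d X) (C : Set X) (z : X) : Prop :=
  ∃ (n : ℕ) (a b : Fin n → X → ℝ) (N : Set X), N ∈ 𝓝 z ∧ (∀ i, SmoothFun (d := d) (a i)) ∧
    (∀ i, SmoothFun (d := d) (b i)) ∧
    (∀ i, volume ((fun x => (a i x, b i x)) '' (C ∩ N)) = 0) ∧
    P z ((∑ i, dfdg (a i) (b i) : Form d X 2) z)

theorem form_ext {V : Type} [AddCommGroup V] [Module ℝ V] [TopologicalSpace V]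
    {σ τ : V [⋀^Fin 2]→L[ℝ] ℝ} (h : ∀ v w, σ ![v, w] = τ ![v, w]) : σ = τ := by
  ext v
  have := h (v 0) (v 1)
  rwa [vec2] at this

theorem IsCone.sum {σ : Form d X 2} {D : Set X} {P : PField d X} (hP : IsCone σ D P)
    {x : X} (hx : x ∈ D) {ι : Type} (s : Finset ι) (c : ι → ℝ)
    (a : ι → (TangentSpace (𝓡 d) x) [⋀^Fin 2]→L[ℝ] ℝ) (hc : ∀ i ∈ s, 0 ≤ c i)
    (ha : ∀ i ∈ s, c i ≠ 0 → P x (a i)) (hs : ∃ i ∈ s, 0 < c i) :
    P x (∑ i ∈ s, c i • a i) := by
  classical
  have key : ∀ t : Finset ι, (∀ i ∈ t, 0 ≤ c i) → (∀ i ∈ t, c i ≠ 0 → P x (a i)) →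
      (∑ i ∈ t, c i • a i = 0 ∨ P x (∑ i ∈ t, c i • a i)) ∧
      ((∃ i ∈ t, 0 < c i) → P x (∑ i ∈ t, c i • a i)) := by
    intro t
    induction t using Finset.induction_on with
    | empty =>
      intro _ _
      refine ⟨Or.inl Finset.sum_empty, ?_⟩
      rintro ⟨i, hi, _⟩
      exact absurd hi (Finset.notMem_empty i)
    | insert j t hj ih =>
      intro h1 h2
      obtain ⟨i1, i2⟩ := ih (fun i hi => h1 i (Finset.mem_insert_of_mem hi))
        (fun i hi => h2 i (Finset.mem_insert_of_mem hi))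
      rw [Finset.sum_insert hj]
      rcases eq_or_lt_of_le (h1 j (Finset.mem_insert_self j t)) with h0 | h0
      · rw [← h0, zero_smul, zero_add]
        refine ⟨i1, ?_⟩
        rintro ⟨i, hi, hi0⟩
        rcases Finset.mem_insert.1 hi with h | h
        · subst h; rw [← h0] at hi0; exact absurd hi0 (lt_irrefl _)
        · exact i2 ⟨i, h, hi0⟩
      · have h3 : P x (c j • a j) :=
          hP.smul x hx _ _ h0 (h2 j (Finset.mem_insert_self j t) h0.ne')
        have h4 : P x (c j • a j + ∑ i ∈ t, c i • a i) := by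
          rcases i1 with h | h
          · rw [h, add_zero]; exact h3
          · exact hP.add x hx _ _ h3 h
        exact ⟨Or.inr h4, fun _ => h4⟩
  exact (key s hc ha).2 hs

variable [IsManifold (𝓡 d) ∞ X]

theorem IsCone.nhds {σ : Form d X 2} {D : Set X} {P : PField d X} (hP : IsCone σ D P)
    {η : Form d X 2} (hη : IsSmooth η) {x : X} (hx : x ∈ D)
    (h : P x (η x)) : ∀ᶠ y in 𝓝 x, y ∈ D → P y (η y) := by
  obtain ⟨ε, hε, hp⟩ := hP.pert (Fin 0) η (fun _ => 0) hη (fun k => k.elim0) x hx h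
  filter_upwards [hp] with y hy hyD
  have := hy hyD (fun _ => 0) (fun k => k.elim0)
  simpa using this

theorem IsCone.core {σ : Form d X 2} {D : Set X} {P : PField d X} (hP : IsCone σ D P)
    {K : Set X} (hK : IsCompact K) (hKD : K ⊆ D) {ι : Type} [Fintype ι]
    (c a b : ι → X → ℝ) (M : ι → Set X) (hM : ∀ i, IsClosed (M i))
    (hcM : ∀ i x, c i x ≠ 0 → x ∈ M i)
    (hc : ∀ i, SmoothFun (d := d) (c i)) (ha : ∀ i, SmoothFun (d := d) (a i))
    (hb : ∀ i, SmoothFun (d := d) (b i))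
    (hnull : ∀ i, volume ((fun x => (a i x, b i x)) '' (K ∩ M i)) = 0)
    (htau : ∀ x ∈ K, P x ((∑ i, hdfdg (c i) (a i) (b i) : Form d X 2) x)) :
    ∃ (α : Form d X 1) (η : Form d X 2), Pair α η ∧ ∀ x ∈ K, P x (η x) := by
  classical
  have hG := Pool.Agent.Y484.SY.t_GEN
  have hPl := Pool.Agent.Y925.SY.t_PLANAR
  -- the error forms
  let e : ι × Bool → Form d X 2 := fun k =>
    if k.2 then hdfdg (fun _ => 1) (c k.1) (b k.1) else hdfdg (fun _ => 1) (c k.1) (a k.1)
  have he : ∀ k, IsSmooth (e k) := by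
    rintro ⟨i, k⟩
    cases k
    · exact (hG d X (fun _ => 1) (c i) (a i) (SmoothFun.const 1) (hc i) (ha i)).2.1
    · exact (hG d X (fun _ => 1) (c i) (b i) (SmoothFun.const 1) (hc i) (hb i)).2.1
  have hts : IsSmooth (∑ i, hdfdg (d := d) (c i) (a i) (b i)) :=
    IsSmooth.sum _ fun i _ => (hG d X (c i) (a i) (b i) (hc i) (ha i) (hb i)).2.1
  obtain ⟨ε, hε, hpert⟩ := unif hK
    (fun ε y => y ∈ D → ∀ t : ι × Bool → ℝ, (∀ k, |t k| ≤ ε) →
      P y (((∑ i, hdfdg (c i) (a i) (b i)) + ∑ k, t k • e k : Form d X 2) y))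
    (fun ε ε' y hle hp hy t ht => hp hy t fun k => (ht k).trans hle)
    (fun x hx => hP.pert _ _ _ hts he x (hKD hx) (htau x hx))
  have hcpt : ∀ i, IsCompact ((fun x => (a i x, b i x)) '' (K ∩ M i)) := fun i =>
    (hK.inter_right (hM i)).image ((ha i).continuous.prodMk (hb i).continuous)
  choose P1 Q hPs hQs hPε hQε hPQ using fun i => hPl _ (hcpt i) (hnull i) ε hε
  have s1 : ∀ i, SmoothFun (d := d) (fun x => P1 i (a i x)) := fun i =>
    SmoothFun.comp1 (hPs i) (ha i)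
  have s2 : ∀ i, SmoothFun (d := d) (fun x => Q i (a i x, b i x)) := fun i =>
    SmoothFun.comp2 (hQs i) (ha i) (hb i)
  have s1' : ∀ i, SmoothFun (d := d) (fun x => c i x * P1 i (a i x)) := fun i => (hc i).mul (s1 i)
  have s2' : ∀ i, SmoothFun (d := d) (fun x => c i x * Q i (a i x, b i x)) := fun i =>
    (hc i).mul (s2 i)
  have s2'' : ∀ i, SmoothFun (d := d) (fun x => (-1) * (c i x * Q i (a i x, b i x))) := fun i =>
    (SmoothFun.const (-1)).mul (s2' i)
  refine ⟨∑ i, (fdg (fun x => c i x * P1 i (a i x)) (b i) +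
      fdg (fun x => (-1) * (c i x * Q i (a i x, b i x))) (a i)),
    ∑ i, (dfdg (fun x => c i x * P1 i (a i x)) (b i) +
      dfdg (fun x => (-1) * (c i x * Q i (a i x, b i x))) (a i)), ?_, ?_⟩
  · exact Pair.sum _ fun i _ => Pair.add _ _ _ _ (Pair.gen _ _ (s1' i) (hb i))
      (Pair.gen _ _ (s2'' i) (ha i))
  · intro x hx
    let t : ι × Bool → ℝ := fun k => if k.2 then P1 k.1 (a k.1 x) else - Q k.1 (a k.1 x, b k.1 x)
    have ht : ∀ k, |t k| ≤ ε := by
      rintro ⟨i, k⟩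
      cases k
      · change |-Q i (a i x, b i x)| ≤ ε
        rw [abs_neg]; exact hQε i _
      · exact hPε i _
    have h1 := hpert x hx (hKD hx) t ht
    convert h1 using 1
    refine form_ext fun v w => ?_
    have h2 : ((∑ i, hdfdg (d := d) (c i) (a i) (b i)) + ∑ k, t k • e k) x ![v, w] =
        (∑ i, hdfdg (d := d) (c i) (a i) (b i)) x ![v, w] +
          (∑ k, t k • e k) x ![v, w] := rfl
    rw [h2, sum_apply2, sum_apply2, sum_apply2, Fintype.sum_prod_type, ← Finset.sum_add_distrib]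
    refine Finset.sum_congr rfl fun i _ => ?_
    rw [Fintype.sum_bool]
    have h3 : (t (i, true) • e (i, true)) x ![v, w] =
        P1 i (a i x) * (hdfdg (d := d) (fun _ => 1) (c i) (b i) x ![v, w]) := rfl
    have h4 : (t (i, false) • e (i, false)) x ![v, w] =
        (- Q i (a i x, b i x)) * (hdfdg (d := d) (fun _ => 1) (c i) (a i) x ![v, w]) := rfl
    have h5 : (dfdg (d := d) (fun x => c i x * P1 i (a i x)) (b i) +
        dfdg (fun x => (-1) * (c i x * Q i (a i x, b i x))) (a i) : Form d X 2) x ![v, w] =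
        dfdg (d := d) (fun x => c i x * P1 i (a i x)) (b i) x ![v, w] +
        dfdg (d := d) (fun x => (-1) * (c i x * Q i (a i x, b i x))) (a i) x ![v, w] := rfl
    rw [h3, h4, h5, hdfdg_apply, hdfdg_apply, hdfdg_apply, dfdg_apply, dfdg_apply,
      dd_mul (hc i) (s1 i), dd_mul (hc i) (s1 i), dd_comp1 (hPs i) (ha i),
      dd_comp1 (hPs i) (ha i), dd_mul (SmoothFun.const (-1)) (s2' i),
      dd_mul (SmoothFun.const (-1)) (s2' i), dd_mul (hc i) (s2 i), dd_mul (hc i) (s2 i),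
      dd_comp2 (hQs i) (ha i) (hb i), dd_comp2 (hQs i) (ha i) (hb i)]
    have h6 : ∀ w : TangentSpace (𝓡 d) x, dd (d := d) (fun _ : X => (-1 : ℝ)) x w = 0 := by
      intro w
      unfold dd
      rw [mfderiv_const]; rfl
    rw [h6, h6]
    have h7 : c i x * fderiv ℝ (Q i) (a i x, b i x) ((0, 1) : ℝ × ℝ) =
        c i x * (1 - deriv (P1 i) (a i x)) := by
      by_cases hcx : c i x = 0
      · rw [hcx, zero_mul, zero_mul]
      · have h8 := hPQ i (a i x, b i x) ⟨x, ⟨hx, hcM i x hcx⟩, rfl⟩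
        have h9 : fderiv ℝ (Q i) (a i x, b i x) ((0, 1) : ℝ × ℝ) = 1 - deriv (P1 i) (a i x) := by
          have h8' : deriv (P1 i) (a i x) +
            fderiv ℝ (Q i) (a i x, b i x) ((0, 1) : ℝ × ℝ) = 1 := h8
          linarith
        rw [h9]
    generalize fderiv ℝ (Q i) (a i x, b i x) ((0, 1) : ℝ × ℝ) = q at *
    generalize fderiv ℝ (Q i) (a i x, b i x) ((1, 0) : ℝ × ℝ) = r at *
    generalize dd (d := d) (a i) x v = av at *
    generalize dd (d := d) (a i) x w = aJ at *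
    generalize dd (d := d) (b i) x v = bv at *
    generalize dd (d := d) (b i) x w = bJ at *
    linear_combination ((av * bJ - aJ * bv)) * h7

theorem IsCone.cover [T2Space X] {σ : Form d X 2} {D : Set X} {P : PField d X}
    (hP : IsCone σ D P) {K : Set X} (hK : IsCompact K) (hKD : K ⊆ D)
    (hthin : ∀ z ∈ K, ThinP P K z) :
    ∃ (α : Form d X 1) (η : Form d X 2), Pair α η ∧ ∀ x ∈ K, P x (η x) := by
  classical
  have hG := Pool.Agent.Y484.SY.t_GEN
  have hchi : ∀ z ∈ K, ∃ (n : ℕ) (a b : Fin n → X → ℝ) (χ : X → ℝ) (M : Set X),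
      (∀ i, SmoothFun (d := d) (a i)) ∧ (∀ i, SmoothFun (d := d) (b i)) ∧
      SmoothFun (d := d) χ ∧ (∀ y, 0 ≤ χ y) ∧ 0 < χ z ∧ IsClosed M ∧ (∀ y, χ y ≠ 0 → y ∈ M) ∧
      (∀ i, volume ((fun x => (a i x, b i x)) '' (K ∩ M)) = 0) ∧
      ∀ y, χ y ≠ 0 → y ∈ D → P y ((∑ i, dfdg (a i) (b i) : Form d X 2) y) := by
    intro z hz
    obtain ⟨n, a, b, N, hNz, ha, hb, hnull, hposz⟩ := hthin z hz
    have hts : IsSmooth (∑ i, dfdg (d := d) (a i) (b i)) := by
      refine IsSmooth.sum _ fun i _ => ?_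
      have := (hG d X (fun _ => 1) (a i) (b i) (SmoothFun.const 1) (ha i) (hb i)).2.1
      have h2 : hdfdg (d := d) (fun _ => (1 : ℝ)) (a i) (b i) = dfdg (a i) (b i) := by
        funext x; exact one_smul ℝ _
      rwa [h2] at this
    have hnear := hP.nhds hts (hKD hz) hposz
    obtain ⟨f, hf⟩ := (SmoothBumpFunction.nhds_basis_support (I := 𝓡 d)
      (Filter.inter_mem hnear hNz)).ex_mem
    refine ⟨n, a, b, f, tsupport f, ha, hb, f.contMDiff, fun y => f.nonneg,
      by rw [f.eq_one]; exact one_pos, isClosed_tsupport f, fun y hy => subset_tsupport _ hy,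
      fun i => ?_, fun y hy => ?_⟩
    · refine measure_mono_null ?_ (hnull i)
      exact image_mono (inter_subset_inter_right _ (fun y hy => (hf hy).2))
    · exact (hf (subset_tsupport _ hy)).1
  choose! n a b χ M ha hb hχ hχ0 hχz hMc hχM hnull hχt using hchi
  obtain ⟨t, htK, htc⟩ := hK.elim_nhds_subcover (fun z => {y | z ∈ K → 0 < χ z y})
    (fun z hz => by
      have := (isOpen_lt continuous_const (hχ z hz).continuous).mem_nhds (hχz z hz)
      filter_upwards [this] with y hy _ using hy)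
  refine hP.core hK hKD (ι := Σ z : ↥t, Fin (n z))
    (fun i x => χ i.1 x) (fun i => a i.1 i.2) (fun i => b i.1 i.2) (fun i => M i.1)
    (fun i => hMc _ (htK _ i.1.2)) (fun i x h => hχM _ (htK _ i.1.2) x h)
    (fun i => hχ _ (htK _ i.1.2)) (fun i => ha _ (htK _ i.1.2) _) (fun i => hb _ (htK _ i.1.2) _)
    (fun i => hnull _ (htK _ i.1.2) _) ?_
  intro x hx
  have hform : (∑ i : Σ z : ↥t, Fin (n z),
      hdfdg (d := d) ((fun i x => χ i.1 x : (Σ z : ↥t, Fin (n z)) → X → ℝ) i)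
      (a i.1 i.2) (b i.1 i.2) : Form d X 2) x =
      ∑ z : ↥t, χ z x • (∑ i, dfdg (d := d) (a z i) (b z i) : Form d X 2) x := by
    rw [Finset.sum_apply, Fintype.sum_sigma]
    refine Finset.sum_congr rfl fun z _ => ?_
    rw [Finset.sum_apply, Finset.smul_sum]
    rfl
  rw [hform]
  obtain ⟨z, hzt, hz⟩ := mem_iUnion₂.1 (htc hx)
  have hz' : 0 < χ z x := hz (htK z hzt)
  exact hP.sum (hKD hx) Finset.univ (fun z : ↥t => χ z x) _ (fun z _ => hχ0 _ (htK _ z.2) _)
    (fun z _ h => hχt z (htK _ z.2) x h (hKD hx)) ⟨⟨z, hzt⟩, Finset.mem_univ _, hz'⟩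

end

end Pool.Agent.R772
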