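import Pool.Agent.R772.MainK

/-!
Densities of top degree forms, and quantitative positivity of the top power.
-/

set_option autoImplicit false

open Set Filter Topology MeasureTheory
open scoped Manifold ContDiff

noncomputable section

namespace Pool.Agent.R772

open Pool.Agent.Y501.SY

section

variable {d m : ℕ} {X : Type} [TopologicalSpace X] [ChartedSpace (E d) X]

open Classical in
/-- the quotient of a wedge product of two-forms and of the volume form -/
def dens (vol : Top d m X) (x : X)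
    (s : Fin (m + 1) → (TangentSpace (𝓡 d) x) [⋀^Fin 2]→L[ℝ] ℝ) : ℝ :=
  if h : ∃ f, 0 < vol x f then wedge s h.choose / vol x h.choose else 0

theorem dens_spec (hd : d = 2 * (m + 1)) {vol : Top d m X} (hvol : IsVol vol) (x : X)
    (s : Fin (m + 1) → (TangentSpace (𝓡 d) x) [⋀^Fin 2]→L[ℝ] ℝ)
    (e : Fin (m + 1) × Fin 2 → TangentSpace (𝓡 d) x) : wedge s e = dens vol x s * vol x e := by
  have h := hvol.frame x
  unfold dens
  rw [dif_pos h]
  have hfd := fin_tangent (d := d) x
  have h1 := wedge_mul (finrank_tangent hd x) s (vol x).toAlternatingMap e h.choose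
  have h2 : wedge s e * vol x h.choose = wedge s h.choose * vol x e := h1
  have h3 := h.choose_spec
  rw [div_mul_eq_mul_div, eq_div_iff h3.ne']
  exact h2

/-- the density of `σ ^ m ∧ η` -/
def md (vol : Top d m X) (σ η : Form d X 2) (x : X) : ℝ :=
  dens vol x (Fin.cons (η x) (fun _ : Fin m => σ x))

/-- the density of `σ ^ (m + 1)` -/
def td (vol : Top d m X) (σ : Form d X 2) (x : X) : ℝ :=
  dens vol x (fun _ : Fin (m + 1) => σ x)

theorem md_spec (hd : d = 2 * (m + 1)) {vol : Top d m X} (hvol : IsVol vol) (σ η : Form d X 2)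
    (x : X) (e : Fin (m + 1) × Fin 2 → TangentSpace (𝓡 d) x) :
    wedge (Fin.cons (η x) (fun _ : Fin m => σ x)) e = md vol σ η x * vol x e :=
  dens_spec hd hvol x _ e

theorem td_spec (hd : d = 2 * (m + 1)) {vol : Top d m X} (hvol : IsVol vol) (σ : Form d X 2)
    (x : X) (e : Fin (m + 1) × Fin 2 → TangentSpace (𝓡 d) x) :
    wedge (fun _ : Fin (m + 1) => σ x) e = td vol σ x * vol x e :=
  dens_spec hd hvol x _ e

theorem linPos_iff (hd : d = 2 * (m + 1)) {vol : Top d m X} (hvol : IsVol vol)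
    (σ η : Form d X 2) (x : X) : LinPos vol σ η x ↔ 0 < md vol σ η x := by
  obtain ⟨f, hf⟩ := hvol.frame x
  constructor
  · intro h
    have h1 := h f hf
    rw [md_spec hd hvol] at h1
    exact (pos_iff_pos_of_mul_pos h1).2 hf
  · intro h e he
    rw [md_spec hd hvol]
    exact mul_pos h he

theorem posTop_iff (hd : d = 2 * (m + 1)) {vol : Top d m X} (hvol : IsVol vol)
    (σ : Form d X 2) (x : X) : PosTop vol σ x ↔ 0 < td vol σ x := by
  obtain ⟨f, hf⟩ := hvol.frame x
  constructor
  · intro h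
    have h1 := h f hf
    rw [td_spec hd hvol] at h1
    exact (pos_iff_pos_of_mul_pos h1).2 hf
  · intro h e he
    rw [td_spec hd hvol]
    exact mul_pos h he

theorem md_add (hd : d = 2 * (m + 1)) {vol : Top d m X} (hvol : IsVol vol)
    (σ η θ : Form d X 2) (x : X) : md vol σ (η + θ) x = md vol σ η x + md vol σ θ x := by
  obtain ⟨f, hf⟩ := hvol.frame x
  have h1 := wedge_cons_add (m := m) (σ x) (η x) (θ x) f
  rw [md_spec hd hvol, md_spec hd hvol] at h1
  have h2 : wedge (Fin.cons (η x + θ x) (fun _ : Fin m => σ x)) f =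
    md vol σ (η + θ) x * vol x f := md_spec hd hvol σ (η + θ) x f
  rw [h2, ← add_mul] at h1
  exact mul_right_cancel₀ hf.ne' h1

theorem md_smul (hd : d = 2 * (m + 1)) {vol : Top d m X} (hvol : IsVol vol)
    (σ η : Form d X 2) (c : ℝ) (x : X) : md vol σ (c • η) x = c * md vol σ η x := by
  obtain ⟨f, hf⟩ := hvol.frame x
  have h1 := wedge_cons_smul (m := m) (σ x) (η x) c f
  rw [md_spec hd hvol] at h1
  have h2 : wedge (Fin.cons (c • η x) (fun _ : Fin m => σ x)) f =
    md vol σ (c • η) x * vol x f := md_spec hd hvol σ (c • η) x f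
  rw [h2, ← mul_assoc] at h1
  exact mul_right_cancel₀ hf.ne' h1

variable [IsManifold (𝓡 d) ∞ X]

theorem md_cont (hd : d = 2 * (m + 1)) {vol : Top d m X} (hvol : IsVol vol)
    {σ η : Form d X 2} (hσ : IsSmooth σ) (hη : IsSmooth η) : Continuous (md vol σ η) := by
  rw [continuous_iff_continuousAt]
  intro z
  obtain ⟨e, he⟩ := exists_frame hvol z
  set c := chartAt (E d) z with hc
  have hz : z ∈ c.source := mem_chart_source (E d) z
  have hp0 : c z ∈ c.target := c.map_source hz
  let F : E d → ℝ := fun p => wedge (Fin.cons (pb c.symm η p)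
    (fun _ : Fin m => pb c.symm σ p)) e / vol (c.symm p)
      (fun k => mfderiv (𝓡 d) (𝓡 d) c.symm p (e k))
  have hN : ContinuousOn (fun p => wedge (Fin.cons (pb c.symm η p)
    (fun _ : Fin m => pb c.symm σ p)) e) c.target := by
    refine continuous_wedge (s := fun p : E d => (Fin.cons (pb c.symm η p)
      (fun _ : Fin m => pb c.symm σ p) :
      Fin (m + 1) → (E d) [⋀^Fin 2]→L[ℝ] ℝ)) ?_ (fun _ => continuousOn_const)
    intro i
    refine Fin.cases ?_ (fun i => ?_) i
    · simp only [Fin.cons_zero]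
      exact IsSmooth.contChart hη z
    · simp only [Fin.cons_succ]
      exact IsSmooth.contChart hσ z
  have hF : ContinuousAt F (c z) :=
    (hN.continuousAt (c.open_target.mem_nhds hp0)).div
      ((hvol.cont z e).continuousAt (c.open_target.mem_nhds hp0)) he.self_of_nhds.2.ne'
  have h1 : ∀ᶠ y in 𝓝 z, md vol σ η y = F (c y) := by
    have h2 := (c.continuousAt hz).eventually he
    filter_upwards [h2, c.open_source.mem_nhds hz] with y hy hys
    change md vol σ η y = wedge (Fin.cons (pb c.symm η (c y))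
      (fun _ : Fin m => pb c.symm σ (c y))) e / vol (c.symm (c y))
        (fun k => mfderiv (𝓡 d) (𝓡 d) c.symm (c y) (e k))
    rw [eq_div_iff hy.2.ne', wedge_pb_cons, md_spec hd hvol, c.left_inv hys]
  have h3 : ContinuousAt (F ∘ c) z := ContinuousAt.comp (g := F) hF (c.continuousAt hz)
  exact h3.congr (h1.mono fun y hy => hy.symm)

/-- quantitative version of `PosTop.pert` -/
theorem top_quant (hd : d = 2 * (m + 1)) {vol : Top d m X} (hvol : IsVol vol)
    {σ η : Form d X 2} (hσ : IsSmooth σ) (hη : IsSmooth η) {x : X} (h : PosTop vol σ x) :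
    ∃ ε : ℝ, 0 < ε ∧ ∀ᶠ y in 𝓝 x, ∀ t : ℝ, 0 < t → t ≤ ε → ε * t ≤ td vol (σ + t • η) y := by
  obtain ⟨e, he⟩ := exists_frame hvol x
  set c := chartAt (E d) x with hc
  have hx : x ∈ c.source := mem_chart_source (E d) x
  have hp0 : c x ∈ c.target := c.map_source hx
  let N : E d × ℝ → ℝ := fun q => wedge
    (fun _ : Fin (m + 1) => pb c.symm σ q.1 + q.2 • pb c.symm η q.1) e
  let D : E d × ℝ → ℝ := fun q => vol (c.symm q.1)
      (fun k => mfderiv (𝓡 d) (𝓡 d) c.symm q.1 (e k))
  have hfst : ContinuousOn (fun q : E d × ℝ => q.1) (c.target ×ˢ univ) :=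
    continuous_fst.continuousOn
  have hmaps : MapsTo (fun q : E d × ℝ => q.1) (c.target ×ˢ univ) c.target :=
    fun q hq => hq.1
  have hN : ContinuousOn N (c.target ×ˢ univ) := by
    refine continuous_wedge (s := fun q : E d × ℝ =>
      (fun _ : Fin (m + 1) => pb c.symm σ q.1 + q.2 • pb c.symm η q.1)) ?_
      (fun _ => continuousOn_const)
    intro i
    refine ContinuousOn.add ((IsSmooth.contChart hσ x).comp hfst hmaps) ?_
    have h7 : ContinuousOn (fun q : E d × ℝ => q.2) (c.target ×ˢ univ) :=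
      continuous_snd.continuousOn
    exact h7.smul ((IsSmooth.contChart hη x).comp hfst hmaps)
  have hDc : ContinuousOn D (c.target ×ˢ univ) := (hvol.cont x e).comp hfst hmaps
  have hmem : c.target ×ˢ (univ : Set ℝ) ∈ 𝓝 (c x, (0 : ℝ)) :=
    (c.open_target.prod isOpen_univ).mem_nhds ⟨hp0, trivial⟩
  have hcont : ContinuousAt (fun q => N q / D q) (c x, (0 : ℝ)) :=
    (hN.continuousAt hmem).div (hDc.continuousAt hmem) he.self_of_nhds.2.ne'
  have hH0 : 0 < N (c x, 0) / D (c x, 0) := by
    refine div_pos ?_ he.self_of_nhds.2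
    have h1 : N (c x, 0) = wedge (fun _ : Fin (m + 1) => pb c.symm σ (c x)) e := by
      change wedge (fun _ : Fin (m + 1) => pb c.symm σ (c x) + (0 : ℝ) • pb c.symm η (c x)) e = _
      simp only [zero_smul, add_zero]
    rw [h1, wedge_pb c.symm (fun _ : Fin (m + 1) => σ)]
    have h2 : PosTop vol σ (c.symm (c x)) := by rw [c.left_inv hx]; exact h
    exact h2 _ he.self_of_nhds.2
  obtain ⟨δ, hδ0, hδ⟩ := exists_between hH0
  have hev := hcont.eventually (lt_mem_nhds hδ)
  rw [nhds_prod_eq, Filter.eventually_prod_iff] at hev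
  obtain ⟨p1, hp1, p2, hp2, hp⟩ := hev
  obtain ⟨ε, hε, hball⟩ := Metric.eventually_nhds_iff.1 hp2
  refine ⟨min (ε / 2) (min δ 1), by positivity, nhds_of_chart (d := d) x ?_⟩
  filter_upwards [hp1, he] with p hpp hpe t ht0 ht
  have hdist : dist t 0 < ε := by
    rw [dist_zero_right, Real.norm_eq_abs, abs_of_pos ht0]
    exact lt_of_le_of_lt (ht.trans (min_le_left _ _)) (half_lt_self hε)
  have h3 := hp hpp (hball hdist)
  have h5 : pb c.symm (σ + t • η) p = pb c.symm σ p + t • pb c.symm η p := by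
    rw [pb_add, Pi.add_apply]
    rfl
  have h4 := wedge_pb (n := m + 1) c.symm (fun _ => σ + t • η) p e
  rw [h5, td_spec hd hvol] at h4
  have h6 : N (p, t) / D (p, t) = td vol (σ + t • η) (c.symm p) := by
    rw [div_eq_iff hpe.2.ne']
    exact h4
  rw [← h6]
  refine le_trans ?_ h3.le
  calc min (ε / 2) (min δ 1) * t ≤ δ * 1 := by
        refine mul_le_mul ((min_le_right _ _).trans (min_le_left _ _))
          (ht.trans ((min_le_right _ _).trans (min_le_right _ _))) ht0.le hδ0.le
    _ = δ := mul_one _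

/-- quantitative version of `LinPos.top` -/
theorem lin_quant (hd : d = 2 * (m + 1)) {vol : Top d m X} (hvol : IsVol vol)
    {σ η : Form d X 2} (hσ : IsSmooth σ) (hη : IsSmooth η)
    (hnn : ∀ x, NonnegTop vol σ x) {x : X} (h : LinPos vol σ η x) :
    ∃ ε : ℝ, 0 < ε ∧ ∀ᶠ y in 𝓝 x, ∀ t : ℝ, 0 < t → t ≤ ε → ε * t ≤ td vol (σ + t • η) y := by
  obtain ⟨e, he⟩ := exists_frame hvol x
  set c := chartAt (E d) x with hc
  have hx : x ∈ c.source := mem_chart_source (E d) x
  have hp0 : c x ∈ c.target := c.map_source hx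
  let N : E d × ℝ → ℝ := fun q => wedge (Fin.cons (pb c.symm η q.1)
    (fun _ : Fin m => pb c.symm σ q.1 + q.2 • pb c.symm η q.1)) e
  let D : E d × ℝ → ℝ := fun q => vol (c.symm q.1)
      (fun k => mfderiv (𝓡 d) (𝓡 d) c.symm q.1 (e k))
  have hfst : ContinuousOn (fun q : E d × ℝ => q.1) (c.target ×ˢ univ) :=
    continuous_fst.continuousOn
  have hmaps : MapsTo (fun q : E d × ℝ => q.1) (c.target ×ˢ univ) c.target :=
    fun q hq => hq.1
  have hN : ContinuousOn N (c.target ×ˢ univ) := by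
    refine continuous_wedge (s := fun q : E d × ℝ => (Fin.cons (pb c.symm η q.1)
      (fun _ : Fin m => pb c.symm σ q.1 + q.2 • pb c.symm η q.1) :
      Fin (m + 1) → (E d) [⋀^Fin 2]→L[ℝ] ℝ)) ?_ (fun _ => continuousOn_const)
    intro i
    refine Fin.cases ?_ (fun i => ?_) i
    · simp only [Fin.cons_zero]
      exact (IsSmooth.contChart hη x).comp hfst hmaps
    · simp only [Fin.cons_succ]
      refine ContinuousOn.add ((IsSmooth.contChart hσ x).comp hfst hmaps) ?_
      have h7 : ContinuousOn (fun q : E d × ℝ => q.2) (c.target ×ˢ univ) :=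
        continuous_snd.continuousOn
      exact h7.smul ((IsSmooth.contChart hη x).comp hfst hmaps)
  have hDc : ContinuousOn D (c.target ×ˢ univ) := (hvol.cont x e).comp hfst hmaps
  have hmem : c.target ×ˢ (univ : Set ℝ) ∈ 𝓝 (c x, (0 : ℝ)) :=
    (c.open_target.prod isOpen_univ).mem_nhds ⟨hp0, trivial⟩
  have hcont : ContinuousAt (fun q => N q / D q) (c x, (0 : ℝ)) :=
    (hN.continuousAt hmem).div (hDc.continuousAt hmem) he.self_of_nhds.2.ne'
  have hH0 : 0 < N (c x, 0) / D (c x, 0) := by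
    refine div_pos ?_ he.self_of_nhds.2
    have h1 : N (c x, 0) = wedge (Fin.cons (pb c.symm η (c x))
        (fun _ : Fin m => pb c.symm σ (c x))) e := by
      change wedge (Fin.cons (pb c.symm η (c x))
        (fun _ : Fin m => pb c.symm σ (c x) + (0 : ℝ) • pb c.symm η (c x))) e = _
      simp only [zero_smul, add_zero]
    rw [h1, wedge_pb_cons]
    have h2 : LinPos vol σ η (c.symm (c x)) := by rw [c.left_inv hx]; exact h
    exact h2 _ he.self_of_nhds.2
  obtain ⟨δ, hδ0, hδ⟩ := exists_between hH0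
  have hev := hcont.eventually (lt_mem_nhds hδ)
  rw [nhds_prod_eq, Filter.eventually_prod_iff] at hev
  obtain ⟨p1, hp1, p2, hp2, hp⟩ := hev
  obtain ⟨ε, hε, hball⟩ := Metric.eventually_nhds_iff.1 hp2
  refine ⟨min (ε / 2) δ, by positivity, nhds_of_chart (d := d) x ?_⟩
  filter_upwards [hp1, he] with p hpp hpe t ht0 ht
  have hV : 0 < D (p, 0) := hpe.2
  have hpos : ∀ s : ℝ, 0 ≤ s → s ≤ ε / 2 → δ * D (p, 0) ≤ N (p, s) := by
    intro s hs0 hs
    have hdist : dist s 0 < ε := by
      rw [dist_zero_right, Real.norm_eq_abs, abs_of_nonneg hs0]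
      exact lt_of_le_of_lt hs (half_lt_self hε)
    have h3 : δ < N (p, s) / D (p, s) := hp hpp (hball hdist)
    have h4 : D (p, s) = D (p, 0) := rfl
    rw [h4, lt_div_iff₀ hV] at h3
    exact h3.le
  have h5 : pb c.symm (σ + t • η) p = pb c.symm σ p + t • pb c.symm η p := by
    rw [pb_add, Pi.add_apply]
    rfl
  have h4 := wedge_pb (n := m + 1) c.symm (fun _ => σ + t • η) p e
  rw [h5, td_spec hd hvol] at h4
  -- the mean value theorem
  have hder := fun s : ℝ => hasDerivAt_wedge (m := m) (pb c.symm σ p) (pb c.symm η p) e s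
  have hmvt := Convex.mul_sub_le_image_sub_of_le_deriv (convex_Icc (0 : ℝ) (ε / 2))
    (f := fun s : ℝ => wedge (fun _ : Fin (m + 1) => pb c.symm σ p + s • pb c.symm η p) e)
    (fun s _ => (hder s).continuousAt.continuousWithinAt)
    (fun s _ => (hder s).differentiableAt.differentiableWithinAt)
    (C := δ * D (p, 0)) (by
      intro s hs
      rw [interior_Icc] at hs
      rw [(hder s).deriv]
      have h6 := hpos s hs.1.le hs.2.le
      have h7 : 0 ≤ N (p, s) := le_trans (by positivity) h6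
      have hm : (0 : ℝ) ≤ m := by positivity
      have h8 : (m + 1 : ℝ) * N (p, s) = N (p, s) + m * N (p, s) := by ring
      change δ * D (p, 0) ≤ (m + 1 : ℝ) * N (p, s)
      rw [h8]
      have h9 : 0 ≤ m * N (p, s) := mul_nonneg hm h7
      linarith)
    0 (left_mem_Icc.2 (by positivity)) t ⟨ht0.le, ht.trans (min_le_left _ _)⟩ ht0.le
  have h7 : 0 ≤ wedge (fun _ : Fin (m + 1) => pb c.symm σ p + (0 : ℝ) • pb c.symm η p) e := by
    simp only [zero_smul, add_zero]
    rw [wedge_pb c.symm (fun _ : Fin (m + 1) => σ)]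
    exact hnn _ _ hpe.2
  have h8 : δ * D (p, 0) * (t - 0) ≤ td vol (σ + t • η) (c.symm p) * D (p, 0) := by
    refine hmvt.trans ?_
    have h9 : wedge (fun _ : Fin (m + 1) => pb c.symm σ p + t • pb c.symm η p) e =
      td vol (σ + t • η) (c.symm p) * D (p, 0) := h4
    rw [h9]
    linarith
  have h10 : δ * t * D (p, 0) ≤ td vol (σ + t • η) (c.symm p) * D (p, 0) := by
    have : δ * t * D (p, 0) = δ * D (p, 0) * (t - 0) := by ring
    rw [this]; exact h8
  have h11 := le_of_mul_le_mul_right h10 hV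
  refine le_trans ?_ h11
  exact mul_le_mul_of_nonneg_right (min_le_right _ _) ht0.le

/-- uniform quantitative positivity -/
theorem quant [CompactSpace X] (hd : d = 2 * (m + 1)) {vol : Top d m X} (hvol : IsVol vol)
    {σ η : Form d X 2} (hσ : IsSmooth σ) (hη : IsSmooth η)
    (hnn : ∀ x, NonnegTop vol σ x) (h : ∀ x, ¬ PosTop vol σ x → LinPos vol σ η x) :
    ∃ ε : ℝ, 0 < ε ∧ ∀ t : ℝ, 0 < t → t ≤ ε → ∀ x, ε * t ≤ td vol (σ + t • η) x := by
  obtain ⟨ε, hε, hh⟩ := unif isCompact_univ
    (fun ε y => ∀ t : ℝ, 0 < t → t ≤ ε → ε * t ≤ td vol (σ + t • η) y)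
    (fun ε ε' y hle hp t h0 h1 => le_trans (mul_le_mul_of_nonneg_right hle h0.le)
      (hp t h0 (h1.trans hle)))
    (by
      intro x _
      by_cases hx : PosTop vol σ x
      · exact top_quant hd hvol hσ hη hx
      · exact lin_quant hd hvol hσ hη hnn (h x hx))
  exact ⟨ε, hε, fun t h0 h1 x => hh x (mem_univ x) t h0 h1⟩

omit [IsManifold (𝓡 d) ∞ X] in
/-- the converse -/
theorem quant_conv (hd : d = 2 * (m + 1)) {vol : Top d m X} (hvol : IsVol vol)
    {σ η : Form d X 2} {x : X} (hx : td vol σ x = 0) {ε : ℝ} (hε : 0 < ε)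
    (h : ∀ t : ℝ, 0 < t → t ≤ ε → ε * t ≤ td vol (σ + t • η) x) : 0 < md vol σ η x := by
  obtain ⟨f, hf⟩ := hvol.frame x
  have hder := hasDerivAt_wedge (m := m) (σ x) (η x) f 0
  have hsl := hder.tendsto_slope_zero_right
  have h1 : ε * vol x f ≤ (m + 1 : ℝ) * wedge (Fin.cons (η x)
      (fun _ : Fin m => σ x + (0 : ℝ) • η x)) f := by
    refine ge_of_tendsto hsl ?_
    filter_upwards [Ioc_mem_nhdsGT hε] with t ht
    have h2 : wedge (fun _ : Fin (m + 1) => σ x + (0 + t) • η x) f =
        td vol (σ + t • η) x * vol x f := by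
      rw [zero_add]
      exact td_spec hd hvol (σ + t • η) x f
    have h3 : wedge (fun _ : Fin (m + 1) => σ x + (0 : ℝ) • η x) f = 0 := by
      simp only [zero_smul, add_zero]
      rw [td_spec hd hvol, hx, zero_mul]
    rw [h2, h3, sub_zero, smul_eq_mul]
    have h4 := h t ht.1 ht.2
    have h5 : t⁻¹ * (ε * t * vol x f) = ε * vol x f := by
      field_simp [ht.1.ne']
    rw [← h5]
    have h6 : 0 < t⁻¹ := inv_pos.2 ht.1
    gcongr
  simp only [zero_smul, add_zero] at h1
  rw [md_spec hd hvol] at h1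
  have hm : (0 : ℝ) < m + 1 := by positivity
  have h2 : 0 < (m + 1 : ℝ) * (md vol σ η x * vol x f) := lt_of_lt_of_le (mul_pos hε hf) h1
  have h3 : 0 < md vol σ η x * vol x f := (pos_iff_pos_of_mul_pos h2).1 hm
  exact (pos_iff_pos_of_mul_pos h3).2 hf

end

end Pool.Agent.R772
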