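import Pool.Agent.R772.Dens

/-!
The theorem of Hahn and Banach for exact forms which are positive over a compact set.
-/

set_option autoImplicit false

open Set Filter Topology MeasureTheory
open scoped Manifold ContDiff

noncomputable section

namespace Pool.Agent.R772

/-- separation of an affine space of functions from the positive functions -/
theorem sep {K : Type} [TopologicalSpace K] [CompactSpace K] (S : Submodule ℝ C(K, ℝ))
    (z : C(K, ℝ)) (h : ∀ f ∈ S, ¬ ∀ x, 0 < z x + f x) :
    ∃ Λ : C(K, ℝ) →L[ℝ] ℝ, (∀ f : C(K, ℝ), (∀ x, 0 ≤ f x) → 0 ≤ Λ f) ∧ Λ ≠ 0 ∧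
      (∀ f ∈ S, Λ f = 0) ∧ Λ z ≤ 0 := by
  let P : Set C(K, ℝ) := {f | ∀ x, 0 < f x}
  have hP1 : Convex ℝ P := by
    intro f hf g hg a b ha hb hab x
    change 0 < a * f x + b * g x
    have h1 := hf x
    have h2 := hg x
    rcases ha.eq_or_lt with h0 | h0
    · have hb1 : b = 1 := by linarith
      rw [← h0, hb1]; linarith
    · have := mul_pos h0 h1
      have h3 := mul_nonneg hb h2.le
      linarith
  have hP2 : IsOpen P := by
    have h1 : P = {f : C(K, ℝ) | MapsTo f univ (Ioi 0)} := by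
      ext f
      exact ⟨fun hf x _ => hf x, fun hf x => hf (mem_univ x)⟩
    rw [h1]
    exact ContinuousMap.isOpen_setOfPred_mapsTo isCompact_univ isOpen_Ioi
  let A : Set C(K, ℝ) := {g | ∃ f ∈ S, g = z + f}
  have hA : Convex ℝ A := by
    rintro _ ⟨f, hf, rfl⟩ _ ⟨g, hg, rfl⟩ a b _ _ hab
    refine ⟨a • f + b • g, S.add_mem (S.smul_mem a hf) (S.smul_mem b hg), ?_⟩
    have h1 : a • z + b • z = z := by rw [← add_smul, hab, one_smul]
    rw [smul_add, smul_add]
    calc a • z + a • f + (b • z + b • g) = (a • z + b • z) + (a • f + b • g) := by abel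
      _ = _ := by rw [h1]
  have hPA : Disjoint P A := by
    rw [Set.disjoint_left]
    rintro _ hf ⟨f, hfS, rfl⟩
    exact h f hfS hf
  obtain ⟨F, u, hF1, hF2⟩ := geometric_hahn_banach_open hP1 hP2 hA hPA
  have hone : (1 : C(K, ℝ)) ∈ P := fun x => one_pos
  have hle : ∀ f ∈ P, F f ≤ 0 := by
    intro f hf
    by_contra hcon
    push Not at hcon
    obtain ⟨n, hn⟩ := exists_nat_gt (|u| / F f)
    have hn0 : (0 : ℝ) < n := lt_of_le_of_lt (by positivity) hn
    have h1 : ((n : ℝ) • f) ∈ P := fun x => mul_pos hn0 (hf x)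
    have h2 := hF1 _ h1
    rw [map_smul, smul_eq_mul] at h2
    rw [div_lt_iff₀ hcon] at hn
    have := le_abs_self u
    linarith
  have hu : 0 ≤ u := by
    by_contra hcon
    push Not at hcon
    have h0 := hle 1 hone
    -- choose a small multiple of one
    have h1 : ∃ ε : ℝ, 0 < ε ∧ u ≤ ε * F 1 := by
      refine ⟨(-u) / (|F 1| + 1), div_pos (by linarith) (by positivity), ?_⟩
      have h2 : |F 1| = - F 1 := abs_of_nonpos h0
      have h3 : (0 : ℝ) < |F 1| + 1 := by positivity
      rw [div_mul_eq_mul_div, le_div_iff₀ h3]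
      rw [h2] at h3 ⊢
      nlinarith
    obtain ⟨ε, hε, hεu⟩ := h1
    have h2 := hF1 (ε • 1) (fun x => mul_pos hε one_pos)
    rw [map_smul, smul_eq_mul] at h2
    linarith
  have hSz : ∀ f ∈ S, F f = 0 := by
    intro f hf
    by_contra hne
    have h1 : ∀ c : ℝ, u ≤ F z + c * F f := by
      intro c
      have := hF2 (z + c • f) ⟨c • f, S.smul_mem c hf, rfl⟩
      rwa [map_add, map_smul, smul_eq_mul] at this
    have h2 := h1 ((u - 1 - F z) / F f)
    rw [div_mul_cancel₀ _ hne] at h2
    linarith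
  refine ⟨-F, fun f hf => ?_, fun h0 => ?_, fun f hf => ?_, ?_⟩
  · change 0 ≤ -(F f)
    have h1 : ∀ ε : ℝ, 0 < ε → F f + ε * F 1 ≤ 0 := by
      intro ε hε
      have h2 : f + ε • (1 : C(K, ℝ)) ∈ P := by
        intro x
        change 0 < f x + ε * 1
        have := hf x
        linarith
      have h3 := hle _ h2
      rwa [map_add, map_smul, smul_eq_mul] at h3
    have h2 : Tendsto (fun ε : ℝ => F f + ε * F 1) (𝓝[>] 0) (𝓝 (F f + 0 * F 1)) := by
      refine Tendsto.mono_left ?_ nhdsWithin_le_nhds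
      exact (continuous_const.add (continuous_id.mul continuous_const)).tendsto 0
    have h3 : F f + 0 * F 1 ≤ 0 := by
      refine le_of_tendsto h2 ?_
      filter_upwards [self_mem_nhdsWithin] with ε hε
      exact h1 ε hε
    linarith
  · have hF0 : F = 0 := neg_eq_zero.1 h0
    have h1 := hF1 1 hone
    have h2 := hF2 (z + 0) ⟨0, S.zero_mem, rfl⟩
    rw [hF0] at h1 h2
    have h3 : (0 : ℝ) < u := h1
    have h4 : u ≤ 0 := h2
    linarith
  · change -(F f) = 0
    rw [hSz f hf, neg_zero]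
  · change -(F z) ≤ 0
    have h2 := hF2 (z + 0) ⟨0, S.zero_mem, rfl⟩
    rw [add_zero] at h2
    linarith

/-- positive functionals are measures -/
theorem exists_measure {K : Type} [TopologicalSpace K] [CompactSpace K] [T2Space K]
    [MeasurableSpace K] [BorelSpace K] (Λ : C(K, ℝ) →L[ℝ] ℝ)
    (hΛ : ∀ f : C(K, ℝ), (∀ x, 0 ≤ f x) → 0 ≤ Λ f) :
    ∃ ν : Measure K, IsFiniteMeasure ν ∧ ∀ f : C(K, ℝ), ∫ x, f x ∂ν = Λ f := by
  let L : CompactlySupportedContinuousMap K ℝ →ₗ[ℝ] ℝ :=
    { toFun := fun f => Λ f.toContinuousMap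
      map_add' := fun f g => by
        have : (f + g).toContinuousMap = f.toContinuousMap + g.toContinuousMap := rfl
        rw [this, map_add]
      map_smul' := fun c f => by
        have : (c • f).toContinuousMap = c • f.toContinuousMap := rfl
        rw [this, map_smul]; rfl }
  let L' : CompactlySupportedContinuousMap K ℝ →ₚ[ℝ] ℝ := PositiveLinearMap.mk₀ L (by
    intro f hf
    exact hΛ _ (fun x => hf x))
  refine ⟨RealRMK.rieszMeasure L', inferInstance, fun f => ?_⟩
  exact RealRMK.integral_rieszMeasure L'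
    (⟨f, HasCompactSupport.of_compactSpace f⟩ : CompactlySupportedContinuousMap K ℝ)

/-- the separation theorem in terms of measures on a compact subset -/
theorem sep_measure {X : Type} [TopologicalSpace X] [T2Space X] [MeasurableSpace X]
    [BorelSpace X] {K : Set X} (hK : IsCompact K) (S : Submodule ℝ (X → ℝ))
    (hS : ∀ f ∈ S, Continuous f) (z : X → ℝ) (hz : Continuous z)
    (h : ∀ f ∈ S, ¬ ∀ x ∈ K, 0 < z x + f x) :
    ∃ μ : Measure X, IsFiniteMeasure μ ∧ μ ≠ 0 ∧ μ Kᶜ = 0 ∧ (∀ f ∈ S, ∫ x, f x ∂μ = 0) ∧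
      ∫ x, z x ∂μ ≤ 0 := by
  have hKc : CompactSpace K := isCompact_iff_compactSpace.1 hK
  let S' : Submodule ℝ C(K, ℝ) :=
    { carrier := {g | ∃ f ∈ S, ∀ x : K, g x = f x}
      add_mem' := by
        rintro a b ⟨f, hf, h1⟩ ⟨g, hg, h2⟩
        exact ⟨f + g, S.add_mem hf hg, fun x => by
          change a x + b x = f x + g x
          rw [h1, h2]⟩
      zero_mem' := ⟨0, S.zero_mem, fun x => rfl⟩
      smul_mem' := by
        rintro c a ⟨f, hf, h1⟩
        exact ⟨c • f, S.smul_mem c hf, fun x => by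
          change c * a x = c * f x
          rw [h1]⟩ }
  obtain ⟨Λ, h1, h2, h3, h4⟩ := sep (K := K) S' ⟨fun x => z x, hz.comp continuous_subtype_val⟩ (by
    rintro g ⟨f, hf, hgf⟩ hpos
    refine h f hf fun x hx => ?_
    have := hpos ⟨x, hx⟩
    rw [hgf] at this
    exact this)
  obtain ⟨ν, hν, hint⟩ := exists_measure Λ h1
  have hval : Measurable (Subtype.val : K → X) := measurable_subtype_coe
  have hmap : ∀ f : X → ℝ, Continuous f → ∫ x, f x ∂(ν.map Subtype.val) = ∫ x : K, f x ∂ν :=
    fun f hf => integral_map hval.aemeasurable hf.aestronglyMeasurable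
  refine ⟨ν.map Subtype.val, Measure.isFiniteMeasure_map ν _, fun h0 => ?_, ?_, fun f hf => ?_, ?_⟩
  · apply h2
    have hν0 : ν = 0 := (Measure.map_eq_zero_iff hval.aemeasurable).1 h0
    ext f
    rw [← hint f, hν0, integral_zero_measure]
    rfl
  · rw [Measure.map_apply hval hK.isClosed.isOpen_compl.measurableSet]
    have : (Subtype.val : K → X) ⁻¹' Kᶜ = ∅ := by
      ext x
      simp
    rw [this, measure_empty]
  · rw [hmap f (hS f hf)]
    have := hint ⟨fun x => f x, (hS f hf).comp continuous_subtype_val⟩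
    rw [h3 _ ⟨f, hf, fun x => rfl⟩] at this
    exact this
  · rw [hmap z hz]
    have := hint ⟨fun x => z x, hz.comp continuous_subtype_val⟩
    exact this.trans_le h4

end Pool.Agent.R772
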