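import Pool.Agent.R772.LI9
import Pool.Agent.TH340.FF.En2

/-!
Two-sided form bounds from local decompositions.
-/

set_option autoImplicit false

open MeasureTheory Set Filter Topology
open scoped InnerProductSpace ContDiff ENNReal

namespace Pool.Agent.R772.EE

open H772R2.NS Pool.Agent.TH340.FF Pool.Agent.R462.HC Pool.Agent.R772.LI

variable {Ω : Set E3}

theorem qt_half' {ν c β R : ℝ} {U : L2V Ω} {x : E3}
    (h : Qt Ω (Metric.ball x R) ν c β U) : Qt Ω (Metric.ball x (2 * (R / 2))) ν c β U := by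
  have e : 2 * (R / 2) = R := by ring
  rw [e]
  exact h

theorem DD_const (a : ℝ) (x : E3) : DD (fun _ => a) x = 0 := by
  unfold DD
  simp

/-- the form inequality with balls of the same radius -/
theorem form_all (hΩ : MeasurableSet Ω) {ν β ρ : ℝ} (hν : 0 < ν) (hρ : 0 < ρ)
    (hβ0 : 0 ≤ β) {U : L2V Ω} {G : L2M Ω} (hU : (U, G) ∈ graphW Ω)
    (hQ : ∀ x ∈ Ω, Qt Ω (Metric.ball x ρ) ν 1 β U) {p : L2V Ω × L2M Ω} (hpW : p ∈ graphW Ω) :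
    -⟪tensL p.1, G⟫_ℝ ≤ 2 * ν * ‖p.2‖ ^ 2 + (β + 64 * ν * C0 / ρ ^ 2) * ‖p.1‖ ^ 2 := by
  have key := graphW_le (fun p => -⟪tensL p.1, G⟫_ℝ - 2 * ν * ‖p.2‖ ^ 2
    - (β + 64 * ν * C0 / ρ ^ 2) * ‖p.1‖ ^ 2) (form_cont hΩ G _ _) (fun q hq => ?_) hpW
  · linarith
  have hqW := preW_le hq
  obtain ⟨φ, h1, h2, h3⟩ := hq
  have n1 : ‖q.1‖ ^ 2 = ∫ x, NN φ x := norm_test1 h1 h2
  have n2 : ‖q.2‖ ^ 2 = ∫ x, JJ φ x := norm_test2 h1 h3
  have eG : ⟪tensL q.1, G⟫_ℝ = ∫ x in Ω, (fun _ : E3 => (1 : ℝ)) x ^ 2 * ⟪G x, tens (φ x)⟫_ℝ := by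
    rw [real_inner_comm, L2.inner_def]
    refine integral_congr_ae ?_
    filter_upwards [tensL_coe hΩ hqW, h2] with x a b
    rw [a, b]
    simp
  have g1 := form_avg hΩ (c := 1) (η := 1) (O := univ) (ρ := ρ / 2) hν (half_pos hρ) zero_le_one
    le_rfl hβ0 hU (fun x hx => qt_half' (hQ x hx.1)) (ζ := fun _ => 1) contDiff_const
    (subset_univ _) one_pos le_rfl h1
  rw [← eG] at g1
  have e1 : ∫ x, (fun _ : E3 => (1 : ℝ)) x ^ 2 * JJ φ x = ∫ x, JJ φ x :=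
    integral_congr_ae (Eventually.of_forall fun x => by simp)
  have e2 : ∫ x, (fun _ : E3 => (1 : ℝ)) x ^ 2 * NN φ x = ∫ x, NN φ x :=
    integral_congr_ae (Eventually.of_forall fun x => by simp)
  have e3 : ∫ x, DD (fun _ : E3 => (1 : ℝ)) x * NN φ x = 0 := by
    simp [DD_const]
  rw [e1, e2, e3] at g1
  show -⟪tensL q.1, G⟫_ℝ - 2 * ν * ‖q.2‖ ^ 2 - (β + 64 * ν * C0 / ρ ^ 2) * ‖q.1‖ ^ 2 ≤ 0
  rw [n1, n2]
  have e4 : 16 / 1 * ν * (0 + C0 * (ρ / 2)⁻¹ ^ 2 * ∫ x, NN φ x)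
      = 64 * ν * C0 / ρ ^ 2 * ∫ x, NN φ x := by
    field_simp
    ring
  rw [e4] at g1
  linarith

/-- local decompositions with a bound of both signs -/
def Tm (Ω V : Set E3) (K β : ℝ) (U : L2V Ω) : Prop :=
  ∃ (w : L2V Ω) (z : L2M Ω) (ψ : E3 → E3) (W : E3 → ℝ),
    (w, z) ∈ graphW Ω ∧ ContDiff ℝ ∞ ψ ∧ FB (Ω ∩ V) W ∧
    (∀ Φ : E3 → E3, ContDiff ℝ ∞ Φ → HasCompactSupport Φ → tsupport Φ ⊆ Ω ∩ V →
      |∫ x in Ω, (⟪z x, tens (Φ x)⟫_ℝ + ⟪fderiv ℝ ψ x (Φ x), Φ x⟫_ℝ)|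
        ≤ K * (∫ x, JJ Φ x) + β * ∫ x, NN Φ x) ∧
    (∀ᵐ x ∂(volume.restrict (Ω ∩ V)), ‖U x - w x - ψ x‖ ^ 2 ≤ K ^ 2 * W x + K * β)

theorem Tm.qt {V : Set E3} {K β : ℝ} (hK : 0 < K) (hβ : 0 ≤ β) {U : L2V Ω} (h : Tm Ω V K β U) :
    Qt Ω V (3 * K) 1 (3 / 2 * β) U := by
  obtain ⟨w, z, ψ, W, k1, k2, k3, k4, k5⟩ := h
  refine ⟨w, z, ψ, W, 1 / 3, 1 / 3, 1 / 3, β, β / 2, k1, k2, k3, by norm_num, by norm_num, hβ,
    by positivity, by norm_num, by linarith, fun Φ h1 h2 h3 => ?_, ?_⟩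
  · have h4 := k4 Φ h1 h2 h3
    have h5 := neg_le_abs (∫ x in Ω, (⟪z x, tens (Φ x)⟫_ℝ + ⟪fderiv ℝ ψ x (Φ x), Φ x⟫_ℝ))
    have e : 1 / 3 * (3 * K) = K := by ring
    rw [e]
    linarith
  · filter_upwards [k5] with x hx
    refine hx.trans (le_of_eq ?_)
    ring

theorem Tm.neg (hΩ : MeasurableSet Ω) {V : Set E3} {K β : ℝ} {U : L2V Ω} (h : Tm Ω V K β U) :
    Tm Ω V K β (-U) := by
  obtain ⟨w, z, ψ, W, k1, k2, k3, k4, k5⟩ := h
  refine ⟨-w, -z, fun x => -ψ x, W, (graphW Ω).neg_mem k1, k2.neg, k3, fun Φ h1 h2 h3 => ?_, ?_⟩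
  · have h4 := k4 Φ h1 h2 h3
    have e : ∫ x in Ω, (⟪(-z : L2M Ω) x, tens (Φ x)⟫_ℝ + ⟪fderiv ℝ (fun x => -ψ x) x (Φ x), Φ x⟫_ℝ)
        = -∫ x in Ω, (⟪z x, tens (Φ x)⟫_ℝ + ⟪fderiv ℝ ψ x (Φ x), Φ x⟫_ℝ) := by
      rw [← integral_neg]
      refine integral_congr_ae ?_
      filter_upwards [Lp.coeFn_neg z] with x hx
      rw [hx, Pi.neg_apply, inner_neg_left, fderiv_fun_neg]
      simp only [ContinuousLinearMap.neg_apply, inner_neg_left]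
      ring
    rw [e, abs_neg]
    exact h4
  · have n1 : ∀ᵐ x ∂(volume.restrict (Ω ∩ V)), (-U : L2V Ω) x = -(U x) :=
      ae_mono (Measure.restrict_mono inter_subset_left le_rfl) (Lp.coeFn_neg U)
    have n2 : ∀ᵐ x ∂(volume.restrict (Ω ∩ V)), (-w : L2V Ω) x = -(w x) :=
      ae_mono (Measure.restrict_mono inter_subset_left le_rfl) (Lp.coeFn_neg w)
    filter_upwards [k5, n1, n2] with x hx a b
    rw [a, b]
    have e : -(U x) - -(w x) - -ψ x = -(U x - w x - ψ x) := by abel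
    rw [e, norm_neg]
    exact hx

/-- **The two-sided form bound.** -/
theorem form_two (hΩ : MeasurableSet Ω) {K β ρ : ℝ} (hK : 0 < K) (hρ : 0 < ρ)
    (hβ : 0 ≤ β) {U : L2V Ω} {G : L2M Ω} (hU : (U, G) ∈ graphW Ω)
    (hQ : ∀ x ∈ Ω, Tm Ω (Metric.ball x ρ) K β U) {p : L2V Ω × L2M Ω} (hpW : p ∈ graphW Ω) :
    |⟪tensL p.1, G⟫_ℝ| ≤ 6 * K * ‖p.2‖ ^ 2
      + (3 / 2 * β + 192 * K * C0 / ρ ^ 2) * ‖p.1‖ ^ 2 := by
  have h1 := form_all hΩ (ν := 3 * K) (β := 3 / 2 * β) (by positivity) hρ (by positivity) hU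
    (fun x hx => (hQ x hx).qt hK hβ) hpW
  have hUn : (-U, -G) ∈ graphW Ω := (graphW Ω).neg_mem hU
  have h2 := form_all hΩ (ν := 3 * K) (β := 3 / 2 * β) (by positivity) hρ (by positivity) hUn
    (fun x hx => ((hQ x hx).neg hΩ).qt hK hβ) hpW
  rw [inner_neg_right, neg_neg] at h2
  have e1 : 2 * (3 * K) * ‖p.2‖ ^ 2 + (3 / 2 * β + 64 * (3 * K) * C0 / ρ ^ 2) * ‖p.1‖ ^ 2
      = 6 * K * ‖p.2‖ ^ 2 + (3 / 2 * β + 192 * K * C0 / ρ ^ 2) * ‖p.1‖ ^ 2 := by ring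
  rw [e1] at h1 h2
  exact abs_le.2 ⟨by linarith, h2⟩

/-! ### trace -/

/-- the map `m ↦ (tr m) I` -/
noncomputable def trId : M3 →L[ℝ] M3 :=
  LinearMap.toContinuousLinearMap
    { toFun := fun m => WithLp.toLp 2 fun r : Fin 3 × Fin 3 =>
        if r.1 = r.2 then ∑ i, m (i, i) else 0
      map_add' := fun a b => by
        refine PiLp.ext fun r => ?_
        simp only [PiLp.add_apply]
        split_ifs
        · exact Finset.sum_add_distrib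
        · simp
      map_smul' := fun c a => by
        refine PiLp.ext fun r => ?_
        simp only [PiLp.smul_apply, smul_eq_mul, RingHom.id_apply]
        split_ifs
        · exact (Finset.mul_sum _ _ _).symm
        · simp }

theorem trId_inner (a b : M3) : ⟪trId a, b⟫_ℝ = (∑ i, a (i, i)) * ∑ i, b (i, i) := by
  rw [inner_M3]
  have e : ∀ i j, trId a (i, j) = if i = j then ∑ k, a (k, k) else 0 := fun i j => rfl
  simp_rw [e]
  simp [Finset.mul_sum]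

theorem trace_zero {v : L2V Ω} {z : L2M Ω} (h : (v, z) ∈ graphW Ω) :
    ∀ᵐ x ∂(volume.restrict Ω), ∑ i, z x (i, i) = 0 := by
  have key := graphW_induction (Ω := Ω) (fun p => ⟪trId.compLp z, p.2⟫_ℝ) (by fun_prop)
    (fun r hr => ?_) h
  · simp only at key
    rw [L2.inner_def] at key
    have e : ∀ᵐ x ∂(volume.restrict Ω), ⟪(trId.compLp z) x, z x⟫_ℝ = (∑ i, z x (i, i)) ^ 2 := by
      filter_upwards [trId.coeFn_compLp z] with x hx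
      rw [hx, trId_inner]
      ring
    have hi := L2.integrable_inner (𝕜 := ℝ) (trId.compLp z) z
    have h0 : (fun x => ⟪(trId.compLp z) x, z x⟫_ℝ) =ᵐ[volume.restrict Ω] 0 := by
      refine (integral_eq_zero_iff_of_nonneg_ae ?_ hi).1 key
      filter_upwards [e] with x hx
      rw [hx]
      exact sq_nonneg _
    filter_upwards [e, h0] with x a b
    rw [a] at b
    exact pow_eq_zero_iff (two_ne_zero) |>.1 b
  obtain ⟨φ, h1, h2, h3⟩ := hr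
  show ⟪trId.compLp z, r.2⟫_ℝ = 0
  rw [L2.inner_def]
  refine (integral_congr_ae ?_).trans (integral_zero _ _)
  filter_upwards [trId.coeFn_compLp z, h3] with x a b
  rw [a, b, trId_inner]
  have := h1.divfree x
  rw [this, mul_zero]

/-- for matrices with trace zero a lower bound of the form is an upper bound -/
theorem flip {W : M3} (h0 : ∑ i, W (i, i) = 0) {l : ℝ}
    (h : ∀ ξ : E3, -(l * ‖ξ‖ ^ 2) ≤ ⟪W, tens ξ⟫_ℝ) (ξ : E3) :
    ⟪W, tens ξ⟫_ℝ ≤ 2 * l * ‖ξ‖ ^ 2 := by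
  have a1 := h (WithLp.toLp 2 ![0, ξ 2, -ξ 1])
  have a2 := h (WithLp.toLp 2 ![-ξ 2, 0, ξ 0])
  have a3 := h (WithLp.toLp 2 ![ξ 1, -ξ 0, 0])
  rw [norm_sq_E3, inner_M3] at a1 a2 a3
  rw [norm_sq_E3, inner_M3]
  simp only [Fin.sum_univ_three, tens_apply] at a1 a2 a3 h0 ⊢
  simp at a1 a2 a3
  have h2 : W (2, 2) = -W (0, 0) - W (1, 1) := by linarith
  rw [h2] at a1 a2 ⊢
  linarith

end Pool.Agent.R772.EE
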