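import Pool.Agent.R772.PubLI

/-!
Public definitions: velocity fields with a local decomposition.
-/

set_option autoImplicit false

open MeasureTheory Set
open scoped InnerProductSpace ContDiff

namespace Pool.Agent.R772.EE

open H772R2.NS.Pub Pool.Agent.R462.HC Pool.Agent.R772.LI
open Pool.Agent.W795.ES (outer)

/-- In `V` the velocity field `u` (in `Ω`) is a sum `u = (w + ψ) + v` such that
* `w ∈ H¹_{0,σ}(Ω)` with the gradient `z`, `ψ` is a smooth vector field on `ℝ³`, and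
  `|∫_Ω φ·∇(w + ψ) φ| ≤ K ∫ |∇φ|² + β ∫ |φ|²` for all smooth vector fields `φ` with compact
  support in `Ω ∩ V`;
* `|v(x)|² ≤ K² W(x) + K β` for almost every `x ∈ Ω ∩ V`, where `W` is form bounded in `Ω ∩ V`
  with the bound one. -/
def Tempered {Ω : Set R3} (V : Set R3) (K β : ℝ) (u : L2 Ω R3) : Prop :=
  ∃ (w : L2 Ω R3) (z : L2 Ω Mat) (ψ : R3 → R3) (W : R3 → ℝ),
    (w, z) ∈ H1graph Ω ∧ ContDiff ℝ ∞ ψ ∧ FormBdd (Ω ∩ V) W ∧
    (∀ φ : R3 → R3, ContDiff ℝ ∞ φ → HasCompactSupport φ → tsupport φ ⊆ Ω ∩ V →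
      |∫ x in Ω, (⟪z.fn x, outer (φ x)⟫_ℝ + ⟪fderiv ℝ ψ x (φ x), φ x⟫_ℝ)|
        ≤ K * (∫ x, ‖jac φ x‖ ^ 2) + β * ∫ x, ‖φ x‖ ^ 2) ∧
    (∀ᵐ x ∂(volume.restrict (Ω ∩ V)), ‖u.fn x - w.fn x - ψ x‖ ^ 2 ≤ K ^ 2 * W x + K * β)

/-- In `V` one of the following holds, for some point `y ∈ ℝ³`:
* the compression is at most `K / |x - y|² + β`, that is, `ξ·G(x) ξ ≥ -(K / |x - y|² + β) |ξ|²`;
* the stretching is at most `K / |x - y|² + β`, that is, `ξ·G(x) ξ ≤ (K / |x - y|² + β) |ξ|²`;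
* `|u(x) - (a + A x)| ≤ K / |x - y| + √(K β)` for some rigid motion `a + A x`;
* `u` has a decomposition as in `Tempered`. -/
def LocallyControlled {Ω : Set R3} (V : Set R3) (K β : ℝ) (u : L2 Ω R3) (G : L2 Ω Mat) : Prop :=
  SlowStrainIn V K β G ∨ SlowStrainIn V K β (-G) ∨ SlowVelocityIn V K (Real.sqrt (K * β)) u ∨
    Tempered V K β u

end Pool.Agent.R772.EE
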