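import Pool.Agent.R772.EE1
import Pool.Agent.R772.PubEE

/-!
Explicit local conditions, and the energy equality.
-/

set_option autoImplicit false

open MeasureTheory Set Filter Topology
open scoped InnerProductSpace ENNReal ContDiff

namespace Pool.Agent.R772.EE

section inner

open H772R2.NS Pool.Agent.TH340.FF Pool.Agent.R462.HC Pool.Agent.R772.LI

variable {Ω V : Set E3}

/-- a two-sided pointwise bound -/
theorem form_abs_pt (hΩ : MeasurableSet Ω) {z : L2M Ω} {ψ : E3 → E3}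
    {W : E3 → ℝ} (hW : FB (Ω ∩ V) W) {a b : ℝ} (ha : 0 ≤ a) (hb : 0 ≤ b)
    (hpt : ∀ᵐ x ∂(volume.restrict (Ω ∩ V)), ∀ ξ : E3,
      |⟪z x, tens ξ⟫_ℝ + ⟪fderiv ℝ ψ x ξ, ξ⟫_ℝ| ≤ (a * W x + b) * ‖ξ‖ ^ 2)
    {Φ : E3 → E3} (h1 : ContDiff ℝ ∞ Φ) (h2 : HasCompactSupport Φ) (h3 : tsupport Φ ⊆ Ω ∩ V) :
    |∫ x in Ω, (⟪z x, tens (Φ x)⟫_ℝ + ⟪fderiv ℝ ψ x (Φ x), Φ x⟫_ℝ)|
      ≤ a * (∫ x, JJ Φ x) + b * ∫ x, NN Φ x := by
  have e1 := form_of_pt hΩ (z := z) (ψ := ψ) hW ha hb (by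
    filter_upwards [hpt] with x hx ξ
    exact (neg_le_abs _).trans (hx ξ)) h1 h2 h3
  have e2 := form_of_pt hΩ (z := -z) (ψ := fun x => -ψ x) hW ha hb (by
    have n1 : ∀ᵐ x ∂(volume.restrict (Ω ∩ V)), (-z : L2M Ω) x = -(z x) :=
      ae_mono (Measure.restrict_mono inter_subset_left le_rfl) (Lp.coeFn_neg z)
    filter_upwards [hpt, n1] with x hx a ξ
    rw [a, inner_neg_left, fderiv_fun_neg]
    simp only [neg_apply, inner_neg_left]
    refine le_trans (le_of_eq ?_) ((le_abs_self _).trans (hx ξ))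
    ring) h1 h2 h3
  have e : ∫ x in Ω, (⟪(-z : L2M Ω) x, tens (Φ x)⟫_ℝ + ⟪fderiv ℝ (fun x => -ψ x) x (Φ x), Φ x⟫_ℝ)
      = -∫ x in Ω, (⟪z x, tens (Φ x)⟫_ℝ + ⟪fderiv ℝ ψ x (Φ x), Φ x⟫_ℝ) := by
    rw [← integral_neg]
    refine integral_congr_ae ?_
    filter_upwards [Lp.coeFn_neg z] with x hx
    rw [hx, Pi.neg_apply, inner_neg_left, fderiv_fun_neg]
    simp only [neg_apply, inner_neg_left]
    ring
  rw [e, neg_neg] at e2
  exact abs_le.2 ⟨by linarith, e2⟩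

/-- one-sided bounds of the gradient -/
theorem tm_strain (hΩ : MeasurableSet Ω) {K β : ℝ} (hK : 0 < K) (hβ : 0 ≤ β) {U : L2V Ω}
    {G : L2M Ω} (hU : (U, G) ∈ graphW Ω) {W : E3 → ℝ} (hW : FB (Ω ∩ V) W)
    (hs : (∀ᵐ x ∂(volume.restrict (Ω ∩ V)), ∀ ξ : E3,
        -((4 * K * W x + β) * ‖ξ‖ ^ 2) ≤ ⟪G x, tens ξ⟫_ℝ) ∨
      (∀ᵐ x ∂(volume.restrict (Ω ∩ V)), ∀ ξ : E3,
        ⟪G x, tens ξ⟫_ℝ ≤ (4 * K * W x + β) * ‖ξ‖ ^ 2)) :
    Tm Ω V (8 * K) (2 * β) U := by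
  have htr : ∀ᵐ x ∂(volume.restrict (Ω ∩ V)), ∑ i, G x (i, i) = 0 :=
    ae_mono (Measure.restrict_mono inter_subset_left le_rfl) (trace_zero hU)
  have hpt : ∀ᵐ x ∂(volume.restrict (Ω ∩ V)), ∀ ξ : E3,
      |⟪G x, tens ξ⟫_ℝ| ≤ (8 * K * W x + 2 * β) * ‖ξ‖ ^ 2 := by
    rcases hs with hs | hs
    · filter_upwards [hs, htr] with x hx h0 ξ
      have h1 := hx ξ
      have h2 := flip h0 hx ξ
      have hw := hW.nonneg x
      have h3 : 0 ≤ (4 * K * W x + β) * ‖ξ‖ ^ 2 := by positivity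
      rw [abs_le]
      constructor <;> linarith
    · filter_upwards [hs, htr] with x hx h0 ξ
      have h0' : ∑ i, (-G x) (i, i) = 0 := by
        simp only [PiLp.neg_apply, Finset.sum_neg_distrib, h0, neg_zero]
      have h1 := hx ξ
      have h2 := flip (W := -G x) h0' (l := 4 * K * W x + β) (fun η => by
        rw [inner_neg_left]
        have := hx η
        linarith) ξ
      rw [inner_neg_left] at h2
      have hw := hW.nonneg x
      have h3 : 0 ≤ (4 * K * W x + β) * ‖ξ‖ ^ 2 := by positivity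
      rw [abs_le]
      constructor <;> linarith
  refine ⟨U, G, fun _ => 0, W, hU, contDiff_const, hW, fun Φ h1 h2 h3 => ?_, ?_⟩
  · refine form_abs_pt hΩ hW (by positivity) (by positivity) ?_ h1 h2 h3
    filter_upwards [hpt] with x hx ξ
    have e : fderiv ℝ (fun _ : E3 => (0 : E3)) x ξ = 0 := by simp
    rw [e, inner_zero_left, add_zero]
    exact hx ξ
  · refine Eventually.of_forall fun x => ?_
    have hw := hW.nonneg x
    have e : U x - U x - (0 : E3) = 0 := by simp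
    rw [e, norm_zero]
    have h1 : 0 ≤ (8 * K) ^ 2 * W x + 8 * K * (2 * β) := by positivity
    simpa using h1

theorem Tm.mono {K β : ℝ} (hK : 0 < K) (hβ : 0 ≤ β) {U : L2V Ω} (h : Tm Ω V K β U) :
    Tm Ω V (8 * K) (2 * β) U := by
  obtain ⟨w, z, ψ, W, k1, k2, k3, k4, k5⟩ := h
  refine ⟨w, z, ψ, W, k1, k2, k3, fun Φ h1 h2 h3 => ?_, ?_⟩
  · refine (k4 Φ h1 h2 h3).trans ?_
    have hJ : 0 ≤ ∫ x, JJ Φ x := integral_nonneg (JJ_nonneg Φ)
    have hN : 0 ≤ ∫ x, NN Φ x := integral_nonneg (NN_nonneg Φ)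
    have e1 : K * (∫ x, JJ Φ x) ≤ 8 * K * ∫ x, JJ Φ x := by
      refine mul_le_mul_of_nonneg_right (by linarith) hJ
    have e2 : β * (∫ x, NN Φ x) ≤ 2 * β * ∫ x, NN Φ x := by
      refine mul_le_mul_of_nonneg_right (by linarith) hN
    linarith
  · filter_upwards [k5] with x hx
    refine hx.trans ?_
    have hw := k3.nonneg x
    have e1 : K ^ 2 * W x ≤ (8 * K) ^ 2 * W x := by
      refine mul_le_mul_of_nonneg_right ?_ hw
      nlinarith
    have e2 : K * β ≤ 8 * K * (2 * β) := by nlinarith [mul_nonneg hK.le hβ]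
    linarith

end inner

open H772R2.NS.Pub Pool.Agent.R462.HC Pool.Agent.R772.LI
open Pool.Agent.W795.ES (stretch outer)
open Pool.Agent.W795.TQ

theorem tm_of_pub {Ω V : Set R3} {K β : ℝ} {u : L2 Ω R3} (h : Tempered V K β u) :
    Tm (show Set H772R2.NS.E3 from Ω) (show Set H772R2.NS.E3 from V) K β u := by
  obtain ⟨w, z, ψ, W, k1, k2, k3, k10, k11⟩ := h
  refine ⟨w, z, ψ, W, mem_pub.mpr k1, k2, FB.of_pub k3, fun Φ h1 h2 h3 => ?_, k11⟩
  have h4 := k10 Φ h1 h2 h3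
  have e1 := int_JJ_pub Φ
  have e2 := int_NN_pub Φ
  rw [e1, e2]
  refine le_trans (le_of_eq ?_) h4
  congr 1
  refine integral_congr_ae (Eventually.of_forall fun x => ?_)
  have := outer_tens (Φ x)
  exact congrArg₂ (· + ·) (congrArg (fun m : H772R2.NS.M3 => ⟪(z.fn x : H772R2.NS.M3), m⟫_ℝ)
    this.symm) rfl

theorem tm_of_strain {Ω V : Set R3} (hΩ : IsOpen Ω) {K β : ℝ} (hK : 0 < K) (hβ : 0 ≤ β)
    {u : L2 Ω R3} {G : L2 Ω Mat} (hU : (u, G) ∈ H1graph Ω)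
    (h : SlowStrainIn V K β G ∨ SlowStrainIn V K β (-G)) :
    Tm (show Set H772R2.NS.E3 from Ω) (show Set H772R2.NS.E3 from V) (8 * K) (2 * β) u := by
  have hm : MeasurableSet (show Set H772R2.NS.E3 from Ω) :=
    IsOpen.measurableSet (α := H772R2.NS.E3) hΩ
  rcases h with h | h
  · obtain ⟨y, hy⟩ := h
    refine tm_strain hm hK hβ (mem_pub.mpr hU) (FB.of_pub (hardy_formBdd (Ω ∩ V) y)) (Or.inl ?_)
    have hy' : ∀ᵐ x ∂((volume : Measure H772R2.NS.E3).restrict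
        (show Set H772R2.NS.E3 from Ω ∩ V)), ∀ ξ : H772R2.NS.E3,
        -(K / ‖x - (show H772R2.NS.E3 from y)‖ ^ 2 + β) * ‖ξ‖ ^ 2
          ≤ ⟪((show H772R2.NS.L2M (show Set H772R2.NS.E3 from Ω) from G) x : H772R2.NS.M3),
            (outer (show R3 from ξ) : H772R2.NS.M3)⟫_ℝ := hy
    filter_upwards [hy'] with x hx ξ
    have h1 := hx ξ
    rw [outer_tens] at h1
    have e : 4 * K * (4 * ‖x - (show H772R2.NS.E3 from y)‖ ^ 2)⁻¹
        = K / ‖x - (show H772R2.NS.E3 from y)‖ ^ 2 := by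
      rw [mul_inv]
      ring
    show -((4 * K * (4 * ‖x - (show H772R2.NS.E3 from y)‖ ^ 2)⁻¹ + β) * ‖ξ‖ ^ 2) ≤ _
    rw [e]
    refine le_trans (le_of_eq ?_) h1
    ring
  · obtain ⟨y, hy⟩ := h
    refine tm_strain hm hK hβ (mem_pub.mpr hU) (FB.of_pub (hardy_formBdd (Ω ∩ V) y)) (Or.inr ?_)
    have hy' : ∀ᵐ x ∂((volume : Measure H772R2.NS.E3).restrict
        (show Set H772R2.NS.E3 from Ω ∩ V)), ∀ ξ : H772R2.NS.E3,
        -(K / ‖x - (show H772R2.NS.E3 from y)‖ ^ 2 + β) * ‖ξ‖ ^ 2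
          ≤ ⟪((show H772R2.NS.L2M (show Set H772R2.NS.E3 from Ω) from -G) x : H772R2.NS.M3),
            (outer (show R3 from ξ) : H772R2.NS.M3)⟫_ℝ := hy
    have n1 : ∀ᵐ x ∂((volume : Measure H772R2.NS.E3).restrict
        (show Set H772R2.NS.E3 from Ω ∩ V)),
        (-(show H772R2.NS.L2M (show Set H772R2.NS.E3 from Ω) from G)
          : H772R2.NS.L2M (show Set H772R2.NS.E3 from Ω)) x
        = -((show H772R2.NS.L2M (show Set H772R2.NS.E3 from Ω) from G) x) :=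
      ae_mono (Measure.restrict_mono inter_subset_left le_rfl) (Lp.coeFn_neg _)
    filter_upwards [hy', n1] with x hx hn ξ
    have h1 := hx ξ
    rw [outer_tens] at h1
    have h2 : ⟪((show H772R2.NS.L2M (show Set H772R2.NS.E3 from Ω) from -G) x : H772R2.NS.M3),
        H772R2.NS.tens ξ⟫_ℝ
        = -⟪((show H772R2.NS.L2M (show Set H772R2.NS.E3 from Ω) from G) x : H772R2.NS.M3),
          H772R2.NS.tens ξ⟫_ℝ := by
      rw [← inner_neg_left]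
      exact congrArg (fun m : H772R2.NS.M3 => ⟪m, H772R2.NS.tens ξ⟫_ℝ) hn
    rw [h2] at h1
    have e : 4 * K * (4 * ‖x - (show H772R2.NS.E3 from y)‖ ^ 2)⁻¹
        = K / ‖x - (show H772R2.NS.E3 from y)‖ ^ 2 := by
      rw [mul_inv]
      ring
    show _ ≤ (4 * K * (4 * ‖x - (show H772R2.NS.E3 from y)‖ ^ 2)⁻¹ + β) * ‖ξ‖ ^ 2
    rw [e]
    linarith

theorem tm_of_velocity {Ω V : Set R3} (hΩ : IsOpen Ω) {K β : ℝ} (hK : 0 < K) (hβ : 0 ≤ β)
    {u : L2 Ω R3} (h : SlowVelocityIn V K (Real.sqrt (K * β)) u) :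
    Tm (show Set H772R2.NS.E3 from Ω) (show Set H772R2.NS.E3 from V) (8 * K) (2 * β) u := by
  obtain ⟨y, a, A, hA, hy⟩ := h
  have hz : ∀ᵐ x ∂(volume.restrict (Ω ∩ V)), (0 : L2 Ω Mat).fn x = 0 :=
    ae_mono (Measure.restrict_mono inter_subset_left le_rfl) (zero_fn Ω Mat)
  have hz3 : ∀ᵐ x ∂(volume.restrict (Ω ∩ V)), (0 : L2 Ω R3).fn x = 0 :=
    ae_mono (Measure.restrict_mono inter_subset_left le_rfl) (zero_fn Ω R3)
  refine tm_of_pub (V := V) ⟨0, 0, fun x => a + A x, fun x => (4 * ‖x - y‖ ^ 2)⁻¹,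
    zero_mem_graph Ω, contDiff_const.add A.contDiff, hardy_formBdd (Ω ∩ V) y,
    fun φ h1 h2 h3 => ?_, ?_⟩
  · have e0 : ∀ᵐ x ∂(volume.restrict Ω),
        ⟪(0 : L2 Ω Mat).fn x, outer (φ x)⟫_ℝ + ⟪fderiv ℝ (fun x => a + A x) x (φ x), φ x⟫_ℝ = 0 := by
      filter_upwards [zero_fn Ω Mat] with x hx
      have h2 : fderiv ℝ (fun x => a + A x) x = A := by
        rw [fderiv_const_add]
        exact A.fderiv
      rw [hx, inner_zero_left, h2, hA, add_zero]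
    have e1 : ∫ x in Ω, (⟪(0 : L2 Ω Mat).fn x, outer (φ x)⟫_ℝ
        + ⟪fderiv ℝ (fun x => a + A x) x (φ x), φ x⟫_ℝ) = 0 := by
      refine (integral_congr_ae e0).trans (integral_zero _ _)
    rw [e1, abs_zero]
    have hJ : 0 ≤ ∫ x, ‖jac φ x‖ ^ 2 := integral_nonneg fun x => sq_nonneg _
    have hN : 0 ≤ ∫ x, ‖φ x‖ ^ 2 := integral_nonneg fun x => sq_nonneg _
    positivity
  · filter_upwards [hy, hz3] with x hx h0
    rw [h0, sub_zero]
    have hs : Real.sqrt (K * β) ^ 2 = K * β := Real.sq_sqrt (by positivity)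
    have h1 : ‖u.fn x - (a + A x)‖ ^ 2 ≤ (K / ‖x - y‖ + Real.sqrt (K * β)) ^ 2 := by gcongr
    refine h1.trans ?_
    have h2 : (K / ‖x - y‖ + Real.sqrt (K * β)) ^ 2 ≤ 2 * (K / ‖x - y‖) ^ 2 + 2 * (K * β) := by
      nlinarith [sq_nonneg (K / ‖x - y‖ - Real.sqrt (K * β)), hs]
    refine h2.trans ?_
    have e2 : (8 * K) ^ 2 * (4 * ‖x - y‖ ^ 2)⁻¹ = 16 * (K / ‖x - y‖) ^ 2 := by
      rw [mul_inv, div_pow]
      ring
    rw [e2]
    have h3 : 0 ≤ (K / ‖x - y‖) ^ 2 := sq_nonneg _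
    have h4 : 0 ≤ K * β := by positivity
    linarith

theorem tm_of_local {Ω V : Set R3} (hΩ : IsOpen Ω) {K β : ℝ} (hK : 0 < K) (hβ : 0 ≤ β)
    {u : L2 Ω R3} {G : L2 Ω Mat} (hU : (u, G) ∈ H1graph Ω) (h : LocallyControlled V K β u G) :
    Tm (show Set H772R2.NS.E3 from Ω) (show Set H772R2.NS.E3 from V) (8 * K) (2 * β) u := by
  rcases h with h | h | h | h
  · exact tm_of_strain hΩ hK hβ hU (Or.inl h)
  · exact tm_of_strain hΩ hK hβ hU (Or.inr h)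
  · exact tm_of_velocity hΩ hK hβ h
  · exact (tm_of_pub h).mono hK hβ

end Pool.Agent.R772.EE
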