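import Pool.Agent.R772.MainK
import Pool.Agent.R772.Small

/-!
Positivity of top powers in continuous families of two-forms.
-/

set_option autoImplicit false

open Set Filter Topology
open scoped Manifold ContDiff

noncomputable section

namespace Pool.Agent.R772

open Pool.Agent.Y501.SY

section

variable {d m : ℕ} {X : Type} [TopologicalSpace X] [ChartedSpace (E d) X]
  {P : Type} [TopologicalSpace P]

/-- continuous families of forms (in the `C⁰` topology) -/
def ContFam (σ : P → Form d X 2) : Prop :=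
  ∀ z : X, ContinuousOn (fun q : P × E d => pb (chartAt (E d) z).symm (σ q.1) q.2)
    (univ ×ˢ (chartAt (E d) z).target)

theorem nhds_of_chart' (p₀ : P) (z : X) {R : P × X → Prop}
    (h : ∀ᶠ q in 𝓝 (p₀, chartAt (E d) z z), R (q.1, (chartAt (E d) z).symm q.2)) :
    ∀ᶠ y in 𝓝 (p₀, z), R y := by
  have hz : z ∈ (chartAt (E d) z).source := mem_chart_source (E d) z
  have h0 : ContinuousAt (fun y : P × X => (y.1, chartAt (E d) z y.2)) (p₀, z) :=
    continuousAt_fst.prodMk
      (ContinuousAt.comp (f := fun y : P × X => y.2) (x := (p₀, z))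
        ((chartAt (E d) z).continuousAt hz) continuousAt_snd)
  have h1 := h0.eventually h
  have h2 : ∀ᶠ y : P × X in 𝓝 (p₀, z), y.2 ∈ (chartAt (E d) z).source :=
    continuousAt_snd.eventually ((chartAt (E d) z).open_source.mem_nhds hz)
  filter_upwards [h1, h2] with y hy hys
  rwa [(chartAt (E d) z).left_inv hys] at hy

theorem ev_snd {p₀ : P} {y₀ : E d} {R : E d → Prop} (h : ∀ᶠ y in 𝓝 y₀, R y) :
    ∀ᶠ q : P × E d in 𝓝 (p₀, y₀), R q.2 :=
  (continuousAt_snd : ContinuousAt (fun q : P × E d => q.2) (p₀, y₀)).eventually h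

variable [IsManifold (𝓡 d) ∞ X]

theorem IsSmooth.contFam {η : Form d X 2} (hη : IsSmooth η) : ContFam (fun _ : P => η) := by
  intro z
  exact (IsSmooth.contChart hη z).comp continuous_snd.continuousOn (fun q hq => hq.2)

omit [IsManifold (𝓡 d) ∞ X] in
theorem ContFam.add {σ η : P → Form d X 2} (hσ : ContFam σ) (hη : ContFam η) :
    ContFam (fun p => σ p + η p) := by
  intro z
  refine ((hσ z).add (hη z)).congr fun q _ => ?_
  rw [pb_add]; rfl

omit [IsManifold (𝓡 d) ∞ X] in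
theorem ContFam.smul {σ : P → Form d X 2} (hσ : ContFam σ) {c : P → ℝ} (hc : Continuous c) :
    ContFam (fun p => c p • σ p) := by
  intro z
  refine (((hc.comp continuous_fst).continuousOn).smul (hσ z)).congr fun q _ => ?_
  rfl

omit [IsManifold (𝓡 d) ∞ X] in
theorem ContFam.zero : ContFam (fun _ : P => (0 : Form d X 2)) := by
  intro z
  refine (continuousOn_const (c := (0 : (E d) [⋀^Fin 2]→L[ℝ] ℝ))).congr fun q _ => ?_
  rw [pb_zero]; rfl

omit [IsManifold (𝓡 d) ∞ X] in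
theorem ContFam.sum {κ : Type} (s : Finset κ) {σ : κ → P → Form d X 2}
    (hσ : ∀ k, ContFam (σ k)) : ContFam (fun p => ∑ k ∈ s, σ k p) := by
  classical
  induction s using Finset.induction_on with
  | empty => simpa using ContFam.zero (P := P) (d := d) (X := X)
  | insert a s ha ih =>
    have := (hσ a).add ih
    refine (funext fun p => ?_ : (fun p => ∑ k ∈ insert a s, σ k p) =
      fun p => σ a p + ∑ k ∈ s, σ k p) ▸ this
    rw [Finset.sum_insert ha]

/-- positivity of `σ ^ m ∧ η` is open in families -/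
theorem LinPos.fam (hd : d = 2 * (m + 1)) {vol : Top d m X} (hvol : IsVol vol)
    {σ η : P → Form d X 2} (hσ : ContFam σ) (hη : ContFam η) {p₀ : P} {x : X}
    (h : LinPos vol (σ p₀) (η p₀) x) :
    ∀ᶠ y in 𝓝 (p₀, x), LinPos vol (σ y.1) (η y.1) y.2 := by
  obtain ⟨e, he⟩ := exists_frame hvol x
  set c := chartAt (E d) x with hc
  have hx : x ∈ c.source := mem_chart_source (E d) x
  have hp0 : c x ∈ c.target := c.map_source hx
  let H : P × E d → ℝ := fun q => wedge (Fin.cons (pb c.symm (η q.1) q.2)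
    (fun _ : Fin m => pb c.symm (σ q.1) q.2)) e
  have hH : ContinuousOn H (univ ×ˢ c.target) := by
    refine continuous_wedge (s := fun q : P × E d => (Fin.cons (pb c.symm (η q.1) q.2)
      (fun _ : Fin m => pb c.symm (σ q.1) q.2) :
      Fin (m + 1) → (E d) [⋀^Fin 2]→L[ℝ] ℝ)) ?_ (fun _ => continuousOn_const)
    intro i
    refine Fin.cases ?_ (fun i => ?_) i
    · simp only [Fin.cons_zero]
      exact hη x
    · simp only [Fin.cons_succ]
      exact hσ x
  have hH0 : 0 < H (p₀, c x) := by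
    change 0 < wedge (Fin.cons (pb c.symm (η p₀) (c x))
        (fun _ : Fin m => pb c.symm (σ p₀) (c x))) e
    rw [wedge_pb_cons]
    have h2 : LinPos vol (σ p₀) (η p₀) (c.symm (c x)) := by rw [c.left_inv hx]; exact h
    exact h2 _ he.self_of_nhds.2
  have hcont := hH.continuousAt ((isOpen_univ.prod c.open_target).mem_nhds
    (⟨trivial, hp0⟩ : (p₀, c x) ∈ (univ : Set P) ×ˢ c.target))
  have hev := hcont.eventually (lt_mem_nhds hH0)
  have he' : ∀ᶠ q : P × E d in 𝓝 (p₀, c x), q.2 ∈ c.target ∧ 0 < vol (c.symm q.2)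
      (fun k => mfderiv (𝓡 d) (𝓡 d) c.symm q.2 (e k)) := ev_snd he
  refine nhds_of_chart' (d := d) p₀ x (R := fun y => LinPos vol (σ y.1) (η y.1) y.2) ?_
  filter_upwards [hev, he'] with q hq hqe
  refine (frame_iff hd vol hqe.2 _).2 ?_
  have h4 := wedge_pb_cons (m := m) c.symm (η q.1) (σ q.1) q.2 e
  rw [← h4]
  exact hq

/-- positivity of `σ ^ (m + 1)` is stable under small perturbations, in families -/
theorem PosTop.fam (hd : d = 2 * (m + 1)) {vol : Top d m X} (hvol : IsVol vol)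
    {σ η : P → Form d X 2} (hσ : ContFam σ) (hη : ContFam η) {p₀ : P} {x : X}
    (h : PosTop vol (σ p₀) x) :
    ∃ ε : ℝ, 0 < ε ∧ ∀ᶠ y in 𝓝 (p₀, x), ∀ t : ℝ, |t| ≤ ε →
      PosTop vol (σ y.1 + t • η y.1) y.2 := by
  obtain ⟨e, he⟩ := exists_frame hvol x
  set c := chartAt (E d) x with hc
  have hx : x ∈ c.source := mem_chart_source (E d) x
  have hp0 : c x ∈ c.target := c.map_source hx
  let H : (P × E d) × ℝ → ℝ := fun q => wedge
    (fun _ : Fin (m + 1) => pb c.symm (σ q.1.1) q.1.2 + q.2 • pb c.symm (η q.1.1) q.1.2) e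
  have hfst : ContinuousOn (fun q : (P × E d) × ℝ => q.1) ((univ ×ˢ c.target) ×ˢ univ) :=
    continuous_fst.continuousOn
  have hmaps : MapsTo (fun q : (P × E d) × ℝ => q.1) ((univ ×ˢ c.target) ×ˢ univ)
      (univ ×ˢ c.target) := fun q hq => hq.1
  have hH : ContinuousOn H ((univ ×ˢ c.target) ×ˢ univ) := by
    refine continuous_wedge (s := fun q : (P × E d) × ℝ =>
      (fun _ : Fin (m + 1) => pb c.symm (σ q.1.1) q.1.2 + q.2 • pb c.symm (η q.1.1) q.1.2)) ?_
      (fun _ => continuousOn_const)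
    intro i
    refine ContinuousOn.add ((hσ x).comp hfst hmaps) ?_
    have h7 : ContinuousOn (fun q : (P × E d) × ℝ => q.2) ((univ ×ˢ c.target) ×ˢ univ) :=
      continuous_snd.continuousOn
    exact h7.smul ((hη x).comp hfst hmaps)
  have hH0 : 0 < H ((p₀, c x), 0) := by
    have h1 : H ((p₀, c x), 0) = wedge (fun _ : Fin (m + 1) => pb c.symm (σ p₀) (c x)) e := by
      change wedge (fun _ : Fin (m + 1) => pb c.symm (σ p₀) (c x) +
        (0 : ℝ) • pb c.symm (η p₀) (c x)) e = _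
      simp only [zero_smul, add_zero]
    rw [h1, wedge_pb c.symm (fun _ : Fin (m + 1) => σ p₀)]
    have h2 : PosTop vol (σ p₀) (c.symm (c x)) := by rw [c.left_inv hx]; exact h
    exact h2 _ he.self_of_nhds.2
  have hcont := hH.continuousAt (((isOpen_univ.prod c.open_target).prod isOpen_univ).mem_nhds
    (⟨⟨trivial, hp0⟩, trivial⟩ : ((p₀, c x), (0 : ℝ)) ∈
      ((univ : Set P) ×ˢ c.target) ×ˢ (univ : Set ℝ)))
  have hev := hcont.eventually (lt_mem_nhds hH0)
  rw [nhds_prod_eq, Filter.eventually_prod_iff] at hev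
  obtain ⟨p1, hp1, p2, hp2, hp⟩ := hev
  obtain ⟨ε, hε, hball⟩ := Metric.eventually_nhds_iff.1 hp2
  have hε2 : 0 < ε / 2 := by positivity
  have he' : ∀ᶠ q : P × E d in 𝓝 (p₀, c x), q.2 ∈ c.target ∧ 0 < vol (c.symm q.2)
      (fun k => mfderiv (𝓡 d) (𝓡 d) c.symm q.2 (e k)) := ev_snd he
  refine ⟨ε / 2, hε2, nhds_of_chart' (d := d) p₀ x
    (R := fun y => ∀ t : ℝ, |t| ≤ ε / 2 → PosTop vol (σ y.1 + t • η y.1) y.2) ?_⟩
  filter_upwards [hp1, he'] with q hpp hpe t ht
  have hdist : dist t 0 < ε := by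
    rw [dist_zero_right, Real.norm_eq_abs]
    exact lt_of_le_of_lt ht (half_lt_self hε)
  have h3 := hp hpp (hball hdist)
  refine (frame_iff hd vol hpe.2 _).2 ?_
  have h4 := wedge_pb (n := m + 1) c.symm (fun _ => σ q.1 + t • η q.1) q.2 e
  have h5 : pb c.symm (σ q.1 + t • η q.1) q.2 =
      pb c.symm (σ q.1) q.2 + t • pb c.symm (η q.1) q.2 := by
    rw [pb_add, Pi.add_apply]
    rfl
  rw [h5] at h4
  rw [← h4]
  exact h3

/-- if `σ ^ (m + 1)` is nonnegative and `σ ^ m ∧ η` is positive at `(p₀, x)`, then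
`(σ + t η) ^ (m + 1)` is positive near `(p₀, x)` for small positive `t` -/
theorem LinPos.topFam (hd : d = 2 * (m + 1)) {vol : Top d m X} (hvol : IsVol vol)
    {σ η : P → Form d X 2} (hσ : ContFam σ) (hη : ContFam η)
    (hnn : ∀ (p : P) (x : X) (e : Fin (m + 1) × Fin 2 → TangentSpace (𝓡 d) x), 0 < vol x e →
      0 ≤ wedge (fun _ : Fin (m + 1) => σ p x) e) {p₀ : P} {x : X}
    (h : LinPos vol (σ p₀) (η p₀) x) :
    ∃ ε : ℝ, 0 < ε ∧ ∀ᶠ y in 𝓝 (p₀, x), ∀ t : ℝ, 0 < t → t ≤ ε →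
      PosTop vol (σ y.1 + t • η y.1) y.2 := by
  obtain ⟨e, he⟩ := exists_frame hvol x
  set c := chartAt (E d) x with hc
  have hx : x ∈ c.source := mem_chart_source (E d) x
  have hp0 : c x ∈ c.target := c.map_source hx
  let H : (P × E d) × ℝ → ℝ := fun q => wedge (Fin.cons (pb c.symm (η q.1.1) q.1.2)
    (fun _ : Fin m => pb c.symm (σ q.1.1) q.1.2 + q.2 • pb c.symm (η q.1.1) q.1.2)) e
  have hfst : ContinuousOn (fun q : (P × E d) × ℝ => q.1) ((univ ×ˢ c.target) ×ˢ univ) :=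
    continuous_fst.continuousOn
  have hmaps : MapsTo (fun q : (P × E d) × ℝ => q.1) ((univ ×ˢ c.target) ×ˢ univ)
      (univ ×ˢ c.target) := fun q hq => hq.1
  have hH : ContinuousOn H ((univ ×ˢ c.target) ×ˢ univ) := by
    refine continuous_wedge (s := fun q : (P × E d) × ℝ =>
      (Fin.cons (pb c.symm (η q.1.1) q.1.2)
      (fun _ : Fin m => pb c.symm (σ q.1.1) q.1.2 + q.2 • pb c.symm (η q.1.1) q.1.2) :
      Fin (m + 1) → (E d) [⋀^Fin 2]→L[ℝ] ℝ)) ?_ (fun _ => continuousOn_const)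
    intro i
    refine Fin.cases ?_ (fun i => ?_) i
    · simp only [Fin.cons_zero]
      exact (hη x).comp hfst hmaps
    · simp only [Fin.cons_succ]
      refine ContinuousOn.add ((hσ x).comp hfst hmaps) ?_
      have h7 : ContinuousOn (fun q : (P × E d) × ℝ => q.2) ((univ ×ˢ c.target) ×ˢ univ) :=
        continuous_snd.continuousOn
      exact h7.smul ((hη x).comp hfst hmaps)
  have hH0 : 0 < H ((p₀, c x), 0) := by
    have h1 : H ((p₀, c x), 0) = wedge (Fin.cons (pb c.symm (η p₀) (c x))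
        (fun _ : Fin m => pb c.symm (σ p₀) (c x))) e := by
      change wedge (Fin.cons (pb c.symm (η p₀) (c x))
        (fun _ : Fin m => pb c.symm (σ p₀) (c x) + (0 : ℝ) • pb c.symm (η p₀) (c x))) e = _
      simp only [zero_smul, add_zero]
    rw [h1, wedge_pb_cons]
    have h2 : LinPos vol (σ p₀) (η p₀) (c.symm (c x)) := by rw [c.left_inv hx]; exact h
    exact h2 _ he.self_of_nhds.2
  have hcont := hH.continuousAt (((isOpen_univ.prod c.open_target).prod isOpen_univ).mem_nhds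
    (⟨⟨trivial, hp0⟩, trivial⟩ : ((p₀, c x), (0 : ℝ)) ∈
      ((univ : Set P) ×ˢ c.target) ×ˢ (univ : Set ℝ)))
  have hev := hcont.eventually (lt_mem_nhds hH0)
  rw [nhds_prod_eq, Filter.eventually_prod_iff] at hev
  obtain ⟨p1, hp1, p2, hp2, hp⟩ := hev
  obtain ⟨ε, hε, hball⟩ := Metric.eventually_nhds_iff.1 hp2
  have hε2 : 0 < ε / 2 := by positivity
  have he' : ∀ᶠ q : P × E d in 𝓝 (p₀, c x), q.2 ∈ c.target ∧ 0 < vol (c.symm q.2)
      (fun k => mfderiv (𝓡 d) (𝓡 d) c.symm q.2 (e k)) := ev_snd he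
  refine ⟨ε / 2, hε2, nhds_of_chart' (d := d) p₀ x
    (R := fun y => ∀ t : ℝ, 0 < t → t ≤ ε / 2 → PosTop vol (σ y.1 + t • η y.1) y.2) ?_⟩
  filter_upwards [hp1, he'] with q hpp hpe t ht0 ht
  have hpos : ∀ s : ℝ, 0 ≤ s → s ≤ ε / 2 → 0 < H (q, s) := by
    intro s hs0 hs
    have hdist : dist s 0 < ε := by
      rw [dist_zero_right, Real.norm_eq_abs, abs_of_nonneg hs0]
      exact lt_of_le_of_lt hs (half_lt_self hε)
    exact hp hpp (hball hdist)
  refine (frame_iff hd vol hpe.2 _).2 ?_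
  have h4 := wedge_pb (n := m + 1) c.symm (fun _ => σ q.1 + t • η q.1) q.2 e
  have h5 : pb c.symm (σ q.1 + t • η q.1) q.2 =
      pb c.symm (σ q.1) q.2 + t • pb c.symm (η q.1) q.2 := by
    rw [pb_add, Pi.add_apply]
    rfl
  rw [h5] at h4
  rw [← h4]
  -- the mean value theorem
  have hder := fun s : ℝ => hasDerivAt_wedge (m := m) (pb c.symm (σ q.1) q.2)
    (pb c.symm (η q.1) q.2) e s
  have hmono : StrictMonoOn (fun s : ℝ => wedge
      (fun _ : Fin (m + 1) => pb c.symm (σ q.1) q.2 + s • pb c.symm (η q.1) q.2) e)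
      (Icc 0 (ε / 2)) := by
    refine strictMonoOn_of_deriv_pos (convex_Icc _ _)
      (fun s _ => (hder s).continuousAt.continuousWithinAt) fun s hs => ?_
    rw [interior_Icc] at hs
    rw [(hder s).deriv]
    have := hpos s hs.1.le hs.2.le
    have hm : (0 : ℝ) < m + 1 := by positivity
    exact mul_pos hm this
  have h6 := hmono (left_mem_Icc.2 hε2.le) ⟨ht0.le, ht⟩ ht0
  have h7 : 0 ≤ wedge (fun _ : Fin (m + 1) => pb c.symm (σ q.1) q.2 +
      (0 : ℝ) • pb c.symm (η q.1) q.2) e := by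
    simp only [zero_smul, add_zero]
    rw [wedge_pb c.symm (fun _ : Fin (m + 1) => σ q.1)]
    exact hnn _ _ _ hpe.2
  exact lt_of_le_of_lt h7 h6

end

end Pool.Agent.R772
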