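import Pool.Agent.R772.MainG

/-!
Closed two-forms which are weakly taming near their degenerate points: the main theorem and the
criteria for smallness.
-/

set_option autoImplicit false

open Set Filter Topology MeasureTheory
open scoped Manifold ContDiff

noncomputable section

namespace Pool.Agent.R772

open Pool.Agent.Y501.SY
open Pool.Agent.Y455.SY (Q A B BA A_surj Q_eq Q_smul Q_cont Q_sum)
open Pool.Agent.Y108.SY (A_ne Q_cont')

section

variable {d : ℕ} {X : Type} [TopologicalSpace X] [ChartedSpace (E d) X]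
  [IsManifold (𝓡 d) ∞ X]

theorem ND.nhds {σ : Form d X 2} (hσ : IsSmooth σ)
    {x : X} (h : ND σ x) : ∀ᶠ y in 𝓝 x, ND σ y := by
  obtain ⟨ε, hε, he⟩ := seg_nondeg (J := fun _ => 0) hσ (IsSmooth.zero (d := d) (X := X) (k := 2)) hσ x
    (by
      rintro ⟨v, hv, hv0⟩
      exact absurd (h v hv0) hv)
    (by
      intro _ s _ _
      have : (1 - s) • σ + s • σ = σ := by rw [← add_smul, sub_add_cancel, one_smul]
      rw [this]; exact h)
  filter_upwards [he] with y hy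
  have h1 := hy ε hε le_rfl 1 zero_le_one le_rfl
  have h2 : (1 - (1 : ℝ)) • σ + (1 : ℝ) • (σ + ε • (0 : Form d X 2)) = σ := by
    rw [sub_self, zero_smul, zero_add, one_smul, smul_zero, add_zero]
  rwa [h2] at h1

/-- an almost complex structure is tamed at a point by an exact form -/
theorem local_tame [T2Space X] {J : End d X} {z : X}
    (hsq : ∀ v : TangentSpace (𝓡 d) z, J z (J z v) = -v) :
    ∃ (g : Fin d → X → ℝ) (B : Fin d → Fin d → ℝ), (∀ j, SmoothFun (d := d) (g j)) ∧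
      TamesAt (∑ j, ∑ k, B j k • dfdg (d := d) (g j) (g k)) J z := by
  let c := chartAt (E d) z
  have hz : z ∈ c.source := mem_chart_source (E d) z
  have hcd : c.MDifferentiable (𝓡 d) (𝓡 d) := mdifferentiable_chart (I := 𝓡 d) z
  let A : TangentSpace (𝓡 d) z ≃L[ℝ] E d := hcd.mfderiv hz
  let J' : E d →L[ℝ] E d := (A : TangentSpace (𝓡 d) z →L[ℝ] E d).comp
    ((J z).comp (A.symm : E d →L[ℝ] TangentSpace (𝓡 d) z))
  have hJ'v : ∀ u, J' u = A (J z (A.symm u)) := fun u => rfl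
  have hJA : ∀ v, J' (A v) = A (J z v) := by
    intro v
    rw [hJ'v, A.symm_apply_apply]
  have hJJ : ∀ u, J' (J' u) = -u := by
    intro u
    rw [hJ'v u, hJA, hsq, map_neg, A.apply_symm_apply]
  obtain ⟨b⟩ : Nonempty (SmoothBumpFunction (𝓡 d) z) := inferInstance
  let F : X → E d := fun x => b x • c x
  have hF : ContMDiff (𝓡 d) 𝓘(ℝ, E d) ∞ F := b.contMDiff_smul (contMDiffOn_chart (I := 𝓡 d))
  have hFc : F =ᶠ[𝓝 z] c := by
    filter_upwards [b.eventuallyEq_one] with x hx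
    change b x • c x = c x
    rw [hx]
    exact one_smul ℝ (c x)
  let g : Fin d → X → ℝ := fun j x => F x j
  have hg : ∀ j, SmoothFun (d := d) (g j) := by
    intro j
    exact ((EuclideanSpace.proj (𝕜 := ℝ) j : E d →L[ℝ] ℝ).contDiff.contMDiff).comp hF
  have hcdz : MDifferentiableAt (𝓡 d) 𝓘(ℝ, E d) c z := hcd.mdifferentiableAt hz
  have hdg : ∀ j (v : TangentSpace (𝓡 d) z), dd (g j) z v = (A v) j := by
    intro j v
    have e1 : g j =ᶠ[𝓝 z] (EuclideanSpace.proj (𝕜 := ℝ) j : E d →L[ℝ] ℝ) ∘ c := by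
      filter_upwards [hFc] with x hx
      change F x j = c x j
      rw [hx]
    unfold dd
    rw [e1.mfderiv_eq, mfderiv_comp z
      ((EuclideanSpace.proj (𝕜 := ℝ) j : E d →L[ℝ] ℝ).contDiff.contMDiff.mdifferentiableAt
        (n := 1) one_ne_zero) hcdz,
      mfderiv_eq_fderiv, ContinuousLinearMap.fderiv]
    rfl
  refine ⟨g, fun j k => J' (EuclideanSpace.single j (1 : ℝ)) k, hg, ?_⟩
  intro v hv
  have hAv : A v ≠ 0 := by
    intro h
    apply hv
    have := A.injective (h.trans (map_zero A).symm)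
    exact this
  have h1 := Pool.Agent.Y363.SY.lin_pos J' hJJ (A v) hAv
  have h2 : (∑ j, ∑ k, J' (EuclideanSpace.single j (1 : ℝ)) k •
      dfdg (d := d) (g j) (g k)) z ![v, J z v] =
      ∑ j, ∑ k, J' (EuclideanSpace.single j (1 : ℝ)) k *
      ((A v) j * J' (A v) k - J' (A v) j * (A v) k) := by
    simp only [Finset.sum_apply, Pi.smul_apply, ContinuousAlternatingMap.sum_apply,
      ContinuousAlternatingMap.smul_apply, smul_eq_mul]
    refine Finset.sum_congr rfl fun j _ => Finset.sum_congr rfl fun k _ => ?_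
    have e3 : dfdg (d := d) (g j) (g k) z ![v, J z v] =
        dd (g j) z v * dd (g k) z (J z v) - dd (g j) z (J z v) * dd (g k) z v :=
      wedge_apply (V := E d) (dd (g j) z) (dd (g k) z) ![v, J z v]
    rw [e3, hdg, hdg, hdg, hdg, hJA]
  rw [h2]
  exact h1

theorem mainG [CompactSpace X] [T2Space X] {J : End d X}
    {σ ζ : Form d X 2} (hJ : ∀ x ∈ KD σ, ACat J x) (hσ : IsSmooth σ) (hσc : IsClosedForm σ)
    (hζ : IsSmooth ζ) (hζc : IsClosedForm ζ)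
    (hw : ∀ x ∈ KD σ, ∀ᶠ y in 𝓝 x, WT σ J y)
    {m : ℕ} {Y : Type} [TopologicalSpace Y] [ChartedSpace (E m) Y] [IsManifold (𝓡 m) ∞ Y]
    [T2Space Y] {f : X → Y} (hf : ContMDiff (𝓡 d) (𝓡 m) ∞ f)
    (hker : ∀ x ∈ KD σ, ∀ v : TangentSpace (𝓡 d) x, (∀ w, σ x ![v, w] = 0) →
      mfderiv (𝓡 d) (𝓡 m) f x v = 0)
    (hcomp : ∀ z ∈ KD σ, ∃ (β : Form d X 1) (ρ : Form d X 2), IsSmooth β ∧ IsSmooth ρ ∧
      IsD β ρ ∧
      (∀ x ∈ connectedComponentIn (KD σ ∩ f ⁻¹' {f z}) z, ∀ v : TangentSpace (𝓡 d) x,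
        (∀ w, σ x ![v, w] = 0) → 0 ≤ (ζ + ρ) x ![v, J x v]) ∧
      ∀ w, w ∈ {x | x ∈ connectedComponentIn (KD σ ∩ f ⁻¹' {f z}) z ∧
          ¬ PJ σ J x ((ζ + ρ) x)} →
        ThinP (PJ2 σ (ζ + ρ) J) (connectedComponentIn
          {x | x ∈ connectedComponentIn (KD σ ∩ f ⁻¹' {f z}) z ∧
            ¬ PJ σ J x ((ζ + ρ) x)} w) w) :
    ∃ (β : Form d X 1) (ρ : Form d X 2), IsSmooth β ∧ IsSmooth ρ ∧ IsD β ρ ∧
      (∃ t₀ : ℝ, 0 < t₀ ∧ ∀ t : ℝ, 0 < t → t ≤ t₀ →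
        IsSmooth (σ + t • (ζ + ρ)) ∧ IsClosedForm (σ + t • (ζ + ρ)) ∧
        ∀ x, ND (σ + t • (ζ + ρ)) x) ∧
      ∀ τ : Form d X 2, IsSmooth τ → (∀ x ∈ KD σ, TamesAt τ J x) →
        (∀ x, x ∉ KD σ → ∀ s : ℝ, 0 ≤ s → s ≤ 1 → ND ((1 - s) • τ + s • σ) x) →
        ∃ t₀ : ℝ, 0 < t₀ ∧ ∀ t : ℝ, 0 < t → t ≤ t₀ → ∀ s : ℝ, 0 ≤ s → s ≤ 1 →
          ∀ x, ND ((1 - s) • τ + s • (σ + t • (ζ + ρ))) x := by
  have hwx : ∀ x ∈ KD σ, WT σ J x := fun x hx => (hw x hx).self_of_nhds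
  have hC := isCone_PJ hJ hσ hwx
  have hD : IsClosed (KD σ) := by
    rw [← isOpen_compl_iff, isOpen_iff_eventually]
    intro x hx
    filter_upwards [ND.nhds hσ (not_KD hx)] with y hy
    rintro ⟨v, hv, hv0⟩
    exact hv (hy v hv0)
  obtain ⟨β, ρ, h1, h2, h3, h4⟩ := hC.main2 hD hf hker hζ (by
    intro z hz
    obtain ⟨β, ρ, g1, g2, g3, g4, g5⟩ := hcomp z hz
    have hCD : connectedComponentIn (KD σ ∩ f ⁻¹' {f z}) z ⊆ KD σ :=
      (connectedComponentIn_subset _ _).trans inter_subset_left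
    refine ⟨β, ρ, PJ2 σ (ζ + ρ) J, g1, g2, g3,
      isCone_PJ2 (fun x hx => hJ x (hCD hx.1)) hσ (hζ.add g2) fun x hx => hwx x (hCD hx.1), ?_, g5⟩
    intro η hη x hx hx2
    exact lex_PJ hσ (hζ.add g2) hη g4 x (hJ x (hCD hx)) hx hx2)
  have hζρ : IsSmooth (ζ + ρ) := hζ.add h2
  have hcl : IsClosedForm (ζ + ρ) := by
    have h5 := hζc.add (prod_closed h1 h2 h3) hζ h2
    rwa [add_zero] at h5
  refine ⟨β, ρ, h1, h2, h3, ?_, ?_⟩
  · obtain ⟨t₀, ht₀, ht⟩ := unif isCompact_univ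
      (fun ε y => ∀ t : ℝ, 0 < t → t ≤ ε → ND (σ + t • (ζ + ρ)) y)
      (fun ε ε' y hle hp t h0 h1 => hp t h0 (h1.trans hle))
      (by
        intro x _
        have key : ∀ τ : Form d X 2, IsSmooth τ → (x ∈ KD σ → TamesAt τ J x) →
            (x ∉ KD σ → ∀ s : ℝ, 0 ≤ s → s ≤ 1 → ND ((1 - s) • τ + s • σ) x) →
            ∃ ε : ℝ, 0 < ε ∧ ∀ᶠ y in 𝓝 x, ∀ t : ℝ, 0 < t → t ≤ ε →
              ND (σ + t • (ζ + ρ)) y := by
          intro τ hτ hτ1 hτ2
          obtain ⟨ε, hε, he⟩ := seg_nondeg hσ hζρ hτ x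
            (fun hx => ⟨h4 x hx, hτ1 hx, hw x hx, hJ x hx⟩) hτ2
          refine ⟨ε, hε, he.mono fun y hy t ht0 ht1 => ?_⟩
          have h5 := hy t ht0 ht1 1 zero_le_one le_rfl
          have h6 : (1 - (1 : ℝ)) • τ + (1 : ℝ) • (σ + t • (ζ + ρ)) = σ + t • (ζ + ρ) := by
            rw [sub_self, zero_smul, zero_add, one_smul]
          rwa [h6] at h5
        by_cases hx : x ∈ KD σ
        · obtain ⟨g, Bc, hg, hB⟩ := local_tame (hJ x hx).sq
          refine key _ ?_ (fun _ => hB) (fun h => absurd hx h)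
          refine IsSmooth.sum _ fun j _ => IsSmooth.sum _ fun k _ => IsSmooth.smul ?_ _
          have := (Pool.Agent.Y484.SY.t_GEN d X (fun _ => 1) (g j) (g k) (SmoothFun.const 1)
            (hg j) (hg k)).2.1
          have h2 : hdfdg (d := d) (fun _ => (1 : ℝ)) (g j) (g k) = dfdg (g j) (g k) := by
            funext x; exact one_smul ℝ _
          rwa [h2] at this
        · refine key σ hσ (fun h => absurd h hx) fun _ s _ _ => ?_
          have : (1 - s) • σ + s • σ = σ := by rw [← add_smul, sub_add_cancel, one_smul]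
          rw [this]
          exact not_KD hx)
    refine ⟨t₀, ht₀, fun t h0 h1 => ⟨hσ.add (hζρ.smul t), ?_, fun x => ht x (mem_univ x) t h0 h1⟩⟩
    have h5 := hσc.add (hcl.smul t) hσ (hζρ.smul t)
    have h6 : (0 : Form d X 3) + t • (0 : Form d X 3) = 0 := by rw [smul_zero, add_zero]
    rw [h6] at h5
    exact h5
  · intro τ hτ hτ1 hτ2
    obtain ⟨t₀, ht₀, ht⟩ := unif isCompact_univ
      (fun ε y => ∀ t : ℝ, 0 < t → t ≤ ε → ∀ s : ℝ, 0 ≤ s → s ≤ 1 →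
        ND ((1 - s) • τ + s • (σ + t • (ζ + ρ))) y)
      (fun ε ε' y hle hp t h0 h1 => hp t h0 (h1.trans hle))
      (fun x _ => seg_nondeg hσ hζρ hτ x (fun hx => ⟨h4 x hx, hτ1 x hx, hw x hx, hJ x hx⟩)
        (fun hx => hτ2 x hx))
    exact ⟨t₀, ht₀, fun t h0 h1 s hs0 hs1 x => ht x (mem_univ x) t h0 h1 s hs0 hs1⟩

/-- sets of two-dimensional Hausdorff measure zero are thin -/
theorem thinPJ_haus [T2Space X] {J : End d X} (σ θ : Form d X 2)
    {C : Set X} (z : X) (hsq : ∀ v : TangentSpace (𝓡 d) z, J z (J z v) = -v)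
    (h : ∃ N ∈ 𝓝 z, μH[2] (chartAt (E d) z '' (C ∩ N ∩ (chartAt (E d) z).source)) = 0) :
    ThinP (PJ2 σ θ J) C z := by
  obtain ⟨g, B, hg, hB⟩ := local_tame hsq
  exact thinP_of_haus z ⟨g, B, hg, fun v hv _ _ => hB v hv⟩ h

end

end Pool.Agent.R772
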