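import Pool.Agent.R772.Cone

/-!
Exact two-forms which are positive over a compact set: gluing over components of fibres.
-/

set_option autoImplicit false

open Set Filter Topology MeasureTheory
open scoped Manifold ContDiff

noncomputable section

namespace Pool.Agent.R772

open Pool.Agent.Y501.SY

section

variable {d : ℕ} {X : Type} [TopologicalSpace X] [ChartedSpace (E d) X]
  [IsManifold (𝓡 d) ∞ X]

/-- smooth functions whose differential vanishes on the kernels of `σ` over `D` -/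
def KFlat (σ : Form d X 2) (D : Set X) (u : X → ℝ) : Prop :=
  SmoothFun (d := d) u ∧ ∀ x ∈ D, ∀ v : TangentSpace (𝓡 d) x, (∀ w, σ x ![v, w] = 0) →
    dd u x v = 0

omit [IsManifold (𝓡 d) ∞ X] in
theorem dd_const (c : ℝ) (x : X) (v : TangentSpace (𝓡 d) x) :
    dd (d := d) (fun _ : X => c) x v = 0 := by
  unfold dd
  rw [mfderiv_const]; rfl

omit [IsManifold (𝓡 d) ∞ X] in
theorem KFlat.add {σ : Form d X 2} {D : Set X} {u w : X → ℝ} (hu : KFlat σ D u)
    (hw : KFlat σ D w) : KFlat σ D (fun x => u x + w x) := by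
  refine ⟨hu.1.add hw.1, fun x hx v hv => ?_⟩
  rw [dd_add hu.1 hw.1, hu.2 x hx v hv, hw.2 x hx v hv, add_zero]

omit [IsManifold (𝓡 d) ∞ X] in
theorem KFlat.mul {σ : Form d X 2} {D : Set X} {u w : X → ℝ} (hu : KFlat σ D u)
    (hw : KFlat σ D w) : KFlat σ D (fun x => u x * w x) := by
  refine ⟨hu.1.mul hw.1, fun x hx v hv => ?_⟩
  rw [dd_mul hu.1 hw.1, hu.2 x hx v hv, hw.2 x hx v hv, mul_zero, mul_zero, add_zero]

omit [IsManifold (𝓡 d) ∞ X] in
theorem KFlat.const {σ : Form d X 2} {D : Set X} (c : ℝ) : KFlat σ D (fun _ => c) :=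
  ⟨SmoothFun.const c, fun x _ v _ => dd_const c x v⟩

omit [IsManifold (𝓡 d) ∞ X] in
theorem KFlat.sum {σ : Form d X 2} {D : Set X} {ι : Type} (s : Finset ι) {u : ι → X → ℝ}
    (hu : ∀ i ∈ s, KFlat σ D (u i)) : KFlat σ D (fun x => ∑ i ∈ s, u i x) := by
  classical
  induction s using Finset.induction_on with
  | empty => simpa using KFlat.const 0
  | insert a s ha ih =>
    have h1 := (hu a (Finset.mem_insert_self a s)).add
      (ih fun i hi => hu i (Finset.mem_insert_of_mem hi))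
    have h2 : (fun x => ∑ i ∈ insert a s, u i x) = fun x => u a x + ∑ i ∈ s, u i x := by
      funext x
      rw [Finset.sum_insert ha]
    rw [h2]; exact h1

omit [IsManifold (𝓡 d) ∞ X] in
theorem KFlat.inv {σ : Form d X 2} {D : Set X} {u : X → ℝ} (hu : KFlat σ D u)
    (h0 : ∀ x, u x ≠ 0) : KFlat σ D (fun x => (u x)⁻¹) := by
  have hs : SmoothFun (d := d) (fun x => (u x)⁻¹) := ContMDiff.inv₀ hu.1 h0
  refine ⟨hs, fun x hx v hv => ?_⟩
  have h1 : (fun y => u y * (u y)⁻¹) = fun _ => (1 : ℝ) := by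
    funext y; exact mul_inv_cancel₀ (h0 y)
  have h2 := dd_mul hu.1 hs x v
  rw [h1, dd_const, hu.2 x hx v hv, mul_zero, add_zero] at h2
  rcases mul_eq_zero.1 h2.symm with h | h
  · exact absurd h (h0 x)
  · exact h

theorem prod_closed {β : Form d X 1} {ρ : Form d X 2} (hβ : IsSmooth β) (hρ : IsSmooth ρ)
    (hβρ : IsD β ρ) : IsClosedForm ρ := by
  have hPr := Pool.Agent.Y658.SY.t_PROD
  have h1 := (hPr d X (fun _ => 1) β ρ (SmoothFun.const 1) hβ hρ hβρ).2.2.2.1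
  have h2 : prodD (fun _ : X => (1 : ℝ)) β ρ = ρ := by
    funext x
    refine form_ext fun v w => ?_
    rw [(hPr d X (fun _ => 1) β ρ (SmoothFun.const 1) hβ hρ hβρ).2.2.2.2 x v w, dd_const,
      dd_const]
    ring
  rwa [h2] at h1

/-- gluing -/
theorem IsCone.glue [CompactSpace X] [T2Space X] {σ : Form d X 2} {D : Set X} {P : PField d X}
    (hP : IsCone σ D P) (hD : IsClosed D) (ζ : Form d X 2)
    (h : ∀ z ∈ D, ∃ (u : X → ℝ) (β : Form d X 1) (ρ : Form d X 2), KFlat σ D u ∧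
      (∀ x, 0 ≤ u x) ∧ 0 < u z ∧ IsSmooth β ∧ IsSmooth ρ ∧ IsD β ρ ∧
      ∀ x ∈ D, u x ≠ 0 → P x ((ζ + ρ) x)) :
    ∃ (β : Form d X 1) (ρ : Form d X 2), IsSmooth β ∧ IsSmooth ρ ∧ IsD β ρ ∧
      ∀ x ∈ D, P x ((ζ + ρ) x) := by
  classical
  have hPr := Pool.Agent.Y658.SY.t_PROD
  choose! u β ρ hu hun huz hβ hρ hβρ hpos using h
  obtain ⟨t, htD, htc⟩ := hD.isCompact.elim_nhds_subcover (fun z => {y | z ∈ D → 0 < u z y})
    (fun z hz => by
      have := (isOpen_lt continuous_const (hu z hz).1.continuous).mem_nhds (huz z hz)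
      filter_upwards [this] with y hy _ using hy)
  -- normalisation
  have hS : KFlat σ D (fun x => ∑ z : ↥t, u z x) := KFlat.sum _ fun z _ => hu z (htD z z.2)
  have hSnn : ∀ x, 0 ≤ ∑ z : ↥t, u z x := fun x =>
    Finset.sum_nonneg fun z _ => hun z (htD z z.2) x
  have hSpos : ∀ x ∈ D, 0 < ∑ z : ↥t, u z x := by
    intro x hx
    obtain ⟨z, hzt, hz⟩ := mem_iUnion₂.1 (htc hx)
    have hz' : 0 < u z x := hz (htD z hzt)
    exact lt_of_lt_of_le hz' (Finset.single_le_sum (f := fun z : ↥t => u z x)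
      (fun z _ => hun z (htD z z.2) x) (Finset.mem_univ (⟨z, hzt⟩ : ↥t)))
  have hWo : IsClosed {x | 0 < ∑ z : ↥t, u z x}ᶜ :=
    (isOpen_lt continuous_const hS.1.continuous).isClosed_compl
  have hdis : Disjoint D ({x | 0 < ∑ z : ↥t, u z x}ᶜ) := by
    rw [Set.disjoint_left]
    intro x hx hx2
    exact hx2 (hSpos x hx)
  obtain ⟨ψ, hψ0, hψ1, hψ⟩ := exists_contMDiffMap_zero_one_nhds_of_isClosed
    (n := (⊤ : ℕ∞)) (𝓡 d) hD hWo hdis
  have hψs : SmoothFun (d := d) (fun x => ψ x) := ψ.contMDiff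
  have e0 : ∀ x ∈ D, ∀ᶠ y in 𝓝 x, ψ y = 0 := fun x hx => hψ0.filter_mono (nhds_le_nhdsSet hx)
  have e1 : ∀ x, ¬ (0 < ∑ z : ↥t, u z x) → ψ x = 1 := fun x hx =>
    (hψ1.filter_mono (nhds_le_nhdsSet (show x ∈ {x | 0 < ∑ z : ↥t, u z x}ᶜ from hx))).self_of_nhds
  have hψK : KFlat σ D (fun x => ψ x) := ⟨hψs, fun x hx v _ => dd_eventually_const (e0 x hx) v⟩
  have hT := hS.add hψK
  have hTpos : ∀ x, 0 < (∑ z : ↥t, u z x) + ψ x := by
    intro x
    by_cases hx : 0 < ∑ z : ↥t, u z x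
    · exact add_pos_of_pos_of_nonneg hx (hψ x).1
    · rw [e1 x hx]
      exact add_pos_of_nonneg_of_pos (hSnn x) one_pos
  have hTi := hT.inv fun x => (hTpos x).ne'
  -- the new functions
  let r : ↥t → X → ℝ := fun z x => u z x * ((∑ z : ↥t, u z x) + ψ x)⁻¹
  have hr : ∀ z : ↥t, KFlat σ D (r z) := fun z => (hu z (htD z z.2)).mul hTi
  have hrn : ∀ (z : ↥t) x, 0 ≤ r z x := fun z x =>
    mul_nonneg (hun z (htD z z.2) x) (inv_nonneg.2 (hTpos x).le)
  have hr1 : ∀ x ∈ D, ∑ z : ↥t, r z x = 1 := by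
    intro x hx
    have h0 : ψ x = 0 := (e0 x hx).self_of_nhds
    change ∑ z : ↥t, u z x * ((∑ z : ↥t, u z x) + ψ x)⁻¹ = 1
    rw [← Finset.sum_mul, h0, add_zero]
    exact mul_inv_cancel₀ (hSpos x hx).ne'
  have hP1 := fun z : ↥t => hPr d X (r z) (β z) (ρ z) (hr z).1 (hβ z (htD z z.2))
    (hρ z (htD z z.2)) (hβρ z (htD z z.2))
  have hdsum : ∀ s : Finset ↥t, IsD (∑ y ∈ s, (fun x => r y x • β y x : Form d X 1))
      (∑ y ∈ s, prodD (r y) (β y) (ρ y)) := by
    intro s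
    induction s using Finset.induction_on with
    | empty =>
      rw [Finset.sum_empty, Finset.sum_empty]
      exact IsD.zero
    | insert a s ha ih =>
      rw [Finset.sum_insert ha, Finset.sum_insert ha]
      exact (hP1 a).2.2.1.add ih (hP1 a).1 (IsSmooth.sum _ fun y _ => (hP1 y).1)
  refine ⟨∑ y : ↥t, (fun x => r y x • β y x : Form d X 1), ∑ y : ↥t, prodD (r y) (β y) (ρ y),
    IsSmooth.sum _ fun y _ => (hP1 y).1, IsSmooth.sum _ fun y _ => (hP1 y).2.1,
    hdsum Finset.univ, fun x hx => ?_⟩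
  -- positivity
  have h1 : ∀ s : Finset ↥t, P x (∑ y : ↥t, r y x • (ζ + ρ y) x) →
      P x (∑ y : ↥t, r y x • (ζ + ρ y) x + ∑ y ∈ s, duw (r y) (β y) x) := by
    intro s h0
    induction s using Finset.induction_on with
    | empty => rw [Finset.sum_empty, add_zero]; exact h0
    | insert a s ha ih =>
      rw [Finset.sum_insert ha, add_left_comm, add_comm]
      refine hP.ker x hx _ _ (dd (r a) x) (fun w => β a x ![w]) ((hr a).2 x hx) ?_ ih
      intro v w
      have h2 := (hP1 a).2.2.2.2 x v w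
      have h3 : prodD (r a) (β a) (ρ a) x ![v, w] = duw (r a) (β a) x ![v, w] +
          r a x * ρ a x ![v, w] := rfl
      rw [h3] at h2
      linarith
  have h2 : P x (∑ y : ↥t, r y x • (ζ + ρ y) x) := by
    obtain ⟨z, hz⟩ : ∃ z : ↥t, 0 < r z x := by
      by_contra hne
      push Not at hne
      have h3 : ∑ z : ↥t, r z x ≤ 0 := Finset.sum_nonpos fun z _ => hne z
      rw [hr1 x hx] at h3
      linarith
    refine hP.sum hx Finset.univ _ _ (fun z _ => hrn z x) (fun z _ hz => ?_)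
      ⟨z, Finset.mem_univ _, hz⟩
    exact hpos z (htD z z.2) x hx (left_ne_zero_of_mul hz)
  have h3 := h1 Finset.univ h2
  convert h3 using 1
  have h4 : ζ x = ∑ y : ↥t, r y x • ζ x := by
    rw [← Finset.sum_smul, hr1 x hx, one_smul]
  have h5 : (ζ + ∑ y : ↥t, prodD (r y) (β y) (ρ y)) x =
      ζ x + ∑ y : ↥t, (duw (r y) (β y) x + r y x • ρ y x) := by
    rw [Pi.add_apply, Finset.sum_apply]
    rfl
  rw [h5, Finset.sum_add_distrib]
  have h6 : ∀ y : ↥t, r y x • (ζ + ρ y) x = r y x • ζ x + r y x • ρ y x := fun y => by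
    rw [Pi.add_apply, smul_add]
  rw [Finset.sum_congr rfl fun y _ => h6 y, Finset.sum_add_distrib, ← h4]
  abel

end

end Pool.Agent.R772
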