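import Pool.Agent.R772.Wedge2
import Pool.Agent.Y501.SY.Step

/-!
Positivity of top powers of two-forms near a point.
-/

set_option autoImplicit false

open Set Filter Topology
open scoped Manifold ContDiff

noncomputable section

namespace Pool.Agent.R772

open Pool.Agent.Y501.SY

section

variable {d m : ℕ} {X : Type} [TopologicalSpace X] [ChartedSpace (E d) X]

variable (d m X) in
/-- forms of degree `2 (m + 1)`, with arguments indexed by pairs -/
abbrev Top : Type := (x : X) → (TangentSpace (𝓡 d) x) [⋀^(Fin (m + 1) × Fin 2)]→L[ℝ] ℝ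

/-- nowhere vanishing continuous top degree forms -/
structure IsVol (vol : Top d m X) : Prop where
  ne : ∀ x, ∃ e, vol x e ≠ 0
  cont : ∀ (x₀ : X) (e : Fin (m + 1) × Fin 2 → E d), ContinuousOn
    (fun p => vol ((chartAt (E d) x₀).symm p)
      (fun k => mfderiv (𝓡 d) (𝓡 d) (chartAt (E d) x₀).symm p (e k))) (chartAt (E d) x₀).target

/-- `σ ^ (m + 1)` is positive at `x` -/
def PosTop (vol : Top d m X) (σ : Form d X 2) (x : X) : Prop :=
  ∀ e : Fin (m + 1) × Fin 2 → TangentSpace (𝓡 d) x, 0 < vol x e →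
    0 < wedge (fun _ : Fin (m + 1) => σ x) e

/-- `σ ^ m ∧ η` is positive at `x` -/
def LinPos (vol : Top d m X) (σ η : Form d X 2) (x : X) : Prop :=
  ∀ e : Fin (m + 1) × Fin 2 → TangentSpace (𝓡 d) x, 0 < vol x e →
    0 < wedge (Fin.cons (η x) (fun _ : Fin m => σ x)) e

theorem wedge_pb {n : ℕ} (φ : E d → X) (s : Fin n → Form d X 2) (p : E d)
    (e : Fin n × Fin 2 → E d) :
    wedge (fun i => pb φ (s i) p) e =
      wedge (fun i => s i (φ p)) (fun k => mfderiv (𝓡 d) (𝓡 d) φ p (e k)) := by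
  unfold wedge
  refine Finset.sum_congr rfl fun π _ => ?_
  congr 1
  refine Finset.prod_congr rfl fun i _ => ?_
  exact pb_app2 φ (s i) p _ _

theorem wedge_pb_cons {m : ℕ} (φ : E d → X) (η σ : Form d X 2) (p : E d)
    (e : Fin (m + 1) × Fin 2 → E d) :
    wedge (Fin.cons (pb φ η p) (fun _ : Fin m => pb φ σ p)) e =
      wedge (Fin.cons (η (φ p)) (fun _ : Fin m => σ (φ p)))
        (fun k => mfderiv (𝓡 d) (𝓡 d) φ p (e k)) := by
  have h := wedge_pb φ (Fin.cons η (fun _ : Fin m => σ) : Fin (m + 1) → Form d X 2) p e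
  have h1 : (fun i => pb φ ((Fin.cons η (fun _ : Fin m => σ) : Fin (m + 1) → Form d X 2) i) p) =
      Fin.cons (pb φ η p) (fun _ : Fin m => pb φ σ p) := by
    funext i
    refine Fin.cases ?_ (fun i => ?_) i
    · simp
    · simp
  have h2 : (fun i => (Fin.cons η (fun _ : Fin m => σ) : Fin (m + 1) → Form d X 2) i (φ p)) =
      Fin.cons (η (φ p)) (fun _ : Fin m => σ (φ p)) := by
    funext i
    refine Fin.cases ?_ (fun i => ?_) i
    · simp
    · simp
  rw [h1, h2] at h
  exact h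

theorem frame_iff (hd : d = 2 * (m + 1)) (vol : Top d m X) {x : X}
    {f : Fin (m + 1) × Fin 2 → TangentSpace (𝓡 d) x} (hf : 0 < vol x f)
    (s : Fin (m + 1) → (TangentSpace (𝓡 d) x) [⋀^Fin 2]→L[ℝ] ℝ) :
    (∀ e, 0 < vol x e → 0 < wedge s e) ↔ 0 < wedge s f := by
  have hn : Module.finrank ℝ (TangentSpace (𝓡 d) x) = 2 * (m + 1) := by
    change Module.finrank ℝ (EuclideanSpace ℝ (Fin d)) = _
    rw [finrank_euclideanSpace, Fintype.card_fin, hd]
  have hfd : FiniteDimensional ℝ (TangentSpace (𝓡 d) x) :=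
    inferInstanceAs (FiniteDimensional ℝ (EuclideanSpace ℝ (Fin d)))
  refine ⟨fun h => h f hf, fun h e he => ?_⟩
  have h1 := wedge_mul hn s (vol x).toAlternatingMap e f
  have h2 : wedge s e * vol x f = wedge s f * vol x e := h1
  have h3 : 0 < wedge s e * vol x f := by rw [h2]; exact mul_pos h he
  exact (pos_iff_pos_of_mul_pos h3).2 hf

theorem frame_iff' (hd : d = 2 * (m + 1)) (vol : Top d m X) {x : X}
    {f : Fin (m + 1) × Fin 2 → TangentSpace (𝓡 d) x} (hf : 0 < vol x f)
    (s : Fin (m + 1) → (TangentSpace (𝓡 d) x) [⋀^Fin 2]→L[ℝ] ℝ)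
    {e : Fin (m + 1) × Fin 2 → TangentSpace (𝓡 d) x} (he : wedge s e ≠ 0) : wedge s f ≠ 0 := by
  have hn : Module.finrank ℝ (TangentSpace (𝓡 d) x) = 2 * (m + 1) := by
    change Module.finrank ℝ (EuclideanSpace ℝ (Fin d)) = _
    rw [finrank_euclideanSpace, Fintype.card_fin, hd]
  have hfd : FiniteDimensional ℝ (TangentSpace (𝓡 d) x) :=
    inferInstanceAs (FiniteDimensional ℝ (EuclideanSpace ℝ (Fin d)))
  have h1 := wedge_mul hn s (vol x).toAlternatingMap e f
  have h2 : wedge s e * vol x f = wedge s f * vol x e := h1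
  intro h0
  rw [h0, zero_mul] at h2
  exact (mul_ne_zero he hf.ne') h2

variable [IsManifold (𝓡 d) ∞ X]

/-- a frame of a chart which is positive near the centre of the chart -/
theorem exists_frame {vol : Top d m X} (hvol : IsVol vol) (z : X) :
    ∃ e : Fin (m + 1) × Fin 2 → E d, ∀ᶠ p in 𝓝 (chartAt (E d) z z),
      p ∈ (chartAt (E d) z).target ∧ 0 < vol ((chartAt (E d) z).symm p)
        (fun k => mfderiv (𝓡 d) (𝓡 d) (chartAt (E d) z).symm p (e k)) := by
  set c := chartAt (E d) z with hc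
  have hz : z ∈ c.source := mem_chart_source (E d) z
  have hp0 : c z ∈ c.target := c.map_source hz
  have hcd : c.MDifferentiable (𝓡 d) (𝓡 d) := mdifferentiable_chart (I := 𝓡 d) z
  have hsurj : Function.Surjective (mfderiv (𝓡 d) (𝓡 d) c.symm (c z)) :=
    hcd.symm.mfderiv_surjective hp0
  obtain ⟨e, he⟩ := hvol.ne (c.symm (c z))
  choose e' he' using fun k => hsurj (e k)
  have h1 : vol (c.symm (c z)) (fun k => mfderiv (𝓡 d) (𝓡 d) c.symm (c z) (e' k)) ≠ 0 := by
    have : (fun k => mfderiv (𝓡 d) (𝓡 d) c.symm (c z) (e' k)) = e := funext he'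
    rw [this]; exact he
  have h2 : ∃ e : Fin (m + 1) × Fin 2 → E d,
      0 < vol (c.symm (c z)) (fun k => mfderiv (𝓡 d) (𝓡 d) c.symm (c z) (e k)) := by
    rcases lt_or_gt_of_ne h1 with h | h
    · refine ⟨Function.update e' (0, 0) (-(e' (0, 0))), ?_⟩
      have h3 : (fun k => mfderiv (𝓡 d) (𝓡 d) c.symm (c z)
          (Function.update e' (0, 0) (-(e' (0, 0))) k)) =
          Function.update (fun k => mfderiv (𝓡 d) (𝓡 d) c.symm (c z) (e' k)) (0, 0)
            (-(mfderiv (𝓡 d) (𝓡 d) c.symm (c z) (e' (0, 0)))) := by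
        funext k
        by_cases hk : k = (0, 0)
        · subst hk
          rw [Function.update_self, Function.update_self, map_neg]
        · rw [Function.update_of_ne hk, Function.update_of_ne hk]
      refine lt_of_lt_of_eq ?_ (congrArg (vol (c.symm (c z))) h3).symm
      have h5 := (vol (c.symm (c z))).map_update_neg
        (fun k => mfderiv (𝓡 d) (𝓡 d) c.symm (c z) (e' k)) (0, 0)
        (mfderiv (𝓡 d) (𝓡 d) c.symm (c z) (e' (0, 0)))
      have h6 : Function.update (fun k => mfderiv (𝓡 d) (𝓡 d) c.symm (c z) (e' k)) (0, 0)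
          (mfderiv (𝓡 d) (𝓡 d) c.symm (c z) (e' (0, 0))) =
          fun k => mfderiv (𝓡 d) (𝓡 d) c.symm (c z) (e' k) := Function.update_eq_self _ _
      rw [h6] at h5
      refine lt_of_lt_of_eq (neg_pos.2 h) ?_
      exact h5.symm
    · exact ⟨e', h⟩
  obtain ⟨e, he⟩ := h2
  refine ⟨e, ?_⟩
  have h4 := (hvol.cont z e).continuousAt (c.open_target.mem_nhds hp0)
  filter_upwards [h4.eventually (lt_mem_nhds he), c.open_target.mem_nhds hp0] with p hp hpt
  exact ⟨hpt, hp⟩

omit [IsManifold (𝓡 d) ∞ X] in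
theorem nhds_of_chart (z : X) {P : X → Prop}
    (h : ∀ᶠ p in 𝓝 (chartAt (E d) z z), P ((chartAt (E d) z).symm p)) : ∀ᶠ y in 𝓝 z, P y := by
  have hz : z ∈ (chartAt (E d) z).source := mem_chart_source (E d) z
  have h1 := ((chartAt (E d) z).continuousAt hz).eventually h
  filter_upwards [h1, (chartAt (E d) z).open_source.mem_nhds hz] with y hy hys
  rwa [(chartAt (E d) z).left_inv hys] at hy

theorem IsSmooth.contChart {k : ℕ} {σ : Form d X k} (hσ : IsSmooth σ) (z : X) :
    ContinuousOn (pb (chartAt (E d) z).symm σ) (chartAt (E d) z).target :=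
  (hσ _ _ (chartAt (E d) z).open_target (contMDiffOn_chart_symm (I := 𝓡 d))).continuousOn

end

end Pool.Agent.R772
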