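import Pool.Agent.R772.MainC
import Pool.Agent.R772.Pos
import Pool.Agent.Y108.SY.Pert2

/-!
Closed two-forms which are weakly taming near their degenerate points: positivity on the kernels.
-/

set_option autoImplicit false

open Set Filter Topology MeasureTheory
open scoped Manifold ContDiff

noncomputable section

namespace Pool.Agent.R772

open Pool.Agent.Y501.SY
open Pool.Agent.Y455.SY (Q A B BA A_surj Q_eq Q_smul Q_cont Q_sum)
open Pool.Agent.Y108.SY (A_ne Q_cont')

section

variable {d : ℕ} {X : Type} [TopologicalSpace X] [ChartedSpace (E d) X]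

/-- the degenerate points of `σ` -/
def KD (σ : Form d X 2) : Set X :=
  {x | ∃ v : TangentSpace (𝓡 d) x, v ≠ 0 ∧ ∀ w, σ x ![v, w] = 0}

/-- the cone of the forms which are positive on `(v, J v)` for `v` in the kernel of `σ` -/
def PJ (σ : Form d X 2) (J : End d X) : PField d X := fun x a =>
  ∀ v : TangentSpace (𝓡 d) x, v ≠ 0 → (∀ w, σ x ![v, w] = 0) → 0 < a ![v, J x v]

/-- `J` is an almost complex structure at `x`, and continuous at `x`. -/
structure ACat (J : End d X) (x : X) : Prop where
  sq : ∀ v : TangentSpace (𝓡 d) x, J x (J x v) = -v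
  cont : ContinuousAt (inChart J x) (chartAt (E d) x x)

/-- weakly taming -/
def WT (σ : Form d X 2) (J : End d X) (x : X) : Prop :=
  ∀ v : TangentSpace (𝓡 d) x, 0 ≤ σ x ![v, J x v]

section lin

variable {V : Type} [AddCommGroup V] [Module ℝ V] [TopologicalSpace V]

theorem alt_add0 (σ : V [⋀^Fin 2]→L[ℝ] ℝ) (v v' w : V) :
    σ ![v + v', w] = σ ![v, w] + σ ![v', w] := by
  have hupd0 : ∀ (v w y : V), Function.update ![v, w] 0 y = ![y, w] := by
    intro v w y; funext i; fin_cases i <;> simp
  have h := σ.toAlternatingMap.map_update_add ![v, w] 0 v v'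
  rw [hupd0, hupd0, hupd0] at h
  exact h

theorem alt_add1 (σ : V [⋀^Fin 2]→L[ℝ] ℝ) (v w w' : V) :
    σ ![v, w + w'] = σ ![v, w] + σ ![v, w'] := by
  rw [alt_swap, alt_add0, alt_swap σ w v, alt_swap σ w' v]
  ring

theorem alt_smul0 (σ : V [⋀^Fin 2]→L[ℝ] ℝ) (c : ℝ) (v w : V) :
    σ ![c • v, w] = c * σ ![v, w] := by
  have hupd0 : ∀ (v w y : V), Function.update ![v, w] 0 y = ![y, w] := by
    intro v w y; funext i; fin_cases i <;> simp
  have h := σ.toAlternatingMap.map_update_smul ![v, w] 0 c v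
  rw [hupd0, hupd0] at h
  exact h

theorem alt_smul1 (σ : V [⋀^Fin 2]→L[ℝ] ℝ) (c : ℝ) (v w : V) :
    σ ![v, c • w] = c * σ ![v, w] := by
  rw [alt_swap, alt_smul0, alt_swap σ w v]
  ring

end lin

/-- the kernel of a weakly taming form is invariant -/
theorem WT.ker {σ : Form d X 2} {J : End d X} {x : X}
    (h : WT σ J x) {v : TangentSpace (𝓡 d) x} (hv : ∀ w, σ x ![v, w] = 0)
    (w : TangentSpace (𝓡 d) x) : σ x ![J x v, w] = 0 := by
  -- `s σ(w, J v) + s² σ(w, J w)` is nonnegative for all `s`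
  have h1 : ∀ s : ℝ, 0 ≤ s * σ x ![w, J x v] + s ^ 2 * σ x ![w, J x w] := by
    intro s
    have h2 := h (v + s • w)
    have h3 : σ x ![v + s • w, J x (v + s • w)] =
        s * σ x ![w, J x v] + s ^ 2 * σ x ![w, J x w] := by
      rw [map_add, map_smul, alt_add0, alt_smul0, hv, alt_add1, alt_smul1]
      ring
    rwa [h3] at h2
  have h4 : σ x ![w, J x v] = 0 := by
    by_contra hne
    have hc : 0 ≤ σ x ![w, J x w] := h w
    set c := σ x ![w, J x w] with hcdef
    set b := σ x ![w, J x v] with hbdef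
    have h5 := h1 (-b / (c + 1))
    have hc1 : 0 < c + 1 := by linarith
    have h6 : -b / (c + 1) * b + (-b / (c + 1)) ^ 2 * c = -(b ^ 2) / (c + 1) ^ 2 := by
      field_simp
      ring
    rw [h6] at h5
    have h7 : 0 < b ^ 2 := by positivity
    have h8 : -(b ^ 2) / (c + 1) ^ 2 < 0 := div_neg_of_neg_of_pos (by linarith) (by positivity)
    linarith
  rw [alt_swap, h4, neg_zero]

/-- the pull-back to the chart at `x` -/
def C2 (σ : Form d X 2) (x : X) (p v w : E d) : ℝ := pb (chartAt (E d) x).symm σ p ![v, w]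

theorem C2_eq (σ : Form d X 2) (x : X) (p v w : E d) :
    C2 σ x p v w = σ ((chartAt (E d) x).symm p) ![A x p v, A x p w] :=
  pb_app2 _ _ _ _ _

theorem C2_smul (σ : Form d X 2) (x : X) (p v w : E d) (s : ℝ) :
    C2 σ x p (s • v) w = s * C2 σ x p v w := alt_smul0 _ _ _ _

theorem C2_cont {Z : Type} [TopologicalSpace Z] {σ : Form d X 2} (hσ : IsSmooth σ)
    [IsManifold (𝓡 d) ∞ X] (x : X) {p v : E d} (hp : p ∈ (chartAt (E d) x).target) (z : Z)
    (w : E d) : ContinuousAt (fun q : (E d × Z) × E d => C2 σ x q.1.1 q.2 w) ((p, z), v) := by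
  have h1 : ContinuousAt (pb (chartAt (E d) x).symm σ) p :=
    ((hσ _ _ (chartAt (E d) x).open_target (contMDiffOn_chart_symm)).continuousOn).continuousAt
      ((chartAt (E d) x).open_target.mem_nhds hp)
  have h3 : ContinuousAt (fun q : (E d × Z) × E d => pb (chartAt (E d) x).symm σ q.1.1)
      ((p, z), v) :=
    ContinuousAt.comp (f := fun q : (E d × Z) × E d => q.1.1) (x := ((p, z), v)) h1
      (continuousAt_fst.comp continuousAt_fst)
  have h6 : ContinuousAt (fun q : (E d × Z) × E d => (![q.2, w] : Fin 2 → E d)) ((p, z), v) := by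
    rw [continuousAt_pi]
    intro i
    fin_cases i
    · exact continuousAt_snd
    · exact continuousAt_const
  exact h3.eval h6

variable [IsManifold (𝓡 d) ∞ X]

theorem Q_contL {σ : Form d X 2} (hσ : IsSmooth σ) {J : End d X} {x : X}
    (hJ : ContinuousAt (inChart J x) (chartAt (E d) x x)) (v : E d) :
    ContinuousAt (fun z : E d × E d => Q σ J x z.1 z.2) (chartAt (E d) x x, v) := by
  have hp : chartAt (E d) x x ∈ (chartAt (E d) x).target := mem_chart_target (E d) x
  have h1 : ContinuousAt (pb (chartAt (E d) x).symm σ) (chartAt (E d) x x) :=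
    ((hσ _ _ (chartAt (E d) x).open_target (contMDiffOn_chart_symm)).continuousOn).continuousAt
      ((chartAt (E d) x).open_target.mem_nhds hp)
  have h3 : ContinuousAt (fun z : E d × E d => pb (chartAt (E d) x).symm σ z.1)
      (chartAt (E d) x x, v) :=
    ContinuousAt.comp (f := Prod.fst) (x := (chartAt (E d) x x, v)) h1 continuousAt_fst
  have h4 : ContinuousAt (fun z : E d × E d => inChart J x z.1) (chartAt (E d) x x, v) :=
    ContinuousAt.comp (f := Prod.fst) (x := (chartAt (E d) x x, v)) hJ continuousAt_fst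
  have h5 : ContinuousAt (fun z : E d × E d => inChart J x z.1 z.2) (chartAt (E d) x x, v) :=
    h4.clm_apply continuousAt_snd
  have h6 : ContinuousAt (fun z : E d × E d => (![z.2, inChart J x z.1 z.2] : Fin 2 → E d))
      (chartAt (E d) x x, v) := by
    rw [continuousAt_pi]
    intro i
    fin_cases i
    · exact continuousAt_snd
    · exact h5
  exact h3.eval h6

theorem Q_contL' {Z : Type} [TopologicalSpace Z] {τ : Form d X 2} (hτ : IsSmooth τ) {J : End d X}
    {x : X} (hJ : ContinuousAt (inChart J x) (chartAt (E d) x x)) {v : E d} (z : Z) :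
    ContinuousAt (fun w : (E d × Z) × E d => Q τ J x w.1.1 w.2)
      ((chartAt (E d) x x, z), v) := by
  have h2 : ContinuousAt (fun w : (E d × Z) × E d => (w.1.1, w.2))
      ((chartAt (E d) x x, z), v) := by
    fun_prop
  exact ContinuousAt.comp (f := fun w : (E d × Z) × E d => (w.1.1, w.2))
    (x := ((chartAt (E d) x x, z), v)) (g := fun z : E d × E d => Q τ J x z.1 z.2)
    (Q_contL hτ hJ v) h2

theorem ker_chart (σ : Form d X 2) (x : X) {p : E d} (hp : p ∈ (chartAt (E d) x).target)
    (v : E d) : (∀ w, σ ((chartAt (E d) x).symm p) ![A x p v, w] = 0) ↔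
      ∀ w, C2 σ x p v w = 0 := by
  constructor
  · intro h w
    rw [C2_eq]
    exact h _
  · intro h w
    obtain ⟨w', rfl⟩ := A_surj x hp w
    have := h w'
    rwa [C2_eq] at this

theorem PJ_chart (σ τ : Form d X 2) (J : End d X) (x : X) {p : E d}
    (hp : p ∈ (chartAt (E d) x).target) :
    PJ σ J ((chartAt (E d) x).symm p) (τ ((chartAt (E d) x).symm p)) ↔
      ∀ v : E d, v ≠ 0 → (∀ w, C2 σ x p v w = 0) → 0 < Q τ J x p v := by
  constructor
  · intro h v hv h1
    rw [Q_eq _ J x hp]
    exact h _ (A_ne hp hv) ((ker_chart σ x hp v).2 h1)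
  · intro h v hv h1
    obtain ⟨w, hw⟩ := A_surj x hp v
    have h3 := h w (by
      rintro rfl
      apply hv
      rw [← hw, map_zero]
      rfl) ((ker_chart σ x hp w).1 (by rw [hw]; exact h1))
    rw [Q_eq τ J x hp, hw] at h3
    exact h3

theorem isCone_PJ {J : End d X} {σ : Form d X 2} (hJ : ∀ x ∈ KD σ, ACat J x)
    (hσ : IsSmooth σ) (hw : ∀ x ∈ KD σ, WT σ J x) : IsCone σ (KD σ) (PJ σ J) := by
  refine ⟨fun x _ a b ha hb v hv h => ?_, fun x _ c a hc ha v hv h => ?_, ?_, ?_⟩
  · exact add_pos (ha v hv h) (hb v hv h)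
  · exact mul_pos hc (ha v hv h)
  · intro κ _ τ η hτ hη x hxD hx
    have hJx := (hJ x hxD).cont
    classical
    set c := chartAt (E d) x with hc
    have hcx : c x ∈ c.target := mem_chart_target (E d) x
    have hx' : ∀ v : E d, v ≠ 0 → (∀ w, C2 σ x (c x) v w = 0) → 0 < Q τ J x (c x) v := by
      rw [← PJ_chart σ τ J x hcx, c.left_inv (mem_chart_source (E d) x)]
      exact hx
    set G : (E d × (κ → ℝ)) → E d → ℝ := fun z v => Q τ J x z.1 v +
      ∑ k, z.2 k * Q (η k) J x z.1 v with hG
    have key : ∀ᶠ z : E d × (κ → ℝ) in 𝓝 (c x, 0), ∀ v ∈ Metric.sphere (0 : E d) 1,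
        ((∀ w, C2 σ x z.1 v w = 0) → 0 < G z v) := by
      refine IsCompact.eventually_forall_of_forall_eventually
        (P := fun (z : E d × (κ → ℝ)) (v : E d) =>
          (∀ w, C2 σ x z.1 v w = 0) → 0 < G z v) (isCompact_sphere _ _) ?_
      intro v hv
      have hv0 : v ≠ 0 := by
        rintro rfl
        simp at hv
      by_cases h1 : ∀ w, C2 σ x (c x) v w = 0
      · have hcont : ContinuousAt (fun w : (E d × (κ → ℝ)) × E d => G w.1 w.2)
            ((c x, 0), v) := by
          refine (Q_contL' hτ hJx 0).add ?_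
          refine tendsto_finsetSum _ fun k _ => ?_
          have h3 : ContinuousAt (fun w : (E d × (κ → ℝ)) × E d => w.1.2 k)
              ((c x, 0), v) := by
            fun_prop
          exact h3.mul (Q_contL' (hη k) hJx 0)
        have hpos : 0 < G (c x, 0) v := by
          simp only [hG, Pi.zero_apply, zero_mul, Finset.sum_const_zero, add_zero]
          exact hx' v hv0 h1
        filter_upwards [hcont.eventually (lt_mem_nhds hpos)] with w hw _
        exact hw
      · push Not at h1
        obtain ⟨w₀, hw₀⟩ := h1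
        have h3 := (C2_cont (v := v) hσ x hcx (0 : κ → ℝ) w₀).eventually_ne hw₀
        filter_upwards [h3] with w hw hw'
        exact absurd (hw' w₀) hw
    rw [nhds_prod_eq, eventually_prod_iff] at key
    obtain ⟨pa, hpa, pb', hpb, hP⟩ := key
    rw [Metric.eventually_nhds_iff] at hpb
    obtain ⟨δ, hδ, hpb⟩ := hpb
    refine ⟨δ / 2, by positivity, ?_⟩
    have h1 : ∀ᶠ y in 𝓝 x, pa (c y) :=
      (c.continuousAt (mem_chart_source (E d) x)).eventually hpa
    have h2 : ∀ᶠ y in 𝓝 x, y ∈ c.source := c.open_source.mem_nhds (mem_chart_source (E d) x)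
    filter_upwards [h1, h2] with y hy hys _ t ht
    have hcy : c y ∈ c.target := c.map_source hys
    rw [← c.left_inv hys, PJ_chart _ _ J x hcy]
    intro v hv hvk
    have e : v = ‖v‖ • (‖v‖⁻¹ • v) := by
      rw [smul_smul, mul_inv_cancel₀ (norm_ne_zero_iff.2 hv), one_smul]
    rw [e, Q_smul]
    refine mul_pos (pow_pos (norm_pos_iff.2 hv) 2) ?_
    rw [Q_sum]
    refine hP hy (hpb ?_) (‖v‖⁻¹ • v) ?_ (fun w => by rw [C2_smul, hvk, mul_zero])
    · rw [dist_zero_right]
      have h3 : ‖t‖ ≤ δ / 2 := by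
        rw [pi_norm_le_iff_of_nonneg (by positivity)]
        exact ht
      linarith
    · rw [mem_sphere_zero_iff_norm, norm_smul, norm_inv, norm_norm,
        inv_mul_cancel₀ (norm_ne_zero_iff.2 hv)]
  · intro x hx a b l c hl hb ha v hv hk
    have h1 : (a + b) ![v, J x v] = a ![v, J x v] + b ![v, J x v] := rfl
    have h2 := (hw x hx).ker hk
    rw [h1, hb, hl v hk, hl (J x v) h2]
    have := ha v hv hk
    linarith

end

end Pool.Agent.R772
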