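import Pool.Agent.R462.HC.Hardy

/-!
The quadratic form of the velocity gradient on localized test fields.
-/

set_option autoImplicit false

open MeasureTheory Set Filter Topology
open scoped InnerProductSpace ContDiff ENNReal

namespace Pool.Agent.R772.LI

open H772R2.NS Pool.Agent.TH340.FF Pool.Agent.R462.HC

variable {Ω : Set E3}

/-- the divergence -/
noncomputable def dv (Φ : E3 → E3) (x : E3) : ℝ := ∑ j, jac Φ x (j, j)

/-- the vector field `∑ⱼ ∂ⱼ(Φᵢ Φⱼ)` -/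
noncomputable def gg (Φ : E3 → E3) (x : E3) : E3 := f1 Φ x + dv Φ x • Φ x

variable {Φ : E3 → E3}

theorem gg_apply (Φ : E3 → E3) (x : E3) (i : Fin 3) :
    gg Φ x i = (∑ j, Φ x j * jac Φ x (i, j)) + (∑ j, jac Φ x (j, j)) * Φ x i := rfl

theorem dv_cont (h : ContDiff ℝ ∞ Φ) : Continuous (dv Φ) :=
  continuous_finsetSum _ fun j _ => cont_jac_coord h j j

theorem gg_cont (h : ContDiff ℝ ∞ Φ) : Continuous (gg Φ) :=
  (f1_cont h).add ((dv_cont h).smul h.continuous)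

theorem gg_zero {x : E3} (h : Φ x = 0) : gg Φ x = 0 := by
  refine PiLp.ext fun i => ?_
  rw [gg_apply, h]
  simp

theorem gg_comp (hc : HasCompactSupport Φ) : HasCompactSupport (gg Φ) :=
  hc.mono fun _ hx h0 => hx (gg_zero h0)

theorem smooth_gen {ψ : E3 → E3} (hsm : ContDiff ℝ ∞ Φ) (hc : HasCompactSupport Φ)
    (hψ : ContDiff ℝ ∞ ψ) :
    ∫ x, ∑ i, ψ x i * gg Φ x i = -∫ x, ∑ i, ∑ j, Φ x i * Φ x j * jac ψ x (i, j) := by
  have hg : ∀ i j, ContDiff ℝ 1 fun x => Φ x i * Φ x j := fun i j =>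
    ((contDiff_coord hsm i).mul (contDiff_coord hsm j)).of_le (by exact_mod_cast le_top)
  have hgc : ∀ i j, HasCompactSupport fun x => Φ x i * Φ x j := fun i j =>
    (hasCompactSupport_coord hc i).mul_right
  have e1 : ∀ x, ∑ i, ψ x i * gg Φ x i
      = ∑ i, ∑ j, ψ x i * fderiv ℝ (fun x => Φ x i * Φ x j) x (ev j) := by
    intro x
    refine Finset.sum_congr rfl fun i _ => ?_
    rw [← Finset.mul_sum, gg_apply]
    congr 1
    simp_rw [fderiv_mul_coord hsm]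
    rw [Finset.sum_add_distrib, ← Finset.mul_sum]
    ring
  have i1 : ∀ i j, Integrable fun x => ψ x i * fderiv ℝ (fun x => Φ x i * Φ x j) x (ev j) :=
    fun i j => by
      have hdg : Continuous fun x => fderiv ℝ (fun x => Φ x i * Φ x j) x (ev j) :=
        ((hg i j).continuous_fderiv (by norm_num)).clm_apply continuous_const
      have hdgc : HasCompactSupport fun x => fderiv ℝ (fun x => Φ x i * Φ x j) x (ev j) :=
        ((hgc i j).fderiv (𝕜 := ℝ)).comp_left (g := fun L : E3 →L[ℝ] ℝ => L (ev j)) (by simp)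
      exact ((contDiff_coord hψ i).continuous.mul hdg).integrable_of_hasCompactSupport
        hdgc.mul_left
  have i2 : ∀ i j, Integrable fun x => Φ x i * Φ x j * jac ψ x (i, j) := fun i j =>
    ((hg i j).continuous.mul (cont_jac_coord hψ i j)).integrable_of_hasCompactSupport
      (hgc i j).mul_right
  simp_rw [e1]
  rw [integral_finsetSum _ fun i _ => integrable_finsetSum _ fun j _ => i1 i j,
    integral_finsetSum _ fun i _ => integrable_finsetSum _ fun j _ => i2 i j,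
    ← Finset.sum_neg_distrib]
  refine Finset.sum_congr rfl fun i _ => ?_
  rw [integral_finsetSum _ fun j _ => i1 i j, integral_finsetSum _ fun j _ => i2 i j,
    ← Finset.sum_neg_distrib]
  refine Finset.sum_congr rfl fun j _ => ?_
  rw [ibp_prod hψ (hg i j) (hgc i j) i j]
  congr 1
  refine integral_congr_ae (Eventually.of_forall fun x => ?_)
  simp only
  ring

/-- `∫ U·div(Φ ⊗ Φ) = -(Φ ⊗ Φ, ∇U)` -/
theorem int_gg (hΩ : MeasurableSet Ω) (hsm : ContDiff ℝ ∞ Φ) (hc : HasCompactSupport Φ)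
    (hs : tsupport Φ ⊆ Ω) {p : L2V Ω × L2M Ω} (hp : p ∈ graphW Ω) :
    ∫ x in Ω, ∑ i, p.1 x i * gg Φ x i = -∫ x in Ω, ⟪p.2 x, tens (Φ x)⟫_ℝ := by
  obtain ⟨α, hα⟩ := pair_int hΩ (gg_cont hsm) (gg_comp hc)
  have hTc : HasCompactSupport fun x => tens (Φ x) := by
    refine hc.mono fun x hx h0 => hx ?_
    have : tens (0 : E3) = 0 := by
      refine PiLp.ext fun r => ?_
      simp [tens_apply]
    simp only [h0]
    exact this
  have hm : MemLp (fun x => tens (Φ x)) 2 ((volume : Measure E3).restrict Ω) :=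
    ((continuous_tens.comp hsm.continuous).memLp_of_hasCompactSupport hTc).restrict Ω
  have hT : ∀ z : L2M Ω, ⟪hm.toLp _, z⟫_ℝ = ∫ x in Ω, ⟪z x, tens (Φ x)⟫_ℝ := by
    intro z
    rw [L2.inner_def]
    refine integral_congr_ae ?_
    filter_upwards [hm.coeFn_toLp] with x hx
    rw [hx, real_inner_comm]
  have key := graphW_induction (Ω := Ω) (fun p => ⟪α, p.1⟫_ℝ + ⟪hm.toLp _, p.2⟫_ℝ)
    (by fun_prop) (fun r hr => ?_) hp
  · have h1 := hα p.1
    rw [ext_int hΩ] at h1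
    have h2 := hT p.2
    rw [h2] at key
    rw [h1]
    linarith
  obtain ⟨ψ, h1, h2, h3⟩ := hr
  have hψ0 : ∀ x ∉ Ω, ψ x = 0 := fun x hx =>
    image_eq_zero_of_notMem_tsupport fun hc => hx (h1.supp hc)
  have hΦ0 : ∀ x ∉ Ω, Φ x = 0 := fun x hx =>
    image_eq_zero_of_notMem_tsupport fun hc => hx (hs hc)
  have e1 : ⟪α, r.1⟫_ℝ = ∫ x, ∑ i, ψ x i * gg Φ x i := by
    rw [← hα]
    refine integral_congr_ae ?_
    have h4 := (ae_restrict_iff' hΩ).1 h2
    filter_upwards [h4] with x hx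
    by_cases hxΩ : x ∈ Ω
    · simp only [TH340.FF.ext, indicator_of_mem hxΩ, hx hxΩ]
    · simp only [TH340.FF.ext, indicator_of_notMem hxΩ, hψ0 x hxΩ]
  have e2 : ⟪hm.toLp _, r.2⟫_ℝ = ∫ x, ∑ i, ∑ j, Φ x i * Φ x j * jac ψ x (i, j) := by
    rw [L2.inner_def]
    refine Eq.trans ?_ (setIntegral_eq_integral_of_forall_compl_eq_zero (s := Ω) fun x hx => ?_)
    · refine integral_congr_ae ?_
      filter_upwards [hm.coeFn_toLp, h3] with x a c
      rw [a, c, inner_M3]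
      rfl
    · rw [hΦ0 x hx]
      simp
  show ⟪α, r.1⟫_ℝ + ⟪hm.toLp _, r.2⟫_ℝ = 0
  rw [e1, e2, smooth_gen hsm hc h1.smooth]
  ring

/-! ### integrability -/

theorem JJ_comp (hc : HasCompactSupport Φ) : HasCompactSupport (JJ Φ) := by
  refine (hasCompactSupport_jac hc).mono fun x hx h0 => hx ?_
  rw [JJ_eq, h0]
  simp

theorem NN_comp (hc : HasCompactSupport Φ) : HasCompactSupport (NN Φ) := by
  refine hc.mono fun x hx h0 => hx ?_
  rw [NN_eq, h0]
  simp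

theorem JJ_int' (h : ContDiff ℝ ∞ Φ) (hc : HasCompactSupport Φ) : Integrable (JJ Φ) :=
  (JJ_cont h).integrable_of_hasCompactSupport (JJ_comp hc)

theorem NN_int' (h : ContDiff ℝ ∞ Φ) (hc : HasCompactSupport Φ) : Integrable (NN Φ) :=
  (NN_cont h).integrable_of_hasCompactSupport (NN_comp hc)

/-- the form bound for vector fields -/
theorem form_vec {O : Set E3} {W : E3 → ℝ} (hW : FB O W) (h : ContDiff ℝ ∞ Φ)
    (hcm : HasCompactSupport Φ) (hs : tsupport Φ ⊆ O) :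
    ∫⁻ x in O, ENNReal.ofReal (W x * NN Φ x) ≤ ENNReal.ofReal (∫ x, JJ Φ x) := by
  have hc : ∀ i, ContDiff ℝ ∞ (fun x => Φ x i) := contDiff_coord h
  have hcs : ∀ i, HasCompactSupport (fun x => Φ x i) := hasCompactSupport_coord hcm
  have hts : ∀ i, tsupport (fun x => Φ x i) ⊆ O := fun i => by
    refine (closure_mono ?_).trans hs
    intro x hx h0
    apply hx
    simp [h0]
  have hJi : ∀ i, ∀ x, ‖fderiv ℝ (fun y => Φ y i) x‖ ^ 2 = ∑ j, jac Φ x (i, j) ^ 2 := by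
    intro i x
    rw [norm_clm_sq]
    refine Finset.sum_congr rfl fun j _ => ?_
    rw [jac_eq_coord h]
  have hI : ∀ i, Integrable fun x => ‖fderiv ℝ (fun y => Φ y i) x‖ ^ 2 := by
    intro i
    have h1 : Continuous fun x => ‖fderiv ℝ (fun y => Φ y i) x‖ ^ 2 :=
      ((hc i).continuous_fderiv (by simp)).norm.pow 2
    refine h1.integrable_of_hasCompactSupport ?_
    exact ((hcs i).fderiv (𝕜 := ℝ)).comp_left (g := fun L : E3 →L[ℝ] ℝ => ‖L‖ ^ 2) (by simp)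
  have e1 : ∀ x, ENNReal.ofReal (W x * NN Φ x) = ∑ i, ENNReal.ofReal (W x * Φ x i ^ 2) := by
    intro x
    rw [← ENNReal.ofReal_sum_of_nonneg fun i _ => mul_nonneg (hW.nonneg x) (sq_nonneg _),
      ← Finset.mul_sum]
    rfl
  simp_rw [e1]
  have hms : ∀ i : Fin 3, AEMeasurable (fun x => ENNReal.ofReal (W x * Φ x i ^ 2))
      (volume.restrict O) := fun i =>
    (hW.meas.mul ((hc i).continuous.pow 2).measurable.aemeasurable).ennreal_ofReal
  rw [lintegral_finsetSum' _ fun i _ => hms i]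
  have e2 : ∫ x, JJ Φ x = ∑ i, ∫ x, ‖fderiv ℝ (fun y => Φ y i) x‖ ^ 2 := by
    rw [← integral_finsetSum _ fun i _ => hI i]
    refine integral_congr_ae (Eventually.of_forall fun x => ?_)
    simp only
    unfold JJ
    exact Finset.sum_congr rfl fun i _ => (hJi i x).symm
  rw [e2, ENNReal.ofReal_sum_of_nonneg fun i _ => integral_nonneg fun x => by positivity]
  exact Finset.sum_le_sum fun i _ => hW.bound _ (hc i) (hcs i) (hts i)

/-- the integral of a function with a pointwise bound by the potential -/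
theorem int_le' {O : Set E3} {W : E3 → ℝ} (hW : FB O W) (h : ContDiff ℝ ∞ Φ)
    (hcm : HasCompactSupport Φ) (hs : tsupport Φ ⊆ O) {f J : E3 → ℝ} (hJc : Continuous J)
    (hJi : Integrable J) (hJ : ∀ x, 0 ≤ J x)
    {A κ β : ℝ} (hA : 0 ≤ A) (hκ : 0 ≤ κ) (hβ : 0 ≤ β)
    (hf : ∀ᵐ x ∂(volume.restrict O), f x ≤ A * J x + (κ * W x + β) * NN Φ x) :
    ∫ x in O, f x ≤ A * (∫ x, J x) + κ * (∫ x, JJ Φ x) + β * ∫ x, NN Φ x := by
  have hJ1 : 0 ≤ ∫ x, J x := integral_nonneg hJ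
  have hJ0 : 0 ≤ ∫ x, JJ Φ x := integral_nonneg (JJ_nonneg Φ)
  have hN0 : 0 ≤ ∫ x, NN Φ x := integral_nonneg (NN_nonneg Φ)
  have e1 : ∫⁻ x in O, ENNReal.ofReal (A * J x) ≤ ENNReal.ofReal (A * ∫ x, J x) := by
    refine (setLIntegral_le_lintegral _ _).trans ?_
    rw [← ofReal_integral_eq_lintegral_ofReal (hJi.const_mul A)
      (Eventually.of_forall fun x => mul_nonneg hA (hJ x)), integral_const_mul]
  have e3 : ∫⁻ x in O, ENNReal.ofReal (β * NN Φ x) ≤ ENNReal.ofReal (β * ∫ x, NN Φ x) := by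
    refine (setLIntegral_le_lintegral _ _).trans ?_
    rw [← ofReal_integral_eq_lintegral_ofReal ((NN_int' h hcm).const_mul β)
      (Eventually.of_forall fun x => mul_nonneg hβ (NN_nonneg Φ x)), integral_const_mul]
  have e2 : ∫⁻ x in O, ENNReal.ofReal (κ * (W x * NN Φ x)) ≤ ENNReal.ofReal (κ * ∫ x, JJ Φ x) := by
    simp_rw [ENNReal.ofReal_mul hκ]
    rw [lintegral_const_mul' _ _ ENNReal.ofReal_ne_top]
    gcongr
    exact form_vec hW h hcm hs
  have hm1 : Measurable fun x => ENNReal.ofReal (A * J x) :=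
    (hJc.measurable.const_mul A).ennreal_ofReal
  have hm3 : Measurable fun x => ENNReal.ofReal (β * NN Φ x) :=
    ((NN_cont h).measurable.const_mul β).ennreal_ofReal
  have key : ∫⁻ x in O, ENNReal.ofReal (f x)
      ≤ ENNReal.ofReal (A * (∫ x, J x) + κ * (∫ x, JJ Φ x) + β * ∫ x, NN Φ x) := by
    calc ∫⁻ x in O, ENNReal.ofReal (f x)
        ≤ ∫⁻ x in O, (ENNReal.ofReal (A * J x) + (ENNReal.ofReal (β * NN Φ x)
            + ENNReal.ofReal (κ * (W x * NN Φ x)))) := by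
          refine lintegral_mono_ae ?_
          filter_upwards [hf] with x hx
          rw [← ENNReal.ofReal_add (mul_nonneg hβ (NN_nonneg Φ x))
            (mul_nonneg hκ (mul_nonneg (hW.nonneg x) (NN_nonneg Φ x))),
            ← ENNReal.ofReal_add (mul_nonneg hA (hJ x))
            (add_nonneg (mul_nonneg hβ (NN_nonneg Φ x))
              (mul_nonneg hκ (mul_nonneg (hW.nonneg x) (NN_nonneg Φ x))))]
          refine ENNReal.ofReal_le_ofReal (hx.trans (le_of_eq ?_))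
          ring
      _ = (∫⁻ x in O, ENNReal.ofReal (A * J x)) + ((∫⁻ x in O, ENNReal.ofReal (β * NN Φ x))
            + ∫⁻ x in O, ENNReal.ofReal (κ * (W x * NN Φ x))) := by
          rw [lintegral_add_left hm1, lintegral_add_left hm3]
      _ ≤ ENNReal.ofReal (A * ∫ x, J x) + (ENNReal.ofReal (β * ∫ x, NN Φ x)
            + ENNReal.ofReal (κ * ∫ x, JJ Φ x)) := by gcongr
      _ = ENNReal.ofReal (A * (∫ x, J x) + κ * (∫ x, JJ Φ x) + β * ∫ x, NN Φ x) := by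
          rw [← ENNReal.ofReal_add (by positivity) (by positivity),
            ← ENNReal.ofReal_add (by positivity) (by positivity)]
          congr 1
          ring
  refine (int_le_toReal _).trans ?_
  refine (ENNReal.toReal_mono ENNReal.ofReal_ne_top key).trans (le_of_eq ?_)
  exact ENNReal.toReal_ofReal (by positivity)

/-! ### localized fields -/

theorem young (η a b : ℝ) (hη : 0 < η) :
    (a + b) ^ 2 ≤ (1 + η) * a ^ 2 + (1 + 1 / η) * b ^ 2 := by
  have h : (1 + η) * a ^ 2 + (1 + 1 / η) * b ^ 2 - (a + b) ^ 2 = (η * a - b) ^ 2 / η := by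
    field_simp
    ring
  have h2 : 0 ≤ (η * a - b) ^ 2 / η := by positivity
  linarith

/-- `|∇χ|²` -/
noncomputable def DD (χ : E3 → ℝ) (x : E3) : ℝ := ‖fderiv ℝ χ x‖ ^ 2

theorem DD_eq (χ : E3 → ℝ) (x : E3) : DD χ x = ∑ j, fderiv ℝ χ x (ev j) ^ 2 := norm_clm_sq _

theorem DD_nonneg (χ : E3 → ℝ) (x : E3) : 0 ≤ DD χ x := sq_nonneg _

theorem DD_cont {χ : E3 → ℝ} (h : ContDiff ℝ ∞ χ) : Continuous (DD χ) :=
  ((h.continuous_fderiv (by simp)).norm.pow 2)

theorem jac_mul {χ : E3 → ℝ} {φ : E3 → E3} (hχ : ContDiff ℝ ∞ χ) (hφ : ContDiff ℝ ∞ φ) (x : E3)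
    (i j : Fin 3) :
    jac (fun x => χ x • φ x) x (i, j)
      = χ x * jac φ x (i, j) + fderiv ℝ χ x (ev j) * φ x i := by
  have h1 : DifferentiableAt ℝ χ x := (hχ.differentiable (by simp)) x
  have h2 : DifferentiableAt ℝ φ x := (hφ.differentiable (by simp)) x
  rw [jac_apply, jac_apply]
  rw [fderiv_fun_smul h1 h2]
  simp

theorem NN_mul (χ : E3 → ℝ) (φ : E3 → E3) (x : E3) :
    NN (fun x => χ x • φ x) x = χ x ^ 2 * NN φ x := by
  unfold NN
  rw [Finset.mul_sum]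
  refine Finset.sum_congr rfl fun i _ => ?_
  simp only [PiLp.smul_apply, smul_eq_mul]
  ring

theorem JJ_mul {χ : E3 → ℝ} {φ : E3 → E3} (hχ : ContDiff ℝ ∞ χ) (hφ : ContDiff ℝ ∞ φ) {η : ℝ}
    (hη : 0 < η) (x : E3) :
    JJ (fun x => χ x • φ x) x
      ≤ (1 + η) * (χ x ^ 2 * JJ φ x) + (1 + 1 / η) * (DD χ x * NN φ x) := by
  have e : DD χ x * NN φ x = ∑ i, ∑ j, (fderiv ℝ χ x (ev j) * φ x i) ^ 2 := by
    rw [DD_eq, mul_comm]
    unfold NN
    rw [Finset.sum_mul]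
    refine Finset.sum_congr rfl fun i _ => ?_
    rw [Finset.mul_sum]
    refine Finset.sum_congr rfl fun j _ => ?_
    ring
  rw [e]
  unfold JJ
  simp_rw [Finset.mul_sum]
  rw [← Finset.sum_add_distrib]
  refine Finset.sum_le_sum fun i _ => ?_
  rw [← Finset.sum_add_distrib]
  refine Finset.sum_le_sum fun j _ => ?_
  rw [jac_mul hχ hφ]
  refine (young η _ _ hη).trans (le_of_eq ?_)
  ring

theorem gg_mul {χ : E3 → ℝ} {φ : E3 → E3} (hχ : ContDiff ℝ ∞ χ) (h : IsTest Ω φ) (x : E3) :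
    gg (fun x => χ x • φ x) x
      = χ x ^ 2 • f1 φ x + (2 * χ x * ∑ j, fderiv ℝ χ x (ev j) * φ x j) • φ x := by
  refine PiLp.ext fun i => ?_
  rw [gg_apply]
  simp_rw [jac_mul hχ h.smooth]
  have hd := h.divfree x
  have hd' : jac φ x (2, 2) = -jac φ x (0, 0) - jac φ x (1, 1) := by
    rw [Fin.sum_univ_three] at hd
    linarith
  simp only [f1, PiLp.add_apply, PiLp.smul_apply, smul_eq_mul, Fin.sum_univ_three, hd']
  ring

/-- the auxiliary weight -/
noncomputable def JX (η : ℝ) (χ : E3 → ℝ) (φ : E3 → E3) (x : E3) : ℝ :=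
  (1 + η) * (χ x ^ 2 * JJ φ x) + 4 * (1 + 1 / η) * (DD χ x * NN φ x)

theorem JX_nonneg {η : ℝ} (hη : 0 < η) (χ : E3 → ℝ) (φ : E3 → E3) (x : E3) : 0 ≤ JX η χ φ x := by
  have := JJ_nonneg φ x
  have := NN_nonneg φ x
  have := DD_nonneg χ x
  unfold JX
  positivity

theorem gg_sq {χ : E3 → ℝ} {φ : E3 → E3} (hχ : ContDiff ℝ ∞ χ) (h : IsTest Ω φ) {η : ℝ}
    (hη : 0 < η) (x : E3) :
    ‖gg (fun x => χ x • φ x) x‖ ^ 2 ≤ JX η χ φ x * NN (fun x => χ x • φ x) x := by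
  have hJ := JJ_nonneg φ x
  have hN := NN_nonneg φ x
  have hD := DD_nonneg χ x
  rw [gg_mul hχ h, NN_mul]
  set d := ∑ j, fderiv ℝ χ x (ev j) * φ x j with hd
  have hd2 : d ^ 2 ≤ DD χ x * NN φ x := by
    rw [DD_eq, hd]
    exact Finset.sum_mul_sq_le_sq_mul_sq _ _ _
  have h1 : ‖χ x ^ 2 • f1 φ x + (2 * χ x * d) • φ x‖
      ≤ χ x ^ 2 * ‖f1 φ x‖ + |2 * χ x * d| * ‖φ x‖ := by
    refine (norm_add_le _ _).trans (le_of_eq ?_)
    rw [norm_smul, norm_smul, Real.norm_of_nonneg (sq_nonneg _), Real.norm_eq_abs]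
  have h2 : ‖χ x ^ 2 • f1 φ x + (2 * χ x * d) • φ x‖ ^ 2
      ≤ (χ x ^ 2 * ‖f1 φ x‖ + |2 * χ x * d| * ‖φ x‖) ^ 2 := by gcongr
  refine h2.trans ((young η _ _ hη).trans ?_)
  have h3 := norm_f1 φ x
  have e1 : (|2 * χ x * d| * ‖φ x‖) ^ 2 = 4 * χ x ^ 2 * (d ^ 2 * NN φ x) := by
    rw [mul_pow, sq_abs, NN_eq]
    ring
  have e2 : (χ x ^ 2 * ‖f1 φ x‖) ^ 2 = χ x ^ 4 * ‖f1 φ x‖ ^ 2 := by ring
  rw [e1, e2]
  have h4 : χ x ^ 4 * ‖f1 φ x‖ ^ 2 ≤ χ x ^ 4 * (JJ φ x * NN φ x) := by gcongr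
  have h5 : 4 * χ x ^ 2 * (d ^ 2 * NN φ x) ≤ 4 * χ x ^ 2 * (DD χ x * NN φ x * NN φ x) := by gcongr
  have h6 : 0 < 1 + 1 / η := by positivity
  have h7 : 0 < 1 + η := by positivity
  calc (1 + η) * (χ x ^ 4 * ‖f1 φ x‖ ^ 2) + (1 + 1 / η) * (4 * χ x ^ 2 * (d ^ 2 * NN φ x))
      ≤ (1 + η) * (χ x ^ 4 * (JJ φ x * NN φ x))
        + (1 + 1 / η) * (4 * χ x ^ 2 * (DD χ x * NN φ x * NN φ x)) := by gcongr
    _ = JX η χ φ x * (χ x ^ 2 * NN φ x) := by
        unfold JX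
        ring

end Pool.Agent.R772.LI
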