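import Pool.Agent.R772.LI9

/-!
The uniform local criterion with a general rate and a general radius.
-/

set_option autoImplicit false

open MeasureTheory Set Filter Topology
open scoped InnerProductSpace ENNReal ContDiff

namespace Pool.Agent.R772.LI

open H772R2.NS.Pub Pool.Agent.W795.TQ Pool.Agent.R462.HC
open Pool.Agent.W795.ES (stretch outer)
open Pool.Agent.TH340.FF (stretch_tens)

theorem unif_rate {c c' ν ρ : ℝ} (hc : c < c') (hν : 0 < ν) (hρ : 0 < ρ) :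
    0 + 16 / (c' - c) * ν * (C0 * (ρ / 2)⁻¹ ^ 2) ≤ K0 ^ 2 * ν / (c' - c) * (ρ ^ 2)⁻¹ := by
  have h1 : 0 < c' - c := by linarith
  have e1 : 0 + 16 / (c' - c) * ν * (C0 * (ρ / 2)⁻¹ ^ 2) = 64 * C0 * (ν / (c' - c) * (ρ ^ 2)⁻¹) := by
    field_simp
    ring
  have e2 : K0 ^ 2 * ν / (c' - c) * (ρ ^ 2)⁻¹ = K0 ^ 2 * (ν / (c' - c) * (ρ ^ 2)⁻¹) := by
    ring
  rw [e1, e2, K0_sq]
  have h2 := C0_nonneg
  have h3 : 0 ≤ ν / (c' - c) * (ρ ^ 2)⁻¹ := by positivity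
  exact mul_le_mul_of_nonneg_right (by linarith) h3

theorem uniform {Ω : Set R3} (hΩ : IsOpen Ω) {ν τ : ℝ}
    (hν : 0 < ν) {u : ℝ → L2 Ω R3} {G : ℝ → L2 Ω Mat}
    (hG : ∀ᵐ t ∂(volume.restrict (Ioo 0 τ)), (u t, G t) ∈ H1graph Ω)
    (H : ∀ c : ℝ, 0 ≤ c → c < 1 → ∀ s ∈ Ico 0 τ, ∃ M : ℝ, ∀ β : ℝ → ℝ,
        (∀ t, 0 ≤ β t) → (∀ t ∈ Ioo s τ, IntervalIntegrable β volume s t) →
        (∀ᵐ t ∂(volume.restrict (Ioo s τ)), ∀ p ∈ H1graph Ω,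
          -stretch (G t) p.1 ≤ c * ν * ‖p.2‖ ^ 2 + β t * ‖p.1‖ ^ 2) →
        ∀ t0 < τ, ∃ t ∈ Ioo t0 τ, s < t ∧
          3 / 4 * Real.log (1 / (τ - t)) - M ≤ ∫ r in s..t, β r)
    {c c' s : ℝ} (hc0 : 0 ≤ c) (hcc : c < c') (hc1 : c' < 1) (hs : s ∈ Ico 0 τ) :
    ∃ M : ℝ, ∀ β ρ : ℝ → ℝ, (∀ t, 0 ≤ β t) → (∀ t, 0 < ρ t) →
      (∀ t ∈ Ioo s τ, IntervalIntegrable β volume s t) →
      (∀ t ∈ Ioo s τ, IntervalIntegrable (fun a => (ρ a ^ 2)⁻¹) volume s t) →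
      (∀ᵐ t ∂(volume.restrict (Ioo s τ)), ∀ x ∈ Ω,
        Quiet (Metric.ball x (ρ t)) ν c (β t) (u t)) →
      ∀ t0 < τ, ∃ t ∈ Ioo t0 τ, s < t ∧ 3 / 4 * Real.log (1 / (τ - t)) - M
        ≤ (∫ a in s..t, β a) + K0 ^ 2 * ν / (c' - c) * ∫ a in s..t, (ρ a ^ 2)⁻¹ := by
  have hm : MeasurableSet (show Set H772R2.NS.E3 from Ω) :=
    IsOpen.measurableSet (α := H772R2.NS.E3) hΩ
  have hd : 0 < c' - c := by linarith
  obtain ⟨M, hM⟩ := H c' (hc0.trans hcc.le) hc1 s hs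
  refine ⟨M, fun β ρ hβ0 hρ0 hβi hρi hq t0 ht0 => ?_⟩
  have key0 := hM (fun r => β r + K0 ^ 2 * ν / (c' - c) * (ρ r ^ 2)⁻¹) ?_ ?_ ?_ t0 ht0
  · obtain ⟨t, ht, hst, h1⟩ := key0
    refine ⟨t, ht, hst, h1.trans (le_of_eq ?_)⟩
    rw [intervalIntegral.integral_add (hβi t ⟨hst, ht.2⟩)
      ((hρi t ⟨hst, ht.2⟩).const_mul _), intervalIntegral.integral_const_mul]
  · intro t
    have h1 := hβ0 t
    have h2 : 0 ≤ K0 ^ 2 * ν / (c' - c) * (ρ t ^ 2)⁻¹ := by positivity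
    exact add_nonneg h1 h2
  · intro t ht
    exact (hβi t ht).add ((hρi t ht).const_mul _)
  · have a2 : ∀ᵐ t ∂(volume.restrict (Ioo s τ)), (u t, G t) ∈ H1graph Ω :=
      ae_mono (Measure.restrict_mono (Ioo_subset_Ioo_left hs.1) le_rfl) hG
    filter_upwards [hq, a2] with t b1 b2 p hp
    rw [stretch_tens hm (G t) hp]
    have key := form_fin (Ω := (show Set H772R2.NS.E3 from Ω)) hm ({()} : Finset Unit)
      (fun _ _ => 1) (fun _ _ => contDiff_const) (fun x _ => by simp) hν (mem_pub.mpr b2)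
      (fun _ => c) (fun _ => 0) (fun _ => β t) (fun _ => ρ t / 2) (fun _ => c' - c)
      (fun _ => univ) (fun _ _ => hc0) (fun _ _ => (hcc.trans hc1).le) (fun _ _ => le_rfl)
      (fun _ _ => hβ0 t) (fun _ _ => half_pos (hρ0 t)) (fun _ _ => hd)
      (fun _ _ => by linarith) (fun _ _ => subset_univ _)
      (fun _ _ x hx => by
        have := pub_quiet (b1 x hx.1)
        rw [zero_add]
        exact qt_half this)
      (L := 0) (C := c') (B := K0 ^ 2 * ν / (c' - c) * (ρ t ^ 2)⁻¹)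
      (fun _ _ x => by
        rw [DD_eq]
        simp)
      (fun _ _ => by linarith)
      (fun _ _ => unif_rate hcc hν (hρ0 t))
      (mem_pub.mpr hp)
    refine key.trans (le_of_eq ?_)
    rw [Finset.sum_const, Finset.sum_const, Finset.card_singleton, one_smul, one_smul, mul_zero,
      add_zero]
    show c' * ν * ‖p.2‖ ^ 2 + (K0 ^ 2 * ν / (c' - c) * (ρ t ^ 2)⁻¹ + β t) * ‖p.1‖ ^ 2
      = c' * ν * ‖p.2‖ ^ 2 + (β t + K0 ^ 2 * ν / (c' - c) * (ρ t ^ 2)⁻¹) * ‖p.1‖ ^ 2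
    ring

end Pool.Agent.R772.LI
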