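import Pool.Agent.R772.LI1

/-!
The form inequality for one cutoff function.
-/

set_option autoImplicit false

open MeasureTheory Set Filter Topology
open scoped InnerProductSpace ContDiff ENNReal

namespace Pool.Agent.R772.LI

open H772R2.NS Pool.Agent.TH340.FF Pool.Agent.R462.HC

variable {Ω : Set E3}

/-- the local bounds, at the level of the library -/
def Qt (Ω V : Set E3) (ν c β : ℝ) (U : L2V Ω) : Prop :=
  ∃ (w : L2V Ω) (z : L2M Ω) (ψ : E3 → E3) (W : E3 → ℝ) (θ₁ θ₂ l β₁ β₂ : ℝ),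
    (w, z) ∈ graphW Ω ∧ ContDiff ℝ ∞ ψ ∧ FB (Ω ∩ V) W ∧
    0 ≤ θ₁ ∧ 0 < l ∧ 0 ≤ β₁ ∧ 0 ≤ β₂ ∧ θ₁ + l / 2 + θ₂ ^ 2 / (2 * l) ≤ c ∧ β₁ + β₂ ≤ β ∧
    (∀ Φ : E3 → E3, ContDiff ℝ ∞ Φ → HasCompactSupport Φ → tsupport Φ ⊆ Ω ∩ V →
      -∫ x in Ω, (⟪z x, tens (Φ x)⟫_ℝ + ⟪fderiv ℝ ψ x (Φ x), Φ x⟫_ℝ)
        ≤ θ₁ * ν * (∫ x, JJ Φ x) + β₁ * ∫ x, NN Φ x) ∧
    (∀ᵐ x ∂(volume.restrict (Ω ∩ V)),
      ‖U x - w x - ψ x‖ ^ 2 ≤ θ₂ ^ 2 * ν ^ 2 * W x + 2 * l * ν * β₂)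

theorem tens_smul (a : ℝ) (ξ : E3) : tens (a • ξ) = a ^ 2 • tens ξ := by
  refine PiLp.ext fun r => ?_
  simp only [tens_apply, PiLp.smul_apply, smul_eq_mul]
  ring

theorem tens_comp {Φ : E3 → E3} (hc : HasCompactSupport Φ) :
    HasCompactSupport fun x => tens (Φ x) := by
  refine hc.mono fun x hx h0 => hx ?_
  have : tens (0 : E3) = 0 := by
    refine PiLp.ext fun r => ?_
    simp [tens_apply]
  simp only [h0]
  exact this

theorem int_tens (z : L2M Ω) {Φ : E3 → E3} (hsm : Continuous Φ) (hc : HasCompactSupport Φ) :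
    Integrable (fun x => ⟪z x, tens (Φ x)⟫_ℝ) (volume.restrict Ω) := by
  have hm : MemLp (fun x => tens (Φ x)) 2 ((volume : Measure E3).restrict Ω) :=
    ((continuous_tens.comp hsm).memLp_of_hasCompactSupport (tens_comp hc)).restrict Ω
  refine (L2.integrable_inner (𝕜 := ℝ) z (hm.toLp _)).congr ?_
  filter_upwards [hm.coeFn_toLp] with x hx
  rw [hx]

/-- **The form inequality with one cutoff function.** -/
theorem form_loc (hΩ : MeasurableSet Ω) {V : Set E3} (hV : MeasurableSet V) {ν c β : ℝ}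
    (hν : 0 < ν) (hc1 : c ≤ 1) {U : L2V Ω} {G : L2M Ω} (hU : (U, G) ∈ graphW Ω)
    (hQ : Qt Ω V ν c β U) {χ : E3 → ℝ} (hχ : ContDiff ℝ ∞ χ) (hχV : tsupport χ ⊆ V) {η : ℝ}
    (hη : 0 < η) (hη1 : η ≤ 1) {φ : E3 → E3} (h : IsTest Ω φ) :
    -∫ x in Ω, χ x ^ 2 * ⟪G x, tens (φ x)⟫_ℝ
      ≤ (c + η) * ν * (∫ x, χ x ^ 2 * JJ φ x) + β * (∫ x, χ x ^ 2 * NN φ x)
        + 8 / η * ν * ∫ x, DD χ x * NN φ x := by
  obtain ⟨w, z, ψ, W, θ₁, θ₂, l, β₁, β₂, hw, hψ, hW, hθ₁, hl, hβ₁, hβ₂, hc, hβ, hs, hr⟩ := hQ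
  set Φ : E3 → E3 := fun x => χ x • φ x with hΦ
  have hsm : ContDiff ℝ ∞ Φ := hχ.smul h.smooth
  have hcm : HasCompactSupport Φ := HasCompactSupport.smul_left (f := χ) (f' := φ) h.compact
  have hsΩ : tsupport Φ ⊆ Ω := (tsupport_smul_subset_right χ φ).trans h.supp
  have hsV : tsupport Φ ⊆ V := (tsupport_smul_subset_left χ φ).trans hχV
  have hsO : tsupport Φ ⊆ Ω ∩ V := subset_inter hsΩ hsV
  have hO : MeasurableSet (Ω ∩ V) := hΩ.inter hV
  have hΦ0 : ∀ x ∉ Ω, Φ x = 0 := fun x hx =>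
    image_eq_zero_of_notMem_tsupport fun hc => hx (hsΩ hc)
  have hΦO : ∀ x ∉ Ω ∩ V, Φ x = 0 := fun x hx =>
    image_eq_zero_of_notMem_tsupport fun hc => hx (hsO hc)
  have t1 := int_gg hΩ hsm hcm hsΩ hU
  have t2 := int_gg hΩ hsm hcm hsΩ hw
  have t3 := smooth_gen hsm hcm hψ
  simp only at t1 t2
  have t3l : ∫ x, ∑ i, ψ x i * gg Φ x i = ∫ x in Ω, ∑ i, ψ x i * gg Φ x i := by
    refine (setIntegral_eq_integral_of_forall_compl_eq_zero fun x hx => ?_).symm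
    rw [gg_zero (hΦ0 x hx)]
    simp
  have t3r : ∫ x, ∑ i, ∑ j, Φ x i * Φ x j * jac ψ x (i, j)
      = ∫ x in Ω, ∑ i, ∑ j, Φ x i * Φ x j * jac ψ x (i, j) := by
    refine (setIntegral_eq_integral_of_forall_compl_eq_zero fun x hx => ?_).symm
    rw [hΦ0 x hx]
    simp
  rw [t3l, t3r] at t3
  have hf1c := gg_cont hsm
  have hf1s := gg_comp hcm
  have iU := int_pair U hf1c hf1s
  have iw := int_pair w hf1c hf1s
  have iψ : Integrable (fun x => ∑ i, ψ x i * gg Φ x i) (volume.restrict Ω) := by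
    have hcont : Continuous fun x => ∑ i, ψ x i * gg Φ x i := by
      refine continuous_finsetSum _ fun i _ => (contDiff_coord hψ i).continuous.mul ?_
      exact (EuclideanSpace.proj (𝕜 := ℝ) i : E3 →L[ℝ] ℝ).continuous.comp hf1c
    refine (hcont.integrable_of_hasCompactSupport ?_).integrableOn
    refine hf1s.mono fun x hx h0 => hx ?_
    simp [h0]
  have iJ : Integrable (fun x => ∑ i, ∑ j, Φ x i * Φ x j * jac ψ x (i, j)) (volume.restrict Ω) := by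
    have hcont : Continuous fun x => ∑ i, ∑ j, Φ x i * Φ x j * jac ψ x (i, j) := by
      refine continuous_finsetSum _ fun i _ => continuous_finsetSum _ fun j _ => ?_
      exact ((contDiff_coord hsm i).continuous.mul
        (contDiff_coord hsm j).continuous).mul (cont_jac_coord hψ i j)
    refine (hcont.integrable_of_hasCompactSupport ?_).integrableOn
    refine hcm.mono fun x hx h0 => hx ?_
    simp [h0]
  have iz := int_tens z hsm.continuous hcm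
  have eψ : ∀ x, ⟪fderiv ℝ ψ x (Φ x), Φ x⟫_ℝ = ∑ i, ∑ j, Φ x i * Φ x j * jac ψ x (i, j) := by
    intro x
    rw [real_inner_comm]
    exact H772R2.NS.Pub.inner_fderiv ψ x (Φ x)
  have b1 := hs Φ hsm hcm hsO
  have e1 : ∫ x in Ω, (⟪z x, tens (Φ x)⟫_ℝ + ⟪fderiv ℝ ψ x (Φ x), Φ x⟫_ℝ)
      = (∫ x in Ω, ⟪z x, tens (Φ x)⟫_ℝ)
        + ∫ x in Ω, ∑ i, ∑ j, Φ x i * Φ x j * jac ψ x (i, j) := by
    simp_rw [eψ]
    exact integral_add iz iJ
  -- the rough part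
  have cX : Continuous (JX η χ φ) := by
    unfold JX
    exact (((hχ.continuous.pow 2).mul (JJ_cont h.smooth)).const_mul _).add
      (((DD_cont hχ).mul (NN_cont h.smooth)).const_mul _)
  have iA : Integrable fun x => χ x ^ 2 * JJ φ x :=
    ((hχ.continuous.pow 2).mul (JJ_cont h.smooth)).integrable_of_hasCompactSupport
      (JJ_comp h.compact).mul_left
  have iB : Integrable fun x => DD χ x * NN φ x :=
    ((DD_cont hχ).mul (NN_cont h.smooth)).integrable_of_hasCompactSupport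
      (NN_comp h.compact).mul_left
  have iX : Integrable (JX η χ φ) := (iA.const_mul _).add (iB.const_mul _)
  have b2 : ∫ x in Ω ∩ V, ∑ i, (U x - w x - ψ x) i * gg Φ x i
      ≤ (l / 2 * ν) * (∫ x, JX η χ φ x) + (θ₂ ^ 2 / (2 * l) * ν) * (∫ x, JJ Φ x)
        + β₂ * ∫ x, NN Φ x := by
    refine int_le' hW hsm hcm hsO cX iX (JX_nonneg hη χ φ) (by positivity) (by positivity) hβ₂ ?_
    filter_upwards [hr] with x hx
    exact rough_pt hν hl (JX_nonneg hη χ φ x) (NN_nonneg Φ x) (gg_sq hχ h hη x) hx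
  have e0 : ∫ x in Ω, ∑ i, (U x - w x - ψ x) i * gg Φ x i
      = ∫ x in Ω ∩ V, ∑ i, (U x - w x - ψ x) i * gg Φ x i := by
    refine setIntegral_eq_of_subset_of_forall_diff_eq_zero hΩ inter_subset_left fun x hx => ?_
    rw [gg_zero (hΦO x hx.2)]
    simp
  have e2 : ∫ x in Ω, ∑ i, (U x - w x - ψ x) i * gg Φ x i
      = (∫ x in Ω, ∑ i, U x i * gg Φ x i) - (∫ x in Ω, ∑ i, w x i * gg Φ x i)
        - ∫ x in Ω, ∑ i, ψ x i * gg Φ x i := by
    have iUw : Integrable (fun x => (∑ i, U x i * gg Φ x i) - ∑ i, w x i * gg Φ x i)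
        (volume.restrict Ω) := iU.sub iw
    rw [← integral_sub iU iw, ← integral_sub iUw iψ]
    refine integral_congr_ae (Eventually.of_forall fun x => ?_)
    simp only [PiLp.sub_apply, sub_mul, Finset.sum_sub_distrib]
  rw [← e0, e2, t1, t2, t3] at b2
  rw [e1] at b1
  -- the localized quantities
  have eG : ∫ x in Ω, ⟪G x, tens (Φ x)⟫_ℝ = ∫ x in Ω, χ x ^ 2 * ⟪G x, tens (φ x)⟫_ℝ := by
    refine integral_congr_ae (Eventually.of_forall fun x => ?_)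
    simp only [hΦ]
    rw [tens_smul, inner_smul_right]
  have eN : ∫ x, NN Φ x = ∫ x, χ x ^ 2 * NN φ x :=
    integral_congr_ae (Eventually.of_forall fun x => NN_mul χ φ x)
  have eX : ∫ x, JX η χ φ x
      = (1 + η) * (∫ x, χ x ^ 2 * JJ φ x) + 4 * (1 + 1 / η) * ∫ x, DD χ x * NN φ x := by
    unfold JX
    rw [integral_add (iA.const_mul _) (iB.const_mul _), integral_const_mul, integral_const_mul]
  have lJ : ∫ x, JJ Φ x
      ≤ (1 + η) * (∫ x, χ x ^ 2 * JJ φ x) + (1 + 1 / η) * ∫ x, DD χ x * NN φ x := by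
    rw [← integral_const_mul, ← integral_const_mul,
      ← integral_add (iA.const_mul _) (iB.const_mul _)]
    exact integral_mono (JJ_int' hsm hcm) ((iA.const_mul _).add (iB.const_mul _))
      fun x => JJ_mul hχ h.smooth hη x
  rw [eG, eN, eX] at b2
  rw [eN] at b1
  have hA0 : 0 ≤ ∫ x, χ x ^ 2 * JJ φ x :=
    integral_nonneg fun x => mul_nonneg (sq_nonneg _) (JJ_nonneg φ x)
  have hB0 : 0 ≤ ∫ x, DD χ x * NN φ x :=
    integral_nonneg fun x => mul_nonneg (DD_nonneg χ x) (NN_nonneg φ x)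
  have hC0 : 0 ≤ ∫ x, χ x ^ 2 * NN φ x :=
    integral_nonneg fun x => mul_nonneg (sq_nonneg _) (NN_nonneg φ x)
  set A := ∫ x, χ x ^ 2 * JJ φ x with hA
  set B := ∫ x, DD χ x * NN φ x with hB
  set C := ∫ x, χ x ^ 2 * NN φ x with hC
  set J := ∫ x, JJ Φ x with hJ
  have q0 : 0 ≤ θ₂ ^ 2 / (2 * l) := by positivity
  have q1 : 0 < 1 / η := by positivity
  have q2 : 1 ≤ 1 / η := by rw [le_div_iff₀ hη]; linarith
  have m1 : (θ₂ ^ 2 / (2 * l) * ν) * J ≤ (θ₂ ^ 2 / (2 * l) * ν) * ((1 + η) * A + (1 + 1 / η) * B) := by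
    gcongr
  have m2 : θ₁ * ν * J ≤ θ₁ * ν * ((1 + η) * A + (1 + 1 / η) * B) := by gcongr
  have hsum : (θ₁ + l / 2 + θ₂ ^ 2 / (2 * l)) * ν * (1 + η) * A ≤ c * ν * (1 + η) * A := by
    gcongr
  have hc0 : 0 ≤ c := le_trans (by positivity) hc
  have hsum2 : c * ν * (1 + η) * A ≤ (c + η) * ν * A := by
    have : c * ν * (1 + η) * A = (c + c * η) * ν * A := by ring
    rw [this]
    have : c * η ≤ 1 * η := by gcongr
    have : c + c * η ≤ c + η := by linarith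
    gcongr
  have hB1 : (θ₁ + 4 * (l / 2) + θ₂ ^ 2 / (2 * l)) * (1 + 1 / η) * ν * B ≤ 8 / η * ν * B := by
    have h1 : θ₁ + 4 * (l / 2) + θ₂ ^ 2 / (2 * l) ≤ 4 := by linarith
    have h2 : (θ₁ + 4 * (l / 2) + θ₂ ^ 2 / (2 * l)) * (1 + 1 / η) ≤ 4 * (1 / η + 1 / η) := by
      gcongr
    have h3 : 4 * (1 / η + 1 / η) = 8 / η := by ring
    rw [h3] at h2
    gcongr
  have hC1 : (β₁ + β₂) * C ≤ β * C := by gcongr
  have final : -∫ x in Ω, χ x ^ 2 * ⟪G x, tens (φ x)⟫_ℝ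
      ≤ (θ₁ + l / 2 + θ₂ ^ 2 / (2 * l)) * ν * (1 + η) * A
        + (θ₁ + 4 * (l / 2) + θ₂ ^ 2 / (2 * l)) * (1 + 1 / η) * ν * B + (β₁ + β₂) * C := by
    have r1 : (θ₁ + l / 2 + θ₂ ^ 2 / (2 * l)) * ν * (1 + η) * A
        + (θ₁ + 4 * (l / 2) + θ₂ ^ 2 / (2 * l)) * (1 + 1 / η) * ν * B + (β₁ + β₂) * C
        = (l / 2 * ν) * ((1 + η) * A + 4 * (1 + 1 / η) * B)
          + (θ₂ ^ 2 / (2 * l) * ν) * ((1 + η) * A + (1 + 1 / η) * B)
          + θ₁ * ν * ((1 + η) * A + (1 + 1 / η) * B) + β₁ * C + β₂ * C := by ring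
    rw [r1]
    linarith only [b1, b2, m1, m2]
  linarith only [final, hsum, hsum2, hB1, hC1]

end Pool.Agent.R772.LI
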