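import Pool.Agent.R772.LI2

/-!
Averaging over translates of a bump function: preparations.
-/

set_option autoImplicit false

open MeasureTheory Set Filter Topology
open scoped InnerProductSpace ContDiff ENNReal Convolution

namespace Pool.Agent.R772.LI

open H772R2.NS Pool.Agent.TH340.FF Pool.Agent.R462.HC

variable {Ω : Set E3}

theorem avg {F₁ F₂ h₀ h₁ : E3 → ℝ} (hF₁ : Integrable F₁) (hF₂ : Integrable F₂)
    (i₀ : Integrable h₀) (i₁ : Integrable h₁)
    (H : ∀ y, ∫ x, F₁ x * h₀ (y - x) ≤ ∫ x, F₂ x * h₁ (y - x)) :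
    (∫ x, F₁ x) * (∫ x, h₀ x) ≤ (∫ x, F₂ x) * ∫ x, h₁ x := by
  have c1 := integral_convolution (μ := (volume : Measure E3)) (ν := (volume : Measure E3))
    (ContinuousLinearMap.mul ℝ ℝ) hF₁ i₀
  have c2 := integral_convolution (μ := (volume : Measure E3)) (ν := (volume : Measure E3))
    (ContinuousLinearMap.mul ℝ ℝ) hF₂ i₁
  have j1 := Integrable.integrable_convolution (μ := (volume : Measure E3))
    (ContinuousLinearMap.mul ℝ ℝ) hF₁ i₀
  have j2 := Integrable.integrable_convolution (μ := (volume : Measure E3))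
    (ContinuousLinearMap.mul ℝ ℝ) hF₂ i₁
  have h := integral_mono j1 j2 fun y => H y
  rw [c1, c2] at h
  exact h

theorem exists_bmp : ∃ b : E3 → ℝ, ContDiff ℝ ∞ b ∧ HasCompactSupport b ∧
    (∀ u, 1 ≤ ‖u‖ → b u = 0) ∧ b 0 = 1 := by
  let b : ContDiffBump (0 : E3) := ⟨1 / 2, 1, by norm_num, by norm_num⟩
  refine ⟨b, b.contDiff, b.hasCompactSupport, fun u hu => ?_, ?_⟩
  · refine b.zero_of_le_dist ?_
    rw [dist_zero_right]
    exact hu
  · exact b.one_of_mem_closedBall (Metric.mem_closedBall_self (by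
      show (0 : ℝ) ≤ 1 / 2
      norm_num))

/-- a fixed bump function -/
noncomputable def bmp : E3 → ℝ := Classical.choose exists_bmp

theorem bmp_smooth : ContDiff ℝ ∞ bmp := (Classical.choose_spec exists_bmp).1

theorem bmp_comp : HasCompactSupport bmp := (Classical.choose_spec exists_bmp).2.1

theorem bmp_zero {u : E3} (hu : 1 ≤ ‖u‖) : bmp u = 0 :=
  (Classical.choose_spec exists_bmp).2.2.1 u hu

theorem bmp_one : bmp 0 = 1 := (Classical.choose_spec exists_bmp).2.2.2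

noncomputable def I0 : ℝ := ∫ u, bmp u ^ 2

noncomputable def I1 : ℝ := ∫ u, DD bmp u

/-- the absolute constant -/
noncomputable def C0 : ℝ := I1 / I0

theorem bmp_sq_int : Integrable fun u => bmp u ^ 2 :=
  Continuous.integrable_of_hasCompactSupport (f := fun u => bmp u ^ 2)
    (bmp_smooth.continuous.pow 2) (bmp_comp.comp_left (g := fun t : ℝ => t ^ 2) (by simp))

theorem bmp_DD_int : Integrable (DD bmp) :=
  (DD_cont bmp_smooth).integrable_of_hasCompactSupport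
    ((bmp_comp.fderiv (𝕜 := ℝ)).comp_left (g := fun L : E3 →L[ℝ] ℝ => ‖L‖ ^ 2) (by simp))

theorem I0_pos : 0 < I0 := by
  unfold I0
  have hc : Continuous fun u : E3 => bmp u ^ 2 := bmp_smooth.continuous.pow 2
  have hs : HasCompactSupport fun u : E3 => bmp u ^ 2 :=
    bmp_comp.comp_left (g := fun t : ℝ => t ^ 2) (by simp)
  refine hc.integral_pos_of_hasCompactSupport_nonneg_nonzero hs (fun u => sq_nonneg _) (x := 0) ?_
  rw [bmp_one]
  norm_num

theorem I1_nonneg : 0 ≤ I1 := integral_nonneg fun u => DD_nonneg _ u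

theorem C0_nonneg : 0 ≤ C0 := div_nonneg I1_nonneg I0_pos.le

/-- the scaled bump function -/
noncomputable def bs (ρ : ℝ) (u : E3) : ℝ := bmp (ρ⁻¹ • u)

noncomputable def h0 (ρ : ℝ) (u : E3) : ℝ := bs ρ u ^ 2

noncomputable def h1 (ρ : ℝ) (u : E3) : ℝ := (ρ⁻¹) ^ 2 * DD bmp (ρ⁻¹ • u)

theorem bs_smooth (ρ : ℝ) : ContDiff ℝ ∞ (bs ρ) :=
  bmp_smooth.comp (contDiff_const_smul ρ⁻¹)

theorem bs_zero {ρ : ℝ} (hρ : 0 < ρ) {u : E3} (hu : ρ ≤ ‖u‖) : bs ρ u = 0 := by
  refine bmp_zero ?_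
  rw [norm_smul, norm_inv, Real.norm_of_nonneg hρ.le, ← div_eq_inv_mul,
    le_div_iff₀ hρ, one_mul]
  exact hu

theorem bs_sub_smooth (ρ : ℝ) (y : E3) : ContDiff ℝ ∞ fun x => bs ρ (y - x) :=
  (bs_smooth ρ).comp (contDiff_const.sub contDiff_id)

theorem bs_sub_fderiv (ρ : ℝ) (y x : E3) :
    DD (fun x => bs ρ (y - x)) x = h1 ρ (y - x) := by
  have e1 : HasFDerivAt (fun x : E3 => ρ⁻¹ • (y - x)) (ρ⁻¹ • (-ContinuousLinearMap.id ℝ E3)) x := by
    have := ((hasFDerivAt_id (𝕜 := ℝ) x).const_sub y).const_smul ρ⁻¹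
    exact this
  have e2 : HasFDerivAt bmp (fderiv ℝ bmp (ρ⁻¹ • (y - x))) (ρ⁻¹ • (y - x)) :=
    ((bmp_smooth.differentiable (by simp)) _).hasFDerivAt
  have e3 := e2.comp x e1
  unfold DD h1
  have e4 : fderiv ℝ (fun x => bs ρ (y - x)) x
      = (fderiv ℝ bmp (ρ⁻¹ • (y - x))).comp (ρ⁻¹ • (-ContinuousLinearMap.id ℝ E3)) :=
    e3.fderiv
  rw [e4]
  have e5 : (fderiv ℝ bmp (ρ⁻¹ • (y - x))).comp (ρ⁻¹ • (-ContinuousLinearMap.id ℝ E3))
      = (-ρ⁻¹) • fderiv ℝ bmp (ρ⁻¹ • (y - x)) := by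
    ext v
    simp
  rw [e5, norm_smul, mul_pow, norm_neg, Real.norm_eq_abs, sq_abs]
  rfl

theorem int_h0 {ρ : ℝ} (hρ : 0 < ρ) : ∫ u, h0 ρ u = ρ ^ 3 * I0 := by
  have := Measure.integral_comp_inv_smul_of_nonneg (volume : Measure E3)
    (fun u => bmp u ^ 2) hρ.le
  rw [finrank_euclideanSpace_fin] at this
  exact this

theorem int_h1 {ρ : ℝ} (hρ : 0 < ρ) : ∫ u, h1 ρ u = (ρ⁻¹) ^ 2 * (ρ ^ 3 * I1) := by
  have := Measure.integral_comp_inv_smul_of_nonneg (volume : Measure E3)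
    (fun u => DD bmp u) hρ.le
  rw [finrank_euclideanSpace_fin] at this
  unfold h1
  rw [integral_const_mul, this]
  rfl

theorem h0_cont (ρ : ℝ) : Continuous (h0 ρ) := (bs_smooth ρ).continuous.pow 2

theorem h1_cont (ρ : ℝ) : Continuous (h1 ρ) :=
  ((DD_cont bmp_smooth).comp (continuous_const_smul ρ⁻¹)).const_mul _

theorem h0_int {ρ : ℝ} (hρ : 0 < ρ) : Integrable (h0 ρ) :=
  bmp_sq_int.comp_smul (inv_ne_zero hρ.ne')

theorem h1_int {ρ : ℝ} (hρ : 0 < ρ) : Integrable (h1 ρ) :=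
  (bmp_DD_int.comp_smul (inv_ne_zero hρ.ne')).const_mul _

theorem h0_nonneg (ρ : ℝ) (u : E3) : 0 ≤ h0 ρ u := sq_nonneg _

theorem h1_nonneg (ρ : ℝ) (u : E3) : 0 ≤ h1 ρ u := mul_nonneg (sq_nonneg _) (DD_nonneg _ _)

/-- the gradient of a product -/
theorem DD_mul {f g : E3 → ℝ} (hf : ContDiff ℝ ∞ f) (hg : ContDiff ℝ ∞ g) (x : E3) :
    DD (fun x => f x * g x) x ≤ 2 * (g x ^ 2 * DD f x) + 2 * (f x ^ 2 * DD g x) := by
  have h1 : DifferentiableAt ℝ f x := (hf.differentiable (by simp)) x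
  have h2 : DifferentiableAt ℝ g x := (hg.differentiable (by simp)) x
  unfold DD
  rw [fderiv_fun_mul h1 h2]
  have h3 : ‖f x • fderiv ℝ g x + g x • fderiv ℝ f x‖
      ≤ |f x| * ‖fderiv ℝ g x‖ + |g x| * ‖fderiv ℝ f x‖ := by
    refine (norm_add_le _ _).trans (le_of_eq ?_)
    rw [norm_smul, norm_smul, Real.norm_eq_abs, Real.norm_eq_abs]
  have h4 : ‖f x • fderiv ℝ g x + g x • fderiv ℝ f x‖ ^ 2
      ≤ (|f x| * ‖fderiv ℝ g x‖ + |g x| * ‖fderiv ℝ f x‖) ^ 2 := by gcongr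
  refine h4.trans ?_
  have h5 := young 1 (|f x| * ‖fderiv ℝ g x‖) (|g x| * ‖fderiv ℝ f x‖) one_pos
  refine h5.trans (le_of_eq ?_)
  rw [mul_pow, mul_pow, sq_abs, sq_abs]
  ring

/-! ### integrals -/

theorem int3 {α : Type*} [MeasurableSpace α] {μ : Measure α} {a b c : α → ℝ}
    (ha : Integrable a μ) (hb : Integrable b μ) (hc : Integrable c μ) (p q r : ℝ) :
    ∫ x, (p * a x + q * b x + r * c x) ∂μ
      = p * (∫ x, a x ∂μ) + q * (∫ x, b x ∂μ) + r * ∫ x, c x ∂μ := by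
  have h1 : Integrable (fun x => p * a x) μ := ha.const_mul p
  have h2 : Integrable (fun x => q * b x) μ := hb.const_mul q
  have h3 : Integrable (fun x => r * c x) μ := hc.const_mul r
  have h4 : Integrable (fun x => p * a x + q * b x) μ := h1.add h2
  rw [integral_add h4 h3, integral_add h1 h2, integral_const_mul, integral_const_mul,
    integral_const_mul]

theorem intns {α : Type*} [MeasurableSpace α] {μ : Measure α} {a b : α → ℝ}
    (ha : Integrable a μ) (hb : Integrable b μ) :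
    ∫ x, (-a x - b x) ∂μ = -(∫ x, a x ∂μ) - ∫ x, b x ∂μ := by
  have h1 : Integrable (fun x => -a x) μ := ha.neg
  rw [integral_sub h1 hb, integral_neg]

variable {φ : E3 → E3}

theorem iJJ (h : IsTest Ω φ) {f : E3 → ℝ} (hf : Continuous f) :
    Integrable fun x => f x * JJ φ x :=
  (hf.mul (JJ_cont h.smooth)).integrable_of_hasCompactSupport (JJ_comp h.compact).mul_left

theorem iNN (h : IsTest Ω φ) {f : E3 → ℝ} (hf : Continuous f) :
    Integrable fun x => f x * NN φ x :=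
  (hf.mul (NN_cont h.smooth)).integrable_of_hasCompactSupport (NN_comp h.compact).mul_left

theorem iTT (h : IsTest Ω φ) (G : L2M Ω) {f : E3 → ℝ} (hf : Continuous f) :
    Integrable (fun x => f x ^ 2 * ⟪G x, tens (φ x)⟫_ℝ) (volume.restrict Ω) := by
  have h1 := int_tens G (hf.smul h.smooth.continuous)
    (HasCompactSupport.smul_left (f := f) (f' := φ) h.compact)
  refine h1.congr (Eventually.of_forall fun x => ?_)
  simp only [Pi.smul_apply']
  rw [tens_smul, inner_smul_right]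

end Pool.Agent.R772.LI
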