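import Pool.Agent.R772.LI3

/-!
Averaging over translates of a bump function.
-/

set_option autoImplicit false

open MeasureTheory Set Filter Topology
open scoped InnerProductSpace ContDiff ENNReal

namespace Pool.Agent.R772.LI

open H772R2.NS Pool.Agent.TH340.FF Pool.Agent.R462.HC

variable {Ω : Set E3}

/-- the extended density -/
noncomputable def PP (Ω : Set E3) (ζ : E3 → ℝ) (G : L2M Ω) (φ : E3 → E3) : E3 → ℝ :=
  Ω.indicator fun x => ζ x ^ 2 * ⟪G x, tens (φ x)⟫_ℝ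

theorem PP_int (hΩ : MeasurableSet Ω) {ζ : E3 → ℝ} (hζ : Continuous ζ) (G : L2M Ω) {φ : E3 → E3}
    (h : IsTest Ω φ) : Integrable (PP Ω ζ G φ) :=
  (integrable_indicator_iff hΩ).2 (iTT h G hζ)

theorem PP_integral (hΩ : MeasurableSet Ω) (ζ : E3 → ℝ) (G : L2M Ω) (φ : E3 → E3) :
    ∫ x, PP Ω ζ G φ x = ∫ x in Ω, ζ x ^ 2 * ⟪G x, tens (φ x)⟫_ℝ := integral_indicator hΩ

theorem PP_mul (ζ f : E3 → ℝ) (G : L2M Ω) (φ : E3 → E3) (x : E3) :
    PP Ω (fun x => ζ x * f x) G φ x = PP Ω ζ G φ x * f x ^ 2 := by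
  unfold PP
  by_cases hx : x ∈ Ω
  · rw [indicator_of_mem hx, indicator_of_mem hx]
    ring
  · rw [indicator_of_notMem hx, indicator_of_notMem hx, zero_mul]

/-- the weight -/
noncomputable def RR (p q r : ℝ) (ζ : E3 → ℝ) (φ : E3 → E3) (x : E3) : ℝ :=
  p * (ζ x ^ 2 * JJ φ x) + q * (ζ x ^ 2 * NN φ x) + r * (DD ζ x * NN φ x)

theorem RR_int {φ : E3 → E3} (h : IsTest Ω φ) (p q r : ℝ) {ζ : E3 → ℝ} (hζ : ContDiff ℝ ∞ ζ) :
    Integrable (RR p q r ζ φ) :=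
  (((iJJ h (hζ.continuous.pow 2)).const_mul p).add ((iNN h (hζ.continuous.pow 2)).const_mul q)).add
    ((iNN h (DD_cont hζ)).const_mul r)

theorem RR_integral {φ : E3 → E3} (h : IsTest Ω φ) (p q r : ℝ) {ζ : E3 → ℝ}
    (hζ : ContDiff ℝ ∞ ζ) :
    ∫ x, RR p q r ζ φ x = p * (∫ x, ζ x ^ 2 * JJ φ x) + q * (∫ x, ζ x ^ 2 * NN φ x)
      + r * ∫ x, DD ζ x * NN φ x :=
  int3 (iJJ h (hζ.continuous.pow 2)) (iNN h (hζ.continuous.pow 2)) (iNN h (DD_cont hζ)) p q r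

theorem RR_nonneg {p q r : ℝ} (hp : 0 ≤ p) (hq : 0 ≤ q) (hr : 0 ≤ r) (ζ : E3 → ℝ) (φ : E3 → E3)
    (x : E3) : 0 ≤ RR p q r ζ φ x :=
  add_nonneg (add_nonneg (mul_nonneg hp (mul_nonneg (sq_nonneg _) (JJ_nonneg φ x)))
    (mul_nonneg hq (mul_nonneg (sq_nonneg _) (NN_nonneg φ x))))
    (mul_nonneg hr (mul_nonneg (DD_nonneg ζ x) (NN_nonneg φ x)))

/-- the inequality for one translate -/
theorem form_tr (hΩ : MeasurableSet Ω) {ν c β ρ : ℝ} (hν : 0 < ν) (hρ : 0 < ρ)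
    (hc1 : c ≤ 1) {U : L2V Ω} {G : L2M Ω} (hU : (U, G) ∈ graphW Ω)
    {x₀ y : E3} (hQ : Qt Ω (Metric.ball x₀ (2 * ρ)) ν c β U) (hxy : ‖y - x₀‖ < ρ)
    {ζ : E3 → ℝ} (hζ : ContDiff ℝ ∞ ζ) {η : ℝ}
    (hη : 0 < η) (hη1 : η ≤ 1) {φ : E3 → E3} (h : IsTest Ω φ) :
    -(∫ x, PP Ω ζ G φ x * h0 ρ (y - x))
      ≤ (∫ x, RR ((c + η) * ν) β (16 / η * ν) ζ φ x * h0 ρ (y - x))
        + 16 / η * ν * ∫ x, ζ x ^ 2 * NN φ x * h1 ρ (y - x) := by
  have hN := NN_nonneg φ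
  set χ : E3 → ℝ := fun x => ζ x * bs ρ (y - x) with hχ
  have hχs : ContDiff ℝ ∞ χ := hζ.mul (bs_sub_smooth ρ y)
  have hsup : tsupport χ ⊆ Metric.ball x₀ (2 * ρ) := by
    have h1 : tsupport χ ⊆ Metric.closedBall y ρ := by
      refine closure_minimal (fun x hx => ?_) Metric.isClosed_closedBall
      by_contra hcon
      apply hx
      rw [Metric.mem_closedBall, not_le, dist_comm, dist_eq_norm] at hcon
      simp only [hχ]
      rw [bs_zero hρ hcon.le, mul_zero]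
    refine h1.trans fun x hx => ?_
    rw [Metric.mem_closedBall] at hx
    rw [Metric.mem_ball]
    calc dist x x₀ ≤ dist x y + dist y x₀ := dist_triangle _ _ _
      _ < ρ + ρ := by
        rw [dist_eq_norm y x₀]
        linarith
      _ = 2 * ρ := by ring
  have key := form_loc hΩ measurableSet_ball hν hc1 hU hQ hχs hsup hη hη1 h
  have c0 : Continuous fun x : E3 => h0 ρ (y - x) :=
    (h0_cont ρ).comp (continuous_const.sub continuous_id)
  have c1 : Continuous fun x : E3 => h1 ρ (y - x) :=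
    (h1_cont ρ).comp (continuous_const.sub continuous_id)
  have iB1 : Integrable fun x => DD ζ x * h0 ρ (y - x) * NN φ x := iNN h ((DD_cont hζ).mul c0)
  have iB2 : Integrable fun x => ζ x ^ 2 * h1 ρ (y - x) * NN φ x :=
    iNN h ((hζ.continuous.pow 2).mul c1)
  have iA' : Integrable fun x => χ x ^ 2 * JJ φ x := iJJ h (hχs.continuous.pow 2)
  have iC' : Integrable fun x => χ x ^ 2 * NN φ x := iNN h (hχs.continuous.pow 2)
  have iB' : Integrable fun x => DD χ x * NN φ x := iNN h (DD_cont hχs)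
  have e0 : ∀ x, χ x ^ 2 = ζ x ^ 2 * h0 ρ (y - x) := fun x => by
    simp only [hχ, h0]
    ring
  have eP : ∫ x in Ω, χ x ^ 2 * ⟪G x, tens (φ x)⟫_ℝ = ∫ x, PP Ω ζ G φ x * h0 ρ (y - x) := by
    rw [← PP_integral hΩ]
    exact integral_congr_ae (Eventually.of_forall fun x => PP_mul ζ (fun x => bs ρ (y - x)) G φ x)
  have e2 : ∫ x, ζ x ^ 2 * NN φ x * h1 ρ (y - x) = ∫ x, ζ x ^ 2 * h1 ρ (y - x) * NN φ x :=
    integral_congr_ae (Eventually.of_forall fun x => by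
      show ζ x ^ 2 * NN φ x * h1 ρ (y - x) = ζ x ^ 2 * h1 ρ (y - x) * NN φ x
      ring)
  have lB : ∫ x, DD χ x * NN φ x
      ≤ 2 * (∫ x, DD ζ x * h0 ρ (y - x) * NN φ x) + 2 * ∫ x, ζ x ^ 2 * h1 ρ (y - x) * NN φ x := by
    have i3 : Integrable fun x => 2 * (DD ζ x * h0 ρ (y - x) * NN φ x) := iB1.const_mul 2
    have i4 : Integrable fun x => 2 * (ζ x ^ 2 * h1 ρ (y - x) * NN φ x) := iB2.const_mul 2
    rw [← integral_const_mul, ← integral_const_mul, ← integral_add i3 i4]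
    refine integral_mono iB' (i3.add i4) fun x => ?_
    have h3 := DD_mul hζ (bs_sub_smooth ρ y) x
    rw [bs_sub_fderiv] at h3
    have h2 := mul_le_mul_of_nonneg_right h3 (hN x)
    refine h2.trans (le_of_eq ?_)
    show (2 * (bs ρ (y - x) ^ 2 * DD ζ x) + 2 * (ζ x ^ 2 * h1 ρ (y - x))) * NN φ x
      = 2 * (DD ζ x * bs ρ (y - x) ^ 2 * NN φ x) + 2 * (ζ x ^ 2 * h1 ρ (y - x) * NN φ x)
    ring
  have eR : ∫ x, RR ((c + η) * ν) β (16 / η * ν) ζ φ x * h0 ρ (y - x)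
      = (c + η) * ν * (∫ x, χ x ^ 2 * JJ φ x)
      + β * (∫ x, χ x ^ 2 * NN φ x) + 16 / η * ν * ∫ x, DD ζ x * h0 ρ (y - x) * NN φ x := by
    rw [← int3 iA' iC' iB1]
    refine integral_congr_ae (Eventually.of_forall fun x => ?_)
    show (RR ((c + η) * ν) β (16 / η * ν) ζ φ x) * h0 ρ (y - x)
      = (c + η) * ν * (χ x ^ 2 * JJ φ x) + β * (χ x ^ 2 * NN φ x)
        + 16 / η * ν * (DD ζ x * h0 ρ (y - x) * NN φ x)
    rw [e0]
    unfold RR
    ring
  rw [eR, e2, ← eP]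
  have hq : 0 ≤ 8 / η * ν := by positivity
  have h8 := mul_le_mul_of_nonneg_left lB hq
  have h9 : 8 / η * ν * (2 * (∫ x, DD ζ x * h0 ρ (y - x) * NN φ x)
        + 2 * ∫ x, ζ x ^ 2 * h1 ρ (y - x) * NN φ x)
      = 16 / η * ν * (∫ x, DD ζ x * h0 ρ (y - x) * NN φ x)
        + 16 / η * ν * ∫ x, ζ x ^ 2 * h1 ρ (y - x) * NN φ x := by ring
  linarith only [key, h8, h9]

/-- **The averaged form inequality.** -/
theorem form_avg (hΩ : MeasurableSet Ω) {ν c β ρ : ℝ} (hν : 0 < ν) (hρ : 0 < ρ)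
    (hc0 : 0 ≤ c) (hc1 : c ≤ 1) (hβ0 : 0 ≤ β) {U : L2V Ω} {G : L2M Ω} (hU : (U, G) ∈ graphW Ω)
    {O : Set E3} (hQ : ∀ x ∈ Ω ∩ O, Qt Ω (Metric.ball x (2 * ρ)) ν c β U)
    {ζ : E3 → ℝ} (hζ : ContDiff ℝ ∞ ζ) (hζO : tsupport ζ ⊆ O) {η : ℝ}
    (hη : 0 < η) (hη1 : η ≤ 1) {φ : E3 → E3} (h : IsTest Ω φ) :
    -∫ x in Ω, ζ x ^ 2 * ⟪G x, tens (φ x)⟫_ℝ
      ≤ (c + η) * ν * (∫ x, ζ x ^ 2 * JJ φ x) + β * (∫ x, ζ x ^ 2 * NN φ x)
        + 16 / η * ν * ((∫ x, DD ζ x * NN φ x) + C0 * (ρ⁻¹) ^ 2 * ∫ x, ζ x ^ 2 * NN φ x) := by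
  have hN := NN_nonneg φ
  have hp : 0 ≤ (c + η) * ν := by positivity
  have hr : 0 ≤ 16 / η * ν := by positivity
  set P := PP Ω ζ G φ with hP
  set R := RR ((c + η) * ν) β (16 / η * ν) ζ φ with hR
  have iP : Integrable P := PP_int hΩ hζ.continuous G h
  have iR : Integrable R := RR_int h _ _ _ hζ
  have hR0 : ∀ x, 0 ≤ R x := RR_nonneg hp hβ0 hr ζ φ
  have iC : Integrable fun x => ζ x ^ 2 * NN φ x := iNN h (hζ.continuous.pow 2)
  have iF₁ : Integrable fun x => -P x - R x := iP.neg.sub iR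
  have iF₂ : Integrable fun x => 16 / η * ν * (ζ x ^ 2 * NN φ x) := iC.const_mul _
  have H : ∀ y, ∫ x, (-P x - R x) * h0 ρ (y - x)
      ≤ ∫ x, 16 / η * ν * (ζ x ^ 2 * NN φ x) * h1 ρ (y - x) := by
    intro y
    have c0 : Continuous fun x : E3 => h0 ρ (y - x) :=
      (h0_cont ρ).comp (continuous_const.sub continuous_id)
    have iRh : Integrable fun x => R x * h0 ρ (y - x) := by
      refine (((iJJ h ((hζ.continuous.pow 2).mul c0)).const_mul ((c + η) * ν)).add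
        ((iNN h ((hζ.continuous.pow 2).mul c0)).const_mul β)).add
          ((iNN h ((DD_cont hζ).mul c0)).const_mul (16 / η * ν)) |>.congr
          (Eventually.of_forall fun x => ?_)
      show (c + η) * ν * (ζ x ^ 2 * h0 ρ (y - x) * JJ φ x) + β * (ζ x ^ 2 * h0 ρ (y - x) * NN φ x)
        + 16 / η * ν * (DD ζ x * h0 ρ (y - x) * NN φ x) = R x * h0 ρ (y - x)
      simp only [hR]
      unfold RR
      ring
    by_cases hy : ∃ x ∈ Ω ∩ O, ‖y - x‖ < ρ
    · obtain ⟨x₀, hx₀, hxy⟩ := hy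
      have key := form_tr hΩ hν hρ hc1 hU (hQ x₀ hx₀) hxy hζ hη hη1 h
      have iPh : Integrable fun x => P x * h0 ρ (y - x) := by
        have h1 := PP_int hΩ (hζ.mul (bs_sub_smooth ρ y)).continuous G h
        exact h1.congr (Eventually.of_forall fun x => PP_mul ζ (fun x => bs ρ (y - x)) G φ x)
      have eF : ∫ x, (-P x - R x) * h0 ρ (y - x)
          = -(∫ x, P x * h0 ρ (y - x)) - ∫ x, R x * h0 ρ (y - x) := by
        rw [← intns iPh iRh]
        refine integral_congr_ae (Eventually.of_forall fun x => ?_)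
        show (-P x - R x) * h0 ρ (y - x) = -(P x * h0 ρ (y - x)) - R x * h0 ρ (y - x)
        ring
      have eF2 : ∫ x, 16 / η * ν * (ζ x ^ 2 * NN φ x) * h1 ρ (y - x)
          = 16 / η * ν * ∫ x, ζ x ^ 2 * NN φ x * h1 ρ (y - x) := by
        rw [← integral_const_mul]
        refine integral_congr_ae (Eventually.of_forall fun x => ?_)
        show 16 / η * ν * (ζ x ^ 2 * NN φ x) * h1 ρ (y - x)
          = 16 / η * ν * (ζ x ^ 2 * NN φ x * h1 ρ (y - x))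
        ring
      rw [eF, eF2]
      linarith only [key]
    · have hz : ∀ x, P x * h0 ρ (y - x) = 0 := by
        intro x
        simp only [hP]
        unfold PP
        by_cases hx : x ∈ Ω
        · by_cases hxO : x ∈ O
          · have h1 : ρ ≤ ‖y - x‖ := by
              by_contra hcon
              exact hy ⟨x, ⟨hx, hxO⟩, not_le.1 hcon⟩
            unfold h0
            rw [bs_zero hρ h1]
            ring
          · have h1 : ζ x = 0 := image_eq_zero_of_notMem_tsupport fun h2 => hxO (hζO h2)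
            rw [indicator_of_mem hx, h1]
            ring
        · rw [indicator_of_notMem hx, zero_mul]
      have e1 : ∫ x, (-P x - R x) * h0 ρ (y - x) = ∫ x, -(R x * h0 ρ (y - x)) := by
        refine integral_congr_ae (Eventually.of_forall fun x => ?_)
        have := hz x
        show (-P x - R x) * h0 ρ (y - x) = -(R x * h0 ρ (y - x))
        linarith
      rw [e1, integral_neg]
      have h1 : 0 ≤ ∫ x, R x * h0 ρ (y - x) :=
        integral_nonneg fun x => mul_nonneg (hR0 x) (h0_nonneg _ _)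
      have h2 : 0 ≤ ∫ x, 16 / η * ν * (ζ x ^ 2 * NN φ x) * LI.h1 ρ (y - x) :=
        integral_nonneg fun x => mul_nonneg (mul_nonneg hr (mul_nonneg (sq_nonneg _) (hN x)))
          (h1_nonneg _ _)
      linarith
  have key := avg iF₁ iF₂ (h0_int hρ) (h1_int hρ) H
  rw [int_h0 hρ, int_h1 hρ, intns iP iR, integral_const_mul, hP, PP_integral hΩ, hR,
    RR_integral h _ _ _ hζ] at key
  have hI := I0_pos
  have hρ3 : 0 < ρ ^ 3 := by positivity
  set a := ∫ x in Ω, ζ x ^ 2 * ⟪G x, tens (φ x)⟫_ℝ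
  set b := ∫ x, ζ x ^ 2 * JJ φ x
  set d := ∫ x, ζ x ^ 2 * NN φ x
  set e := ∫ x, DD ζ x * NN φ x
  have key2 : -a - ((c + η) * ν * b + β * d + 16 / η * ν * e)
      ≤ C0 * (ρ⁻¹) ^ 2 * (16 / η * ν * d) := by
    have h1 : (-a - ((c + η) * ν * b + β * d + 16 / η * ν * e)) * (ρ ^ 3 * I0)
        ≤ (C0 * (ρ⁻¹) ^ 2 * (16 / η * ν * d)) * (ρ ^ 3 * I0) := by
      refine key.trans (le_of_eq ?_)
      have : C0 * I0 = I1 := div_mul_cancel₀ _ hI.ne'
      rw [← this]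
      ring
    exact le_of_mul_le_mul_right h1 (by positivity)
  have e3 : 16 / η * ν * (e + C0 * (ρ⁻¹) ^ 2 * d)
      = 16 / η * ν * e + C0 * (ρ⁻¹) ^ 2 * (16 / η * ν * d) := by ring
  rw [e3]
  linarith only [key2]

end Pool.Agent.R772.LI
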