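import Pool.Agent.R772.LI4

/-!
Finite partitions and the global form inequality.
-/

set_option autoImplicit false

open MeasureTheory Set Filter Topology
open scoped InnerProductSpace ContDiff ENNReal

namespace Pool.Agent.R772.LI

open H772R2.NS Pool.Agent.TH340.FF Pool.Agent.R462.HC

variable {Ω : Set E3}

theorem part {ι : Type*} (s : Finset ι) (f : ι → E3 → ℝ) (hf : ∀ i ∈ s, ContDiff ℝ ∞ (f i)) :
    ∃ ζ : ι → E3 → ℝ, (∀ i ∈ s, ContDiff ℝ ∞ (ζ i)) ∧ (∀ i ∈ s, ∀ x, f i x = 0 → ζ i x = 0) ∧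
      ∀ x, ∑ i ∈ s, ζ i x ^ 2 = 1 - ∏ i ∈ s, Real.cos (Real.pi / 2 * f i x) ^ 2 := by
  classical
  induction s using Finset.induction_on with
  | empty => exact ⟨fun _ _ => 0, by simp, by simp, by simp⟩
  | insert a s ha ih =>
    obtain ⟨ζ, h1, h2, h3⟩ := ih fun i hi => hf i (Finset.mem_insert_of_mem hi)
    have hfa := hf a (Finset.mem_insert_self _ _)
    refine ⟨fun i => if i = a then fun x => Real.sin (Real.pi / 2 * f a x)
      * ∏ j ∈ s, Real.cos (Real.pi / 2 * f j x) else ζ i, ?_, ?_, ?_⟩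
    · intro i hi
      by_cases hia : i = a
      · simp only [hia, if_true]
        refine (Real.contDiff_sin.comp (contDiff_const.mul hfa)).mul ?_
        refine contDiff_prod fun j hj => ?_
        exact Real.contDiff_cos.comp
          (contDiff_const.mul (hf j (Finset.mem_insert_of_mem hj)))
      · simp only [hia, if_false]
        exact h1 i ((Finset.mem_insert.1 hi).resolve_left hia)
    · intro i hi x hx
      by_cases hia : i = a
      · subst hia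
        simp only [if_true]
        rw [hx]
        simp
      · simp only [hia, if_false]
        exact h2 i ((Finset.mem_insert.1 hi).resolve_left hia) x hx
    · intro x
      rw [Finset.sum_insert ha, Finset.prod_insert ha]
      have e1 : ∑ i ∈ s, (if i = a then fun x => Real.sin (Real.pi / 2 * f a x)
          * ∏ j ∈ s, Real.cos (Real.pi / 2 * f j x) else ζ i) x ^ 2 = ∑ i ∈ s, ζ i x ^ 2 := by
        refine Finset.sum_congr rfl fun i hi => ?_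
        have : i ≠ a := fun h => ha (h ▸ hi)
        rw [if_neg this]
      rw [e1, h3 x]
      simp only [if_true]
      rw [mul_pow, ← Finset.prod_pow, Real.sin_sq]
      ring

/-- a finite partition near a compact set -/
theorem part_balls {K : Set E3} (s : Finset E3) (r : E3 → ℝ) (hr : ∀ i ∈ s, 0 < r i)
    (hK : ∀ x ∈ K, ∃ i ∈ s, ‖x - i‖ ≤ r i / 2) :
    ∃ ζ : E3 → E3 → ℝ, (∀ i ∈ s, ContDiff ℝ ∞ (ζ i)) ∧
      (∀ i ∈ s, tsupport (ζ i) ⊆ Metric.ball i (r i)) ∧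
      (∃ L : ℝ, 0 ≤ L ∧ ∀ i ∈ s, ∀ x, DD (ζ i) x ≤ L) ∧
      ∀ x ∈ K, ∑ i ∈ s, ζ i x ^ 2 = 1 := by
  classical
  have hex : ∀ i : E3, ∃ f : E3 → ℝ, i ∈ s → ContDiff ℝ ∞ f ∧
      tsupport f ⊆ Metric.ball i (r i) ∧ HasCompactSupport f ∧
      ∀ x, ‖x - i‖ ≤ r i / 2 → f x = 1 := by
    intro i
    by_cases hi : i ∈ s
    · have h0 := hr i hi
      let b : ContDiffBump (i : E3) := ⟨r i / 2, 3 / 4 * r i, by linarith, by linarith⟩
      refine ⟨b, fun _ => ⟨b.contDiff, ?_, b.hasCompactSupport, fun x hx => ?_⟩⟩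
      · rw [b.tsupport_eq]
        refine Metric.closedBall_subset_ball ?_
        show 3 / 4 * r i < r i
        linarith
      · refine b.one_of_mem_closedBall ?_
        rw [Metric.mem_closedBall, dist_eq_norm]
        exact hx
    · exact ⟨0, fun h => absurd h hi⟩
  choose f hf using hex
  obtain ⟨ζ, h1, h2, h3⟩ := part s f fun i hi => (hf i hi).1
  have hts : ∀ i ∈ s, tsupport (ζ i) ⊆ tsupport (f i) := fun i hi =>
    closure_mono fun x hx h0 => hx (h2 i hi x h0)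
  refine ⟨ζ, h1, fun i hi => (hts i hi).trans (hf i hi).2.1, ?_, fun x hx => ?_⟩
  · have hb : ∀ i, ∃ C : ℝ, i ∈ s → 0 ≤ C ∧ ∀ x, DD (ζ i) x ≤ C := by
      intro i
      by_cases hi : i ∈ s
      · have hcs : HasCompactSupport (ζ i) :=
          (hf i hi).2.2.1.of_isClosed_subset (isClosed_tsupport _) (hts i hi)
        have hcs2 : HasCompactSupport (DD (ζ i)) :=
          (hcs.fderiv (𝕜 := ℝ)).comp_left (g := fun L : E3 →L[ℝ] ℝ => ‖L‖ ^ 2) (by simp)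
        obtain ⟨C, hC⟩ := hcs2.exists_bound_of_continuous (DD_cont (h1 i hi))
        refine ⟨C, fun _ => ⟨(norm_nonneg _).trans (hC 0), fun x => (le_abs_self _).trans ?_⟩⟩
        exact hC x
      · exact ⟨0, fun h => absurd h hi⟩
    choose C hC using hb
    refine ⟨∑ i ∈ s, C i, Finset.sum_nonneg fun i hi => (hC i hi).1, fun i hi x => ?_⟩
    exact ((hC i hi).2 x).trans
      (Finset.single_le_sum (f := C) (fun j hj => (hC j hj).1) hi)
  · obtain ⟨i, hi, hxi⟩ := hK x hx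
    rw [h3 x]
    have h4 : ∏ i ∈ s, Real.cos (Real.pi / 2 * f i x) ^ 2 = 0 := by
      refine Finset.prod_eq_zero hi ?_
      rw [(hf i hi).2.2.2 x hxi]
      simp
    rw [h4]
    ring

/-- **The global form inequality.** -/
theorem form_fin (hΩ : MeasurableSet Ω) {ι : Type*} (s : Finset ι) (ζ : ι → E3 → ℝ)
    (hζ : ∀ i ∈ s, ContDiff ℝ ∞ (ζ i)) (hsum : ∀ x ∈ Ω, ∑ i ∈ s, ζ i x ^ 2 = 1)
    {ν : ℝ} (hν : 0 < ν) {U : L2V Ω} {G : L2M Ω} (hU : (U, G) ∈ graphW Ω)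
    (c b β ρ η : ι → ℝ) (O : ι → Set E3)
    (hc0 : ∀ i ∈ s, 0 ≤ c i) (hc1 : ∀ i ∈ s, c i ≤ 1) (hb0 : ∀ i ∈ s, 0 ≤ b i)
    (hβ0 : ∀ i ∈ s, 0 ≤ β i) (hρ : ∀ i ∈ s, 0 < ρ i) (hη : ∀ i ∈ s, 0 < η i)
    (hη1 : ∀ i ∈ s, η i ≤ 1) (hζO : ∀ i ∈ s, tsupport (ζ i) ⊆ O i)
    (hQ : ∀ i ∈ s, ∀ x ∈ Ω ∩ O i, Qt Ω (Metric.ball x (2 * ρ i)) ν (c i) (b i + β i) U)
    {L C B : ℝ} (hL : ∀ i ∈ s, ∀ x, DD (ζ i) x ≤ L)
    (hC : ∀ i ∈ s, c i + η i ≤ C)
    (hB : ∀ i ∈ s, b i + 16 / η i * ν * (C0 * (ρ i)⁻¹ ^ 2) ≤ B)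
    {p : L2V Ω × L2M Ω} (hpW : p ∈ graphW Ω) :
    -⟪tensL p.1, G⟫_ℝ ≤ C * ν * ‖p.2‖ ^ 2
      + (B + ∑ i ∈ s, β i + ∑ i ∈ s, 16 / η i * ν * L) * ‖p.1‖ ^ 2 := by
  set Λ := B + ∑ i ∈ s, β i + ∑ i ∈ s, 16 / η i * ν * L with hΛ
  have key := graphW_le (fun p => -⟪tensL p.1, G⟫_ℝ - C * ν * ‖p.2‖ ^ 2
    - Λ * ‖p.1‖ ^ 2) (form_cont hΩ G _ _) (fun q hq => ?_) hpW
  · linarith
  have hqW := preW_le hq
  obtain ⟨φ, h1, h2, h3⟩ := hq
  have n1 : ‖q.1‖ ^ 2 = ∫ x, NN φ x := norm_test1 h1 h2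
  have n2 : ‖q.2‖ ^ 2 = ∫ x, JJ φ x := norm_test2 h1 h3
  have hφ0 : ∀ x ∉ Ω, φ x = 0 := fun x hx =>
    image_eq_zero_of_notMem_tsupport fun hc => hx (h1.supp hc)
  have eG : ⟪tensL q.1, G⟫_ℝ = ∑ i ∈ s, ∫ x in Ω, ζ i x ^ 2 * ⟪G x, tens (φ x)⟫_ℝ := by
    rw [← integral_finsetSum _ fun i hi => iTT h1 G (hζ i hi).continuous, real_inner_comm,
      L2.inner_def]
    refine integral_congr_ae ?_
    filter_upwards [tensL_coe hΩ hqW, h2, ae_restrict_mem hΩ] with x a b hx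
    rw [← Finset.sum_mul, hsum x hx, one_mul, a, b]
  have eJ : ∫ x, JJ φ x = ∑ i ∈ s, ∫ x, ζ i x ^ 2 * JJ φ x := by
    have i1 : ∀ i ∈ s, Integrable fun x => ζ i x ^ 2 * JJ φ x := fun i hi =>
      iJJ h1 ((hζ i hi).continuous.pow 2)
    rw [← integral_finsetSum _ i1]
    refine integral_congr_ae (Eventually.of_forall fun x => ?_)
    show JJ φ x = ∑ i ∈ s, ζ i x ^ 2 * JJ φ x
    rw [← Finset.sum_mul]
    by_cases hx : x ∈ Ω
    · rw [hsum x hx, one_mul]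
    · have : JJ φ x = 0 := by
        rw [JJ_eq]
        have : jac φ x = 0 := image_eq_zero_of_notMem_tsupport fun hc =>
          hx (h1.supp (tsupport_jac_subset hc))
        rw [this]
        simp
      rw [this, mul_zero]
  have eN : ∫ x, NN φ x = ∑ i ∈ s, ∫ x, ζ i x ^ 2 * NN φ x := by
    have i1 : ∀ i ∈ s, Integrable fun x => ζ i x ^ 2 * NN φ x := fun i hi =>
      iNN h1 ((hζ i hi).continuous.pow 2)
    rw [← integral_finsetSum _ i1]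
    refine integral_congr_ae (Eventually.of_forall fun x => ?_)
    show NN φ x = ∑ i ∈ s, ζ i x ^ 2 * NN φ x
    rw [← Finset.sum_mul]
    by_cases hx : x ∈ Ω
    · rw [hsum x hx, one_mul]
    · have : NN φ x = 0 := by
        rw [NN_eq, hφ0 x hx]
        simp
      rw [this, mul_zero]
  have iN : Integrable (NN φ) := NN_int h1
  have hN0 : 0 ≤ ∫ x, NN φ x := integral_nonneg (NN_nonneg φ)
  -- the inequality for each index
  have H : ∀ i ∈ s, -∫ x in Ω, ζ i x ^ 2 * ⟪G x, tens (φ x)⟫_ℝ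
      ≤ C * ν * (∫ x, ζ i x ^ 2 * JJ φ x) + B * (∫ x, ζ i x ^ 2 * NN φ x)
        + β i * (∫ x, NN φ x) + 16 / η i * ν * L * ∫ x, NN φ x := by
    intro i hi
    have g1 := form_avg hΩ hν (hρ i hi) (hc0 i hi) (hc1 i hi)
      (add_nonneg (hb0 i hi) (hβ0 i hi)) hU (hQ i hi) (hζ i hi) (hζO i hi) (hη i hi) (hη1 i hi) h1
    have hη0 := hη i hi
    have a0 : 0 ≤ ∫ x, ζ i x ^ 2 * JJ φ x :=
      integral_nonneg fun x => mul_nonneg (sq_nonneg _) (JJ_nonneg φ x)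
    have d0 : 0 ≤ ∫ x, ζ i x ^ 2 * NN φ x :=
      integral_nonneg fun x => mul_nonneg (sq_nonneg _) (NN_nonneg φ x)
    have d1 : ∫ x, ζ i x ^ 2 * NN φ x ≤ ∫ x, NN φ x := by
      rw [eN]
      exact Finset.single_le_sum (f := fun i => ∫ x, ζ i x ^ 2 * NN φ x)
        (fun j _ => integral_nonneg fun x => mul_nonneg (sq_nonneg _) (NN_nonneg φ x)) hi
    have e1 : ∫ x, DD (ζ i) x * NN φ x ≤ L * ∫ x, NN φ x := by
      rw [← integral_const_mul]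
      exact integral_mono (iNN h1 (DD_cont (hζ i hi))) (iN.const_mul L)
        fun x => mul_le_mul_of_nonneg_right (hL i hi x) (NN_nonneg φ x)
    have m1 : (c i + η i) * ν * (∫ x, ζ i x ^ 2 * JJ φ x)
        ≤ C * ν * ∫ x, ζ i x ^ 2 * JJ φ x := by
      have := hC i hi
      gcongr
    have m2 : (b i + 16 / η i * ν * (C0 * (ρ i)⁻¹ ^ 2)) * (∫ x, ζ i x ^ 2 * NN φ x)
        ≤ B * ∫ x, ζ i x ^ 2 * NN φ x := mul_le_mul_of_nonneg_right (hB i hi) d0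
    have m3 : β i * (∫ x, ζ i x ^ 2 * NN φ x) ≤ β i * ∫ x, NN φ x :=
      mul_le_mul_of_nonneg_left d1 (hβ0 i hi)
    have hq : 0 ≤ 16 / η i * ν := by positivity
    have m4 := mul_le_mul_of_nonneg_left e1 hq
    have r1 : 16 / η i * ν * ((∫ x, DD (ζ i) x * NN φ x)
          + C0 * (ρ i)⁻¹ ^ 2 * ∫ x, ζ i x ^ 2 * NN φ x)
        = 16 / η i * ν * (∫ x, DD (ζ i) x * NN φ x)
          + 16 / η i * ν * (C0 * (ρ i)⁻¹ ^ 2) * ∫ x, ζ i x ^ 2 * NN φ x := by ring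
    rw [r1] at g1
    have r2 : (b i + 16 / η i * ν * (C0 * (ρ i)⁻¹ ^ 2)) * (∫ x, ζ i x ^ 2 * NN φ x)
        = b i * (∫ x, ζ i x ^ 2 * NN φ x)
          + 16 / η i * ν * (C0 * (ρ i)⁻¹ ^ 2) * ∫ x, ζ i x ^ 2 * NN φ x := by ring
    rw [r2] at m2
    have r3 : (b i + β i) * (∫ x, ζ i x ^ 2 * NN φ x)
        = b i * (∫ x, ζ i x ^ 2 * NN φ x) + β i * (∫ x, ζ i x ^ 2 * NN φ x) := by ring
    rw [r3] at g1
    linarith only [g1, m1, m2, m3, m4]
  have S := Finset.sum_le_sum H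
  rw [Finset.sum_neg_distrib, ← eG] at S
  have r4 : ∑ i ∈ s, (C * ν * (∫ x, ζ i x ^ 2 * JJ φ x) + B * (∫ x, ζ i x ^ 2 * NN φ x)
        + β i * (∫ x, NN φ x) + 16 / η i * ν * L * ∫ x, NN φ x)
      = C * ν * (∫ x, JJ φ x) + Λ * ∫ x, NN φ x := by
    rw [Finset.sum_add_distrib, Finset.sum_add_distrib, Finset.sum_add_distrib,
      ← Finset.mul_sum, ← Finset.mul_sum, ← Finset.sum_mul, ← Finset.sum_mul, ← eJ, ← eN, hΛ]
    ring
  rw [r4] at S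
  show -⟪tensL q.1, G⟫_ℝ - C * ν * ‖q.2‖ ^ 2 - Λ * ‖q.1‖ ^ 2 ≤ 0
  rw [n1, n2]
  linarith only [S]

end Pool.Agent.R772.LI
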