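import Pool.Agent.R462.HC.PubDef

/-!
Public definitions: velocity fields which are quiet in a part of the domain.
-/

set_option autoImplicit false

open MeasureTheory Set
open scoped InnerProductSpace ContDiff

namespace Pool.Agent.R772.LI

open H772R2.NS.Pub Pool.Agent.R462.HC
open Pool.Agent.W795.ES (outer)

/-- The velocity field `u` (in `Ω`) is `(c, β)`-quiet in `V` (viscosity `ν`): it is a sum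
`u = (w + ψ) + v` such that
* `w ∈ H¹_{0,σ}(Ω)` with the gradient `z`, `ψ` is a smooth vector field on `ℝ³`, and the quadratic
  form of the compression of `w + ψ` is at most `θ₁ ν ∫ |∇φ|² + β₁ ∫ |φ|²`, that is,
  `-∫_Ω φ·∇(w + ψ) φ ≤ θ₁ ν ∫ |∇φ|² + β₁ ∫ |φ|²` for all smooth vector fields `φ` with compact
  support in `Ω ∩ V`;
* `|v(x)|² ≤ θ₂² ν² W(x) + 2 l ν β₂` for almost every `x ∈ Ω ∩ V`, where `W` is form bounded in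
  `Ω ∩ V` with the bound one;
* `β₁ + β₂ ≤ β` and `θ₁ + l/2 + θ₂²/(2 l) ≤ c`. -/
def Quiet {Ω : Set R3} (V : Set R3) (ν c β : ℝ) (u : L2 Ω R3) : Prop :=
  ∃ (w : L2 Ω R3) (z : L2 Ω Mat) (ψ : R3 → R3) (W : R3 → ℝ) (θ₁ θ₂ l β₁ β₂ : ℝ),
    (w, z) ∈ H1graph Ω ∧ ContDiff ℝ ∞ ψ ∧ FormBdd (Ω ∩ V) W ∧
    0 ≤ θ₁ ∧ 0 < l ∧ 0 ≤ β₁ ∧ 0 ≤ β₂ ∧ θ₁ + l / 2 + θ₂ ^ 2 / (2 * l) ≤ c ∧ β₁ + β₂ ≤ β ∧
    (∀ φ : R3 → R3, ContDiff ℝ ∞ φ → HasCompactSupport φ → tsupport φ ⊆ Ω ∩ V →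
      -∫ x in Ω, (⟪z.fn x, outer (φ x)⟫_ℝ + ⟪fderiv ℝ ψ x (φ x), φ x⟫_ℝ)
        ≤ θ₁ * ν * (∫ x, ‖jac φ x‖ ^ 2) + β₁ * ∫ x, ‖φ x‖ ^ 2) ∧
    (∀ᵐ x ∂(volume.restrict (Ω ∩ V)),
      ‖u.fn x - w.fn x - ψ x‖ ^ 2 ≤ θ₂ ^ 2 * ν ^ 2 * W x + 2 * l * ν * β₂)

/-- In `V` the compression is at most `κ / |x - y|² + B`, for some point `y ∈ ℝ³`, that is,
`ξ·G(x) ξ ≥ -(κ / |x - y|² + B) |ξ|²` for almost every `x ∈ Ω ∩ V` and all `ξ`. -/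
def SlowStrainIn {Ω : Set R3} (V : Set R3) (κ B : ℝ) (G : L2 Ω Mat) : Prop :=
  ∃ y : R3, ∀ᵐ x ∂(volume.restrict (Ω ∩ V)), ∀ ξ : R3,
    -(κ / ‖x - y‖ ^ 2 + B) * ‖ξ‖ ^ 2 ≤ ⟪G.fn x, outer ξ⟫_ℝ

/-- For some rigid motion `a + A x` (`A` skew symmetric) and some point `y ∈ ℝ³`,
`|u(x) - (a + A x)| ≤ κ / |x - y| + B` for almost every `x ∈ Ω ∩ V`. -/
def SlowVelocityIn {Ω : Set R3} (V : Set R3) (κ B : ℝ) (u : L2 Ω R3) : Prop :=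
  ∃ (y a : R3) (A : R3 →L[ℝ] R3), (∀ ξ, ⟪A ξ, ξ⟫_ℝ = 0) ∧
    ∀ᵐ x ∂(volume.restrict (Ω ∩ V)), ‖u.fn x - (a + A x)‖ ≤ κ / ‖x - y‖ + B

end Pool.Agent.R772.LI
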