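import Pool.Agent.R772.LI5
import Pool.Agent.R772.PubLI
import Pool.Agent.R462.HC.Expl

/-!
Application to Leray-Hopf solutions in bounded domains.
-/

set_option autoImplicit false

open MeasureTheory Set Filter Topology
open scoped InnerProductSpace ENNReal ContDiff

namespace Pool.Agent.R772.LI

open H772R2.NS.Pub Pool.Agent.W795.TQ Pool.Agent.R462.HC
open Pool.Agent.W795.ES (stretch outer)
open Pool.Agent.TH340.FF (stretch_tens grad_bdd grad_form)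

theorem pub_quiet {Ω : Set R3} {V : Set R3} {ν c β : ℝ} {u : L2 Ω R3} (h : Quiet V ν c β u) :
    Qt (show Set H772R2.NS.E3 from Ω) (show Set H772R2.NS.E3 from V) ν c β u := by
  obtain ⟨w, z, ψ, W, θ₁, θ₂, l, β₁, β₂, k1, k2, k3, k4, k5, k6, k7, k8, k9, k10, k11⟩ := h
  refine ⟨w, z, ψ, W, θ₁, θ₂, l, β₁, β₂, mem_pub.mpr k1, k2, FB.of_pub k3, k4, k5, k6, k7, k8, k9,
    fun Φ h1 h2 h3 => ?_, k11⟩
  have h4 := k10 Φ h1 h2 h3
  have e1 : ∫ x, JJ Φ x = ∫ x, ‖H772R2.NS.Pub.jac Φ x‖ ^ 2 := by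
    refine integral_congr_ae (Eventually.of_forall fun x => ?_)
    show JJ Φ x = ‖H772R2.NS.Pub.jac Φ x‖ ^ 2
    rw [JJ_eq]
    have : (H772R2.NS.Pub.jac Φ x : H772R2.NS.M3) = H772R2.NS.jac Φ x := jac_eq Φ x
    exact congrArg (fun m : H772R2.NS.M3 => ‖m‖ ^ 2) this.symm
  have e2 : ∫ x, NN Φ x = ∫ x, ‖Φ x‖ ^ 2 :=
    integral_congr_ae (Eventually.of_forall fun x => NN_eq Φ x)
  rw [e1, e2]
  refine le_trans (le_of_eq ?_) h4
  congr 1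
  refine integral_congr_ae (Eventually.of_forall fun x => ?_)
  have := outer_tens (Φ x)
  exact congrArg₂ (· + ·) (congrArg (fun m : H772R2.NS.M3 => ⟪(z.fn x : H772R2.NS.M3), m⟫_ℝ)
    this.symm) rfl

/-- the criterion for a form inequality -/
theorem main_form (Ω : Set R3) (hΩ : IsOpen Ω) (hb : Bornology.IsBounded Ω) (ν T : ℝ) (hν : 0 < ν)
    (hT : 0 < T) (F F' : ℝ → L2 Ω Mat) (hF : IsH1 T F F')
    (u : ℝ → L2 Ω R3) (G : ℝ → L2 Ω Mat) (L : IsLerayHopf Ω ν T F u G)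
    (z0 : L2 Ω Mat) (h0 : (u 0, z0) ∈ H1graph Ω)
    (hg : ∃ g : L2 Ω R3, ∀ φ, IsTest Ω φ → rhs ν (u 0) z0 (F 0) φ = ∫ x in Ω, ⟪g.fn x, φ x⟫_ℝ) :
    (∃ u' G1 G', IsStrong Ω ν T F u u' G1 G') ∨
    ∃ τ ∈ Ioc 0 T, (∀ t ∈ Ioo 0 τ, ∃ u' G1 G', IsStrong Ω ν t F u u' G1 G') ∧
      ∀ c : ℝ, 0 ≤ c → c < 1 → ∀ s ∈ Ico 0 τ, ∃ M : ℝ, ∀ β : ℝ → ℝ,
        (∀ t, 0 ≤ β t) → (∀ t ∈ Ioo s τ, IntervalIntegrable β volume s t) →
        (∀ᵐ t ∂(volume.restrict (Ioo s τ)), ∀ p ∈ H1graph Ω,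
          -stretch (G t) p.1 ≤ c * ν * ‖p.2‖ ^ 2 + β t * ‖p.1‖ ^ 2) →
        ∀ t0 < τ, ∃ t ∈ Ioo t0 τ, s < t ∧
          3 / 4 * Real.log (1 / (τ - t)) - M ≤ ∫ r in s..t, β r := by
  rcases Pool.Agent.Results.MP_fd8964_an.EnergyStability.result Ω hΩ hb ν T hν hT F F' hF u G L
    z0 h0 hg with h1 | ⟨τ, hτ, h1, h2⟩
  · exact Or.inl h1
  refine Or.inr ⟨τ, hτ, h1, fun c hc hc2 s hs => ?_⟩
  set δ := (1 - c) / 2 with hδ
  have hδ0 : 0 < δ := by rw [hδ]; linarith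
  have hm : MeasurableSet (show Set H772R2.NS.E3 from Ω) :=
    IsOpen.measurableSet (α := H772R2.NS.E3) hΩ
  have hgT : ∀ᵐ t ∂(volume.restrict (Ioc 0 τ)), (u t, G t) ∈ H1graph Ω := by
    have := L.grad
    exact ae_mono (Measure.restrict_mono (Ioc_subset_Ioc_right hτ.2) le_rfl) this
  -- the bound before the time `s`
  obtain ⟨Cs, hCs0, hCs⟩ : ∃ C : ℝ, 0 ≤ C ∧ ∀ᵐ t ∂(volume.restrict (Ioc 0 s)), ∀ p ∈ H1graph Ω,
      -stretch (G t) p.1 ≤ (1 - δ) * ν * ‖p.2‖ ^ 2 + C * ‖p.1‖ ^ 2 := by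
    rcases eq_or_lt_of_le hs.1 with h3 | h3
    · refine ⟨0, le_rfl, ?_⟩
      rw [← h3]
      simp
    · obtain ⟨u', G1, G', hst⟩ := h1 s ⟨h3, hs.2⟩
      obtain ⟨M₁, hM₁⟩ := grad_bdd hΩ hst
        (ae_mono (Measure.restrict_mono (Ioc_subset_Ioc_right hs.2.le) le_rfl) hgT)
      obtain ⟨C, hC, hC2⟩ := grad_form (Ω := (show Set H772R2.NS.E3 from Ω)) hm (M := M₁)
        (ε := (1 - δ) * ν) (by
          have : 0 < 1 - δ := by rw [hδ]; linarith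
          positivity)
      refine ⟨C, hC, ?_⟩
      filter_upwards [hM₁] with t ht p hp
      rw [stretch_tens hm (G t) hp]
      exact hC2 (G t) ht p (mem_pub.mpr hp)
  obtain ⟨Mc, hMc⟩ := h2 0 (fun j => j.elim0) (fun j => j.elim0) δ hδ0 s hs
  refine ⟨Mc, fun β hβ0 hβi hyp t0 ht0 => ?_⟩
  set Λ : ℝ → ℝ := fun t => if t ≤ s then Cs else β t with hΛ
  have hΛ0 : ∀ t, 0 ≤ Λ t := fun t => by
    simp only [hΛ]
    split_ifs
    · exact hCs0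
    · exact hβ0 t
  have hΛs : ∀ t, s ≤ t → EqOn β Λ (Ioc s t) := fun t _ r hr => by
    simp only [hΛ]
    rw [if_neg (not_le.2 hr.1)]
  have hΛi : ∀ t ∈ Ioo 0 τ, IntervalIntegrable Λ volume 0 t := by
    intro t ht
    have i1 : ∀ a b, a ≤ b → b ≤ s → IntervalIntegrable Λ volume a b := fun a b hab hb => by
      have : IntervalIntegrable (fun _ : ℝ => Cs) volume a b := intervalIntegrable_const
      refine this.congr fun r hr => ?_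
      rw [uIoc_of_le hab] at hr
      simp only [hΛ]
      rw [if_pos (hr.2.trans hb)]
    rcases le_or_gt t s with h3 | h3
    · exact i1 0 t ht.1.le h3
    · refine (i1 0 s hs.1 le_rfl).trans ?_
      refine (hβi t ⟨h3, ht.2⟩).congr fun r hr => ?_
      rw [uIoc_of_le h3.le] at hr
      exact hΛs t h3.le hr
  obtain ⟨t, ht, hst, hlog⟩ := hMc Λ hΛ0 hΛi (by
    have a1 : ∀ᵐ t ∂(volume : Measure ℝ), t ∈ Ioc 0 s → ∀ p ∈ H1graph Ω,
        -stretch (G t) p.1 ≤ (1 - δ) * ν * ‖p.2‖ ^ 2 + Cs * ‖p.1‖ ^ 2 :=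
      (ae_restrict_iff' measurableSet_Ioc).1 hCs
    have a2 : ∀ᵐ t ∂(volume : Measure ℝ), t ∈ Ioo s τ → ∀ p ∈ H1graph Ω,
        -stretch (G t) p.1 ≤ c * ν * ‖p.2‖ ^ 2 + β t * ‖p.1‖ ^ 2 :=
      (ae_restrict_iff' measurableSet_Ioo).1 hyp
    have a3 : ∀ᵐ t ∂(volume : Measure ℝ), t ≠ τ := by simp [ae_iff, measure_singleton]
    rw [ae_restrict_iff' measurableSet_Ioc]
    filter_upwards [a1, a2, a3] with t b1 b2 b3 ht p hp _
    by_cases hts : t ≤ s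
    · have e1 : Λ t = Cs := by simp only [hΛ]; rw [if_pos hts]
      rw [e1]
      exact b1 ⟨ht.1, hts⟩ p hp
    · have e1 : Λ t = β t := by simp only [hΛ]; rw [if_neg hts]
      rw [e1]
      have h4 := b2 ⟨not_le.1 hts, lt_of_le_of_ne ht.2 b3⟩ p hp
      refine h4.trans ?_
      have h5 : c ≤ 1 - δ := by rw [hδ]; linarith
      have h6 : c * ν * ‖p.2‖ ^ 2 ≤ (1 - δ) * ν * ‖p.2‖ ^ 2 := by gcongr
      linarith) t0 ht0
  refine ⟨t, ht, hst, ?_⟩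
  have e2 : ∫ r in s..t, Λ r = ∫ r in s..t, β r := by
    refine intervalIntegral.integral_congr_ae ?_
    refine Eventually.of_forall fun r hr => ?_
    rw [uIoc_of_le hst.le] at hr
    exact (hΛs t hst.le hr).symm
  rw [e2] at hlog
  linarith

end Pool.Agent.R772.LI
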