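import Pool.Agent.R772.LI6

/-!
The local criterion.
-/

set_option autoImplicit false

open MeasureTheory Set Filter Topology
open scoped InnerProductSpace ENNReal ContDiff

namespace Pool.Agent.R772.LI

open H772R2.NS.Pub Pool.Agent.W795.TQ Pool.Agent.R462.HC
open Pool.Agent.W795.ES (stretch outer)
open Pool.Agent.TH340.FF (stretch_tens)

/-- the absolute constant -/
noncomputable def K0 : ℝ := Real.sqrt (256 * C0 + 1)

theorem K0_pos : 0 < K0 := Real.sqrt_pos.2 (by linarith [C0_nonneg])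

theorem K0_sq : K0 ^ 2 = 256 * C0 + 1 := Real.sq_sqrt (by linarith [C0_nonneg])

theorem fin_bound {ι : Type*} (S : Finset ι) (v : ι → ℝ) {m A : ℝ} (hm : m < A)
    (hv : ∀ i ∈ S, v i < A) : ∃ B : ℝ, m ≤ B ∧ B < A ∧ ∀ i ∈ S, v i ≤ B := by
  classical
  induction S using Finset.induction_on with
  | empty => exact ⟨m, le_rfl, hm, by simp⟩
  | insert a S ha ih =>
    obtain ⟨B, h1, h2, h3⟩ := ih fun i hi => hv i (Finset.mem_insert_of_mem hi)
    refine ⟨max B (v a), h1.trans (le_max_left _ _), max_lt h2 (hv a (Finset.mem_insert_self _ _)),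
      fun i hi => ?_⟩
    rcases Finset.mem_insert.1 hi with rfl | hi
    · exact le_max_right _ _
    · exact (h3 i hi).trans (le_max_left _ _)

/-- the radius -/
noncomputable def rad (c b ν δ : ℝ) : ℝ := K0 * Real.sqrt (ν * δ / ((1 - c) * (3 / 4 - b)))

theorem rad_pos {c b ν δ : ℝ} (hc : c < 1) (hb : b < 3 / 4) (hν : 0 < ν) (hδ : 0 < δ) :
    0 < rad c b ν δ := by
  have h1 : 0 < 1 - c := by linarith
  have h2 : 0 < 3 / 4 - b := by linarith
  exact mul_pos K0_pos (Real.sqrt_pos.2 (by positivity))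

theorem rad_rate {c b ν δ : ℝ} (hc : c < 1) (hb : b < 3 / 4) (hν : 0 < ν) (hδ : 0 < δ) :
    b / δ + 16 / ((1 - c) / 2) * ν * (C0 * (rad c b ν δ / 2)⁻¹ ^ 2) ≤ (3 / 8 + b / 2) / δ := by
  have h1 : 0 < 1 - c := by linarith
  have h2 : 0 < 3 / 4 - b := by linarith
  have h3 : (rad c b ν δ) ^ 2 = (256 * C0 + 1) * (ν * δ / ((1 - c) * (3 / 4 - b))) := by
    unfold rad
    rw [mul_pow, K0_sq, Real.sq_sqrt (by positivity)]
  have h4 : (rad c b ν δ / 2)⁻¹ ^ 2
      = 4 * ((1 - c) * (3 / 4 - b)) / ((256 * C0 + 1) * (ν * δ)) := by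
    rw [inv_pow, div_pow, h3]
    have hC := C0_nonneg
    have : 0 < 256 * C0 + 1 := by linarith
    field_simp
    ring
  rw [h4]
  have hC := C0_nonneg
  have hK : 0 < 256 * C0 + 1 := by linarith
  have e1 : 16 / ((1 - c) / 2) * ν * (C0 * (4 * ((1 - c) * (3 / 4 - b))
      / ((256 * C0 + 1) * (ν * δ)))) = 128 * C0 / (256 * C0 + 1) * (3 / 4 - b) / δ := by
    field_simp
    ring
  rw [e1, ← add_div]
  refine div_le_div_of_nonneg_right ?_ hδ.le
  have h5 : 128 * C0 / (256 * C0 + 1) ≤ 1 / 2 := by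
    rw [div_le_iff₀ hK]
    linarith
  have h6 : 128 * C0 / (256 * C0 + 1) * (3 / 4 - b) ≤ 1 / 2 * (3 / 4 - b) := by gcongr
  linarith

/-- the argument with the logarithm -/
theorem log_final {ι : Type*} (S : Finset ι) {τ s : ℝ} (hs0 : 0 ≤ s) (hsτ : s < τ)
    {B₀ C₁ M : ℝ} (hB0 : 0 ≤ B₀) (hB1 : B₀ < 3 / 4) (hC1 : 0 ≤ C₁) (β : ι → ℝ → ℝ) (σ : ι → ℝ)
    (hβ0 : ∀ i ∈ S, ∀ t, 0 ≤ β i t) (hσ : ∀ i ∈ S, σ i ≤ s)
    (hβi : ∀ i ∈ S, ∀ t ∈ Ioo (σ i) τ, IntervalIntegrable (β i) volume (σ i) t)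
    (hlim : ∀ i ∈ S, Tendsto (fun t => (∫ r in (σ i)..t, β i r) / Real.log (1 / (τ - t)))
      (𝓝[<] τ) (𝓝 0))
    (H : ∀ t0 < τ, ∃ t ∈ Ioo t0 τ, s < t ∧ 3 / 4 * Real.log (1 / (τ - t)) - M
      ≤ ∫ r in s..t, (B₀ / |τ - r| + ∑ i ∈ S, β i r + C₁)) : False := by
  have hβs : ∀ i ∈ S, ∀ t ∈ Ioo s τ, IntervalIntegrable (β i) volume s t := fun i hi t ht => by
    refine (hβi i hi t ⟨(hσ i hi).trans_lt ht.1, ht.2⟩).mono_set ?_
    rw [uIcc_of_le ht.1.le, uIcc_of_le ((hσ i hi).trans ht.1.le)]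
    exact Icc_subset_Icc_left (hσ i hi)
  have hle : ∀ i ∈ S, ∀ t ∈ Ioo s τ, ∫ r in s..t, β i r ≤ ∫ r in (σ i)..t, β i r := by
    intro i hi t ht
    have h1 : IntervalIntegrable (β i) volume (σ i) s := by
      refine (hβi i hi t ⟨(hσ i hi).trans_lt ht.1, ht.2⟩).mono_set ?_
      rw [uIcc_of_le (hσ i hi), uIcc_of_le ((hσ i hi).trans ht.1.le)]
      exact Icc_subset_Icc_right ht.1.le
    have h2 := intervalIntegral.integral_add_adjacent_intervals h1 (hβs i hi t ht)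
    have h3 : 0 ≤ ∫ r in (σ i)..s, β i r :=
      intervalIntegral.integral_nonneg (hσ i hi) fun r _ => hβ0 i hi r
    linarith
  set f : ℝ → ℝ := fun r => B₀ / |τ - r| with hf
  have hfc : ∀ t ∈ Ioo s τ, ContinuousOn f (uIcc s t) := by
    intro t ht
    rw [uIcc_of_le ht.1.le]
    refine continuousOn_const.div (continuous_const.sub continuous_id).abs.continuousOn
      fun r hr => ?_
    have : 0 < τ - r := by linarith [hr.2, ht.2]
    exact abs_ne_zero.2 this.ne'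
  have hint : ∀ t ∈ Ioo s τ, ∫ r in s..t, f r
      = B₀ * (Real.log (1 / (τ - t)) - Real.log (1 / (τ - s))) := by
    intro t ht
    have hder : ∀ r ∈ uIcc s t, HasDerivAt (fun r => B₀ * Real.log (1 / (τ - r))) (f r) r := by
      intro r hr
      rw [uIcc_of_le ht.1.le] at hr
      have hp : 0 < τ - r := by linarith [hr.2, ht.2]
      have e1 : (fun r => B₀ * Real.log (1 / (τ - r))) = fun r => B₀ * -Real.log (τ - r) := by
        funext r
        rw [one_div, Real.log_inv]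
      rw [e1]
      refine (((((hasDerivAt_id r).const_sub τ).log hp.ne').neg).const_mul B₀).congr_deriv ?_
      simp only [hf]
      rw [abs_of_pos hp]
      simp only [id]
      ring
    rw [intervalIntegral.integral_eq_sub_of_hasDerivAt hder (hfc t ht).intervalIntegrable]
    ring
  set ε := (3 / 4 - B₀) / 2 with hε
  have hε0 : 0 < ε := by rw [hε]; linarith
  set A := (|M| + B₀ * |Real.log (1 / (τ - s))| + C₁ * τ + 1) / ε with hA
  have hτ : 0 < τ := lt_of_le_of_lt hs0 hsτ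
  have hA0 : 0 < A := by rw [hA]; positivity
  have hsum : Tendsto (fun t => ∑ i ∈ S, (∫ r in (σ i)..t, β i r) / Real.log (1 / (τ - t)))
      (𝓝[<] τ) (𝓝 0) := by
    have := tendsto_finsetSum S hlim
    simpa using this
  have ev1 : ∀ᶠ t in 𝓝[<] τ,
      ∑ i ∈ S, (∫ r in (σ i)..t, β i r) / Real.log (1 / (τ - t)) < ε :=
    hsum.eventually (gt_mem_nhds hε0)
  have ev2 : ∀ᶠ t in 𝓝[<] τ, τ - Real.exp (-A) < t := by
    have : Ioo (τ - Real.exp (-A)) τ ∈ 𝓝[<] τ :=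
      Ioo_mem_nhdsLT (by linarith [Real.exp_pos (-A)])
    filter_upwards [this] with t ht using ht.1
  obtain ⟨l, hl, hsub⟩ := (mem_nhdsLT_iff_exists_Ioo_subset).1 (ev1.and ev2)
  obtain ⟨t, ht, hst, hle2⟩ := H (max l s) (max_lt hl hsτ)
  have htl : t ∈ Ioo l τ := ⟨(le_max_left _ _).trans_lt ht.1, ht.2⟩
  have hts : t ∈ Ioo s τ := ⟨hst, ht.2⟩
  obtain ⟨g1, g2⟩ := hsub htl
  have hp : 0 < τ - t := by linarith [ht.2]
  have h3 : A < Real.log (1 / (τ - t)) := by
    rw [one_div, Real.log_inv, lt_neg, Real.log_lt_iff_lt_exp hp]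
    linarith
  set Lg := Real.log (1 / (τ - t)) with hLg
  have hL0 : 0 < Lg := hA0.trans h3
  have h4 : ∑ i ∈ S, ∫ r in (σ i)..t, β i r < ε * Lg := by
    have e1 : ∑ i ∈ S, (∫ r in (σ i)..t, β i r) / Lg = (∑ i ∈ S, ∫ r in (σ i)..t, β i r) / Lg :=
      (Finset.sum_div _ _ _).symm
    rw [e1, div_lt_iff₀ hL0] at g1
    exact g1
  have i1 : IntervalIntegrable f volume s t := (hfc t hts).intervalIntegrable
  have i2 : ∀ i ∈ S, IntervalIntegrable (β i) volume s t := fun i hi => hβs i hi t hts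
  have i3 : IntervalIntegrable (fun r => ∑ i ∈ S, β i r) volume s t := by
    have := IntervalIntegrable.sum S i2
    refine this.congr (fun r _ => ?_)
    simp
  have e2 : ∫ r in s..t, (B₀ / |τ - r| + ∑ i ∈ S, β i r + C₁)
      = (∫ r in s..t, f r) + (∑ i ∈ S, ∫ r in s..t, β i r) + C₁ * (t - s) := by
    rw [intervalIntegral.integral_add (i1.add i3) intervalIntegrable_const,
      intervalIntegral.integral_add i1 i3, intervalIntegral.integral_finsetSum i2,
      intervalIntegral.integral_const, smul_eq_mul]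
    ring
  rw [e2, hint t hts] at hle2
  have h5 : ∑ i ∈ S, ∫ r in s..t, β i r ≤ ∑ i ∈ S, ∫ r in (σ i)..t, β i r :=
    Finset.sum_le_sum fun i hi => hle i hi t hts
  have h6 : C₁ * (t - s) ≤ C₁ * τ := by
    have : t - s ≤ τ := by linarith [ht.2]
    gcongr
  have h7 : ε * A = |M| + B₀ * |Real.log (1 / (τ - s))| + C₁ * τ + 1 := by
    rw [hA, mul_comm, div_mul_cancel₀ _ hε0.ne']
  have h8 : ε * A < ε * Lg := mul_lt_mul_of_pos_left h3 hε0
  have h9 := le_abs_self M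
  have h10 : -(B₀ * Real.log (1 / (τ - s))) ≤ B₀ * |Real.log (1 / (τ - s))| := by
    rw [← mul_neg]
    exact mul_le_mul_of_nonneg_left (neg_le_abs _) hB0
  have h11 : 3 / 4 * Lg = B₀ * Lg + 2 * (ε * Lg) := by rw [hε]; ring
  have h12 : B₀ * (Lg - Real.log (1 / (τ - s))) = B₀ * Lg - B₀ * Real.log (1 / (τ - s)) := by ring
  rw [h12] at hle2
  linarith

end Pool.Agent.R772.LI
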