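import Pool.Agent.R772.LI7

/-!
The local criterion: conclusion.
-/

set_option autoImplicit false

open MeasureTheory Set Filter Topology
open scoped InnerProductSpace ENNReal ContDiff

namespace Pool.Agent.R772.LI

open H772R2.NS.Pub Pool.Agent.W795.TQ Pool.Agent.R462.HC
open Pool.Agent.W795.ES (stretch outer)
open Pool.Agent.TH340.FF (stretch_tens)

theorem aux1 {c : ℝ} (h : c < 1) : (1 + c) / 2 < 1 := by linarith

theorem aux2 {b : ℝ} (h : b < 3 / 4) : 3 / 8 + b / 2 < 3 / 4 := by linarith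

theorem aux3 {c : ℝ} (h : c < 1) : 0 < (1 - c) / 2 := by linarith

theorem aux4 {c : ℝ} (h : 0 ≤ c) : (1 - c) / 2 ≤ 1 := by linarith

theorem aux5 {c C : ℝ} (h : (1 + c) / 2 ≤ C) : c + (1 - c) / 2 ≤ C := by linarith

theorem qt_half {Ω : Set H772R2.NS.E3} {ν c β R : ℝ} {U : H772R2.NS.L2V Ω} {x : H772R2.NS.E3}
    (h : Qt Ω (Metric.ball x R) ν c β U) : Qt Ω (Metric.ball x (2 * (R / 2))) ν c β U := by
  have e : 2 * (R / 2) = R := by ring
  rw [e]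
  exact h

/-- the local hypothesis at the point `x0` -/
def LocHyp {Ω : Set R3} (ν τ : ℝ) (u : ℝ → L2 Ω R3) (x0 : R3) (r c b s : ℝ) (β : ℝ → ℝ) : Prop :=
  0 < r ∧ 0 ≤ c ∧ c < 1 ∧ 0 ≤ b ∧ b < 3 / 4 ∧ s ∈ Ico 0 τ ∧ (∀ t, 0 ≤ β t) ∧
  (∀ t ∈ Ioo s τ, IntervalIntegrable β volume s t) ∧
  Tendsto (fun t => (∫ r in s..t, β r) / Real.log (1 / (τ - t))) (𝓝[<] τ) (𝓝 0) ∧
  ∀ᵐ t ∂(volume.restrict (Ioo s τ)), ∀ x ∈ Ω ∩ Metric.ball x0 r,
    Quiet (Metric.ball x (rad c b ν (τ - t))) ν c (b / (τ - t) + β t) (u t)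

theorem local_contra {Ω : Set R3} (hΩ : IsOpen Ω) (hb : Bornology.IsBounded Ω) {ν τ : ℝ}
    (hν : 0 < ν) (hτ : 0 < τ) {u : ℝ → L2 Ω R3} {G : ℝ → L2 Ω Mat}
    (hG : ∀ᵐ t ∂(volume.restrict (Ioo 0 τ)), (u t, G t) ∈ H1graph Ω)
    (H : ∀ c : ℝ, 0 ≤ c → c < 1 → ∀ s ∈ Ico 0 τ, ∃ M : ℝ, ∀ β : ℝ → ℝ,
        (∀ t, 0 ≤ β t) → (∀ t ∈ Ioo s τ, IntervalIntegrable β volume s t) →
        (∀ᵐ t ∂(volume.restrict (Ioo s τ)), ∀ p ∈ H1graph Ω,
          -stretch (G t) p.1 ≤ c * ν * ‖p.2‖ ^ 2 + β t * ‖p.1‖ ^ 2) →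
        ∀ t0 < τ, ∃ t ∈ Ioo t0 τ, s < t ∧
          3 / 4 * Real.log (1 / (τ - t)) - M ≤ ∫ r in s..t, β r)
    (hyp : ∀ x0 ∈ closure Ω, ∃ (r c b s : ℝ) (β : ℝ → ℝ), LocHyp ν τ u x0 r c b s β) : False := by
  classical
  have hm : MeasurableSet (show Set H772R2.NS.E3 from Ω) :=
    IsOpen.measurableSet (α := H772R2.NS.E3) hΩ
  have hex : ∀ x0 : R3, ∃ (r c b s : ℝ) (β : ℝ → ℝ), x0 ∈ closure Ω → LocHyp ν τ u x0 r c b s β := by
    intro x0
    by_cases h : x0 ∈ closure Ω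
    · obtain ⟨r, c, b, s, β, h1⟩ := hyp x0 h
      exact ⟨r, c, b, s, β, fun _ => h1⟩
    · exact ⟨0, 0, 0, 0, 0, fun h1 => absurd h1 h⟩
  choose r c b σ β hL using hex
  have hK : IsCompact (closure (show Set H772R2.NS.E3 from Ω)) :=
    Bornology.IsBounded.isCompact_closure (α := H772R2.NS.E3) hb
  obtain ⟨S, hS1, hS2⟩ := hK.elim_nhds_subcover
    (fun x : H772R2.NS.E3 => Metric.ball x (r x / 2)) (fun x hx =>
      Metric.ball_mem_nhds x (half_pos (hL x hx).1))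
  have hLS : ∀ i ∈ S, LocHyp ν τ u i (r i) (c i) (b i) (σ i) (β i) := fun i hi => hL i (hS1 i hi)
  obtain ⟨s, hs0, hsτ, hσ⟩ := fin_bound S (fun i => σ i) hτ fun i hi => (hLS i hi).2.2.2.2.2.1.2
  obtain ⟨C, hC0, hC1, hC⟩ := fin_bound S (fun i => (1 + c i) / 2) (m := 0) (A := 1) one_pos
    fun i hi => aux1 (hLS i hi).2.2.1
  obtain ⟨B₀, hB0, hB1, hB⟩ := fin_bound S (fun i => 3 / 8 + b i / 2) (m := 0) (A := 3 / 4)
    (by norm_num) fun i hi => aux2 (hLS i hi).2.2.2.2.1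
  obtain ⟨ζ, z1, z2, ⟨L, hL0, z3⟩, z4⟩ := part_balls (K := closure (show Set H772R2.NS.E3 from Ω))
    S r (fun i hi => (hLS i hi).1) (fun x hx => by
      have h1 := hS2 hx
      simp only [mem_iUnion] at h1
      obtain ⟨i, hi, h2⟩ := h1
      refine ⟨i, hi, ?_⟩
      rw [Metric.mem_ball, dist_eq_norm] at h2
      exact h2.le)
  set C₁ := ∑ i ∈ S, 16 / ((1 - c i) / 2) * ν * L with hC₁
  have hC₁0 : 0 ≤ C₁ := Finset.sum_nonneg fun i hi =>
    mul_nonneg (mul_nonneg (div_nonneg (by norm_num) (aux3 (hLS i hi).2.2.1).le) hν.le) hL0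
  obtain ⟨M, hM⟩ := H C hC0 hC1 s ⟨hs0, hsτ⟩
  refine log_final S hs0 hsτ hB0 hB1 hC₁0 β σ (fun i hi => (hLS i hi).2.2.2.2.2.2.1) hσ
    (fun i hi => (hLS i hi).2.2.2.2.2.2.2.1) (fun i hi => (hLS i hi).2.2.2.2.2.2.2.2.1) (M := M) ?_
  have hβs : ∀ i ∈ S, ∀ t ∈ Ioo s τ, IntervalIntegrable (β i) volume s t := fun i hi t ht => by
    refine ((hLS i hi).2.2.2.2.2.2.2.1 t ⟨(hσ i hi).trans_lt ht.1, ht.2⟩).mono_set ?_
    rw [uIcc_of_le ht.1.le, uIcc_of_le ((hσ i hi).trans ht.1.le)]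
    exact Icc_subset_Icc_left (hσ i hi)
  refine hM (fun t => B₀ / |τ - t| + ∑ i ∈ S, β i t + C₁) ?_ ?_ ?_
  · intro t
    have h1 : 0 ≤ ∑ i ∈ S, β i t := Finset.sum_nonneg fun i hi => (hLS i hi).2.2.2.2.2.2.1 t
    have h2 : 0 ≤ B₀ / |τ - t| := by positivity
    show 0 ≤ B₀ / |τ - t| + ∑ i ∈ S, β i t + C₁
    linarith
  · intro t ht
    have h1 : IntervalIntegrable (fun r => B₀ / |τ - r|) volume s t := by
      refine ContinuousOn.intervalIntegrable ?_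
      rw [uIcc_of_le ht.1.le]
      refine continuousOn_const.div (continuous_const.sub continuous_id).abs.continuousOn
        fun r hr => ?_
      have : 0 < τ - r := by linarith [hr.2, ht.2]
      exact abs_ne_zero.2 this.ne'
    have h2 : IntervalIntegrable (fun r => ∑ i ∈ S, β i r) volume s t := by
      have := IntervalIntegrable.sum S fun i hi => hβs i hi t ht
      refine this.congr (fun r _ => ?_)
      simp
    exact (h1.add h2).add intervalIntegrable_const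
  -- the form inequality
  have a1 : ∀ᵐ t ∂(volume.restrict (Ioo s τ)), ∀ i ∈ S, ∀ x ∈ Ω ∩ Metric.ball i (r i),
      Quiet (Metric.ball x (rad (c i) (b i) ν (τ - t))) ν (c i) (b i / (τ - t) + β i t) (u t) := by
    refine (Filter.eventually_all_finset S).2 fun i hi => ?_
    exact ae_mono (Measure.restrict_mono (Ioo_subset_Ioo_left (hσ i hi)) le_rfl)
      (hLS i hi).2.2.2.2.2.2.2.2.2
  have a2 : ∀ᵐ t ∂(volume.restrict (Ioo s τ)), (u t, G t) ∈ H1graph Ω :=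
    ae_mono (Measure.restrict_mono (Ioo_subset_Ioo_left hs0) le_rfl) hG
  filter_upwards [a1, a2, ae_restrict_mem measurableSet_Ioo] with t b1 b2 htI p hp
  have hδ : 0 < τ - t := by linarith [htI.2]
  rw [stretch_tens hm (G t) hp, abs_of_pos hδ]
  have key := form_fin (Ω := (show Set H772R2.NS.E3 from Ω)) hm S ζ z1
    (fun x hx => z4 x (subset_closure hx)) hν (mem_pub.mpr b2) (fun i => c i)
    (fun i => b i / (τ - t)) (fun i => β i t) (fun i => rad (c i) (b i) ν (τ - t) / 2)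
    (fun i => (1 - c i) / 2) (fun i => Metric.ball (i : H772R2.NS.E3) (r i))
    (fun i hi => (hLS i hi).2.1) (fun i hi => (hLS i hi).2.2.1.le)
    (fun i hi => div_nonneg (hLS i hi).2.2.2.1 hδ.le)
    (fun i hi => (hLS i hi).2.2.2.2.2.2.1 t)
    (fun i hi => half_pos (rad_pos (hLS i hi).2.2.1 (hLS i hi).2.2.2.2.1 hν hδ))
    (fun i hi => aux3 (hLS i hi).2.2.1)
    (fun i hi => aux4 (hLS i hi).2.1)
    z2
    (fun i hi x hx => qt_half (pub_quiet (b1 i hi x hx)))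
    (L := L) (C := C) (B := B₀ / (τ - t)) z3
    (fun i hi => aux5 (hC i hi))
    (fun i hi => by
      refine (rad_rate (hLS i hi).2.2.1 (hLS i hi).2.2.2.2.1 hν hδ).trans ?_
      exact div_le_div_of_nonneg_right (hB i hi) hδ.le)
    (mem_pub.mpr hp)
  exact key

end Pool.Agent.R772.LI
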