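import Pool.Agent.R772.LI8

/-!
The explicit form of the local criterion.
-/

set_option autoImplicit false

open MeasureTheory Set Filter Topology
open scoped InnerProductSpace ENNReal ContDiff

namespace Pool.Agent.R772.LI

section inner

open H772R2.NS Pool.Agent.TH340.FF Pool.Agent.R462.HC

variable {Ω V : Set E3}

theorem form_of_pt (hΩ : MeasurableSet Ω) {z : L2M Ω} {ψ : E3 → E3}
    {W : E3 → ℝ} (hW : FB (Ω ∩ V) W) {a b : ℝ} (ha : 0 ≤ a) (hb : 0 ≤ b)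
    (hpt : ∀ᵐ x ∂(volume.restrict (Ω ∩ V)), ∀ ξ : E3,
      -(⟪z x, tens ξ⟫_ℝ + ⟪fderiv ℝ ψ x ξ, ξ⟫_ℝ) ≤ (a * W x + b) * ‖ξ‖ ^ 2)
    {Φ : E3 → E3} (h1 : ContDiff ℝ ∞ Φ) (h2 : HasCompactSupport Φ) (h3 : tsupport Φ ⊆ Ω ∩ V) :
    -∫ x in Ω, (⟪z x, tens (Φ x)⟫_ℝ + ⟪fderiv ℝ ψ x (Φ x), Φ x⟫_ℝ)
      ≤ a * (∫ x, JJ Φ x) + b * ∫ x, NN Φ x := by
  have hΦ0 : ∀ x ∉ Ω ∩ V, Φ x = 0 := fun x hx =>
    image_eq_zero_of_notMem_tsupport fun hc => hx (h3 hc)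
  have e1 : ∫ x in Ω, -(⟪z x, tens (Φ x)⟫_ℝ + ⟪fderiv ℝ ψ x (Φ x), Φ x⟫_ℝ)
      = ∫ x in Ω ∩ V, -(⟪z x, tens (Φ x)⟫_ℝ + ⟪fderiv ℝ ψ x (Φ x), Φ x⟫_ℝ) := by
    refine setIntegral_eq_of_subset_of_forall_sdiff_eq_zero hΩ inter_subset_left fun x hx => ?_
    have h0 : tens (0 : E3) = 0 := by
      refine PiLp.ext fun r => ?_
      simp [tens_apply]
    rw [hΦ0 x hx.2, h0]
    simp
  have e2 := int_le' hW h1 h2 h3 (f := fun x => -(⟪z x, tens (Φ x)⟫_ℝ + ⟪fderiv ℝ ψ x (Φ x), Φ x⟫_ℝ))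
    (J := fun _ => 0) continuous_const (integrable_zero _ _ _) (fun _ => le_rfl) le_rfl ha hb (by
      filter_upwards [hpt] with x hx
      rw [mul_zero, zero_add, NN_eq]
      exact hx (Φ x))
  rw [← integral_neg, e1]
  simpa using e2

end inner

open H772R2.NS.Pub Pool.Agent.W795.TQ Pool.Agent.R462.HC
open Pool.Agent.W795.ES (stretch outer)

theorem int_JJ_pub (φ : R3 → R3) : ∫ x, JJ φ x = ∫ x, ‖H772R2.NS.Pub.jac φ x‖ ^ 2 := by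
  refine integral_congr_ae (Eventually.of_forall fun x => ?_)
  show JJ φ x = ‖H772R2.NS.Pub.jac φ x‖ ^ 2
  rw [JJ_eq]
  have : (H772R2.NS.Pub.jac φ x : H772R2.NS.M3) = H772R2.NS.jac φ x := jac_eq φ x
  exact congrArg (fun m : H772R2.NS.M3 => ‖m‖ ^ 2) this.symm

theorem int_NN_pub (φ : R3 → R3) : ∫ x, NN φ x = ∫ x, ‖φ x‖ ^ 2 :=
  integral_congr_ae (Eventually.of_forall fun x => NN_eq φ x)

theorem pub_form_of_pt {Ω V : Set R3} (hΩ : IsOpen Ω) {z : L2 Ω Mat} {ψ : R3 → R3}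
    {W : R3 → ℝ} (hW : FormBdd (Ω ∩ V) W) {a b : ℝ} (ha : 0 ≤ a) (hb : 0 ≤ b)
    (hpt : ∀ᵐ x ∂(volume.restrict (Ω ∩ V)), ∀ ξ : R3,
      -(⟪z.fn x, outer ξ⟫_ℝ + ⟪fderiv ℝ ψ x ξ, ξ⟫_ℝ) ≤ (a * W x + b) * ‖ξ‖ ^ 2)
    (φ : R3 → R3) (h1 : ContDiff ℝ ∞ φ) (h2 : HasCompactSupport φ) (h3 : tsupport φ ⊆ Ω ∩ V) :
    -∫ x in Ω, (⟪z.fn x, outer (φ x)⟫_ℝ + ⟪fderiv ℝ ψ x (φ x), φ x⟫_ℝ)
      ≤ a * (∫ x, ‖jac φ x‖ ^ 2) + b * ∫ x, ‖φ x‖ ^ 2 := by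
  have hm : MeasurableSet (show Set H772R2.NS.E3 from Ω) :=
    IsOpen.measurableSet (α := H772R2.NS.E3) hΩ
  have hpt' : ∀ᵐ x ∂((volume : Measure H772R2.NS.E3).restrict (show Set H772R2.NS.E3 from Ω ∩ V)),
    ∀ ξ : H772R2.NS.E3,
      -(⟪((show H772R2.NS.L2M (show Set H772R2.NS.E3 from Ω) from z) x : H772R2.NS.M3),
          (outer (show R3 from ξ) : H772R2.NS.M3)⟫_ℝ
        + ⟪fderiv ℝ (show H772R2.NS.E3 → H772R2.NS.E3 from ψ) x ξ, ξ⟫_ℝ)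
        ≤ (a * W x + b) * ‖ξ‖ ^ 2 := hpt
  have key := form_of_pt (Ω := (show Set H772R2.NS.E3 from Ω))
    (V := (show Set H772R2.NS.E3 from V)) hm (z := z) (ψ := ψ) (FB.of_pub hW) ha hb (by
      filter_upwards [hpt'] with x hx ξ
      have := hx ξ
      rw [outer_tens] at this
      exact this) (Φ := φ) h1 h2 h3
  rw [int_JJ_pub, int_NN_pub] at key
  refine le_trans (le_of_eq ?_) key
  congr 1
  refine integral_congr_ae (Eventually.of_forall fun x => ?_)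
  have := outer_tens (φ x)
  exact congrArg₂ (· + ·) (congrArg (fun m : H772R2.NS.M3 => ⟪(z.fn x : H772R2.NS.M3), m⟫_ℝ)
    this) rfl

theorem quiet_strain {Ω V : Set R3} (hΩ : IsOpen Ω) {ν κ B l c β : ℝ} (hν : 0 < ν) (hκ : 0 ≤ κ)
    (hB : 0 ≤ B) (hl : 0 < l) (hc : 4 * κ + l / 2 ≤ c) (hβ : B ≤ β) {U : L2 Ω R3} {G : L2 Ω Mat}
    (hU : (U, G) ∈ H1graph Ω) (hs : SlowStrainIn V (κ * ν) B G) : Quiet V ν c β U := by
  obtain ⟨y, hy⟩ := hs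
  refine ⟨U, G, 0, fun x => (4 * ‖x - y‖ ^ 2)⁻¹, 4 * κ, 0, l, B, 0,
    hU, contDiff_const, hardy_formBdd (Ω ∩ V) y, by positivity, hl, hB, le_rfl,
    by simpa using hc, by simpa using hβ, ?_, ?_⟩
  · refine pub_form_of_pt hΩ (hardy_formBdd (Ω ∩ V) y) (by positivity) hB ?_
    filter_upwards [hy] with x hx ξ
    have h1 := hx ξ
    have h2 : fderiv ℝ (0 : R3 → R3) x ξ = 0 := by simp
    rw [h2, inner_zero_left, add_zero]
    have h3 : 4 * κ * ν * (4 * ‖x - y‖ ^ 2)⁻¹ = κ * ν / ‖x - y‖ ^ 2 := by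
      rw [mul_inv]
      ring
    rw [h3]
    linarith
  · refine Eventually.of_forall fun x => ?_
    simp

theorem quiet_velocity {Ω V : Set R3} (hΩ : IsOpen Ω) {ν k B μ c β : ℝ} (hν : 0 < ν) (hk : 0 ≤ k)
    (_hB : 0 ≤ B) (hμ : 0 < μ) (hc : 2 * k + μ ≤ c) (hβ : B ^ 2 / (4 * μ * ν) ≤ β) {U : L2 Ω R3}
    (hs : SlowVelocityIn V (k * ν) B U) : Quiet V ν c β U := by
  obtain ⟨y, a, A, hA, hy⟩ := hs
  have hl : 0 < 2 * k + 2 * μ := by positivity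
  have hz : ∀ᵐ x ∂(volume.restrict (Ω ∩ V)), (0 : L2 Ω Mat).fn x = 0 :=
    ae_mono (Measure.restrict_mono inter_subset_left le_rfl) (zero_fn Ω Mat)
  have hz3 : ∀ᵐ x ∂(volume.restrict (Ω ∩ V)), (0 : L2 Ω R3).fn x = 0 :=
    ae_mono (Measure.restrict_mono inter_subset_left le_rfl) (zero_fn Ω R3)
  refine ⟨0, 0, fun x => a + A x, fun x => (4 * ‖x - y‖ ^ 2)⁻¹, 0,
    Real.sqrt (2 * k * (2 * k + 2 * μ)), 2 * k + 2 * μ, 0, B ^ 2 / (4 * μ * ν),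
    zero_mem_graph Ω, contDiff_const.add A.contDiff, hardy_formBdd (Ω ∩ V) y,
    le_rfl, hl, le_rfl, by positivity, ?_, by simpa using hβ, ?_, ?_⟩
  · rw [Real.sq_sqrt (by positivity)]
    refine le_trans (le_of_eq ?_) hc
    field_simp
    ring
  · rw [show (0 : ℝ) * ν = 0 by ring]
    refine pub_form_of_pt hΩ (hardy_formBdd (Ω ∩ V) y) le_rfl le_rfl ?_
    filter_upwards [hz] with x hx ξ
    rw [hx, inner_zero_left]
    have h2 : fderiv ℝ (fun x => a + A x) x = A := by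
      rw [fderiv_const_add]
      exact A.fderiv
    rw [h2, hA]
    simp
  · filter_upwards [hy, hz3] with x hx h0
    rw [h0, sub_zero, Real.sq_sqrt (by positivity)]
    have h1 : ‖U.fn x - (a + A x)‖ ^ 2 ≤ (k * ν / ‖x - y‖ + B) ^ 2 := by gcongr
    refine h1.trans ?_
    have h2 := young_pt (a := ν / ‖x - y‖) (B := B) hk hμ
    have e1 : k * ν / ‖x - y‖ = k * (ν / ‖x - y‖) := by ring
    rw [e1]
    refine h2.trans (le_of_eq ?_)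
    have e2 : 2 * (2 * k + 2 * μ) * ν * (B ^ 2 / (4 * μ * ν)) = (k + μ) / μ * B ^ 2 := by
      field_simp
      ring
    rw [e2, mul_inv, div_pow, div_eq_mul_inv (ν ^ 2)]
    ring

theorem SlowStrainIn.mono {Ω V V' : Set R3} (h : V' ⊆ V) {κ B : ℝ} {G : L2 Ω Mat}
    (hs : SlowStrainIn V κ B G) : SlowStrainIn V' κ B G := by
  obtain ⟨y, hy⟩ := hs
  exact ⟨y, ae_mono (Measure.restrict_mono (inter_subset_inter_right Ω h) le_rfl) hy⟩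

theorem SlowVelocityIn.mono {Ω V V' : Set R3} (h : V' ⊆ V) {κ B : ℝ} {u : L2 Ω R3}
    (hs : SlowVelocityIn V κ B u) : SlowVelocityIn V' κ B u := by
  obtain ⟨y, a, A, hA, hy⟩ := hs
  exact ⟨y, a, A, hA, ae_mono (Measure.restrict_mono (inter_subset_inter_right Ω h) le_rfl) hy⟩

theorem rad_le {m ν δ : ℝ} (hm : 0 < m) (hν : 0 < ν) (hδ : 0 < δ) :
    rad (1 - m / 2) (3 / 4 - 3 / 8 * m) ν δ ≤ 3 * K0 * Real.sqrt (ν * δ) / m := by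
  have hK := K0_pos
  unfold rad
  have e1 : ν * δ / ((1 - (1 - m / 2)) * (3 / 4 - (3 / 4 - 3 / 8 * m)))
      = 16 / 3 * (ν * δ) / m ^ 2 := by
    have e0 : (1 - (1 - m / 2)) * (3 / 4 - (3 / 4 - 3 / 8 * m)) = 3 / 16 * m ^ 2 := by ring
    rw [e0]
    field_simp
  rw [e1]
  have h1 : Real.sqrt (16 / 3 * (ν * δ) / m ^ 2) ≤ 3 * Real.sqrt (ν * δ) / m := by
    refine Real.sqrt_le_iff.2 ⟨by positivity, ?_⟩
    rw [div_pow, mul_pow, Real.sq_sqrt (by positivity)]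
    refine div_le_div_of_nonneg_right ?_ (by positivity)
    have : 0 < ν * δ := by positivity
    linarith
  calc K0 * Real.sqrt (16 / 3 * (ν * δ) / m ^ 2) ≤ K0 * (3 * Real.sqrt (ν * δ) / m) := by gcongr
    _ = 3 * K0 * Real.sqrt (ν * δ) / m := by ring

theorem explicit_quiet {Ω : Set R3} (hΩ : IsOpen Ω) {ν κ b k K m δ : ℝ} (hν : 0 < ν) (hδ : 0 < δ)
    (hκ : 0 ≤ κ) (hb : 0 ≤ b) (hk : 0 ≤ k) (hK : 0 ≤ K) (hm : 0 < m) (h1 : 4 * κ + m ≤ 1)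
    (h2 : b + m ≤ 3 / 4) (h3 : K ^ 2 ≤ 3 * (1 - 2 * k - m)) {U : L2 Ω R3} {G : L2 Ω Mat}
    (hU : (U, G) ∈ H1graph Ω) {x : R3}
    (hs : SlowStrainIn (Metric.ball x (3 * K0 * Real.sqrt (ν * δ) / m)) (κ * ν) (b / δ) G ∨
      SlowVelocityIn (Metric.ball x (3 * K0 * Real.sqrt (ν * δ) / m)) (k * ν)
        (K * Real.sqrt (ν / δ)) U) :
    Quiet (Metric.ball x (rad (1 - m / 2) (3 / 4 - 3 / 8 * m) ν δ)) ν (1 - m / 2)
      ((3 / 4 - 3 / 8 * m) / δ) U := by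
  have hsub := Metric.ball_subset_ball (x := x) (rad_le hm hν hδ)
  rcases hs with hs | hs
  · refine quiet_strain (l := m) hΩ hν hκ (div_nonneg hb hδ.le) hm (by linarith) ?_ hU (hs.mono hsub)
    exact div_le_div_of_nonneg_right (by linarith) hδ.le
  · have hμ : 0 < 1 - 2 * k - m / 2 := by nlinarith [sq_nonneg K]
    refine quiet_velocity (μ := 1 - 2 * k - m / 2) hΩ hν hk (by positivity) hμ (by linarith) ?_
      (hs.mono hsub)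
    rw [mul_pow, Real.sq_sqrt (by positivity)]
    have e1 : K ^ 2 * (ν / δ) / (4 * (1 - 2 * k - m / 2) * ν)
        = K ^ 2 / (4 * (1 - 2 * k - m / 2)) / δ := by
      field_simp
    rw [e1]
    refine div_le_div_of_nonneg_right ?_ hδ.le
    rw [div_le_iff₀ (by positivity)]
    nlinarith [mul_nonneg hm.le hk, mul_pos hm hm]

end Pool.Agent.R772.LI
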