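import Pool.Agent.R772.EE1

/-!
The Lamb vector: the convective term for divergence free fields.
-/

set_option autoImplicit false

open MeasureTheory Set Filter Topology
open scoped InnerProductSpace ContDiff ENNReal

namespace Pool.Agent.R772.LV

open H772R2.NS Pool.Agent.TH340.FF Pool.Agent.R772.LI

variable {Ω : Set E3}

/-- the Lamb vector `ω × v`, for a field with the gradient `A` -/
noncomputable def lam (A : M3) (v : E3) : E3 :=
  WithLp.toLp 2 fun i => ∑ j, (A (i, j) - A (j, i)) * v j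

theorem lam_apply (A : M3) (v : E3) (i : Fin 3) :
    lam A v i = ∑ j, (A (i, j) - A (j, i)) * v j := rfl

/-- the matrix `w_i v_j - v_i w_j` -/
noncomputable def wdg0 : E3 →ₗ[ℝ] E3 →ₗ[ℝ] M3 :=
  LinearMap.mk₂ ℝ (fun v w : E3 => (WithLp.toLp 2 fun r : Fin 3 × Fin 3 =>
      w r.1 * v r.2 - v r.1 * w r.2 : M3))
    (fun a b w => PiLp.ext fun r => by
      simp only [PiLp.add_apply]
      ring)
    (fun c a w => PiLp.ext fun r => by
      simp only [PiLp.smul_apply, smul_eq_mul]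
      ring)
    (fun a b w => PiLp.ext fun r => by
      simp only [PiLp.add_apply]
      ring)
    (fun c a w => PiLp.ext fun r => by
      simp only [PiLp.smul_apply, smul_eq_mul]
      ring)

noncomputable def wdg : E3 →L[ℝ] E3 →L[ℝ] M3 :=
  LinearMap.toContinuousLinearMap
    ((LinearMap.toContinuousLinearMap : (E3 →ₗ[ℝ] M3) ≃ₗ[ℝ] (E3 →L[ℝ] M3)).toLinearMap ∘ₗ wdg0)

theorem wdg_apply (v w : E3) (i j : Fin 3) : wdg v w (i, j) = w i * v j - v i * w j := rfl

theorem inner_wdg (v w : E3) (A : M3) : ⟪wdg v w, A⟫_ℝ = ⟪lam A v, w⟫_ℝ := by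
  rw [inner_M3, inner_E3]
  simp only [wdg_apply, lam_apply, Fin.sum_univ_three]
  ring

/-- `∫ φ·∇|ψ|² = 0` -/
theorem test_cross {φ ψ : E3 → E3} (h : IsTest Ω φ) (hψ : ContDiff ℝ ∞ ψ)
    (hψc : HasCompactSupport ψ) :
    ∫ x, ∑ i, ∑ j, ψ x i * φ x j * jac ψ x (i, j) = 0 := by
  let g : E3 → ℝ := fun x => ∑ i, ψ x i ^ 2
  have hg : ContDiff ℝ ∞ g := ContDiff.sum (fun i _ => (contDiff_coord hψ i).pow 2)
  have hgc : HasCompactSupport g := by
    refine hψc.mono (fun x hx => ?_)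
    intro h0
    apply hx
    simp [g, h0]
  have hgd : ∀ x j, fderiv ℝ g x (ev j) = ∑ i, 2 * ψ x i * jac ψ x (i, j) := by
    intro x j
    have h1 : ∀ i ∈ Finset.univ, DifferentiableAt ℝ (fun x => ψ x i ^ 2) x := fun i _ =>
      (((contDiff_coord hψ i).pow 2).differentiable (by simp)) x
    have h2 : fderiv ℝ g x = ∑ i, fderiv ℝ (fun x => ψ x i ^ 2) x := by
      have : g = fun x => ∑ i, ψ x i ^ 2 := rfl
      rw [this, fderiv_fun_sum h1]
    rw [h2, sum_apply]
    refine Finset.sum_congr rfl (fun i _ => ?_)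
    have h3 : DifferentiableAt ℝ (fun x => ψ x i) x :=
      ((contDiff_coord hψ i).differentiable (by simp)) x
    rw [fderiv_fun_pow 2 h3]
    simp only [smul_apply, smul_eq_mul]
    rw [fderiv_coord hψ, jac_apply]
    simp
  have hcont : ∀ j, Continuous (fun x => fderiv ℝ g x (ev j)) := fun j =>
    (hg.continuous_fderiv (by simp)).clm_apply continuous_const
  have hcontφ : ∀ j, Continuous (fun x => fderiv ℝ (fun y => φ y j) x (ev j)) := fun j =>
    ((contDiff_coord h.smooth j).continuous_fderiv (by simp)).clm_apply continuous_const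
  have hφc : ∀ j, Continuous (fun x => φ x j) := fun j => (contDiff_coord h.smooth j).continuous
  have hibp : ∀ j, ∫ x, φ x j * fderiv ℝ g x (ev j)
      = - ∫ x, fderiv ℝ (fun y => φ y j) x (ev j) * g x := by
    intro j
    apply integral_mul_fderiv_eq_neg_fderiv_mul_of_integrable
    · exact ((hcontφ j).mul hg.continuous).integrable_of_hasCompactSupport (hgc.mul_left)
    · exact ((hφc j).mul (hcont j)).integrable_of_hasCompactSupport
        ((hasCompactSupport_coord h.compact j).mul_right)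
    · exact ((hφc j).mul hg.continuous).integrable_of_hasCompactSupport (hgc.mul_left)
    · intro x _
      exact ((contDiff_coord h.smooth j).differentiable (by simp)) x
    · intro x _
      exact (hg.differentiable (by simp)) x
  have hpt : ∀ x, ∑ i, ∑ j, ψ x i * φ x j * jac ψ x (i, j)
      = (1 / 2) * ∑ j, φ x j * fderiv ℝ g x (ev j) := by
    intro x
    simp only [hgd, Finset.mul_sum]
    rw [Finset.sum_comm]
    refine Finset.sum_congr rfl (fun j _ => Finset.sum_congr rfl (fun i _ => ?_))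
    ring
  have hint1 : ∀ j ∈ Finset.univ, Integrable (fun x => φ x j * fderiv ℝ g x (ev j)) := fun j _ =>
    ((hφc j).mul (hcont j)).integrable_of_hasCompactSupport
        ((hasCompactSupport_coord h.compact j).mul_right)
  have hint2 : ∀ j ∈ Finset.univ, Integrable (fun x => fderiv ℝ (fun y => φ y j) x (ev j) * g x) :=
    fun j _ => ((hcontφ j).mul hg.continuous).integrable_of_hasCompactSupport (hgc.mul_left)
  simp_rw [hpt]
  rw [integral_const_mul, integral_finsetSum _ hint1]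
  simp_rw [hibp]
  rw [Finset.sum_neg_distrib, ← integral_finsetSum _ hint2]
  have hz : ∀ x, ∑ j, fderiv ℝ (fun y => φ y j) x (ev j) * g x = 0 := by
    intro x
    rw [← Finset.sum_mul]
    have : ∑ j, fderiv ℝ (fun y => φ y j) x (ev j) = 0 := by
      simp_rw [fderiv_coord h.smooth]
      exact h.divfree x
    rw [this, zero_mul]
  simp [hz]

/-- the test field as an element of `L^∞` -/
noncomputable def tb {φ : E3 → E3} (h : IsTest Ω φ) : Lp E3 ∞ (volume.restrict Ω) :=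
  ((h.memLp ∞).restrict Ω).toLp φ

theorem tb_coe {φ : E3 → E3} (h : IsTest Ω φ) : tb h =ᵐ[volume.restrict Ω] φ :=
  ((h.memLp ∞).restrict Ω).coeFn_toLp

/-- the operator `v ↦ (φ_i v_j - v_i φ_j)` -/
noncomputable def opr {φ : E3 → E3} (h : IsTest Ω φ) (v : L2V Ω) : L2M Ω :=
  wdg.holder 2 v (tb h)

theorem opr_coe {φ : E3 → E3} (h : IsTest Ω φ) (v : L2V Ω) :
    opr h v =ᵐ[volume.restrict Ω] fun x => wdg (v x) (φ x) := by
  unfold opr
  filter_upwards [wdg.coeFn_holder (r := 2) v (tb h), tb_coe h] with x a b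
  rw [a, b]

theorem opr_cont {φ : E3 → E3} (h : IsTest Ω φ) : Continuous (opr h) := by
  have h1 : Continuous fun v : L2V Ω =>
      wdg.holderL (volume.restrict Ω) 2 ∞ 2 v (tb h) := by fun_prop
  exact h1

theorem opr_inner {φ : E3 → E3} (h : IsTest Ω φ) (v : L2V Ω) (z : L2M Ω) :
    ⟪opr h v, z⟫_ℝ = ∫ x in Ω, ⟪lam (z x) (v x), φ x⟫_ℝ := by
  rw [L2.inner_def]
  refine integral_congr_ae ?_
  filter_upwards [opr_coe h v] with x a
  rw [a, inner_wdg]

theorem lam_int {φ : E3 → E3} (h : IsTest Ω φ) (v : L2V Ω) (z : L2M Ω) :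
    Integrable (fun x => ⟪lam (z x) (v x), φ x⟫_ℝ) (volume.restrict Ω) := by
  refine (L2.integrable_inner (𝕜 := ℝ) (opr h v) z).congr ?_
  filter_upwards [opr_coe h v] with x a
  rw [a, inner_wdg]

/-- **The convective term for a divergence free field is the Lamb vector.** -/
theorem lamb_id (hΩ : MeasurableSet Ω) {φ : E3 → E3} (h : IsTest Ω φ) {q : L2V Ω × L2M Ω}
    (hq2 : q.2 =ᵐ[volume.restrict Ω] jac φ) {p : L2V Ω × L2M Ω} (hp : p ∈ graphW Ω) :
    ⟪tensL p.1, q.2⟫_ℝ = -∫ x in Ω, ⟪lam (p.2 x) (p.1 x), φ x⟫_ℝ := by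
  have hc : ContinuousOn (fun p : L2V Ω × L2M Ω => ⟪tensL p.1, q.2⟫_ℝ + ⟪opr h p.1, p.2⟫_ℝ)
      (graphW Ω : Set (L2V Ω × L2M Ω)) := by
    have h1 : ContinuousOn (fun p : L2V Ω × L2M Ω => ⟪tensL p.1, q.2⟫_ℝ)
        (graphW Ω : Set (L2V Ω × L2M Ω)) := (tensL_continuousOn hΩ).inner continuousOn_const
    have h2 : Continuous (fun p : L2V Ω × L2M Ω => ⟪opr h p.1, p.2⟫_ℝ) :=
      ((opr_cont h).comp continuous_fst).inner continuous_snd
    exact h1.add h2.continuousOn
  have key := graphW_induction (Ω := Ω)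
    (fun p => ⟪tensL p.1, q.2⟫_ℝ + ⟪opr h p.1, p.2⟫_ℝ) hc (fun r hr => ?_) hp
  · have key' : ⟪tensL p.1, q.2⟫_ℝ + ⟪opr h p.1, p.2⟫_ℝ = 0 := key
    rw [← opr_inner h]
    linarith
  have hrW : r ∈ graphW Ω := preW_le hr
  obtain ⟨ψ, h1, h2, h3⟩ := hr
  have e1 : ⟪tensL r.1, q.2⟫_ℝ = ∫ x, ∑ i, ∑ j, ψ x i * ψ x j * jac φ x (i, j) := by
    rw [L2.inner_def]
    refine Eq.trans ?_ (setIntegral_eq_integral_of_forall_compl_eq_zero (s := Ω) fun x hx => ?_)
    · refine integral_congr_ae ?_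
      filter_upwards [tensL_coe hΩ hrW, h2, hq2] with x a b c
      rw [a, b, c, inner_M3]
      rfl
    · have : ψ x = 0 := image_eq_zero_of_notMem_tsupport fun hc => hx (h1.supp hc)
      rw [this]
      simp
  have e2 : ⟪opr h r.1, r.2⟫_ℝ
      = ∫ x, ((∑ i, φ x i * f1 ψ x i) - ∑ i, ∑ j, ψ x i * φ x j * jac ψ x (i, j)) := by
    rw [L2.inner_def]
    refine Eq.trans ?_ (setIntegral_eq_integral_of_forall_compl_eq_zero (s := Ω) fun x hx => ?_)
    · refine integral_congr_ae ?_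
      filter_upwards [opr_coe h r.1, h2, h3] with x a b c
      rw [a, b, c, inner_M3]
      simp only [wdg_apply, f1, Fin.sum_univ_three]
      ring
    · have : ψ x = 0 := image_eq_zero_of_notMem_tsupport fun hc => hx (h1.supp hc)
      simp [this, f1]
  have hj : ∀ i j, Continuous fun x => jac ψ x (i, j) := fun i j => cont_jac_coord h1.smooth i j
  have hψ : ∀ i, Continuous fun x => ψ x i := fun i => (contDiff_coord h1.smooth i).continuous
  have hφ : ∀ i, Continuous fun x => φ x i := fun i => (contDiff_coord h.smooth i).continuous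
  have i1 : Integrable fun x => ∑ i, φ x i * f1 ψ x i := by
    refine Continuous.integrable_of_hasCompactSupport ?_ ?_
    · refine continuous_finsetSum _ fun i _ => (hφ i).mul ?_
      show Continuous fun x => ∑ j, ψ x j * jac ψ x (i, j)
      exact continuous_finsetSum _ fun j _ => (hψ j).mul (hj i j)
    · refine h1.compact.mono fun x hx h0 => hx ?_
      simp [f1, h0]
  have i2 : Integrable fun x => ∑ i, ∑ j, ψ x i * φ x j * jac ψ x (i, j) := by
    refine Continuous.integrable_of_hasCompactSupport ?_ ?_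
    · exact continuous_finsetSum _ fun i _ => continuous_finsetSum _ fun j _ =>
        ((hψ i).mul (hφ j)).mul (hj i j)
    · refine h1.compact.mono fun x hx h0 => hx ?_
      simp [h0]
  show ⟪tensL r.1, q.2⟫_ℝ + ⟪opr h r.1, r.2⟫_ℝ = 0
  rw [e1, e2, integral_sub i1 i2, test_cross h h1.smooth h1.compact, smooth_test h1 h.smooth]
  ring

/-- the size of the Lamb vector -/
theorem norm_lam_sq (A : M3) (v : E3) : ‖lam A v‖ ^ 2 ≤ 2 * ‖A‖ ^ 2 * ‖v‖ ^ 2 := by
  have h1 : ‖lam A v‖ ^ 2 ≤ ((A (2, 1) - A (1, 2)) ^ 2 + (A (0, 2) - A (2, 0)) ^ 2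
      + (A (1, 0) - A (0, 1)) ^ 2) * ‖v‖ ^ 2 := by
    rw [norm_sq_E3, norm_sq_E3]
    simp only [lam_apply, Fin.sum_univ_three]
    have : 0 ≤ ((A (2, 1) - A (1, 2)) * v 0 + (A (0, 2) - A (2, 0)) * v 1
      + (A (1, 0) - A (0, 1)) * v 2) ^ 2 := sq_nonneg _
    nlinarith [this]
  have h2 : (A (2, 1) - A (1, 2)) ^ 2 + (A (0, 2) - A (2, 0)) ^ 2
      + (A (1, 0) - A (0, 1)) ^ 2 ≤ 2 * ‖A‖ ^ 2 := by
    rw [norm_sq_M3]
    simp only [Fin.sum_univ_three]
    nlinarith [sq_nonneg (A (2, 1) + A (1, 2)), sq_nonneg (A (0, 2) + A (2, 0)),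
      sq_nonneg (A (1, 0) + A (0, 1)), sq_nonneg (A (0, 0)), sq_nonneg (A (1, 1)),
      sq_nonneg (A (2, 2))]
  calc ‖lam A v‖ ^ 2 ≤ _ := h1
    _ ≤ 2 * ‖A‖ ^ 2 * ‖v‖ ^ 2 := mul_le_mul_of_nonneg_right h2 (sq_nonneg _)

end Pool.Agent.R772.LV
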