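import Pool.Agent.R772.LV1

/-!
The Lamb vector: the averaged form bound.
-/

set_option autoImplicit false

open MeasureTheory Set Filter Topology
open scoped InnerProductSpace ContDiff ENNReal

namespace Pool.Agent.R772.LV

open H772R2.NS Pool.Agent.TH340.FF Pool.Agent.R462.HC Pool.Agent.R772.LI

variable {Ω : Set E3}

/-- the local bound of the Lamb vector -/
def Lb (Ω V : Set E3) (κ β : ℝ) (h g : E3 → ℝ) (L : E3 → E3) : Prop :=
  ∃ W : E3 → ℝ, FB (Ω ∩ V) W ∧
    ∀ᵐ x ∂(volume.restrict (Ω ∩ V)), ‖L x‖ ≤ √(κ * W x + β) * h x + g x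

/-- the density -/
noncomputable def qq (h g : E3 → ℝ) (L : E3 → E3) (φ : E3 → E3) (x : E3) : ℝ :=
  ⟪L x, φ x⟫_ℝ + 1 / 2 * h x ^ 2 + g x * ‖φ x‖

theorem qq_int {h g : E3 → ℝ} (hh : Integrable (fun x => h x ^ 2) (volume.restrict Ω))
    (hg : MemLp g 2 (volume.restrict Ω)) {L : E3 → E3} {φ : E3 → E3}
    (hφ : IsTest Ω φ) (hL : Integrable (fun x => ⟪L x, φ x⟫_ℝ) (volume.restrict Ω)) :
    Integrable (qq h g L φ) (volume.restrict Ω) := by
  have h1 : Integrable (fun x => g x * ‖φ x‖) (volume.restrict Ω) :=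
    hg.integrable_mul ((hφ.memLp 2).restrict Ω).norm
  exact (hL.add (hh.const_mul _)).add h1

theorem qq_integral {h g : E3 → ℝ} (hh : Integrable (fun x => h x ^ 2) (volume.restrict Ω))
    (hg : MemLp g 2 (volume.restrict Ω)) {L : E3 → E3} {φ : E3 → E3}
    (hφ : IsTest Ω φ) (hL : Integrable (fun x => ⟪L x, φ x⟫_ℝ) (volume.restrict Ω)) :
    ∫ x in Ω, qq h g L φ x
      = (∫ x in Ω, ⟪L x, φ x⟫_ℝ) + 1 / 2 * (∫ x in Ω, h x ^ 2)
        + ∫ x in Ω, g x * ‖φ x‖ := by
  have h1 : Integrable (fun x => g x * ‖φ x‖) (volume.restrict Ω) :=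
    hg.integrable_mul ((hφ.memLp 2).restrict Ω).norm
  have h2 : Integrable (fun x => 1 / 2 * h x ^ 2) (volume.restrict Ω) := hh.const_mul _
  have h4 : Integrable (fun x => ⟪L x, φ x⟫_ℝ + 1 / 2 * h x ^ 2)
    (volume.restrict Ω) := hL.add h2
  unfold qq
  rw [integral_add h4 h1, integral_add hL h2, integral_const_mul]

theorem young2 (s h n g l p : ℝ) (hn : 0 ≤ n) (hs : l ≤ s * h + g) (hp : -p ≤ l * n) :
    -(p + 1 / 2 * h ^ 2 + g * n) ≤ 1 / 2 * (s ^ 2 * n ^ 2) := by
  have h1 : l * n ≤ (s * h + g) * n := mul_le_mul_of_nonneg_right hs hn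
  nlinarith [sq_nonneg (s * n - h)]

/-- the inequality for one translate -/
theorem lamb_tr (hΩ : MeasurableSet Ω) {κ β ρ : ℝ} (hκ : 0 ≤ κ) (hβ : 0 ≤ β) (hρ : 0 < ρ)
    {h g : E3 → ℝ} {L : E3 → E3} {x₀ y : E3}
    (hQ : Lb Ω (Metric.ball x₀ (2 * ρ)) κ β h g L) (hxy : ‖y - x₀‖ < ρ)
    {φ : E3 → E3} (hφ : IsTest Ω φ) :
    -∫ x in Ω, qq h g L φ x * h0 ρ (y - x)
      ≤ κ * (∫ x, h0 ρ (y - x) * JJ φ x) + β / 2 * (∫ x, h0 ρ (y - x) * NN φ x)
        + κ * ∫ x, h1 ρ (y - x) * NN φ x := by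
  obtain ⟨W, hW, hL⟩ := hQ
  set V := Metric.ball x₀ (2 * ρ) with hV
  set χ : E3 → ℝ := fun x => bs ρ (y - x) with hχ
  have hχs : ContDiff ℝ ∞ χ := bs_sub_smooth ρ y
  have hχ0 : ∀ x ∉ V, χ x = 0 := by
    intro x hx
    refine bs_zero hρ ?_
    by_contra hcon
    apply hx
    rw [hV, Metric.mem_ball]
    rw [not_le] at hcon
    calc dist x x₀ ≤ dist x y + dist y x₀ := dist_triangle _ _ _
      _ < ρ + ρ := by
        rw [dist_comm x y, dist_eq_norm y x, dist_eq_norm y x₀]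
        linarith
      _ = 2 * ρ := by ring
  have hsup : tsupport χ ⊆ V := by
    have h1 : tsupport χ ⊆ Metric.closedBall y ρ := by
      refine closure_minimal (fun x hx => ?_) Metric.isClosed_closedBall
      by_contra hcon
      apply hx
      rw [Metric.mem_closedBall, not_le, dist_comm, dist_eq_norm] at hcon
      exact bs_zero hρ hcon.le
    refine h1.trans fun x hx => ?_
    rw [Metric.mem_closedBall] at hx
    rw [hV, Metric.mem_ball]
    calc dist x x₀ ≤ dist x y + dist y x₀ := dist_triangle _ _ _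
      _ < ρ + ρ := by
        rw [dist_eq_norm y x₀]
        linarith
      _ = 2 * ρ := by ring
  set Φ : E3 → E3 := fun x => χ x • φ x with hΦ
  have s1 : ContDiff ℝ ∞ Φ := hχs.smul hφ.smooth
  have s2 : HasCompactSupport Φ := HasCompactSupport.smul_left (f := χ) (f' := φ) hφ.compact
  have s3 : tsupport Φ ⊆ Ω ∩ V := by
    refine subset_inter ?_ ?_
    · exact (tsupport_smul_subset_right χ φ).trans hφ.supp
    · exact (tsupport_smul_subset_left χ φ).trans hsup
  have key := int_le' hW s1 s2 s3 (f := fun x => -(qq h g L φ x * h0 ρ (y - x)))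
    (J := fun _ => 0) continuous_const (integrable_zero _ _ _) (fun _ => le_rfl) (A := 0) le_rfl
    (κ := κ / 2) (β := β / 2) (by positivity) (by positivity) (by
      filter_upwards [hL] with x hx
      have hw := hW.nonneg x
      have e0 : h0 ρ (y - x) = χ x ^ 2 := rfl
      have e1 : NN Φ x = χ x ^ 2 * ‖φ x‖ ^ 2 := by
        rw [hΦ, NN_mul, NN_eq]
      have hs : √(κ * W x + β) ^ 2 = κ * W x + β := Real.sq_sqrt (by positivity)
      have h2 : -⟪L x, φ x⟫_ℝ ≤ ‖L x‖ * ‖φ x‖ :=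
        (neg_le_abs _).trans (abs_real_inner_le_norm _ _)
      have h3 := young2 (√(κ * W x + β)) (h x) ‖φ x‖ (g x) _ _ (norm_nonneg _) hx h2
      rw [hs] at h3
      have h4 : -qq h g L φ x ≤ 1 / 2 * ((κ * W x + β) * ‖φ x‖ ^ 2) := h3
      have h5 := mul_le_mul_of_nonneg_right h4 (sq_nonneg (χ x))
      show -(qq h g L φ x * h0 ρ (y - x))
        ≤ 0 * 0 + (κ / 2 * W x + β / 2) * NN Φ x
      rw [e0, e1]
      linarith)
  have e1 : ∫ x in Ω, -(qq h g L φ x * h0 ρ (y - x))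
      = ∫ x in Ω ∩ V, -(qq h g L φ x * h0 ρ (y - x)) := by
    refine setIntegral_eq_of_subset_of_forall_sdiff_eq_zero hΩ inter_subset_left fun x hx => ?_
    have : χ x = 0 := hχ0 x fun h1 => hx.2 ⟨hx.1, h1⟩
    show -(qq h g L φ x * χ x ^ 2) = 0
    rw [this]
    ring
  have c0 : Continuous fun x : E3 => h0 ρ (y - x) :=
    (h0_cont ρ).comp (continuous_const.sub continuous_id)
  have c1 : Continuous fun x : E3 => h1 ρ (y - x) :=
    (h1_cont ρ).comp (continuous_const.sub continuous_id)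
  have iJ : Integrable fun x => h0 ρ (y - x) * JJ φ x := iJJ hφ c0
  have iN : Integrable fun x => h1 ρ (y - x) * NN φ x := iNN hφ c1
  have l1 : ∫ x, JJ Φ x
      ≤ 2 * (∫ x, h0 ρ (y - x) * JJ φ x) + 2 * ∫ x, h1 ρ (y - x) * NN φ x := by
    have i3 : Integrable fun x => 2 * (h0 ρ (y - x) * JJ φ x) := iJ.const_mul 2
    have i4 : Integrable fun x => 2 * (h1 ρ (y - x) * NN φ x) := iN.const_mul 2
    rw [← integral_const_mul, ← integral_const_mul, ← integral_add i3 i4]
    refine integral_mono (JJ_int' s1 s2) (i3.add i4) fun x => ?_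
    have h3 := JJ_mul hχs hφ.smooth one_pos x
    have h4 : DD χ x = h1 ρ (y - x) := bs_sub_fderiv ρ y x
    rw [h4] at h3
    refine h3.trans (le_of_eq ?_)
    show (1 + 1) * (h0 ρ (y - x) * JJ φ x) + (1 + 1 / 1) * (h1 ρ (y - x) * NN φ x)
      = 2 * (h0 ρ (y - x) * JJ φ x) + 2 * (h1 ρ (y - x) * NN φ x)
    ring
  have l2 : ∫ x, NN Φ x = ∫ x, h0 ρ (y - x) * NN φ x :=
    integral_congr_ae (Eventually.of_forall fun x => NN_mul χ φ x)
  rw [← e1, integral_neg, l2] at key
  have l3 := mul_le_mul_of_nonneg_left l1 (by positivity : 0 ≤ κ / 2)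
  linarith

/-- **The averaged bound.** -/
theorem lamb_avg (hΩ : MeasurableSet Ω) {κ β ρ : ℝ} (hκ : 0 ≤ κ) (hβ : 0 ≤ β) (hρ : 0 < ρ)
    {h g : E3 → ℝ} (hh : Integrable (fun x => h x ^ 2) (volume.restrict Ω))
    (hg : MemLp g 2 (volume.restrict Ω)) {L : E3 → E3}
    (hQ : ∀ x ∈ Ω, Lb Ω (Metric.ball x (2 * ρ)) κ β h g L)
    {φ : E3 → E3} (hφ : IsTest Ω φ)
    (hL : Integrable (fun x => ⟪L x, φ x⟫_ℝ) (volume.restrict Ω)) :
    -∫ x in Ω, ⟪L x, φ x⟫_ℝ
      ≤ κ * (∫ x, JJ φ x) + (β / 2 + κ * C0 * (ρ⁻¹) ^ 2) * (∫ x, NN φ x)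
        + 1 / 2 * (∫ x in Ω, h x ^ 2) + ∫ x in Ω, g x * ‖φ x‖ := by
  have hN := NN_nonneg φ
  have hJ := JJ_nonneg φ
  set P : E3 → ℝ := Ω.indicator (qq h g L φ) with hP
  have iP : Integrable P := (integrable_indicator_iff hΩ).2 (qq_int hh hg hφ hL)
  set R : E3 → ℝ := fun x => κ * JJ φ x + β / 2 * NN φ x with hR
  have iR : Integrable R :=
    ((JJ_int' hφ.smooth hφ.compact).const_mul κ).add
      ((NN_int' hφ.smooth hφ.compact).const_mul (β / 2))
  have hR0 : ∀ x, 0 ≤ R x := fun x => by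
    have h1 := hN x
    have h2 := hJ x
    simp only [hR]
    positivity
  have iF₁ : Integrable fun x => -P x - R x := iP.neg.sub iR
  have iF₂ : Integrable fun x => κ * NN φ x := (NN_int' hφ.smooth hφ.compact).const_mul _
  have H : ∀ y, ∫ x, (-P x - R x) * h0 ρ (y - x)
      ≤ ∫ x, (κ * NN φ x) * h1 ρ (y - x) := by
    intro y
    have c0 : Continuous fun x : E3 => h0 ρ (y - x) :=
      (h0_cont ρ).comp (continuous_const.sub continuous_id)
    have c1 : Continuous fun x : E3 => h1 ρ (y - x) :=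
      (h1_cont ρ).comp (continuous_const.sub continuous_id)
    have iJ : Integrable fun x => h0 ρ (y - x) * JJ φ x := iJJ hφ c0
    have iN : Integrable fun x => h0 ρ (y - x) * NN φ x := iNN hφ c0
    have iRh : Integrable fun x => R x * h0 ρ (y - x) := by
      refine ((iJ.const_mul κ).add (iN.const_mul (β / 2))).congr
        (Eventually.of_forall fun x => ?_)
      show κ * (h0 ρ (y - x) * JJ φ x) + β / 2 * (h0 ρ (y - x) * NN φ x) = R x * h0 ρ (y - x)
      simp only [hR]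
      ring
    have eR : ∫ x, R x * h0 ρ (y - x)
        = κ * (∫ x, h0 ρ (y - x) * JJ φ x) + β / 2 * ∫ x, h0 ρ (y - x) * NN φ x := by
      rw [← integral_const_mul, ← integral_const_mul, ← integral_add (iJ.const_mul κ)
        (iN.const_mul (β / 2))]
      refine integral_congr_ae (Eventually.of_forall fun x => ?_)
      show R x * h0 ρ (y - x) = κ * (h0 ρ (y - x) * JJ φ x) + β / 2 * (h0 ρ (y - x) * NN φ x)
      simp only [hR]
      ring
    have eF2 : ∫ x, (κ * NN φ x) * h1 ρ (y - x) = κ * ∫ x, h1 ρ (y - x) * NN φ x := by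
      rw [← integral_const_mul]
      refine integral_congr_ae (Eventually.of_forall fun x => ?_)
      show (κ * NN φ x) * h1 ρ (y - x) = κ * (h1 ρ (y - x) * NN φ x)
      ring
    have ePx : ∀ x, P x * h0 ρ (y - x)
        = Ω.indicator (fun x => qq h g L φ x * h0 ρ (y - x)) x := by
      intro x
      simp only [hP]
      by_cases hx : x ∈ Ω
      · rw [indicator_of_mem hx, indicator_of_mem hx]
      · rw [indicator_of_notMem hx, indicator_of_notMem hx, zero_mul]
    by_cases hy : ∃ x ∈ Ω, ‖y - x‖ < ρ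
    · obtain ⟨x₀, hx₀, hxy⟩ := hy
      have key := lamb_tr hΩ hκ hβ hρ (hQ x₀ hx₀) hxy hφ
      have iPh : Integrable fun x => P x * h0 ρ (y - x) := by
        obtain ⟨C, hC⟩ : ∃ C, ∀ x : E3, ‖h0 ρ (y - x)‖ ≤ C := by
          have hcs : HasCompactSupport (h0 ρ) := by
            have h1 : HasCompactSupport (bs ρ) :=
              bmp_comp.comp_smul (inv_ne_zero hρ.ne')
            refine h1.mono fun x hx h0' => hx ?_
            show bs ρ x ^ 2 = 0
            rw [h0']
            ring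
          obtain ⟨C, hC⟩ := hcs.exists_bound_of_continuous (h0_cont ρ)
          exact ⟨C, fun x => hC _⟩
        exact iP.mul_bdd (c := C) c0.aestronglyMeasurable (Eventually.of_forall hC)
      have eF : ∫ x, (-P x - R x) * h0 ρ (y - x)
          = -(∫ x, P x * h0 ρ (y - x)) - ∫ x, R x * h0 ρ (y - x) := by
        rw [← intns iPh iRh]
        refine integral_congr_ae (Eventually.of_forall fun x => ?_)
        show (-P x - R x) * h0 ρ (y - x) = -(P x * h0 ρ (y - x)) - R x * h0 ρ (y - x)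
        ring
      have eP : ∫ x, P x * h0 ρ (y - x) = ∫ x in Ω, qq h g L φ x * h0 ρ (y - x) := by
        rw [← integral_indicator hΩ]
        exact integral_congr_ae (Eventually.of_forall ePx)
      rw [eF, eF2, eP, eR]
      linarith only [key]
    · have hz : ∀ x, P x * h0 ρ (y - x) = 0 := by
        intro x
        rw [ePx]
        by_cases hx : x ∈ Ω
        · have h2 : ρ ≤ ‖y - x‖ := by
            by_contra hcon
            exact hy ⟨x, hx, not_le.1 hcon⟩
          rw [indicator_of_mem hx]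
          unfold h0
          rw [bs_zero hρ h2]
          ring
        · rw [indicator_of_notMem hx]
      have e1 : ∫ x, (-P x - R x) * h0 ρ (y - x) = ∫ x, -(R x * h0 ρ (y - x)) := by
        refine integral_congr_ae (Eventually.of_forall fun x => ?_)
        have := hz x
        show (-P x - R x) * h0 ρ (y - x) = -(R x * h0 ρ (y - x))
        linarith
      rw [e1, integral_neg]
      have h1 : 0 ≤ ∫ x, R x * h0 ρ (y - x) :=
        integral_nonneg fun x => mul_nonneg (hR0 x) (h0_nonneg _ _)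
      have h2 : 0 ≤ ∫ x, κ * NN φ x * LI.h1 ρ (y - x) :=
        integral_nonneg fun x => mul_nonneg (mul_nonneg hκ (hN x)) (h1_nonneg _ _)
      linarith
  have key := avg iF₁ iF₂ (h0_int hρ) (h1_int hρ) H
  have iJ := JJ_int' hφ.smooth hφ.compact
  have iN := NN_int' hφ.smooth hφ.compact
  have eR : ∫ x, R x = κ * (∫ x, JJ φ x) + β / 2 * ∫ x, NN φ x := by
    rw [← integral_const_mul, ← integral_const_mul,
      ← integral_add (iJ.const_mul κ) (iN.const_mul (β / 2))]
  have eP : ∫ x, P x = ∫ x in Ω, qq h g L φ x := integral_indicator hΩ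
  rw [int_h0 hρ, int_h1 hρ, intns iP iR, integral_const_mul, eR, eP,
    qq_integral hh hg hφ hL] at key
  have hI := I0_pos
  have hρ3 : 0 < ρ ^ 3 := by positivity
  set a := ∫ x in Ω, ⟪L x, φ x⟫_ℝ
  set b := ∫ x, JJ φ x
  set d := ∫ x, NN φ x
  set e := ∫ x in Ω, h x ^ 2
  set l := ∫ x in Ω, g x * ‖φ x‖
  have key2 : -(a + 1 / 2 * e + l) - (κ * b + β / 2 * d) ≤ C0 * (ρ⁻¹) ^ 2 * (κ * d) := by
    have h1 : (-(a + 1 / 2 * e + l) - (κ * b + β / 2 * d)) * (ρ ^ 3 * I0)
        ≤ (C0 * (ρ⁻¹) ^ 2 * (κ * d)) * (ρ ^ 3 * I0) := by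
      refine key.trans (le_of_eq ?_)
      have : C0 * I0 = I1 := div_mul_cancel₀ _ hI.ne'
      rw [← this]
      ring
    exact le_of_mul_le_mul_right h1 (by positivity)
  linarith only [key2]

end Pool.Agent.R772.LV
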