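import Pool.Agent.R462.HC.PubDef

/-!
Public definitions: the Lamb vector.
-/

set_option autoImplicit false

open MeasureTheory Set
open scoped InnerProductSpace ContDiff

namespace Pool.Agent.R772.LV

open H772R2.NS.Pub Pool.Agent.R462.HC

/-- The coordinates of a vector. -/
noncomputable def co (a : R3) (i : Fin 3) : ℝ := ⟪e i, a⟫_ℝ

/-- The entry `(i, j)` of a matrix: `∂u_i/∂x_j` for the gradient of a field `u`. -/
noncomputable def ent (A : Mat) (i j : Fin 3) : ℝ :=
  (show EuclideanSpace ℝ (Fin 3 × Fin 3) from A) (i, j)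

/-- The vorticity of a field with the gradient `A`. -/
noncomputable def curl (A : Mat) : R3 :=
  (ent A 2 1 - ent A 1 2) • e 0 + (ent A 0 2 - ent A 2 0) • e 1 + (ent A 1 0 - ent A 0 1) • e 2

/-- The cross product. -/
noncomputable def cross (a b : R3) : R3 :=
  (co a 1 * co b 2 - co a 2 * co b 1) • e 0 + (co a 2 * co b 0 - co a 0 * co b 2) • e 1
    + (co a 0 * co b 1 - co a 1 * co b 0) • e 2

/-- The vector field `P` is a gradient in `Ω` (in the sense of distributions): it is integrable over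
compact subsets of `Ω`, and orthogonal to the divergence free test fields. -/
structure IsGrad (Ω : Set R3) (P : R3 → R3) : Prop where
  loc : ∀ S ⊆ Ω, IsCompact S → IntegrableOn P S
  orth : ∀ φ, IsTest Ω φ → ∫ x in Ω, ⟪P x, φ x⟫_ℝ = 0

/-- In `V` the Lamb vector `ω × u` of the velocity field `u` (in `Ω`, with the gradient `G` and
the vorticity `ω`) satisfies `|ω × u + P| ≤ √(K W + B) h + g` almost everywhere, with a potential
`W` which is form bounded in `Ω ∩ V` with the bound one. -/
def LambIn {Ω : Set R3} (V : Set R3) (K B : ℝ) (h g : L2 Ω ℝ) (P : R3 → R3) (u : L2 Ω R3)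
    (G : L2 Ω Mat) : Prop :=
  ∃ W : R3 → ℝ, FormBdd (Ω ∩ V) W ∧ ∀ᵐ x ∂(volume.restrict (Ω ∩ V)),
    ‖cross (curl (G.fn x)) (u.fn x) + P x‖ ≤ √(K * W x + B) * h.fn x + g.fn x

/-- In `V` the Lamb vector `ω × u` of the velocity field `u` (in `Ω`, with the gradient `G` and
the vorticity `ω`) satisfies `|ω × u + P| ≤ (K / |x - y| + √B) |ω|` almost everywhere, for some
point `y ∈ ℝ³`. For `P = 0` this says that the component of the velocity perpendicular to the
vorticity is at most `K / |x - y| + √B` where `ω ≠ 0`. -/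
def PerpIn {Ω : Set R3} (V : Set R3) (K B : ℝ) (P : R3 → R3) (u : L2 Ω R3) (G : L2 Ω Mat) :
    Prop :=
  ∃ y : R3, ∀ᵐ x ∂(volume.restrict (Ω ∩ V)),
    ‖cross (curl (G.fn x)) (u.fn x) + P x‖ ≤ (K / ‖x - y‖ + √B) * ‖curl (G.fn x)‖

end Pool.Agent.R772.LV
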