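import Pool.Agent.R772.LV2
import Pool.Agent.R462.HC.Hardy
import Pool.Agent.R772.PubLV

/-!
The Lamb vector: passage to the limit, and the public definitions.
-/

set_option autoImplicit false

open MeasureTheory Set Filter Topology
open scoped InnerProductSpace ContDiff ENNReal

namespace Pool.Agent.R772.LV

section inner

open H772R2.NS Pool.Agent.TH340.FF Pool.Agent.R462.HC Pool.Agent.R772.LI

variable {Ω : Set E3}

theorem cs (g : Lp ℝ 2 (volume.restrict Ω)) (v : L2V Ω) :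
    ∫ x in Ω, |g x| * ‖v x‖ ≤ ‖g‖ * ‖v‖ := by
  have m1 := (Lp.memLp g).norm
  have m2 := (Lp.memLp v).norm
  have n1 : ‖m1.toLp (fun x => ‖g x‖)‖ = ‖g‖ := by
    rw [Lp.norm_toLp, eLpNorm_norm]
    exact (Lp.norm_def g).symm
  have n2 : ‖m2.toLp (fun x => ‖v x‖)‖ = ‖v‖ := by
    rw [Lp.norm_toLp, eLpNorm_norm]
    exact (Lp.norm_def v).symm
  have h := real_inner_le_norm (m1.toLp (fun x => ‖g x‖)) (m2.toLp (fun x => ‖v x‖))
  rw [n1, n2, L2.inner_def] at h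
  refine le_trans (le_of_eq ?_) h
  refine integral_congr_ae ?_
  filter_upwards [m1.coeFn_toLp, m2.coeFn_toLp] with x a b
  rw [a, b]
  show |g x| * ‖v x‖ = ‖v x‖ * ‖g x‖
  rw [Real.norm_eq_abs]
  ring

/-- gradients in the weak sense -/
structure Gr (Ω : Set E3) (P : E3 → E3) : Prop where
  loc : ∀ S ⊆ Ω, IsCompact S → IntegrableOn P S
  orth : ∀ φ, IsTest Ω φ → ∫ x in Ω, ⟪P x, φ x⟫_ℝ = 0

theorem Gr.int {P : E3 → E3} (hP : Gr Ω P) {φ : E3 → E3} (h : IsTest Ω φ) :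
    Integrable (fun x => ⟪P x, φ x⟫_ℝ) (volume.restrict Ω) := by
  have h1 : IntegrableOn P (tsupport φ) := hP.loc _ h.supp h.compact
  obtain ⟨C, hC⟩ := h.compact.exists_bound_of_continuous h.smooth.continuous
  have h2 : IntegrableOn (fun x => ⟪P x, φ x⟫_ℝ) (tsupport φ) :=
    (innerSL ℝ).integrable_of_bilin_of_bdd_right C h1
      h.smooth.continuous.aestronglyMeasurable (Eventually.of_forall hC)
  have h3 : Integrable (fun x => ⟪P x, φ x⟫_ℝ) := by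
    refine (integrableOn_iff_integrable_of_support_subset fun x hx => ?_).1 h2
    refine subset_tsupport _ fun h0 => hx ?_
    show ⟪P x, φ x⟫_ℝ = 0
    rw [h0, inner_zero_right]
  exact h3.restrict

/-- the bound for all fields in the space -/
theorem lamb_graph (hΩ : MeasurableSet Ω) {κ β ρ : ℝ} (hκ : 0 ≤ κ) (hβ : 0 ≤ β) (hρ : 0 < ρ)
    {h : E3 → ℝ} (hh : Integrable (fun x => h x ^ 2) (volume.restrict Ω))
    (g : Lp ℝ 2 (volume.restrict Ω)) {U : L2V Ω} {G : L2M Ω} (hU : (U, G) ∈ graphW Ω)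
    {P : E3 → E3} (hP : Gr Ω P)
    (hQ : ∀ x ∈ Ω, Lb Ω (Metric.ball x ρ) κ β h (fun x => |g x|)
      fun x => lam (G x) (U x) + P x)
    {p : L2V Ω × L2M Ω} (hp : p ∈ graphW Ω) :
    |⟪tensL U, p.2⟫_ℝ| ≤ κ * ‖p.2‖ ^ 2 + (β / 2 + 4 * κ * C0 / ρ ^ 2) * ‖p.1‖ ^ 2
      + 1 / 2 * (∫ x in Ω, h x ^ 2) + ‖g‖ * ‖p.1‖ := by
  have hQ' : ∀ x ∈ Ω, Lb Ω (Metric.ball x (2 * (ρ / 2))) κ β h (fun x => |g x|)
      fun x => lam (G x) (U x) + P x := by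
    have e : 2 * (ρ / 2) = ρ := by ring
    rw [e]
    exact hQ
  have key : ∀ p ∈ graphW Ω, ⟪tensL U, p.2⟫_ℝ ≤ κ * ‖p.2‖ ^ 2
      + (β / 2 + 4 * κ * C0 / ρ ^ 2) * ‖p.1‖ ^ 2
      + 1 / 2 * (∫ x in Ω, h x ^ 2) + ‖g‖ * ‖p.1‖ := by
    intro p hp
    have hc : Continuous fun p : L2V Ω × L2M Ω => ⟪tensL U, p.2⟫_ℝ - (κ * ‖p.2‖ ^ 2
      + (β / 2 + 4 * κ * C0 / ρ ^ 2) * ‖p.1‖ ^ 2
      + 1 / 2 * (∫ x in Ω, h x ^ 2) + ‖g‖ * ‖p.1‖) := by fun_prop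
    have k := graphW_le (fun p : L2V Ω × L2M Ω => ⟪tensL U, p.2⟫_ℝ - (κ * ‖p.2‖ ^ 2
      + (β / 2 + 4 * κ * C0 / ρ ^ 2) * ‖p.1‖ ^ 2
      + 1 / 2 * (∫ x in Ω, h x ^ 2) + ‖g‖ * ‖p.1‖)) hc.continuousOn (fun q hq => ?_) hp
    · have k' : ⟪tensL U, p.2⟫_ℝ - (κ * ‖p.2‖ ^ 2
        + (β / 2 + 4 * κ * C0 / ρ ^ 2) * ‖p.1‖ ^ 2
        + 1 / 2 * (∫ x in Ω, h x ^ 2) + ‖g‖ * ‖p.1‖) ≤ 0 := k
      linarith
    obtain ⟨φ, h1, h2, h3⟩ := hq
    have n1 : ‖q.1‖ ^ 2 = ∫ x, NN φ x := norm_test1 h1 h2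
    have n2 : ‖q.2‖ ^ 2 = ∫ x, JJ φ x := norm_test2 h1 h3
    have hgm : MemLp (fun x => |g x|) 2 (volume.restrict Ω) := (Lp.memLp g).norm
    have i1 := lam_int h1 U G
    have i2 := hP.int h1
    have i3 : Integrable (fun x => ⟪lam (G x) (U x) + P x, φ x⟫_ℝ) (volume.restrict Ω) := by
      refine (i1.add i2).congr (Eventually.of_forall fun x => ?_)
      exact (inner_add_left _ _ _).symm
    have e7 : ∫ x in Ω, ⟪lam (G x) (U x) + P x, φ x⟫_ℝ = ∫ x in Ω, ⟪lam (G x) (U x), φ x⟫_ℝ := by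
      have e8 : ∫ x in Ω, ⟪lam (G x) (U x) + P x, φ x⟫_ℝ
          = ∫ x in Ω, (⟪lam (G x) (U x), φ x⟫_ℝ + ⟪P x, φ x⟫_ℝ) :=
        integral_congr_ae (Eventually.of_forall fun x => inner_add_left _ _ _)
      rw [e8, integral_add i1 i2, hP.orth φ h1, add_zero]
    have e1 := lamb_avg hΩ hκ hβ (half_pos hρ) hh hgm hQ' h1 i3
    rw [e7] at e1
    have e2 := lamb_id hΩ h1 h3 hU
    have e3 := cs g q.1
    have e4 : ∫ x in Ω, |g x| * ‖q.1 x‖ = ∫ x in Ω, |g x| * ‖φ x‖ := by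
      refine integral_congr_ae ?_
      filter_upwards [h2] with x a
      rw [a]
    rw [e4] at e3
    have e5 : ⟪tensL U, q.2⟫_ℝ = -∫ x in Ω, ⟪lam (G x) (U x), φ x⟫_ℝ := e2
    have e6 : β / 2 + κ * C0 * (ρ / 2)⁻¹ ^ 2 = β / 2 + 4 * κ * C0 / ρ ^ 2 := by
      field_simp
      ring
    rw [e6] at e1
    show ⟪tensL U, q.2⟫_ℝ - (κ * ‖q.2‖ ^ 2
      + (β / 2 + 4 * κ * C0 / ρ ^ 2) * ‖q.1‖ ^ 2
      + 1 / 2 * (∫ x in Ω, h x ^ 2) + ‖g‖ * ‖q.1‖) ≤ 0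
    rw [e5, n1, n2]
    linarith
  have k1 := key p hp
  have k2 := key (-p) ((graphW Ω).neg_mem hp)
  rw [Prod.snd_neg, Prod.fst_neg, inner_neg_right, norm_neg, norm_neg] at k2
  exact abs_le.2 ⟨by linarith, k1⟩

/-- the weight for both conditions -/
theorem weight (h : Lp ℝ 2 (volume.restrict Ω)) (G : L2M Ω) :
    Integrable (fun x => (|h x| + 2 * ‖G x‖) ^ 2) (volume.restrict Ω) ∧
      ∫ x in Ω, (|h x| + 2 * ‖G x‖) ^ 2 ≤ 2 * ‖h‖ ^ 2 + 8 * ‖G‖ ^ 2 := by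
  have m1 : MemLp (fun x => |h x|) 2 (volume.restrict Ω) := (Lp.memLp h).norm
  have m2 : MemLp (fun x => ‖G x‖) 2 (volume.restrict Ω) := (Lp.memLp G).norm
  have m3 : MemLp (fun x => 2 * ‖G x‖) 2 (volume.restrict Ω) := m2.const_mul 2
  have i0 : Integrable (fun x => (|h x| + 2 * ‖G x‖) ^ 2) (volume.restrict Ω) :=
    (m1.add m3).integrable_sq
  have i1 : Integrable (fun x => h x ^ 2) (volume.restrict Ω) := (Lp.memLp h).integrable_sq
  have i2 : Integrable (fun x => ‖G x‖ ^ 2) (volume.restrict Ω) := m2.integrable_sq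
  refine ⟨i0, ?_⟩
  have n1 : ‖h‖ ^ 2 = ∫ x in Ω, h x ^ 2 := by
    rw [← real_inner_self_eq_norm_sq, L2.inner_def]
    refine integral_congr_ae (Eventually.of_forall fun x => ?_)
    show h x * h x = h x ^ 2
    ring
  have n2 : ‖G‖ ^ 2 = ∫ x in Ω, ‖G x‖ ^ 2 := by
    rw [← real_inner_self_eq_norm_sq, L2.inner_def]
    exact integral_congr_ae (Eventually.of_forall fun x => real_inner_self_eq_norm_sq _)
  rw [n1, n2, ← integral_const_mul, ← integral_const_mul,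
    ← integral_add (i1.const_mul 2) (i2.const_mul 8)]
  refine integral_mono i0 ((i1.const_mul 2).add (i2.const_mul 8)) fun x => ?_
  show (|h x| + 2 * ‖G x‖) ^ 2 ≤ 2 * h x ^ 2 + 8 * ‖G x‖ ^ 2
  have h1 : |h x| ^ 2 = h x ^ 2 := sq_abs _
  nlinarith [sq_nonneg (|h x| - 2 * ‖G x‖)]

end inner

open H772R2.NS.Pub Pool.Agent.R462.HC Pool.Agent.R772.LI

theorem e_apply (i j : Fin 3) :
    (show H772R2.NS.E3 from e i) j = if j = i then (1 : ℝ) else 0 := by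
  show (EuclideanSpace.single i (1 : ℝ) : H772R2.NS.E3) j = _
  rw [PiLp.single_apply]

theorem co_apply (a : H772R2.NS.E3) (i : Fin 3) : co a i = a i := by
  show ⟪(EuclideanSpace.single i (1 : ℝ) : H772R2.NS.E3), a⟫_ℝ = a i
  rw [EuclideanSpace.inner_single_left]
  simp

theorem vec_apply (a b c : ℝ) (j : Fin 3) :
    (show H772R2.NS.E3 from (a • e 0 + b • e 1 + c • e 2 : R3)) j
      = a * (if j = 0 then (1 : ℝ) else 0) + b * (if j = 1 then (1 : ℝ) else 0)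
        + c * (if j = 2 then (1 : ℝ) else 0) := by
  show (a • (show H772R2.NS.E3 from e 0) + b • (show H772R2.NS.E3 from e 1)
    + c • (show H772R2.NS.E3 from e 2) : H772R2.NS.E3) j = _
  simp only [PiLp.add_apply, PiLp.smul_apply, smul_eq_mul]
  rw [e_apply, e_apply, e_apply]

theorem curl_apply (A : H772R2.NS.M3) (j : Fin 3) :
    (show H772R2.NS.E3 from curl A) j
      = (A (2, 1) - A (1, 2)) * (if j = 0 then (1 : ℝ) else 0)
        + (A (0, 2) - A (2, 0)) * (if j = 1 then (1 : ℝ) else 0)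
        + (A (1, 0) - A (0, 1)) * (if j = 2 then (1 : ℝ) else 0) := vec_apply _ _ _ j

theorem cross_curl (A : H772R2.NS.M3) (v : H772R2.NS.E3) :
    (cross (curl A) v : H772R2.NS.E3) = lam A v := by
  have c : ∀ i, co (curl A) i = (A (2, 1) - A (1, 2)) * (if i = 0 then (1 : ℝ) else 0)
      + (A (0, 2) - A (2, 0)) * (if i = 1 then (1 : ℝ) else 0)
      + (A (1, 0) - A (0, 1)) * (if i = 2 then (1 : ℝ) else 0) := fun i =>
    (co_apply _ i).trans (curl_apply A i)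
  refine PiLp.ext fun j => ?_
  refine (vec_apply _ _ _ j).trans ?_
  rw [c, c, c, co_apply, co_apply, co_apply, lam_apply]
  fin_cases j <;> simp [Fin.sum_univ_three] <;> ring

theorem norm_curl (A : H772R2.NS.M3) : ‖curl A‖ ≤ 2 * ‖A‖ := by
  have h : ‖(show H772R2.NS.E3 from curl A)‖ ^ 2 ≤ (2 * ‖A‖) ^ 2 := by
    rw [H772R2.NS.norm_sq_E3, mul_pow, H772R2.NS.norm_sq_M3]
    simp only [Fin.sum_univ_three, curl_apply]
    simp
    nlinarith [sq_nonneg (A (2, 1) + A (1, 2)), sq_nonneg (A (0, 2) + A (2, 0)),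
      sq_nonneg (A (1, 0) + A (0, 1)), sq_nonneg (A (0, 0)), sq_nonneg (A (1, 1)),
      sq_nonneg (A (2, 2)), sq_nonneg (A (2, 1)), sq_nonneg (A (1, 2)), sq_nonneg (A (0, 2)),
      sq_nonneg (A (2, 0)), sq_nonneg (A (1, 0)), sq_nonneg (A (0, 1))]
  exact (sq_le_sq₀ (norm_nonneg _) (by positivity)).1 h

theorem cross_eq (A : H772R2.NS.M3) (v : H772R2.NS.E3) (P : R3) :
    ‖lam A v + (show H772R2.NS.E3 from P)‖ = ‖cross (curl A) v + P‖ :=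
  congrArg (fun z : H772R2.NS.E3 => ‖z + (show H772R2.NS.E3 from P)‖) (cross_curl A v).symm

theorem pt1 (A : H772R2.NS.M3) (v : H772R2.NS.E3) (P : R3) {K B W h g : ℝ} (hB : 0 ≤ B)
    (hw : 0 ≤ W) (hx : ‖cross (curl A) v + P‖ ≤ √(K * W + B) * h + g) :
    ‖lam A v + (show H772R2.NS.E3 from P)‖
      ≤ √((K + 8 * K ^ 2) * W + 2 * B) * (|h| + 2 * ‖A‖) + |g| := by
  have hx' : ‖lam A v + (show H772R2.NS.E3 from P)‖ ≤ √(K * W + B) * h + g :=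
    (cross_eq A v P).le.trans hx
  refine hx'.trans ?_
  have s1 : √(K * W + B) ≤ √((K + 8 * K ^ 2) * W + 2 * B) := by
    refine Real.sqrt_le_sqrt ?_
    have : 0 ≤ 8 * K ^ 2 * W := by positivity
    linarith
  have s0 : 0 ≤ ‖A‖ := norm_nonneg A
  have s2 : h ≤ |h| + 2 * ‖A‖ := by
    have := le_abs_self h
    linarith
  have s3 : 0 ≤ |h| + 2 * ‖A‖ := by positivity
  have s4 : √(K * W + B) * h ≤ √((K + 8 * K ^ 2) * W + 2 * B) * (|h| + 2 * ‖A‖) :=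
    (mul_le_mul_of_nonneg_left s2 (Real.sqrt_nonneg _)).trans (mul_le_mul_of_nonneg_right s1 s3)
  exact add_le_add s4 (le_abs_self _)

theorem pt2 (A : H772R2.NS.M3) (v : H772R2.NS.E3) (P : R3) {K B r : ℝ} (hK : 0 ≤ K)
    (hB : 0 ≤ B) (hr : 0 ≤ r) (h g : ℝ)
    (hx : ‖cross (curl A) v + P‖ ≤ (K / r + √B) * ‖curl A‖) :
    ‖lam A v + (show H772R2.NS.E3 from P)‖
      ≤ √((K + 8 * K ^ 2) * (4 * r ^ 2)⁻¹ + 2 * B) * (|h| + 2 * ‖A‖) + |g| := by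
  have hx' : ‖lam A v + (show H772R2.NS.E3 from P)‖ ≤ (K / r + √B) * ‖curl A‖ :=
    (cross_eq A v P).le.trans hx
  refine hx'.trans ?_
  have s1 : K / r + √B ≤ √((K + 8 * K ^ 2) * (4 * r ^ 2)⁻¹ + 2 * B) := by
    refine Real.le_sqrt_of_sq_le ?_
    have hs : √B ^ 2 = B := Real.sq_sqrt hB
    have e1 : 8 * K ^ 2 * (4 * r ^ 2)⁻¹ = 2 * (K / r) ^ 2 := by
      rw [mul_inv, div_pow]
      ring
    have e2 : 0 ≤ K * (4 * r ^ 2)⁻¹ := by positivity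
    nlinarith [sq_nonneg (K / r - √B)]
  have s2 : ‖curl A‖ ≤ 2 * ‖A‖ := norm_curl A
  have s3 : (K / r + √B) * ‖curl A‖
      ≤ √((K + 8 * K ^ 2) * (4 * r ^ 2)⁻¹ + 2 * B) * (|h| + 2 * ‖A‖) := by
    refine mul_le_mul s1 ?_ (norm_nonneg _) (Real.sqrt_nonneg _)
    have := abs_nonneg h
    linarith
  have s4 := abs_nonneg g
  linarith

/-- both conditions give the local bound -/
theorem lb_of {Ω V : Set R3} {K B : ℝ} (hK : 0 < K) (hB : 0 ≤ B) {h g : L2 Ω ℝ} {P : R3 → R3}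
    {u : L2 Ω R3} {G : L2 Ω Mat} (hy : LambIn V K B h g P u G ∨ PerpIn V K B P u G) :
    Lb (show Set H772R2.NS.E3 from Ω) (show Set H772R2.NS.E3 from V) (K + 8 * K ^ 2) (2 * B)
      (fun x => |h.fn x| + 2 * ‖(G.fn x : H772R2.NS.M3)‖) (fun x => |g.fn x|)
      (fun x => lam (G.fn x) (u.fn x) + (show H772R2.NS.E3 from P x)) := by
  rcases hy with ⟨W, hW, hL⟩ | ⟨y, hL⟩
  · exact ⟨W, FB.of_pub hW, hL.mono fun x hx =>
      pt1 (G.fn x) (u.fn x) (P x) hB (hW.nonneg x) hx⟩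
  · exact ⟨_, FB.of_pub (hardy_formBdd (Ω ∩ V) y), hL.mono fun x hx =>
      pt2 (G.fn x) (u.fn x) (P x) hK.le hB (norm_nonneg (x - y)) (h.fn x) (g.fn x) hx⟩

theorem isTest_pub {Ω : Set R3} {φ : R3 → R3}
    (h : H772R2.NS.IsTest (show Set H772R2.NS.E3 from Ω) φ) : IsTest Ω φ :=
  ⟨h.smooth, h.compact, h.supp, fun x => by
    refine Eq.trans ?_ (h.divfree x)
    refine Finset.sum_congr rfl fun i _ => ?_
    exact co_apply (fderiv ℝ (show H772R2.NS.E3 → H772R2.NS.E3 from φ) x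
      (EuclideanSpace.single i 1)) i⟩

theorem gr_of {Ω : Set R3} {P : R3 → R3} (h : IsGrad Ω P) :
    Gr (show Set H772R2.NS.E3 from Ω) P :=
  ⟨fun S hS hc => h.loc S hS hc, fun φ hφ => h.orth φ (isTest_pub hφ)⟩

end Pool.Agent.R772.LV
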