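import Pool.Agent.R772.Pos2
import Pool.Agent.Y501.SY.Glue

/-!
Linear algebra: two-forms `a ∧ b` with `a` vanishing on the kernel of a degenerate two-form.
-/

set_option autoImplicit false

open Set Filter Topology
open scoped Manifold ContDiff

noncomputable section

namespace Pool.Agent.R772

open Pool.Agent.Y501.SY

/-- a linear form which vanishes on the kernel of `σ` is `σ(·, w)` for some `w` -/
theorem exists_dual {V : Type} [AddCommGroup V] [Module ℝ V] [TopologicalSpace V]
    [FiniteDimensional ℝ V] (σ : V [⋀^Fin 2]→L[ℝ] ℝ) (a : V →ₗ[ℝ] ℝ)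
    (ha : ∀ v, (∀ w, σ ![v, w] = 0) → a v = 0) : ∃ w, ∀ v, a v = σ ![v, w] := by
  have hupd0 : ∀ (v w y : V), Function.update ![v, w] 0 y = ![y, w] := by
    intro v w y; funext i; fin_cases i <;> simp
  have hupd1 : ∀ (v w y : V), Function.update ![v, w] 1 y = ![v, y] := by
    intro v w y; funext i; fin_cases i <;> simp
  have hadd0 : ∀ (v v' w : V), σ ![v + v', w] = σ ![v, w] + σ ![v', w] := by
    intro v v' w
    have h := σ.toAlternatingMap.map_update_add ![v, w] 0 v v'
    rw [hupd0, hupd0, hupd0] at h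
    exact h
  have hadd1 : ∀ (v w w' : V), σ ![v, w + w'] = σ ![v, w] + σ ![v, w'] := by
    intro v w w'
    have h := σ.toAlternatingMap.map_update_add ![v, w] 1 w w'
    rw [hupd1, hupd1, hupd1] at h
    exact h
  have hsmul0 : ∀ (c : ℝ) (v w : V), σ ![c • v, w] = c * σ ![v, w] := by
    intro c v w
    have h := σ.toAlternatingMap.map_update_smul ![v, w] 0 c v
    rw [hupd0, hupd0] at h
    exact h
  have hsmul1 : ∀ (c : ℝ) (v w : V), σ ![v, c • w] = c * σ ![v, w] := by
    intro c v w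
    have h := σ.toAlternatingMap.map_update_smul ![v, w] 1 c w
    rw [hupd1, hupd1] at h
    exact h
  let B : V →ₗ[ℝ] V →ₗ[ℝ] ℝ := LinearMap.mk₂ ℝ (fun v w => σ ![v, w]) hadd0 hsmul0 hadd1 hsmul1
  have h1 : a ∈ LinearMap.range B.dualMap := by
    rw [LinearMap.range_dualMap_eq_dualAnnihilator_ker, Submodule.mem_dualAnnihilator]
    intro v hv
    refine ha v fun w => ?_
    have h2 : B v = 0 := hv
    have h3 : B v w = 0 := by rw [h2]; rfl
    exact h3
  obtain ⟨g, hg⟩ := h1
  obtain ⟨w, hw⟩ := (Module.evalEquiv ℝ V).surjective g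
  refine ⟨w, fun v => ?_⟩
  rw [← hg, ← hw]
  rfl

theorem wedge_rank {V : Type} [AddCommGroup V] [Module ℝ V] [TopologicalSpace V] {m : ℕ}
    (σ η : V [⋀^Fin 2]→L[ℝ] ℝ) (h0 : ∀ e : Fin (m + 1) × Fin 2 → V,
      Pool.Agent.R772.wedge (fun _ : Fin (m + 1) => σ) e = 0)
    (b : V → ℝ) (w : V) (hη : ∀ u v, η ![u, v] = σ ![u, w] * b v - σ ![v, w] * b u)
    (e : Fin (m + 1) × Fin 2 → V) :
    Pool.Agent.R772.wedge (Fin.cons η (fun _ : Fin m => σ)) e = 0 := by
  have hupd0 : ∀ (v w y : V), Function.update ![v, w] 0 y = ![y, w] := by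
    intro v w y; funext i; fin_cases i <;> simp
  have hupd1 : ∀ (v w y : V), Function.update ![v, w] 1 y = ![v, y] := by
    intro v w y; funext i; fin_cases i <;> simp
  have hadd0 : ∀ (v v' w : V), σ ![v + v', w] = σ ![v, w] + σ ![v', w] := by
    intro v v' w
    have h := σ.toAlternatingMap.map_update_add ![v, w] 0 v v'
    rw [hupd0, hupd0, hupd0] at h
    exact h
  have hadd1 : ∀ (v w w' : V), σ ![v, w + w'] = σ ![v, w] + σ ![v, w'] := by
    intro v w w'
    have h := σ.toAlternatingMap.map_update_add ![v, w] 1 w w'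
    rw [hupd1, hupd1, hupd1] at h
    exact h
  have hsmul0 : ∀ (c : ℝ) (v w : V), σ ![c • v, w] = c * σ ![v, w] := by
    intro c v w
    have h := σ.toAlternatingMap.map_update_smul ![v, w] 0 c v
    rw [hupd0, hupd0] at h
    exact h
  have hsmul1 : ∀ (c : ℝ) (v w : V), σ ![v, c • w] = c * σ ![v, w] := by
    intro c v w
    have h := σ.toAlternatingMap.map_update_smul ![v, w] 1 c w
    rw [hupd1, hupd1] at h
    exact h
  have hww : σ ![w, w] = 0 := by
    have := alt_swap σ w w
    linarith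
  -- the shear `v ↦ v + t b(v) w`
  have h1 : ∀ t : ℝ, Pool.Agent.R772.wedge (fun _ : Fin (m + 1) => σ + t • η) e = 0 := by
    intro t
    rw [← h0 (fun k => e k + (t * b (e k)) • w)]
    unfold Pool.Agent.R772.wedge
    refine Finset.sum_congr rfl fun π _ => ?_
    congr 1
    refine Finset.prod_congr rfl fun i _ => ?_
    have h2 : (σ + t • η) ![e (π (i, 0)), e (π (i, 1))] = σ ![e (π (i, 0)), e (π (i, 1))] +
        t * η ![e (π (i, 0)), e (π (i, 1))] := rfl
    rw [h2, hη, hadd0, hadd1, hadd1, hsmul0, hsmul0, hsmul1, hsmul1, hww,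
      alt_swap σ w (e (π (i, 1)))]
    ring
  have h2 := (hasDerivAt_wedge (m := m) σ η e 0).deriv
  have h3 : (fun t : ℝ => Pool.Agent.R772.wedge (fun _ : Fin (m + 1) => σ + t • η) e) =
      fun _ => 0 := funext h1
  rw [h3, deriv_const] at h2
  have h4 : (fun _ : Fin m => σ + (0 : ℝ) • η) = fun _ : Fin m => σ := by
    funext _
    rw [zero_smul, add_zero]
  rw [h4] at h2
  have hm : (m + 1 : ℝ) ≠ 0 := by positivity
  rcases mul_eq_zero.1 h2.symm with h | h
  · exact absurd h hm
  · exact h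

section

variable {V : Type} [AddCommGroup V] [Module ℝ V] [TopologicalSpace V] {m : ℕ}

theorem wedge_cons_add (a b c : V [⋀^Fin 2]→L[ℝ] ℝ) (e : Fin (m + 1) × Fin 2 → V) :
    Pool.Agent.R772.wedge (Fin.cons (b + c) (fun _ : Fin m => a)) e =
      Pool.Agent.R772.wedge (Fin.cons b (fun _ : Fin m => a)) e +
      Pool.Agent.R772.wedge (Fin.cons c (fun _ : Fin m => a)) e := by
  have := wedge_cons_linear (m := m) a b c 1 e
  rwa [one_smul, one_mul] at this

theorem wedge_cons_zero (a : V [⋀^Fin 2]→L[ℝ] ℝ) (e : Fin (m + 1) × Fin 2 → V) :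
    Pool.Agent.R772.wedge (Fin.cons 0 (fun _ : Fin m => a)) e = 0 := by
  have := wedge_cons_add (m := m) a 0 0 e
  rw [add_zero] at this
  linarith

theorem wedge_cons_smul (a b : V [⋀^Fin 2]→L[ℝ] ℝ) (r : ℝ) (e : Fin (m + 1) × Fin 2 → V) :
    Pool.Agent.R772.wedge (Fin.cons (r • b) (fun _ : Fin m => a)) e =
      r * Pool.Agent.R772.wedge (Fin.cons b (fun _ : Fin m => a)) e := by
  have := wedge_cons_linear (m := m) a 0 b r e
  rwa [zero_add, wedge_cons_zero, zero_add] at this

theorem wedge_cons_sum {ι : Type} (s : Finset ι) (a : V [⋀^Fin 2]→L[ℝ] ℝ)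
    (b : ι → V [⋀^Fin 2]→L[ℝ] ℝ) (e : Fin (m + 1) × Fin 2 → V) :
    Pool.Agent.R772.wedge (Fin.cons (∑ i ∈ s, b i) (fun _ : Fin m => a)) e =
      ∑ i ∈ s, Pool.Agent.R772.wedge (Fin.cons (b i) (fun _ : Fin m => a)) e := by
  classical
  induction s using Finset.induction_on with
  | empty => rw [Finset.sum_empty, Finset.sum_empty, wedge_cons_zero]
  | insert i s hi ih => rw [Finset.sum_insert hi, Finset.sum_insert hi, wedge_cons_add, ih]

end

end Pool.Agent.R772
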