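import Pool.Agent.R772.Glu

/-!
Exact two-forms which are positive over a compact set: the main theorem for fields of cones.
-/

set_option autoImplicit false

open Set Filter Topology MeasureTheory
open scoped Manifold ContDiff

noncomputable section

namespace Pool.Agent.R772

open Pool.Agent.Y501.SY

section

variable {d : ℕ} {X : Type} [TopologicalSpace X] [ChartedSpace (E d) X]
  [IsManifold (𝓡 d) ∞ X]

omit [IsManifold (𝓡 d) ∞ X] in
theorem IsCone.mono {σ : Form d X 2} {D D' : Set X} {P : PField d X}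
    (hP : IsCone σ D P) (h : D' ⊆ D) : IsCone σ D' P := by
  refine ⟨fun x hx => hP.add x (h hx), fun x hx => hP.smul x (h hx), ?_,
    fun x hx => hP.ker x (h hx)⟩
  intro κ _ η θ hη hθ x hx hp
  obtain ⟨ε, hε, he⟩ := hP.pert κ η θ hη hθ x (h hx) hp
  exact ⟨ε, hε, he.mono fun y hy hyD => hy (h hyD)⟩

/-- the set where `θ` is not in the cone is closed -/
theorem IsCone.closed {σ θ : Form d X 2} {D : Set X} {P : PField d X}
    (hP : IsCone σ D P) (hθ : IsSmooth θ) {C : Set X} (hC : IsClosed C) (hCD : C ⊆ D) :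
    IsClosed {x | x ∈ C ∧ ¬ P x (θ x)} := by
  rw [← isOpen_compl_iff, isOpen_iff_eventually]
  intro x hx
  by_cases hxC : x ∈ C
  · have hPx : P x (θ x) := by
      by_contra h
      exact hx ⟨hxC, h⟩
    filter_upwards [hP.nhds hθ (hCD hxC) hPx] with y hy hy2
    exact hy2.2 (hy (hCD hy2.1))
  · filter_upwards [hC.isOpen_compl.mem_nhds hxC] with y hy hy2
    exact hy hy2.1

/-- the components of the set where `θ` is not in the cone are thin -/
theorem IsCone.level2 [CompactSpace X] [T2Space X] {σ : Form d X 2} {D : Set X}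
    {P : PField d X} (hP : IsCone σ D P) (hD : IsClosed D)
    (hthin : ∀ z ∈ D, ThinP P (connectedComponentIn D z) z) :
    ∃ (β : Form d X 1) (ρ : Form d X 2), IsSmooth β ∧ IsSmooth ρ ∧ IsD β ρ ∧
      ∀ x ∈ D, P x (ρ x) := by
  have hG := Pool.Agent.Y484.SY.t_GEN
  obtain ⟨β, ρ, h1, h2, h3, h4⟩ := hP.glue hD 0 (by
    intro z hz
    obtain ⟨α, η, hpair, hη⟩ := hP.cover (compact_comp' hD.isCompact hz)
      (connectedComponentIn_subset D z) (by
        intro w hw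
        have hwF := connectedComponentIn_subset _ _ hw
        rw [connectedComponentIn_eq hw]
        exact hthin w hwF)
    obtain ⟨hα, hηs, hαη, _⟩ := hpair.props hG
    have hU : IsOpen {x | ∀ᶠ y in 𝓝 x, y ∈ D → P y (η y)} := isOpen_setOfPred_eventually_nhds
    have hcc : connectedComponentIn (D ∩ (fun _ : X => (0 : E 0)) ⁻¹' {0}) z ⊆
        {x | ∀ᶠ y in 𝓝 x, y ∈ D → P y (η y)} := by
      have : (fun _ : X => (0 : E 0)) ⁻¹' {0} = univ := by
        ext x; simp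
      rw [this, inter_univ]
      intro x hx
      exact hP.nhds hηs (connectedComponentIn_subset D z hx) (hη x hx)
    obtain ⟨u, hu, hu0, huz, huU, hud⟩ := sepfun (d := d) (m := 0) (Y := E 0)
      (f := fun _ : X => (0 : E 0)) contMDiff_const hD.isCompact hz hU hcc
    refine ⟨u, α, η, ⟨hu, fun x hx v _ => hud x hx v ?_⟩, hu0, huz, hα, hηs, hαη, ?_⟩
    · rw [mfderiv_const]; rfl
    · intro x hx hux
      rw [zero_add]
      exact (huU x hx hux).self_of_nhds hx)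
  refine ⟨β, ρ, h1, h2, h3, fun x hx => ?_⟩
  have := h4 x hx
  rwa [zero_add] at this

theorem IsCone.main [CompactSpace X] [T2Space X] {σ : Form d X 2} {D : Set X}
    {P : PField d X} (hP : IsCone σ D P) (hD : IsClosed D)
    {m : ℕ} {Y : Type} [TopologicalSpace Y] [ChartedSpace (E m) Y] [IsManifold (𝓡 m) ∞ Y]
    [T2Space Y] {f : X → Y} (hf : ContMDiff (𝓡 d) (𝓡 m) ∞ f)
    (hker : ∀ x ∈ D, ∀ v : TangentSpace (𝓡 d) x, (∀ w, σ x ![v, w] = 0) →
      mfderiv (𝓡 d) (𝓡 m) f x v = 0)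
    {ζ : Form d X 2} (hζ : IsSmooth ζ)
    (hcomp : ∀ z ∈ D, ∃ (β : Form d X 1) (ρ : Form d X 2), IsSmooth β ∧ IsSmooth ρ ∧ IsD β ρ ∧
      (∀ x ∈ connectedComponentIn (D ∩ f ⁻¹' {f z}) z, ∀ a, P x a → P x ((ζ + ρ) x + a)) ∧
      ∀ w, w ∈ {x | x ∈ connectedComponentIn (D ∩ f ⁻¹' {f z}) z ∧ ¬ P x ((ζ + ρ) x)} →
        ThinP P (connectedComponentIn
          {x | x ∈ connectedComponentIn (D ∩ f ⁻¹' {f z}) z ∧ ¬ P x ((ζ + ρ) x)} w) w) :
    ∃ (β : Form d X 1) (ρ : Form d X 2), IsSmooth β ∧ IsSmooth ρ ∧ IsD β ρ ∧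
      ∀ x ∈ D, P x ((ζ + ρ) x) := by
  refine hP.glue hD ζ ?_
  intro z hz
  obtain ⟨β, ρ, hβ, hρ, hβρ, hnn, hthin⟩ := hcomp z hz
  have hFc : IsClosed (D ∩ f ⁻¹' {f z}) :=
    hD.inter (isClosed_singleton.preimage hf.continuous)
  have hCc : IsCompact (connectedComponentIn (D ∩ f ⁻¹' {f z}) z) :=
    compact_comp' hFc.isCompact ⟨hz, rfl⟩
  have hCD : connectedComponentIn (D ∩ f ⁻¹' {f z}) z ⊆ D :=
    (connectedComponentIn_subset _ _).trans inter_subset_left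
  set C := connectedComponentIn (D ∩ f ⁻¹' {f z}) z with hC
  have hθ : IsSmooth (ζ + ρ) := hζ.add hρ
  have hD2 : IsClosed {x | x ∈ C ∧ ¬ P x ((ζ + ρ) x)} := hP.closed hθ hCc.isClosed hCD
  have hD2D : {x | x ∈ C ∧ ¬ P x ((ζ + ρ) x)} ⊆ D := fun x hx => hCD hx.1
  obtain ⟨β', ρ', hβ', hρ', hβρ', hpos'⟩ := (hP.mono hD2D).level2 hD2 hthin
  obtain ⟨ε, hε, ht⟩ := unif hCc
    (fun ε x => x ∈ C → ∀ ε' : ℝ, 0 < ε' → ε' ≤ ε → P x ((ζ + ρ + ε' • ρ') x))
    (fun ε ε' y hle hp hy ε'' h0 h1 => hp hy ε'' h0 (h1.trans hle))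
    (by
      intro x hx
      by_cases hPx : P x ((ζ + ρ) x)
      · obtain ⟨ε, hε, he⟩ := hP.pert Unit (ζ + ρ) (fun _ => ρ') hθ (fun _ => hρ') x (hCD hx) hPx
        refine ⟨ε, hε, ?_⟩
        filter_upwards [he] with y hy hyC ε' h0 h1
        have := hy (hCD hyC) (fun _ => ε') (fun _ => by rw [abs_of_pos h0]; exact h1)
        rwa [Fintype.sum_unique] at this
      · have hx2 := hpos' x ⟨hx, hPx⟩
        refine ⟨1, one_pos, ?_⟩
        filter_upwards [hP.nhds hρ' (hCD hx) hx2] with y hy hyC ε' h0 _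
        have h1 := hP.smul y (hCD hyC) ε' _ h0 (hy (hCD hyC))
        exact hnn y hyC _ h1)
  have hθ1 : IsSmooth (ζ + (ρ + ε • ρ')) := hζ.add (hρ.add (hρ'.smul ε))
  have hU : IsOpen {x | ∀ᶠ y in 𝓝 x, y ∈ D → P y ((ζ + (ρ + ε • ρ')) y)} :=
    isOpen_setOfPred_eventually_nhds
  have hCU : C ⊆ {x | ∀ᶠ y in 𝓝 x, y ∈ D → P y ((ζ + (ρ + ε • ρ')) y)} := by
    intro x hx
    refine hP.nhds hθ1 (hCD hx) ?_
    have := ht x hx hx ε hε le_rfl
    rwa [add_assoc] at this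
  obtain ⟨u, hu, hu0, huz, huU, hud⟩ := sepfun (d := d) hf hD.isCompact hz hU hCU
  exact ⟨u, β + ε • β', ρ + ε • ρ', ⟨hu, fun x hx v hv => hud x hx v (hker x hx v hv)⟩, hu0, huz,
    hβ.add (hβ'.smul ε), hρ.add (hρ'.smul ε), hβρ.add (hβρ'.smul ε) hβ (hβ'.smul ε),
    fun x hx hux => (huU x hx hux).self_of_nhds hx⟩

end

end Pool.Agent.R772
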