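import Pool.Agent.R772.Seg
import Pool.Agent.R772.Small

/-!
Closed two-forms which are weakly taming near their degenerate points: the main theorem.
-/

set_option autoImplicit false

open Set Filter Topology MeasureTheory
open scoped Manifold ContDiff

noncomputable section

namespace Pool.Agent.R772

open Pool.Agent.Y501.SY
open Pool.Agent.Y455.SY (Q A B BA A_surj Q_eq Q_smul Q_cont Q_sum)
open Pool.Agent.Y108.SY (A_ne Q_cont')

section

variable {d : ℕ} {X : Type} [TopologicalSpace X] [ChartedSpace (E d) X]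
  [IsManifold (𝓡 d) ∞ X]

/-- the main theorem for fields of cones, with a second field of cones at the second level -/
theorem IsCone.main2 [CompactSpace X] [T2Space X] {σ : Form d X 2} {D : Set X}
    {P : PField d X} (hP : IsCone σ D P) (hD : IsClosed D)
    {m : ℕ} {Y : Type} [TopologicalSpace Y] [ChartedSpace (E m) Y] [IsManifold (𝓡 m) ∞ Y]
    [T2Space Y] {f : X → Y} (hf : ContMDiff (𝓡 d) (𝓡 m) ∞ f)
    (hker : ∀ x ∈ D, ∀ v : TangentSpace (𝓡 d) x, (∀ w, σ x ![v, w] = 0) →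
      mfderiv (𝓡 d) (𝓡 m) f x v = 0)
    {ζ : Form d X 2} (hζ : IsSmooth ζ)
    (hcomp : ∀ z ∈ D, ∃ (β : Form d X 1) (ρ : Form d X 2) (P₂ : PField d X),
      IsSmooth β ∧ IsSmooth ρ ∧ IsD β ρ ∧
      IsCone σ {x | x ∈ connectedComponentIn (D ∩ f ⁻¹' {f z}) z ∧ ¬ P x ((ζ + ρ) x)} P₂ ∧
      (∀ η : Form d X 2, IsSmooth η → ∀ x ∈ connectedComponentIn (D ∩ f ⁻¹' {f z}) z,
        (¬ P x ((ζ + ρ) x) → P₂ x (η x)) →
        ∃ ε : ℝ, 0 < ε ∧ ∀ᶠ y in 𝓝 x, y ∈ connectedComponentIn (D ∩ f ⁻¹' {f z}) z →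
          ∀ ε' : ℝ, 0 < ε' → ε' ≤ ε → P y ((ζ + ρ + ε' • η) y)) ∧
      ∀ w, w ∈ {x | x ∈ connectedComponentIn (D ∩ f ⁻¹' {f z}) z ∧ ¬ P x ((ζ + ρ) x)} →
        ThinP P₂ (connectedComponentIn
          {x | x ∈ connectedComponentIn (D ∩ f ⁻¹' {f z}) z ∧ ¬ P x ((ζ + ρ) x)} w) w) :
    ∃ (β : Form d X 1) (ρ : Form d X 2), IsSmooth β ∧ IsSmooth ρ ∧ IsD β ρ ∧
      ∀ x ∈ D, P x ((ζ + ρ) x) := by
  refine hP.glue hD ζ ?_
  intro z hz
  obtain ⟨β, ρ, P₂, hβ, hρ, hβρ, hP2, hlex, hthin⟩ := hcomp z hz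
  have hFc : IsClosed (D ∩ f ⁻¹' {f z}) :=
    hD.inter (isClosed_singleton.preimage hf.continuous)
  have hCc : IsCompact (connectedComponentIn (D ∩ f ⁻¹' {f z}) z) :=
    compact_comp' hFc.isCompact ⟨hz, rfl⟩
  have hCD : connectedComponentIn (D ∩ f ⁻¹' {f z}) z ⊆ D :=
    (connectedComponentIn_subset _ _).trans inter_subset_left
  set C := connectedComponentIn (D ∩ f ⁻¹' {f z}) z with hC
  have hθ : IsSmooth (ζ + ρ) := hζ.add hρ
  have hD2 : IsClosed {x | x ∈ C ∧ ¬ P x ((ζ + ρ) x)} := hP.closed hθ hCc.isClosed hCD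
  obtain ⟨β', ρ', hβ', hρ', hβρ', hpos'⟩ := hP2.level2 hD2 hthin
  obtain ⟨ε, hε, ht⟩ := unif hCc
    (fun ε x => x ∈ C → ∀ ε' : ℝ, 0 < ε' → ε' ≤ ε → P x ((ζ + ρ + ε' • ρ') x))
    (fun ε ε' y hle hp hy ε'' h0 h1 => hp hy ε'' h0 (h1.trans hle))
    (fun x hx => hlex ρ' hρ' x hx fun hPx => hpos' x ⟨hx, hPx⟩)
  have hθ1 : IsSmooth (ζ + (ρ + ε • ρ')) := hζ.add (hρ.add (hρ'.smul ε))
  have hU : IsOpen {x | ∀ᶠ y in 𝓝 x, y ∈ D → P y ((ζ + (ρ + ε • ρ')) y)} :=
    isOpen_setOfPred_eventually_nhds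
  have hCU : C ⊆ {x | ∀ᶠ y in 𝓝 x, y ∈ D → P y ((ζ + (ρ + ε • ρ')) y)} := by
    intro x hx
    refine hP.nhds hθ1 (hCD hx) ?_
    have := ht x hx hx ε hε le_rfl
    rwa [add_assoc] at this
  obtain ⟨u, hu, hu0, huz, huU, hud⟩ := sepfun (d := d) hf hD.isCompact hz hU hCU
  exact ⟨u, β + ε • β', ρ + ε • ρ', ⟨hu, fun x hx v hv => hud x hx v (hker x hx v hv)⟩, hu0, huz,
    hβ.add (hβ'.smul ε), hρ.add (hρ'.smul ε), hβρ.add (hβρ'.smul ε) hβ (hβ'.smul ε),
    fun x hx hux => (huU x hx hux).self_of_nhds hx⟩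

/-- positivity on the vectors of the kernel of `σ` which are null for `θ` -/
def PJ2 (σ θ : Form d X 2) (J : End d X) : PField d X := fun x a =>
  ∀ v : TangentSpace (𝓡 d) x, v ≠ 0 → (∀ w, σ x ![v, w] = 0) → θ x ![v, J x v] = 0 →
    0 < a ![v, J x v]

theorem PJ2_chart (σ θ τ : Form d X 2) (J : End d X) (x : X) {p : E d}
    (hp : p ∈ (chartAt (E d) x).target) :
    PJ2 σ θ J ((chartAt (E d) x).symm p) (τ ((chartAt (E d) x).symm p)) ↔
      ∀ v : E d, v ≠ 0 → (∀ w, C2 σ x p v w = 0) → Q θ J x p v = 0 → 0 < Q τ J x p v := by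
  constructor
  · intro h v hv h1 h2
    rw [Q_eq _ J x hp] at h2 ⊢
    exact h _ (A_ne hp hv) ((ker_chart σ x hp v).2 h1) h2
  · intro h v hv h1 h2
    obtain ⟨w, hw⟩ := A_surj x hp v
    have h3 := h w (by
      rintro rfl
      apply hv
      rw [← hw, map_zero]
      rfl) ((ker_chart σ x hp w).1 (by rw [hw]; exact h1))
    rw [Q_eq τ J x hp, Q_eq θ J x hp, hw] at h3
    exact h3 h2

theorem isCone_PJ2 {J : End d X} {σ θ : Form d X 2} {D : Set X} (hJ : ∀ x ∈ D, ACat J x)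
    (hσ : IsSmooth σ) (hθ : IsSmooth θ) (hw : ∀ x ∈ D, WT σ J x) : IsCone σ D (PJ2 σ θ J) := by
  refine ⟨fun x _ a b ha hb v hv h h' => ?_, fun x _ c a hc ha v hv h h' => ?_, ?_, ?_⟩
  · exact add_pos (ha v hv h h') (hb v hv h h')
  · exact mul_pos hc (ha v hv h h')
  · intro κ _ τ η hτ hη x hxD hx
    have hJx := (hJ x hxD).cont
    classical
    set c := chartAt (E d) x with hc
    have hcx : c x ∈ c.target := mem_chart_target (E d) x
    have hx' : ∀ v : E d, v ≠ 0 → (∀ w, C2 σ x (c x) v w = 0) → Q θ J x (c x) v = 0 →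
        0 < Q τ J x (c x) v := by
      rw [← PJ2_chart σ θ τ J x hcx, c.left_inv (mem_chart_source (E d) x)]
      exact hx
    set G : (E d × (κ → ℝ)) → E d → ℝ := fun z v => Q τ J x z.1 v +
      ∑ k, z.2 k * Q (η k) J x z.1 v with hG
    have key : ∀ᶠ z : E d × (κ → ℝ) in 𝓝 (c x, 0), ∀ v ∈ Metric.sphere (0 : E d) 1,
        ((∀ w, C2 σ x z.1 v w = 0) → Q θ J x z.1 v = 0 → 0 < G z v) := by
      refine IsCompact.eventually_forall_of_forall_eventually
        (P := fun (z : E d × (κ → ℝ)) (v : E d) =>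
          (∀ w, C2 σ x z.1 v w = 0) → Q θ J x z.1 v = 0 → 0 < G z v) (isCompact_sphere _ _) ?_
      intro v hv
      have hv0 : v ≠ 0 := by
        rintro rfl
        simp at hv
      by_cases h1 : ∀ w, C2 σ x (c x) v w = 0
      · by_cases h2 : Q θ J x (c x) v = 0
        · have hcont : ContinuousAt (fun w : (E d × (κ → ℝ)) × E d => G w.1 w.2)
              ((c x, 0), v) := by
            refine (Q_contL' hτ hJx 0).add ?_
            refine tendsto_finsetSum _ fun k _ => ?_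
            have h3 : ContinuousAt (fun w : (E d × (κ → ℝ)) × E d => w.1.2 k)
                ((c x, 0), v) := by
              fun_prop
            exact h3.mul (Q_contL' (hη k) hJx 0)
          have hpos : 0 < G (c x, 0) v := by
            simp only [hG, Pi.zero_apply, zero_mul, Finset.sum_const_zero, add_zero]
            exact hx' v hv0 h1 h2
          filter_upwards [hcont.eventually (lt_mem_nhds hpos)] with w hw _ _
          exact hw
        · have h3 := (Q_contL' (v := v) hθ hJx (0 : κ → ℝ)).eventually_ne h2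
          filter_upwards [h3] with w hw _ hw'
          exact absurd hw' hw
      · push Not at h1
        obtain ⟨w₀, hw₀⟩ := h1
        have h3 := (C2_cont (v := v) hσ x hcx (0 : κ → ℝ) w₀).eventually_ne hw₀
        filter_upwards [h3] with w hw hw'
        exact absurd (hw' w₀) hw
    rw [nhds_prod_eq, eventually_prod_iff] at key
    obtain ⟨pa, hpa, pb', hpb, hP⟩ := key
    rw [Metric.eventually_nhds_iff] at hpb
    obtain ⟨δ, hδ, hpb⟩ := hpb
    refine ⟨δ / 2, by positivity, ?_⟩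
    have h1 : ∀ᶠ y in 𝓝 x, pa (c y) :=
      (c.continuousAt (mem_chart_source (E d) x)).eventually hpa
    have h2 : ∀ᶠ y in 𝓝 x, y ∈ c.source := c.open_source.mem_nhds (mem_chart_source (E d) x)
    filter_upwards [h1, h2] with y hy hys _ t ht
    have hcy : c y ∈ c.target := c.map_source hys
    rw [← c.left_inv hys, PJ2_chart _ _ _ J x hcy]
    intro v hv hvk hvθ
    have e : v = ‖v‖ • (‖v‖⁻¹ • v) := by
      rw [smul_smul, mul_inv_cancel₀ (norm_ne_zero_iff.2 hv), one_smul]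
    rw [e, Q_smul]
    refine mul_pos (pow_pos (norm_pos_iff.2 hv) 2) ?_
    rw [Q_sum]
    refine hP hy (hpb ?_) (‖v‖⁻¹ • v) ?_ (fun w => by rw [C2_smul, hvk, mul_zero])
      (by rw [Q_smul, hvθ, mul_zero])
    · rw [dist_zero_right]
      have h3 : ‖t‖ ≤ δ / 2 := by
        rw [pi_norm_le_iff_of_nonneg (by positivity)]
        exact ht
      linarith
    · rw [mem_sphere_zero_iff_norm, norm_smul, norm_inv, norm_norm,
        inv_mul_cancel₀ (norm_ne_zero_iff.2 hv)]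
  · intro x hx a b l c hl hb ha v hv hk hθv
    have h1 : (a + b) ![v, J x v] = a ![v, J x v] + b ![v, J x v] := rfl
    have h2 := (hw x hx).ker hk
    rw [h1, hb, hl v hk, hl (J x v) h2]
    have := ha v hv hk hθv
    linarith

/-- lexicographic positivity -/
theorem lex_PJ {J : End d X} {σ θ η : Form d X 2} (hσ : IsSmooth σ)
    (hθ : IsSmooth θ) (hη : IsSmooth η) {C : Set X}
    (hnn : ∀ x ∈ C, ∀ v : TangentSpace (𝓡 d) x, (∀ w, σ x ![v, w] = 0) → 0 ≤ θ x ![v, J x v])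
    (x : X) (hJ : ACat J x) (hxC : x ∈ C) (hx : ¬ PJ σ J x (θ x) → PJ2 σ θ J x (η x)) :
    ∃ ε : ℝ, 0 < ε ∧ ∀ᶠ y in 𝓝 x, y ∈ C → ∀ ε' : ℝ, 0 < ε' → ε' ≤ ε →
      PJ σ J y ((θ + ε' • η) y) := by
  have hJx := hJ.cont
  classical
  set c := chartAt (E d) x with hc
  have hxs : x ∈ c.source := mem_chart_source (E d) x
  have hcx : c x ∈ c.target := mem_chart_target (E d) x
  have hC' : ∀ p ∈ c.target, c.symm p ∈ C → ∀ v : E d, (∀ w, C2 σ x p v w = 0) →
      0 ≤ Q θ J x p v := by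
    intro p hp hpC v h1
    rw [Q_eq _ J x hp]
    exact hnn _ hpC _ ((ker_chart σ x hp v).2 h1)
  have hx' : ∀ v : E d, v ≠ 0 → (∀ w, C2 σ x (c x) v w = 0) → Q θ J x (c x) v = 0 →
      0 < Q η J x (c x) v := by
    intro v hv h1 h2
    by_cases hP : PJ σ J x (θ x)
    · have h3 : PJ σ J (c.symm (c x)) (θ (c.symm (c x))) := by rw [c.left_inv hxs]; exact hP
      have h4 := (PJ_chart σ θ J x hcx).1 h3 v hv h1
      rw [h2] at h4
      exact absurd h4 (lt_irrefl _)
    · have h3 : PJ2 σ θ J (c.symm (c x)) (η (c.symm (c x))) := by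
        rw [c.left_inv hxs]; exact hx hP
      exact (PJ2_chart σ θ η J x hcx).1 h3 v hv h1 h2
  set G : (E d × ℝ) → E d → ℝ := fun z v => Q θ J x z.1 v + z.2 * Q η J x z.1 v with hG
  have key : ∀ᶠ z : E d × ℝ in 𝓝 (c x, 0), ∀ v ∈ Metric.sphere (0 : E d) 1,
      (c.symm z.1 ∈ C → 0 < z.2 → (∀ w, C2 σ x z.1 v w = 0) → 0 < G z v) := by
    refine IsCompact.eventually_forall_of_forall_eventually
      (P := fun (z : E d × ℝ) (v : E d) =>
        c.symm z.1 ∈ C → 0 < z.2 → (∀ w, C2 σ x z.1 v w = 0) → 0 < G z v)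
      (isCompact_sphere _ _) ?_
    intro v hv
    have hv0 : v ≠ 0 := by
      rintro rfl
      simp at hv
    have h4 : ∀ᶠ w : (E d × ℝ) × E d in 𝓝 ((c x, 0), v), w.1.1 ∈ c.target := by
      have h5 : ContinuousAt (fun w : (E d × ℝ) × E d => w.1.1) ((c x, 0), v) := by fun_prop
      exact h5.eventually (c.open_target.mem_nhds hcx)
    by_cases h1 : ∀ w, C2 σ x (c x) v w = 0
    · rcases lt_trichotomy (Q θ J x (c x) v) 0 with h2 | h2 | h2
      · have h3 : 0 ≤ Q θ J x (c x) v := hC' _ hcx (by rw [c.left_inv hxs]; exact hxC) v h1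
        exact absurd h3 (not_le.2 h2)
      · have hpos := hx' v hv0 h1 h2
        have h3 := (Q_contL' (v := v) hη hJx (0 : ℝ)).eventually (lt_mem_nhds hpos)
        filter_upwards [h3, h4] with w hw hw' hwC hpos' hwσ
        have h6 := hC' _ hw' hwC w.2 hwσ
        have h7 := mul_pos hpos' hw
        simp only [hG]
        linarith
      · have hcont : ContinuousAt (fun w : (E d × ℝ) × E d => G w.1 w.2) ((c x, 0), v) := by
          refine (Q_contL' hθ hJx 0).add ?_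
          have h3 : ContinuousAt (fun w : (E d × ℝ) × E d => w.1.2) ((c x, 0), v) := by
            fun_prop
          exact h3.mul (Q_contL' hη hJx 0)
        have hpos : 0 < G (c x, 0) v := by
          simp only [hG, zero_mul, add_zero]
          exact h2
        filter_upwards [hcont.eventually (lt_mem_nhds hpos)] with w hw _ _ _
        exact hw
    · push Not at h1
      obtain ⟨w₀, hw₀⟩ := h1
      have h3 := (C2_cont (v := v) hσ x hcx (0 : ℝ) w₀).eventually_ne hw₀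
      filter_upwards [h3] with w hw _ _ hw'
      exact absurd (hw' w₀) hw
  rw [nhds_prod_eq, eventually_prod_iff] at key
  obtain ⟨pa, hpa, pb', hpb, hP⟩ := key
  rw [Metric.eventually_nhds_iff] at hpb
  obtain ⟨δ, hδ, hpb⟩ := hpb
  refine ⟨δ / 2, by positivity, ?_⟩
  have h1 : ∀ᶠ y in 𝓝 x, pa (c y) := (c.continuousAt hxs).eventually hpa
  have h2 : ∀ᶠ y in 𝓝 x, y ∈ c.source := c.open_source.mem_nhds hxs
  filter_upwards [h1, h2] with y hy hys hyC ε hε hεδ
  have hcy : c y ∈ c.target := c.map_source hys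
  have hleft : c.symm (c y) = y := c.left_inv hys
  have hfin : ∀ z : X, z = y → PJ σ J z ((θ + ε • η) z) := by
    intro z hz
    have hz' : z = c.symm (c y) := hz.trans hleft.symm
    subst hz'
    rw [PJ_chart _ _ J x hcy]
    intro v hv hvk
    have e : v = ‖v‖ • (‖v‖⁻¹ • v) := by
      rw [smul_smul, mul_inv_cancel₀ (norm_ne_zero_iff.2 hv), one_smul]
    rw [e, Q_smul]
    refine mul_pos (pow_pos (norm_pos_iff.2 hv) 2) ?_
    have h3 : Q (θ + ε • η) J x (c y) (‖v‖⁻¹ • v) =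
        Q θ J x (c y) (‖v‖⁻¹ • v) + ε * Q η J x (c y) (‖v‖⁻¹ • v) := by
      have h4 := Q_sum (κ := Unit) θ (fun _ => η) (fun _ => ε) J x (c y) (‖v‖⁻¹ • v)
      simpa using h4
    rw [h3]
    refine hP hy (hpb ?_) (‖v‖⁻¹ • v) ?_ (by rw [hleft]; exact hyC) hε
      (fun w => by rw [C2_smul, hvk, mul_zero])
    · rw [dist_zero_right, Real.norm_eq_abs, abs_of_pos hε]
      linarith
    · rw [mem_sphere_zero_iff_norm, norm_smul, norm_inv, norm_norm,
        inv_mul_cancel₀ (norm_ne_zero_iff.2 hv)]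
  exact hfin y rfl

end

end Pool.Agent.R772
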