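import Pool.Agent.R772.MainC

/-!
Closed two-forms `σ` with `σ ^ (m + 1)` nonnegative and corank at most two.
-/

set_option autoImplicit false

open Set Filter Topology MeasureTheory
open scoped Manifold ContDiff

noncomputable section

namespace Pool.Agent.R772

open Pool.Agent.Y501.SY

section

variable {d m : ℕ} {X : Type} [TopologicalSpace X] [ChartedSpace (E d) X]

/-- `σ ^ (m + 1)` is nonnegative at `x` -/
def NonnegTop (vol : Top d m X) (σ : Form d X 2) (x : X) : Prop :=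
  ∀ e : Fin (m + 1) × Fin 2 → TangentSpace (𝓡 d) x, 0 < vol x e →
    0 ≤ wedge (fun _ : Fin (m + 1) => σ x) e

/-- `σ ^ m ∧ η` is nonnegative at `x` -/
def LinNonneg (vol : Top d m X) (σ η : Form d X 2) (x : X) : Prop :=
  ∀ e : Fin (m + 1) × Fin 2 → TangentSpace (𝓡 d) x, 0 < vol x e →
    0 ≤ wedge (Fin.cons (η x) (fun _ : Fin m => σ x)) e

/-- the cone of the forms `a` with `σ ^ m ∧ a` positive -/
def PK (vol : Top d m X) (σ : Form d X 2) : PField d X := fun x a =>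
  ∀ e : Fin (m + 1) × Fin 2 → TangentSpace (𝓡 d) x, 0 < vol x e →
    0 < wedge (Fin.cons a (fun _ : Fin m => σ x)) e

theorem finrank_tangent (hd : d = 2 * (m + 1)) (x : X) :
    Module.finrank ℝ (TangentSpace (𝓡 d) x) = 2 * (m + 1) := by
  change Module.finrank ℝ (EuclideanSpace ℝ (Fin d)) = _
  rw [finrank_euclideanSpace, Fintype.card_fin, hd]

theorem fin_tangent (x : X) : FiniteDimensional ℝ (TangentSpace (𝓡 d) x) :=
  inferInstanceAs (FiniteDimensional ℝ (EuclideanSpace ℝ (Fin d)))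

theorem IsVol.frame {vol : Top d m X} (hvol : IsVol vol) (x : X) :
    ∃ f : Fin (m + 1) × Fin 2 → TangentSpace (𝓡 d) x, 0 < vol x f := by
  obtain ⟨f₀, hf₀⟩ := hvol.ne x
  rcases lt_or_gt_of_ne hf₀ with h | h
  · refine ⟨Function.update f₀ (0, 0) (-(f₀ (0, 0))), ?_⟩
    have h5 := (vol x).map_update_neg f₀ (0, 0) (f₀ (0, 0))
    rw [Function.update_eq_self] at h5
    refine lt_of_lt_of_eq (neg_pos.2 h) ?_
    exact h5.symm
  · exact ⟨f₀, h⟩

/-- the top power vanishes at the degenerate points -/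
theorem top_zero (hd : d = 2 * (m + 1)) {vol : Top d m X} {σ : Form d X 2} {x : X}
    (hnn : NonnegTop vol σ x) (hx : ¬ PosTop vol σ x)
    (e : Fin (m + 1) × Fin 2 → TangentSpace (𝓡 d) x) :
    wedge (fun _ : Fin (m + 1) => σ x) e = 0 := by
  unfold PosTop at hx
  push Not at hx
  obtain ⟨f, hf, hf0⟩ := hx
  have h1 : wedge (fun _ : Fin (m + 1) => σ x) f = 0 := le_antisymm hf0 (hnn f hf)
  have hfd := fin_tangent (d := d) x
  have h2 := wedge_mul (finrank_tangent hd x) (fun _ : Fin (m + 1) => σ x)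
    (vol x).toAlternatingMap e f
  have h3 : wedge (fun _ : Fin (m + 1) => σ x) e * vol x f =
      wedge (fun _ : Fin (m + 1) => σ x) f * vol x e := h2
  rw [h1, zero_mul] at h3
  rcases mul_eq_zero.1 h3 with h | h
  · exact h
  · exact absurd h hf.ne'

variable [IsManifold (𝓡 d) ∞ X]

theorem PosTop.nhds (hd : d = 2 * (m + 1)) {vol : Top d m X} (hvol : IsVol vol)
    {σ : Form d X 2} (hσ : IsSmooth σ) {x : X}
    (h : PosTop vol σ x) : ∀ᶠ y in 𝓝 x, PosTop vol σ y := by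
  obtain ⟨ε, hε, hp⟩ := PosTop.pert hd hvol hσ (IsSmooth.zero (d := d) (X := X) (k := 2)) h
  filter_upwards [hp] with y hy
  have := hy 0 (by rw [abs_zero]; exact hε.le)
  simpa using this

theorem isCone_PK (hd : d = 2 * (m + 1)) {vol : Top d m X} (hvol : IsVol vol)
    {σ : Form d X 2} (hσ : IsSmooth σ) (hnn : ∀ x, NonnegTop vol σ x) :
    IsCone σ {x | ¬ PosTop vol σ x} (PK vol σ) := by
  refine ⟨fun x _ a b ha hb e he => ?_, fun x _ c a hc ha e he => ?_, ?_, ?_⟩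
  · rw [wedge_cons_add]
    exact add_pos (ha e he) (hb e he)
  · rw [wedge_cons_smul]
    exact mul_pos hc (ha e he)
  · intro κ _ η θ hη hθ x _ hx
    obtain ⟨ε, hε, h⟩ := LinPos.pert (m := m) hd hvol hσ hη hθ (x := x) hx
    exact ⟨ε, hε, h.mono fun y hy _ t ht => hy t ht⟩
  · intro x hx a b l c hl hb ha e he
    rw [wedge_cons_add]
    have hfd := fin_tangent (d := d) x
    obtain ⟨w, hw⟩ := exists_dual (σ x) (l : TangentSpace (𝓡 d) x →ₗ[ℝ] ℝ) hl
    have h1 := wedge_rank (m := m) (σ x) b (top_zero hd (hnn x) hx) c w (by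
      intro u v
      rw [hb, ← hw, ← hw]
      rfl) e
    rw [h1, add_zero]
    exact ha e he

theorem mainK [CompactSpace X] [T2Space X] (hd : d = 2 * (m + 1)) {vol : Top d m X}
    (hvol : IsVol vol) {σ ζ : Form d X 2} (hσ : IsSmooth σ) (hσc : IsClosedForm σ)
    (hζ : IsSmooth ζ) (hζc : IsClosedForm ζ) (hnn : ∀ x, NonnegTop vol σ x)
    {p : ℕ} {Y : Type} [TopologicalSpace Y] [ChartedSpace (E p) Y] [IsManifold (𝓡 p) ∞ Y]
    [T2Space Y] {f : X → Y} (hf : ContMDiff (𝓡 d) (𝓡 p) ∞ f)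
    (hker : ∀ x, ¬ PosTop vol σ x → ∀ v : TangentSpace (𝓡 d) x, (∀ w, σ x ![v, w] = 0) →
      mfderiv (𝓡 d) (𝓡 p) f x v = 0)
    (hcomp : ∀ z, ¬ PosTop vol σ z → ∃ (β : Form d X 1) (ρ : Form d X 2), IsSmooth β ∧
      IsSmooth ρ ∧ IsD β ρ ∧
      (∀ x ∈ connectedComponentIn ({x | ¬ PosTop vol σ x} ∩ f ⁻¹' {f z}) z,
        LinNonneg vol σ (ζ + ρ) x) ∧
      ∀ w, w ∈ {x | x ∈ connectedComponentIn ({x | ¬ PosTop vol σ x} ∩ f ⁻¹' {f z}) z ∧
        ¬ LinPos vol σ (ζ + ρ) x} →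
        ThinP (PK vol σ) (connectedComponentIn
          {x | x ∈ connectedComponentIn ({x | ¬ PosTop vol σ x} ∩ f ⁻¹' {f z}) z ∧
            ¬ LinPos vol σ (ζ + ρ) x} w) w) :
    ∃ (β : Form d X 1) (ρ : Form d X 2), IsSmooth β ∧ IsSmooth ρ ∧ IsD β ρ ∧
      ∃ t₀ : ℝ, 0 < t₀ ∧ ∀ t : ℝ, 0 < t → t ≤ t₀ →
        IsSmooth (σ + t • (ζ + ρ)) ∧ IsClosedForm (σ + t • (ζ + ρ)) ∧
        ∀ x, PosTop vol (σ + t • (ζ + ρ)) x := by
  have hC := isCone_PK hd hvol hσ hnn
  have hD : IsClosed {x | ¬ PosTop vol σ x} := by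
    have : IsOpen {x | PosTop vol σ x} := by
      rw [isOpen_iff_eventually]
      intro x hx
      exact PosTop.nhds hd hvol hσ hx
    exact this.isClosed_compl
  obtain ⟨β, ρ, h1, h2, h3, h4⟩ := hC.main hD hf hker hζ (by
    intro z hz
    obtain ⟨β, ρ, g1, g2, g3, g4, g5⟩ := hcomp z hz
    refine ⟨β, ρ, g1, g2, g3, fun x hx a ha e he => ?_, g5⟩
    rw [wedge_cons_add]
    exact add_pos_of_nonneg_of_pos (g4 x hx e he) (ha e he))
  have hζρ : IsSmooth (ζ + ρ) := hζ.add h2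
  have hcl : IsClosedForm (ζ + ρ) := by
    have h5 := hζc.add (prod_closed h1 h2 h3) hζ h2
    rwa [add_zero] at h5
  obtain ⟨t₀, ht₀, ht⟩ := unif isCompact_univ
    (fun ε y => ∀ t : ℝ, 0 < t → t ≤ ε → PosTop vol (σ + t • (ζ + ρ)) y)
    (fun ε ε' y hle hp t h0 h1 => hp t h0 (h1.trans hle))
    (by
      intro x _
      by_cases hx : PosTop vol σ x
      · obtain ⟨ε, hε, he⟩ := PosTop.pert hd hvol hσ hζρ hx
        exact ⟨ε, hε, he.mono fun y hy t h0 h1 => hy t (by rw [abs_of_pos h0]; exact h1)⟩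
      · exact LinPos.top hd hvol hσ hζρ hnn (h4 x hx))
  refine ⟨β, ρ, h1, h2, h3, t₀, ht₀, fun t h0 h1 => ⟨hσ.add (hζρ.smul t), ?_,
    fun x => ht x (mem_univ x) t h0 h1⟩⟩
  have h5 := hσc.add (hcl.smul t) hσ (hζρ.smul t)
  have h6 : (0 : Form d X 3) + t • (0 : Form d X 3) = 0 := by rw [smul_zero, add_zero]
  rw [h6] at h5
  exact h5

theorem PosTop.nondeg (hd : d = 2 * (m + 1)) {vol : Top d m X} (hvol : IsVol vol)
    {σ : Form d X 2} {x : X} (h : PosTop vol σ x) (v : TangentSpace (𝓡 d) x)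
    (hv : ∀ w, σ x ![v, w] = 0) : v = 0 := by
  obtain ⟨f, hf⟩ := hvol.frame x
  have hfd := fin_tangent (d := d) x
  exact wedge_ker (finrank_tangent hd x) _ f (h f hf).ne' v (fun _ => hv)

/-- planar null sets are thin where `σ ^ m ≠ 0` -/
theorem thinP_of_null [T2Space X] (hd : d = 2 * (m + 1)) {vol : Top d m X} (hvol : IsVol vol)
    {σ : Form d X 2} {C : Set X} {z : X}
    (hr : ∃ (τ : (TangentSpace (𝓡 d) z) [⋀^Fin 2]→L[ℝ] ℝ)
      (e : Fin (m + 1) × Fin 2 → TangentSpace (𝓡 d) z),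
      wedge (Fin.cons τ (fun _ : Fin m => σ z)) e ≠ 0)
    (hC : ∃ N ∈ 𝓝 z, PlanarNull d (C ∩ N)) : ThinP (PK vol σ) C z := by
  obtain ⟨g, B, hg, hB⟩ := LinPos.exists hd hvol z hr
  obtain ⟨N, hN, hnull⟩ := hC
  let q := (Fintype.equivFin (Fin d × Fin d)).symm
  have hgs : ∀ i, SmoothFun (d := d) (fun x => B (q i).1 (q i).2 * g (q i).1 x) := fun i =>
    (SmoothFun.const _).mul (hg _)
  refine ⟨Fintype.card (Fin d × Fin d), fun i x => B (q i).1 (q i).2 * g (q i).1 x,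
    fun i => g (q i).2, N, hN, hgs, fun i => hg _, fun i => hnull _ _ (hgs i) (hg _), ?_⟩
  intro e he
  have h1 := hB e he
  have h2 : (∑ i, dfdg (d := d) (fun x => B (q i).1 (q i).2 * g (q i).1 x) (g (q i).2) :
      Form d X 2) z = (∑ j, ∑ k, B j k • dfdg (d := d) (g j) (g k) : Form d X 2) z := by
    refine form_ext fun v w => ?_
    rw [sum_apply2, sum_apply2]
    have h3 : ∀ j, (∑ k, B j k • dfdg (d := d) (g j) (g k) : Form d X 2) z ![v, w] =
        ∑ k, B j k * (dd (g j) z v * dd (g k) z w - dd (g j) z w * dd (g k) z v) := by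
      intro j
      rw [sum_apply2]
      refine Finset.sum_congr rfl fun k _ => ?_
      rw [← dfdg_apply]
      rfl
    rw [Finset.sum_congr rfl fun j _ => h3 j, ← Fintype.sum_prod_type'
      (f := fun j k => B j k * (dd (d := d) (g j) z v * dd (g k) z w -
        dd (g j) z w * dd (g k) z v)),
      ← Equiv.sum_comp q]
    refine Finset.sum_congr rfl fun i _ => ?_
    rw [dfdg_apply, dd_mul (SmoothFun.const _) (hg _), dd_mul (SmoothFun.const _) (hg _),
      dd_const, dd_const]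
    ring
  rw [h2]
  exact h1

end

end Pool.Agent.R772
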