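import Pool.Agent.R772.DualK
import Pool.Agent.R772.Glu

/-!
Closed currents and small sets.
-/

set_option autoImplicit false

open Set Filter Topology MeasureTheory
open scoped Manifold ContDiff

noncomputable section

namespace Pool.Agent.R772

open Pool.Agent.Y501.SY

section

variable {d : ℕ} {X : Type} [TopologicalSpace X] [ChartedSpace (E d) X]

/-- the error forms -/
def errF {ι : Type} (c a b : ι → X → ℝ) (k : ι × Bool) : Form d X 2 :=
  if k.2 then hdfdg (fun _ => 1) (c k.1) (b k.1) else hdfdg (fun _ => 1) (c k.1) (a k.1)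

variable [IsManifold (𝓡 d) ∞ X]

theorem errF_smooth {ι : Type} {c a b : ι → X → ℝ} (hc : ∀ i, SmoothFun (d := d) (c i))
    (ha : ∀ i, SmoothFun (d := d) (a i)) (hb : ∀ i, SmoothFun (d := d) (b i)) (k : ι × Bool) :
    IsSmooth (errF (d := d) c a b k) := by
  have hG := Pool.Agent.Y484.SY.t_GEN
  rcases k with ⟨i, k⟩
  cases k
  · exact (hG d X (fun _ => 1) (c i) (a i) (SmoothFun.const 1) (hc i) (ha i)).2.1
  · exact (hG d X (fun _ => 1) (c i) (b i) (SmoothFun.const 1) (hc i) (hb i)).2.1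

omit [IsManifold (𝓡 d) ∞ X] in
/-- the form `∑ c da ∧ db` is uniformly approximated over `K` by exact forms, if the pairs
`(a, b)` map `K ∩ supp c` onto null sets -/
theorem approx {K : Set X} (hK : IsCompact K) {ι : Type} [Fintype ι]
    (c a b : ι → X → ℝ) (M : ι → Set X) (hM : ∀ i, IsClosed (M i))
    (hcM : ∀ i x, c i x ≠ 0 → x ∈ M i)
    (hc : ∀ i, SmoothFun (d := d) (c i)) (ha : ∀ i, SmoothFun (d := d) (a i))
    (hb : ∀ i, SmoothFun (d := d) (b i))
    (hnull : ∀ i, volume ((fun x => (a i x, b i x)) '' (K ∩ M i)) = 0) {ε : ℝ} (hε : 0 < ε) :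
    ∃ (α : Form d X 1) (η : Form d X 2) (t : X → ι × Bool → ℝ), Pair α η ∧
      (∀ x k, |t x k| ≤ ε) ∧
      ∀ x ∈ K, η x =
        ((∑ i, hdfdg (c i) (a i) (b i)) + ∑ k, t x k • errF c a b k : Form d X 2) x := by
  classical
  have hPl := Pool.Agent.Y925.SY.t_PLANAR
  have hcpt : ∀ i, IsCompact ((fun x => (a i x, b i x)) '' (K ∩ M i)) := fun i =>
    (hK.inter_right (hM i)).image ((ha i).continuous.prodMk (hb i).continuous)
  choose P1 Q hPs hQs hPε hQε hPQ using fun i => hPl _ (hcpt i) (hnull i) ε hε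
  have s1 : ∀ i, SmoothFun (d := d) (fun x => P1 i (a i x)) := fun i =>
    SmoothFun.comp1 (hPs i) (ha i)
  have s2 : ∀ i, SmoothFun (d := d) (fun x => Q i (a i x, b i x)) := fun i =>
    SmoothFun.comp2 (hQs i) (ha i) (hb i)
  have s1' : ∀ i, SmoothFun (d := d) (fun x => c i x * P1 i (a i x)) := fun i => (hc i).mul (s1 i)
  have s2' : ∀ i, SmoothFun (d := d) (fun x => c i x * Q i (a i x, b i x)) := fun i =>
    (hc i).mul (s2 i)
  have s2'' : ∀ i, SmoothFun (d := d) (fun x => (-1) * (c i x * Q i (a i x, b i x))) := fun i =>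
    (SmoothFun.const (-1)).mul (s2' i)
  refine ⟨∑ i, (fdg (fun x => c i x * P1 i (a i x)) (b i) +
      fdg (fun x => (-1) * (c i x * Q i (a i x, b i x))) (a i)),
    ∑ i, (dfdg (fun x => c i x * P1 i (a i x)) (b i) +
      dfdg (fun x => (-1) * (c i x * Q i (a i x, b i x))) (a i)),
    fun x k => if k.2 then P1 k.1 (a k.1 x) else - Q k.1 (a k.1 x, b k.1 x), ?_, ?_, ?_⟩
  · exact Pair.sum _ fun i _ => Pair.add _ _ _ _ (Pair.gen _ _ (s1' i) (hb i))
      (Pair.gen _ _ (s2'' i) (ha i))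
  · rintro x ⟨i, k⟩
    cases k
    · change |-Q i (a i x, b i x)| ≤ ε
      rw [abs_neg]; exact hQε i _
    · exact hPε i _
  · intro x hx
    let t : ι × Bool → ℝ := fun k => if k.2 then P1 k.1 (a k.1 x) else - Q k.1 (a k.1 x, b k.1 x)
    refine form_ext fun v w => ?_
    have h2 : ((∑ i, hdfdg (d := d) (c i) (a i) (b i)) + ∑ k, t k • errF c a b k :
        Form d X 2) x ![v, w] =
        (∑ i, hdfdg (d := d) (c i) (a i) (b i)) x ![v, w] +
          (∑ k, t k • errF c a b k : Form d X 2) x ![v, w] := rfl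
    refine Eq.trans ?_ h2.symm
    rw [sum_apply2, sum_apply2, sum_apply2, Fintype.sum_prod_type, ← Finset.sum_add_distrib]
    refine Finset.sum_congr rfl fun i _ => ?_
    rw [Fintype.sum_bool]
    have h3 : (t (i, true) • errF (d := d) c a b (i, true)) x ![v, w] =
        P1 i (a i x) * (hdfdg (d := d) (fun _ => 1) (c i) (b i) x ![v, w]) := rfl
    have h4 : (t (i, false) • errF (d := d) c a b (i, false)) x ![v, w] =
        (- Q i (a i x, b i x)) * (hdfdg (d := d) (fun _ => 1) (c i) (a i) x ![v, w]) := rfl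
    have h5 : (dfdg (d := d) (fun x => c i x * P1 i (a i x)) (b i) +
        dfdg (fun x => (-1) * (c i x * Q i (a i x, b i x))) (a i) : Form d X 2) x ![v, w] =
        dfdg (d := d) (fun x => c i x * P1 i (a i x)) (b i) x ![v, w] +
        dfdg (d := d) (fun x => (-1) * (c i x * Q i (a i x, b i x))) (a i) x ![v, w] := rfl
    rw [h3, h4, h5, hdfdg_apply, hdfdg_apply, hdfdg_apply, dfdg_apply, dfdg_apply,
      dd_mul (hc i) (s1 i), dd_mul (hc i) (s1 i), dd_comp1 (hPs i) (ha i),
      dd_comp1 (hPs i) (ha i), dd_mul (SmoothFun.const (-1)) (s2' i),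
      dd_mul (SmoothFun.const (-1)) (s2' i), dd_mul (hc i) (s2 i), dd_mul (hc i) (s2 i),
      dd_comp2 (hQs i) (ha i) (hb i), dd_comp2 (hQs i) (ha i) (hb i)]
    have h6 : ∀ w : TangentSpace (𝓡 d) x, dd (d := d) (fun _ : X => (-1 : ℝ)) x w = 0 := by
      intro w
      unfold dd
      rw [mfderiv_const]; rfl
    rw [h6, h6]
    have h7 : c i x * fderiv ℝ (Q i) (a i x, b i x) ((0, 1) : ℝ × ℝ) =
        c i x * (1 - deriv (P1 i) (a i x)) := by
      by_cases hcx : c i x = 0
      · rw [hcx, zero_mul, zero_mul]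
      · have h8 := hPQ i (a i x, b i x) ⟨x, ⟨hx, hcM i x hcx⟩, rfl⟩
        have h9 : fderiv ℝ (Q i) (a i x, b i x) ((0, 1) : ℝ × ℝ) = 1 - deriv (P1 i) (a i x) := by
          have h8' : deriv (P1 i) (a i x) +
            fderiv ℝ (Q i) (a i x, b i x) ((0, 1) : ℝ × ℝ) = 1 := h8
          linarith
        rw [h9]
    generalize fderiv ℝ (Q i) (a i x, b i x) ((0, 1) : ℝ × ℝ) = q at *
    generalize fderiv ℝ (Q i) (a i x, b i x) ((1, 0) : ℝ × ℝ) = r at *
    generalize dd (d := d) (a i) x v = av at *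
    generalize dd (d := d) (a i) x w = aJ at *
    generalize dd (d := d) (b i) x v = bv at *
    generalize dd (d := d) (b i) x w = bJ at *
    linear_combination ((av * bJ - aJ * bv)) * h7

end

section

variable {d m : ℕ} {X : Type} [TopologicalSpace X] [ChartedSpace (E d) X]

theorem md_congr {vol : Top d m X} {σ η θ : Form d X 2} {x : X} (h : η x = θ x) :
    md vol σ η x = md vol σ θ x := by
  unfold md
  rw [h]

theorem md_zero (hd : d = 2 * (m + 1)) {vol : Top d m X} (hvol : IsVol vol)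
    (σ : Form d X 2) (x : X) : md vol σ (0 : Form d X 2) x = 0 := by
  have h := md_smul hd hvol σ (0 : Form d X 2) 0 x
  rwa [zero_smul, zero_mul] at h

theorem md_sum (hd : d = 2 * (m + 1)) {vol : Top d m X} (hvol : IsVol vol)
    (σ : Form d X 2) {ι : Type} (s : Finset ι) (t : ι → ℝ) (e : ι → Form d X 2) (x : X) :
    md vol σ (∑ k ∈ s, t k • e k) x = ∑ k ∈ s, t k * md vol σ (e k) x := by
  classical
  induction s using Finset.induction_on with
  | empty => rw [Finset.sum_empty, Finset.sum_empty, md_zero hd hvol]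
  | insert a s ha ih =>
    rw [Finset.sum_insert ha, Finset.sum_insert ha, md_add hd hvol, md_smul hd hvol, ih]

variable [IsManifold (𝓡 d) ∞ X]

/-- a closed current carried by `C` and nonpositive on `ζ` -/
structure Carr [MeasurableSpace X] (vol : Top d m X) (σ ζ : Form d X 2) (C : Set X)
    (μ : Measure X) : Prop where
  fin : IsFiniteMeasure μ
  ne : μ ≠ 0
  car : μ Cᶜ = 0
  closed : ∀ ρ : Form d X 2, ExactF ρ → ∫ x, md vol σ ρ x ∂μ = 0
  le : ∫ x, md vol σ ζ x ∂μ ≤ 0

/-- closed currents do not see the small points of their carriers -/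
theorem thin_zero [CompactSpace X] [T2Space X] [MeasurableSpace X] [BorelSpace X]
    (hd : d = 2 * (m + 1)) {vol : Top d m X} (hvol : IsVol vol) {σ ζ : Form d X 2}
    (hσ : IsSmooth σ) {K : Set X} (hK : IsCompact K) {μ : Measure X} (hμ : Carr vol σ ζ K μ)
    {ι : Type} [Fintype ι] (c a b : ι → X → ℝ) (M : ι → Set X) (hM : ∀ i, IsClosed (M i))
    (hcM : ∀ i x, c i x ≠ 0 → x ∈ M i)
    (hc : ∀ i, SmoothFun (d := d) (c i)) (ha : ∀ i, SmoothFun (d := d) (a i))
    (hb : ∀ i, SmoothFun (d := d) (b i))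
    (hnull : ∀ i, volume ((fun x => (a i x, b i x)) '' (K ∩ M i)) = 0) :
    ∫ x, md vol σ (∑ i, hdfdg (c i) (a i) (b i)) x ∂μ = 0 := by
  have hfin := hμ.fin
  have hG := Pool.Agent.Y484.SY.t_GEN
  have hts : IsSmooth (∑ i, hdfdg (d := d) (c i) (a i) (b i)) :=
    IsSmooth.sum _ fun i _ => (hG d X (c i) (a i) (b i) (hc i) (ha i) (hb i)).2.1
  have hae : ∀ᵐ x ∂μ, x ∈ K := by
    have : ∀ᵐ x ∂μ, x ∉ Kᶜ := measure_eq_zero_iff_ae_notMem.1 hμ.car
    exact this.mono fun x hx => not_not.1 hx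
  have hes : ∀ k, Continuous (md vol σ (errF c a b k)) := fun k =>
    md_cont hd hvol hσ (errF_smooth hc ha hb k)
  have hE : Continuous fun x => ∑ k, |md vol σ (errF c a b k) x| :=
    continuous_finsetSum _ fun k _ => (hes k).abs
  have key : ∀ ε : ℝ, 0 < ε → |∫ x, md vol σ (∑ i, hdfdg (c i) (a i) (b i)) x ∂μ| ≤
      ε * ∫ x, ∑ k, |md vol σ (errF c a b k) x| ∂μ := by
    intro ε hε
    obtain ⟨α, η, t, hp, ht, hη⟩ := approx hK c a b M hM hcM hc ha hb hnull hε
    obtain ⟨p1, p2, p3, p4⟩ := Pair.props hG hp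
    have h0 := hμ.closed η ⟨α, p1, p2, p3⟩
    have h1 : ∫ x, md vol σ (∑ i, hdfdg (c i) (a i) (b i)) x ∂μ =
        ∫ x, (md vol σ (∑ i, hdfdg (c i) (a i) (b i)) x - md vol σ η x) ∂μ := by
      rw [integral_sub (integrable_of_cont (md_cont hd hvol hσ hts))
        (integrable_of_cont (md_cont hd hvol hσ p2)), h0, sub_zero]
    rw [h1, ← integral_const_mul]
    have hint : Integrable (fun x => ε * ∑ k, |md vol σ (errF c a b k) x|) μ :=
      integrable_of_cont (continuous_const.mul hE)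
    rw [← Real.norm_eq_abs]
    refine norm_integral_le_of_norm_le (μ := μ)
      (f := fun x => md vol σ (∑ i, hdfdg (c i) (a i) (b i)) x - md vol σ η x) hint ?_
    filter_upwards [hae] with x hx
    have h2 : md vol σ η x = md vol σ (∑ i, hdfdg (c i) (a i) (b i)) x +
        ∑ k, t x k * md vol σ (errF c a b k) x := by
      rw [md_congr (hη x hx), md_add hd hvol, md_sum hd hvol]
    rw [h2, sub_add_cancel_left, norm_neg, Real.norm_eq_abs, Finset.mul_sum]
    refine (Finset.abs_sum_le_sum_abs _ _).trans (Finset.sum_le_sum fun k _ => ?_)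
    rw [abs_mul]
    exact mul_le_mul_of_nonneg_right (ht x k) (abs_nonneg _)
  have hB : 0 ≤ ∫ x, ∑ k, |md vol σ (errF c a b k) x| ∂μ :=
    integral_nonneg fun x => Finset.sum_nonneg fun k _ => abs_nonneg _
  by_contra hne
  have hpos := abs_pos.2 hne
  set A := |∫ x, md vol σ (∑ i, hdfdg (c i) (a i) (b i)) x ∂μ| with hA
  set B := ∫ x, ∑ k, |md vol σ (errF c a b k) x| ∂μ with hB'
  have h1 := key (A / (2 * (B + 1))) (by positivity)
  have h2 : A / (2 * (B + 1)) * B < A := by
    rw [div_mul_eq_mul_div, div_lt_iff₀ (by positivity)]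
    nlinarith
  linarith

/-- a carrier with full support has no thin points -/
theorem not_thin [CompactSpace X] [T2Space X] [MeasurableSpace X] [BorelSpace X]
    (hd : d = 2 * (m + 1)) {vol : Top d m X} (hvol : IsVol vol) {σ ζ : Form d X 2}
    (hσ : IsSmooth σ) {K : Set X} (hK : IsCompact K) {μ : Measure X} (hμ : Carr vol σ ζ K μ)
    {z : X} (hz : ∀ U : Set X, IsOpen U → z ∈ U → μ U ≠ 0) (hth : ThinP (PK vol σ) K z) :
    False := by
  have hfin := hμ.fin
  have hG := Pool.Agent.Y484.SY.t_GEN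
  obtain ⟨n, a, b, N, hNz, ha, hb, hnull, hposz⟩ := hth
  have h2 : ∀ i, hdfdg (d := d) (fun _ => (1 : ℝ)) (a i) (b i) = dfdg (a i) (b i) := by
    intro i; funext x; exact one_smul ℝ _
  have hts : IsSmooth (∑ i, dfdg (d := d) (a i) (b i)) := by
    refine IsSmooth.sum _ fun i _ => ?_
    have := (hG d X (fun _ => 1) (a i) (b i) (SmoothFun.const 1) (ha i) (hb i)).2.1
    rwa [h2] at this
  have hcont := md_cont hd hvol hσ hts
  have hpz : 0 < md vol σ (∑ i, dfdg (d := d) (a i) (b i)) z :=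
    (linPos_iff hd hvol σ _ z).1 hposz
  have hnear : {y | 0 < md vol σ (∑ i, dfdg (d := d) (a i) (b i)) y} ∈ 𝓝 z :=
    (isOpen_lt continuous_const hcont).mem_nhds hpz
  obtain ⟨f, hf⟩ := (SmoothBumpFunction.nhds_basis_support (I := 𝓡 d)
    (Filter.inter_mem hnear hNz)).ex_mem
  have hfs : SmoothFun (d := d) (fun x => f x) := f.contMDiff
  have h3 := thin_zero hd hvol hσ hK hμ (fun _ : Fin n => fun x => f x) a b
    (fun _ => tsupport f) (fun _ => isClosed_tsupport f) (fun _ y hy => subset_tsupport _ hy)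
    (fun _ => hfs) ha hb (fun i => by
      refine measure_mono_null ?_ (hnull i)
      exact image_mono (inter_subset_inter_right _ (fun y hy => (hf hy).2)))
  have h4 : ∀ x, md vol σ (∑ i : Fin n, hdfdg (fun x => f x) (a i) (b i)) x =
      f x * md vol σ (∑ i, dfdg (d := d) (a i) (b i)) x := by
    intro x
    rw [← md_smul hd hvol]
    refine md_congr ?_
    have e1 : ∀ i, hdfdg (d := d) (fun x => f x) (a i) (b i) x = f x • dfdg (d := d) (a i) (b i) x :=
      fun i => rfl
    rw [Finset.sum_apply, Finset.sum_congr rfl fun i _ => e1 i, ← Finset.smul_sum,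
      Pi.smul_apply, Finset.sum_apply]
  simp_rw [h4] at h3
  have hcf : Continuous fun x => f x * md vol σ (∑ i, dfdg (d := d) (a i) (b i)) x :=
    hfs.continuous.mul hcont
  have h5 : 0 < ∫ x, f x * md vol σ (∑ i, dfdg (d := d) (a i) (b i)) x ∂μ := by
    rw [integral_pos_iff_support_of_nonneg (fun x => ?_) (integrable_of_cont hcf)]
    · have hop : IsOpen (Function.support fun x => f x *
          md vol σ (∑ i, dfdg (d := d) (a i) (b i)) x) := hcf.isOpen_support
      refine pos_iff_ne_zero.2 (hz _ hop ?_)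
      rw [Function.mem_support]
      refine (mul_pos ?_ hpz).ne'
      rw [f.eq_one]; exact one_pos
    · change 0 ≤ f x * md vol σ (∑ i, dfdg (d := d) (a i) (b i)) x
      by_cases hx : f x = 0
      · rw [hx, zero_mul]
      · exact mul_nonneg f.nonneg (hf (subset_tsupport _ hx)).1.le
  linarith

/-- forms which are nonnegative over the carrier -/
theorem not_pos [CompactSpace X] [T2Space X] [MeasurableSpace X] [BorelSpace X]
    (hd : d = 2 * (m + 1)) {vol : Top d m X} (hvol : IsVol vol) {σ ζ ρ : Form d X 2}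
    (hσ : IsSmooth σ) (hζ : IsSmooth ζ) (hρ : ExactF ρ) {K : Set X} {μ : Measure X}
    (hμ : Carr vol σ ζ K μ) (hnn : ∀ x ∈ K, 0 ≤ md vol σ (ζ + ρ) x) {z : X}
    (hz : ∀ U : Set X, IsOpen U → z ∈ U → μ U ≠ 0) : ¬ 0 < md vol σ (ζ + ρ) z := by
  intro hpz
  have := hμ.fin
  obtain ⟨β, h1, h2, h3⟩ := hρ
  have hc : Continuous (md vol σ (ζ + ρ)) := md_cont hd hvol hσ (hζ.add h2)
  have hae : ∀ᵐ x ∂μ, x ∈ K := by
    have : ∀ᵐ x ∂μ, x ∉ Kᶜ := measure_eq_zero_iff_ae_notMem.1 hμ.car
    exact this.mono fun x hx => not_not.1 hx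
  have hsum : ∫ x, md vol σ (ζ + ρ) x ∂μ = ∫ x, md vol σ ζ x ∂μ := by
    have e1 : ∀ x, md vol σ (ζ + ρ) x = md vol σ ζ x + md vol σ ρ x :=
      fun x => md_add hd hvol σ ζ ρ x
    simp_rw [e1]
    rw [integral_add (integrable_of_cont (md_cont hd hvol hσ hζ))
      (integrable_of_cont (md_cont hd hvol hσ h2)), hμ.closed ρ ⟨β, h1, h2, h3⟩, add_zero]
  have hpos : 0 < ∫ x, md vol σ (ζ + ρ) x ∂μ := by
    rw [integral_pos_iff_support_of_nonneg_ae (hae.mono fun x hx => hnn x hx)
      (integrable_of_cont hc)]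
    exact pos_iff_ne_zero.2 (hz _ hc.isOpen_support (Function.mem_support.2 hpz.ne'))
  have := hμ.le
  linarith

end

end Pool.Agent.R772
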