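import Pool.Agent.R772.Pos

/-!
Positivity of top powers of two-forms near a point: perturbations.
-/

set_option autoImplicit false

open Set Filter Topology
open scoped Manifold ContDiff

noncomputable section

namespace Pool.Agent.R772

open Pool.Agent.Y501.SY

section

variable {d m : ℕ} {X : Type} [TopologicalSpace X] [ChartedSpace (E d) X]
  [IsManifold (𝓡 d) ∞ X]

omit [IsManifold (𝓡 d) ∞ X] in
theorem pb_sum {κ : Type} {k : ℕ} (φ : E d → X) (s : Finset κ) (f : κ → Form d X k) :
    pb φ (∑ j ∈ s, f j) = ∑ j ∈ s, pb φ (f j) := by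
  classical
  induction s using Finset.induction_on with
  | empty => rw [Finset.sum_empty, Finset.sum_empty, pb_zero]
  | insert a s ha ih => rw [Finset.sum_insert ha, Finset.sum_insert ha, pb_add, ih]

/-- positivity of `σ ^ m ∧ η` is stable under small perturbations of `η` and of the point -/
theorem LinPos.pert (hd : d = 2 * (m + 1)) {vol : Top d m X} (hvol : IsVol vol)
    {κ : Type} [Fintype κ] {σ η : Form d X 2} {θ : κ → Form d X 2} (hσ : IsSmooth σ)
    (hη : IsSmooth η) (hθ : ∀ k, IsSmooth (θ k)) {x : X} (h : LinPos vol σ η x) :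
    ∃ ε : ℝ, 0 < ε ∧ ∀ᶠ y in 𝓝 x, ∀ t : κ → ℝ, (∀ k, |t k| ≤ ε) →
      LinPos vol σ (η + ∑ k, t k • θ k) y := by
  obtain ⟨e, he⟩ := exists_frame hvol x
  set c := chartAt (E d) x with hc
  have hx : x ∈ c.source := mem_chart_source (E d) x
  have hp0 : c x ∈ c.target := c.map_source hx
  -- the function of the point and of the parameters
  let H : E d × (κ → ℝ) → ℝ := fun q => wedge (Fin.cons
    (pb c.symm η q.1 + ∑ k, q.2 k • pb c.symm (θ k) q.1) (fun _ : Fin m => pb c.symm σ q.1)) e
  have hfst : ContinuousOn (fun q : E d × (κ → ℝ) => q.1) (c.target ×ˢ univ) :=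
    continuous_fst.continuousOn
  have hmaps : MapsTo (fun q : E d × (κ → ℝ) => q.1) (c.target ×ˢ univ) c.target :=
    fun q hq => hq.1
  have hH : ContinuousOn H (c.target ×ˢ univ) := by
    refine continuous_wedge (s := fun q : E d × (κ → ℝ) => (Fin.cons
      (pb c.symm η q.1 + ∑ k, q.2 k • pb c.symm (θ k) q.1) (fun _ : Fin m => pb c.symm σ q.1) :
      Fin (m + 1) → (E d) [⋀^Fin 2]→L[ℝ] ℝ)) ?_ (fun _ => continuousOn_const)
    intro i
    refine Fin.cases ?_ (fun i => ?_) i
    · simp only [Fin.cons_zero]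
      refine ContinuousOn.add ((IsSmooth.contChart hη x).comp hfst hmaps) ?_
      refine continuousOn_finsetSum _ fun k _ => ?_
      have h7 : ContinuousOn (fun q : E d × (κ → ℝ) => q.2 k) (c.target ×ˢ univ) :=
        ((continuous_apply k).comp continuous_snd).continuousOn
      exact h7.smul ((IsSmooth.contChart (hθ k) x).comp hfst hmaps)
    · simp only [Fin.cons_succ]
      exact (IsSmooth.contChart hσ x).comp hfst hmaps
  have hH0 : 0 < H (c x, 0) := by
    have h1 : H (c x, 0) = wedge (Fin.cons (pb c.symm η (c x))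
        (fun _ : Fin m => pb c.symm σ (c x))) e := by
      change wedge (Fin.cons (pb c.symm η (c x) + ∑ k, (0 : ℝ) • pb c.symm (θ k) (c x))
        (fun _ : Fin m => pb c.symm σ (c x))) e = _
      simp only [zero_smul, Finset.sum_const_zero, add_zero]
    rw [h1, wedge_pb_cons]
    have h2 : LinPos vol σ η (c.symm (c x)) := by rw [c.left_inv hx]; exact h
    exact h2 _ he.self_of_nhds.2
  have hcont := hH.continuousAt ((c.open_target.prod isOpen_univ).mem_nhds
    (⟨hp0, trivial⟩ : (c x, (0 : κ → ℝ)) ∈ c.target ×ˢ (univ : Set (κ → ℝ))))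
  have hev := hcont.eventually (lt_mem_nhds hH0)
  rw [nhds_prod_eq, Filter.eventually_prod_iff] at hev
  obtain ⟨p1, hp1, p2, hp2, hp⟩ := hev
  obtain ⟨ε, hε, hball⟩ := Metric.eventually_nhds_iff.1 hp2
  have hε2 : 0 < ε / 2 := by positivity
  refine ⟨ε / 2, hε2, nhds_of_chart (d := d) x ?_⟩
  filter_upwards [hp1, he] with p hpp hpe t ht
  have hdist : dist t 0 < ε := by
    rw [dist_zero_right]
    refine lt_of_le_of_lt ((pi_norm_le_iff_of_nonneg (by positivity)).2 fun k => ?_)
      (half_lt_self hε)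
    rw [Real.norm_eq_abs]; exact ht k
  have h3 := hp hpp (hball hdist)
  refine (frame_iff hd vol hpe.2 _).2 ?_
  have h4 := wedge_pb_cons (m := m) c.symm (η + ∑ k, t k • θ k) σ p e
  have h5 : pb c.symm (η + ∑ k, t k • θ k) p = pb c.symm η p + ∑ k, t k • pb c.symm (θ k) p := by
    rw [pb_add, pb_sum, Pi.add_apply, Finset.sum_apply]
    rfl
  rw [h5] at h4
  rw [← h4]
  exact h3

/-- positivity of `σ ^ (m + 1)` is stable under small perturbations -/
theorem PosTop.pert (hd : d = 2 * (m + 1)) {vol : Top d m X} (hvol : IsVol vol)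
    {σ η : Form d X 2} (hσ : IsSmooth σ) (hη : IsSmooth η) {x : X} (h : PosTop vol σ x) :
    ∃ ε : ℝ, 0 < ε ∧ ∀ᶠ y in 𝓝 x, ∀ t : ℝ, |t| ≤ ε → PosTop vol (σ + t • η) y := by
  obtain ⟨e, he⟩ := exists_frame hvol x
  set c := chartAt (E d) x with hc
  have hx : x ∈ c.source := mem_chart_source (E d) x
  have hp0 : c x ∈ c.target := c.map_source hx
  let H : E d × ℝ → ℝ := fun q => wedge
    (fun _ : Fin (m + 1) => pb c.symm σ q.1 + q.2 • pb c.symm η q.1) e
  have hfst : ContinuousOn (fun q : E d × ℝ => q.1) (c.target ×ˢ univ) :=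
    continuous_fst.continuousOn
  have hmaps : MapsTo (fun q : E d × ℝ => q.1) (c.target ×ˢ univ) c.target :=
    fun q hq => hq.1
  have hH : ContinuousOn H (c.target ×ˢ univ) := by
    refine continuous_wedge (s := fun q : E d × ℝ =>
      (fun _ : Fin (m + 1) => pb c.symm σ q.1 + q.2 • pb c.symm η q.1)) ?_
      (fun _ => continuousOn_const)
    intro i
    refine ContinuousOn.add ((IsSmooth.contChart hσ x).comp hfst hmaps) ?_
    have h7 : ContinuousOn (fun q : E d × ℝ => q.2) (c.target ×ˢ univ) :=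
      continuous_snd.continuousOn
    exact h7.smul ((IsSmooth.contChart hη x).comp hfst hmaps)
  have hH0 : 0 < H (c x, 0) := by
    have h1 : H (c x, 0) = wedge (fun _ : Fin (m + 1) => pb c.symm σ (c x)) e := by
      change wedge (fun _ : Fin (m + 1) => pb c.symm σ (c x) + (0 : ℝ) • pb c.symm η (c x)) e = _
      simp only [zero_smul, add_zero]
    rw [h1, wedge_pb c.symm (fun _ : Fin (m + 1) => σ)]
    have h2 : PosTop vol σ (c.symm (c x)) := by rw [c.left_inv hx]; exact h
    exact h2 _ he.self_of_nhds.2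
  have hcont := hH.continuousAt ((c.open_target.prod isOpen_univ).mem_nhds
    (⟨hp0, trivial⟩ : (c x, (0 : ℝ)) ∈ c.target ×ˢ (univ : Set ℝ)))
  have hev := hcont.eventually (lt_mem_nhds hH0)
  rw [nhds_prod_eq, Filter.eventually_prod_iff] at hev
  obtain ⟨p1, hp1, p2, hp2, hp⟩ := hev
  obtain ⟨ε, hε, hball⟩ := Metric.eventually_nhds_iff.1 hp2
  have hε2 : 0 < ε / 2 := by positivity
  refine ⟨ε / 2, hε2, nhds_of_chart (d := d) x ?_⟩
  filter_upwards [hp1, he] with p hpp hpe t ht
  have hdist : dist t 0 < ε := by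
    rw [dist_zero_right, Real.norm_eq_abs]
    exact lt_of_le_of_lt ht (half_lt_self hε)
  have h3 := hp hpp (hball hdist)
  refine (frame_iff hd vol hpe.2 _).2 ?_
  have h4 := wedge_pb (n := m + 1) c.symm (fun _ => σ + t • η) p e
  have h5 : pb c.symm (σ + t • η) p = pb c.symm σ p + t • pb c.symm η p := by
    rw [pb_add, Pi.add_apply]
    rfl
  rw [h5] at h4
  rw [← h4]
  exact h3

/-- if `σ ^ (m + 1)` is nonnegative and `σ ^ m ∧ η` is positive at `x`, then `(σ + t η) ^ (m + 1)`
is positive near `x` for small positive `t` -/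
theorem LinPos.top (hd : d = 2 * (m + 1)) {vol : Top d m X} (hvol : IsVol vol)
    {σ η : Form d X 2} (hσ : IsSmooth σ) (hη : IsSmooth η)
    (hnn : ∀ (x : X) (e : Fin (m + 1) × Fin 2 → TangentSpace (𝓡 d) x), 0 < vol x e →
      0 ≤ wedge (fun _ : Fin (m + 1) => σ x) e) {x : X} (h : LinPos vol σ η x) :
    ∃ ε : ℝ, 0 < ε ∧ ∀ᶠ y in 𝓝 x, ∀ t : ℝ, 0 < t → t ≤ ε → PosTop vol (σ + t • η) y := by
  obtain ⟨e, he⟩ := exists_frame hvol x
  set c := chartAt (E d) x with hc
  have hx : x ∈ c.source := mem_chart_source (E d) x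
  have hp0 : c x ∈ c.target := c.map_source hx
  let H : E d × ℝ → ℝ := fun q => wedge (Fin.cons (pb c.symm η q.1)
    (fun _ : Fin m => pb c.symm σ q.1 + q.2 • pb c.symm η q.1)) e
  have hfst : ContinuousOn (fun q : E d × ℝ => q.1) (c.target ×ˢ univ) :=
    continuous_fst.continuousOn
  have hmaps : MapsTo (fun q : E d × ℝ => q.1) (c.target ×ˢ univ) c.target :=
    fun q hq => hq.1
  have hH : ContinuousOn H (c.target ×ˢ univ) := by
    refine continuous_wedge (s := fun q : E d × ℝ => (Fin.cons (pb c.symm η q.1)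
      (fun _ : Fin m => pb c.symm σ q.1 + q.2 • pb c.symm η q.1) :
      Fin (m + 1) → (E d) [⋀^Fin 2]→L[ℝ] ℝ)) ?_ (fun _ => continuousOn_const)
    intro i
    refine Fin.cases ?_ (fun i => ?_) i
    · simp only [Fin.cons_zero]
      exact (IsSmooth.contChart hη x).comp hfst hmaps
    · simp only [Fin.cons_succ]
      refine ContinuousOn.add ((IsSmooth.contChart hσ x).comp hfst hmaps) ?_
      have h7 : ContinuousOn (fun q : E d × ℝ => q.2) (c.target ×ˢ univ) :=
        continuous_snd.continuousOn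
      exact h7.smul ((IsSmooth.contChart hη x).comp hfst hmaps)
  have hH0 : 0 < H (c x, 0) := by
    have h1 : H (c x, 0) = wedge (Fin.cons (pb c.symm η (c x))
        (fun _ : Fin m => pb c.symm σ (c x))) e := by
      change wedge (Fin.cons (pb c.symm η (c x))
        (fun _ : Fin m => pb c.symm σ (c x) + (0 : ℝ) • pb c.symm η (c x))) e = _
      simp only [zero_smul, add_zero]
    rw [h1, wedge_pb_cons]
    have h2 : LinPos vol σ η (c.symm (c x)) := by rw [c.left_inv hx]; exact h
    exact h2 _ he.self_of_nhds.2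
  have hcont := hH.continuousAt ((c.open_target.prod isOpen_univ).mem_nhds
    (⟨hp0, trivial⟩ : (c x, (0 : ℝ)) ∈ c.target ×ˢ (univ : Set ℝ)))
  have hev := hcont.eventually (lt_mem_nhds hH0)
  rw [nhds_prod_eq, Filter.eventually_prod_iff] at hev
  obtain ⟨p1, hp1, p2, hp2, hp⟩ := hev
  obtain ⟨ε, hε, hball⟩ := Metric.eventually_nhds_iff.1 hp2
  have hε2 : 0 < ε / 2 := by positivity
  refine ⟨ε / 2, hε2, nhds_of_chart (d := d) x ?_⟩
  filter_upwards [hp1, he] with p hpp hpe t ht0 ht
  have hpos : ∀ s : ℝ, 0 ≤ s → s ≤ ε / 2 → 0 < H (p, s) := by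
    intro s hs0 hs
    have hdist : dist s 0 < ε := by
      rw [dist_zero_right, Real.norm_eq_abs, abs_of_nonneg hs0]
      exact lt_of_le_of_lt hs (half_lt_self hε)
    exact hp hpp (hball hdist)
  refine (frame_iff hd vol hpe.2 _).2 ?_
  have h4 := wedge_pb (n := m + 1) c.symm (fun _ => σ + t • η) p e
  have h5 : pb c.symm (σ + t • η) p = pb c.symm σ p + t • pb c.symm η p := by
    rw [pb_add, Pi.add_apply]
    rfl
  rw [h5] at h4
  rw [← h4]
  -- the mean value theorem
  have hder := fun s : ℝ => hasDerivAt_wedge (m := m) (pb c.symm σ p) (pb c.symm η p) e s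
  have hmono : StrictMonoOn (fun s : ℝ => wedge
      (fun _ : Fin (m + 1) => pb c.symm σ p + s • pb c.symm η p) e) (Icc 0 (ε / 2)) := by
    refine strictMonoOn_of_deriv_pos (convex_Icc _ _)
      (fun s _ => (hder s).continuousAt.continuousWithinAt) fun s hs => ?_
    rw [interior_Icc] at hs
    rw [(hder s).deriv]
    have := hpos s hs.1.le hs.2.le
    have hm : (0 : ℝ) < m + 1 := by positivity
    exact mul_pos hm this
  have h6 := hmono (left_mem_Icc.2 hε2.le) ⟨ht0.le, ht⟩ ht0
  have h7 : 0 ≤ wedge (fun _ : Fin (m + 1) => pb c.symm σ p + (0 : ℝ) • pb c.symm η p) e := by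
    simp only [zero_smul, add_zero]
    rw [wedge_pb c.symm (fun _ : Fin (m + 1) => σ)]
    exact hnn _ _ hpe.2
  exact lt_of_le_of_lt h7 h6

end

end Pool.Agent.R772
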