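import Pool.Agent.R772.PubF

/-!
Closed currents on the degenerate set: the definitions used in the statement.
-/

set_option autoImplicit false

open Set Filter Topology MeasureTheory
open scoped Manifold ContDiff

noncomputable section

namespace Pool.Agent.R772.SYD

open Pool.Agent.Y501.SYP
open Pool.Agent.R772.SYK
open Pool.Agent.R772.SYF

section

variable {V : Type} [NormedAddCommGroup V] [NormedSpace ℝ V]
  {X : Type} [TopologicalSpace X] [ChartedSpace V X] {m : ℕ}

open Classical in
/-- The density of `η ∧ σ ^ m`: the number `r` with `(η ∧ σ ^ m) e = r * vol e` for all families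
`e` of tangent vectors at `x` (`e` with `vol e > 0` can be chosen arbitrarily). -/
def density (vol : TopForm V X m) (σ η : Form V X 2) (x : X) : ℝ :=
  if h : ∃ e, 0 < vol x e then mixed m σ x (η x) h.choose / vol x h.choose else 0

/-- `μ` is a nonzero finite measure carried by the set where `σ ^ (m + 1)` vanishes, and the
current `η ↦ ∫ (η ∧ σ ^ m / vol) dμ` is closed, that is, it vanishes on the forms `dα`. -/
structure IsClosedCurrent [MeasurableSpace X] (vol : TopForm V X m) (σ : Form V X 2)
    (μ : Measure X) : Prop where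
  finite : IsFiniteMeasure μ
  ne : μ ≠ 0
  carried : μ (Deg m σ)ᶜ = 0
  closed : ∀ (α : Form V X 1) (ρ : Form V X 2), ExactPair α ρ → ∫ x, density vol σ ρ x ∂μ = 0

/-- The forms `σ + t θ`, `0 < t ≤ c`, are positive symplectic forms, and their top powers are at
least `c t vol`. -/
structure SymplecticUpTo (vol : TopForm V X m) (σ θ : Form V X 2) (c : ℝ) : Prop where
  pos : 0 < c
  symp : ∀ t : ℝ, 0 < t → t ≤ c → IsPosSymplectic vol (comb σ t θ)
  growth : ∀ t : ℝ, 0 < t → t ≤ c → ∀ (x : X) (e : Fam V m x), 0 < vol x e →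
    c * t * vol x e ≤ top m (comb σ t θ) x e

/-- `η ∧ σ ^ m` is positive over the set where `σ ^ (m + 1)` vanishes -/
def PosOnDeg (vol : TopForm V X m) (σ η : Form V X 2) : Prop :=
  ∀ x ∈ Deg m σ, ∀ e : Fam V m x, 0 < vol x e → 0 < mixed m σ x (η x) e

end

end Pool.Agent.R772.SYD
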