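import Pool.Agent.R772.PubK

/-!
Continuous families of closed two-forms with nonnegative top power: the definitions used in the
statement.
-/

set_option autoImplicit false

open Set Filter Topology MeasureTheory
open scoped Manifold ContDiff

noncomputable section

namespace Pool.Agent.R772.SYF

open Pool.Agent.Y501.SYP
open Pool.Agent.R772.SYK

section

variable {V : Type} [NormedAddCommGroup V] [NormedSpace ℝ V]
  {X : Type} [TopologicalSpace X] [ChartedSpace V X]

/-- A continuous family of two-forms (in the `C⁰` topology): in the charts of `X` the coefficients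
are jointly continuous in the parameter and the point. -/
def ContFamily {P : Type} [TopologicalSpace P] (σ : P → Form V X 2) : Prop :=
  ∀ z : X, ContinuousOn (fun q : P × V => pb (chartAt V z).symm (σ q.1) q.2)
    (univ ×ˢ (chartAt V z).target)

variable (V X) in
/-- the form zero -/
def zeroF : Form V X 2 := fun _ => 0

/-- `ρ = dα`, both smooth -/
structure ExactPair (α : Form V X 1) (ρ : Form V X 2) : Prop where
  smooth : IsSmooth α
  smooth_d : IsSmooth ρ
  isD : IsD α ρ

/-- the form `σ + t ∑ c_i ρ_i` -/
def addSum {n : ℕ} (σ : Form V X 2) (t : ℝ) (c : Fin n → ℝ) (ρ : Fin n → Form V X 2) :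
    Form V X 2 := fun x => σ x + t • ∑ i, c i • ρ i x

/-- All components of the parts, in the fibres of `f`, of the set where `σ ^ (m + 1)` vanishes are
good, and `f` is smooth and its differential vanishes on the kernel of `σ` over this set. -/
structure GoodComps [MeasurableSpace V] [BorelSpace V] {m : ℕ} (vol : TopForm V X m)
    (σ : Form V X 2) {W Y : Type} [NormedAddCommGroup W] [NormedSpace ℝ W] [TopologicalSpace Y]
    [ChartedSpace W Y] (f : X → Y) : Prop where
  map : KernelMap (W := W) m σ f
  good : ∀ z ∈ Deg m σ, Good vol σ (zeroF V X) (Comp m σ f z)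

end

section

variable {d : ℕ} {X : Type} [TopologicalSpace X] [ChartedSpace (ES d) X] {m : ℕ}

/-- The set where `σ ^ (m + 1)` vanishes is small: there is a smooth map `f` to a manifold as in
`GoodComps`. -/
def SmallDegeneracy (vol : TopForm (ES d) X m) (σ : Form (ES d) X 2) : Prop :=
  ∃ (k : ℕ) (Y : Type) (_ : TopologicalSpace Y) (_ : ChartedSpace (ES k) Y)
    (_ : IsManifold 𝓘(ℝ, ES k) ∞ Y) (_ : T2Space Y) (f : X → Y),
    GoodComps (W := ES k) vol σ f

/-- A continuous family of closed two-forms with nonnegative top power. -/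
structure IsFamily {P : Type} [TopologicalSpace P] (vol : TopForm (ES d) X m)
    (σ : P → Form (ES d) X 2) : Prop where
  cont : ContFamily σ
  closed : ∀ p, IsClosed2 (σ p)
  nonneg : ∀ p, TopNonneg vol (σ p)

/-- The forms `σ p + t ∑ φ_i(p) dα_i`, `0 < t ≤ 1`, are symplectic for all `p`; the continuous
functions `φ_i` are nonnegative and vanish on `Q`. -/
structure IsCompression {P : Type} [TopologicalSpace P] (vol : TopForm (ES d) X m) (Q : Set P)
    (σ : P → Form (ES d) X 2) {n : ℕ} (α : Fin n → Form (ES d) X 1)
    (ρ : Fin n → Form (ES d) X 2) (φ : Fin n → P → ℝ) : Prop where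
  exact : ∀ i, ExactPair (α i) (ρ i)
  cont : ∀ i, Continuous (φ i)
  nonneg : ∀ i p, 0 ≤ φ i p
  zero : ∀ i, ∀ q ∈ Q, φ i q = 0
  symp : ∀ t : ℝ, 0 < t → t ≤ 1 → ∀ p, IsPosSymplectic vol (addSum (σ p) t (fun i => φ i p) ρ)

end

end Pool.Agent.R772.SYF
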