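import Pool.Agent.Y501.SY.Pub

/-!
Closed two-forms with nonnegative top power and corank at most two: the definitions used in the
statement.
-/

set_option autoImplicit false

open Set Filter Topology MeasureTheory
open scoped Manifold ContDiff

noncomputable section

namespace Pool.Agent.R772.SYK

open Pool.Agent.Y501.SYP

/-- The wedge product `s 0 ∧ ⋯ ∧ s (n - 1)` of two-forms on a vector space, evaluated on `2 n`
vectors and multiplied by `2 ^ n`. The vectors are indexed by pairs `(i, j)`. -/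
def wedge {V : Type} [AddCommGroup V] [Module ℝ V] [TopologicalSpace V] {n : ℕ}
    (s : Fin n → V [⋀^Fin 2]→L[ℝ] ℝ) (e : Fin n × Fin 2 → V) : ℝ :=
  ∑ π : Equiv.Perm (Fin n × Fin 2), ((Equiv.Perm.sign π : ℤ) : ℝ) *
    ∏ i, s i ![e (π (i, 0)), e (π (i, 1))]

section forms

variable {V : Type} [NormedAddCommGroup V] [NormedSpace ℝ V]
  {X : Type} [TopologicalSpace X] [ChartedSpace V X]

variable (V) in
/-- families of tangent vectors at `x` -/
abbrev Fam (m : ℕ) (x : X) : Type := Fin (m + 1) × Fin 2 → TangentSpace 𝓘(ℝ, V) x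

variable (V) in
/-- two-forms on the tangent space at `x` -/
abbrev Cov (x : X) : Type := (TangentSpace 𝓘(ℝ, V) x) [⋀^Fin 2]→L[ℝ] ℝ

variable (V X) in
/-- forms of degree `2 (m + 1)`, without any regularity -/
abbrev TopForm (m : ℕ) : Type :=
  (x : X) → (TangentSpace 𝓘(ℝ, V) x) [⋀^(Fin (m + 1) × Fin 2)]→L[ℝ] ℝ

/-- the coordinate vector fields `e` of the chart at `x₀`, at the point with coordinates `p` -/
def chartFam {m : ℕ} (x₀ : X) (e : Fin (m + 1) × Fin 2 → V) (p : V) :
    Fam V m ((chartAt V x₀).symm p) :=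
  fun k => mfderiv 𝓘(ℝ, V) 𝓘(ℝ, V) (chartAt V x₀).symm p (e k)

/-- A volume form: a nowhere vanishing continuous form of degree `2 (m + 1)`. -/
structure IsVolume {m : ℕ} (vol : TopForm V X m) : Prop where
  ne : ∀ x, ∃ e, vol x e ≠ 0
  cont : ∀ (x₀ : X) (e : Fin (m + 1) × Fin 2 → V), ContinuousOn
    (fun p => vol ((chartAt V x₀).symm p) (chartFam x₀ e p)) (chartAt V x₀).target

/-- the top power `σ ^ (m + 1)` at `x` -/
def top (m : ℕ) (σ : Form V X 2) (x : X) (e : Fam V m x) : ℝ :=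
  wedge (fun _ : Fin (m + 1) => σ x) e

/-- the form `η ∧ σ ^ m`, where `η` is a two-form on the tangent space at `x` -/
def mixed (m : ℕ) (σ : Form V X 2) (x : X) (η : Cov V x) (e : Fam V m x) : ℝ :=
  wedge (Fin.cons η (fun _ : Fin m => σ x)) e

/-- closed smooth two-forms -/
structure IsClosed2 (σ : Form V X 2) : Prop where
  smooth : IsSmooth σ
  closed : IsClosedForm σ

/-- the kernel of `σ` at `x` -/
def Ker (σ : Form V X 2) (x : X) (v : TangentSpace 𝓘(ℝ, V) x) : Prop := ∀ w, σ x ![v, w] = 0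

/-- a closed smooth nondegenerate form which is positive with respect to `vol` -/
structure IsPosSymplectic {m : ℕ} (vol : TopForm V X m) (σ : Form V X 2) : Prop where
  closed : IsClosed2 σ
  nondeg : ∀ (x : X) (v : TangentSpace 𝓘(ℝ, V) x), Ker σ x v → v = 0
  pos : ∀ (x : X) (e : Fam V m x), 0 < vol x e → 0 < top m σ x e

/-- `σ ^ (m + 1)` is nonnegative -/
def TopNonneg {m : ℕ} (vol : TopForm V X m) (σ : Form V X 2) : Prop :=
  ∀ (x : X) (e : Fam V m x), 0 < vol x e → 0 ≤ top m σ x e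

/-- the points where `σ ^ (m + 1)` vanishes -/
def Deg (m : ℕ) (σ : Form V X 2) : Set X := {x | ∀ e : Fam V m x, top m σ x e = 0}

/-- the points of `C` where `θ ∧ σ ^ m` vanishes -/
def Deg2 (m : ℕ) (σ θ : Form V X 2) (C : Set X) : Set X :=
  {x | x ∈ C ∧ ∀ e : Fam V m x, mixed m σ x (θ x) e = 0}

/-- `C` has two-dimensional Hausdorff measure zero near `z`. -/
def HausNull (V : Type) [NormedAddCommGroup V] [NormedSpace ℝ V] {X : Type} [TopologicalSpace X]
    [ChartedSpace V X] [MeasurableSpace V] [BorelSpace V] (C : Set X) (z : X) : Prop :=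
  ∃ N ∈ 𝓝 z, μH[2] (chartAt V z '' (C ∩ N ∩ (chartAt V z).source)) = 0

/-- `C` is contained in the zero set of a smooth function whose differential at `z` does not
vanish on the kernel of `σ`. -/
def ZeroSet (σ : Form V X 2) (C : Set X) (z : X) : Prop :=
  ∃ g : X → ℝ, SmoothFun (V := V) g ∧ (∀ x ∈ C, g x = 0) ∧
    ∃ k : TangentSpace 𝓘(ℝ, V) z, Ker σ z k ∧ dd g z k ≠ 0

/-- `θ` is the form `∑ da ∧ db` at `z`. -/
def IsSumWedge {n : ℕ} (a b : Fin n → X → ℝ) (z : X) (θ : Cov V z) : Prop :=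
  ∀ v w, θ ![v, w] = ∑ i, (dd (a i) z v * dd (b i) z w - dd (a i) z w * dd (b i) z v)

/-- There are finitely many pairs `(a, b)` of smooth functions mapping a neighbourhood of `z` in
`C` onto Lebesgue null sets of the plane, such that `(∑ da ∧ db) ∧ σ ^ m` is positive at `z`. -/
def Thin {m : ℕ} (vol : TopForm V X m) (σ : Form V X 2) (C : Set X) (z : X) : Prop :=
  ∃ (n : ℕ) (a b : Fin n → X → ℝ) (θ : Cov V z), (∀ i, NullPair (V := V) C z (a i) (b i)) ∧
    IsSumWedge a b z θ ∧ ∀ e : Fam V m z, 0 < vol z e → 0 < mixed m σ z θ e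

/-- `σ ^ m` does not vanish at `z` -/
def PowNe (m : ℕ) (σ : Form V X 2) (z : X) : Prop :=
  ∃ (η : Cov V z) (e : Fam V m z), mixed m σ z η e ≠ 0

/-- small sets -/
def SmallAt [MeasurableSpace V] [BorelSpace V] {m : ℕ} (vol : TopForm V X m)
    (σ : Form V X 2) (C : Set X) (z : X) : Prop :=
  (PowNe m σ z ∧ (HausNull V C z ∨ ZeroSet σ C z)) ∨ Thin vol σ C z

/-- For some smooth one-form `β` the form `(ζ + dβ) ∧ σ ^ m` is nonnegative over `C`, and the
components of the set of points of `C` where it vanishes are small at all their points. -/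
def Good [MeasurableSpace V] [BorelSpace V] {m : ℕ} (vol : TopForm V X m)
    (σ ζ : Form V X 2) (C : Set X) : Prop :=
  ∃ (β : Form V X 1) (ρ : Form V X 2), IsSmooth β ∧ IsSmooth ρ ∧ IsD β ρ ∧
    (∀ x ∈ C, ∀ e : Fam V m x, 0 < vol x e → 0 ≤ mixed m σ x (addF ζ ρ x) e) ∧
    ∀ z ∈ Deg2 m σ (addF ζ ρ) C,
      SmallAt vol σ (connectedComponentIn (Deg2 m σ (addF ζ ρ) C) z) z

/-- `f` is smooth and, over the points where `σ ^ (m + 1)` vanishes, its differential vanishes on
the kernel of `σ`. -/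
structure KernelMap (m : ℕ) (σ : Form V X 2) {W Y : Type} [NormedAddCommGroup W]
    [NormedSpace ℝ W] [TopologicalSpace Y] [ChartedSpace W Y] (f : X → Y) : Prop where
  smooth : ContMDiff 𝓘(ℝ, V) 𝓘(ℝ, W) ∞ f
  ker : ∀ x ∈ Deg m σ, ∀ v : TangentSpace 𝓘(ℝ, V) x, Ker σ x v →
    mfderiv 𝓘(ℝ, V) 𝓘(ℝ, W) f x v = 0

/-- the component of `z` in the part of the degenerate set over `f z` -/
def Comp (m : ℕ) (σ : Form V X 2) {Y : Type} (f : X → Y) (z : X) : Set X :=
  connectedComponentIn (Deg m σ ∩ f ⁻¹' {f z}) z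

end forms

end Pool.Agent.R772.SYK
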