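import Pool.Agent.R772.PubD

/-!
Test sets for closed two-forms with nonnegative top power: the definitions used in the statement.
-/

set_option autoImplicit false

open Set Filter Topology MeasureTheory
open scoped Manifold ContDiff

noncomputable section

namespace Pool.Agent.R772.SYM

open Pool.Agent.Y501.SYP
open Pool.Agent.R772.SYK
open Pool.Agent.R772.SYF

section

variable {V : Type} [NormedAddCommGroup V] [NormedSpace ℝ V]
  {X : Type} [TopologicalSpace X] [ChartedSpace V X] {m : ℕ}

/-- `h` is smooth, and its differential vanishes on the kernel of `σ` at the points of `C`. -/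
structure KerFlat (σ : Form V X 2) (C : Set X) (h : X → ℝ) : Prop where
  smooth : SmoothFun (V := V) h
  ker : ∀ x ∈ C, ∀ v : TangentSpace 𝓘(ℝ, V) x, Ker σ x v → dd h x v = 0

/-- A test set: a nonempty compact set of points where `σ ^ (m + 1)` vanishes, which is small at
none of its points, and on which the smooth functions are constant whose differential vanishes on
the kernels of `σ` at its points. -/
structure TestSet [MeasurableSpace V] [BorelSpace V] (vol : TopForm V X m) (σ : Form V X 2)
    (C : Set X) : Prop where
  compact : IsCompact C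
  nonempty : C.Nonempty
  deg : C ⊆ Deg m σ
  indec : ∀ h : X → ℝ, KerFlat σ C h → ∀ x ∈ C, ∀ y ∈ C, h x = h y
  notSmall : ∀ z ∈ C, ¬ SmallAt vol σ C z

/-- `η ∧ σ ^ m` is nonnegative over `C`, and positive at some point of `C`. -/
structure SemiPos (vol : TopForm V X m) (σ η : Form V X 2) (C : Set X) : Prop where
  nonneg : ∀ x ∈ C, ∀ e : Fam V m x, 0 < vol x e → 0 ≤ mixed m σ x (η x) e
  pos : ∃ x ∈ C, ∀ e : Fam V m x, 0 < vol x e → 0 < mixed m σ x (η x) e

/-- The set where `σ ^ (m + 1)` vanishes is contained in the union of the closed sets `F k`, and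
its intersection with each of them is small at all its points. -/
structure CountablySmall [MeasurableSpace V] [BorelSpace V] (vol : TopForm V X m)
    (σ : Form V X 2) (F : ℕ → Set X) : Prop where
  closed : ∀ k, IsClosed (F k)
  cover : Deg m σ ⊆ ⋃ k, F k
  small : ∀ k, ∀ z ∈ F k ∩ Deg m σ, SmallAt vol σ (F k ∩ Deg m σ) z

end

end Pool.Agent.R772.SYM
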