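import Pool.Agent.R772.KerCone

/-!
Nondegeneracy of perturbations of weakly taming forms.
-/

set_option autoImplicit false

open Set Filter Topology MeasureTheory
open scoped Manifold ContDiff

noncomputable section

namespace Pool.Agent.R772

open Pool.Agent.Y501.SY
open Pool.Agent.Y455.SY (Q A B BA A_surj Q_eq Q_smul Q_cont Q_sum)
open Pool.Agent.Y108.SY (A_ne Q_cont')

section

variable {d : ℕ} {X : Type} [TopologicalSpace X] [ChartedSpace (E d) X]

/-- nondegenerate at `x` -/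
def ND (w : Form d X 2) (x : X) : Prop :=
  ∀ v : TangentSpace (𝓡 d) x, (∀ u, w x ![v, u] = 0) → v = 0

theorem not_KD {σ : Form d X 2} {x : X} (h : x ∉ KD σ) : ND σ x := by
  intro v hv
  by_contra hne
  exact h ⟨v, hne, hv⟩

theorem C2_inChart (σ : Form d X 2) (J : End d X) (x : X) (p v : E d) :
    C2 σ x p v (inChart J x p v) = Q σ J x p v := rfl

theorem C2_add (σ τ : Form d X 2) (x : X) (p v w : E d) :
    C2 (σ + τ) x p v w = C2 σ x p v w + C2 τ x p v w := rfl

theorem C2_smul' (c : ℝ) (σ : Form d X 2) (x : X) (p v w : E d) :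
    C2 (c • σ) x p v w = c * C2 σ x p v w := rfl

variable [IsManifold (𝓡 d) ∞ X]

theorem ND_chart (σ : Form d X 2) (x : X) {p : E d}
    (hp : p ∈ (chartAt (E d) x).target) :
    ND σ ((chartAt (E d) x).symm p) ↔ ∀ v : E d, v ≠ 0 → ∃ w, C2 σ x p v w ≠ 0 := by
  constructor
  · intro h v hv
    by_contra hne
    push Not at hne
    exact A_ne hp hv (h _ ((ker_chart σ x hp v).2 hne))
  · intro h v hv
    obtain ⟨w, hw⟩ := A_surj x hp v
    by_contra hne
    obtain ⟨u, hu⟩ := h w (by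
      rintro rfl
      apply hne
      rw [← hw, map_zero]
      rfl)
    exact hu ((ker_chart σ x hp w).1 (by rw [hw]; exact hv) u)

theorem C2_cont2 {σ : Form d X 2} (hσ : IsSmooth σ) (x : X) {p v : E d}
    (hp : p ∈ (chartAt (E d) x).target) (w : E d) :
    ContinuousAt (fun q : E d × E d => C2 σ x q.1 q.2 w) (p, v) := by
  have h1 : ContinuousAt (pb (chartAt (E d) x).symm σ) p :=
    ((hσ _ _ (chartAt (E d) x).open_target (contMDiffOn_chart_symm)).continuousOn).continuousAt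
      ((chartAt (E d) x).open_target.mem_nhds hp)
  have h3 : ContinuousAt (fun q : E d × E d => pb (chartAt (E d) x).symm σ q.1) (p, v) :=
    ContinuousAt.comp (f := Prod.fst) (x := (p, v)) h1 continuousAt_fst
  have h6 : ContinuousAt (fun q : E d × E d => (![q.2, w] : Fin 2 → E d)) (p, v) := by
    rw [continuousAt_pi]
    intro i
    fin_cases i
    · exact continuousAt_snd
    · exact continuousAt_const
  exact h3.eval h6

theorem seg_nondeg {J : End d X} {σ η τ : Form d X 2}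
    (hσ : IsSmooth σ) (hη : IsSmooth η) (hτ : IsSmooth τ) (x : X)
    (hx : x ∈ KD σ → PJ σ J x (η x) ∧ TamesAt τ J x ∧ (∀ᶠ y in 𝓝 x, WT σ J y) ∧ ACat J x)
    (hx2 : x ∉ KD σ → ∀ s : ℝ, 0 ≤ s → s ≤ 1 → ND ((1 - s) • τ + s • σ) x) :
    ∃ ε : ℝ, 0 < ε ∧ ∀ᶠ y in 𝓝 x, ∀ t : ℝ, 0 < t → t ≤ ε → ∀ s : ℝ, 0 ≤ s → s ≤ 1 →
      ND ((1 - s) • τ + s • (σ + t • η)) y := by
  classical
  set c := chartAt (E d) x with hc
  have hxs : x ∈ c.source := mem_chart_source (E d) x
  have hcx : c x ∈ c.target := mem_chart_target (E d) x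
  let F : (E d × ℝ) → (ℝ × E d) → E d → ℝ := fun z q w =>
    (1 - q.1) * C2 τ x z.1 q.2 w + q.1 * (C2 σ x z.1 q.2 w + z.2 * C2 η x z.1 q.2 w)
  have hF : ∀ p ∈ c.target, ∀ (t s : ℝ) (v w : E d),
      F (p, t) (s, v) w = C2 ((1 - s) • τ + s • (σ + t • η)) x p v w := by
    intro p _ t s v w
    rw [C2_add, C2_smul', C2_smul', C2_add, C2_smul']
  have hcomp : ∀ (s : ℝ) (v : E d), ContinuousAt (fun u : (E d × ℝ) × (ℝ × E d) =>
      ((u.1.1, u.2.2) : E d × E d)) ((c x, 0), (s, v)) := by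
    intro s v
    fun_prop
  have hC : ∀ {θ : Form d X 2}, IsSmooth θ → ∀ (s : ℝ) (v w : E d), ContinuousAt
      (fun u : (E d × ℝ) × (ℝ × E d) => C2 θ x u.1.1 u.2.2 w) ((c x, 0), (s, v)) := by
    intro θ hθ s v w
    exact ContinuousAt.comp (f := fun u : (E d × ℝ) × (ℝ × E d) =>
      ((u.1.1, u.2.2) : E d × E d)) (g := fun q : E d × E d => C2 θ x q.1 q.2 w)
      (x := ((c x, 0), (s, v))) (C2_cont2 hθ x hcx w) (hcomp s v)
  have hFc : ∀ (s : ℝ) (v w : E d), ContinuousAt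
      (fun u : (E d × ℝ) × (ℝ × E d) => F u.1 u.2 w) ((c x, 0), (s, v)) := by
    intro s v w
    have e1 : ContinuousAt (fun u : (E d × ℝ) × (ℝ × E d) => (1 - u.2.1 : ℝ))
      ((c x, 0), (s, v)) := by fun_prop
    have e2 : ContinuousAt (fun u : (E d × ℝ) × (ℝ × E d) => (u.2.1 : ℝ))
      ((c x, 0), (s, v)) := by fun_prop
    have e3 : ContinuousAt (fun u : (E d × ℝ) × (ℝ × E d) => (u.1.2 : ℝ))
      ((c x, 0), (s, v)) := by fun_prop
    exact (e1.mul (hC hτ s v w)).add (e2.mul ((hC hσ s v w).add (e3.mul (hC hη s v w))))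
  have key : ∀ᶠ z : E d × ℝ in 𝓝 (c x, 0), ∀ q ∈ Icc (0 : ℝ) 1 ×ˢ Metric.sphere (0 : E d) 1,
      (0 < z.2 → z.1 ∈ c.target → q.1 ≤ 1 → ∃ w, F z q w ≠ 0) := by
    refine IsCompact.eventually_forall_of_forall_eventually
      (P := fun (z : E d × ℝ) (q : ℝ × E d) =>
        0 < z.2 → z.1 ∈ c.target → q.1 ≤ 1 → ∃ w, F z q w ≠ 0)
      (isCompact_Icc.prod (isCompact_sphere _ _)) ?_
    rintro ⟨s, v⟩ ⟨hs, hv⟩
    have hv0 : v ≠ 0 := by
      rintro rfl
      simp at hv
    by_cases hne : ∃ w, F (c x, 0) (s, v) w ≠ 0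
    · obtain ⟨w, hw⟩ := hne
      filter_upwards [(hFc s v w).eventually_ne hw] with u hu _ _ _
      exact ⟨w, hu⟩
    · push Not at hne
      have hzero : ∀ w, (1 - s) * C2 τ x (c x) v w + s * C2 σ x (c x) v w = 0 := by
        intro w
        have := hne w
        change (1 - s) * C2 τ x (c x) v w + s * (C2 σ x (c x) v w + 0 * C2 η x (c x) v w) = 0
          at this
        rwa [zero_mul, add_zero] at this
      -- the point is degenerate
      have hxD : x ∈ KD σ := by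
        by_contra hxD
        have h1 := hx2 hxD s hs.1 hs.2
        have h2 : ND ((1 - s) • τ + s • σ) (c.symm (c x)) := by rw [c.left_inv hxs]; exact h1
        obtain ⟨w, hw⟩ := (ND_chart _ x hcx).1 h2 v hv0
        apply hw
        rw [C2_add, C2_smul', C2_smul']
        exact hzero w
      obtain ⟨h1, h2, h3, hJx⟩ := hx hxD
      have hQ : ∀ {θ : Form d X 2}, IsSmooth θ → ∀ (s : ℝ) (v : E d), ContinuousAt
          (fun u : (E d × ℝ) × (ℝ × E d) => Q θ J x u.1.1 u.2.2) ((c x, 0), (s, v)) := by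
        intro θ hθ s v
        exact ContinuousAt.comp (f := fun u : (E d × ℝ) × (ℝ × E d) =>
          ((u.1.1, u.2.2) : E d × E d)) (g := fun q : E d × E d => Q θ J x q.1 q.2)
          (x := ((c x, 0), (s, v))) (Q_contL hθ hJx.cont v) (hcomp s v)
      have g1 : ∀ v : E d, v ≠ 0 → (∀ w, C2 σ x (c x) v w = 0) → 0 < Q η J x (c x) v := by
        rw [← PJ_chart σ η J x hcx, c.left_inv hxs]
        exact h1
      have g2 : ∀ v : E d, v ≠ 0 → 0 < Q τ J x (c x) v := by
        rw [← Pool.Agent.Y455.SY.tames_iff τ J x hcx, c.left_inv hxs]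
        exact h2
      have g3 : ∀ᶠ p in 𝓝 (c x), p ∈ c.target → ∀ v : E d, 0 ≤ Q σ J x p v := by
        have h4 : ContinuousAt c.symm (c x) := c.symm.continuousAt hcx
        have h5 : ∀ᶠ y in 𝓝 (c.symm (c x)), WT σ J y := by rw [c.left_inv hxs]; exact h3
        filter_upwards [h4.eventually h5] with p hp hpt v
        rw [Q_eq σ J x hpt]
        exact hp _
      have g3x := g3.self_of_nhds hcx
      have hz := hzero (inChart J x (c x) v)
      rw [C2_inChart, C2_inChart] at hz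
      have hs1 : s = 1 := by
        have e1 : 0 ≤ (1 - s) * Q τ J x (c x) v :=
          mul_nonneg (by linarith [hs.2]) (g2 v hv0).le
        have e2 : 0 ≤ s * Q σ J x (c x) v := mul_nonneg hs.1 (g3x v)
        have e3 : (1 - s) * Q τ J x (c x) v = 0 := by linarith
        rcases mul_eq_zero.1 e3 with h | h
        · linarith
        · exact absurd h (g2 v hv0).ne'
      subst hs1
      have hker : ∀ w, C2 σ x (c x) v w = 0 := by
        intro w
        have := hzero w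
        linarith
      have e1 := (hQ hη 1 v).eventually (lt_mem_nhds (g1 v hv0 hker))
      have e2 := (hQ hτ 1 v).eventually (lt_mem_nhds (g2 v hv0))
      have e3 : ∀ᶠ u : (E d × ℝ) × (ℝ × E d) in 𝓝 ((c x, 0), (1, v)),
          u.1.1 ∈ c.target → ∀ v : E d, 0 ≤ Q σ J x u.1.1 v := by
        have h5 : ContinuousAt (fun u : (E d × ℝ) × (ℝ × E d) => u.1.1) ((c x, 0), (1, v)) := by
          fun_prop
        exact h5.eventually g3
      have e4 : ∀ᶠ u : (E d × ℝ) × (ℝ × E d) in 𝓝 ((c x, 0), (1, v)), (0 : ℝ) < u.2.1 := by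
        have h5 : ContinuousAt (fun u : (E d × ℝ) × (ℝ × E d) => u.2.1) ((c x, 0), (1, v)) := by
          fun_prop
        exact h5.eventually (lt_mem_nhds one_pos)
      filter_upwards [e1, e2, e3, e4] with u k1 k2 k3 k4 ht hp hs'
      refine ⟨inChart J x u.1.1 u.2.2, ?_⟩
      change (1 - u.2.1) * C2 τ x u.1.1 u.2.2 (inChart J x u.1.1 u.2.2) +
        u.2.1 * (C2 σ x u.1.1 u.2.2 (inChart J x u.1.1 u.2.2) +
          u.1.2 * C2 η x u.1.1 u.2.2 (inChart J x u.1.1 u.2.2)) ≠ 0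
      rw [C2_inChart, C2_inChart, C2_inChart]
      have l1 : 0 ≤ (1 - u.2.1) * Q τ J x u.1.1 u.2.2 := mul_nonneg (by linarith) k2.le
      have l2 : 0 < u.2.1 * (Q σ J x u.1.1 u.2.2 + u.1.2 * Q η J x u.1.1 u.2.2) :=
        mul_pos k4 (add_pos_of_nonneg_of_pos (k3 hp _) (mul_pos ht k1))
      exact (add_pos_of_nonneg_of_pos l1 l2).ne'
  rw [nhds_prod_eq, eventually_prod_iff] at key
  obtain ⟨pa, hpa, pb', hpb, hP⟩ := key
  rw [Metric.eventually_nhds_iff] at hpb
  obtain ⟨δ, hδ, hpb⟩ := hpb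
  refine ⟨δ / 2, by positivity, ?_⟩
  have h1 : ∀ᶠ y in 𝓝 x, pa (c y) :=
    (c.continuousAt (mem_chart_source (E d) x)).eventually hpa
  have h2 : ∀ᶠ y in 𝓝 x, y ∈ c.source := c.open_source.mem_nhds (mem_chart_source (E d) x)
  filter_upwards [h1, h2] with y hy hys t ht0 ht s hs0 hs1
  have hcy : c y ∈ c.target := c.map_source hys
  rw [← c.left_inv hys, ND_chart _ x hcy]
  intro v hv
  have hdist : dist t 0 < δ := by
    rw [dist_zero_right, Real.norm_eq_abs, abs_of_pos ht0]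
    linarith
  have hsph : ‖v‖⁻¹ • v ∈ Metric.sphere (0 : E d) 1 := by
    rw [mem_sphere_zero_iff_norm, norm_smul, norm_inv, norm_norm,
      inv_mul_cancel₀ (norm_ne_zero_iff.2 hv)]
  obtain ⟨w, hw⟩ := hP hy (hpb hdist) (s, ‖v‖⁻¹ • v) ⟨⟨hs0, hs1⟩, hsph⟩ ht0 hcy hs1
  rw [hF _ hcy, C2_smul] at hw
  exact ⟨w, right_ne_zero_of_mul hw⟩

end

end Pool.Agent.R772
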