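import Mathlib

/-!
Convexity of mean square distances in trees.
-/

set_option autoImplicit false

open Set Filter Topology

namespace Pool.Agent.R772.TT

variable {V : Type} {T : SimpleGraph V}

/-- the neighbour closer to `u` is unique -/
theorem closer_unique (hT : T.IsTree) {u w v v' : V} (h1 : T.Adj v w) (h2 : T.Adj v' w)
    (e1 : T.dist u w = T.dist u v + 1) (e2 : T.dist u w = T.dist u v' + 1) : v = v' := by
  obtain ⟨p, hp⟩ := hT.connected.exists_walk_length_eq_dist u v
  obtain ⟨q, hq⟩ := hT.connected.exists_walk_length_eq_dist u v'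
  have hp' : (p.concat h1).IsPath := by
    refine SimpleGraph.Walk.isPath_of_length_eq_dist _ ?_
    rw [SimpleGraph.Walk.length_concat, hp, e1]
  have hq' : (q.concat h2).IsPath := by
    refine SimpleGraph.Walk.isPath_of_length_eq_dist _ ?_
    rw [SimpleGraph.Walk.length_concat, hq, e2]
  have h := (hT.existsUnique_path u w).unique hp' hq'
  have h3 := congrArg SimpleGraph.Walk.penultimate h
  rwa [SimpleGraph.Walk.penultimate_concat, SimpleGraph.Walk.penultimate_concat] at h3

/-- the neighbour in the direction of a vertex -/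
theorem exists_toward (hT : T.IsTree) {v z : V} (h : v ≠ z) :
    ∃ w, T.Adj v w ∧ T.dist v z = T.dist w z + 1 := by
  obtain ⟨p, hp⟩ := hT.connected.exists_walk_length_eq_dist v z
  cases p with
  | nil => exact absurd rfl h
  | @cons _ w _ hvw q =>
    refine ⟨w, hvw, ?_⟩
    rw [SimpleGraph.Walk.length_cons] at hp
    have h1 : T.dist w z ≤ q.length := SimpleGraph.dist_le q
    rcases hT.dist_eq_dist_add_one_of_adj z hvw with h2 | h2
    · rw [SimpleGraph.dist_comm, h2, SimpleGraph.dist_comm]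
    · exfalso
      rw [SimpleGraph.dist_comm (u := z) (v := w), SimpleGraph.dist_comm (u := z) (v := v)] at h2
      omega

/-- once away, always away -/
theorem away (hT : T.IsTree) (u z : V) : ∀ (n : ℕ) (v w : V), T.Adj v w →
    T.dist u w = T.dist u v + 1 → T.dist v z = T.dist w z + 1 → T.dist w z = n →
    T.dist u z = T.dist u v + (n + 1) := by
  intro n
  induction n with
  | zero =>
    intro v w _ h2 _ h4
    have : w = z := (hT.connected.dist_eq_zero_iff).1 h4
    rw [← this, h2]
  | succ n ih =>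
    intro v w h1 h2 h3 h4
    have hne : w ≠ z := by
      rintro rfl
      rw [SimpleGraph.dist_self] at h4
      omega
    obtain ⟨w2, h5, h6⟩ := exists_toward hT hne
    have h7 : T.dist u w2 = T.dist u w + 1 := by
      rcases hT.dist_eq_dist_add_one_of_adj u h5 with h | h
      · exfalso
        have h8 : v = w2 := closer_unique hT h1 h5.symm h2 h
        rw [← h8] at h6
        omega
      · exact h
    have h9 := ih w w2 h5 h7 h6 (by omega)
    omega

/-- comparison for one vertex -/
theorem comp_one (hT : T.IsTree) {v w z : V} (h1 : T.Adj v w)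
    (h2 : T.dist v z = T.dist w z + 1) (u : V) :
    (T.dist v z : ℝ) * (T.dist u w : ℝ) ^ 2 ≤ ((T.dist v z : ℝ) - 1) * (T.dist u v : ℝ) ^ 2
      + (T.dist u z : ℝ) ^ 2 - (T.dist v z : ℝ) * ((T.dist v z : ℝ) - 1) := by
  rcases hT.dist_eq_dist_add_one_of_adj u h1 with h | h
  · -- `w` is closer
    have hw : (T.dist u w : ℝ) = T.dist u v - 1 := by
      rw [h]
      push_cast
      ring
    have t1 : T.dist v z ≤ T.dist v u + T.dist u z := hT.connected.dist_triangle
    have t2 : T.dist u v ≤ T.dist u z + T.dist z v := hT.connected.dist_triangle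
    rw [SimpleGraph.dist_comm (u := v) (v := u)] at t1
    rw [SimpleGraph.dist_comm (u := z) (v := v)] at t2
    have t1' : (T.dist v z : ℝ) ≤ T.dist u v + T.dist u z := by exact_mod_cast t1
    have t2' : (T.dist u v : ℝ) ≤ T.dist u z + T.dist v z := by exact_mod_cast t2
    have hz : (0 : ℝ) ≤ T.dist u z := by positivity
    have t3 : ((T.dist u v : ℝ) - T.dist v z) ^ 2 ≤ (T.dist u z : ℝ) ^ 2 := by
      apply sq_le_sq'
      · linarith
      · linarith
    rw [hw]
    nlinarith
  · have h3 := away hT u z (T.dist w z) v w h1 h h2 rfl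
    rw [← h2] at h3
    have hw : (T.dist u w : ℝ) = T.dist u v + 1 := by exact_mod_cast h
    have hz : (T.dist u z : ℝ) = T.dist u v + T.dist v z := by exact_mod_cast h3
    rw [hw, hz]
    nlinarith

section mean

variable {κ : Type} (S : Finset κ) (c : κ → ℝ) (u : κ → V)

/-- the mean square distance -/
noncomputable def msd (T : SimpleGraph V) (S : Finset κ) (c : κ → ℝ) (u : κ → V) (z : V) : ℝ :=
  ∑ k ∈ S, c k * (T.dist (u k) z : ℝ) ^ 2

theorem comp_msd (hT : T.IsTree) (hc : ∀ k ∈ S, 0 ≤ c k) (hs : ∑ k ∈ S, c k = 1) {v w z : V}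
    (h1 : T.Adj v w) (h2 : T.dist v z = T.dist w z + 1) :
    (T.dist v z : ℝ) * msd T S c u w ≤ ((T.dist v z : ℝ) - 1) * msd T S c u v
      + msd T S c u z - (T.dist v z : ℝ) * ((T.dist v z : ℝ) - 1) := by
  unfold msd
  have e : (T.dist v z : ℝ) * ((T.dist v z : ℝ) - 1)
      = ∑ k ∈ S, c k * ((T.dist v z : ℝ) * ((T.dist v z : ℝ) - 1)) := by
    rw [← Finset.sum_mul, hs, one_mul]
  rw [e, Finset.mul_sum, Finset.mul_sum, ← Finset.sum_add_distrib, ← Finset.sum_sub_distrib]
  refine Finset.sum_le_sum fun k hk => ?_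
  have h3 := mul_le_mul_of_nonneg_left (comp_one hT h1 h2 (u k)) (hc k hk)
  refine le_trans (le_of_eq ?_) (h3.trans (le_of_eq ?_)) <;> ring

end mean

/-- functions with the comparison property -/
def Cmp (T : SimpleGraph V) (F : V → ℝ) : Prop :=
  ∀ v w z, T.Adj v w → T.dist v z = T.dist w z + 1 →
    (T.dist v z : ℝ) * F w ≤ ((T.dist v z : ℝ) - 1) * F v + F z
      - (T.dist v z : ℝ) * ((T.dist v z : ℝ) - 1)

/-- the vertices at which the minimum is almost attained -/
def Nm (F : V → ℝ) : Set V := {v | ∃ c < 1, ∀ w, F v ≤ F w + c}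

theorem Nm_adj (hT : T.IsTree) {F : V → ℝ} (hF : Cmp T F) {v z : V} (hv : v ∈ Nm F)
    (hz : z ∈ Nm F) : v = z ∨ T.Adj v z := by
  by_cases h : v = z
  · exact Or.inl h
  right
  obtain ⟨w, h1, h2⟩ := exists_toward hT h
  obtain ⟨c, hc, hv⟩ := hv
  obtain ⟨c', hc', hz⟩ := hz
  by_cases h0 : T.dist w z = 0
  · have : w = z := (hT.connected.dist_eq_zero_iff).1 h0
    rwa [← this]
  exfalso
  have hD : (2 : ℝ) ≤ T.dist v z := by
    have : 2 ≤ T.dist v z := by omega
    exact_mod_cast this
  have h3 := hF v w z h1 h2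
  set D : ℝ := (T.dist v z : ℝ)
  have h4 := hv w
  have h5 := hz w
  have h6 : (D - 1) * F v ≤ (D - 1) * (F w + c) := mul_le_mul_of_nonneg_left h4 (by linarith)
  nlinarith

theorem Nm_of_nbr (hT : T.IsTree) {F : V → ℝ} (hF : Cmp T F) {v : V} {c : ℝ} (hc : c < 1)
    (hc0 : 0 ≤ c) (h : ∀ w, T.Adj v w → F v ≤ F w + c) : v ∈ Nm F := by
  refine ⟨c, hc, fun z => ?_⟩
  by_cases hz : v = z
  · rw [← hz]
    linarith
  obtain ⟨w, h1, h2⟩ := exists_toward hT hz
  by_cases h0 : T.dist w z = 0
  · have : w = z := (hT.connected.dist_eq_zero_iff).1 h0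
    rw [← this]
    exact h w h1
  have hD : (2 : ℝ) ≤ T.dist v z := by
    have : 2 ≤ T.dist v z := by omega
    exact_mod_cast this
  have h3 := hF v w z h1 h2
  have h4 := h w h1
  set D : ℝ := (T.dist v z : ℝ)
  have h6 : D * F v ≤ D * (F w + c) := mul_le_mul_of_nonneg_left h4 (by linarith)
  nlinarith

theorem Nm_nonempty [Nonempty V] {F : V → ℝ} (h0 : ∀ v, 0 ≤ F v) : (Nm F).Nonempty := by
  have hb : BddBelow (range F) := ⟨0, by rintro _ ⟨v, rfl⟩; exact h0 v⟩
  have hlt : sInf (range F) < sInf (range F) + 1 / 2 := by linarith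
  obtain ⟨_, ⟨v, rfl⟩, hv⟩ := exists_lt_of_csInf_lt (range_nonempty F) hlt
  refine ⟨v, 1 / 2, by norm_num, fun w => ?_⟩
  have := csInf_le hb ⟨w, rfl⟩
  linarith

end Pool.Agent.R772.TT
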