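import Pool.Agent.R772.CC4
import Pool.Agent.R772.TT1

/-!
Locally constant families of fields; actions on trees.
-/

set_option autoImplicit false

open Set Filter Topology Metric

namespace Pool.Agent.R772.TT

open Pool.Agent.W689.Ch Pool.Agent.TH845.Mk Pool.Agent.Y150.Ch
open Pool.Agent.W689.Mk (lin hol_add hol_sub hol_inv_apply hol_apply_inv lin_inv_apply lin_mul
  lin_smul hol_cont)
open Pool.Agent.TH289.N (avg)

section
variable {X Γ E : Type} [TopologicalSpace X] [T2Space X] [Group Γ] [MulAction Γ X]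
  [NormedAddCommGroup E] [NormedSpace ℝ E] [FiniteDimensional ℝ E]
  {dev : X → E} {hol : Γ →* (E ≃ᵃ[ℝ] E)}

/-- **Equivariant, locally constant families of convex sets of fields.** -/
theorem loc_full (D : AffMfd X Γ E dev hol) {Q : X → Set (X → E)} (hne : ∀ x, (Q x).Nonempty)
    (hcv : ∀ x, Convex ℝ (Q x)) (hc : ∀ x, ∀ Y ∈ Q x, Continuous Y)
    (hi : ∀ (γ : Γ) x, ∀ Y ∈ Q (γ • x), (fun y => lin hol γ⁻¹ (Y (γ • y))) ∈ Q x)
    (ho : ∀ x, ∀ Y ∈ Q x, ∀ᶠ x' in 𝓝 x, Y ∈ Q x') (hf : ∀ x, ∀ Y ∈ Q x, Y x ≠ 0) :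
    ∃ Z : X → E, Continuous Z ∧ (∀ (γ : Γ) x, Z (γ • x) = lin hol γ (Z x)) ∧ ∀ x, Z x ≠ 0 := by
  have := locComp D
  obtain ⟨ρ, hρ⟩ := exists_wt D
  choose y hy using hne
  have hU : ∀ x, ∃ U : Set X, IsOpen U ∧ x ∈ U ∧ ∀ x' ∈ U, y x ∈ Q x' := by
    intro x
    obtain ⟨U, hU1, hU2, hU3⟩ := eventually_nhds_iff.1 (ho x _ (hy x))
    exact ⟨U, hU2, hU3, hU1⟩
  choose U hUo hUx hUy using hU
  obtain ⟨t, ht⟩ := hρ.cpt.isCompact.elim_finite_subcover U hUo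
    (fun x _ => mem_iUnion.2 ⟨x, hUx x⟩)
  let e := t.equivFin
  obtain ⟨f, hf1, hf2, hf3, -⟩ := exists_continuous_sum_one_of_isOpen_isCompact
    (s := fun i : Fin t.card => U (e.symm i).1) (fun i => hUo _) hρ.cpt.isCompact (by
      intro x hx
      obtain ⟨z, hz⟩ := mem_iUnion.1 (ht hx)
      obtain ⟨hzt, hxz⟩ := mem_iUnion.1 hz
      refine mem_iUnion.2 ⟨e ⟨z, hzt⟩, ?_⟩
      rw [Equiv.symm_apply_apply]
      exact hxz)
  let W : X → E := fun x => ∑ i, f i x • y (e.symm i).1 x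
  have hW : Continuous W := continuous_finsetSum _ fun i _ =>
    (f i).continuous.smul (hc _ _ (hy _))
  obtain ⟨h1, h2⟩ := avg D hρ hW
  refine ⟨_, h1, h2, fun x => ?_⟩
  -- the local fields are values of members
  have hWm : ∀ z, ρ z ≠ 0 → ∃ Y ∈ Q z, W z = Y z := by
    intro z hz
    have hzt : z ∈ tsupport ρ := subset_tsupport _ hz
    have hs : ∑ i, f i z = 1 := by
      have := hf2 hzt
      simpa using this
    have e3 : ∑ i ∈ Finset.univ.filter (fun i => f i z ≠ 0), f i z = 1 := by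
      rw [← hs, Finset.sum_filter]
      refine Finset.sum_congr rfl fun i _ => ?_
      by_cases h : f i z = 0
      · rw [if_neg (not_not.2 h), h]
      · rw [if_pos h]
    refine ⟨∑ i ∈ Finset.univ.filter (fun i => f i z ≠ 0), f i z • y (e.symm i).1,
      (hcv z).sum_mem (fun i _ => (hf3 i z).1) e3 fun i hi => ?_, ?_⟩
    · have h3 : f i z ≠ 0 := (Finset.mem_filter.1 hi).2
      exact hUy _ z (hf1 i (subset_tsupport _ h3))
    · show ∑ i, f i z • y (e.symm i).1 z = _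
      rw [Finset.sum_apply, Finset.sum_filter]
      refine Finset.sum_congr rfl fun i _ => ?_
      by_cases h : f i z = 0
      · rw [if_neg (not_not.2 h), h, zero_smul]
      · rw [if_pos h]
        rfl
  obtain ⟨V, hV, F, hF⟩ := hρ.locfin x
  have hxV := mem_of_mem_nhds hV
  have hs : ∑ γ ∈ F, ρ (γ • x) = 1 := by
    rw [← hρ.sum x]
    exact (tsum_eq_sum fun γ hγ => hF γ hγ x hxV).symm
  have h3 : ∑' γ : Γ, ρ (γ • x) • lin hol γ⁻¹ (W (γ • x)) =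
      ∑ γ ∈ F, ρ (γ • x) • lin hol γ⁻¹ (W (γ • x)) :=
    tsum_eq_sum fun γ hγ => by rw [hF γ hγ x hxV, zero_smul]
  have h4 : ∀ γ : Γ, ∃ Y : X → E, ρ (γ • x) ≠ 0 → Y ∈ Q x ∧ lin hol γ⁻¹ (W (γ • x)) = Y x := by
    intro γ
    by_cases h : ρ (γ • x) = 0
    · exact ⟨0, fun h' => absurd h h'⟩
    · obtain ⟨Y, hY, hYe⟩ := hWm (γ • x) h
      exact ⟨_, fun _ => ⟨hi γ x Y hY, by rw [hYe]⟩⟩
  choose Y hY using h4
  have h6 : ∑ γ ∈ F, ρ (γ • x) • lin hol γ⁻¹ (W (γ • x)) =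
      (∑ γ ∈ F.filter (fun γ => ρ (γ • x) ≠ 0), ρ (γ • x) • Y γ) x := by
    rw [Finset.sum_apply, Finset.sum_filter]
    refine Finset.sum_congr rfl fun γ _ => ?_
    by_cases h : ρ (γ • x) = 0
    · rw [if_neg (not_not.2 h), h, zero_smul]
    · rw [if_pos h, (hY γ h).2]
      rfl
  have h7 : ∑ γ ∈ F.filter (fun γ => ρ (γ • x) ≠ 0), ρ (γ • x) = 1 := by
    rw [← hs, Finset.sum_filter]
    refine Finset.sum_congr rfl fun γ _ => ?_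
    by_cases h : ρ (γ • x) = 0
    · rw [if_neg (not_not.2 h), h]
    · rw [if_pos h]
  show ∑' γ : Γ, ρ (γ • x) • lin hol γ⁻¹ (W (γ • x)) ≠ 0
  rw [h3, h6]
  exact hf x _ ((hcv x).sum_mem (fun γ _ => hρ.nonneg _) h7 fun γ hγ =>
    (hY γ (Finset.mem_filter.1 hγ).2).1)

/-! ### trees -/

variable {V : Type} [MulAction Γ V] {T : SimpleGraph V}

/-- the action is by automorphisms of the graph -/
def Aut (Γ : Type) [Group Γ] {V : Type} [MulAction Γ V] (T : SimpleGraph V) : Prop :=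
  ∀ (γ : Γ) (v w : V), T.Adj v w → T.Adj (γ • v) (γ • w)

omit [TopologicalSpace X] [T2Space X] [MulAction Γ X] in
theorem dist_smul (hT : T.IsTree) (ha : Aut Γ T) (γ : Γ) (v w : V) :
    T.dist (γ • v) (γ • w) = T.dist v w := by
  have key : ∀ (δ : Γ) (a b : V), T.dist (δ • a) (δ • b) ≤ T.dist a b := by
    intro δ a b
    obtain ⟨p, hp⟩ := hT.connected.exists_walk_length_eq_dist a b
    let φ : T →g T := ⟨fun z => δ • z, fun {a b} h => ha δ a b h⟩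
    rw [← hp, ← SimpleGraph.Walk.length_map φ p]
    exact SimpleGraph.dist_le (p.map φ)
  refine le_antisymm (key γ v w) ?_
  have := key γ⁻¹ (γ • v) (γ • w)
  rwa [inv_smul_smul, inv_smul_smul] at this

/-- the mean square distance of a vertex to the orbit of the vertex `v₀`, with the weights at `x` -/
noncomputable def FF (ρ : X → ℝ) (T : SimpleGraph V) (Γ : Type) [Group Γ] [MulAction Γ X]
    [MulAction Γ V] (v₀ : V) (x : X) (z : V) : ℝ :=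
  ∑' γ : Γ, ρ (γ • x) * (T.dist (γ⁻¹ • v₀) z : ℝ) ^ 2

omit [T2Space X] in
theorem FF_loc {ρ : X → ℝ} (hρ : Wt Γ ρ) (v₀ : V) (x : X) :
    ∃ U ∈ 𝓝 x, ∃ S : Finset Γ, (∀ y ∈ U, FF ρ T Γ v₀ y
      = msd T S (fun γ => ρ (γ • y)) fun γ => γ⁻¹ • v₀) ∧ ∀ y ∈ U, ∑ γ ∈ S, ρ (γ • y) = 1 := by
  obtain ⟨U, hU, S, hS⟩ := hρ.locfin x
  refine ⟨U, hU, S, fun y hy => ?_, fun y hy => ?_⟩
  · funext z
    exact tsum_eq_sum fun γ hγ => by rw [hS γ hγ y hy, zero_mul]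
  · rw [← hρ.sum y]
    exact (tsum_eq_sum fun γ hγ => hS γ hγ y hy).symm

omit [T2Space X] in
theorem FF_cmp (hT : T.IsTree) {ρ : X → ℝ} (hρ : Wt Γ ρ) (v₀ : V) (x : X) :
    Cmp T (FF ρ T Γ v₀ x) := by
  obtain ⟨U, hU, S, h1, h2⟩ := FF_loc (T := T) hρ v₀ x
  have hx := mem_of_mem_nhds hU
  rw [h1 x hx]
  exact fun v w z h3 h4 => comp_msd S _ _ hT (fun _ _ => hρ.nonneg _) (h2 x hx) h3 h4

omit [T2Space X] in
theorem FF_nonneg {ρ : X → ℝ} (hρ : Wt Γ ρ) (v₀ : V) (x : X) (z : V) : 0 ≤ FF ρ T Γ v₀ x z :=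
  tsum_nonneg fun γ => mul_nonneg (hρ.nonneg _) (sq_nonneg _)

omit [TopologicalSpace X] [T2Space X] in
theorem FF_smul (hT : T.IsTree) (ha : Aut Γ T) (ρ : X → ℝ) (v₀ : V) (δ : Γ) (x : X) (z : V) :
    FF ρ T Γ v₀ (δ • x) (δ • z) = FF ρ T Γ v₀ x z := by
  unfold FF
  rw [← Equiv.tsum_eq (Equiv.mulRight δ)
    (fun γ : Γ => ρ (γ • x) * (T.dist (γ⁻¹ • v₀) z : ℝ) ^ 2)]
  refine tsum_congr fun γ => ?_
  show ρ (γ • δ • x) * (T.dist (γ⁻¹ • v₀) (δ • z) : ℝ) ^ 2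
    = ρ ((γ * δ) • x) * (T.dist ((γ * δ)⁻¹ • v₀) z : ℝ) ^ 2
  rw [smul_smul, mul_inv_rev, mul_smul δ⁻¹ γ⁻¹ v₀, ← dist_smul hT ha δ (δ⁻¹ • γ⁻¹ • v₀) z,
    smul_inv_smul]

omit [TopologicalSpace X] [T2Space X] in
theorem Nm_smul (hT : T.IsTree) (ha : Aut Γ T) (ρ : X → ℝ) (v₀ : V) (δ : Γ) (x : X) (v : V)
    (h : v ∈ Nm (FF ρ T Γ v₀ x)) : δ • v ∈ Nm (FF ρ T Γ v₀ (δ • x)) := by
  obtain ⟨c, hc, hv⟩ := h
  refine ⟨c, hc, fun w => ?_⟩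
  have h1 := hv (δ⁻¹ • w)
  have h2 := FF_smul hT ha ρ v₀ δ x (δ⁻¹ • w)
  rw [smul_inv_smul] at h2
  rw [FF_smul hT ha ρ v₀ δ x v, h2]
  exact h1

omit [T2Space X] in
/-- the near minima are locally constant -/
theorem Nm_open (hT : T.IsTree) {ρ : X → ℝ} (hρ : Wt Γ ρ) (hcont : ∀ γ : Γ, Continuous fun x : X => γ • x)
    (v₀ : V) (x : X) (v : V) (h : v ∈ Nm (FF ρ T Γ v₀ x)) :
    ∀ᶠ y in 𝓝 x, v ∈ Nm (FF ρ T Γ v₀ y) := by
  obtain ⟨c, hc, hv⟩ := h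
  have hc0 : 0 ≤ c := by
    have := hv v
    linarith
  obtain ⟨U, hU, S, h1, h2⟩ := FF_loc (T := T) hρ v₀ x
  have hx := mem_of_mem_nhds hU
  have hcg : Continuous fun y => ∑ γ ∈ S, |ρ (γ • y) - ρ (γ • x)|
      * (2 * (T.dist (γ⁻¹ • v₀) v : ℝ) + 1) := by
    refine continuous_finsetSum _ fun γ _ => ?_
    exact ((((hρ.cont.comp (hcont γ)).sub continuous_const).abs).mul continuous_const)
  have hg0 : ∑ γ ∈ S, |ρ (γ • x) - ρ (γ • x)| * (2 * (T.dist (γ⁻¹ • v₀) v : ℝ) + 1) = 0 := by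
    simp
  have hev : ∀ᶠ y in 𝓝 x, ∑ γ ∈ S, |ρ (γ • y) - ρ (γ • x)|
      * (2 * (T.dist (γ⁻¹ • v₀) v : ℝ) + 1) < (1 - c) / 2 := by
    refine hcg.continuousAt.eventually_lt continuousAt_const ?_
    rw [hg0]
    linarith
  filter_upwards [hU, hev] with y hyU hy
  refine Nm_of_nbr hT (FF_cmp hT hρ v₀ y) (c := (1 + c) / 2) (by linarith) (by linarith)
    fun w hw => ?_
  have h3 := hv w
  rw [h1 x hx] at h3
  rw [h1 y hyU]
  unfold msd at h3 ⊢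
  have h4 : ∑ γ ∈ S, ρ (γ • y) * (T.dist (γ⁻¹ • v₀) v : ℝ) ^ 2
      - ∑ γ ∈ S, ρ (γ • y) * (T.dist (γ⁻¹ • v₀) w : ℝ) ^ 2
      - (∑ γ ∈ S, ρ (γ • x) * (T.dist (γ⁻¹ • v₀) v : ℝ) ^ 2
        - ∑ γ ∈ S, ρ (γ • x) * (T.dist (γ⁻¹ • v₀) w : ℝ) ^ 2)
      ≤ ∑ γ ∈ S, |ρ (γ • y) - ρ (γ • x)| * (2 * (T.dist (γ⁻¹ • v₀) v : ℝ) + 1) := by
    rw [← Finset.sum_sub_distrib, ← Finset.sum_sub_distrib, ← Finset.sum_sub_distrib]
    refine Finset.sum_le_sum fun γ _ => ?_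
    have h5 : ρ (γ • y) * (T.dist (γ⁻¹ • v₀) v : ℝ) ^ 2 - ρ (γ • y) * (T.dist (γ⁻¹ • v₀) w : ℝ) ^ 2
        - (ρ (γ • x) * (T.dist (γ⁻¹ • v₀) v : ℝ) ^ 2 - ρ (γ • x) * (T.dist (γ⁻¹ • v₀) w : ℝ) ^ 2)
        = (ρ (γ • y) - ρ (γ • x))
          * ((T.dist (γ⁻¹ • v₀) v : ℝ) ^ 2 - (T.dist (γ⁻¹ • v₀) w : ℝ) ^ 2) := by ring
    rw [h5]
    refine (le_abs_self _).trans ?_
    rw [abs_mul]
    refine mul_le_mul_of_nonneg_left ?_ (abs_nonneg _)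
    have hd : (0 : ℝ) ≤ T.dist (γ⁻¹ • v₀) v := by positivity
    rcases hT.dist_eq_dist_add_one_of_adj (γ⁻¹ • v₀) hw with h | h
    · have h6 : (T.dist (γ⁻¹ • v₀) v : ℝ) = T.dist (γ⁻¹ • v₀) w + 1 := by exact_mod_cast h
      have hd' : (0 : ℝ) ≤ T.dist (γ⁻¹ • v₀) w := by positivity
      rw [h6, abs_le]
      constructor <;> nlinarith
    · have h6 : (T.dist (γ⁻¹ • v₀) w : ℝ) = T.dist (γ⁻¹ • v₀) v + 1 := by exact_mod_cast h
      rw [h6, abs_le]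
      constructor <;> nlinarith
  linarith

end

end Pool.Agent.R772.TT
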