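import Pool.Agent.R772.TT3

/-!
Invariant half-lines of vertex stabilizers.
-/

set_option autoImplicit false

open Set Filter Topology Metric

namespace Pool.Agent.R772.TT

open Pool.Agent.W689.Ch Pool.Agent.TH845.Mk Pool.Agent.Y150.Ch
open Pool.Agent.W689.Mk (lin hol_add hol_sub hol_inv_apply hol_apply_inv lin_inv_apply lin_mul
  lin_smul lin_neg hol_cont)

section signs

variable {V : Type} {T : SimpleGraph V}

/-- signs of the edges of a tree come from signs of the vertices -/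
theorem exists_sign (hT : T.IsTree) (σ : V → V → ℤˣ) (hs : ∀ v w, σ v w = σ w v) :
    ∃ ε : V → ℤˣ, ∀ v w, T.Adj v w → ε v * ε w = σ v w := by
  obtain ⟨v₀⟩ := hT.connected.nonempty
  choose p hp using fun v => hT.connected.exists_walk_length_eq_dist v₀ v
  let ε : V → ℤˣ := fun v => ((p v).darts.map fun d => σ d.fst d.snd).prod
  have key : ∀ v w, T.Adj v w → T.dist v₀ w = T.dist v₀ v + 1 → ε w = ε v * σ v w := by
    intro v w h hd
    have h1 : (p w).IsPath := SimpleGraph.Walk.isPath_of_length_eq_dist _ (hp w)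
    have h2 : ((p v).concat h).IsPath := by
      refine SimpleGraph.Walk.isPath_of_length_eq_dist _ ?_
      rw [SimpleGraph.Walk.length_concat, hp, hd]
    have h3 : p w = (p v).concat h := (hT.existsUnique_path v₀ w).unique h1 h2
    show ((p w).darts.map fun d => σ d.fst d.snd).prod
      = ((p v).darts.map fun d => σ d.fst d.snd).prod * σ v w
    rw [h3, SimpleGraph.Walk.darts_concat, List.concat_eq_append, List.map_append,
      List.prod_append]
    simp
  refine ⟨ε, fun v w h => ?_⟩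
  rcases hT.dist_eq_dist_add_one_of_adj v₀ h with hd | hd
  · rw [key w v h.symm hd, mul_right_comm, Int.units_mul_self, one_mul, hs]
  · rw [key v w h hd, ← mul_assoc, Int.units_mul_self, one_mul]

theorem const_of_adj (hT : T.IsTree) {α : Type} (f : V → α) (h : ∀ v w, T.Adj v w → f v = f w)
    (v w : V) : f v = f w := by
  obtain ⟨p⟩ := hT.connected v w
  induction p with
  | nil => rfl
  | cons h1 _ ih => exact (h _ _ h1).trans ih

theorem exists_sign_hom (hT : T.IsTree) {K : Type} [Group K] [MulAction K V] (ha : Aut K T)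
    (σ : V → V → ℤˣ) (hs : ∀ v w, σ v w = σ w v)
    (hi : ∀ (γ : K) v w, σ (γ • v) (γ • w) = σ v w) :
    ∃ ε : V → ℤˣ, (∀ v w, T.Adj v w → ε v * ε w = σ v w) ∧
      ∃ χ : K →* ℤˣ, ∀ γ v, ε (γ • v) = χ γ * ε v := by
  obtain ⟨ε, hε⟩ := exists_sign hT σ hs
  obtain ⟨v₀⟩ := hT.connected.nonempty
  have h1 : ∀ (γ : K) v w, ε (γ • v) * ε v = ε (γ • w) * ε w := by
    intro γ
    refine const_of_adj hT (fun v => ε (γ • v) * ε v) fun v w h => ?_
    have h2 := hε _ _ (ha γ v w h)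
    rw [hi, ← hε v w h] at h2
    -- `ε (γ v) ε (γ w) = ε v ε w`
    have h3 : ε (γ • v) * ε v * (ε (γ • w) * ε w) = 1 := by
      have e : ε (γ • v) * ε v * (ε (γ • w) * ε w) = ε (γ • v) * ε (γ • w) * (ε v * ε w) := by
        rw [mul_assoc, mul_left_comm (ε v), ← mul_assoc]
      rw [e, h2, Int.units_mul_self]
    have h4 := eq_inv_of_mul_eq_one_left h3
    rw [Int.units_inv_eq_self] at h4
    exact h4
  have h5 : ∀ (γ : K) v, ε (γ • v) = ε (γ • v₀) * ε v₀ * ε v := by
    intro γ v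
    rw [← h1 γ v v₀, mul_assoc, Int.units_mul_self, mul_one]
  refine ⟨ε, hε, ⟨⟨fun γ => ε (γ • v₀) * ε v₀, ?_⟩, ?_⟩, fun γ v => h5 γ v⟩
  · show ε ((1 : K) • v₀) * ε v₀ = 1
    rw [one_smul, Int.units_mul_self]
  · intro γ δ
    show ε ((γ * δ) • v₀) * ε v₀ = ε (γ • v₀) * ε v₀ * (ε (δ • v₀) * ε v₀)
    rw [mul_smul, h5 γ (δ • v₀), mul_assoc]

end signs

section
variable {X Γ E : Type} [TopologicalSpace X] [T2Space X] [Group Γ] [MulAction Γ X]
  [NormedAddCommGroup E] [NormedSpace ℝ E] [FiniteDimensional ℝ E]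
  {dev : X → E} {hol : Γ →* (E ≃ᵃ[ℝ] E)}

/-- the cone spanned by two vectors does not contain the origin -/
theorem zero_notMem_cone {p q : E} (hp : p ≠ 0) (hq : q ≠ 0)
    (h : ∀ c : ℝ, 0 < c → q ≠ -(c • p)) {S : Set E}
    (hS : ∀ u ∈ S, ∃ a b : ℝ, 0 ≤ a ∧ 0 ≤ b ∧ 0 < a + b ∧ u = a • p + b • q) :
    (0 : E) ∉ convexHull ℝ S := by
  have h1 : convexHull ℝ S ⊆ {u | ∃ a b : ℝ, 0 ≤ a ∧ 0 ≤ b ∧ 0 < a + b ∧ u = a • p + b • q} := by
    refine convexHull_min hS ?_
    rintro _ ⟨a, b, ha, hb, hab, rfl⟩ _ ⟨a', b', ha', hb', hab', rfl⟩ s t hs ht hst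
    refine ⟨s * a + t * a', s * b + t * b', by positivity, by positivity, ?_, ?_⟩
    · have e : s * a + t * a' + (s * b + t * b') = s * (a + b) + t * (a' + b') := by ring
      rw [e]
      rcases hs.eq_or_lt with h0 | h0
      · have : t = 1 := by linarith
        rw [← h0, this]
        linarith
      · have := mul_pos h0 hab
        have := mul_nonneg ht hab'.le
        linarith
    · module
  intro h0
  obtain ⟨a, b, ha, hb, hab, h2⟩ := h1 h0
  rcases hb.eq_or_lt with hb0 | hb0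
  · rw [← hb0, zero_smul, add_zero] at h2
    rcases smul_eq_zero.1 h2.symm with h3 | h3
    · rw [h3, ← hb0] at hab
      simp at hab
    · exact hp h3
  · rcases ha.eq_or_lt with ha0 | ha0
    · rw [← ha0, zero_smul, zero_add] at h2
      rcases smul_eq_zero.1 h2.symm with h3 | h3
      · exact hb0.ne' h3
      · exact hq h3
    · refine h (a / b) (div_pos ha0 hb0) ?_
      have h3 : b • q = -(a • p) := by
        rw [eq_neg_iff_add_eq_zero, add_comm]
        exact h2.symm
      have h4 : q = b⁻¹ • (b • q) := by rw [smul_smul, inv_mul_cancel₀ hb0.ne', one_smul]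
      rw [h4, h3, smul_neg, smul_smul, div_eq_inv_mul]

/-- the cells of a tree have at most two elements -/
theorem cell_two {V : Type} {T : SimpleGraph V} (hT : T.IsTree) {C : Set (Unit → V)}
    (hC : Cell (fun _ : Unit => T) C) {v : Unit → V} (hv : v ∈ C) :
    ∃ w ∈ C, (v () = w () ∨ T.Adj (v ()) (w ())) ∧ ∀ z ∈ C, z () = v () ∨ z () = w () := by
  by_cases h : ∃ w ∈ C, w () ≠ v ()
  · obtain ⟨w, hw, hne⟩ := h
    have h1 : T.Adj (v ()) (w ()) := by
      rcases hC v hv w hw () with h1 | h1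
      · exact absurd h1.symm hne
      · exact h1
    refine ⟨w, hw, Or.inr h1, fun z hz => ?_⟩
    by_contra hcon
    push Not at hcon
    have h2 : T.Adj (v ()) (z ()) := by
      rcases hC v hv z hz () with h2 | h2
      · exact absurd h2.symm hcon.1
      · exact h2
    have h3 : T.Adj (w ()) (z ()) := by
      rcases hC w hw z hz () with h3 | h3
      · exact absurd h3.symm hcon.2
      · exact h3
    refine hT.dist_ne_of_adj (v ()) h3 ?_
    rw [SimpleGraph.dist_eq_one_iff_adj.2 h1, SimpleGraph.dist_eq_one_iff_adj.2 h2]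
  · push Not at h
    exact ⟨v, hv, Or.inl rfl, fun z hz => Or.inl (h z hz)⟩

variable {H : AffineSubspace ℝ E} {x₀ : X}

/-- some vertex stabilizer leaves no half-line invariant -/
theorem rays_gen (D : AffMfd X Γ E dev hol) {K : Subgroup Γ} (hK : K.FiniteIndex)
    (hx : dev x₀ ∈ H) (hinvK : ∀ γ ∈ K, ∀ q ∈ H, hol γ q ∈ H)
    (hfld : ∀ K' ≤ K, K'.FiniteIndex → ¬ Fld dev (hol.comp K'.subtype) H) {V : Type}
    [MulAction K V] {T : SimpleGraph V} (hT : T.IsTree) (ha : Aut K T) :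
    ∃ v : V, ∀ u ∈ H.direction, u ≠ 0 →
      ∃ γ : K, γ • v = v ∧ ∀ c : ℝ, 0 < c → lin hol γ.1 u ≠ c • u := by
  classical
  by_contra hcon
  push Not at hcon
  choose u hu1 hu2 hu3 using hcon
  have hinvH : ∀ (γ : K), ∀ q ∈ H, (hol.comp K.subtype) γ q ∈ H :=
    fun γ q hq => hinvK γ.1 γ.2 q hq
  have hdir : ∀ (γ : K) (v : E), v ∈ H.direction → lin hol γ.1 v ∈ H.direction := fun γ v hv =>
    lin_mem_dir (hol := hol.comp K.subtype) hx hinvH γ hv
  -- orbit representatives
  let r : V → V := fun v => (Quotient.mk (MulAction.orbitRel K V) v).out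
  have hr : ∀ (γ : K) v, r (γ • v) = r v := fun γ v =>
    congrArg Quotient.out (Quotient.sound (⟨γ, rfl⟩ : γ • v ∈ MulAction.orbit K v))
  have hg' : ∀ v, ∃ g : K, g • r v = v := by
    intro v
    have h : r v ∈ MulAction.orbit K v := Quotient.mk_out (s := MulAction.orbitRel K V) v
    obtain ⟨g, hg⟩ := h
    refine ⟨g⁻¹, ?_⟩
    rw [← hg]
    exact inv_smul_smul g v
  choose g hg using hg'
  let s : V → E := fun v => lin hol (g v).1 (u (r v))
  have hsd : ∀ v, s v ∈ H.direction := fun v => hdir _ _ (hu1 _)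
  have hs0 : ∀ v, s v ≠ 0 := by
    intro v h
    have h1 : lin hol (g v).1 (u (r v)) = 0 := h
    have h2 := lin_inv_apply (hol := hol) (g v).1 (u (r v))
    rw [h1] at h2
    refine hu2 (r v) (h2.symm.trans ?_)
    exact (hol (g v).1⁻¹).linear.map_zero
  have hse : ∀ (γ : K) v, ∃ c : ℝ, 0 < c ∧ lin hol γ.1 (s v) = c • s (γ • v) := by
    intro γ v
    have h1 : ((g (γ • v))⁻¹ * γ * g v) • r v = r v := by
      rw [mul_smul, mul_smul, hg, inv_smul_eq_iff]
      have h2 := hg (γ • v)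
      rw [hr] at h2
      exact h2.symm
    obtain ⟨c, hc, h2⟩ := hu3 (r v) _ h1
    refine ⟨c, hc, ?_⟩
    show lin hol γ.1 (lin hol (g v).1 (u (r v))) = c • lin hol (g (γ • v)).1 (u (r (γ • v)))
    rw [hr, ← lin_smul, ← h2, ← lin_mul, ← lin_mul]
    congr 1
    show γ.1 * (g v).1 = (g (γ • v)).1 * ((g (γ • v)).1⁻¹ * γ.1 * (g v).1)
    group
  -- signs
  let N : V → V → Prop := fun v w => ∃ c : ℝ, 0 < c ∧ s w = -(c • s v)
  have hNs : ∀ v w, N v w → N w v := by
    rintro v w ⟨c, hc, h⟩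
    refine ⟨c⁻¹, inv_pos.2 hc, ?_⟩
    rw [h, smul_neg, smul_smul, inv_mul_cancel₀ hc.ne', one_smul, neg_neg]
  have hNi : ∀ (γ : K) v w, N v w → N (γ • v) (γ • w) := by
    rintro γ v w ⟨c, hc, h⟩
    obtain ⟨a, ha', h1⟩ := hse γ v
    obtain ⟨b, hb, h2⟩ := hse γ w
    refine ⟨b⁻¹ * (c * a), by positivity, ?_⟩
    rw [h, lin_neg, lin_smul, h1, smul_smul] at h2
    have h3 : s (γ • w) = b⁻¹ • (b • s (γ • w)) := by
      rw [smul_smul, inv_mul_cancel₀ hb.ne', one_smul]
    rw [h3, ← h2, smul_neg, smul_smul]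
  have hNi' : ∀ (γ : K) v w, N (γ • v) (γ • w) ↔ N v w := by
    intro γ v w
    refine ⟨fun h => ?_, hNi γ v w⟩
    have := hNi γ⁻¹ _ _ h
    rwa [inv_smul_smul, inv_smul_smul] at this
  obtain ⟨ε, hε, χ, hχ⟩ := exists_sign_hom hT ha (fun v w => if N v w then (-1 : ℤˣ) else 1)
    (fun v w => by
      by_cases h : N v w
      · rw [if_pos h, if_pos (hNs v w h)]
      · rw [if_neg h, if_neg fun h' => h (hNs w v h')])
    (fun γ v w => by simp only [hNi'])
  let s' : V → E := fun v => ((ε v : ℤ) : ℝ) • s v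
  have hεr : ∀ v, ((ε v : ℤ) : ℝ) * ((ε v : ℤ) : ℝ) = 1 := by
    intro v
    have := Int.units_coe_mul_self (ε v)
    exact_mod_cast this
  have hs'0 : ∀ v, s' v ≠ 0 := by
    intro v h
    have h1 : ((ε v : ℤ) : ℝ) • s v = 0 := h
    rcases smul_eq_zero.1 h1 with h2 | h2
    · have := hεr v
      rw [h2] at this
      norm_num at this
    · exact hs0 v h2
  have hs'N : ∀ v w, T.Adj v w → ∀ c : ℝ, 0 < c → s' w ≠ -(c • s' v) := by
    intro v w hvw c hc h
    have h1 : ((ε w : ℤ) : ℝ) • s w = -(c • ((ε v : ℤ) : ℝ) • s v) := h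
    have h2 : s w = -(c • (((ε v : ℤ) : ℝ) * ((ε w : ℤ) : ℝ)) • s v) := by
      have h3 : s w = ((ε w : ℤ) : ℝ) • (((ε w : ℤ) : ℝ) • s w) := by
        rw [smul_smul, hεr, one_smul]
      rw [h3, h1]
      module
    have h4 := hε v w hvw
    by_cases hN : N v w
    · rw [if_pos hN] at h4
      have h5 : ((ε v : ℤ) : ℝ) * ((ε w : ℤ) : ℝ) = -1 := by
        have : ((ε v * ε w : ℤˣ) : ℤ) = -1 := by rw [h4]; rfl
        rw [Units.val_mul] at this
        exact_mod_cast this
      obtain ⟨c', hc', h6⟩ := hN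
      rw [h5] at h2
      have h7 : (c + c') • s v = 0 := by
        have h8 : -(c • (-1 : ℝ) • s v) = -(c' • s v) := h2.symm.trans h6
        have h9 : c • s v + c' • s v = 0 := by
          rw [neg_smul, one_smul, smul_neg, neg_neg] at h8
          rw [h8, neg_add_cancel]
        rw [add_smul, h9]
      rcases smul_eq_zero.1 h7 with h8 | h8
      · linarith
      · exact hs0 v h8
    · rw [if_neg hN] at h4
      have h5 : ((ε v : ℤ) : ℝ) * ((ε w : ℤ) : ℝ) = 1 := by
        have : ((ε v * ε w : ℤˣ) : ℤ) = 1 := by rw [h4]; rfl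
        rw [Units.val_mul] at this
        exact_mod_cast this
      rw [h5, one_smul] at h2
      exact hN ⟨c, hc, h2⟩
  -- the subgroup
  let K' : Subgroup Γ := χ.ker.map K.subtype
  have hle : K' ≤ K := by
    rintro _ ⟨k, -, rfl⟩
    exact k.2
  have hK' : K'.FiniteIndex := by
    refine ⟨?_⟩
    rw [Subgroup.index_map_subtype]
    exact mul_ne_zero (Subgroup.finiteIndex_ker χ).index_ne_zero hK.index_ne_zero
  have hmem : ∀ γ : K', Subgroup.inclusion hle γ ∈ χ.ker := by
    rintro ⟨_, k, hk, rfl⟩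
    exact hk
  let _ : MulAction K' V := MulAction.compHom V (Subgroup.inclusion hle)
  have hsm : ∀ (γ : K') (v : V), γ • v = (Subgroup.inclusion hle γ) • v := fun _ _ => rfl
  have hs'e : ∀ (γ : K') v, ∃ c : ℝ, 0 < c ∧ lin hol γ.1 (s' v) = c • s' (γ • v) := by
    intro γ v
    obtain ⟨c, hc, h⟩ := hse (Subgroup.inclusion hle γ) v
    refine ⟨c, hc, ?_⟩
    have h1 : ε (γ • v) = ε v := by
      rw [hsm, hχ, (MonoidHom.mem_ker).1 (hmem γ), one_mul]
    have h2 : lin hol γ.1 (s v) = c • s (γ • v) := h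
    show lin hol γ.1 (((ε v : ℤ) : ℝ) • s v) = c • ((ε (γ • v) : ℤ) : ℝ) • s (γ • v)
    rw [lin_smul, h2, h1, smul_comm]
  have key := trees_gen D hK' hx (fun γ hγ => hinvK γ (hle hγ)) (hfld K' hle hK')
    (ι := Unit) (V := fun _ => V) (T := fun _ => T) (fun _ => hT)
    (fun _ => fun γ v w h => ha (Subgroup.inclusion hle γ) v w h)
    (Q := fun v => {Y : X → E | ∃ c : ℝ, 0 < c ∧ Y = fun _ => c • s' (v ())}) ?_ ?_ ?_ ?_
  · obtain ⟨x, hxH, C, hC, h0⟩ := key
    have hCne : C.Nonempty := by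
      by_contra hne
      rw [not_nonempty_iff_eq_empty] at hne
      rw [hne] at h0
      have : {u : E | ∃ v ∈ (∅ : Set (Unit → V)), ∃ Y ∈ {Y : X → E | ∃ c : ℝ, 0 < c ∧
          Y = fun _ => c • s' (v ())}, u = Y x} = ∅ := by
        ext u
        simp
      rw [this, convexHull_empty] at h0
      exact h0
    obtain ⟨v, hv⟩ := hCne
    obtain ⟨w, hw, hvw, hz⟩ := cell_two hT hC hv
    refine zero_notMem_cone (hs'0 (v ())) (hs'0 (w ())) ?_ ?_ h0
    · intro c hc h
      rcases hvw with h1 | h1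
      · rw [← h1] at h
        have h2 : (1 + c) • s' (v ()) = 0 := by
          rw [add_smul, one_smul]
          nth_rewrite 1 [h]
          rw [neg_add_cancel]
        rcases smul_eq_zero.1 h2 with h3 | h3
        · linarith
        · exact hs'0 _ h3
      · exact hs'N _ _ h1 c hc h
    · rintro _ ⟨z, hzC, _, ⟨c, hc, rfl⟩, rfl⟩
      rcases hz z hzC with h1 | h1
      · refine ⟨c, 0, hc.le, le_rfl, by linarith, ?_⟩
        show c • s' (z ()) = _
        rw [h1, zero_smul, add_zero]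
      · refine ⟨0, c, le_rfl, hc.le, by linarith, ?_⟩
        show c • s' (z ()) = _
        rw [h1, zero_smul, zero_add]
  · exact fun v => ⟨_, 1, one_pos, rfl⟩
  · rintro v _ ⟨c, -, rfl⟩
    exact continuousOn_const
  · rintro v _ ⟨c, -, rfl⟩ x _
    exact H.direction.smul_mem _ (H.direction.smul_mem _ (hsd _))
  · rintro γ v _ ⟨c, hc, rfl⟩
    obtain ⟨a, ha', h⟩ := hs'e γ (v ())
    refine ⟨_, ⟨c * a, mul_pos hc ha', rfl⟩, fun x _ => ?_⟩
    show lin hol γ.1 (c • s' (v ())) = (c * a) • s' (γ • v ())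
    rw [lin_smul, h, smul_smul]

end

end Pool.Agent.R772.TT
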