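import Pool.Agent.R772.TT4

/-!
Actions on hyperbolic spaces and on CAT(0) spaces.
-/

set_option autoImplicit false

open Set Filter Topology Metric

namespace Pool.Agent.R772.TT

open Pool.Agent.W689.Ch Pool.Agent.TH845.Mk Pool.Agent.Y150.Ch
open Pool.Agent.W689.Mk (lin hol_add hol_sub hol_inv_apply hol_apply_inv lin_inv_apply lin_mul
  lin_smul lin_neg hol_cont)

/-- locally constant equivariant choices of sets of pairwise close elements -/
def Loc (Γ : Type) [Group Γ] {V : Type} [MulAction Γ V] (cl : V → V → Prop) : Prop :=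
  ∀ (X : Type) [TopologicalSpace X] [MulAction Γ X] (ρ : X → ℝ), Wt Γ ρ →
    (∀ γ : Γ, Continuous fun x : X => γ • x) → ∃ N : X → Set V, (∀ x, (N x).Nonempty) ∧
      (∀ x, ∀ v ∈ N x, ∀ w ∈ N x, cl v w) ∧ (∀ (γ : Γ) x, ∀ v ∈ N x, γ • v ∈ N (γ • x)) ∧
      ∀ x, ∀ v ∈ N x, ∀ᶠ y in 𝓝 x, v ∈ N y

/-- kernels whose means have localized near minima -/
structure Ker (Γ : Type) [Group Γ] {V : Type} [MulAction Γ V] (φ : V → V → ℝ)
    (cl : V → V → Prop) (κ : ℝ) : Prop where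
  one : ∀ v w, 1 ≤ φ v w
  inv : ∀ (γ : Γ) v w, φ (γ • v) (γ • w) = φ v w
  pos : 0 < κ
  lt : κ < 1
  mid : ∀ p q, cl p q ∨ ∃ m, ∀ r, φ r m ≤ κ * ((φ r p + φ r q) / 2)

/-- near minima -/
def NK {V : Type} (κ : ℝ) (F : V → ℝ) : Set V :=
  {v | ∃ c : ℝ, 0 < c ∧ c * κ < 1 ∧ ∀ w, F v ≤ c * F w}

theorem NK_nonempty {V : Type} [Nonempty V] {κ : ℝ} (h0 : 0 < κ) (h1 : κ < 1) {F : V → ℝ}
    (hF : ∀ v, 1 ≤ F v) : (NK κ F).Nonempty := by
  have hb : BddBelow (range F) := ⟨1, by rintro _ ⟨v, rfl⟩; exact hF v⟩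
  have hi : 1 ≤ sInf (range F) := le_csInf (range_nonempty F) (by rintro _ ⟨v, rfl⟩; exact hF v)
  set c : ℝ := (1 + 1 / κ) / 2 with hc
  have hk : 1 < 1 / κ := (one_lt_div h0).2 h1
  have hc1 : 1 < c := by rw [hc]; linarith
  have hc2 : c * κ < 1 := by
    rw [hc, div_mul_eq_mul_div, add_mul, one_mul, one_div, inv_mul_cancel₀ h0.ne']
    linarith
  have hlt : sInf (range F) < c * sInf (range F) := by nlinarith
  obtain ⟨_, ⟨v, rfl⟩, hv⟩ := exists_lt_of_csInf_lt (range_nonempty F) hlt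
  refine ⟨v, c, by linarith, hc2, fun w => hv.le.trans ?_⟩
  exact mul_le_mul_of_nonneg_left (csInf_le hb ⟨w, rfl⟩) (by linarith)

section
variable {X Γ : Type} [TopologicalSpace X] [Group Γ] [MulAction Γ X]
  {V : Type} [MulAction Γ V]

/-- the mean of the kernel, with the weights at `x` -/
noncomputable def FK (ρ : X → ℝ) (φ : V → V → ℝ) (Γ : Type) [Group Γ] [MulAction Γ X]
    [MulAction Γ V] (v₀ : V) (x : X) (z : V) : ℝ :=
  ∑' γ : Γ, ρ (γ • x) * φ (γ⁻¹ • v₀) z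

theorem FK_loc {ρ : X → ℝ} (hρ : Wt Γ ρ) (φ : V → V → ℝ) (v₀ : V) (x : X) :
    ∃ U ∈ 𝓝 x, ∃ S : Finset Γ, (∀ y ∈ U, ∀ z, FK ρ φ Γ v₀ y z
      = ∑ γ ∈ S, ρ (γ • y) * φ (γ⁻¹ • v₀) z) ∧ ∀ y ∈ U, ∑ γ ∈ S, ρ (γ • y) = 1 := by
  obtain ⟨U, hU, S, hS⟩ := hρ.locfin x
  refine ⟨U, hU, S, fun y hy z => ?_, fun y hy => ?_⟩
  · exact tsum_eq_sum fun γ hγ => by rw [hS γ hγ y hy, zero_mul]
  · rw [← hρ.sum y]
    exact (tsum_eq_sum fun γ hγ => hS γ hγ y hy).symm

theorem loc_ker [Nonempty V] {φ : V → V → ℝ} {cl : V → V → Prop} {κ : ℝ}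
    (h : Ker Γ φ cl κ) : Loc Γ cl := by
  intro X _ _ ρ hρ hcont
  obtain ⟨v₀⟩ := ‹Nonempty V›
  have hone : ∀ x z, 1 ≤ FK ρ φ Γ v₀ x z := by
    intro x z
    obtain ⟨U, hU, S, h1, h2⟩ := FK_loc hρ φ v₀ x
    have hx := mem_of_mem_nhds hU
    rw [h1 x hx, ← h2 x hx]
    refine Finset.sum_le_sum fun γ _ => ?_
    have := h.one (γ⁻¹ • v₀) z
    have := hρ.nonneg (γ • x)
    nlinarith
  have : Nonempty V := ⟨v₀⟩
  refine ⟨fun x => NK κ (FK ρ φ Γ v₀ x), fun x => NK_nonempty h.pos h.lt (hone x), ?_, ?_, ?_⟩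
  · rintro x v ⟨c, hc0, hc, hv⟩ w ⟨c', hc0', hc', hw⟩
    rcases h.mid v w with h1 | ⟨m, hm⟩
    · exact h1
    exfalso
    obtain ⟨U, hU, S, h1, -⟩ := FK_loc hρ φ v₀ x
    have hx := mem_of_mem_nhds hU
    have h2 : FK ρ φ Γ v₀ x m ≤ κ * ((FK ρ φ Γ v₀ x v + FK ρ φ Γ v₀ x w) / 2) := by
      rw [h1 x hx, h1 x hx, h1 x hx, ← Finset.sum_add_distrib, Finset.sum_div, Finset.mul_sum]
      refine Finset.sum_le_sum fun γ _ => ?_
      have h3 := mul_le_mul_of_nonneg_left (hm (γ⁻¹ • v₀)) (hρ.nonneg (γ • x))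
      refine h3.trans (le_of_eq ?_)
      ring
    have h4 := hv m
    have h5 := hw m
    have h6 := hone x m
    have h7 := h.pos
    have h8 : κ * ((FK ρ φ Γ v₀ x v + FK ρ φ Γ v₀ x w) / 2)
        ≤ κ * ((c * FK ρ φ Γ v₀ x m + c' * FK ρ φ Γ v₀ x m) / 2) :=
      mul_le_mul_of_nonneg_left (by linarith) h7.le
    have h9 : κ * ((c * FK ρ φ Γ v₀ x m + c' * FK ρ φ Γ v₀ x m) / 2)
        = (c * κ + c' * κ) / 2 * FK ρ φ Γ v₀ x m := by ring
    have h10 : (c * κ + c' * κ) / 2 * FK ρ φ Γ v₀ x m < 1 * FK ρ φ Γ v₀ x m :=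
      mul_lt_mul_of_pos_right (by linarith) (by linarith)
    linarith
  · rintro δ x v ⟨c, hc0, hc, hv⟩
    have hs : ∀ z, FK ρ φ Γ v₀ (δ • x) (δ • z) = FK ρ φ Γ v₀ x z := by
      intro z
      unfold FK
      rw [← Equiv.tsum_eq (Equiv.mulRight δ) (fun γ : Γ => ρ (γ • x) * φ (γ⁻¹ • v₀) z)]
      refine tsum_congr fun γ => ?_
      show ρ (γ • δ • x) * φ (γ⁻¹ • v₀) (δ • z)
        = ρ ((γ * δ) • x) * φ ((γ * δ)⁻¹ • v₀) z
      rw [smul_smul, mul_inv_rev, mul_smul δ⁻¹ γ⁻¹ v₀, ← h.inv δ (δ⁻¹ • γ⁻¹ • v₀) z,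
        smul_inv_smul]
    refine ⟨c, hc0, hc, fun w => ?_⟩
    have h1 := hv (δ⁻¹ • w)
    have h2 := hs (δ⁻¹ • w)
    rw [smul_inv_smul] at h2
    rw [hs v, h2]
    exact h1
  · rintro x v ⟨c, hc0, hc, hv⟩
    obtain ⟨U, hU, S, h1, -⟩ := FK_loc hρ φ v₀ x
    have hx := mem_of_mem_nhds hU
    have hκ := h.pos
    set c' : ℝ := (c + 1 / κ) / 2 with hc'
    have hk : c < 1 / κ := by rwa [lt_div_iff₀ hκ]
    have hcc : c < c' := by rw [hc']; linarith
    have hc2 : c' * κ < 1 := by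
      have h2 : c' < 1 / κ := by rw [hc']; linarith
      rwa [lt_div_iff₀ hκ] at h2
    set η : ℝ := (c' - c) / (c' + c) with hη
    have hs : 0 < c' + c := by linarith
    have hη0 : 0 < η := div_pos (by linarith) hs
    have hη1 : η < 1 := by rw [hη, div_lt_one hs]; linarith
    have hηe : (1 + η) * c = (1 - η) * c' := by
      rw [hη]
      field_simp
      ring
    -- lower bounds
    have hlow : ∀ᶠ y in 𝓝 x, ∀ γ ∈ S, (1 - η) * ρ (γ • x) ≤ ρ (γ • y) := by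
      rw [Finset.eventually_all]
      intro γ _
      by_cases h0 : ρ (γ • x) = 0
      · exact Eventually.of_forall fun y => by rw [h0, mul_zero]; exact hρ.nonneg _
      · have hp : 0 < ρ (γ • x) := lt_of_le_of_ne (hρ.nonneg _) (Ne.symm h0)
        have h3 : (1 - η) * ρ (γ • x) < ρ (γ • x) := by nlinarith
        have h4 : ContinuousAt (fun y => ρ (γ • y)) x := (hρ.cont.comp (hcont γ)).continuousAt
        exact (h4.eventually (lt_mem_nhds h3)).mono fun y hy => le_of_lt hy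
    have hup : ∀ᶠ y in 𝓝 x, ∑ γ ∈ S, ρ (γ • y) * φ (γ⁻¹ • v₀) v
        ≤ (1 + η) * ∑ γ ∈ S, ρ (γ • x) * φ (γ⁻¹ • v₀) v := by
      have hcg : Continuous fun y => ∑ γ ∈ S, ρ (γ • y) * φ (γ⁻¹ • v₀) v :=
        continuous_finsetSum _ fun γ _ => (hρ.cont.comp (hcont γ)).mul continuous_const
      have h3 : 1 ≤ ∑ γ ∈ S, ρ (γ • x) * φ (γ⁻¹ • v₀) v := by
        rw [← h1 x hx]
        exact hone x v
      have h4 : ∑ γ ∈ S, ρ (γ • x) * φ (γ⁻¹ • v₀) v
          < (1 + η) * ∑ γ ∈ S, ρ (γ • x) * φ (γ⁻¹ • v₀) v := by nlinarith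
      exact (hcg.continuousAt.eventually (gt_mem_nhds h4)).mono fun y hy => le_of_lt hy
    filter_upwards [hU, hlow, hup] with y hyU hy1 hy2
    refine ⟨c', by linarith, hc2, fun w => ?_⟩
    have h3 := hv w
    rw [h1 x hx, h1 x hx] at h3
    rw [h1 y hyU, h1 y hyU]
    have h4 : (1 - η) * ∑ γ ∈ S, ρ (γ • x) * φ (γ⁻¹ • v₀) w
        ≤ ∑ γ ∈ S, ρ (γ • y) * φ (γ⁻¹ • v₀) w := by
      rw [Finset.mul_sum]
      refine Finset.sum_le_sum fun γ hγ => ?_
      have := mul_le_mul_of_nonneg_right (hy1 γ hγ)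
        (by have := h.one (γ⁻¹ • v₀) w; linarith : (0 : ℝ) ≤ φ (γ⁻¹ • v₀) w)
      linarith
    have hc'0 : 0 < c' := by linarith
    calc ∑ γ ∈ S, ρ (γ • y) * φ (γ⁻¹ • v₀) v
        ≤ (1 + η) * ∑ γ ∈ S, ρ (γ • x) * φ (γ⁻¹ • v₀) v := hy2
      _ ≤ (1 + η) * (c * ∑ γ ∈ S, ρ (γ • x) * φ (γ⁻¹ • v₀) w) :=
          mul_le_mul_of_nonneg_left h3 (by linarith)
      _ = c' * ((1 - η) * ∑ γ ∈ S, ρ (γ • x) * φ (γ⁻¹ • v₀) w) := by
          rw [← mul_assoc, hηe]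
          ring
      _ ≤ c' * ∑ γ ∈ S, ρ (γ • y) * φ (γ⁻¹ • v₀) w :=
          mul_le_mul_of_nonneg_left h4 hc'0.le

end

/-! ### examples of kernels -/

section kernels

variable {Γ V : Type} [Group Γ] [PseudoMetricSpace V] [MulAction Γ V]

/-- hyperbolic spaces -/
theorem ker_hyp (hd : ∀ (γ : Γ) (v w : V), dist (γ • v) (γ • w) = dist v w) {δ R : ℝ}
    (hR : 2 * δ < R)
    (h : ∀ p q : V, ∃ m, ∀ r, dist r m ≤ max (dist r p) (dist r q) - dist p q / 2 + δ) :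
    ∃ (φ : V → V → ℝ) (κ : ℝ), Ker Γ φ (fun v w => dist v w ≤ R) κ := by
  set l : ℝ := 1 / (R / 2 - δ) with hl
  have hp : 0 < R / 2 - δ := by linarith
  have hl0 : 0 < l := one_div_pos.2 hp
  have hl1 : l * (R / 2 - δ) = 1 := by
    rw [hl, one_div, inv_mul_cancel₀ hp.ne']
  refine ⟨fun v w => Real.exp (l * dist v w), 2 * Real.exp (-1), ?_, ?_, by positivity, ?_, ?_⟩
  · exact fun v w => Real.one_le_exp (by positivity)
  · exact fun γ v w => by rw [hd]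
  · rw [Real.exp_neg, ← div_eq_mul_inv, div_lt_one (Real.exp_pos 1)]
    have := Real.exp_one_gt_d9
    linarith
  · intro p q
    by_cases hpq : dist p q ≤ R
    · exact Or.inl hpq
    push Not at hpq
    obtain ⟨m, hm⟩ := h p q
    refine Or.inr ⟨m, fun r => ?_⟩
    have h1 : l * dist r m ≤ l * max (dist r p) (dist r q) + -1 := by
      have h2 : dist r m ≤ max (dist r p) (dist r q) - (R / 2 - δ) := by
        have := hm r
        linarith
      have h3 := mul_le_mul_of_nonneg_left h2 hl0.le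
      rw [mul_sub, hl1] at h3
      linarith
    have h4 : Real.exp (l * max (dist r p) (dist r q))
        ≤ Real.exp (l * dist r p) + Real.exp (l * dist r q) := by
      have e1 := Real.exp_pos (l * dist r p)
      have e2 := Real.exp_pos (l * dist r q)
      rcases le_total (dist r p) (dist r q) with h5 | h5
      · rw [max_eq_right h5]
        linarith
      · rw [max_eq_left h5]
        linarith
    calc Real.exp (l * dist r m) ≤ Real.exp (l * max (dist r p) (dist r q) + -1) :=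
          Real.exp_le_exp.2 h1
      _ = Real.exp (l * max (dist r p) (dist r q)) * Real.exp (-1) := Real.exp_add _ _
      _ ≤ (Real.exp (l * dist r p) + Real.exp (l * dist r q)) * Real.exp (-1) :=
          mul_le_mul_of_nonneg_right h4 (Real.exp_pos _).le
      _ = 2 * Real.exp (-1) * ((Real.exp (l * dist r p) + Real.exp (l * dist r q)) / 2) := by
          ring

/-- CAT(0) spaces -/
theorem ker_cat (hd : ∀ (γ : Γ) (v w : V), dist (γ • v) (γ • w) = dist v w) {R : ℝ}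
    (hR : 0 < R)
    (h : ∀ p q : V, ∃ m, ∀ r,
      dist r m ^ 2 ≤ (dist r p ^ 2 + dist r q ^ 2) / 2 - dist p q ^ 2 / 4) :
    ∃ (φ : V → V → ℝ) (κ : ℝ), Ker Γ φ (fun v w => dist v w ≤ R) κ := by
  refine ⟨fun v w => Real.exp (dist v w ^ 2), Real.exp (-(R ^ 2 / 4)), ?_, ?_,
    Real.exp_pos _, ?_, ?_⟩
  · exact fun v w => Real.one_le_exp (by positivity)
  · exact fun γ v w => by rw [hd]
  · rw [Real.exp_lt_one_iff]
    have : 0 < R ^ 2 := by positivity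
    linarith
  · intro p q
    by_cases hpq : dist p q ≤ R
    · exact Or.inl hpq
    push Not at hpq
    obtain ⟨m, hm⟩ := h p q
    refine Or.inr ⟨m, fun r => ?_⟩
    have h1 : dist r m ^ 2 ≤ (dist r p ^ 2 + dist r q ^ 2) / 2 + -(R ^ 2 / 4) := by
      have h2 : R ^ 2 ≤ dist p q ^ 2 := by nlinarith
      have := hm r
      linarith
    have h4 : Real.exp ((dist r p ^ 2 + dist r q ^ 2) / 2)
        ≤ (Real.exp (dist r p ^ 2) + Real.exp (dist r q ^ 2)) / 2 := by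
      set a := Real.exp (dist r p ^ 2 / 2) with ha
      set b := Real.exp (dist r q ^ 2 / 2) with hb
      have e1 : Real.exp ((dist r p ^ 2 + dist r q ^ 2) / 2) = a * b := by
        rw [ha, hb, ← Real.exp_add]
        congr 1
        ring
      have e2 : Real.exp (dist r p ^ 2) = a * a := by
        rw [ha, ← Real.exp_add]
        congr 1
        ring
      have e3 : Real.exp (dist r q ^ 2) = b * b := by
        rw [hb, ← Real.exp_add]
        congr 1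
        ring
      rw [e1, e2, e3]
      nlinarith [sq_nonneg (a - b)]
    calc Real.exp (dist r m ^ 2)
        ≤ Real.exp ((dist r p ^ 2 + dist r q ^ 2) / 2 + -(R ^ 2 / 4)) := Real.exp_le_exp.2 h1
      _ = Real.exp ((dist r p ^ 2 + dist r q ^ 2) / 2) * Real.exp (-(R ^ 2 / 4)) :=
          Real.exp_add _ _
      _ ≤ (Real.exp (dist r p ^ 2) + Real.exp (dist r q ^ 2)) / 2 * Real.exp (-(R ^ 2 / 4)) :=
          mul_le_mul_of_nonneg_right h4 (Real.exp_pos _).le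
      _ = Real.exp (-(R ^ 2 / 4)) * ((Real.exp (dist r p ^ 2) + Real.exp (dist r q ^ 2)) / 2) := by
          ring

end kernels

end Pool.Agent.R772.TT
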