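import Pool.Agent.R772.TT5

/-!
Families of fields indexed by products of spaces.
-/

set_option autoImplicit false

open Set Filter Topology Metric

namespace Pool.Agent.R772.TT

open Pool.Agent.W689.Ch Pool.Agent.TH845.Mk Pool.Agent.Y150.Ch
open Pool.Agent.W689.Mk (lin hol_add hol_sub hol_inv_apply hol_apply_inv lin_inv_apply lin_mul
  lin_smul lin_neg hol_cont)

/-- a set of elements of a product, any two of which are close in each factor -/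
def Cl {ι : Type} {V : ι → Type} (cl : ∀ i, V i → V i → Prop) (C : Set (∀ i, V i)) : Prop :=
  ∀ v ∈ C, ∀ w ∈ C, ∀ i, cl i (v i) (w i)

section
variable {X Γ E : Type} [TopologicalSpace X] [T2Space X] [Group Γ] [MulAction Γ X]
  [NormedAddCommGroup E] [NormedSpace ℝ E] [FiniteDimensional ℝ E]
  {dev : X → E} {hol : Γ →* (E ≃ᵃ[ℝ] E)}

theorem loc_all (D : AffMfd X Γ E dev hol)
    (hno : ¬ ∃ Z : X → E, Continuous Z ∧ (∀ (γ : Γ) x, Z (γ • x) = lin hol γ (Z x)) ∧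
      ∀ x, Z x ≠ 0) {ι : Type} [Finite ι] {V : ι → Type} [∀ i, MulAction Γ (V i)]
    {cl : ∀ i, V i → V i → Prop} (hL : ∀ i, Loc Γ (cl i))
    {Q : (∀ i, V i) → Set (X → E)} (hne : ∀ v, (Q v).Nonempty)
    (hc : ∀ v, ∀ Y ∈ Q v, Continuous Y)
    (hi : ∀ (γ : Γ) v, ∀ Y ∈ Q (γ • v), tr hol γ Y ∈ Q v) :
    ∃ (x : X) (C : Set (∀ i, V i)), C.Nonempty ∧ Cl cl C ∧
      (0 : E) ∈ convexHull ℝ {u | ∃ v ∈ C, ∃ Y ∈ Q v, u = Y x} := by
  by_contra hcon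
  push Not at hcon
  obtain ⟨ρ, hρ⟩ := exists_wt D
  choose N hN1 hN2 hN3 hN4 using fun i => hL i X ρ hρ D.cont
  set A : X → Set (X → E) := fun x => {Y | ∃ v : ∀ i, V i, (∀ i, v i ∈ N i x) ∧ Y ∈ Q v} with hA
  refine hno (loc_full D (Q := fun x => convexHull ℝ (A x)) ?_ ?_ ?_ ?_ ?_ ?_)
  · intro x
    choose v hv using fun i => hN1 i x
    obtain ⟨Y, hY⟩ := hne v
    exact ⟨Y, subset_convexHull ℝ _ ⟨v, hv, hY⟩⟩
  · exact fun x => convex_convexHull ℝ _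
  · intro x
    have h : convexHull ℝ (A x) ⊆ {Y | Continuous Y} := by
      refine convexHull_min ?_ ?_
      · rintro Y ⟨v, -, hY⟩
        exact hc v Y hY
      · intro Y hY Z hZ a b _ _ _
        exact (hY.const_smul a).add (hZ.const_smul b)
    exact h
  · intro γ x
    have h : convexHull ℝ (A (γ • x)) ⊆ (tr hol γ) ⁻¹' (convexHull ℝ (A x)) := by
      refine convexHull_min ?_ ((convex_convexHull ℝ _).linear_preimage _)
      rintro Y ⟨v, hv, hY⟩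
      refine subset_convexHull ℝ _ ⟨γ⁻¹ • v, fun i => ?_, hi γ _ Y (by rwa [smul_inv_smul])⟩
      have h1 := hN3 i γ⁻¹ (γ • x) (v i) (hv i)
      rwa [inv_smul_smul] at h1
    exact h
  · intro x
    have h : convexHull ℝ (A x) ⊆ {Y | ∀ᶠ x' in 𝓝 x, Y ∈ convexHull ℝ (A x')} := by
      refine convexHull_min ?_ ?_
      · rintro Y ⟨v, hv, hY⟩
        have h1 : ∀ᶠ x' in 𝓝 x, ∀ i, v i ∈ N i x' :=
          eventually_all.2 fun i => hN4 i x (v i) (hv i)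
        show ∀ᶠ x' in 𝓝 x, Y ∈ convexHull ℝ (A x')
        filter_upwards [h1] with x' hx'
        exact subset_convexHull ℝ _ ⟨v, hx', hY⟩
      · intro Y hY Z hZ a b ha' hb hab
        have hY' : ∀ᶠ x' in 𝓝 x, Y ∈ convexHull ℝ (A x') := hY
        have hZ' : ∀ᶠ x' in 𝓝 x, Z ∈ convexHull ℝ (A x') := hZ
        show ∀ᶠ x' in 𝓝 x, a • Y + b • Z ∈ convexHull ℝ (A x')
        filter_upwards [hY', hZ'] with x' h1 h2
        exact (convex_convexHull ℝ _) h1 h2 ha' hb hab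
    exact h
  · intro x Y hY h0
    refine hcon x {v | ∀ i, v i ∈ N i x} ?_ ?_ ?_
    · choose v hv using fun i => hN1 i x
      exact ⟨v, hv⟩
    · intro v hv w hw i
      exact hN2 i x _ (hv i) _ (hw i)
    · rw [← h0]
      have h : convexHull ℝ (A x) ⊆ (ev E x) ⁻¹' (convexHull ℝ
          {u | ∃ v ∈ {v : ∀ i, V i | ∀ i, v i ∈ N i x}, ∃ Y ∈ Q v, u = Y x}) := by
        refine convexHull_min ?_ ((convex_convexHull ℝ _).linear_preimage _)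
        rintro Z ⟨v, hv, hZ⟩
        exact subset_convexHull ℝ _ ⟨v, hv, Z, hZ, rfl⟩
      exact h hY

variable {H : AffineSubspace ℝ E} {x₀ : X}

theorem loc_gen (D : AffMfd X Γ E dev hol) {K : Subgroup Γ} (hK : K.FiniteIndex)
    (hx : dev x₀ ∈ H) (hinvK : ∀ γ ∈ K, ∀ q ∈ H, hol γ q ∈ H)
    (hfld : ¬ Fld dev (hol.comp K.subtype) H) {ι : Type} [Finite ι] {V : ι → Type}
    [∀ i, MulAction K (V i)] {cl : ∀ i, V i → V i → Prop} (hL : ∀ i, Loc K (cl i))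
    {Q : (∀ i, V i) → Set (X → E)} (hne : ∀ v, (Q v).Nonempty)
    (hc : ∀ v, ∀ Y ∈ Q v, ContinuousOn Y {x | dev x ∈ H})
    (hV : ∀ v, ∀ Y ∈ Q v, ∀ x, dev x ∈ H → Y x ∈ H.direction)
    (hinv : ∀ (γ : K) v, ∀ Y ∈ Q v, ∃ Y' ∈ Q (γ • v), ∀ x, dev x ∈ H →
      lin hol γ.1 (Y x) = Y' (γ.1 • x)) :
    ∃ x, dev x ∈ H ∧ ∃ C : Set (∀ i, V i), C.Nonempty ∧ Cl cl C ∧
      (0 : E) ∈ convexHull ℝ {u | ∃ v ∈ C, ∃ Y ∈ Q v, u = Y x} := by
  have hinvH : ∀ (γ : K), ∀ q ∈ H, (hol.comp K.subtype) γ q ∈ H :=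
    fun γ q hq => hinvK γ.1 γ.2 q hq
  let _ := subAct (restr D K hK) hinvH
  have D' := subMfd (restr D K hK) hx hinvH
  have key := loc_all D' (fun h => hfld (fld_of_sub (restr D K hK) hx hinvH h)) hL
    (Q := fun v => {Y' | ∃ Y ∈ Q v, ∀ x : {x : X // dev x ∈ H}, (Y' x : E) = Y x.1}) ?_ ?_ ?_
  · obtain ⟨x, C, hCne, hC, h0⟩ := key
    refine ⟨x.1, x.2, C, hCne, hC, ?_⟩
    have h : convexHull ℝ {u : H.direction | ∃ v ∈ C, ∃ Y ∈
        {Y' : {x : X // dev x ∈ H} → H.direction | ∃ Y ∈ Q v,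
          ∀ x : {x : X // dev x ∈ H}, (Y' x : E) = Y x.1}, u = Y x}
        ⊆ H.direction.subtype ⁻¹' (convexHull ℝ {u | ∃ v ∈ C, ∃ Y ∈ Q v, u = Y x.1}) := by
      refine convexHull_min ?_ ((convex_convexHull ℝ _).linear_preimage _)
      rintro _ ⟨v, hv, Y', ⟨Y, hY, h1⟩, rfl⟩
      exact subset_convexHull ℝ _ ⟨v, hv, Y, hY, h1 x⟩
    have h2 := h h0
    have h3 : H.direction.subtype 0 ∈ convexHull ℝ {u | ∃ v ∈ C, ∃ Y ∈ Q v, u = Y x.1} := h2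
    rwa [map_zero] at h3
  · intro v
    obtain ⟨Y, hY⟩ := hne v
    exact ⟨fun x => ⟨Y x.1, hV v Y hY x.1 x.2⟩, Y, hY, fun x => rfl⟩
  · rintro v Y' ⟨Y, hY, h1⟩
    have h2 : Y' = fun x => ⟨Y x.1, hV v Y hY x.1 x.2⟩ := funext fun x => Subtype.ext (h1 x)
    rw [h2]
    exact Continuous.subtype_mk (continuousOn_iff_continuous_domRestrict.1 (hc v Y hY)) _
  · rintro γ v Y' ⟨Y, hY, h1⟩
    obtain ⟨Y₂, hY₂, h2⟩ := hinv γ⁻¹ (γ • v) Y hY
    rw [inv_smul_smul] at hY₂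
    refine ⟨Y₂, hY₂, fun x => ?_⟩
    have hγx : dev (γ.1 • x.1) ∈ H := by rw [D.equi]; exact hinvK γ.1 γ.2 _ x.2
    have h3 := h2 (γ.1 • x.1) hγx
    have h5 : (γ⁻¹ : K).1 = γ.1⁻¹ := rfl
    rw [h5, inv_smul_smul] at h3
    have h4 : (Y' (γ • x) : E) = Y (γ.1 • x.1) := h1 (γ • x)
    show lin hol γ.1⁻¹ (Y' (γ • x) : E) = Y₂ x.1
    rw [h4, h3]

/-- families of sets of points -/
theorem points_loc (D : AffMfd X Γ E dev hol) {K : Subgroup Γ} (hK : K.FiniteIndex)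
    (hx : dev x₀ ∈ H) (hinvK : ∀ γ ∈ K, ∀ q ∈ H, hol γ q ∈ H)
    (hfld : ¬ Fld dev (hol.comp K.subtype) H) {ι : Type} [Finite ι] {V : ι → Type}
    [∀ i, MulAction K (V i)] {cl : ∀ i, V i → V i → Prop} (hL : ∀ i, Loc K (cl i))
    {P : (∀ i, V i) → Set E} (hne : ∀ v, (P v).Nonempty)
    (hP : ∀ v, P v ⊆ H) (hinv : ∀ (γ : K) v, ∀ q ∈ P v, hol γ.1 q ∈ P (γ • v)) :
    ∃ x, dev x ∈ H ∧ ∃ C : Set (∀ i, V i), C.Nonempty ∧ Cl cl C ∧
      dev x ∈ convexHull ℝ (⋃ v ∈ C, P v) := by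
  have hdc : Continuous dev := D.loc.continuous
  have key := loc_gen D hK hx hinvK hfld hL
    (Q := fun v => {Y : X → E | ∃ q : E, q ∈ P v ∧ Y = fun x => q - dev x}) ?_ ?_ ?_ ?_
  · obtain ⟨x, hxH, C, hCne, hC, h0⟩ := key
    refine ⟨x, hxH, C, hCne, hC, ?_⟩
    have h : convexHull ℝ {u : E | ∃ v ∈ C, ∃ Y ∈ {Y : X → E | ∃ q : E, q ∈ P v ∧
        Y = fun x => q - dev x}, u = Y x} ⊆ {u : E | u + dev x ∈ convexHull ℝ (⋃ v ∈ C, P v)} := by
      refine convexHull_min ?_ ?_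
      · rintro _ ⟨v, hv, Y, ⟨q, hq, rfl⟩, rfl⟩
        show q - dev x + dev x ∈ convexHull ℝ (⋃ v ∈ C, P v)
        rw [sub_add_cancel]
        exact subset_convexHull ℝ _ (mem_biUnion hv hq)
      · intro u hu w hw a b ha' hb hab
        have h1 : u + dev x ∈ convexHull ℝ (⋃ v ∈ C, P v) := hu
        have h2 : w + dev x ∈ convexHull ℝ (⋃ v ∈ C, P v) := hw
        have h3 := (convex_convexHull ℝ (⋃ v ∈ C, P v)) h1 h2 ha' hb hab
        show a • u + b • w + dev x ∈ convexHull ℝ (⋃ v ∈ C, P v)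
        have e : a • u + b • w + dev x = a • (u + dev x) + b • (w + dev x) := by
          rw [smul_add, smul_add]
          have : dev x = a • dev x + b • dev x := by rw [← add_smul, hab, one_smul]
          nth_rewrite 1 [this]
          abel
        rw [e]
        exact h3
    have h1 := h h0
    have h2 : (0 : E) + dev x ∈ convexHull ℝ (⋃ v ∈ C, P v) := h1
    rwa [zero_add] at h2
  · intro v
    obtain ⟨q, hq⟩ := hne v
    exact ⟨_, q, hq, rfl⟩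
  · rintro v _ ⟨q, hq, rfl⟩
    exact (continuous_const.sub hdc).continuousOn
  · rintro v _ ⟨q, hq, rfl⟩ x hx
    exact sub_mem_dir hx (hP v hq)
  · rintro γ v _ ⟨q, hq, rfl⟩
    refine ⟨_, ⟨hol γ.1 q, hinv γ v q hq, rfl⟩, fun x _ => ?_⟩
    show lin hol γ.1 (q - dev x) = hol γ.1 q - dev (γ.1 • x)
    rw [D.equi, hol_sub]

end

end Pool.Agent.R772.TT
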