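import Pool.Agent.R772.TT6

/-!
Vertex stabilizers which leave a half-line or a half-space invariant.
-/

set_option autoImplicit false

open Set Filter Topology Metric

namespace Pool.Agent.R772.TT

open Pool.Agent.W689.Ch Pool.Agent.TH845.Mk Pool.Agent.Y150.Ch
open Pool.Agent.W689.Mk (lin hol_add hol_sub hol_inv_apply hol_apply_inv lin_inv_apply lin_mul
  lin_smul lin_neg hol_cont)
open Pool.Agent.TH289.N (cl cl_apply)

section
variable {X Γ E : Type} [TopologicalSpace X] [T2Space X] [Group Γ] [MulAction Γ X]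
  [NormedAddCommGroup E] [NormedSpace ℝ E] [FiniteDimensional ℝ E]
  {dev : X → E} {hol : Γ →* (E ≃ᵃ[ℝ] E)}

/-- the dual of an invariant metric -/
theorem exists_dual (D : AffMfd X Γ E dev hol) :
    ∃ A : X → (E →L[ℝ] ℝ) →ₗ[ℝ] E, (∀ l, Continuous fun x => A x l) ∧
      (∀ x (l : E →L[ℝ] ℝ), l ≠ 0 → 0 < l (A x l)) ∧
      ∀ (γ : Γ) x (l : E →L[ℝ] ℝ), A (γ • x) l = lin hol γ (A x (l.comp (cl hol γ))) := by
  obtain ⟨ρ, hρ⟩ := exists_wt D
  let b := Module.finBasis ℝ E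
  let w : Γ → (E →L[ℝ] ℝ) → E := fun γ l => ∑ i, l (cl hol γ⁻¹ (b i)) • cl hol γ⁻¹ (b i)
  have hwa : ∀ γ l m, w γ (l + m) = w γ l + w γ m := by
    intro γ l m
    show ∑ i, (l + m) (cl hol γ⁻¹ (b i)) • cl hol γ⁻¹ (b i) = _
    rw [← Finset.sum_add_distrib]
    exact Finset.sum_congr rfl fun i _ => by rw [add_apply, add_smul]
  have hws : ∀ γ (a : ℝ) l, w γ (a • l) = a • w γ l := by
    intro γ a l
    show ∑ i, (a • l) (cl hol γ⁻¹ (b i)) • cl hol γ⁻¹ (b i) = _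
    rw [Finset.smul_sum]
    exact Finset.sum_congr rfl fun i _ => by
      rw [smul_apply, smul_eq_mul, mul_smul]
  have hL : ∀ x, ∃ L : (E →L[ℝ] ℝ) →ₗ[ℝ] E, ∀ l, L l = ∑' γ : Γ, ρ (γ • x) • w γ l := by
    intro x
    obtain ⟨U, hU, F, hF⟩ := hρ.locfin x
    have hx := mem_of_mem_nhds hU
    refine ⟨{ toFun := fun l => ∑ γ ∈ F, ρ (γ • x) • w γ l, map_add' := ?_, map_smul' := ?_ },
      fun l => ?_⟩
    · intro l m
      rw [← Finset.sum_add_distrib]
      exact Finset.sum_congr rfl fun γ _ => by rw [hwa, smul_add]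
    · intro a l
      rw [RingHom.id_apply, Finset.smul_sum]
      exact Finset.sum_congr rfl fun γ _ => by rw [hws, smul_comm]
    · exact (tsum_eq_sum fun γ hγ => by rw [hF γ hγ x hx, zero_smul]).symm
  choose A hA using hL
  refine ⟨A, fun l => ?_, fun x l hl => ?_, fun δ x l => ?_⟩
  · have h : (fun x => A x l) = fun x => ∑' γ : Γ, ρ (γ • x) • w γ l := funext fun x => hA x l
    rw [h]
    refine cont_tsum (fun γ => (hρ.cont.comp (D.cont γ)).smul continuous_const) fun x => ?_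
    obtain ⟨U, hU, F, hF⟩ := hρ.locfin x
    exact ⟨U, hU, F, fun γ hγ y hy => by rw [hF γ hγ y hy, zero_smul]⟩
  · obtain ⟨U, hU, F, hF⟩ := hρ.locfin x
    have hx := mem_of_mem_nhds hU
    have hs : ∑ γ ∈ F, ρ (γ • x) = 1 := by
      rw [← hρ.sum x]
      exact (tsum_eq_sum fun γ hγ => hF γ hγ x hx).symm
    have e1 : l (A x l) = ∑ γ ∈ F, ρ (γ • x) * ∑ i, l (cl hol γ⁻¹ (b i)) ^ 2 := by
      rw [hA, tsum_eq_sum (s := F) fun γ hγ => by rw [hF γ hγ x hx, zero_smul], map_sum]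
      refine Finset.sum_congr rfl fun γ _ => ?_
      rw [map_smul, smul_eq_mul]
      congr 1
      show l (∑ i, l (cl hol γ⁻¹ (b i)) • cl hol γ⁻¹ (b i)) = _
      rw [map_sum]
      exact Finset.sum_congr rfl fun i _ => by rw [map_smul, smul_eq_mul, sq]
    have hpos : ∀ γ : Γ, 0 < ∑ i, l (cl hol γ⁻¹ (b i)) ^ 2 := by
      intro γ
      refine lt_of_le_of_ne (Finset.sum_nonneg fun i _ => sq_nonneg _) fun h => hl ?_
      have h3 := (Finset.sum_eq_zero_iff_of_nonneg (fun i _ => sq_nonneg _)).1 h.symm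
      have h4 : l.comp (cl hol γ⁻¹) = 0 := by
        apply ContinuousLinearMap.coe_injective
        refine b.ext fun i => ?_
        have := h3 i (Finset.mem_univ i)
        simpa using this
      ext v
      have h5 : cl hol γ⁻¹ (cl hol γ v) = v := lin_inv_apply γ v
      have h6 := congrArg (fun m : E →L[ℝ] ℝ => m (cl hol γ v)) h4
      simpa [h5] using h6
    rw [e1]
    obtain ⟨γ, hγ, hγ0⟩ := Finset.exists_ne_zero_of_sum_ne_zero
      (s := F) (f := fun γ => ρ (γ • x)) (by rw [hs]; exact one_ne_zero)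
    exact Finset.sum_pos' (fun γ _ => mul_nonneg (hρ.nonneg _) (hpos γ).le)
      ⟨γ, hγ, mul_pos (lt_of_le_of_ne (hρ.nonneg _) (Ne.symm hγ0)) (hpos γ)⟩
  · have hsm : Summable fun γ : Γ => ρ (γ • x) • w γ (l.comp (cl hol δ)) := by
      obtain ⟨U, hU, F, hF⟩ := hρ.locfin x
      exact summable_of_ne_finset_zero (s := F) fun γ hγ => by
        rw [hF γ hγ x (mem_of_mem_nhds hU), zero_smul]
    rw [hA, hA, ← cl_apply δ, (cl hol δ).map_tsum hsm]
    rw [← Equiv.tsum_eq (Equiv.mulRight δ)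
      (fun γ : Γ => cl hol δ (ρ (γ • x) • w γ (l.comp (cl hol δ))))]
    refine tsum_congr fun γ => ?_
    show ρ (γ • δ • x) • w γ l = cl hol δ (ρ ((γ * δ) • x) • w (γ * δ) (l.comp (cl hol δ)))
    rw [map_smul, smul_smul]
    congr 1
    show ∑ i, l (cl hol γ⁻¹ (b i)) • cl hol γ⁻¹ (b i) = cl hol δ
      (∑ i, l (cl hol δ (cl hol (γ * δ)⁻¹ (b i))) • cl hol (γ * δ)⁻¹ (b i))
    rw [map_sum]
    refine Finset.sum_congr rfl fun i _ => ?_
    rw [map_smul]
    have h1 : cl hol δ (cl hol (γ * δ)⁻¹ (b i)) = cl hol γ⁻¹ (b i) := by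
      rw [cl_apply, cl_apply, ← lin_mul, mul_inv_rev, ← mul_assoc, mul_inv_cancel, one_mul,
        cl_apply]
    rw [h1]

/-- fields at the vertices of a tree which are not opposite along the edges, or not proportional
along the edges -/
theorem sign_full (D : AffMfd X Γ E dev hol)
    (hno : ∀ K : Subgroup Γ, K.FiniteIndex → ¬ ∃ Z : X → E, Continuous Z ∧
      (∀ (γ : K) x, Z (γ • x) = lin hol γ.1 (Z x)) ∧ ∀ x, Z x ≠ 0) {V : Type} [MulAction Γ V]
    {T : SimpleGraph V} (hT : T.IsTree) (ha : Aut Γ T) {S : V → X → E}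
    (hSc : ∀ v, Continuous (S v)) (hS0 : ∀ v x, S v x ≠ 0)
    (hSe : ∀ (γ : Γ) v, ∃ c : ℝ, 0 < c ∧ ∀ x, lin hol γ (S v x) = c • S (γ • v) (γ • x))
    (hedge : ∀ v w, T.Adj v w → (∀ x (c : ℝ), 0 < c → S w x ≠ -(c • S v x)) ∨
      ∀ x (c : ℝ), 0 < c → S w x ≠ c • S v x) : False := by
  classical
  let N : V → V → Prop := fun v w => ∃ (x : X) (c : ℝ), 0 < c ∧ S w x = -(c • S v x)
  have hNs : ∀ v w, N v w → N w v := by
    rintro v w ⟨x, c, hc, h⟩
    refine ⟨x, c⁻¹, inv_pos.2 hc, ?_⟩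
    rw [h, smul_neg, smul_smul, inv_mul_cancel₀ hc.ne', one_smul, neg_neg]
  have hNi : ∀ (γ : Γ) v w, N v w → N (γ • v) (γ • w) := by
    rintro γ v w ⟨x, c, hc, h⟩
    obtain ⟨a, ha', h1⟩ := hSe γ v
    obtain ⟨b, hb, h2⟩ := hSe γ w
    refine ⟨γ • x, b⁻¹ * (c * a), by positivity, ?_⟩
    have h2' := h2 x
    rw [h, lin_neg, lin_smul, h1, smul_smul] at h2'
    have h3 : S (γ • w) (γ • x) = b⁻¹ • (b • S (γ • w) (γ • x)) := by
      rw [smul_smul, inv_mul_cancel₀ hb.ne', one_smul]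
    rw [h3, ← h2', smul_neg, smul_smul]
  have hNi' : ∀ (γ : Γ) v w, N (γ • v) (γ • w) ↔ N v w := by
    intro γ v w
    refine ⟨fun h => ?_, hNi γ v w⟩
    have := hNi γ⁻¹ _ _ h
    rwa [inv_smul_smul, inv_smul_smul] at this
  obtain ⟨ε, hε, χ, hχ⟩ := exists_sign_hom hT ha (fun v w => if N v w then (-1 : ℤˣ) else 1)
    (fun v w => by
      by_cases h : N v w
      · rw [if_pos h, if_pos (hNs v w h)]
      · rw [if_neg h, if_neg fun h' => h (hNs w v h')])
    (fun γ v w => by simp only [hNi'])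
  let S' : V → X → E := fun v x => ((ε v : ℤ) : ℝ) • S v x
  have hεr : ∀ v, ((ε v : ℤ) : ℝ) * ((ε v : ℤ) : ℝ) = 1 := by
    intro v
    have := Int.units_coe_mul_self (ε v)
    exact_mod_cast this
  have hS'0 : ∀ v x, S' v x ≠ 0 := by
    intro v x h
    have h1 : ((ε v : ℤ) : ℝ) • S v x = 0 := h
    rcases smul_eq_zero.1 h1 with h2 | h2
    · have := hεr v
      rw [h2] at this
      norm_num at this
    · exact hS0 v x h2
  have hS'N : ∀ v w, T.Adj v w → ∀ x (c : ℝ), 0 < c → S' w x ≠ -(c • S' v x) := by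
    intro v w hvw x c hc h
    have h1 : ((ε w : ℤ) : ℝ) • S w x = -(c • ((ε v : ℤ) : ℝ) • S v x) := h
    have h2 : S w x = -(c • (((ε v : ℤ) : ℝ) * ((ε w : ℤ) : ℝ)) • S v x) := by
      have h3 : S w x = ((ε w : ℤ) : ℝ) • (((ε w : ℤ) : ℝ) • S w x) := by
        rw [smul_smul, hεr, one_smul]
      rw [h3, h1]
      module
    have h4 := hε v w hvw
    by_cases hN : N v w
    · rw [if_pos hN] at h4
      have h5 : ((ε v : ℤ) : ℝ) * ((ε w : ℤ) : ℝ) = -1 := by
        have : ((ε v * ε w : ℤˣ) : ℤ) = -1 := by rw [h4]; rfl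
        rw [Units.val_mul] at this
        exact_mod_cast this
      rw [h5, neg_smul, one_smul, smul_neg, neg_neg] at h2
      rcases hedge v w hvw with h6 | h6
      · obtain ⟨y, c', hc', h7⟩ := hN
        exact h6 y c' hc' h7
      · exact h6 x c hc h2
    · rw [if_neg hN] at h4
      have h5 : ((ε v : ℤ) : ℝ) * ((ε w : ℤ) : ℝ) = 1 := by
        have : ((ε v * ε w : ℤˣ) : ℤ) = 1 := by rw [h4]; rfl
        rw [Units.val_mul] at this
        exact_mod_cast this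
      rw [h5, one_smul] at h2
      exact hN ⟨x, c, hc, h2⟩
  have hK : χ.ker.FiniteIndex := Subgroup.finiteIndex_ker χ
  have hS'e : ∀ (γ : χ.ker) v, ∃ c : ℝ, 0 < c ∧
      ∀ x, lin hol γ.1⁻¹ (S' (γ • v) (γ.1 • x)) = c • S' v x := by
    intro γ v
    obtain ⟨c, hc, h⟩ := hSe γ.1⁻¹ (γ • v)
    refine ⟨c, hc, fun x => ?_⟩
    have h1 : ε (γ • v) = ε v := by
      have h2 : γ • v = γ.1 • v := rfl
      rw [h2, hχ, (MonoidHom.mem_ker).1 γ.2, one_mul]
    have h3 := h (γ.1 • x)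
    have h4 : γ.1⁻¹ • (γ • v) = v := inv_smul_smul γ.1 v
    rw [h4, inv_smul_smul] at h3
    show lin hol γ.1⁻¹ (((ε (γ • v) : ℤ) : ℝ) • S (γ • v) (γ.1 • x)) = c • ((ε v : ℤ) : ℝ) • S v x
    rw [lin_smul, h3, h1, smul_comm]
  have key := trees_full (restr D χ.ker hK) (hno χ.ker hK)
    (ι := Unit) (V := fun _ => V) (T := fun _ => T) (fun _ => hT)
    (fun _ => fun γ v w h => ha γ.1 v w h)
    (Q := fun v => {Y : X → E | ∃ c : ℝ, 0 < c ∧ Y = fun x => c • S' (v ()) x}) ?_ ?_ ?_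
  · obtain ⟨x, C, hC, h0⟩ := key
    have hCne : C.Nonempty := by
      by_contra hne
      rw [not_nonempty_iff_eq_empty] at hne
      rw [hne] at h0
      have : {u : E | ∃ v ∈ (∅ : Set (Unit → V)), ∃ Y ∈ {Y : X → E | ∃ c : ℝ, 0 < c ∧
          Y = fun x => c • S' (v ()) x}, u = Y x} = ∅ := by
        ext u
        simp
      rw [this, convexHull_empty] at h0
      exact h0
    obtain ⟨v, hv⟩ := hCne
    obtain ⟨w, hw, hvw, hz⟩ := cell_two hT hC hv
    refine zero_notMem_cone (hS'0 (v ()) x) (hS'0 (w ()) x) ?_ ?_ h0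
    · intro c hc h
      rcases hvw with h1 | h1
      · rw [← h1] at h
        have h2 : (1 + c) • S' (v ()) x = 0 := by
          rw [add_smul, one_smul]
          nth_rewrite 1 [h]
          rw [neg_add_cancel]
        rcases smul_eq_zero.1 h2 with h3 | h3
        · linarith
        · exact hS'0 _ _ h3
      · exact hS'N _ _ h1 x c hc h
    · rintro _ ⟨z, hzC, _, ⟨c, hc, rfl⟩, rfl⟩
      rcases hz z hzC with h1 | h1
      · refine ⟨c, 0, hc.le, le_rfl, by linarith, ?_⟩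
        show c • S' (z ()) x = _
        rw [h1, zero_smul, add_zero]
      · refine ⟨0, c, le_rfl, hc.le, by linarith, ?_⟩
        show c • S' (z ()) x = _
        rw [h1, zero_smul, zero_add]
  · exact fun v => ⟨_, 1, one_pos, rfl⟩
  · rintro v _ ⟨c, -, rfl⟩
    exact ((hSc (v ())).const_smul _).const_smul c
  · rintro γ v _ ⟨c, hc, rfl⟩
    obtain ⟨a, ha', h⟩ := hS'e γ (v ())
    refine ⟨c * a, mul_pos hc ha', ?_⟩
    funext x
    show lin hol γ.1⁻¹ (c • S' (γ • v ()) (γ.1 • x)) = (c * a) • S' (v ()) x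
    rw [lin_smul, h, smul_smul]

end

end Pool.Agent.R772.TT
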