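import Pool.Agent.R772.TT7

/-!
Vertex stabilizers which leave a half-line or a half-space invariant.
-/

set_option autoImplicit false

open Set Filter Topology Metric

namespace Pool.Agent.R772.TT

open Pool.Agent.W689.Ch Pool.Agent.TH845.Mk Pool.Agent.Y150.Ch
open Pool.Agent.W689.Mk (lin hol_add hol_sub hol_inv_apply hol_apply_inv lin_inv_apply lin_mul
  lin_smul lin_neg hol_cont)
open Pool.Agent.TH289.N (cl cl_apply cl_mul)

section
variable {X Γ E : Type} [TopologicalSpace X] [T2Space X] [Group Γ] [MulAction Γ X]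
  [NormedAddCommGroup E] [NormedSpace ℝ E] [FiniteDimensional ℝ E]
  {dev : X → E} {hol : Γ →* (E ≃ᵃ[ℝ] E)}

/-- the field given by a vector or by a covector -/
def Ty (A : X → (E →L[ℝ] ℝ) →ₗ[ℝ] E) (F : X → E) : Prop :=
  (∃ u : E, u ≠ 0 ∧ F = fun _ => u) ∨ ∃ l : E →L[ℝ] ℝ, l ≠ 0 ∧ F = fun x => A x l

omit [TopologicalSpace X] [T2Space X] [Group Γ] [MulAction Γ X] [FiniteDimensional ℝ E] in
theorem ty_edge {A : X → (E →L[ℝ] ℝ) →ₗ[ℝ] E}
    (hA : ∀ x (l : E →L[ℝ] ℝ), l ≠ 0 → 0 < l (A x l)) {F G : X → E} (hF : Ty A F)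
    (hG : Ty A G) : (∀ x (c : ℝ), 0 < c → G x ≠ -(c • F x)) ∨
      ∀ x (c : ℝ), 0 < c → G x ≠ c • F x := by
  rcases hF with ⟨u, hu, rfl⟩ | ⟨l, hl, rfl⟩ <;> rcases hG with ⟨u', hu', rfl⟩ | ⟨l', hl', rfl⟩
  · by_cases h : ∃ c : ℝ, 0 < c ∧ u' = -(c • u)
    · obtain ⟨c, hc, h1⟩ := h
      right
      intro x c' hc' h2
      have h3 : (c + c') • u = 0 := by
        rw [add_smul]
        have h4 : c' • u = -(c • u) := h2.symm.trans h1
        rw [h4, add_neg_cancel]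
      rcases smul_eq_zero.1 h3 with h4 | h4
      · linarith
      · exact hu h4
    · left
      exact fun x c hc h2 => h ⟨c, hc, h2⟩
  · by_cases h : 0 ≤ l' u
    · left
      intro x c hc h2
      have h1 := hA x l' hl'
      have h3 : A x l' = -(c • u) := h2
      rw [h3, map_neg, map_smul, smul_eq_mul] at h1
      have := mul_nonneg hc.le h
      linarith
    · right
      intro x c hc h2
      have h1 := hA x l' hl'
      have h3 : A x l' = c • u := h2
      rw [h3, map_smul, smul_eq_mul] at h1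
      push Not at h
      have := mul_neg_of_pos_of_neg hc h
      linarith
  · by_cases h : 0 ≤ l u'
    · left
      intro x c hc h2
      have h1 := hA x l hl
      have h3 : u' = -(c • A x l) := h2
      rw [h3, map_neg, map_smul, smul_eq_mul] at h
      have := mul_pos hc h1
      linarith
    · right
      intro x c hc h2
      have h1 := hA x l hl
      have h3 : u' = c • A x l := h2
      rw [h3, map_smul, smul_eq_mul] at h
      exact h (mul_pos hc h1).le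
  · have inj : ∀ x (m : E →L[ℝ] ℝ), A x m = 0 → m = 0 := by
      intro x m h
      by_contra hm
      have := hA x m hm
      rw [h, map_zero] at this
      exact lt_irrefl _ this
    by_cases h : ∃ c : ℝ, 0 < c ∧ l' = -(c • l)
    · obtain ⟨c, hc, h1⟩ := h
      right
      intro x c' hc' h2
      have h3 : A x l' = c' • A x l := h2
      have h4 : A x (l' - c' • l) = 0 := by rw [map_sub, map_smul, h3, sub_self]
      have h5 := sub_eq_zero.1 (inj x _ h4)
      have h6 : (c + c') • l = 0 := by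
        rw [add_smul, ← h5, h1, add_neg_cancel]
      rcases smul_eq_zero.1 h6 with h7 | h7
      · linarith
      · exact hl h7
    · left
      intro x c hc h2
      have h3 : A x l' = -(c • A x l) := h2
      have h4 : A x (l' + c • l) = 0 := by rw [map_add, map_smul, h3, neg_add_cancel]
      exact h ⟨c, hc, eq_neg_of_add_eq_zero_left (inj x _ h4)⟩

/-- some vertex stabilizer leaves neither a half-line nor a half-space invariant -/
theorem halfrays_full (D : AffMfd X Γ E dev hol)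
    (hno : ∀ K : Subgroup Γ, K.FiniteIndex → ¬ ∃ Z : X → E, Continuous Z ∧
      (∀ (γ : K) x, Z (γ • x) = lin hol γ.1 (Z x)) ∧ ∀ x, Z x ≠ 0) {V : Type} [MulAction Γ V]
    {T : SimpleGraph V} (hT : T.IsTree) (ha : Aut Γ T) :
    ∃ v : V, (∀ u : E, u ≠ 0 → ∃ γ : Γ, γ • v = v ∧ ∀ c : ℝ, 0 < c → lin hol γ u ≠ c • u) ∧
      ∀ l : E →L[ℝ] ℝ, l ≠ 0 → ∃ γ : Γ, γ • v = v ∧
        ∀ c : ℝ, 0 < c → l.comp (cl hol γ) ≠ c • l := by
  classical
  by_contra hcon
  push Not at hcon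
  obtain ⟨A, hA1, hA2, hA3⟩ := exists_dual D
  have hF' : ∀ v : V, ∃ F : X → E, Ty A F ∧ ∀ γ : Γ, γ • v = v →
      ∃ c : ℝ, 0 < c ∧ ∀ x, lin hol γ (F x) = c • F (γ • x) := by
    intro v
    by_cases h : ∃ u : E, u ≠ 0 ∧ ∀ γ : Γ, γ • v = v → ∃ c : ℝ, 0 < c ∧ lin hol γ u = c • u
    · obtain ⟨u, hu, h1⟩ := h
      refine ⟨fun _ => u, Or.inl ⟨u, hu, rfl⟩, fun γ hγ => ?_⟩
      obtain ⟨c, hc, h2⟩ := h1 γ hγ
      exact ⟨c, hc, fun _ => h2⟩
    · push Not at h
      obtain ⟨l, hl, h1⟩ := hcon v h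
      refine ⟨fun x => A x l, Or.inr ⟨l, hl, rfl⟩, fun γ hγ => ?_⟩
      obtain ⟨c, hc, h2⟩ := h1 γ hγ
      refine ⟨c⁻¹, inv_pos.2 hc, fun x => ?_⟩
      show lin hol γ (A x l) = c⁻¹ • A (γ • x) l
      rw [hA3, h2, map_smul, lin_smul, smul_smul, inv_mul_cancel₀ hc.ne', one_smul]
  choose F hF1 hF2 using hF'
  -- orbit representatives
  let r : V → V := fun v => (Quotient.mk (MulAction.orbitRel Γ V) v).out
  have hr : ∀ (γ : Γ) v, r (γ • v) = r v := fun γ v =>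
    congrArg Quotient.out (Quotient.sound (⟨γ, rfl⟩ : γ • v ∈ MulAction.orbit Γ v))
  have hg' : ∀ v, ∃ g : Γ, g • r v = v := by
    intro v
    have h : r v ∈ MulAction.orbit Γ v := Quotient.mk_out (s := MulAction.orbitRel Γ V) v
    obtain ⟨g, hg⟩ := h
    refine ⟨g⁻¹, ?_⟩
    rw [← hg]
    exact inv_smul_smul g v
  choose g hg using hg'
  let S : V → X → E := fun v x => lin hol (g v) (F (r v) ((g v)⁻¹ • x))
  have htr : ∀ (γ : Γ) (G : X → E), Ty A G → Ty A fun x => lin hol γ (G (γ⁻¹ • x)) := by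
    rintro γ G (⟨u, hu, rfl⟩ | ⟨l, hl, rfl⟩)
    · refine Or.inl ⟨lin hol γ u, fun h => hu ?_, rfl⟩
      have h2 := lin_inv_apply (hol := hol) γ u
      rw [h] at h2
      exact h2.symm.trans (hol γ⁻¹).linear.map_zero
    · have h1 : (l.comp (cl hol γ⁻¹)).comp (cl hol γ) = l := by
        ext v
        show l (lin hol γ⁻¹ (lin hol γ v)) = l v
        rw [lin_inv_apply]
      refine Or.inr ⟨l.comp (cl hol γ⁻¹), fun h => hl ?_, ?_⟩
      · rw [← h1, h, ContinuousLinearMap.zero_comp]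
      · funext x
        have h2 := hA3 γ (γ⁻¹ • x) (l.comp (cl hol γ⁻¹))
        rw [smul_inv_smul, h1] at h2
        exact h2.symm
  have hSt : ∀ v, Ty A (S v) := fun v => htr (g v) _ (hF1 (r v))
  refine sign_full D hno hT ha (S := S) ?_ ?_ ?_ fun v w _ => ty_edge hA2 (hSt v) (hSt w)
  · intro v
    rcases hSt v with ⟨u, -, h⟩ | ⟨l, -, h⟩
    · rw [h]
      exact continuous_const
    · rw [h]
      exact hA1 l
  · intro v x h0
    rcases hSt v with ⟨u, hu, h⟩ | ⟨l, hl, h⟩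
    · rw [h] at h0
      exact hu h0
    · rw [h] at h0
      have h1 := hA2 x l hl
      have h2 : A x l = 0 := h0
      rw [h2, map_zero] at h1
      exact lt_irrefl _ h1
  · intro γ v
    have h1 : ((g (γ • v))⁻¹ * γ * g v) • r v = r v := by
      rw [mul_smul, mul_smul, hg, inv_smul_eq_iff]
      have h2 := hg (γ • v)
      rw [hr] at h2
      exact h2.symm
    obtain ⟨c, hc, h2⟩ := hF2 (r v) _ h1
    refine ⟨c, hc, fun x => ?_⟩
    show lin hol γ (lin hol (g v) (F (r v) ((g v)⁻¹ • x)))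
      = c • lin hol (g (γ • v)) (F (r (γ • v)) ((g (γ • v))⁻¹ • γ • x))
    have h3 := h2 ((g v)⁻¹ • x)
    have h4' : ((g (γ • v))⁻¹ * γ * g v) • (g v)⁻¹ • x = (g (γ • v))⁻¹ • γ • x := by
      rw [mul_smul, mul_smul, smul_inv_smul]
    rw [h4'] at h3
    rw [hr, ← lin_smul, ← h3, ← lin_mul, ← lin_mul]
    congr 1
    group

variable {H : AffineSubspace ℝ E} {x₀ : X}

/-- the fields on the coverings of the part over `H` -/
theorem no_sub (D : AffMfd X Γ E dev hol) {K : Subgroup Γ} (hK : K.FiniteIndex)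
    (hx : dev x₀ ∈ H) (hinvH : ∀ (γ : K), ∀ q ∈ H, (hol.comp K.subtype) γ q ∈ H)
    (hfld : ∀ K' ≤ K, K'.FiniteIndex → ¬ Fld dev (hol.comp K'.subtype) H)
    (L : Subgroup K) (hL : L.FiniteIndex) :
    letI := subAct (restr D K hK) hinvH
    ¬ ∃ Z : {x : X // dev x ∈ H} → H.direction, Continuous Z ∧
      (∀ (γ : L) x, Z (γ • x) = lin (subHol hx hinvH) γ.1 (Z x)) ∧ ∀ x, Z x ≠ 0 := by
  letI := subAct (restr D K hK) hinvH
  rintro ⟨Z, hZ1, hZ2, hZ3⟩
  classical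
  have hle : L.map K.subtype ≤ K := by
    rintro _ ⟨k, -, rfl⟩
    exact k.2
  have hfin : (L.map K.subtype).FiniteIndex := by
    refine ⟨?_⟩
    rw [Subgroup.index_map_subtype]
    exact mul_ne_zero hL.index_ne_zero hK.index_ne_zero
  refine hfld _ hle hfin ⟨fun x => if h : dev x ∈ H then (Z ⟨x, h⟩ : E) else 0, ?_, ?_, ?_⟩
  · rw [continuousOn_iff_continuous_domRestrict]
    refine Continuous.congr (continuous_subtype_val.comp hZ1) fun x => ?_
    have hxH : dev x.1 ∈ H := x.2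
    show (Z x : E) = if h : dev x.1 ∈ H then (Z ⟨x.1, h⟩ : E) else 0
    rw [dif_pos hxH]
    rfl
  · intro x hx
    beta_reduce
    rw [dif_pos hx]
    exact ⟨(Z ⟨x, hx⟩).2, fun h => hZ3 ⟨x, hx⟩ (Subtype.ext h)⟩
  · rintro ⟨_, k, hk, rfl⟩ x hx
    have hγx : dev (k.1 • x) ∈ H := by rw [D.equi]; exact hinvH k _ hx
    show (if h : dev (k.1 • x) ∈ H then (Z ⟨k.1 • x, h⟩ : E) else 0)
      = lin hol k.1 (if h : dev x ∈ H then (Z ⟨x, h⟩ : E) else 0)
    rw [dif_pos hx, dif_pos hγx]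
    exact congrArg Subtype.val (hZ2 ⟨k, hk⟩ ⟨x, hx⟩)

theorem halfrays_gen (D : AffMfd X Γ E dev hol) {K : Subgroup Γ} (hK : K.FiniteIndex)
    (hx : dev x₀ ∈ H) (hinvK : ∀ γ ∈ K, ∀ q ∈ H, hol γ q ∈ H)
    (hfld : ∀ K' ≤ K, K'.FiniteIndex → ¬ Fld dev (hol.comp K'.subtype) H) {V : Type}
    [MulAction K V] {T : SimpleGraph V} (hT : T.IsTree) (ha : Aut K T) :
    ∃ v : V, (∀ u ∈ H.direction, u ≠ 0 →
      ∃ γ : K, γ • v = v ∧ ∀ c : ℝ, 0 < c → lin hol γ.1 u ≠ c • u) ∧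
      ∀ l : E →L[ℝ] ℝ, (∃ u ∈ H.direction, l u ≠ 0) → ∃ γ : K, γ • v = v ∧
        ∀ c : ℝ, 0 < c → ∃ u ∈ H.direction, l (lin hol γ.1 u) ≠ c * l u := by
  have hinvH : ∀ (γ : K), ∀ q ∈ H, (hol.comp K.subtype) γ q ∈ H :=
    fun γ q hq => hinvK γ.1 γ.2 q hq
  let _ := subAct (restr D K hK) hinvH
  have D' := subMfd (restr D K hK) hx hinvH
  obtain ⟨v, h1, h2⟩ := halfrays_full D' (no_sub D hK hx hinvH hfld) hT ha
  refine ⟨v, fun u hu hu0 => ?_, fun l ⟨u, hu, hlu⟩ => ?_⟩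
  · obtain ⟨γ, hγ, h3⟩ := h1 ⟨u, hu⟩ fun h => hu0 (congrArg Subtype.val h)
    exact ⟨γ, hγ, fun c hc h => h3 c hc (Subtype.ext h)⟩
  · obtain ⟨γ, hγ, h3⟩ := h2 (l.comp H.direction.subtypeL) fun h => hlu (by
      have := congrArg (fun m : H.direction →L[ℝ] ℝ => m ⟨u, hu⟩) h
      exact this)
    refine ⟨γ, hγ, fun c hc => ?_⟩
    by_contra hcon
    push Not at hcon
    refine h3 c hc ?_
    ext w
    exact hcon w.1 w.2

end

end Pool.Agent.R772.TT
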