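import Pool.Agent.R772.TT8

/-!
Fields at the vertices of a tree.
-/

set_option autoImplicit false

open Set Filter Topology Metric

namespace Pool.Agent.R772.TT

open Pool.Agent.W689.Ch Pool.Agent.TH845.Mk Pool.Agent.Y150.Ch
open Pool.Agent.W689.Mk (lin hol_add hol_sub hol_inv_apply hol_apply_inv lin_inv_apply lin_mul
  lin_smul lin_neg hol_cont)

section
variable {X Γ E : Type} [TopologicalSpace X] [T2Space X] [Group Γ] [MulAction Γ X]
  [NormedAddCommGroup E] [NormedSpace ℝ E] [FiniteDimensional ℝ E]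
  {dev : X → E} {hol : Γ →* (E ≃ᵃ[ℝ] E)}

variable {H : AffineSubspace ℝ E} {x₀ : X}

/-- fields at the vertices of a tree are opposite at some point and proportional at some point,
for some edge -/
theorem sign_gen (D : AffMfd X Γ E dev hol) {K : Subgroup Γ} (hK : K.FiniteIndex)
    (hx : dev x₀ ∈ H) (hinvK : ∀ γ ∈ K, ∀ q ∈ H, hol γ q ∈ H)
    (hfld : ∀ K' ≤ K, K'.FiniteIndex → ¬ Fld dev (hol.comp K'.subtype) H) {V : Type}
    [MulAction K V] {T : SimpleGraph V} (hT : T.IsTree) (ha : Aut K T) {S : V → X → E}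
    (hSc : ∀ v, ContinuousOn (S v) {x | dev x ∈ H})
    (hSd : ∀ v x, dev x ∈ H → S v x ∈ H.direction ∧ S v x ≠ 0)
    (hSe : ∀ (γ : K) v, ∃ c : ℝ, 0 < c ∧
      ∀ x, dev x ∈ H → lin hol γ.1 (S v x) = c • S (γ • v) (γ.1 • x)) :
    ∃ v w, T.Adj v w ∧ (∃ x, dev x ∈ H ∧ ∃ c : ℝ, 0 < c ∧ S w x = -(c • S v x)) ∧
      ∃ x, dev x ∈ H ∧ ∃ c : ℝ, 0 < c ∧ S w x = c • S v x := by
  by_contra hcon
  push Not at hcon
  have hinvH : ∀ (γ : K), ∀ q ∈ H, (hol.comp K.subtype) γ q ∈ H :=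
    fun γ q hq => hinvK γ.1 γ.2 q hq
  let _ := subAct (restr D K hK) hinvH
  have D' := subMfd (restr D K hK) hx hinvH
  refine sign_full D' (no_sub D hK hx hinvH hfld) hT ha
    (S := fun v x => ⟨S v x.1, (hSd v x.1 x.2).1⟩) ?_ ?_ ?_ ?_
  · intro v
    exact Continuous.subtype_mk (continuousOn_iff_continuous_domRestrict.1 (hSc v)) _
  · intro v x h
    exact (hSd v x.1 x.2).2 (congrArg Subtype.val h)
  · intro γ v
    obtain ⟨c, hc, h⟩ := hSe γ v
    exact ⟨c, hc, fun x => Subtype.ext (h x.1 x.2)⟩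
  · intro v w hvw
    by_cases h : ∃ x, dev x ∈ H ∧ ∃ c : ℝ, 0 < c ∧ S w x = -(c • S v x)
    · obtain ⟨x, hx, c, hc, h1⟩ := h
      right
      intro y c' hc' h2
      exact hcon v w hvw ⟨x, hx, c, hc, h1⟩ y.1 y.2 c' hc' (congrArg Subtype.val h2)
    · left
      intro y c' hc' h2
      exact h ⟨y.1, y.2, c', hc', congrArg Subtype.val h2⟩

end

end Pool.Agent.R772.TT
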