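import Pool.Agent.R772.FamK
import Pool.Agent.R772.BridgeH
import Pool.Agent.R772.BridgeM

/-!
Uniqueness of the symplectic forms near a closed two-form with nonnegative top power.
-/

set_option autoImplicit false

open Set Filter Topology MeasureTheory
open scoped Manifold ContDiff

noncomputable section

namespace Pool.Agent.R772

open Pool.Agent.Y501.SY

section

variable {d m : ℕ} {X : Type} [TopologicalSpace X] [ChartedSpace (E d) X]
  [IsManifold (𝓡 d) ∞ X]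

/-- all small nonnegative combinations of two admissible forms -/
theorem twoK [CompactSpace X] [T2Space X] (hd : d = 2 * (m + 1)) {vol : Top d m X}
    (hvol : IsVol vol) {σ η₁ η₂ : Form d X 2} (hσ : IsSmooth σ) (hσc : IsClosedForm σ)
    (h₁ : IsSmooth η₁) (h₁c : IsClosedForm η₁) (h₂ : IsSmooth η₂) (h₂c : IsClosedForm η₂)
    (hnn : ∀ x, NonnegTop vol σ x) (hp₁ : ∀ x, ¬ PosTop vol σ x → LinPos vol σ η₁ x)
    (hp₂ : ∀ x, ¬ PosTop vol σ x → LinPos vol σ η₂ x) :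
    ∃ t₀ : ℝ, 0 < t₀ ∧ ∀ a b : ℝ, 0 ≤ a → 0 ≤ b → 0 < a + b → a + b ≤ t₀ →
      IsSmooth (σ + (a • η₁ + b • η₂)) ∧ IsClosedForm (σ + (a • η₁ + b • η₂)) ∧
      ∀ x, PosTop vol (σ + (a • η₁ + b • η₂)) x := by
  let P : Type := Icc (0 : ℝ) 1
  let η : P → Form d X 2 := fun p => (1 - (p : ℝ)) • η₁ + (p : ℝ) • η₂
  have hσf : ContFam (fun _ : P => σ) := IsSmooth.contFam (P := P) hσ
  have hηf : ContFam η :=
    ((IsSmooth.contFam (P := P) h₁).smul (continuous_const.sub continuous_subtype_val)).add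
      ((IsSmooth.contFam (P := P) h₂).smul continuous_subtype_val)
  have hηp : ∀ p x, ¬ PosTop vol σ x → LinPos vol σ (η p) x := by
    intro p x hx
    have hp0 : 0 ≤ (p : ℝ) := p.2.1
    have hp1 : (p : ℝ) ≤ 1 := p.2.2
    have h := linPos_sum (vol := vol) (σ := σ) (x := x) (n := 2) ![1 - (p : ℝ), (p : ℝ)]
      ![η₁, η₂] (by
        intro i
        fin_cases i
        · show 0 ≤ 1 - (p : ℝ)
          linarith
        · exact hp0) (by
        intro i _
        fin_cases i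
        · exact hp₁ x hx
        · exact hp₂ x hx) (by
        rcases hp0.eq_or_lt with h0 | h0
        · refine ⟨0, ?_⟩
          show 0 < 1 - (p : ℝ)
          rw [← h0]
          norm_num
        · exact ⟨1, h0⟩)
    rw [Fin.sum_univ_two] at h
    exact h
  obtain ⟨t₀, ht₀, ht⟩ := unif (X := P × X) isCompact_univ
    (fun ε y => ∀ t : ℝ, 0 < t → t ≤ ε → PosTop vol (σ + t • η y.1) y.2)
    (fun ε ε' y hle hp t h0 h1 => hp t h0 (h1.trans hle))
    (by
      rintro ⟨p, x⟩ _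
      by_cases hx : PosTop vol σ x
      · obtain ⟨ε, hε, he⟩ := PosTop.fam hd hvol hσf hηf (p₀ := p) hx
        exact ⟨ε, hε, he.mono fun y hy t h0 h1 => hy t (by rw [abs_of_pos h0]; exact h1)⟩
      · exact LinPos.topFam hd hvol hσf hηf (fun _ x e he => hnn x e he) (hηp p x hx))
  refine ⟨t₀, ht₀, fun a b ha hb hab hle => ⟨?_, ?_, fun x => ?_⟩⟩
  · exact hσ.add ((h₁.smul a).add (h₂.smul b))
  · have h5 := (h₁c.smul a).add (h₂c.smul b) (h₁.smul a) (h₂.smul b)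
    have h6 := hσc.add h5 hσ ((h₁.smul a).add (h₂.smul b))
    have h7 : (0 : Form d X 3) + (a • (0 : Form d X 3) + b • (0 : Form d X 3)) = 0 := by
      simp
    rw [h7] at h6
    exact h6
  · have hp : b / (a + b) ∈ Icc (0 : ℝ) 1 :=
      ⟨div_nonneg hb hab.le, (div_le_one hab).2 (by linarith)⟩
    have h := ht (⟨b / (a + b), hp⟩, x) (mem_univ _) (a + b) hab hle
    have e : (a + b) • η ⟨b / (a + b), hp⟩ = a • η₁ + b • η₂ := by
      show (a + b) • ((1 - b / (a + b)) • η₁ + (b / (a + b)) • η₂) = _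
      rw [smul_add, smul_smul, smul_smul]
      congr 2
      · field_simp
        ring
      · field_simp
    rw [← e]
    exact h

/-- the homotopy class -/
theorem segAll [CompactSpace X] [T2Space X] (hd : d = 2 * (m + 1)) {vol : Top d m X}
    (hvol : IsVol vol) {σ η τ : Form d X 2} (hσ : IsSmooth σ) (hη : IsSmooth η)
    (hτ : IsSmooth τ) (hnn : ∀ x, NonnegTop vol σ x)
    (hη1 : ∀ x, ¬ PosTop vol σ x → LinPos vol σ η x)
    (hτ1 : ∀ x, ¬ PosTop vol σ x → LinPos vol σ τ x)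
    (hτ2 : ∀ x, ∀ s : ℝ, 0 ≤ s → s ≤ 1 → (PosTop vol σ x ∨ s < 1) →
      ND ((1 - s) • τ + s • σ) x) :
    ∃ t₀ : ℝ, 0 < t₀ ∧ ∀ t : ℝ, 0 < t → t ≤ t₀ → ∀ s : ℝ, 0 ≤ s → s ≤ 1 →
      ∀ x, ND ((1 - s) • τ + s • (σ + t • η)) x := by
  obtain ⟨t₀, ht₀, ht⟩ := unif isCompact_univ
    (fun ε y => ∀ t : ℝ, 0 < t → t ≤ ε → ∀ s : ℝ, 0 ≤ s → s ≤ 1 →
      ND ((1 - s) • τ + s • (σ + t • η)) y)
    (fun ε ε' y hle hp t h0 h1 => hp t h0 (h1.trans hle))
    (fun x _ => segK hd hvol hσ hη hτ hnn x (fun hx => ⟨hη1 x hx, hτ1 x hx⟩)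
      (fun s hs0 hs1 h => hτ2 x s hs0 hs1 h))
  exact ⟨t₀, ht₀, fun t h0 h1 s hs0 hs1 x => ht x (mem_univ x) t h0 h1 s hs0 hs1⟩

end

end Pool.Agent.R772
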