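import Mathlib

/-!
Wedge products of two-forms on a vector space, evaluated on families of vectors.
-/

set_option autoImplicit false

open Set Filter Topology

noncomputable section

namespace Pool.Agent.R772

variable {V : Type} [AddCommGroup V] [Module ℝ V] [TopologicalSpace V]

/-- `2 ^ n` times the value of the wedge product of the two-forms `s 0, ..., s (n - 1)` on the
`2 n` vectors `e (0, 0), e (0, 1), e (1, 0), ..., e (n - 1, 1)`. -/
def wedge {n : ℕ} (s : Fin n → V [⋀^Fin 2]→L[ℝ] ℝ) (e : Fin n × Fin 2 → V) : ℝ :=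
  ∑ π : Equiv.Perm (Fin n × Fin 2), ((Equiv.Perm.sign π : ℤ) : ℝ) *
    ∏ i, s i ![e (π (i, 0)), e (π (i, 1))]

theorem vec2 {α : Type} (f : Fin 2 → α) : ![f 0, f 1] = f := by
  funext j; fin_cases j <;> rfl

theorem prod_key {n : ℕ} (s : Fin n → V [⋀^Fin 2]→L[ℝ] ℝ) [DecidableEq (Fin n × Fin 2)]
    (e : Fin n × Fin 2 → V) (i₀ : Fin n) (j₀ : Fin 2) (z : V) :
    ∏ i, s i (fun j => Function.update e (i₀, j₀) z (i, j)) =
        (∏ i ∈ Finset.univ.erase i₀, s i (fun j => e (i, j))) *
          s i₀ (Function.update (fun j => e (i₀, j)) j₀ z) := by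
  rw [← Finset.mul_prod_erase Finset.univ _ (Finset.mem_univ i₀), mul_comm]
  congr 1
  · refine Finset.prod_congr rfl fun i hi => ?_
    congr 1
    funext j
    rw [Function.update_of_ne]
    intro h
    exact (Finset.ne_of_mem_erase hi) (congrArg Prod.fst h)
  · congr 1
    funext j
    by_cases hj : j = j₀
    · subst hj; simp
    · rw [Function.update_of_ne hj, Function.update_of_ne]
      intro h
      exact hj (congrArg Prod.snd h)

/-- the product of the values, as a multilinear map -/
def prodMl {n : ℕ} (s : Fin n → V [⋀^Fin 2]→L[ℝ] ℝ) :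
    MultilinearMap ℝ (fun _ : Fin n × Fin 2 => V) ℝ where
  toFun e := ∏ i, s i (fun j => e (i, j))
  map_update_add' := by
    intro _ e k x y
    obtain ⟨i₀, j₀⟩ := k
    rw [prod_key, prod_key, prod_key, ← mul_add]
    congr 1
    exact (s i₀).map_update_add _ j₀ x y
  map_update_smul' := by
    intro _ e k c x
    obtain ⟨i₀, j₀⟩ := k
    rw [prod_key, prod_key, (s i₀).map_update_smul _ j₀ c x, smul_eq_mul, smul_eq_mul]
    ring

/-- the wedge product as an alternating map -/
def wedgeAlt {n : ℕ} (s : Fin n → V [⋀^Fin 2]→L[ℝ] ℝ) : V [⋀^(Fin n × Fin 2)]→ₗ[ℝ] ℝ :=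
  MultilinearMap.alternatization (prodMl s)

theorem wedgeAlt_apply {n : ℕ} (s : Fin n → V [⋀^Fin 2]→L[ℝ] ℝ) (e : Fin n × Fin 2 → V) :
    wedgeAlt s e = wedge s e := by
  unfold wedgeAlt wedge
  rw [MultilinearMap.alternatization_apply]
  refine Finset.sum_congr rfl fun π _ => ?_
  rw [Units.smul_def, zsmul_eq_mul]
  congr 1
  change ∏ i, s i (fun j => e (π (i, j))) = _
  refine Finset.prod_congr rfl fun i _ => ?_
  congr 1
  funext j; fin_cases j <;> rfl

/-- in top degree, wedge products on two families of vectors are proportional -/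
theorem wedge_mul {n : ℕ} (hn : Module.finrank ℝ V = 2 * n) [FiniteDimensional ℝ V]
    (s : Fin n → V [⋀^Fin 2]→L[ℝ] ℝ) (w : V [⋀^(Fin n × Fin 2)]→ₗ[ℝ] ℝ)
    (e f : Fin n × Fin 2 → V) : wedge s e * w f = wedge s f * w e := by
  have hcard : Fintype.card (Fin n × Fin 2) = Module.finrank ℝ V := by
    rw [hn]; simp [mul_comm]
  let b : Module.Basis (Fin n × Fin 2) ℝ V :=
    (Module.finBasisOfFinrankEq ℝ V hn).reindex
      ((Fintype.equivFinOfCardEq (by simp [mul_comm])).symm)
  have h1 := AlternatingMap.eq_smul_basis_det b (wedgeAlt s)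
  have h2 := AlternatingMap.eq_smul_basis_det b w
  rw [← wedgeAlt_apply, ← wedgeAlt_apply, h1, h2]
  simp only [AlternatingMap.smul_apply, smul_eq_mul]
  ring

/-- if the wedge product of the two-forms `s i` is nonzero then they have no common kernel -/
theorem wedge_ker {n : ℕ} (hn : Module.finrank ℝ V = 2 * n) [FiniteDimensional ℝ V]
    (s : Fin n → V [⋀^Fin 2]→L[ℝ] ℝ) (e : Fin n × Fin 2 → V) (he : wedge s e ≠ 0)
    (v : V) (hv : ∀ i w, s i ![v, w] = 0) : v = 0 := by
  classical
  by_contra hne
  have hcard : Fintype.card (Fin n × Fin 2) = Module.finrank ℝ V := by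
    rw [hn]; simp [mul_comm]
  have hli : LinearIndependent ℝ e := by
    by_contra h
    apply he
    rw [← wedgeAlt_apply]
    exact (wedgeAlt s).map_linearDependent e h
  have hpos : 0 < Fintype.card (Fin n × Fin 2) := by
    rw [hcard]
    exact Module.finrank_pos_iff_exists_ne_zero.2 ⟨v, hne⟩
  have : Nonempty (Fin n × Fin 2) := Fintype.card_pos_iff.1 hpos
  let b := basisOfLinearIndependentOfCardEqFinrank hli hcard
  have hb : ⇑b = e := coe_basisOfLinearIndependentOfCardEqFinrank hli hcard
  obtain ⟨k, hk⟩ : ∃ k, b.repr v k ≠ 0 := by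
    by_contra h
    push Not at h
    apply hne
    apply b.repr.injective
    ext k
    rw [h k]; simp
  have h1 : wedge s (Function.update e k v) = 0 := by
    unfold wedge
    refine Finset.sum_eq_zero fun π _ => ?_
    obtain ⟨⟨i, j⟩, hij⟩ : ∃ q, q = π.symm k := ⟨_, rfl⟩
    have hk' : π (i, j) = k := by rw [hij]; simp
    have h0 : s i ![Function.update e k v (π (i, 0)), Function.update e k v (π (i, 1))] = 0 := by
      fin_cases j
      · have : Function.update e k v (π (i, 0)) = v := by
          have h := hk'
          simp only [Fin.zero_eta] at h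
          rw [h]; simp
        rw [this]; exact hv i _
      · have : Function.update e k v (π (i, 1)) = v := by
          have h := hk'
          simp only [Fin.mk_one] at h
          rw [h]; simp
        rw [this]
        have h5 := (s i).toAlternatingMap.map_swap
          ![Function.update e k v (π (i, 0)), v] (i := 0) (j := 1) (by decide)
        have h6 : (![Function.update e k v (π (i, 0)), v] ∘ Equiv.swap (0 : Fin 2) 1) =
            ![v, Function.update e k v (π (i, 0))] := by
          funext j; fin_cases j <;> simp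
        rw [h6] at h5
        have h7 : s i ![v, Function.update e k v (π (i, 0))] = 0 := hv i _
        have h8 : s i ![v, Function.update e k v (π (i, 0))] =
            - s i ![Function.update e k v (π (i, 0)), v] := h5
        linarith
    rw [Finset.prod_eq_zero (Finset.mem_univ i) h0, mul_zero]
  have h2 : wedge s (Function.update e k v) = b.repr v k * wedge s e := by
    rw [← wedgeAlt_apply, ← wedgeAlt_apply]
    have h3 : v = ∑ l, b.repr v l • e l := by
      conv_lhs => rw [← b.sum_repr v]
      rw [hb]
    nth_rewrite 1 [h3]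
    rw [(wedgeAlt s).map_update_sum]
    rw [Finset.sum_eq_single k]
    · rw [(wedgeAlt s).map_update_smul, Function.update_eq_self, smul_eq_mul]
    · intro l _ hl
      rw [(wedgeAlt s).map_update_smul]
      have : (wedgeAlt s) (Function.update e k (e l)) = 0 := by
        apply (wedgeAlt s).map_eq_zero_of_eq (i := k) (j := l)
        · rw [Function.update_self, Function.update_of_ne hl]
        · exact fun h => hl h.symm
      rw [this, smul_zero]
    · intro h; exact absurd (Finset.mem_univ k) h
  rw [h1] at h2
  exact (mul_ne_zero hk he) h2.symm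

end Pool.Agent.R772
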