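import Pool.Agent.R772.Wedge

/-!
Wedge products of two-forms: symmetry, derivative and continuity.
-/

set_option autoImplicit false

open Set Filter Topology

noncomputable section

namespace Pool.Agent.R772

variable {V : Type} [AddCommGroup V] [Module ℝ V] [TopologicalSpace V]

theorem wedge_symm {n : ℕ} (s : Fin n → V [⋀^Fin 2]→L[ℝ] ℝ) (ρ : Equiv.Perm (Fin n))
    (e : Fin n × Fin 2 → V) : wedge (s ∘ ρ) e = wedge s e := by
  unfold wedge
  let R : Equiv.Perm (Fin n × Fin 2) := Equiv.prodCongrLeft (fun _ : Fin 2 => ρ)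
  have hR : Equiv.Perm.sign R = 1 := by
    change Equiv.Perm.sign (Equiv.prodCongrLeft (fun _ : Fin 2 => ρ)) = 1
    rw [Equiv.Perm.sign_prodCongrLeft, Fin.prod_univ_two]
    exact Int.units_mul_self _
  rw [← Equiv.sum_comp (Equiv.mulRight R) (fun π : Equiv.Perm (Fin n × Fin 2) =>
    ((Equiv.Perm.sign π : ℤ) : ℝ) * ∏ i, (s ∘ ρ) i ![e (π (i, 0)), e (π (i, 1))])]
  refine Finset.sum_congr rfl fun π _ => ?_
  have h1 : Equiv.Perm.sign ((Equiv.mulRight R) π) = Equiv.Perm.sign π := by
    change Equiv.Perm.sign (π * R) = _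
    rw [Equiv.Perm.sign_mul, hR, mul_one]
  rw [h1]
  congr 1
  exact Equiv.prod_comp ρ (fun i => s i ![e (π (i, 0)), e (π (i, 1))])

theorem wedge_update {n : ℕ} (a b : V [⋀^Fin 2]→L[ℝ] ℝ) (i j : Fin n)
    (e : Fin n × Fin 2 → V) :
    wedge (Function.update (fun _ : Fin n => a) i b) e =
      wedge (Function.update (fun _ : Fin n => a) j b) e := by
  rw [← wedge_symm (Function.update (fun _ : Fin n => a) j b) (Equiv.swap i j)]
  congr 1
  funext k
  simp only [Function.comp_apply]
  by_cases hk : k = i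
  · subst hk; simp
  · by_cases hk' : k = j
    · subst hk'
      rw [Function.update_of_ne hk, Equiv.swap_apply_right, Function.update_of_ne]
      exact fun h => hk h.symm
    · rw [Function.update_of_ne hk, Equiv.swap_apply_of_ne_of_ne hk hk',
        Function.update_of_ne hk']

theorem cons_eq_update {m : ℕ} (a b : V [⋀^Fin 2]→L[ℝ] ℝ) :
    (Fin.cons b (fun _ : Fin m => a) : Fin (m + 1) → V [⋀^Fin 2]→L[ℝ] ℝ) =
      Function.update (fun _ : Fin (m + 1) => a) 0 b := by
  funext k
  refine Fin.cases ?_ (fun k => ?_) k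
  · simp
  · rw [Fin.cons_succ, Function.update_of_ne (Fin.succ_ne_zero k)]

/-- the derivative of the `n`-th power in the direction `b` -/
theorem hasDerivAt_wedge {m : ℕ} (a b : V [⋀^Fin 2]→L[ℝ] ℝ) (e : Fin (m + 1) × Fin 2 → V)
    (t : ℝ) : HasDerivAt (fun t : ℝ => wedge (fun _ : Fin (m + 1) => a + t • b) e)
      ((m + 1 : ℝ) * wedge (Fin.cons b (fun _ : Fin m => a + t • b)) e) t := by
  have h0 : ∀ v : Fin 2 → V, HasDerivAt (fun t : ℝ => (a + t • b) v) (b v) t := by
    intro v
    have : HasDerivAt (fun t : ℝ => a v + t * b v) (0 + 1 * b v) t :=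
      (hasDerivAt_const t _).add ((hasDerivAt_id t).mul_const _)
    simpa using this
  have h1 : HasDerivAt (fun t : ℝ => wedge (fun _ : Fin (m + 1) => a + t • b) e)
      (∑ π : Equiv.Perm (Fin (m + 1) × Fin 2), ((Equiv.Perm.sign π : ℤ) : ℝ) *
        ∑ i, (∏ j ∈ Finset.univ.erase i, (a + t • b) ![e (π (j, 0)), e (π (j, 1))]) •
          b ![e (π (i, 0)), e (π (i, 1))]) t := by
    unfold wedge
    refine HasDerivAt.fun_sum fun π _ => ?_
    refine HasDerivAt.const_mul _ ?_
    exact HasDerivAt.fun_finsetProd fun i _ => h0 _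
  convert h1 using 1
  have h2 : ∀ i : Fin (m + 1), wedge (Fin.cons b (fun _ : Fin m => a + t • b)) e =
      ∑ π : Equiv.Perm (Fin (m + 1) × Fin 2), ((Equiv.Perm.sign π : ℤ) : ℝ) *
        ((∏ j ∈ Finset.univ.erase i, (a + t • b) ![e (π (j, 0)), e (π (j, 1))]) •
          b ![e (π (i, 0)), e (π (i, 1))]) := by
    intro i
    rw [cons_eq_update, wedge_update _ _ 0 i]
    unfold wedge
    refine Finset.sum_congr rfl fun π _ => ?_
    congr 1
    rw [← Finset.mul_prod_erase Finset.univ _ (Finset.mem_univ i), Function.update_self,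
      smul_eq_mul, mul_comm]
    congr 1
    refine Finset.prod_congr rfl fun j hj => ?_
    rw [Function.update_of_ne (Finset.ne_of_mem_erase hj)]
  calc (m + 1 : ℝ) * wedge (Fin.cons b (fun _ : Fin m => a + t • b)) e
      = ∑ _i : Fin (m + 1), wedge (Fin.cons b (fun _ : Fin m => a + t • b)) e := by
        rw [Finset.sum_const, Finset.card_univ, Fintype.card_fin, nsmul_eq_mul]; push_cast; ring
    _ = ∑ i : Fin (m + 1), ∑ π : Equiv.Perm (Fin (m + 1) × Fin 2),
        ((Equiv.Perm.sign π : ℤ) : ℝ) *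
        ((∏ j ∈ Finset.univ.erase i, (a + t • b) ![e (π (j, 0)), e (π (j, 1))]) •
          b ![e (π (i, 0)), e (π (i, 1))]) := Finset.sum_congr rfl fun i _ => h2 i
    _ = _ := by
        rw [Finset.sum_comm]
        refine Finset.sum_congr rfl fun π _ => ?_
        rw [Finset.mul_sum]

theorem wedge_cons_linear {m : ℕ} (a : V [⋀^Fin 2]→L[ℝ] ℝ) (b c : V [⋀^Fin 2]→L[ℝ] ℝ) (r : ℝ)
    (e : Fin (m + 1) × Fin 2 → V) :
    wedge (Fin.cons (b + r • c) (fun _ : Fin m => a)) e =
      wedge (Fin.cons b (fun _ : Fin m => a)) e + r * wedge (Fin.cons c (fun _ : Fin m => a)) e := by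
  unfold wedge
  rw [Finset.mul_sum, ← Finset.sum_add_distrib]
  refine Finset.sum_congr rfl fun π _ => ?_
  rw [Fin.prod_univ_succ, Fin.prod_univ_succ, Fin.prod_univ_succ]
  simp only [Fin.cons_zero, Fin.cons_succ]
  have : (b + r • c) ![e (π (0, 0)), e (π (0, 1))] = b ![e (π (0, 0)), e (π (0, 1))] +
      r * c ![e (π (0, 0)), e (π (0, 1))] := rfl
  rw [this]; ring

/-- wedge products depend continuously on the forms and on the vectors -/
theorem continuous_wedge {V : Type} [NormedAddCommGroup V] [NormedSpace ℝ V] {n : ℕ} {T : Type} [TopologicalSpace T]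
    {s : T → Fin n → V [⋀^Fin 2]→L[ℝ] ℝ} {e : T → Fin n × Fin 2 → V} {S : Set T}
    (hs : ∀ i, ContinuousOn (fun t => s t i) S) (he : ∀ k, ContinuousOn (fun t => e t k) S) :
    ContinuousOn (fun t => wedge (s t) (e t)) S := by
  unfold wedge
  refine continuousOn_finsetSum _ fun π _ => ?_
  refine ContinuousOn.mul continuousOn_const ?_
  refine continuousOn_finsetProd _ fun i _ => ?_
  have h1 : ContinuousOn (fun t => ((s t i), (![e t (π (i, 0)), e t (π (i, 1))] : Fin 2 → V))) S := by
    refine (hs i).prodMk ?_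
    refine continuousOn_pi.2 fun j => ?_
    fin_cases j
    · exact he _
    · exact he _
  have h2 : Continuous (fun p : (V [⋀^Fin 2]→L[ℝ] ℝ) × (Fin 2 → V) => p.1 p.2) :=
    continuous_eval
  exact h2.comp_continuousOn h1

end Pool.Agent.R772
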